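import Pool.Agent.P.MP_f1a348_lc.UP.Iface

namespace Pool.Agent.P.MP_f1a348_lc.UP

open Matrix Module Pool.Agent.P.MP_f1a348_lc.PG
open scoped commutatorElement

namespace GENCFz

variable {p n : ℕ} {ℓ : Ix n → ℕ} {S : Set (Ix n)}

theorem lc_in (hS : Clo ℓ S) (x : Mat p n) {α : Ix n} (hα : α ∈ S) (β : Ix n) :
    lc ℓ S x α β = gr ℓ x α β := by
  classical
  have e : lc ℓ S x = eS S * gr ℓ x * eS S + x (c0 n) (c0 n) • (1 - eS S) := rfl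
  rw [e, Matrix.add_apply, Matrix.smul_apply, Matrix.sub_apply, eS, Matrix.mul_diagonal,
    Matrix.diagonal_mul, if_pos hα, one_mul, Matrix.one_apply, Matrix.diagonal_apply, if_pos hα,
    sub_self, smul_zero, add_zero]
  by_cases hβ : β ∈ S
  · rw [if_pos hβ, mul_one]
  · rw [if_neg hβ, mul_zero, gr_apply, if_neg fun e => hβ (hS.blk α β e hα)]

theorem lc_out (x : Mat p n) {α : Ix n} (hα : α ∉ S) (β : Ix n) :
    lc ℓ S x α β = x (c0 n) (c0 n) * (1 : Mat p n) α β := by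
  classical
  have e : lc ℓ S x = eS S * gr ℓ x * eS S + x (c0 n) (c0 n) • (1 - eS S) := rfl
  rw [e, Matrix.add_apply, Matrix.smul_apply, Matrix.sub_apply, eS, Matrix.mul_diagonal,
    Matrix.diagonal_mul, if_neg hα, zero_mul, zero_mul, zero_add, Matrix.diagonal_apply, if_neg hα,
    ite_self, sub_zero, smul_eq_mul]

theorem clo_compl (hS : Clo ℓ S) : Clo ℓ Sᶜ :=
  ⟨fun α β e h h' => h (hS.blk β α e.symm h'), fun α h h' => h (by simpa using hS.rev _ h')⟩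

theorem lc_compl (hS : Clo ℓ S) {x : Mat p n} (hx : x (c0 n) (c0 n) = 1) :
    lc ℓ Sᶜ x = 1 ↔ lc ℓ S x = gr ℓ x := by
  refine ⟨fun h => ?_, fun h => ?_⟩ <;> ext α β <;> by_cases hα : α ∈ S
  · exact lc_in hS x hα β
  · rw [lc_out x hα, hx, one_mul, ← h, lc_in (clo_compl hS) x hα]
  · rw [lc_out x (not_not.2 hα), hx, one_mul]
  · rw [lc_in (clo_compl hS) x hα, ← h, lc_out x hα, hx, one_mul]

/-- a triangular matrix that is trivial off `S` -/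
theorem fine (hS : Clo ℓ S) (hle : ∀ α β, lS ℓ S α ≤ lS ℓ S β → ℓ α ≤ ℓ β) {u : Mat p n}
    (hu : Tri ℓ u) (h : lc ℓ S u = gr ℓ u) : Tri (lS ℓ S) u ∧ gr (lS ℓ S) u = gr ℓ u := by
  have key : ∀ α β, u α β ≠ 0 → ℓ α = ℓ β → lS ℓ S α = lS ℓ S β := fun α β e e' => by
    by_cases hα : α ∈ S
    · simp only [lS, if_pos hα, if_pos (hS.blk α β e' hα), e']
    · by_cases hαβ : α = β
      · rw [hαβ]
      · have h1 := lc_out (ℓ := ℓ) u hα β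
        rw [h, gr_apply, if_pos e', Matrix.one_apply_ne hαβ, mul_zero] at h1
        exact absurd h1 e
  refine ⟨fun α β e => ⟨?_, (hu α β e).2⟩, ?_⟩
  · rcases (hu α β e).1.eq_or_lt with e' | e'
    · exact (key α β e e').le
    · exact not_lt.1 fun h' => absurd (hle _ _ h'.le) (not_le.2 e')
  · ext α β
    rw [gr_apply, gr_apply]
    by_cases e : u α β = 0
    · rw [e, ite_self, ite_self]
    · by_cases e' : ℓ α = ℓ β
      · rw [if_pos e', if_pos (key α β e e')]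
      · rw [if_neg e', if_neg fun h' => e' (le_antisymm (hle _ _ h'.le) (hle _ _ h'.ge))]

variable [Fact p.Prime]

theorem un_gr (hE : S_ENV p n) {R : Sub p n} {f : GG p n} (hR : SA R) (hl : Lab ℓ)
    (ht : TriR R f ℓ) {x : Mat p n} (hx : x ∈ R) : st x * x - 1 ∈ R ∧
    gr ℓ (fr f (st x * x - 1)) = st (gr ℓ (fr f x)) * gr ℓ (fr f x) - 1 ∧
    gr ℓ (fr f x) (c0 n) (c0 n) = x (c0 n) (c0 n) := by
  refine ⟨sub_mem (hR.mul _ (hR.star x hx) x hx) hR.one, ?_, ?_⟩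
  · rw [map_sub, map_sub, (hE.2.1 f (st x) x).1, (hE.2.1 f x x).2.1, (hE.2.1 f x x).2.2.1, gr_one,
      gr_mul ((ht x hx).st hl) (ht x hx), gr_st hl]
  · rw [gr_apply, if_pos rfl, ((hE.2.1 f x x).2.2.2.2.2.1 (hR.dg x hx)).2]

end GENCFz

open GENCFz in
theorem s_GENCF (p n : ℕ) [Fact p.Prime] (b : TB p n) (hSPAN : S_SPAN p n) : S_GENCF p n := by
  classical
  intro N R f ℓ S hR hN cf hS hS1 hS2 Y hY
  have hE := b.env
  obtain ⟨eZ, efr, econj, eR, eB, -, -⟩ := b.env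
  obtain ⟨-, r1, r2⟩ := b.rad R f ℓ hR cf.lab cf.tri
  obtain ⟨hB, r3⟩ := r2 cf
  obtain ⟨hBG, hCb, hT1, hT2, hle⟩ := b.lcs ℓ S _ hB hS
  replace hle := (hle hS1).2
  obtain ⟨-, -, -, hx, hin, -, -, hlS, -, -⟩ := b.lc.1 ℓ S cf.lab hS
  obtain ⟨-, -, -, -, -, -, -, -, -, hkb⟩ := b.lc.1 ℓ Sᶜ cf.lab (clo_compl hS)
  set B := gB R f ℓ with hBdef
  set BG := B.map (lc ℓ S) with hBGdef
  set N' := N ⊓ KB f ℓ Sᶜ with hN'
  have hG : Giant (lS ℓ S) BG := fun a ha => by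
    have haS : a ∈ S := by_contra fun h => ha (hT2 a h)
    have := hS2 a haS fun h => ha ((hT1 a haS).2 h)
    rwa [eb, hCb a haS a haS, (hin a haS).1]
  have gt : ∀ g ∈ N, Tri ℓ (fr f g.1) := fun g hg => cf.tri _ (hN.1 g hg)
  have gp : ∀ g ∈ N, Par ℓ (fr f g.1) := fun g hg =>
    ⟨gt g hg, by rw [← econj]; exact (f⁻¹ * g * f).2.2⟩
  have gk : ∀ g ∈ N, g ∈ KB f ℓ Sᶜ ↔ lc ℓ S (fr f g.1) = gr ℓ (fr f g.1) := fun g hg =>
    (hkb f g (gt g hg)).2.trans (lc_compl hS (gp g hg).2.2)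
  have rmul : ∀ g ∈ N, ∀ h ∈ N, gr ℓ (fr f (g * h).1) = gr ℓ (fr f g.1) * gr ℓ (fr f h.1) :=
    fun g hg h hh => by rw [val_mul, (efr f g.1 h.1).1, gr_mul (gt g hg) (gt h hh)]
  have into : ∀ g ∈ N', U1 BG (gr ℓ (fr f g.1)) := fun g hg => by
    refine ⟨?_, ((gp g hg.1).gr cf.lab).2⟩
    rw [← (gk g hg.1).1 hg.2, ← (hx _).2.2.2.1]
    exact Submodule.mem_map_of_mem ⟨g.1, hN.1 g hg.1, rfl⟩
  have onto : ∀ z, U1 BG z → ∃ g ∈ N', gr ℓ (fr f g.1) = z := fun z hz => by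
    obtain ⟨x, hxR, hxz⟩ := hle hz.1
    replace hxz : gr ℓ (fr f x) = z := hxz
    obtain ⟨u1, u2, u3⟩ := un_gr hE hR cf.lab cf.tri hxR
    rw [hxz] at u2 u3
    obtain ⟨g, hg, hgx⟩ := hN.2 x hxR (by rw [← u3, hz.2.2])
      (r1 _ u1 (by rw [u2, hz.2.1.st_mul, sub_self]))
    have e := r3 _ hgx
    rw [map_sub, map_sub, hxz, sub_eq_zero] at e
    refine ⟨g, ⟨hg, (gk g hg).2 ?_⟩, e⟩
    rw [← (hx _).2.2.2.1, e]
    obtain ⟨z0, -, hz0⟩ := hz.1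
    ext α β
    by_cases hα : α ∈ S
    · rw [lc_in hS z hα, (hB.alg.dg z (hle hz.1)).gr_eq]
    · rw [lc_out z hα, ← hz0, lc_out z0 hα, (hx z0).2.2.1]
  obtain ⟨o1, -, o3, -⟩ := b.op (GG p n)
  obtain ⟨hYle, hYpp, hYpow, -, hYnm⟩ := o1 N'
  rw [← hY] at hYle hYpp hYpow hYnm
  have hYn : Nm N' Y := hYnm N' fun g hg k hk => mul_mem (mul_mem hg hk) (inv_mem hg)
  have hZ : ∀ g : GG p n, g ∈ UG BG ↔ g.1 ∈ BG := (eR BG (eB _ _ hBG.lab hBG.alg).1).1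
  have upar : ∀ z, U1 BG z → Par (l0 n) z := fun z hz => (hz.lev hBG.lab hBG.alg).par.l0
  have hZpp : PP p (UG BG) := fun ψ hψ a ha => by
    have := b.wp _ _ hBG (fun z => if h : Par (l0 n) z then ψ ⟨z, h⟩ else 0) (fun x hx y hy => by
      rw [dif_pos (upar x hx), dif_pos (upar y hy), dif_pos ((upar x hx).mul (upar y hy))]
      exact hψ ⟨x, upar x hx⟩ ((hZ _).2 hx.1) ⟨y, upar y hy⟩ ((hZ _).2 hy.1)) a.1
      ⟨(hZ a).1 ha, a.2.2⟩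
    simp only [dif_pos a.2] at this
    exact this
  have onto' : ∀ z, U1 BG z → ∃ y ∈ Y, gr ℓ (fr f y.1) = z := fun z hz => by
    refine o3 (UG BG) (sg (fun g' => ∃ y ∈ Y, gr ℓ (fr f y.1) = g'.1)
      ⟨1, one_mem _, by rw [val_one, (efr f 1 1).2.2.1, gr_one]⟩ ?_) hZpp ?_ ?_
      (x := ⟨z, upar z hz⟩) ((hZ _).2 hz.1)
    · rintro a c ⟨y, hy, e⟩ ⟨y', hy', e'⟩
      exact ⟨y * y', mul_mem hy hy', by rw [rmul y (hYle hy).1 y' (hYle hy').1, e, e', val_mul]⟩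
    · rintro a ha c ⟨y, hy, e⟩
      obtain ⟨g, hg, e'⟩ := onto a.1 ⟨(hZ a).1 ha, a.2.2⟩
      refine ⟨g * y * g⁻¹, hYn g hg y hy, ?_⟩
      rw [rmul _ (mul_mem hg.1 (hYle hy).1) _ (inv_mem hg.1), rmul g hg.1 y (hYle hy).1, val_inv,
        (efr f g.1 g.1).2.1, gr_st cf.lab, e, e', val_mul, val_mul, val_inv]
    · intro a ha
      obtain ⟨g, hg, e'⟩ := onto a.1 ⟨(hZ a).1 ha, a.2.2⟩
      obtain ⟨k, hk⟩ := hYpow g hg
      refine ⟨k, g ^ p ^ k, hk, ?_⟩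
      induction p ^ k with
      | zero => rw [pow_zero, pow_zero, val_one, (efr f 1 1).2.2.1, gr_one]
      | succ m ih => rw [pow_succ, pow_succ, rmul _ (pow_mem hg.1 m) g hg.1, ih, e', val_mul]
  have hf : ∀ y ∈ Y, Tri (lS ℓ S) (fr f y.1) ∧ gr (lS ℓ S) (fr f y.1) = gr ℓ (fr f y.1) :=
    fun y hy => fine hS hlS (gt y (hYle hy).1) ((gk y (hYle hy).1).1 (hYle hy).2)
  obtain ⟨y1, y2, -, -, -, y6, y7⟩ := eZ Y
  have htri : TriR (Env Y) f (lS ℓ S) := (y6 f _).2 fun y hy => (hf y hy).1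
  have hgr : ∀ x ∈ Env Y, gr (lS ℓ S) (fr f x) = gr ℓ (fr f x) :=
    (y7 (LinearMap.eqLocus (gr (lS ℓ S) ∘ₗ fr f) (gr ℓ ∘ₗ fr f))).2 fun y hy => (hf y hy).2
  have hgB : gB (Env Y) f (lS ℓ S) = BG := by
    refine le_antisymm (Submodule.map_le_iff_le_comap.2 ((y7 _).2 fun y hy => ?_))
      ((hSPAN _ _ hBG fun a ha => le_trans (by norm_num) (hG.big hBG a ha)).trans
        (Submodule.span_le.2 fun z hz => ?_))
    · have := (into y (hYle hy)).1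
      rwa [← (hf y hy).2] at this
    · obtain ⟨y, hy, e⟩ := onto' z hz
      exact ⟨y.1, y2 y hy, (hf y hy).2.trans e⟩
  have cf' : CF (Env Y) f (lS ℓ S) := ⟨hBG.lab, htri, by rw [hgB]; exact hBG.sim⟩
  refine ⟨(b.stcf.1 Y f _ cf').2 ⟨hYpp, by rw [hgB]; exact hG⟩, ⟨y2, fun x hxY hx1 hx2 => ?_⟩, cf',
    hgB, hgr, onto', into⟩
  obtain ⟨-, q1, q2⟩ := b.rad (Env Y) f _ y1 hBG.lab htri
  obtain ⟨-, u2, u3⟩ := un_gr hE y1 hBG.lab htri hxY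
  rw [(q2 cf').2 _ hx2] at u2
  obtain ⟨y, hy, e⟩ := onto' (gr (lS ℓ S) (fr f x))
    ⟨by rw [← hgB]; exact ⟨x, hxY, rfl⟩, sub_eq_zero.1 u2.symm, u3.trans hx1⟩
  exact ⟨y, hy, q1 _ (sub_mem (y2 y hy) hxY) (by rw [map_sub, map_sub, (hf y hy).2, e, sub_self])⟩

end Pool.Agent.P.MP_f1a348_lc.UP
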