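import Pool.Agent.P.MP_f1a348_lc.UP.Iface

namespace Pool.Agent.P.MP_f1a348_lc.UP

open Matrix Module Pool.Agent.P.MP_f1a348_lc.PG
open scoped commutatorElement

namespace LOCSTz

variable {p n : ℕ} [Fact p.Prime]

/-- the non-trivial blocks that are not isomorphic to a block of `I` -/
def Off (ℓ : Ix n → ℕ) (B : Sub p n) (I : Set (Ix n)) : Set (Ix n) :=
  {c | ¬ Triv ℓ B c ∧ ∀ a ∈ I, Cb ℓ B a c = ⊥}

variable {ℓ : Ix n → ℕ} {B R : Sub p n} {I S : Set (Ix n)} {f : GG p n}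

theorem off_clo (h : Str ℓ B) (hI : ∀ a ∈ I, a.rev ∈ I) : Clo ℓ (Off ℓ B I) where
  blk α β e hα := ⟨fun t => hα.1 ((Triv_congr e).2 t), fun a ha => by
    rw [← Cb_congr rfl e]; exact hα.2 a ha⟩
  rev α hα := ⟨fun t => hα.1 ((triv_rev h).1 t), fun a ha => by
    by_contra e
    have h1 := cb_symm h (cb_rev h e)
    rw [Fin.rev_rev] at h1
    exact h1 (hα.2 _ (hI a ha))⟩

theorem off_iso (h : Str ℓ B) : ∀ α ∈ Off ℓ B I, ∀ β, Cb ℓ B α β ≠ ⊥ → β ∈ Off ℓ B I :=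
  fun α hα β e => ⟨fun t => hα.1 ((triv_iff h e).2 t), fun a ha => by
    by_contra e'
    exact cb_trans h e' (cb_symm h e) (hα.2 a ha)⟩

theorem mi_iff (hB : S_BLK p n) (hR : SA R) (hc : CF R f ℓ) (h : Str ℓ (gB R f ℓ)) {x : Mat p n}
    (hx : x ∈ R) (h0 : x (c0 n) (c0 n) = 0) :
    x ∈ MI R f ℓ I ↔ ∀ c ∉ Off ℓ (gB R f ℓ) I, x ∈ MI R f ℓ {c} := by
  obtain ⟨b1, b2, b3⟩ := hB R f ℓ hR hc
  rw [(b3 I).2.1]
  refine ⟨fun H c hc => ?_, fun H => ⟨hx, fun a ha => H a fun e => cb_refl h.alg a (e.2 a ha)⟩⟩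
  by_cases t : Triv ℓ (gB R f ℓ) c
  · rw [((b1 c).2.2.2.1 (c0 n)).2 t]
    exact (b2 x).2 ⟨hx, h0⟩
  · obtain ⟨a, ha, e⟩ : ∃ a ∈ I, Cb ℓ (gB R f ℓ) a c ≠ ⊥ := by
      by_contra hn
      push Not at hn
      exact hc ⟨t, hn⟩
    rw [← ((b1 a).2.2.2.1 c).2 e]
    exact H.2 a ha

theorem lc_eq (hS : Clo ℓ S) {x : Mat p n} (h0 : fr f x (c0 n) (c0 n) = 0)
    (H : ∀ c ∉ S, x ∈ MI R f ℓ {c}) : lc ℓ S (gr ℓ (fr f x)) = gr ℓ (fr f x) := by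
  have e0 : gr ℓ (fr f x) (c0 n) (c0 n) = 0 := by rw [gr_apply, if_pos rfl, h0]
  change eS S * gr ℓ (gr ℓ (fr f x)) * eS S + gr ℓ (fr f x) (c0 n) (c0 n) • (1 - eS S) = _
  rw [e0, zero_smul, add_zero, gr_gr]
  ext β γ
  rw [eS, Matrix.mul_diagonal, Matrix.diagonal_mul, gr_apply]
  by_cases e : ℓ β = ℓ γ
  · by_cases hβ : β ∈ S
    · rw [if_pos hβ, if_pos (hS.blk β γ e hβ), one_mul, mul_one]
    · rw [if_pos e, (H β hβ).2 β rfl β γ rfl e.symm, mul_zero, zero_mul]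
  · rw [if_neg e, mul_zero, zero_mul]

end LOCSTz

open LOCSTz in
theorem s_LOCST (p n : ℕ) [Fact p.Prime] (b : TB p n) (hCLIFF : S_CLIFF p n)
    (hGENCF : S_GENCF p n) : S_LOCST p n := by
  intro s h0 hs
  obtain ⟨eZ, eF, -⟩ := b.env
  have hR : SA (Env s.X) := (eZ s.X).1
  have hT : TriR (Env s.X) s.f s.ℓ := fun x hx => h0.tri x ((eZ s.X).2.2.1 _ h0.le hx)
  obtain ⟨f, ℓ, hf, hc⟩ := (b.cfx _ s.f s.ℓ h0.lab hT).2.2 hR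
  obtain ⟨-, r2, r3⟩ := b.rad _ f ℓ hR hc.lab hc.tri
  have hB := (r3 hc).1
  have hG := ((b.stcf.1 s.X f ℓ hc).1 h0.stable).2
  obtain ⟨-, c2, -, c4, -, -, c7, -⟩ := b.coc s h0
  have hclo := off_clo (I := s.lam) hB c2.rev
  have hcl := (hCLIFF s h0 hs).2.2 f ℓ hf hc
  have hN : s.X ⊓ s.N1 = s.X ⊓ KB f ℓ (Off ℓ (gB (Env s.X) f ℓ) s.lam)ᶜ := by
    ext y
    simp only [Subgroup.mem_inf]
    refine and_congr_right fun hy => ?_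
    have m1 : y.1 ∈ Env s.X := (eZ s.X).2.1 y hy
    have m2 : y.1 - 1 ∈ Env s.X := sub_mem m1 hR.one
    have e0 : (y.1 - 1) (c0 n) (c0 n) = 0 := by
      rw [Matrix.sub_apply, y.2.2.2, Matrix.one_apply_eq, sub_self]
    rw [(c7 y (h0.le hy)).2.1, ← c4, ← sub_eq_zero, ← map_sub, hcl _ m2, and_iff_left e0,
      mi_iff b.blk hR hc hB m2 e0, mem_KB]
    exact forall₂_congr fun α _ => (((b.blk _ f ℓ hR hc).1 α).2.2.2.2.2 y m1).symm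
  obtain ⟨g1, -, -, g4, g5, g6, g7⟩ := hGENCF s.X (Env s.X) f ℓ _ hR h0.full hc hclo (off_iso hB)
    (fun α _ t => hG α t) _ rfl
  rw [← hN] at g1 g4 g5 g6 g7
  have hY : Op p (s.X ⊓ s.N1) ≤ s.X := ((b.op _).1 _).1.trans inf_le_left
  refine ⟨g1, fun y hy => ?_, fun x hx e => ?_⟩
  · have hu := g7 y hy
    obtain ⟨z, hz, ez⟩ := g6 _ hu
    have m1 : y.1 ∈ Env s.X := (eZ s.X).2.1 y hy.1
    have m2 : st z.1 ∈ Env s.X := hR.star _ ((eZ s.X).2.1 z (hY hz))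
    refine ⟨z, hz, r2 _ (sub_mem (hR.mul _ m2 _ m1) hR.one) ?_⟩
    rw [map_sub, map_sub, val_mul, val_inv, (eF f _ _).1, gr_mul (hc.tri _ m2) (hc.tri _ m1),
      (eF f z.1 1).2.1, gr_st hc.lab, ez, hu.2.1.st_mul, (eF f 1 1).2.2.1, gr_one, sub_self]
  · obtain ⟨m1, e0⟩ := (hcl x hx).1 e
    have e1 := lc_eq hclo (((eF f x 1).2.2.2.2.2.1 (hR.dg x hx)).2.trans e0)
      ((mi_iff b.blk hR hc hB hx e0).1 m1)
    have m2 : gr ℓ (fr f x) ∈ gB (Env (Op p (s.X ⊓ s.N1))) f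
        (lS ℓ (Off ℓ (gB (Env s.X) f ℓ) s.lam)) := by
      rw [g4]
      exact ⟨_, ⟨x, hx, rfl⟩, e1⟩
    obtain ⟨z, hz, ez⟩ := m2
    refine ⟨z, hz, r2 _ (sub_mem hx ((eZ _).2.2.1 _ hY hz)) ?_⟩
    rw [map_sub, map_sub, ← g5 z hz, ← ez, LinearMap.comp_apply, sub_self]

end Pool.Agent.P.MP_f1a348_lc.UP
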