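import Pool.Agent.P.MP_f1a348_lc.UP.Defs

/-!
Project UP: the statements of the mathematical tasks.
-/

namespace Pool.Agent.P.MP_f1a348_lc.UP

open Matrix Module Pool.Agent.P.MP_f1a348_lc.PG
open scoped commutatorElement

/-! ### abstract groups -/

def S_SOL : Prop := ∀ (Γ : Type) [Group Γ],
  (∀ (k : ℕ) (Y : Subgroup Γ), der k Y ≤ Y) ∧
  (∀ (k : ℕ) (Y Y' : Subgroup Γ), Y ≤ Y' → der k Y ≤ der k Y') ∧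
  (∀ (k l : ℕ) (Y : Subgroup Γ), der (k + l) Y = der l (der k Y)) ∧
  (∀ (k : ℕ) (H Y : Subgroup Γ), Nm H Y → Nm H (der k Y)) ∧
  (∀ Y N : Subgroup Γ, Y ≤ N → SolvMod Y N) ∧
  (∀ Y N : Subgroup Γ, (∀ a ∈ Y, ∀ b ∈ Y, ⁅a, b⁆ ∈ N) → SolvMod Y N) ∧
  (∀ Y Y' N N' : Subgroup Γ, Y' ≤ Y → N ≤ N' → SolvMod Y N → SolvMod Y' N') ∧
  (∀ Y M N : Subgroup Γ, SolvMod Y M → SolvMod (Y ⊓ M) N → SolvMod Y N) ∧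
  (∀ Y A M N : Subgroup Γ, (∀ y ∈ Y, ∃ x ∈ A, x⁻¹ * y ∈ N) → Nm A N → SolvMod A M →
    SolvMod Y (N ⊔ M)) ∧
  (∀ (S : Set Γ) (N : Subgroup Γ), Nm (Subgroup.closure S) N → (∀ a ∈ S, ∀ b ∈ S, ⁅a, b⁆ ∈ N) →
    ∀ a ∈ Subgroup.closure S, ∀ b ∈ Subgroup.closure S, ⁅a, b⁆ ∈ N) ∧
  (∀ H X : Subgroup Γ, X ≤ Ncl H X ∧ Nm H (Ncl H X) ∧ ∀ N, X ≤ N → Nm H N → Ncl H X ≤ N) ∧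
  (∀ H M N : Subgroup Γ, Nm H M → Nm H N → Nm H (M ⊓ N) ∧ Nm H (M ⊔ N)) ∧
  (∀ H H' N : Subgroup Γ, H' ≤ H → Nm H N → Nm H' N) ∧ (∀ H : Subgroup Γ, Nm H H) ∧
  ∀ (R : List Γ) (H Q : Subgroup Γ), (∀ g ∈ H, ∃ t ∈ R, t⁻¹ * g ∈ Q) → Q.relIndex H ≤ R.length

/-- kernel and lifts; comparison of indices -/
def S_KL : Prop := ∀ (Γ : Type) [Group Γ] [Finite Γ] (D K A P : Subgroup Γ), Nm D K → A ≤ D →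
  P ≤ D → (∃ Q : Subgroup Γ, ∀ a, a ∈ Q ↔ a ∈ A ∧ ∃ g ∈ P, g⁻¹ * a ∈ K) ∧
  (∀ S Z : Set Γ, Subgroup.closure Z = P → (∀ a ∈ S, a ∈ A ∧ ∃ g ∈ P, g⁻¹ * a ∈ K) →
    A ⊓ K ≤ Subgroup.closure S → (∀ g ∈ Z, ∃ a ∈ Subgroup.closure S, g⁻¹ * a ∈ K) →
    ∀ a, a ∈ Subgroup.closure S ↔ a ∈ A ∧ ∃ g ∈ P, g⁻¹ * a ∈ K) ∧
  (∀ P' Q : Subgroup Γ, (∀ a ∈ A, ∃ g ∈ P, g⁻¹ * a ∈ K) →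
    (∀ a ∈ A, ∀ g ∈ P ⊓ P', g⁻¹ * a ∈ K → a ∈ Q) → Q.relIndex A ≤ P'.relIndex P) ∧
  ∀ A' A'' : Subgroup Γ, A'' ≤ A' → A' ≤ A →
    (K ⊔ A'').relIndex (A ⊓ (K ⊔ A')) ≤ A''.relIndex A'

section
variable (p : ℕ) [Fact p.Prime]

def S_OP : Prop := ∀ (Γ : Type) [Group Γ] [Finite Γ],
  (∀ Z : Subgroup Γ, Op p Z ≤ Z ∧ PP p (Op p Z) ∧ (∀ x ∈ Z, ∃ k : ℕ, x ^ p ^ k ∈ Op p Z) ∧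
    (∀ Y, Y ≤ Z → PP p Y → Y ≤ Op p Z) ∧ ∀ H, Nm H Z → Nm H (Op p Z)) ∧
  (∀ Z : Subgroup Γ, Fr p Z ≤ Z ∧ (∀ H, Nm H Z → Nm H (Fr p Z)) ∧
    (∀ a ∈ Z, ∀ b ∈ Z, ⁅a, b⁆ ∈ Fr p Z) ∧ (∀ Y, Y ≤ Z → PP p Y → Y ≤ Fr p Z) ∧
    (Z ≤ Fr p Z → PP p Z)) ∧
  (∀ Z M : Subgroup Γ, PP p Z → Nm Z M → (∀ x ∈ Z, ∃ k : ℕ, x ^ p ^ k ∈ M) → Z ≤ M) ∧
  (∀ H X : Subgroup Γ, PP p X → PP p (Ncl H X)) ∧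
  (∀ x : Γ, ∃ a b j k : ℕ, x = x ^ a * x ^ b ∧ (x ^ a) ^ p ^ j = 1 ∧ (x ^ b) ^ k = 1 ∧
    k.Coprime p) ∧
  ∀ (S : Set Γ) (N : Subgroup Γ), N ≤ Fr p (Subgroup.closure S) → Nm (Subgroup.closure S) N →
    (∀ a ∈ S, a ^ p ∈ N) → (∀ a ∈ S, ∀ b ∈ S, ⁅a, b⁆ ∈ N) → N = Fr p (Subgroup.closure S)

def S_KID : Prop := ∀ (Γ : Type) [Group Γ] [Finite Γ],
  (∀ c c' (G G' : Subgroup Γ) F, Kids p c G F → c ≤ c' → G' ≤ G → Kids p c' G' F) ∧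
  (∀ c (G : Subgroup Γ) F F', Kids p c G F → Kids p c G F' → Kids p c G (F ++ F')) ∧
  (∀ F F' : List (Rec Γ), topI (F ++ F') = topI F ⊓ topI F') ∧ topI ([] : List (Rec Γ)) = ⊤ ∧
  (∀ (K P : Subgroup Γ) (F F' : List (Rec Γ)),
    topI ((0, K, P) :: (up F ++ F')) = K ⊓ topI F') ∧
  (∀ c (G : Subgroup Γ) F, Kids p c G F → (∀ r ∈ F, r.1 < F.length) ∧
    topI F = (⨅ r ∈ tops F, r.1.1) ∧ ∀ r ∈ tops F, Nm G r.1.1 ∧ ∃ c0 c',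
      r.1.2.relIndex G ≤ p ^ c0 ∧ c0 + 1 + c' ≤ c ∧ Val p c' (G ⊓ r.1.2) r.1.1 r.2) ∧
  ∀ c c' (G G' N N' : Subgroup Γ) F F', Val p c G N F → G' ≤ G → c' ≤ c → Kids p c' G' F' →
    SolvMod (G' ⊓ N ⊓ topI F') N' → Val p c G' N' (F ++ F')

/-! ### abstract representations -/

def S_ACW : Prop := ∀ (W : Type) [AddCommGroup W] [Module (ZMod p) W] [Finite W]
  (R : Subalgebra (ZMod p) (Module.End (ZMod p) W)), IsSemisimpleModule R W →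
  ∃ w : W, ∀ y, ∃ r ∈ R, ∃ c : Module.End (ZMod p) W, (∀ r' ∈ R, c * r' = r' * c) ∧ y = r w + c w

def S_CYB : Prop := ∀ (Γ W : Type) [Group Γ] [AddCommGroup W] [Module (ZMod p) W] [Finite W]
  (H : Subgroup Γ) (σ : Γ → Module.End (ZMod p) W)
  (R : Subalgebra (ZMod p) (Module.End (ZMod p) W)), PX.Rp H σ → PX.Irr H σ →
  (∀ h ∈ H, ∀ r ∈ R, σ h * r * σ h⁻¹ ∈ R) → IsSemisimpleModule R W ∧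
  ∀ (w : W) (U : Submodule (ZMod p) W), (∀ y, y ∈ U ↔ ∃ r ∈ R, r w = y) →
    finrank (ZMod p) W ≤ 2 * finrank (ZMod p) U →
    (∃ (w' : W) (U' : Submodule (ZMod p) W), (∀ y, y ∈ U' ↔ ∃ r ∈ R, r w' = y) ∧
      Mid (finrank (ZMod p) W) (finrank (ZMod p) U')) ∨ ∀ v : W, v ≠ 0 → ∀ y, ∃ r ∈ R, r v = y

def S_N0 : Prop := ∀ (Γ W : Type) [Group Γ] [AddCommGroup W] [Module (ZMod p) W] [Finite W]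
  (H K : Subgroup Γ) (σ : Γ → Module.End (ZMod p) W), PX.Rp H σ → PX.Irr H σ → K ≤ H → Nm H K →
  Bal H σ ∨ PX.Irr K σ ∨ PX.Div (PX.Env p K σ) 1

def S_SCH : Prop := ∀ (Γ W : Type) [Group Γ] [AddCommGroup W] [Module (ZMod p) W] [Finite W]
  (K : Subgroup Γ) (σ : Γ → Module.End (ZMod p) W), PX.Rp K σ →
  (PX.Irr K σ → PX.Div (PX.Cm (PX.Env p K σ)) 1) ∧
  (∀ Z : Submodule (ZMod p) (Module.End (ZMod p) W), PX.Div Z 1 →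
    finrank (ZMod p) Z ≤ finrank (ZMod p) W) ∧
  (PX.Irr K σ → (∀ a ∈ K, ∀ b ∈ K, σ a * σ b = σ b * σ a) → PX.Div (PX.Env p K σ) 1) ∧
  ∀ H, PX.Rp H σ → K ≤ H → Nm H K → ∀ h ∈ H,
    (∀ z ∈ PX.Env p K σ, σ h * z * σ h⁻¹ ∈ PX.Env p K σ) ∧
    ∀ z ∈ PX.Cm (PX.Env p K σ), σ h * z * σ h⁻¹ ∈ PX.Cm (PX.Env p K σ)

def S_SO1 : Prop := ∀ (Γ W : Type) [Group Γ] [Finite Γ] [AddCommGroup W] [Module (ZMod p) W]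
  [Finite W] [Nontrivial W] (H M N : Subgroup Γ) (σ : Γ → Module.End (ZMod p) W), PX.Rp H σ →
  M ≤ H → Nm H M → PX.Irr M σ → (∀ a ∈ M, ∀ b ∈ M, ∀ c ∈ M, σ ⁅a, b⁆ * σ c = σ c * σ ⁅a, b⁆) →
  (∀ h ∈ H, σ h = 1 → h ∈ N) → N.relIndex H ≤ p ^ (12 * finrank (ZMod p) W)

def S_KIDS : Prop := ∀ (Γ W : Type) [Group Γ] [Finite Γ] [AddCommGroup W] [Module (ZMod p) W]
  [Finite W] [Nontrivial W] (H N J : Subgroup Γ) (σ : Γ → Module.End (ZMod p) W)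
  (L : List (Subgroup Γ)), PX.Rp H σ → PX.Irr H σ → ¬ Bal H σ → (∀ h ∈ H, h ∈ N ↔ σ h = 1) →
  (∀ K ∈ L, Nm H K ∧ ∃ a ∈ H ⊓ K, ∃ b ∈ H ⊓ K, σ a * σ b ≠ σ b * σ a) →
  (∀ g, (∀ K ∈ L, g ∈ K) → g ∈ J) → SolvMod (H ⊓ J) N →
  N.relIndex H ≤ p ^ (12 * finrank (ZMod p) W)

def S_FRB : Prop := ∀ (A : Type) [Ring A] [Algebra (ZMod p) A] [Finite A]
  (Z : Submodule (ZMod p) A) (ε : A), PX.Div Z ε →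
  (∀ z ∈ Z, z ^ p ^ finrank (ZMod p) Z = z) ∧ ∀ q, 2 ≤ q → {x | x ∈ Z ∧ x ^ q = x}.ncard ≤ q

/-- normal `p`-subgroups act trivially on simple modules -/
def S_NPG : Prop := ∀ (Γ W : Type) [Group Γ] [Finite Γ] [AddCommGroup W] [Module (ZMod p) W]
  [Finite W] (H D : Subgroup Γ) (σ : Γ → Module.End (ZMod p) W), PX.Rp H σ → PX.Irr H σ →
  D ≤ H → Nm H D → (∀ x ∈ D, ∃ k : ℕ, σ (x ^ p ^ k) = 1) → ∀ x ∈ D, σ x = 1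

end

def S_AUT : Prop := ∀ (A : Type) [Ring A] [Finite A] [IsSemisimpleRing A] (r : ℕ),
  (∀ s : Finset A, (∀ e ∈ s, e ≠ 0 ∧ e * e = e ∧ ∀ y, e * y = y * e) →
    (∀ e ∈ s, ∀ e' ∈ s, e ≠ e' → e * e' = 0) → s.card ≤ r) →
  Nat.card (A ≃+* A) ≤ 2 ^ (r * r) * Nat.card A ^ 3

section
variable (p n : ℕ) [Fact p.Prime]

def S_AUTQ : Prop := ∀ (H : SG p n) (R I : Sub p n) (r : ℕ), (1 : Mat p n) ∈ R →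
  (∀ x ∈ R, ∀ y ∈ R, x * y ∈ R) → I ≤ R → (∀ x ∈ R, ∀ y ∈ I, x * y ∈ I ∧ y * x ∈ I) →
  H ≤ NmS R → H ≤ NmS I → (∀ x ∈ R, (∀ y ∈ R, ∃ k, (x * y) ^ (k + 1) ∈ I) → x ∈ I) →
  (∀ s : Finset (Mat p n), (∀ e ∈ s, e ∈ R ∧ e ∉ I ∧ e * e - e ∈ I ∧ ∀ y ∈ R, e * y - y * e ∈ I) →
    (∀ e ∈ s, ∀ e' ∈ s, e ≠ e' → e * e' ∈ I) → s.card ≤ r) →
  (CenQ R I).relIndex H ≤ 2 ^ (r * r) * p ^ (3 * (finrank (ZMod p) R - finrank (ZMod p) I))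

/-! ### frames, sections, local models -/

def S_ENV : Prop :=
  (∀ Z : SG p n, SA (Env Z) ∧ (∀ g ∈ Z, g.1 ∈ Env Z) ∧ (∀ Z', Z ≤ Z' → Env Z ≤ Env Z') ∧
    (∀ H, Nm H Z → H ≤ NmS (Env Z)) ∧ (∀ U, Inv (Env Z) U ↔ Z ≤ Stb U) ∧
    (∀ f ℓ, TriR (Env Z) f ℓ ↔ ∀ g ∈ Z, Tri ℓ (fr f g.1)) ∧
    ∀ R : Sub p n, Env Z ≤ R ↔ ∀ g ∈ Z, g.1 ∈ R) ∧
  (∀ (f : GG p n) (x y : Mat p n), fr f (x * y) = fr f x * fr f y ∧ fr f (st x) = st (fr f x) ∧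
    fr f 1 = 1 ∧ fr 1 x = x ∧ (∀ g, fr (f * g) x = fr g (fr f x)) ∧
    (Dg (l0 n) x → Dg (l0 n) (fr f x) ∧ fr f x (c0 n) (c0 n) = x (c0 n) (c0 n)) ∧
    f.1 * fr f x = x * f.1) ∧
  (∀ f g : GG p n, (f⁻¹ * g * f).1 = fr f g.1) ∧
  (∀ R : Sub p n, SA R → (∀ g : GG p n, g ∈ UG R ↔ g.1 ∈ R) ∧
    (∀ x ∈ Rad R, ∀ y ∈ R, y * x ∈ Rad R ∧ x * y ∈ Rad R) ∧
    (∀ R', R' ≤ R → ∀ x ∈ Rad R, x ∈ R' → x ∈ Rad R') ∧ TriR R 1 (l0 n)) ∧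
  (∀ ℓ (B : Sub p n), Lab ℓ → Alg ℓ B → SA B ∧ TriR B 1 ℓ ∧ gB B 1 ℓ = B) ∧
  (∀ ℓ (B : Sub p n), Str ℓ B → CF B 1 ℓ) ∧
  Nat.card (GG p n) ≤ p ^ ((2 * n + 1) * (2 * n + 1))

def S_SEC : Prop :=
  (∀ (f : GG p n) ℓ α, Lab ℓ → sL f ℓ α ≤ sH f ℓ α ∧
    finrank (ZMod p) (sH f ℓ α) = finrank (ZMod p) (sL f ℓ α) + nb ℓ α ∧
    (∀ v ∈ Vb ℓ α, f.1 *ᵥ v ∈ sH f ℓ α ∧ (f.1 *ᵥ v ∈ sL f ℓ α → v = 0)) ∧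
    (∀ u ∈ sH f ℓ α, u - f.1 *ᵥ (pr ℓ α *ᵥ (st f.1 *ᵥ u)) ∈ sL f ℓ α) ∧
    (∀ x, Tri ℓ (fr f x) → (∀ u ∈ sL f ℓ α, x *ᵥ u ∈ sL f ℓ α) ∧ ∀ u ∈ sH f ℓ α, x *ᵥ u ∈ sH f ℓ α) ∧
    (∀ x, (∀ u ∈ sH f ℓ α, x *ᵥ u ∈ sH f ℓ α) → ∀ v ∈ Vb ℓ α,
      x *ᵥ (f.1 *ᵥ v) - f.1 *ᵥ ((pr ℓ α * fr f x) *ᵥ v) ∈ sL f ℓ α) ∧
    (∀ g : GG p n, g ∈ Stb (sL f ℓ α) → g ∈ Stb (sH f ℓ α) →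
      (g ∈ KS f ℓ α ↔ pr ℓ α * fr f g.1 * pr ℓ α = pr ℓ α)) ∧
    ∀ g : GG p n, Tri ℓ (fr f g.1) → (g ∈ KS f ℓ α.rev ↔ g ∈ KS f ℓ α)) ∧
  (∀ L U L' U' : VS p n, L ≤ L' → L' ≤ U' → U' ≤ U → Ker L U ≤ Ker L' U') ∧
  (∀ L U W : VS p n, L ≤ W → W ≤ U → Ker L U ≤ Stb W) ∧
  (∀ L U : VS p n, Nm (Stb L ⊓ Stb U) (Ker L U)) ∧
  (∀ (f f' : GG p n) ℓ ℓ', Fine f ℓ f' ℓ' → Fine f ℓ f' ℓ ∧ Fine f' ℓ f' ℓ' ∧ Fine f' ℓ f ℓ ∧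
    (∀ α, sL f' ℓ α = sL f ℓ α ∧ sH f' ℓ α = sH f ℓ α ∧ sL f ℓ α ≤ sL f' ℓ' α ∧
      sH f' ℓ' α ≤ sH f ℓ α) ∧
    (∀ x, Tri ℓ (fr f' x) ↔ Tri ℓ (fr f x)) ∧ (∀ x : Mat p n, Tri ℓ' x → Tri ℓ x) ∧
    (∀ α β, ℓ' α = ℓ' β → ℓ α = ℓ β) ∧ (∀ α, nb ℓ' α ≤ nb ℓ α) ∧
    ∀ f'' ℓ'', Fine f' ℓ' f'' ℓ'' → Fine f ℓ f'' ℓ'') ∧
  (∀ (f : GG p n) ℓ, Lab ℓ → Fine f ℓ f ℓ ∧ Fine 1 (l0 n) f ℓ)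

/-- the action on one block -/
def S_RB : Prop := ∀ (f : GG p n) ℓ α, Lab ℓ →
  (∀ x (v : (Vb ℓ α : VS p n)), (rb f ℓ α x v).1 = (pr ℓ α * fr f x) *ᵥ v.1) ∧
  (∀ Z : SG p n, Z ≤ Stb (sL f ℓ α) ⊓ Stb (sH f ℓ α) → PX.Rp Z (fun g => rb f ℓ α g.1) ∧
    ∀ g ∈ Z, g ∈ KS f ℓ α ↔ rb f ℓ α g.1 = 1) ∧
  (∀ g ∈ Stb (sL f ℓ α) ⊓ Stb (sH f ℓ α), (g ∈ KS f ℓ α ↔ loc f ℓ {β | ℓ β = ℓ α} g.1 = 1) ∧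
    ∀ h ∈ Stb (sL f ℓ α) ⊓ Stb (sH f ℓ α), loc f ℓ {β | ℓ β = ℓ α} (g * h).1 =
      loc f ℓ {β | ℓ β = ℓ α} g.1 * loc f ℓ {β | ℓ β = ℓ α} h.1) ∧
  (∀ Z : SG p n, CF (Env Z) f ℓ → PX.Irr Z fun g => rb f ℓ α g.1) ∧
  Nontrivial (Vb ℓ α : VS p n) ∧ finrank (ZMod p) (Vb ℓ α : VS p n) = nb ℓ α

def S_LC : Prop := (∀ (ℓ : Ix n → ℕ) (S : Set (Ix n)), Lab ℓ → Clo ℓ S → Lab (lS ℓ S) ∧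
  (∀ x y : Mat p n, Tri ℓ x → Tri ℓ y → lc ℓ S (x * y) = lc ℓ S x * lc ℓ S y) ∧
  lc ℓ S (1 : Mat p n) = 1 ∧
  (∀ x : Mat p n, lc ℓ S (st x) = st (lc ℓ S x) ∧ Dg (lS ℓ S) (lc ℓ S x) ∧
    lc ℓ S x (c0 n) (c0 n) = x (c0 n) (c0 n) ∧ lc ℓ S (gr ℓ x) = lc ℓ S x ∧
    (∀ α ∈ S, lc ℓ S x * pr ℓ α = gr ℓ x * pr ℓ α) ∧
    (∀ α ∉ S, lc ℓ S x * pr (lS ℓ S) α = x (c0 n) (c0 n) • pr (lS ℓ S) α) ∧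
    (Par ℓ x → Par (lS ℓ S) (lc ℓ S x))) ∧
  (∀ α ∈ S, nb (lS ℓ S) α = nb ℓ α ∧ (Vb (lS ℓ S) α : VS p n) = Vb ℓ α ∧
    (pr (lS ℓ S) α : Mat p n) = pr ℓ α ∧ ∀ β, lS ℓ S β = lS ℓ S α ↔ ℓ β = ℓ α) ∧
  (∀ α ∉ S, nb (lS ℓ S) α = 1) ∧ Clo (lS ℓ S) S ∧ (∀ α β, lS ℓ S α ≤ lS ℓ S β → ℓ α ≤ ℓ β) ∧
  (∀ (R : Sub p n) (f : GG p n), SA R → TriR R f ℓ → Alg (lS ℓ S) (R.map (loc f ℓ S))) ∧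
  (∀ f g : GG p n, Tri ℓ (fr f g.1) → Par (lS ℓ S) (loc f ℓ S g.1) ∧
    (g ∈ KB f ℓ S ↔ loc f ℓ S g.1 = 1))) ∧
  ∀ (ℓ : Ix n → ℕ) (a : Fin 3 → Ix n), Lab ℓ → Clo ℓ (Lam ℓ a) ∧ (∀ j, a j ∈ Lam ℓ a) ∧
    key (lS ℓ (Lam ℓ a)) a = key ℓ a ∧
    (Wt (lS ℓ (Lam ℓ a)) (key ℓ a) : Submodule (ZMod p) (Frm p n)) = Wt ℓ (key ℓ a)

def S_LCS : Prop := ∀ (ℓ : Ix n → ℕ) (S : Set (Ix n)) (B : Sub p n), Str ℓ B → Clo ℓ S →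
  Str (lS ℓ S) (B.map (lc ℓ S)) ∧
  (∀ α ∈ S, ∀ β ∈ S, Cb (lS ℓ S) (B.map (lc ℓ S)) α β = Cb ℓ B α β) ∧
  (∀ α ∈ S, Triv (lS ℓ S) (B.map (lc ℓ S)) α ↔ Triv ℓ B α) ∧
  (∀ α ∉ S, Triv (lS ℓ S) (B.map (lc ℓ S)) α) ∧
  ((∀ α ∈ S, ∀ β, Cb ℓ B α β ≠ ⊥ → β ∈ S) → eS S ∈ B ∧ B.map (lc ℓ S) ≤ B)

/-! ### composition flags -/

def S_RAD : Prop := ∀ (R : Sub p n) (f : GG p n) ℓ, SA R → Lab ℓ → TriR R f ℓ →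
  Alg ℓ (gB R f ℓ) ∧ (∀ x ∈ R, gr ℓ (fr f x) = 0 → x ∈ Rad R) ∧
  (CF R f ℓ → Str ℓ (gB R f ℓ) ∧ ∀ x ∈ Rad R, gr ℓ (fr f x) = 0)

def S_CFX : Prop := ∀ (R : Sub p n) (f : GG p n) ℓ, Lab ℓ → TriR R f ℓ →
  (∀ ℓ' (g : GG p n) B', Ref ℓ (gB R f ℓ) ℓ' g.1 B' →
    Fine f ℓ (f * g) ℓ' ∧ TriR R (f * g) ℓ' ∧ gB R (f * g) ℓ' = B') ∧
  (∀ f' ℓ', Fine f ℓ f' ℓ' → TriR R f' ℓ' → Ref ℓ (gB R f ℓ) ℓ' (f⁻¹ * f').1 (gB R f' ℓ')) ∧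
  (SA R → ∃ f' ℓ', Fine f ℓ f' ℓ' ∧ CF R f' ℓ')

def S_BLK : Prop := ∀ (R : Sub p n) (f : GG p n) ℓ, SA R → CF R f ℓ →
  (∀ α, SS R (sL f ℓ α) (sH f ℓ α) ∧ ann R (sL f ℓ α) (sH f ℓ α) = MI R f ℓ {α} ∧
    (finrank (ZMod p) R - finrank (ZMod p) (MI R f ℓ {α})) * eb ℓ (gB R f ℓ) α = nb ℓ α ^ 2 ∧
    (∀ β, MI R f ℓ {α} = MI R f ℓ {β} ↔ Cb ℓ (gB R f ℓ) α β ≠ ⊥) ∧
    (∀ I, MI R f ℓ I ≤ MI R f ℓ {α} → ∃ β ∈ I, Cb ℓ (gB R f ℓ) α β ≠ ⊥) ∧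
    ∀ g : GG p n, g.1 ∈ R → (g ∈ KS f ℓ α ↔ g.1 - 1 ∈ MI R f ℓ {α})) ∧
  (∀ x, x ∈ MI R f ℓ {c0 n} ↔ x ∈ R ∧ x (c0 n) (c0 n) = 0) ∧
  ∀ I, MI R f ℓ I ≤ R ∧ (∀ x, x ∈ MI R f ℓ I ↔ x ∈ R ∧ ∀ α ∈ I, x ∈ MI R f ℓ {α}) ∧
    ∀ x ∈ R, ∀ y ∈ MI R f ℓ I, x * y ∈ MI R f ℓ I ∧ y * x ∈ MI R f ℓ I

def S_JH : Prop := ∀ (R : Sub p n) (f : GG p n) ℓ L U, SA R → CF R f ℓ → SS R L U →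
  ∃ α, ann R L U = MI R f ℓ {α} ∧ finrank (ZMod p) U = finrank (ZMod p) L + nb ℓ α

def S_UNI : Prop := ∀ Z : SG p n, PP p Z →
  (∀ L M U : VS p n, L ≤ M → M ≤ U → Z ≤ Ker L M → Z ≤ Ker M U → Z ≤ Ker L U) ∧
  (∀ L U : VS p n, L ≤ U → Inv (Env Z) L → Inv (Env Z) U →
    (∀ L' U', L ≤ L' → U' ≤ U → SS (Env Z) L' U' → Z ≤ Ker L' U') → Z ≤ Ker L U) ∧
  ∀ (f f' : GG p n) ℓ ℓ' α, Fine f ℓ f' ℓ' → TriR (Env Z) f' ℓ' →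
    (∀ β, ℓ β = ℓ α → Z ≤ KS f' ℓ' β) → Z ≤ KS f ℓ α

def S_STCF : Prop :=
  (∀ (X : SG p n) f ℓ, CF (Env X) f ℓ → (Stable X ↔ PP p X ∧ Giant ℓ (gB (Env X) f ℓ))) ∧
  (∀ (Z : SG p n) R f ℓ α, SA R → CF R f ℓ → Env Z ≤ R →
    (Triv ℓ (gB R f ℓ) α → Z ≤ KS f ℓ α) ∧
    (Stable Z → nb ℓ α ^ 2 ≤ gam n * eb ℓ (gB R f ℓ) α → Z ≤ KS f ℓ α)) ∧
  ∀ (Z : SG p n) f ℓ α, CF (Env Z) f ℓ → Z ≤ KS f ℓ α → Triv ℓ (gB (Env Z) f ℓ) α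

/-! ### semisimple algebras -/

def S_REG : Prop := ∀ ℓ (B : Sub p n), Str ℓ B → (∀ x ∈ B, ∃ y ∈ B, x * y * x = x) ∧
  ∀ x ∈ B, ∀ a, x * pr ℓ a ≠ 0 →
    ec ℓ B a ∈ Submodule.span (ZMod p) {z | ∃ b ∈ B, ∃ b' ∈ B, z = b * x * b'}

def S_SPAN : Prop := ∀ ℓ (B : Sub p n), Str ℓ B → Big ℓ B 30 →
  B ≤ Submodule.span (ZMod p) {z | U1 B z}

def S_WC : Prop := ∀ R : Sub p n, SA R →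
  (∀ b ∈ R, b (c0 n) (c0 n) = 1 → ∃ g : GG p n, g.1 ∈ R ∧ ∃ y ∈ R, g.1 - b = y * (st b * b - 1)) ∧
  FullA (UG R) R

def S_CLF : Prop := ∀ ℓ (B A : Sub p n), Str ℓ B → Alg ℓ A →
  B ≤ Submodule.span (ZMod p) {z | z ∈ B ∧ Un z ∧ ∀ x ∈ A, cj (st z) x ∈ A} → SSm A

def S_SSM : Prop := ∀ A : Sub p n, SA A → SSm A →
  Com (Com A) ≤ A ∧ (∀ x ∈ Rad A, x = 0) ∧ (∀ x ∈ Com A, ∃ y ∈ Com A, x * y * x = x) ∧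
  ∀ L U, Inv A L → Inv A U → L ≤ U → ∃ W, Inv A W ∧ W ⊓ L = ⊥ ∧ W ⊔ L = U

def S_GENCF : Prop := ∀ (N : SG p n) R f ℓ (S : Set (Ix n)), SA R → FullA N R → CF R f ℓ →
  Clo ℓ S → (∀ α ∈ S, ∀ β, Cb ℓ (gB R f ℓ) α β ≠ ⊥ → β ∈ S) →
  (∀ α ∈ S, ¬ Triv ℓ (gB R f ℓ) α → gam n * eb ℓ (gB R f ℓ) α < nb ℓ α ^ 2) →
  ∀ Y, Y = Op p (N ⊓ KB f ℓ Sᶜ) → Stable Y ∧ Full Y ∧ CF (Env Y) f (lS ℓ S) ∧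
    gB (Env Y) f (lS ℓ S) = (gB R f ℓ).map (lc ℓ S) ∧
    (∀ x ∈ Env Y, gr (lS ℓ S) (fr f x) = gr ℓ (fr f x)) ∧
    (∀ z, U1 ((gB R f ℓ).map (lc ℓ S)) z → ∃ y ∈ Y, gr ℓ (fr f y.1) = z) ∧
    ∀ g ∈ N ⊓ KB f ℓ Sᶜ, U1 ((gB R f ℓ).map (lc ℓ S)) (gr ℓ (fr f g.1))

def S_COREF : Prop := ∀ (N Y : SG p n) R, SA R → FullA N R → LS N Y → Full Y

def S_HOMB : Prop := ∀ (R H : Sub p n) (P : VS p n) (g : ℕ), (1 : Mat p n) ∈ R →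
  (∀ x ∈ R, ∀ y ∈ R, x * y ∈ R) → Inv R P →
  (∀ L U, SS R L U → U ≤ P → g + finrank (ZMod p) (ann R L U) ≤ finrank (ZMod p) R) →
  (∀ C ∈ H, ∀ x ∈ R, ∀ u ∈ P, C *ᵥ (x *ᵥ u) = x *ᵥ (C *ᵥ u)) →
  (∀ C ∈ H, (∀ u ∈ P, C *ᵥ u = 0) → C = 0) →
  g * finrank (ZMod p) H ≤ finrank (ZMod p) P * (2 * n + 1)

/-! ### the core -/

def S_PERM : Prop := ∀ (H : SG p n) R f ℓ, SA R → CF R f ℓ → H ≤ NmS R →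
  (∀ h ∈ H, ∀ α ∈ Sml ℓ (gB R f ℓ), ∃ β ∈ Sml ℓ (gB R f ℓ),
    (MI R f ℓ {α}).map (cj h.1) = MI R f ℓ {β}) ∧
  H ≤ NmS (MI R f ℓ (Sml ℓ (gB R f ℓ))) ∧
  (∀ I J, J ⊆ I → ∀ H', H' ≤ H → H' ≤ NmS (MI R f ℓ I) →
    (NmS (MI R f ℓ J)).relIndex H' ≤ 2 ^ I.ncard) ∧
  (∀ α ∈ Sml ℓ (gB R f ℓ), ∀ H', H' ≤ H → H' ≤ NmS (MI R f ℓ {α}) →
    (CenQ R (MI R f ℓ {α})).relIndex H' ≤ p ^ (3 * gam n + 1)) ∧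
  (∀ α ∈ Sml ℓ (gB R f ℓ), (CenQ R (MI R f ℓ {α})).relIndex H ≤ p ^ cT n) ∧
  ∀ I g, g ∈ H ⊓ CenQ R (MI R f ℓ I) ↔ g ∈ H ∧ ∀ α ∈ I, g ∈ CenQ R (MI R f ℓ {α})

def S_TREE : Prop := ∀ (H : SG p n) R f ℓ h, SA R → CF R f ℓ → H ≤ NmS R → 2 * n + 1 ≤ 2 ^ h →
  2 ^ h ≤ 2 * (2 * n + 1) → Kids p (cT n) H (tree H R f ℓ (Sml ℓ (gB R f ℓ)) h) ∧
  topI (tree H R f ℓ (Sml ℓ (gB R f ℓ)) h) = H ⊓ CenQ R (MI R f ℓ (Sml ℓ (gB R f ℓ)))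

def S_CORE : Prop := ∀ H N : SG p n, N ≤ H → (Nm H N → CoreI H N N []) ∧
  (∀ Y F f ℓ h I Y', CoreI H N Y F → CF (Env (Fr p Y)) f ℓ → 2 * n + 1 ≤ 2 ^ h →
    2 ^ h ≤ 2 * (2 * n + 1) → I = Sml ℓ (gB (Env (Fr p Y)) f ℓ) → Y' = Fr p Y ⊓ KB f ℓ I →
    CoreI H N Y' (F ++ tree H (Env (Fr p Y)) f ℓ I h) ∧ H ≤ NmS (Env (Fr p Y)) ∧ Y' ≤ Y ∧
      (Y ≤ Y' → Stable Y') ∧ (Stable Y → Y ≤ Y')) ∧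
  ∀ Y F, Core H N Y F → LS N Y

/-! ### the potential -/

def S_LOCF : Prop := ∀ (R : Sub p n) f f' ℓ ℓ' S, SA R → Fine f ℓ f' ℓ' → CF R f' ℓ' → Clo ℓ S →
  Clo ℓ' S ∧ ∃ h : GG p n, Fine 1 (lS ℓ S) h (lS ℓ' S) ∧ CF (R.map (loc f ℓ S)) h (lS ℓ' S) ∧
    gB (R.map (loc f ℓ S)) h (lS ℓ' S) = (gB R f' ℓ').map (lc ℓ' S) ∧
    ∀ x ∈ R, gr (lS ℓ' S) (fr h (loc f ℓ S x)) = loc f' ℓ' S x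

def S_LOCP : Prop := ∀ (R : Sub p n) f f' ℓ ℓ' S S' μ, SA R → Fine f ℓ f' ℓ' → TriR R f' ℓ' →
  Clo ℓ S → Clo ℓ' S' → S' ⊆ S → ∀ R', SA R' → R' ≤ R →
  PhA μ (lS ℓ' S') (R'.map (loc f' ℓ' S')) ≤ PhA μ (lS ℓ S) (R.map (loc f ℓ S))

/-! ### boxes -/

def S_LOW : Prop := ∀ (ℓ : Ix n → ℕ) (a : Fin 3 → Ix n) (u : Mat p n) (w : Frm p n), Lab ℓ →
  Tri ℓ u → (w ∈ Lowr ℓ a → pull1 u w ∈ Lowr ℓ a ∧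
    cmp ℓ (key ℓ a) (pull1 u w) = pull1 (gr ℓ u) (cmp ℓ (key ℓ a) w)) ∧
  (w ∈ Wt ℓ (key ℓ a) → pull1 (lc ℓ (Lam ℓ a) u) w = pull1 (gr ℓ u) w)

def S_COC : Prop := ∀ s : St p n, s.Ok0 →
  Lab s.ll ∧ Clo s.ℓ s.lam ∧ key s.ll s.a = s.t ∧ s.lo 1 = 1 ∧
  (∀ x ∈ Env s.G, s.lo (st x) = st (s.lo x) ∧ s.lo x (c0 n) (c0 n) = x (c0 n) (c0 n) ∧
    ∀ y ∈ Env s.G, s.lo (x * y) = s.lo x * s.lo y) ∧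
  (∀ Y, Y ≤ s.G → Alg s.ll (s.le Y) ∧ SA (s.le Y) ∧ (∀ Y', Y' ≤ Y → s.le Y' ≤ s.le Y) ∧
    (∀ g ∈ Y, s.lo g.1 ∈ s.le Y) ∧ (∀ A : Sub p n, (∀ g ∈ Y, s.lo g.1 ∈ A) → s.le Y ≤ A) ∧
    ∀ h ∈ s.G, (∀ y ∈ Y, h * y * h⁻¹ ∈ Y) → ∀ x ∈ s.le Y, cj (s.lo h.1) x ∈ s.le Y) ∧
  (∀ g ∈ s.G, Par s.ll (s.lo g.1) ∧ (g ∈ s.N1 ↔ s.lo g.1 = 1) ∧ s.kp g ∈ Wt s.ll s.t ∧
    s.kp' g = pull1 (s.lo g.1) (s.dl s.T') + s.kp g ∧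
    pull1 s.f.1 (pull1 g.1 s.T' - s.T) ∈ Lowr s.ℓ s.a ∧
    ∀ h ∈ s.G, s.kp (g * h) = pull1 (s.lo h.1) (s.kp g) + s.kp h ∧
      s.kp' (g * h) = pull1 (s.lo h.1) (s.kp' g) + s.kp h) ∧
  s.kp 1 = 0 ∧ s.dl s.T' ∈ Wt s.ll s.t ∧ Nm s.G s.N1 ∧
  (∀ j, s.N1 ≤ s.ks j ∧ s.G ≤ Stb (sL s.f s.ℓ (s.a j)) ⊓ Stb (sH s.f s.ℓ (s.a j))) ∧
  (∃ H, s.IsH H) ∧ (∀ Z, Z ≤ s.N1 → PP p Z → ∀ g ∈ Z, s.kp g = 0) ∧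
  (s.Sim → Str s.ll (s.le s.G))

def S_CLIFF : Prop := ∀ s : St p n, s.Ok0 → s.Sim → SSm (s.le s.X) ∧
  (∀ x ∈ Rad (Env s.X), s.lo x = 0) ∧
  ∀ f ℓ, Fine s.f s.ℓ f ℓ → CF (Env s.X) f ℓ → ∀ x ∈ Env s.X,
    s.lo x = 0 ↔ x ∈ MI (Env s.X) f ℓ s.lam ∧ x (c0 n) (c0 n) = 0

def S_LOCU : Prop := ∀ s : St p n, s.Ok0 → s.Sim →
  ∀ z, U1 (s.le s.X) z → ∃ x ∈ s.X, s.lo x.1 = z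

def S_LOCST : Prop := ∀ s : St p n, s.Ok0 → s.Sim → Stable (Op p (s.X ⊓ s.N1)) ∧
  (∀ y ∈ s.X ⊓ s.N1, ∃ z ∈ Op p (s.X ⊓ s.N1), (z⁻¹ * y).1 - 1 ∈ Rad (Env s.X)) ∧
  ∀ x ∈ Env s.X, s.lo x = 0 → ∃ z ∈ Env (Op p (s.X ⊓ s.N1)), x - z ∈ Rad (Env s.X)

def S_PREF : Prop := ∀ (s : St p n) A Q, s.Ok0 → s.Sim → Alg s.ll A →
  Pre s.f s.ℓ s.lam s.X A Q → SA (Env s.X ⊓ A.comap s.lo) ∧ FullA Q (Env s.X ⊓ A.comap s.lo)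

def S_KR : Prop := ∀ s : St p n, s.Ok0 → s.Sim → (∀ g ∈ s.G, s.lo g.1 ∈ s.le s.X) →
  KC s.ll (s.le s.X) s.t s.Kc ∧ s.le s.G = s.le s.X ∧ SpK s.Kc = s.Sp ∧
  ∀ (S : Set (GG p n)) (P : Set (Mat p n × Frm p n)), Subgroup.closure S = s.G →
    (∀ y, y ∈ P ↔ ∃ g ∈ S, y = (s.lo g.1, s.kp g)) → ∀ z w, s.Kc z w ↔ GenK P z w

def S_LIFTJ : Prop := ∀ (s : St p n) H Xi XJ, s.Ok0 → s.Sim → s.IsH H → Xi ≤ H ⊓ s.X →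
  Stable Xi → Full Xi → (∀ Z, Z ≤ s.X ⊓ s.N1 → PP p Z → Z ≤ Xi) →
  Pre s.f s.ℓ s.lam s.X (s.le (Ncl H Xi)) XJ →
  FullA (H ⊓ XJ) (Env s.X ⊓ (s.le (Ncl H Xi)).comap s.lo)

/-! ### splitting -/

def S_RESET : Prop := ∀ (s : St p n) EG c τ, s.Pr EG c τ → s.Sim →
  s.reset.Pr EG c τ ∧ s.reset.Sim ∧ s.reset.Tight ∧ ∀ o, s.reset.Po EG o → s.Po EG o

def S_SPL1 : Prop := ∀ (s : St p n) EG c τ f ℓ, s.Pr EG c τ → Fine s.f s.ℓ f ℓ →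
  TriR (Env s.G) f ℓ → s.Thr EG f ℓ 0 ⟨s.G, s.X, [], some 1⟩ ∧
  ∀ t o b, s.Thr EG f ℓ t o → (∀ j, s.ℓ (b j) = s.ℓ (s.a j)) → key ℓ b = t →
    (s.sub f ℓ b o).Pr EG c τ

def S_SPL2 : Prop := ∀ (s : St p n) EG f ℓ t o, s.Ok0 → Fine s.f s.ℓ f ℓ →
  TriR (Env s.G) f ℓ → s.Thr EG f ℓ t o →
  (∀ b r, (∀ j, s.ℓ (b j) = s.ℓ (s.a j)) → key ℓ b = t → (s.sub f ℓ b o).Po EG r →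
    s.Thr EG f ℓ (t + 1) (o.next r)) ∧
  ((∀ b, (∀ j, s.ℓ (b j) = s.ℓ (s.a j)) → key ℓ b ≠ t) → s.Thr EG f ℓ (t + 1) o) ∧
  (top n ≤ t → s.Po EG o)

def S_ONE : Prop := ∀ (s : St p n) EG c τ f ℓ, s.Pr EG c τ → Fine s.f s.ℓ f ℓ →
  TriR (Env s.G) f ℓ → (∀ j, nb s.ℓ (s.a j) ≤ nb ℓ (s.a j)) →
  St.Pr { s with f := f, ℓ := ℓ } EG c τ ∧ ∀ o, St.Po { s with f := f, ℓ := ℓ } EG o → s.Po EG o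

open Classical in
/-- the sizes of the sub-boxes -/
def S_SZ : Prop := ∀ (s : St p n) f ℓ, Fine s.f s.ℓ f ℓ →
  (∑ b : Fin 3 → Ix n, if (∀ j, s.ℓ (b j) = s.ℓ (s.a j) ∧ ℓ (b j) = (b j).val) then
    ∏ j, nb ℓ (b j) else 0) = s.sz ∧ 0 < s.sz ∧ s.sz ≤ top n ∧
  (∀ b : Fin 3 → Ix n, ∃ b' : Fin 3 → Ix n, ∀ j, ℓ (b' j) = ℓ (b j) ∧ ℓ (b' j) = (b' j).val) ∧
  ((∃ j, nb ℓ (s.a j) < nb s.ℓ (s.a j)) → ∀ b : Fin 3 → Ix n, (∀ j, s.ℓ (b j) = s.ℓ (s.a j)) →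
    ∏ j, nb ℓ (b j) < s.sz)

/-! ### leaves and un-pinning -/

def S_LEAF1 : Prop := ∀ s : St p n, s.Ok0 → (∀ w ∈ s.Sp, ∃ g ∈ s.N1, s.kp g = w) ∧
  (∀ S : Set (GG p n), Subgroup.closure S = s.N1 →
    s.Sp = Submodule.span (ZMod p) {w | ∃ g ∈ S, s.kp g = w}) ∧
  (∀ g ∈ s.G, ∀ h ∈ s.N1, s.kp (g * h) = s.kp g + s.kp h) ∧
  (∀ h ∈ s.N1, ∀ k : ℕ, s.kp (h ^ k) = (k : ZMod p) • s.kp h) ∧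
  (∀ S : Set (GG p n), Subgroup.closure S = s.G → (∀ g ∈ S, s.kp g ∈ s.Sp) →
    ∀ g ∈ s.G, s.kp g ∈ s.Sp) ∧
  ((∀ g ∈ s.G, s.kp g ∈ s.Sp) → s.dl s.T' ∉ s.Sp → s.IsS none) ∧
  (∀ g ∈ s.N1, s.dl s.T' + s.kp g = 0 → s.IsS (some g)) ∧
  ∀ (S S' : Set (GG p n)), Subgroup.closure S = s.G → (∀ h ∈ S', h ∈ s.G ∧ s.kp h = 0) →
    (∀ g ∈ S, ∃ u ∈ s.N1, g * u ∈ Subgroup.closure S') →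
    (∀ u ∈ s.N1, s.kp u = 0 → u ∈ Subgroup.closure S') → s.IsH (Subgroup.closure S')

def S_UNC : Prop := ∀ (s : St p n) EG H Y F φ, s.Ok0 → s.Sim → s.IsH H → s.IsS φ →
  Core H (H ⊓ s.X) Y F → Full Y → s.Po EG ⟨H, Y, F, φ⟩

def S_LEAF : Prop := ∀ (s : St p n) EG H Y F φ, s.Ok0 → s.Sim → (∀ g ∈ s.G, s.kp g ∈ s.Sp) →
  s.IsH H → s.IsS φ → Core H (H ⊓ s.X) Y F → s.Po EG ⟨H, Y, F, φ⟩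

def S_JOIN : Prop := ∀ (s : St p n) E EG b c EG', s.Ok0 → s.BrOK E EG b c EG' →
  (∀ t ∈ s.G, (s.kid b (pull1 t.1 s.T)).PrE (E - c) EG' ∧
    (s.kid b (pull1 t.1 s.T')).PrE (E - c) EG') ∧
  (∀ (HQ : SG p n) (φ : GG p n → Option (GG p n)) (S : Set (GG p n)), (s.kid b s.T).IsH HQ →
    (∀ t ∈ b.R, (s.kid b (pull1 t.1 s.T)).IsS (φ t)) →
    (∀ x, x ∈ S ↔ ∃ t ∈ b.R, ∃ g, φ t = some g ∧ x = t * g) →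
    s.IsH (HQ ⊔ Subgroup.closure S)) ∧
  (∀ t ∈ s.G, ∀ g, (s.kid b (pull1 t.1 s.T')).IsS (some g) → s.IsS (some (t * g))) ∧
  ((∀ t ∈ b.R', (s.kid b (pull1 t.1 s.T')).IsS none) → s.IsS none)

def S_UNT : Prop := ∀ (s : St p n) E EG b c EG' o H Y F φ, s.Ok0 → s.Sim → s.TBox →
  s.BrOK E EG b c EG' → (s.kid b s.T).Po EG' o → s.IsH H → s.IsS φ → Core H (H ⊓ s.X) Y F →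
  s.Po EG ⟨H, Y, F, φ⟩

def S_REL : Prop := ∀ (s : St p n) H D, s.Ok0 → s.IsH H → D ≤ H →
  (∀ a ∈ D, ∃ x ∈ s.X, x⁻¹ * a ∈ s.N1) → ∀ y ∈ der 1 D, ∃ x ∈ H ⊓ s.X, x⁻¹ * y ∈ H ⊓ s.N1

/-- the sections of the slots on which `X` acts are large -/
def S_GSL : Prop := ∀ (s : St p n) j β, s.Ok0 → s.Sim → ¬ s.X ≤ s.ks j →
  s.ℓ β = s.ℓ (s.a j) ∨ s.ℓ β = s.ℓ (s.a j).rev → ∀ L U, Inv (s.le s.X) L → Inv (s.le s.X) U →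
  L < U → U ≤ Vb s.ll β →
  gam n + finrank (ZMod p) (ann (s.le s.X) L U) < finrank (ZMod p) (s.le s.X)

def S_AUTC : Prop := ∀ (s : St p n) H KK, s.Ok0 → s.Sim → ¬ s.TBox → H ≤ s.G →
  Pre s.f s.ℓ s.lam H (s.le s.X) KK → Nm H KK ∧ KK.relIndex H ≤ p ^ (4 * (2 * n + 1))

def S_UNG : Prop := ∀ (s : St p n) E EG b c EG' o H XJ KK Y F φ, s.Ok0 → s.Sim → ¬ s.TBox →
  s.BrOK E EG b c EG' → (s.kid b s.T).Po EG' o → s.IsH H →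
  (Ncl H o.X ≤ s.X ∧ (Pre s.f s.ℓ s.lam s.X (s.le (Ncl H o.X)) XJ → Nm H XJ)) ∧
  (s.IsS φ → Pre s.f s.ℓ s.lam s.X (s.le (Ncl H o.X)) XJ → Pre s.f s.ℓ s.lam H (s.le s.X) KK →
    Core H (H ⊓ XJ) Y F →
    s.Po EG ⟨H, Y, (0, H ⊓ s.N1 ⊔ Y, b.Q) :: (up (b.F ++ o.F ++ [(0, KK, KK)]) ++ F), φ⟩)

/-! ### the rules -/

def S_RA : Prop := ∀ (s : St p n) E EG j R, s.PrE E EG → s.X ≤ s.ks j → ¬ s.G ≤ s.ks j →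
  Cov R s.G (s.G ⊓ s.ks j) → R.length ≤ p ^ (12 * (2 * n + 1)) →
  ∃ c EG', s.BrOK E EG ⟨s.G ⊓ s.ks j, s.X, [], s.ptr, R, R⟩ c EG'

def S_QB : Prop := ∀ s : St p n, s.Ok0 →
  (∀ j, ∀ v ∈ Vb s.ll (s.a j), s.X ≤ s.qb j (s.f.1 *ᵥ v) ∧ s.N1 ≤ s.qb j (s.f.1 *ᵥ v) ∧
    (∀ g, g ∈ s.qb j (s.f.1 *ᵥ v) ↔ g ∈ s.G ∧ s.lo g.1 *ᵥ v ∈ orb (s.le s.X) v) ∧
    Inv (s.le (s.qb j (s.f.1 *ᵥ v))) (orb (s.le s.X) v) ∧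
    (s.qb j (s.f.1 *ᵥ v)).relIndex s.G ≤ p ^ nb s.ℓ (s.a j)) ∧
  (∀ C ∈ Com (s.le s.X), (∃ Q, s.IsQc C Q) ∧ ∀ Q, s.IsQc C Q → s.X ≤ Q ∧ s.N1 ≤ Q ∧ Q ≤ s.G) ∧
  (∀ Y A, Y ≤ s.G → Alg s.ll A → (∃ Q, Pre s.f s.ℓ s.lam Y A Q) ∧
    ∀ S Z : Set (GG p n), Subgroup.closure Z = UG A →
      (∀ z ∈ Z, ∃ y ∈ Subgroup.closure S, s.lo y.1 = z.1) → (∀ y ∈ S, y ∈ Y ∧ s.lo y.1 ∈ A) →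
      Y ⊓ s.N1 ≤ Subgroup.closure S → Pre s.f s.ℓ s.lam Y A (Subgroup.closure S)) ∧
  ∀ Y β, Y ≤ s.G → β ∈ s.lam → (Y ≤ KS s.f s.ℓ β ↔ ∀ b ∈ s.le Y, ∀ v ∈ Vb s.ll β,
    b *ᵥ v = b (c0 n) (c0 n) • v) ∧ (Str s.ll (s.le Y) → (Y ≤ KS s.f s.ℓ β ↔ Triv s.ll (s.le Y) β))

def S_RP : Prop := ∀ (s : St p n) E EG, s.PrE E EG →
  (∀ Q R, s.X ≤ Q → s.N1 ≤ Q → Q ≤ s.G → Cov R s.G Q → s.Paid R.length (s.le Q) →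
    ∃ c EG', s.BrOK E EG ⟨Q, s.X, [], s.ptr, R, R⟩ c EG') ∧
  (∀ k R, s.Paid k R → k ≤ p ^ capE n) ∧ (∀ k k' R, k' ≤ k → s.Paid k R → s.Paid k' R) ∧
  200 * s.ph (s.le s.G) ≤ capE n ∧
  (∀ A, Alg s.ll A → A ≤ s.le s.G → s.ph A ≤ s.ph (s.le s.G)) ∧ EG ≤ E

def S_RD : Prop := ∀ (s : St p n) E EG j, s.PrE E EG → s.X ≤ s.ks j →
  (s.pt j).G ≤ Stb (s.pt j).L ⊓ Stb (s.pt j).U ∧ s.G ≤ Stb (s.pt j).L ⊓ Stb (s.pt j).U ∧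
  (∀ g ∈ s.G, ∃ g' ∈ (s.pt j).G, g'⁻¹ * g ∈ Ker (s.pt j).L (s.pt j).U) ∧ (∃ G1, s.IsG1 j G1) ∧
  ∀ G1, s.IsG1 j G1 → G1 ≤ Stb (sL s.f s.ℓ (s.a j)) ⊓ Stb (sH s.f s.ℓ (s.a j)) ∧
    ∀ r ∈ tops (s.pt j).F, Nm G1 r.1.1 ∧ r.1.2.relIndex G1 ≤ p ^ E ∧
      (∃ Q, s.IsQd j (G1 ⊓ r.1.2) Q) ∧ ∀ Q, s.IsQd j (G1 ⊓ r.1.2) Q → Q.relIndex s.G ≤ p ^ E ∧
      ∀ R, (∀ a ∈ G1 ⊓ r.1.1, ∀ b ∈ G1 ⊓ r.1.1, ⁅a, b⁆ ∈ s.ks j) → Cov R s.G Q →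
        R.length ≤ Q.relIndex s.G → ∃ c EG', s.BrOK E EG ⟨Q, s.X, [],
          Function.update s.ptr j (some ⟨G1 ⊓ r.1.2, (s.pt j).L, (s.pt j).U, r.2⟩), R, R⟩ c EG'

def S_RE : Prop := ∀ (s : St p n) E EG A Z Z' Q XA, s.PrE E EG → s.Sim → s.Res →
  EO s.ll (s.le s.X) s.a s.Kc (s.dl s.T') A Z Z' → Pre s.f s.ℓ s.lam s.G A Q →
  Pre s.f s.ℓ s.lam s.X A XA → XA ≤ Q ∧ Nm Q XA ∧ ∀ (R R' : List (GG p n)) Y F,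
    (∀ t ∈ R ++ R', t ∈ s.G) → R.map (fun t => s.lo t.1) = Z → R'.map (fun t => s.lo t.1) = Z' →
    s.Paid Z.length A → s.Paid Z'.length A → Core Q XA Y F →
    ∃ c EG', s.BrOK E EG ⟨Q, Y, F, s.ptr, R, R'⟩ c EG'

/-! ### some rule applies -/

def S_PAYB : Prop := ∀ (s : St p n) j, s.Ok0 → s.Sim → (∀ j, Sc s.μ (nb s.ℓ (s.a j))) →
  ∀ Q (U : VS p n) k, Q ≤ s.G → U ≤ Vb s.ll (s.a j) → Inv (s.le Q) U →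
    Mid (nb s.ℓ (s.a j)) (finrank (ZMod p) U) → k ≤ p ^ nb s.ℓ (s.a j) → s.Paid k (s.le Q)

def S_PAYC : Prop := ∀ (s : St p n) α β C Q, s.Ok0 → s.Sim → (∀ j, Sc s.μ (nb s.ℓ (s.a j))) →
  Str s.ll (s.le s.X) → (∀ j, s.X ≤ s.ks j → s.G ≤ s.ks j) → C ∈ Cb s.ll (s.le s.X) α β →
  s.IsQc C Q → ¬ s.G ≤ Q → s.Paid (Q.relIndex s.G) (s.le Q)

def S_TSL : Prop := ∀ (s : St p n) E EG j G1, s.PrE E EG → s.Sim → s.Tight → s.X ≤ s.ks j →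
  s.IsG1 j G1 → (s.G ⊓ s.ks j).relIndex s.G ≤ p ^ (12 * (2 * n + 1)) ∨
  (∃ v ∈ Vb s.ll (s.a j),
    s.Paid ((s.qb j (s.f.1 *ᵥ v)).relIndex s.G) (s.le (s.qb j (s.f.1 *ᵥ v)))) ∨
  ∃ r ∈ tops (s.pt j).F, ∀ a ∈ G1 ⊓ r.1.1, ∀ b ∈ G1 ⊓ r.1.1, ⁅a, b⁆ ∈ s.ks j

def S_CYC : Prop := ∀ (s : St p n) j, s.Ok0 → s.Sim → ¬ s.X ≤ s.ks j →
  (∃ v ∈ Vb s.ll (s.a j), Mid (nb s.ℓ (s.a j)) (finrank (ZMod p) (orb (s.le s.X) v))) ∨ s.XS j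

def S_RES : Prop := ∀ (s : St p n) E EG, s.PrE E EG → s.Sim → s.Tight →
  (∀ j, s.X ≤ s.ks j → s.G ≤ s.ks j) →
  (∀ j, ∀ v ∈ Vb s.ll (s.a j),
    ¬ s.Paid ((s.qb j (s.f.1 *ᵥ v)).relIndex s.G) (s.le (s.qb j (s.f.1 *ᵥ v)))) →
  Str s.ll (s.le s.X) ∧ Giant s.ll (s.le s.X) ∧
  Scl s.μ s.ll (s.le s.X) ∧
  ∀ sd : Side p n, Good s.ll sd → sd.B = s.le s.X →
    (∀ C ∈ CL sd, ∀ Q, s.IsQc C Q → ¬ s.Paid (Q.relIndex s.G) (s.le Q)) → s.Res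

def S_ROOT : Prop := ∀ (X : SG p n) F T T', Core ⊤ ⊤ X F →
  T ∈ Wt (l0 n) (key (l0 n) ![Fin.last _, Fin.last _, 0]) →
  T' ∈ Wt (l0 n) (key (l0 n) ![Fin.last _, Fin.last _, 0]) →
  (root X F T T').PrE (EE n) (capE n) ∧ ∀ φ, (root X F T T').IsS φ →
    (φ.isSome ↔ ∃ ψ, Par (l0 n) ψ ∧ pull1 ψ T' = T)

/-- the basic toolbox -/
structure TB : Prop where
  pm : PM p n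
  sol : S_SOL
  kl : S_KL
  op : S_OP p
  kid : S_KID p
  env : S_ENV p n
  sec : S_SEC p n
  rb : S_RB p n
  lc : S_LC p n
  lcs : S_LCS p n
  rad : S_RAD p n
  cfx : S_CFX p n
  blk : S_BLK p n
  jh : S_JH p n
  uni : S_UNI p n
  stcf : S_STCF p n
  low : S_LOW p n
  coc : S_COC p n
  qb : S_QB p n
  wp : S_WP p n
  phi : S_PHI p n
  phm : S_PHM p n
  phb : S_PHB p n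
  gabc : S_GABC p n

/-- the structure of stable groups -/
structure TM : Prop extends TB p n where
  ssm : S_SSM p n
  wc : S_WC p n
  gencf : S_GENCF p n
  coref : S_COREF p n
  core : S_CORE p n
  locf : S_LOCF p n
  locp : S_LOCP p n
  cliff : S_CLIFF p n
  locu : S_LOCU p n
  locst : S_LOCST p n
  pref : S_PREF p n
  leaf1 : S_LEAF1 p n
  gsl : S_GSL p n

end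

end Pool.Agent.P.MP_f1a348_lc.UP
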