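import Pool.Agent.P.MP_f1a348_lc.UP.Iface

namespace Pool.Agent.P.MP_f1a348_lc.UP

open Matrix Module Pool.Agent.P.MP_f1a348_lc.PG
open scoped commutatorElement

namespace COCz

variable {p n : ℕ}

theorem lc_row {ℓ : Ix n → ℕ} {S : Set (Ix n)} (hS : Clo ℓ S) (x : Mat p n) {α : Ix n}
    (hα : α ∈ S) (β : Ix n) : lc ℓ S x α β = gr ℓ x α β := by
  classical
  have e : lc ℓ S x = eS S * gr ℓ x * eS S + x (c0 n) (c0 n) • (1 - eS S) := rfl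
  rw [e, Matrix.add_apply, Matrix.smul_apply, Matrix.sub_apply, eS, Matrix.mul_diagonal,
    Matrix.diagonal_mul, if_pos hα, one_mul, Matrix.one_apply, Matrix.diagonal_apply, if_pos hα,
    sub_self, smul_zero, add_zero]
  by_cases hβ : β ∈ S
  · rw [if_pos hβ, mul_one]
  · rw [if_neg hβ, mul_zero, gr_apply, if_neg fun e => hβ (hS.blk α β e hα)]

end COCz

theorem s_LOW (p n : ℕ) [Fact p.Prime] (hLC : S_LC p n) : S_LOW p n := by
  intro ℓ a u w h hu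
  obtain ⟨hclo, -, -, -⟩ := hLC.2 ℓ a h
  refine ⟨fun hw => ⟨fun i hi hi' => ?_, ?_⟩, fun hw => ?_⟩
  · refine Finset.sum_eq_zero fun k _ => ?_
    by_cases e : ∀ j, u (k j) (i j) ≠ 0
    · obtain ⟨j, hj⟩ := hi'
      rw [hw k (fun j => (hu _ _ (e j)).1.trans (hi j)) ⟨j, (hu _ _ (e j)).1.trans_lt hj⟩, zero_mul]
    · obtain ⟨j, hj⟩ := not_forall.1 e
      rw [Finset.prod_eq_zero (Finset.mem_univ j) (not_not.1 hj), mul_zero]
  · funext i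
    simp only [cmp_apply, pull1, pull_apply, gr_apply]
    split_ifs with e
    · refine Finset.sum_congr rfl fun k _ => ?_
      have ei := (key_eq_iff h).1 e
      by_cases e1 : ∀ j, u (k j) (i j) ≠ 0
      · by_cases e2 : key ℓ k = key ℓ a
        · rw [if_pos e2]
          simp only [(key_eq_iff h).1 (e2.trans e.symm), if_true]
        · obtain ⟨j, hj⟩ := not_forall.1 fun e3 => e2 ((key_eq_iff h).2 e3)
          have h1 : ∀ j, ℓ (k j) ≤ ℓ (a j) := fun j => (hu _ _ (e1 j)).1.trans (ei j).le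
          rw [if_neg e2, hw k h1 ⟨j, lt_of_le_of_ne (h1 j) hj⟩, zero_mul, zero_mul]
      · obtain ⟨j, hj⟩ := not_forall.1 e1
        rw [Finset.prod_eq_zero (Finset.mem_univ j) (not_not.1 hj),
          Finset.prod_eq_zero (Finset.mem_univ j) (by rw [not_not.1 hj, ite_self]), mul_zero,
          mul_zero]
    · refine (Finset.sum_eq_zero fun k _ => ?_).symm
      by_cases e2 : key ℓ k = key ℓ a
      · obtain ⟨j, hj⟩ := not_forall.1 fun e3 => e (((key_eq_iff h).2 e3).symm.trans e2)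
        rw [Finset.prod_eq_zero (Finset.mem_univ j) (if_neg hj), mul_zero]
      · rw [if_neg e2, zero_mul]
  · funext i
    simp only [pull1, pull_apply]
    refine Finset.sum_congr rfl fun k _ => ?_
    by_cases e2 : key ℓ k = key ℓ a
    · congr 1
      exact Finset.prod_congr rfl fun j _ =>
        COCz.lc_row hclo u ⟨j, Or.inl ((key_eq_iff h).1 e2 j)⟩ _
    · rw [hw k e2, zero_mul, zero_mul]

theorem s_COC (p n : ℕ) [Fact p.Prime] (hENV : S_ENV p n) (hSEC : S_SEC p n) (hRAD : S_RAD p n)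
    (hLC : S_LC p n) (hLCS : S_LCS p n) (hLOW : S_LOW p n) : S_COC p n := by
  intro s h
  obtain ⟨hclo, hmem, hkey, hWt⟩ := hLC.2 s.ℓ s.a h.lab
  obtain ⟨hlab, hmul, hone, hx, -, -, -, -, halg, hpar⟩ := hLC.1 s.ℓ s.lam h.lab hclo
  obtain ⟨eZ, efr, -, -, eB, -, -⟩ := hENV
  have lo_eq : ∀ x, s.lo x = lc s.ℓ s.lam (fr s.f x) := fun _ => rfl
  have gm : ∀ g ∈ s.G, g.1 ∈ Env s.G := (eZ s.G).2.1
  have gt : ∀ g ∈ s.G, Tri s.ℓ (fr s.f g.1) := fun g hg => h.tri _ (gm g hg)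
  have lo1 : s.lo 1 = 1 := by rw [lo_eq, (efr s.f 1 1).2.2.1, hone]
  have lost : ∀ x, s.lo (st x) = st (s.lo x) := fun x => by
    rw [lo_eq, lo_eq, (efr s.f x x).2.1, (hx _).1]
  have lomul : ∀ x ∈ Env s.G, ∀ y ∈ Env s.G, s.lo (x * y) = s.lo x * s.lo y := fun x hx' y hy => by
    rw [lo_eq, lo_eq, lo_eq, (efr s.f x y).1, hmul _ _ (h.tri x hx') (h.tri y hy)]
  have hn1 : ∀ g ∈ s.G, g ∈ s.N1 ↔ s.lo g.1 = 1 := fun g hg =>
    ⟨fun e => (hpar s.f g (gt g hg)).2.1 e.2, fun e => ⟨hg, (hpar s.f g (gt g hg)).2.2 e⟩⟩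
  have hwt : ∀ w : Frm p n, cmp s.ℓ s.t w ∈ Wt s.ll s.t := fun w => by
    have := cmp_mem (ℓ := s.ℓ) (key s.ℓ s.a) w
    rw [← hWt] at this
    exact this
  have main : ∀ g ∈ s.G, ∀ w : Frm p n, pull1 s.f.1 w ∈ Lowr s.ℓ s.a →
      pull1 s.f.1 (pull1 g.1 w) ∈ Lowr s.ℓ s.a ∧ cmp s.ℓ s.t (pull1 s.f.1 (pull1 g.1 w)) =
        pull1 (s.lo g.1) (cmp s.ℓ s.t (pull1 s.f.1 w)) := fun g hg w hw => by
    have e : pull1 s.f.1 (pull1 g.1 w) = pull1 (fr s.f g.1) (pull1 s.f.1 w) := by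
      rw [← pull1_mul, ← pull1_mul, (efr s.f g.1 g.1).2.2.2.2.2.2]
    obtain ⟨h1, h2⟩ := (hLOW s.ℓ s.a _ _ h.lab (gt g hg)).1 hw
    rw [e]
    refine ⟨h1, h2.trans ?_⟩
    exact ((hLOW s.ℓ s.a _ _ h.lab (gt g hg)).2 (cmp_mem _ _)).symm
  have dlm : ∀ g ∈ s.G, ∀ T'' : Frm p n, pull1 s.f.1 (T'' - s.T) ∈ Lowr s.ℓ s.a →
      pull1 s.f.1 (pull1 g.1 T'' - s.T) ∈ Lowr s.ℓ s.a ∧
        s.dl (pull1 g.1 T'') = pull1 (s.lo g.1) (s.dl T'') + s.kp g := fun g hg T'' hT => by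
    have e : pull1 g.1 T'' - s.T = pull1 g.1 (T'' - s.T) + (pull1 g.1 s.T - s.T) := by
      rw [map_sub, sub_add_sub_cancel]
    obtain ⟨h1, h2⟩ := main g hg _ hT
    refine ⟨by rw [e, map_add]; exact add_mem h1 (h.low g hg), ?_⟩
    rw [St.dl, e, map_add, map_add, h2]
    rfl
  have kpm : ∀ g ∈ s.G, ∀ k ∈ s.G, s.kp (g * k) = pull1 (s.lo k.1) (s.kp g) + s.kp k :=
    fun g hg k hk => by
    rw [St.kp, val_mul, pull1_mul, (dlm k hk _ (h.low g hg)).2]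
    rfl
  have kp1 : s.kp 1 = 0 := by simp [St.kp, St.dl]
  refine ⟨hlab, hclo, hkey, lo1, fun x hx' => ⟨lost x, ?_, lomul x hx'⟩, fun Y hY => ?_,
    fun g hg => ⟨(hpar s.f g (gt g hg)).1, hn1 g hg, hwt _, (dlm g hg _ h.low').2,
      (dlm g hg _ h.low').1, fun k hk => ⟨kpm g hg k hk, ?_⟩⟩, kp1, hwt _, fun g hg k hk => ?_,
    fun j => ⟨fun g hg => mem_KB.1 hg.2 _ (hmem j), fun g hg => ?_⟩, ?_, fun Z hZ hP g hg => ?_,
    fun hs => ?_⟩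
  · rw [lo_eq, (hx _).2.2.1, ((efr s.f x x).2.2.2.2.2.1 ((eZ s.G).1.dg x hx')).2]
  · have hY' : Env Y ≤ Env s.G := (eZ Y).2.2.1 _ hY
    have ha : Alg s.ll (s.le Y) := halg (Env Y) s.f (eZ Y).1 fun x hx' => h.tri x (hY' hx')
    refine ⟨ha, (eB _ _ hlab ha).1, fun Y' hY'' => Submodule.map_mono ((eZ Y').2.2.1 _ hY''),
      fun g hg => Submodule.mem_map_of_mem ((eZ Y).2.1 g hg),
      fun A hA => Submodule.map_le_iff_le_comap.2 (((eZ Y).2.2.2.2.2.2 _).2 hA), ?_⟩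
    rintro k hk hn _ ⟨y, hy, rfl⟩
    have h1 : Env Y ≤ (Env Y).comap (cj k.1) :=
      ((eZ Y).2.2.2.2.2.2 _).2 fun g hg => (eZ Y).2.1 _ (hn g hg)
    refine ⟨cj k.1 y, h1 hy, ?_⟩
    rw [cj_apply, cj_apply, lomul _ ((eZ s.G).1.mul _ (gm k hk) _ (hY' hy)) _
      ((eZ s.G).1.star _ (gm k hk)), lomul _ (gm k hk) _ (hY' hy), lost]
  · rw [St.kp', val_mul, pull1_mul, (dlm k hk _ (dlm g hg _ h.low').1).2]
    rfl
  · have hk' : k ∈ s.G := hk.1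
    have hi := s.G.inv_mem hg
    refine (hn1 _ (mul_mem (mul_mem hg hk') hi)).2 ?_
    rw [val_mul, lomul _ (gm _ (mul_mem hg hk')) _ (gm _ hi), val_mul, lomul _ (gm _ hg) _ (gm _ hk'),
      (hn1 k hk').1 hk, mul_one, ← lomul _ (gm _ hg) _ (gm _ hi), ← val_mul, mul_inv_cancel, val_one,
      lo1]
  · exact (hSEC.1 s.f s.ℓ (s.a j) h.lab).2.2.2.2.1 g.1 (gt g hg)
  · exact ⟨sg (fun g => g ∈ s.G ∧ s.kp g = 0) ⟨one_mem _, kp1⟩ fun a b ha hb =>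
      ⟨mul_mem ha.1 hb.1, by rw [kpm a ha.1 b hb.1, ha.2, hb.2, map_zero, add_zero]⟩,
      fun _ => Iff.rfl⟩
  · funext i
    refine hP (fun g => s.kp g i) (fun a ha b hb => ?_) g hg
    rw [kpm a (hZ ha).1 b (hZ hb).1, (hn1 b (hZ hb).1).1 (hZ hb), pull1_one]
    rfl
  · have h1 := (hLCS s.ℓ s.lam _ ((hRAD _ s.f s.ℓ (eZ s.G).1 h.lab h.tri).2.2 hs).1 hclo).1
    have e : (gB (Env s.G) s.f s.ℓ).map (lc s.ℓ s.lam) = s.le s.G := by
      rw [gB, ← Submodule.map_comp]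
      congr 1
      exact LinearMap.ext fun x => (hx (fr s.f x)).2.2.2.1
    rwa [e] at h1

end Pool.Agent.P.MP_f1a348_lc.UP
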