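import Pool.Agent.P.MP_f1a348_lc.UP.Iface

/-! Project UP: the local model of an algebra with simple blocks. -/

namespace Pool.Agent.P.MP_f1a348_lc.UP

open Matrix Module Pool.Agent.P.MP_f1a348_lc.PG
open scoped commutatorElement

namespace LCSz

set_option linter.unusedSectionVars false

variable {p n : ℕ} [Fact p.Prime] {ℓ ℓ' : Ix n → ℕ} {B : Sub p n}

theorem pr_c0 (h : Lab ℓ) (h' : Lab ℓ') : (pr ℓ' (c0 n) : Mat p n) = pr ℓ (c0 n) := by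
  unfold pr
  congr 1
  funext β
  have : ℓ' β = ℓ' (c0 n) ↔ ℓ β = ℓ (c0 n) :=
    ⟨fun e => by rw [h'.ctr β e], fun e => by rw [h.ctr β e]⟩
  simp only [this]

theorem mul_pr_c0 (h : Lab ℓ) {x : Mat p n} (hx : Dg ℓ x) :
    x * pr ℓ (c0 n) = x (c0 n) (c0 n) • pr ℓ (c0 n) := mat_ext fun y => by
  rw [← Matrix.mulVec_mulVec, Matrix.smul_mulVec, Vb_c0 h (pr_mulVec_mem (c0 n) y),
    Matrix.mulVec_smul, (hx.tri h).mulVec_e0, smul_comm]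

theorem cb_eq {φ : Mat p n →ₗ[ZMod p] Mat p n} (h : ∀ b ∈ B, Dg ℓ b) (h' : ∀ b, Dg ℓ' (φ b))
    {α β : Ix n} (a1 : (pr ℓ' α : Mat p n) = pr ℓ α) (b1 : (pr ℓ' β : Mat p n) = pr ℓ β)
    (a2 : ∀ b ∈ B, φ b * pr ℓ α = b * pr ℓ α) (b2 : ∀ b ∈ B, φ b * pr ℓ β = b * pr ℓ β) :
    Cb ℓ' (B.map φ) α β = Cb ℓ B α β := by
  ext C
  rw [mem_Cb, mem_Cb, a1, b1]
  refine and_congr_left fun hC => ?_
  have c1 : pr ℓ α * C = C := by rw [← hC, ← mul_assoc, ← mul_assoc, pr_mul_pr]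
  have c2 : C * pr ℓ β = C := by rw [← hC, mul_assoc, pr_mul_pr]
  have c3 : ∀ b ∈ B, C * φ b = C * b := fun b hb => by
    rw [← c2, mul_assoc, mul_assoc, (h b hb).comm_pr, ← b2 b hb, ← b1, (h' b).comm_pr]
  have c4 : ∀ b ∈ B, φ b * C = b * C := fun b hb => by
    rw [← c1, ← mul_assoc, ← mul_assoc, a2 b hb]
  refine ⟨fun H b hb => by rw [← c3 b hb, ← c4 b hb]; exact H _ ⟨b, hb, rfl⟩, ?_⟩
  rintro H _ ⟨b, hb, rfl⟩
  rw [c3 b hb, c4 b hb]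
  exact H b hb

theorem triv_of (h : Lab ℓ) (hB : ∀ b ∈ B, Dg ℓ b) {α : Ix n}
    (H : ∀ b ∈ B, b * pr ℓ α = b (c0 n) (c0 n) • pr ℓ α) : Triv ℓ B α := by
  have hv : (Pi.single α 1 : Vec p n) ∈ Vb ℓ α := single_mem_Vb rfl 1
  have hC : ∀ y : Vec p n, (Matrix.single α (c0 n) 1 : Mat p n) *ᵥ y =
      y (c0 n) • (Pi.single α 1 : Vec p n) := fun y => by
    rw [Matrix.single_mulVec, one_mul]
    funext i
    by_cases e : i = α
    · subst e; simp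
    · simp [e]
  refine cb_ne_of (C := Matrix.single α (c0 n) 1) ⟨fun b hb => mat_ext fun y => ?_,
    mat_ext fun y => ?_⟩ fun e => ?_
  · have key : b *ᵥ (Pi.single α 1 : Vec p n) = b (c0 n) (c0 n) • (Pi.single α 1 : Vec p n) := by
      rw [← mem_Vb_iff.1 hv, Matrix.mulVec_mulVec, H b hb, Matrix.smul_mulVec]
    rw [← Matrix.mulVec_mulVec, ← Matrix.mulVec_mulVec, hC, hC, Matrix.mulVec_smul, key,
      ((hB b hb).tri h).mulVec_c0, smul_smul, mul_comm]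
  · rw [← Matrix.mulVec_mulVec, ← Matrix.mulVec_mulVec, hC, hC, pr_mulVec, if_pos rfl,
      Matrix.mulVec_smul, mem_Vb_iff.1 hv]
  · simpa using congrFun (congrFun e α) (c0 n)

end LCSz

open LCSz in
theorem s_LCS (p n : ℕ) [Fact p.Prime] (hLC : S_LC p n) : S_LCS p n := by
  classical
  intro ℓ S B h hS
  obtain ⟨h1, h2, h3, h4, h5, h6, _⟩ := hLC.1 ℓ S h.lab hS
  have dg := h.alg.dg
  have dg' : ∀ b : Mat p n, Dg (lS ℓ S) (lc ℓ S b) := fun b => (h4 b).2.1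
  have on : ∀ α ∈ S, ∀ b ∈ B, lc ℓ S b * pr ℓ α = b * pr ℓ α := fun α hα b hb => by
    rw [(h4 b).2.2.2.2.1 α hα, (dg b hb).gr_eq]
  have h1' : (1 : Mat p n) ∈ B.map (lc ℓ S) := ⟨1, h.alg.one, h3⟩
  refine ⟨⟨h1, ⟨h1', ?_, ?_, ?_⟩, fun a x hx h0 y hy => ?_⟩, fun α hα β hβ => cb_eq dg dg'
    (h5 α hα).2.2.1 (h5 β hβ).2.2.1 (on α hα) (on β hβ), fun α hα => ?_, fun α hα => ?_,
    fun H => ?_⟩
  · rintro _ ⟨a, ha, rfl⟩ _ ⟨b, hb, rfl⟩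
    exact ⟨a * b, h.alg.mul a ha b hb, h2 a b ((dg a ha).tri h.lab) ((dg b hb).tri h.lab)⟩
  · rintro _ ⟨a, ha, rfl⟩
    exact ⟨st a, h.alg.star a ha, (h4 a).1⟩
  · rintro _ ⟨a, _, rfl⟩
    exact dg' a
  · by_cases ha : a ∈ S
    · rw [(h5 a ha).2.1] at hx hy
      obtain ⟨b, hb, e⟩ := h.sim a x hx h0 y hy
      refine ⟨_, ⟨b, hb, rfl⟩, ?_⟩
      rw [← mem_Vb_iff.1 hx, Matrix.mulVec_mulVec, on a ha b hb, ← Matrix.mulVec_mulVec,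
        mem_Vb_iff.1 hx, e]
    · obtain ⟨c, hc⟩ := (finrank_eq_one_iff_of_nonzero' (K := ZMod p)
        (⟨x, hx⟩ : (Vb (lS ℓ S) a : VS p n)) (fun e => h0 (congrArg Subtype.val e))).1
        ((finrank_Vb a).trans (h6 a ha)) ⟨y, hy⟩
      exact ⟨c • 1, Submodule.smul_mem _ c h1', by
        rw [Matrix.smul_mulVec, Matrix.one_mulVec]; exact congrArg Subtype.val hc⟩
  · rw [Triv, Triv, cb_eq dg dg' (h5 α hα).2.2.1 (pr_c0 h.lab h1) (on α hα) fun b hb => by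
      rw [mul_pr_c0 h.lab (dg b hb), ← pr_c0 h.lab h1, mul_pr_c0 h1 (dg' b), (h4 b).2.2.1]]
  · refine triv_of h1 ?_ ?_
    · rintro _ ⟨a, _, rfl⟩
      exact dg' a
    · rintro _ ⟨a, _, rfl⟩
      rw [(h4 a).2.2.2.2.2.1 α hα, (h4 a).2.2.1]
  · have he : eS S ∈ B := diagonal_mem h fun α β e => by
      have : α ∈ S ↔ β ∈ S := ⟨fun t => H α t β e, fun t => H β t α (cb_symm h e)⟩
      simp only [this]
    refine ⟨he, ?_⟩
    rintro _ ⟨a, ha, rfl⟩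
    change eS S * gr ℓ a * eS S + a (c0 n) (c0 n) • (1 - eS S) ∈ B
    rw [(dg a ha).gr_eq]
    exact add_mem (h.alg.mul _ (h.alg.mul _ he _ ha) _ he) (B.smul_mem _ (sub_mem h.alg.one he))

end Pool.Agent.P.MP_f1a348_lc.UP
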