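import Pool.Agent.P.MP_f1a348_lc.UP.EBase

/-! The accounting of the potential with scales. -/

namespace Pool.Agent.P.MP_f1a348_lc.UP

open Matrix Module Pool.Agent.P.MP_f1a348_lc.PG

namespace ACQy

open Finset

theorem loc {J : Type} [Fintype J] {k e : ℕ} {k' e' m : J → ℕ} {s : ℕ → ℕ} (hs : Monotone s)
    (he : e ≤ k) (hk : k = ∑ X, m X) (h2 : ∀ X, e' X ≤ k' X) (H : Finset J)
    (h4 : ∀ X ∈ H, k' X ≤ m X ∧ ((m X = k' X ∧ e ≤ e' X) ∨ 2 * k' X ≤ m X)) :
    ∑ X ∈ H, (k' X * (3 + s (k' X)) - e' X) ≤ k * (3 + s k) - e ∧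
      ((∀ x, 2 * x ≤ k → s x < s k) →
        k + ∑ X ∈ H, (k' X * (3 + s (k' X)) - e' X) ≤ k * (3 + s k) - e ∨
          ∃ X ∈ H, m X = k' X ∧ k + e' X + ∑ X ∈ H, (k' X * (3 + s (k' X)) - e' X) ≤
            k' X + e + (k * (3 + s k) - e)) := by
  classical
  have le : ∀ X, m X ≤ k := fun X =>
    hk ▸ single_le_sum (f := m) (fun _ _ => Nat.zero_le _) (mem_univ X)
  have a1 : ∑ X ∈ H, m X ≤ k := hk ▸ sum_le_sum_of_subset (subset_univ H)
  have a2 : ∑ X ∈ H, k' X ≤ ∑ X ∈ H, m X := sum_le_sum fun X hX => (h4 X hX).1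
  obtain ⟨u, hu⟩ : ∃ u, k = ∑ X ∈ H, k' X + u := Nat.exists_eq_add_of_le (a2.trans a1)
  have a3 : ∑ X ∈ H, (k' X * (3 + s (k' X)) - e' X) + ∑ X ∈ H, e' X =
      3 * ∑ X ∈ H, k' X + ∑ X ∈ H, k' X * s (k' X) := by
    rw [mul_sum, ← sum_add_distrib, ← sum_add_distrib]
    refine sum_congr rfl fun X _ => ?_
    have := h2 X
    rw [mul_add]
    omega
  have a4 : ∀ w : J → ℕ, (∀ X ∈ H, s (k' X) + w X ≤ s k) →
      ∑ X ∈ H, k' X * s (k' X) + ∑ X ∈ H, k' X * w X ≤ k * s k := fun w hw => by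
    rw [← sum_add_distrib]
    refine le_trans (sum_le_sum fun X hX => ?_)
      ((sum_mul H k' (s k)).ge.trans (Nat.mul_le_mul_right _ (a2.trans a1)))
    rw [← mul_add]
    exact Nat.mul_le_mul_left _ (hw X hX)
  have a5 : ∀ X ∈ H, e' X ≤ ∑ X ∈ H, e' X := fun X hX =>
    single_le_sum (f := e') (fun _ _ => Nat.zero_le _) hX
  have a6 : e ≤ 2 * u + ∑ X ∈ H, e' X := by
    by_cases c : ∀ X ∈ H, 2 * k' X ≤ m X
    · have := sum_le_sum c
      rw [← mul_sum] at this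
      omega
    · push Not at c
      obtain ⟨X, hX, c⟩ := c
      have := ((h4 X hX).2.resolve_right (by omega)).2
      have := a5 X hX
      omega
  have mo : ∀ X ∈ H, s (k' X) ≤ s k := fun X hX => hs ((h4 X hX).1.trans (le X))
  rw [mul_add k]
  refine ⟨?_, fun h => ?_⟩
  · have := a4 (fun _ => 0) fun X hX => mo X hX
    omega
  · by_cases c : ∀ X ∈ H, 2 * k' X ≤ k
    · left
      have := a4 (fun _ => 1) fun X hX => h _ (c X hX)
      simp only [mul_one] at this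
      omega
    · right
      push Not at c
      obtain ⟨X, hX, c⟩ := c
      have b1 := le X
      have b2 := ((h4 X hX).2.resolve_right (by omega)).1
      refine ⟨X, hX, b2, ?_⟩
      have b3 := add_sum_erase univ m (mem_univ X)
      have b4 := a4 (fun Y => if Y = X then 0 else 1) fun Y hY => by
        by_cases e1 : Y = X
        · rw [if_pos e1]
          exact mo Y hY
        · rw [if_neg e1]
          have b5 : m Y ≤ ∑ Z ∈ univ.erase X, m Z :=
            single_le_sum (f := m) (fun _ _ => Nat.zero_le _) (by simpa using e1)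
          have b6 := (h4 Y hY).1
          exact h _ (by omega)
      have b7 : k' X + ∑ Y ∈ H, k' Y * (if Y = X then 0 else 1) = ∑ Y ∈ H, k' Y := by
        rw [← add_sum_erase H _ hX, ← add_sum_erase H k' hX, if_pos rfl, mul_zero, zero_add]
        congr 1
        exact sum_congr rfl fun Y hY => by rw [if_neg (ne_of_mem_erase hY), mul_one]
      have b8 := a5 X hX
      omega

end ACQy

open Finset in
theorem s_ACQ : S_ACQ := by
  classical
  intro I J _ _ k e k' e' m nt s Φ Φ' hs h1 h2 h3 h4 hΦ hΦ'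
  have h5 : ∀ A X, 0 < m A X →
      k' X ≤ m A X ∧ ((m A X = k' X ∧ e A ≤ e' X) ∨ 2 * k' X ≤ m A X) := fun A X p => by
    obtain ⟨⟨μ, hμ⟩, b⟩ := h4 A X p
    refine ⟨Nat.le_of_dvd p ⟨μ, hμ⟩, ?_⟩
    have a : 0 < μ := Nat.pos_of_mul_pos_left (hμ ▸ p)
    rcases (show μ = 1 ∨ 2 ≤ μ by omega) with rfl | c
    · rw [mul_one] at hμ
      exact .inl ⟨hμ, b hμ⟩
    · exact .inr (by rw [hμ, mul_comm]; exact Nat.mul_le_mul_left _ c)
  have key : ∀ o : ∀ X, nt X → I, (∀ X h, 0 < m (o X h) X) → Φ' ≤ Φ ∧ ∀ A,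
      (∀ x, 2 * x ≤ k A → s x < s (k A)) → k A ≤ Φ - Φ' ∨
        ∃ X, (∃ h : nt X, o X h = A) ∧ m A X = k' X ∧ k A + e' X ≤ k' X + e A + (Φ - Φ') := by
    intro o ho
    obtain ⟨H, hH⟩ : ∃ H : I → Finset J, ∀ A X, X ∈ H A ↔ ∃ h : nt X, o X h = A :=
      ⟨fun A => univ.filter fun X => ∃ h : nt X, o X h = A, by simp⟩
    have l := fun A => ACQy.loc hs (h1 A).2.1 (h1 A).2.2 (fun X => (h2 X).2) (H A)
      fun X hX => h5 A X (by obtain ⟨h, rfl⟩ := (hH A X).1 hX; exact ho X h)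
    obtain ⟨c, hc⟩ : ∃ c : I → ℕ, ∀ A, ∑ X ∈ H A, (k' X * (3 + s (k' X)) - e' X) = c A :=
      ⟨_, fun _ => rfl⟩
    obtain ⟨d, hd⟩ : ∃ d : I → ℕ, ∀ A, k A * (3 + s (k A)) - e A = d A := ⟨_, fun _ => rfl⟩
    have e1 : Φ' = ∑ A, c A := by
      have : ∀ A, c A = ∑ X, if X ∈ H A then k' X * (3 + s (k' X)) - e' X else 0 := fun A => by
        rw [← hc, ← sum_filter]
        simp
      rw [hΦ', sum_congr rfl fun A _ => this A, sum_comm]
      refine sum_congr rfl fun X _ => ?_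
      by_cases q : nt X <;> simp [hH, q]
    simp only [hc, hd] at l hΦ
    have e2 : Φ = ∑ A, (d A - c A) + Φ' := by
      rw [hΦ, e1, ← sum_add_distrib]
      exact sum_congr rfl fun A _ => (Nat.sub_add_cancel (l A).1).symm
    refine ⟨by omega, fun A hA => ?_⟩
    have r : d A - c A ≤ ∑ A, (d A - c A) :=
      single_le_sum (f := fun A => d A - c A) (fun _ _ => Nat.zero_le _) (mem_univ A)
    have r' := (l A).1
    rcases (l A).2 hA with t | ⟨X, t1, t2, t3⟩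
    · exact .inl (by omega)
    · exact .inr ⟨X, (hH A X).1 t1, t2, by omega⟩
  refine ⟨?_, fun A hA => ?_⟩
  · choose o ho using h3
    exact (key o ho).1
  · have h6 : ∀ X, nt X → ∃ B, 0 < m B X ∧ (B = A → ∀ A', A' ≠ A → m A' X = 0) := fun X h => by
      by_cases c : ∀ A', A' ≠ A → m A' X = 0
      · exact (h3 X h).imp fun B hB => ⟨hB, fun _ => c⟩
      · push Not at c
        obtain ⟨B, b1, b2⟩ := c
        exact ⟨B, Nat.pos_of_ne_zero b2, fun t => absurd t b1⟩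
    choose o ho ho' using h6
    exact ((key o ho).2 A hA).imp_right fun ⟨X, ⟨t0, t1⟩, t2, t3⟩ => ⟨X, t0, t2, ho' X t0 t1, t3⟩

end Pool.Agent.P.MP_f1a348_lc.UP
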