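import Pool.Agent.P.MP_f1a348_lc.UP.Iface

/-! The number of automorphisms of a finite semisimple ring. -/

namespace Pool.Agent.P.MP_f1a348_lc.UP

open Matrix Module Pool.Agent.P.MP_f1a348_lc.PG
open scoped commutatorElement

namespace AUTz

theorem gen (d : ℕ) [NeZero d] (D : Type) [DivisionRing D] [Finite D] :
    ∃ x y z : Matrix (Fin d) (Fin d) D, ∀ T : Subring (Matrix (Fin d) (Fin d) D),
      x ∈ T → y ∈ T → z ∈ T → ∀ M, M ∈ T := by
  obtain ⟨ζ, hζ⟩ := IsCyclic.exists_monoid_generator (α := Dˣ)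
  obtain ⟨d, rfl⟩ := Nat.exists_eq_succ_of_ne_zero (NeZero.ne d)
  refine ⟨∑ a, single (a + 1) a 1, ∑ a, single a (a + 1) 1, single 0 0 ζ,
    fun T hx hy hz M => ?_⟩
  have h0 : ∀ k : ℕ, single 0 0 ((ζ ^ (k + 1) : Dˣ) : D) ∈ T := fun k => by
    induction k with
    | zero => simpa using hz
    | succ k ih => simpa [pow_succ] using mul_mem ih hz
  have h1 : ∀ c : D, single 0 0 c ∈ T := fun c => by
    by_cases h : c = 0
    · simp [h]
    · obtain ⟨k, hk⟩ := hζ (Units.mk0 c h * ζ⁻¹)
      have := h0 k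
      rwa [pow_succ, show ζ ^ k = _ from hk, inv_mul_cancel_right] at this
  have h2 : ∀ (c : D) i, single i 0 c ∈ T := fun c i => by
    induction i using Fin.induction with
    | zero => exact h1 c
    | succ i ih =>
      have := mul_mem hx ih
      rwa [Finset.sum_mul, Finset.sum_eq_single i.castSucc
        (fun b _ h => single_mul_single_of_ne _ _ _ _ h _) (by simp), single_mul_single_same,
        one_mul, Fin.coeSucc_eq_succ] at this
  have h3 : ∀ (c : D) i j, single i j c ∈ T := fun c i j => by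
    induction j using Fin.induction with
    | zero => exact h2 c i
    | succ j ih =>
      have := mul_mem ih hy
      rwa [Finset.mul_sum, Finset.sum_eq_single j.castSucc
        (fun b _ h => single_mul_single_of_ne _ _ _ _ h.symm _) (by simp), single_mul_single_same,
        mul_one, Fin.coeSucc_eq_succ] at this
  rw [matrix_eq_sum_single M]
  exact sum_mem fun i _ => sum_mem fun j _ => h3 _ i j

theorem idem {d : ℕ} [NeZero d] {D : Type} [DivisionRing D] {c : Matrix (Fin d) (Fin d) D}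
    (h1 : c * c = c) (h2 : ∀ y, y * c = c * y) : c = 0 ∨ c = 1 := by
  obtain ⟨a, rfl⟩ := mem_range_scalar_iff_commute_single'.2 fun i j => h2 (single i j 1)
  rw [← map_mul, scalar_inj] at h1
  exact (IsIdempotentElem.iff_eq_zero_or_one.1 h1).imp (fun h => by simp [h]) fun h => by simp [h]

theorem bound {m : ℕ} (R : Fin m → Type) [∀ i, Ring (R i)] [Finite (∀ i, R i)]
    (hg : ∀ i, ∃ x y z : R i, ∀ T : Subring (R i), x ∈ T → y ∈ T → z ∈ T → ∀ M, M ∈ T)
    (hi : ∀ i (c : R i), c * c = c → (∀ y, y * c = c * y) → c = 0 ∨ c = 1) :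
    Nat.card ((∀ i, R i) ≃+* ∀ i, R i) ≤ 2 ^ (m * m) * Nat.card (∀ i, R i) ^ 3 := by
  classical
  choose x y z hg using hg
  have e1 : ∀ i (u : ∀ i, R i), Pi.single i (u i) = Pi.single i 1 * u := fun i u => by
    rw [← Pi.single_mul_left, one_mul]
  have e2 : ∀ i (u : ∀ i, R i), u * Pi.single i 1 = Pi.single i 1 * u := fun i u => by
    rw [← Pi.single_mul_left, ← Pi.single_mul_right, one_mul, mul_one]
  have e3 : ∀ (φ : (∀ i, R i) ≃+* ∀ i, R i) i j,
      φ (Pi.single i 1) j = 0 ∨ φ (Pi.single i 1) j = 1 := fun φ i j => by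
    refine hi j _ ?_ fun u => ?_
    · rw [← Pi.mul_apply, ← map_mul, ← Pi.single_mul, one_mul]
    · obtain ⟨v, hv⟩ := φ.surjective (Pi.single j u)
      have := congrFun (congrArg φ (e2 i v)) j
      rwa [map_mul, map_mul, hv, Pi.mul_apply, Pi.mul_apply, Pi.single_eq_same] at this
  refine (Nat.card_le_card_of_injective (fun φ : (∀ i, R i) ≃+* ∀ i, R i =>
    ((fun q : Fin m × Fin m => decide (φ (Pi.single q.1 1) q.2 = 0)), ![φ x, φ y, φ z]))
    fun φ ψ h => ?_).trans_eq (by simp [Nat.card_fun (α := Fin 3)])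
  obtain ⟨h1, h2⟩ := Prod.ext_iff.1 h
  have h3 : ∀ i, φ (Pi.single i 1) = ψ (Pi.single i 1) := fun i => funext fun j => by
    have := decide_eq_decide.1 (congrFun h1 (i, j))
    rcases e3 φ i j with a | a
    · rw [this.1 a, a]
    · rcases e3 ψ i j with b | b
      · rw [this.2 b, b]
      · rw [a, b]
  refine RingEquiv.ext fun u => ?_
  rw [← Finset.univ_sum_single u, map_sum, map_sum]
  refine Finset.sum_congr rfl fun i _ => ?_
  let T : Subring (R i) :=
    { carrier := {M | φ (Pi.single i M) = ψ (Pi.single i M)}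
      mul_mem' := fun {a b} ha hb => by
        rw [Set.mem_ofPred_eq, Pi.single_mul, map_mul, map_mul, ha, hb]
      one_mem' := h3 i
      add_mem' := fun {a b} ha hb => by
        rw [Set.mem_ofPred_eq, Pi.single_add, map_add, map_add, ha, hb]
      zero_mem' := by simp
      neg_mem' := fun {a} ha => by rw [Set.mem_ofPred_eq, Pi.single_neg, map_neg, map_neg, ha] }
  have h4 : ∀ v, φ v = ψ v → v i ∈ T := fun v hv => by
    show φ _ = ψ _
    rw [e1, map_mul, map_mul, h3, hv]
  exact hg i T (h4 _ (congrFun h2 0)) (h4 _ (congrFun h2 1)) (h4 _ (congrFun h2 2)) _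

end AUTz

theorem s_AUT : S_AUT := by
  intro A _ _ _ r hr
  classical
  obtain ⟨m, D, d, _, hd, ⟨e⟩⟩ := IsSemisimpleRing.exists_ringEquiv_pi_matrix_divisionRing A
  have := Finite.of_equiv _ e.toEquiv
  have hD : ∀ i, Finite (D i) := fun i => Finite.of_injective
    (fun c : D i => (Pi.single i (scalar _ c) : ∀ i, Matrix (Fin (d i)) (Fin (d i)) (D i)))
    fun a b h => scalar_inj.1 (Pi.single_injective i h)
  have h1 := AUTz.bound (fun i => Matrix (Fin (d i)) (Fin (d i)) (D i))
    (fun i => AUTz.gen _ _) fun i _ => AUTz.idem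
  have h0 : ∀ i, e.symm (Pi.single i 1) ≠ 0 := fun i h => by
    simpa using congrFun (e.symm.map_eq_zero_iff.1 h) i
  have h2 : ∀ i j, i ≠ j → e.symm (Pi.single i 1) * e.symm (Pi.single j 1) = 0 := fun i j h => by
    rw [← map_mul, ← Pi.single_mul_left, Pi.single_eq_of_ne h, mul_zero, Pi.single_zero, map_zero]
  have h3 : ∀ i, e.symm (Pi.single i 1) * e.symm (Pi.single i 1) = e.symm (Pi.single i 1) :=
    fun i => by rw [← map_mul, ← Pi.single_mul, one_mul]
  have h4 := hr (Finset.univ.image fun i => e.symm (Pi.single i 1)) (fun _ h => by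
    obtain ⟨i, -, rfl⟩ := Finset.mem_image.1 h
    refine ⟨h0 i, h3 i, fun u => ?_⟩
    obtain ⟨v, rfl⟩ := e.symm.surjective u
    rw [← map_mul, ← map_mul, ← Pi.single_mul_left, ← Pi.single_mul_right, one_mul, mul_one])
    fun _ h _ h' hne => by
      obtain ⟨i, -, rfl⟩ := Finset.mem_image.1 h
      obtain ⟨j, -, rfl⟩ := Finset.mem_image.1 h'
      exact h2 i j fun q => hne (q ▸ rfl)
  rw [Finset.card_image_of_injective _ fun i j h => by_contra fun q =>
    h0 i (by rw [← h3 i, ← h2 i j q, h]), Finset.card_univ, Fintype.card_fin] at h4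
  rw [Nat.card_congr e.toEquiv]
  have : Finite ((∀ i, Matrix (Fin (d i)) (Fin (d i)) (D i)) ≃+*
    ∀ i, Matrix (Fin (d i)) (Fin (d i)) (D i)) := DFunLike.finite _
  refine le_trans (Nat.card_le_card_of_injective (fun φ => e.symm.trans (φ.trans e))
    fun φ ψ h => RingEquiv.ext fun u => ?_) (h1.trans ?_)
  · simpa using DFunLike.congr_fun h (e u)
  · gcongr
    norm_num

end Pool.Agent.P.MP_f1a348_lc.UP
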