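import Pool.Agent.P.MP_f1a348_lc.UP.Iface

/-!
Project UP: the index of the centraliser of a semisimple quotient.
-/

namespace Pool.Agent.P.MP_f1a348_lc.UP

open Matrix Module Pool.Agent.P.MP_f1a348_lc.PG
open scoped commutatorElement

namespace AUTQz

variable {p n : ℕ} [Fact p.Prime] {R I : Sub p n} {S : Subring (Mat p n)} {J : Ideal S}

theorem card (hS : ∀ x, x ∈ S ↔ x ∈ R) (hJ : ∀ x, x ∈ J ↔ x.1 ∈ I) (h : I ≤ R) :
    Nat.card (S ⧸ J) = p ^ (finrank (ZMod p) R - finrank (ZMod p) I) := by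
  have h1 : Nat.card S = Nat.card R := Nat.card_congr (Equiv.subtypeEquivRight hS)
  have h2 : Nat.card J = Nat.card I := Nat.card_congr
    ⟨fun x => ⟨x.1.1, (hJ _).1 x.2⟩, fun x => ⟨⟨x.1, (hS _).2 (h x.2)⟩, (hJ _).2 x.2⟩,
      fun _ => rfl, fun _ => rfl⟩
  have h3 := Submodule.card_eq_card_quotient_mul_card J
  rw [h1, h2, Module.natCard_eq_pow_finrank (K := ZMod p) (V := R),
    Module.natCard_eq_pow_finrank (K := ZMod p) (V := I), Nat.card_zmod,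
    ← Nat.add_sub_cancel' (Submodule.finrank_mono h), pow_add] at h3
  exact (Nat.eq_of_mul_eq_mul_left (pow_pos (Fact.out : p.Prime).pos _) h3).symm

theorem semi [J.IsTwoSided] (h : ∀ x : S, (∀ y, ∃ k, (x * y) ^ (k + 1) ∈ J) → x ∈ J) :
    IsSemisimpleRing (S ⧸ J) := by
  have : Finite (S ⧸ J) := Finite.of_surjective _ Ideal.Quotient.mk_surjective
  rw [IsArtinianRing.isSemisimpleRing_iff_jacobson, eq_bot_iff]
  intro x hx
  obtain ⟨x, rfl⟩ := Ideal.Quotient.mk_surjective x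
  obtain ⟨k, hk⟩ := IsSemiprimaryRing.isNilpotent (R := S ⧸ J)
  refine Ideal.Quotient.eq_zero_iff_mem.2 (h x fun y => ⟨k, Ideal.Quotient.eq_zero_iff_mem.1 ?_⟩)
  have := Ideal.pow_mem_pow (Ideal.mul_mem_right (Ideal.Quotient.mk J y) _ hx) k
  rw [hk, Ideal.zero_eq_bot, Ideal.mem_bot] at this
  rw [map_pow, map_mul, pow_succ, this, zero_mul]

theorem hom [J.IsTwoSided] (hS : ∀ x, x ∈ S ↔ x ∈ R) (hJ : ∀ x, x ∈ J ↔ x.1 ∈ I) {g : GG p n}
    (h1 : g ∈ NmS R) (h2 : g ∈ NmS I) : ∃ e : S ⧸ J →+* S ⧸ J, ∀ x y : S, y.1 = cj g.1 x →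
      e (Ideal.Quotient.mk J x) = Ideal.Quotient.mk J y := by
  let φ : S →+* S :=
    { toFun := fun x => ⟨cj g.1 x, (hS _).2 (h1 _ ((hS _).1 x.2))⟩
      map_one' := Subtype.ext g.2.2.1.cj_one
      map_mul' := fun x y => Subtype.ext (g.2.2.1.cj_mul _ _)
      map_zero' := Subtype.ext (map_zero _)
      map_add' := fun x y => Subtype.ext (map_add _ _ _) }
  refine ⟨Ideal.Quotient.lift J ((Ideal.Quotient.mk J).comp φ) fun a ha =>
    Ideal.Quotient.eq_zero_iff_mem.2 ((hJ _).2 (h2 _ ((hJ _).1 ha))), fun x y e => ?_⟩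
  exact congrArg (Ideal.Quotient.mk J) (Subtype.ext e.symm)

theorem aut [J.IsTwoSided] (hS : ∀ x, x ∈ S ↔ x ∈ R) (hJ : ∀ x, x ∈ J ↔ x.1 ∈ I) {g : GG p n}
    (h1 : g ∈ NmS R) (h2 : g ∈ NmS I) : ∃ e : S ⧸ J ≃+* S ⧸ J, ∀ x y : S, y.1 = cj g.1 x →
      e (Ideal.Quotient.mk J x) = Ideal.Quotient.mk J y := by
  obtain ⟨e, he⟩ := hom hS hJ h1 h2
  obtain ⟨e', he'⟩ := hom hS hJ (inv_mem h1) (inv_mem h2)
  refine ⟨RingEquiv.ofRingHom e e' (Ideal.Quotient.ringHom_ext (RingHom.ext fun x => ?_))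
    (Ideal.Quotient.ringHom_ext (RingHom.ext fun x => ?_)), he⟩
  · exact (congrArg e (he' x ⟨_, (hS _).2 (inv_mem h1 _ ((hS _).1 x.2))⟩ rfl)).trans
      (he _ x (g.2.2.1.cj_cj' _).symm)
  · exact (congrArg e' (he x ⟨_, (hS _).2 (h1 _ ((hS _).1 x.2))⟩ rfl)).trans
      (he' _ x (g.2.2.1.cj_cj _).symm)

theorem idx [J.IsTwoSided] (hS : ∀ x, x ∈ S ↔ x ∈ R) (hJ : ∀ x, x ∈ J ↔ x.1 ∈ I) {H : SG p n}
    (h1 : H ≤ NmS R) (h2 : H ≤ NmS I) :
    (CenQ R I).relIndex H ≤ Nat.card (S ⧸ J ≃+* S ⧸ J) := by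
  have : Finite (S ⧸ J) := Finite.of_surjective _ Ideal.Quotient.mk_surjective
  have : Finite (S ⧸ J ≃+* S ⧸ J) := Finite.of_injective _ DFunLike.coe_injective
  choose F hF using fun g : H => aut hS hJ (h1 g.2) (h2 g.2)
  refine Nat.card_le_card_of_injective (fun q : H ⧸ (CenQ R I).subgroupOf H => F q.out)
    fun q q' e => ?_
  rw [← q.out_eq, ← q'.out_eq]
  refine QuotientGroup.eq.2 ⟨h2 (q.out⁻¹ * q'.out).2, fun x hx => ?_⟩
  have h3 := hF q'.out ⟨x, (hS _).2 hx⟩ ⟨_, (hS _).2 (h1 q'.out.2 _ hx)⟩ rfl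
  rw [← show F q.out = F q'.out from e,
    hF q.out ⟨x, (hS _).2 hx⟩ ⟨_, (hS _).2 (h1 q.out.2 _ hx)⟩ rfl] at h3
  have h4 := h2 (inv_mem q.out.2) _ ((hJ _).1 (Ideal.Quotient.eq.1 h3.symm))
  rw [AddSubgroupClass.coe_sub, map_sub, val_inv, q.out.1.2.2.1.cj_cj] at h4
  simpa only [cj_apply, Subgroup.subtype_apply, Subgroup.coe_mul, Subgroup.coe_inv, val_mul, val_inv, st_mul,
    mul_assoc] using h4

end AUTQz

open AUTQz in
theorem s_AUTQ (p n : ℕ) [Fact p.Prime] (hAUT : S_AUT) : S_AUTQ p n := by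
  classical
  intro H R I r h1 hm hI hi hR hN hn hs
  obtain ⟨S, hS⟩ : ∃ S : Subring (Mat p n), ∀ x, x ∈ S ↔ x ∈ R :=
    ⟨{ carrier := R, mul_mem' := fun a b => hm _ a _ b, one_mem' := h1, add_mem' := add_mem,
       zero_mem' := zero_mem _, neg_mem' := neg_mem }, fun _ => Iff.rfl⟩
  obtain ⟨J, hJ⟩ : ∃ J : Ideal S, ∀ x, x ∈ J ↔ x.1 ∈ I :=
    ⟨{ carrier := {x | x.1 ∈ I}, add_mem' := add_mem (S := Sub p n), zero_mem' := zero_mem I,
       smul_mem' := fun c x hx => (hi _ ((hS _).1 c.2) _ hx).1 }, fun _ => Iff.rfl⟩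
  have : J.IsTwoSided := ⟨fun b ha => (hJ _).2 (hi _ ((hS _).1 b.2) _ ((hJ _).1 ha)).2⟩
  have : Finite (S ⧸ J) := Finite.of_surjective _ Ideal.Quotient.mk_surjective
  have := semi (J := J) fun x hx => (hJ _).2 (hn _ ((hS _).1 x.2) fun y hy =>
    (hx ⟨y, (hS _).2 hy⟩).imp fun k hk => (hJ _).1 hk)
  refine (idx hS hJ hR hN).trans ((hAUT _ r fun s a b => ?_).trans_eq
    (by rw [card hS hJ hI, ← pow_mul, mul_comm 3]))
  choose f hf using Ideal.Quotient.mk_surjective (I := J)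
  have hq : ∀ x : S, x.1 ∈ I ↔ Ideal.Quotient.mk J x = 0 := fun x => by
    rw [← hJ, Ideal.Quotient.eq_zero_iff_mem]
  rw [← Finset.card_image_of_injective s (f := fun e => (f e).1) fun e e' h => by
    rw [← hf e, ← hf e', Subtype.ext h]]
  refine hs _ ?_ ?_ <;> simp only [Finset.forall_mem_image]
  · intro e he
    refine ⟨(hS _).1 (f e).2, fun h => (a e he).1 (hf e ▸ (hq _).1 h),
      (hq (f e * f e - f e)).2 ?_, fun y hy =>
      (hq (f e * ⟨y, (hS _).2 hy⟩ - ⟨y, (hS _).2 hy⟩ * f e)).2 ?_⟩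
    · rw [map_sub, map_mul, hf, (a e he).2.1, sub_self]
    · rw [map_sub, map_mul, map_mul, hf, (a e he).2.2, sub_self]
  · intro e he e' he' h
    refine (hq (f e * f e')).2 ?_
    rw [map_mul, hf, hf, b e he e' he' fun h' => h (by rw [h'])]

end Pool.Agent.P.MP_f1a348_lc.UP
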