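import Pool.Agent.P.MP_f1a348_lc.UP.Iface

namespace Pool.Agent.P.MP_f1a348_lc.UP

open Matrix Module Pool.Agent.P.MP_f1a348_lc.PG
open scoped commutatorElement

namespace CLFz

variable {p n : ℕ} [Fact p.Prime] {ℓ : Ix n → ℕ} {A B : Sub p n}

/-- non-zero invariant subspaces of a block of least dimension -/
def Mn (ℓ : Ix n → ℕ) (A : Sub p n) (a : Ix n) (S : VS p n) : Prop :=
  (S ≤ Vb ℓ a ∧ Inv A S ∧ S ≠ ⊥) ∧ ∀ S' : VS p n, S' ≤ Vb ℓ a ∧ Inv A S' ∧ S' ≠ ⊥ →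
    finrank (ZMod p) S ≤ finrank (ZMod p) S'

theorem exists_mn (hA : Alg ℓ A) (a : Ix n) : ∃ S, Mn ℓ A a S := by
  have h0 : (Vb ℓ a : VS p n) ≠ ⊥ := fun e => by
    have h1 := finrank_Vb (p := p) (ℓ := ℓ) a
    have h2 := nb_pos ℓ a
    rw [e, finrank_bot] at h1
    omega
  obtain ⟨S, h1, h2⟩ := (measure fun S : VS p n => finrank (ZMod p) S).wf.has_min
    {S | S ≤ Vb ℓ a ∧ Inv A S ∧ S ≠ ⊥}
    ⟨Vb ℓ a, le_rfl, fun x hx u hu => (hA.dg x hx).mulVec_mem hu, h0⟩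
  exact ⟨S, h1, fun S' h => not_lt.1 (h2 S' h)⟩

theorem Mn.map {a : Ix n} {S : VS p n} (h : Mn ℓ A a S) {z : Mat p n} (hd : Dg ℓ z) (hu : Un z)
    (hz : ∀ x ∈ A, cj (st z) x ∈ A) : Mn ℓ A a (S.map z.mulVecLin) := by
  refine ⟨⟨?_, ?_, fun e => h.1.2.2 ?_⟩, fun S' h' =>
    (Submodule.finrank_map_le _ _).trans (h.2 S' h')⟩
  · rintro _ ⟨u, hu, rfl⟩
    exact hd.mulVec_mem (h.1.1 hu)
  · rintro x hx _ ⟨u, hu', rfl⟩
    refine ⟨_, h.1.2.1 _ (hz x hx) u hu', ?_⟩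
    rw [cj_apply, st_st, mulVecLin_apply, mulVecLin_apply, mul_assoc, ← mulVec_mulVec,
      hu.mulVec_st, mulVec_mulVec]
  · rw [eq_bot_iff]
    intro u hu'
    have : z *ᵥ u ∈ S.map z.mulVecLin := ⟨u, hu', rfl⟩
    rw [e, Submodule.mem_bot] at this
    rw [Submodule.mem_bot, ← hu.st_mulVec u, this, mulVec_zero]

theorem vb_le (hB : Str ℓ B) (hA : Alg ℓ A)
    (h : B ≤ Submodule.span (ZMod p) {z | z ∈ B ∧ Un z ∧ ∀ x ∈ A, cj (st z) x ∈ A}) (a : Ix n) :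
    Vb ℓ a ≤ sSup {S | Mn ℓ A a S} := by
  have key : ∀ b ∈ B, ∀ u ∈ sSup {S | Mn ℓ A a S}, b *ᵥ u ∈ sSup {S | Mn ℓ A a S} := by
    intro b hb u hu
    have hb' := h hb
    clear hb
    induction hb' using Submodule.span_induction with
    | mem z hz =>
      have : sSup {S | Mn ℓ A a S} ≤ (sSup {S | Mn ℓ A a S}).comap z.mulVecLin :=
        sSup_le fun S hS => Submodule.map_le_iff_le_comap.1
          (le_sSup (Mn.map hS (hB.alg.dg z hz.1) hz.2.1 hz.2.2))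
      exact this hu
    | zero => rw [zero_mulVec]; exact zero_mem _
    | add x y _ _ hx hy => rw [add_mulVec]; exact add_mem hx hy
    | smul c x _ hx => rw [smul_mulVec]; exact Submodule.smul_mem _ c hx
  obtain ⟨S, hS⟩ := exists_mn hA a
  obtain ⟨x, hx, h0⟩ := Submodule.exists_mem_ne_zero_of_ne_bot hS.1.2.2
  intro y hy
  obtain ⟨b, hb, rfl⟩ := hB.sim a x (hS.1.1 hx) h0 y hy
  exact key b hb x (le_sSup (s := {S | Mn ℓ A a S}) hS hx)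

theorem inv_sup {U V : VS p n} (hU : Inv A U) (hV : Inv A V) : Inv A (U ⊔ V) := by
  intro x hx u hu
  obtain ⟨a, ha, b, hb, rfl⟩ := Submodule.mem_sup.1 hu
  rw [mulVec_add]
  exact Submodule.add_mem_sup (hU x hx a ha) (hV x hx b hb)

end CLFz

open CLFz in
theorem s_CLF (p n : ℕ) [Fact p.Prime] : S_CLF p n := by
  intro ℓ B A hB hA h U hU
  obtain ⟨U', ⟨h1, h2⟩, h3⟩ := (wellFounded_gt (α := VS p n)).has_min
    {U' | Inv A U' ∧ Disjoint U U'}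
    ⟨⊥, fun x _ u hu => by rw [(Submodule.mem_bot _).1 hu, mulVec_zero]; exact zero_mem _,
      disjoint_bot_right⟩
  refine ⟨U', h1, h2, codisjoint_iff.2 (eq_top_iff.2 fun x _ => mem_of_blocks hB.lab fun a => ?_)⟩
  refine (sSup_le fun S hS => ?_ : sSup {S | Mn ℓ A a S} ≤ U ⊔ U')
    (vb_le hB hA h a (pr_mulVec_mem a x))
  by_cases e : S ⊓ (U ⊔ U') = ⊥
  · have h4 := h3 (U' ⊔ S) ⟨inv_sup h1 hS.1.2.1,
      h2.disjoint_sup_right_of_disjoint_sup_left (disjoint_iff.2 e).symm⟩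
    have h5 : U' = U' ⊔ S := by
      by_contra c
      exact h4 (lt_of_le_of_ne le_sup_left c)
    exact (le_sup_right.trans h5.ge).trans le_sup_right
  · have h4 := hS.2 (S ⊓ (U ⊔ U')) ⟨inf_le_left.trans hS.1.1, fun y hy u hu =>
      ⟨hS.1.2.1 y hy u hu.1, inv_sup hU h1 y hy u hu.2⟩, e⟩
    rw [← Submodule.eq_of_le_of_finrank_le inf_le_left h4]
    exact inf_le_right

end Pool.Agent.P.MP_f1a348_lc.UP
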