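import Pool.Agent.P.MP_f1a348_lc.UP.Iface

/-! Project UP: cyclic submodules of a normalised algebra. -/

namespace Pool.Agent.P.MP_f1a348_lc.UP

open Matrix Module Pool.Agent.P.MP_f1a348_lc.PG
open scoped commutatorElement

namespace CYBz

variable {p : ℕ} [Fact p.Prime] {W : Type} [AddCommGroup W] [Module (ZMod p) W] [Finite W]
  {R : Subalgebra (ZMod p) (Module.End (ZMod p) W)}

/-- the dimension over the prime field -/
noncomputable def d (N : Submodule R W) : ℕ := finrank (ZMod p) (N.restrictScalars (ZMod p))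

theorem d_add {A B : Submodule R W} (h : Disjoint A B) : d (A ⊔ B) = d A + d B := by
  rw [d, d, d, ← Submodule.finrank_sup_add_finrank_inf_eq, ← Submodule.restrictScalars_inf,
    h.eq_bot, Submodule.restrictScalars_sup, Submodule.restrictScalars_bot, finrank_bot, add_zero]

theorem d_compl {A B : Submodule R W} (h : IsCompl A B) : d A + d B = finrank (ZMod p) W := by
  rw [← d_add h.disjoint, h.sup_eq_top, d, Submodule.restrictScalars_top, finrank_top]

theorem d_mono {A B : Submodule R W} (h : A ≤ B) : d A ≤ d B := Submodule.finrank_mono h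

theorem d_zero {A : Submodule R W} (h : d A = 0) : A = ⊥ :=
  (Submodule.restrictScalars_eq_bot_iff _ _ _).1 (Submodule.finrank_eq_zero.1 h)

omit [Finite W] in
theorem mem_span {w y : W} : y ∈ Submodule.span R {w} ↔ ∃ r ∈ R, r w = y :=
  Submodule.mem_span_singleton.trans ⟨fun ⟨r, h⟩ => ⟨r, r.2, h⟩, fun ⟨r, h, e⟩ => ⟨⟨r, h⟩, e⟩⟩

/-- the preimage under a normalising map -/
def cm (f g : Module.End (ZMod p) W) (e : g * f = 1) (h : ∀ r ∈ R, f * r * g ∈ R)
    (N : Submodule R W) : Submodule R W where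
  carrier := {x | f x ∈ N}
  add_mem' a b := by simpa using N.add_mem a b
  zero_mem' := by simp
  smul_mem' r x a := by
    have := N.smul_mem ⟨_, h r r.2⟩ a
    change (f * r * g * f) x ∈ N at this
    rwa [mul_assoc, e, mul_one] at this

/-- the preimage as an isomorphism of lattices -/
def co (f g : Module.End (ZMod p) W) (e : g * f = 1) (e' : f * g = 1) (h : ∀ r ∈ R, f * r * g ∈ R)
    (h' : ∀ r ∈ R, g * r * f ∈ R) : Submodule R W ≃o Submodule R W :=
  Equiv.toOrderIso ⟨cm f g e h, cm g f e' h',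
    fun N => Submodule.ext fun x => show (f * g) x ∈ N ↔ _ by rw [e']; rfl,
    fun N => Submodule.ext fun x => show (g * f) x ∈ N ↔ _ by rw [e]; rfl⟩
    (fun _ _ a _ b => a b) fun _ _ a _ b => a b

omit [Finite W] in
theorem d_co {f g : Module.End (ZMod p) W} (e : g * f = 1) (e' : f * g = 1) (h) (h')
    (N : Submodule R W) : d (co f g e e' h h' N) = d N :=
  ((LinearEquiv.ofLinearMap f g e' e).ofSubmodule' (N.restrictScalars (ZMod p))).finrank_eq

end CYBz

open CYBz

theorem s_CYB (p : ℕ) [Fact p.Prime] : S_CYB p := by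
  intro Γ W _ _ _ _ H σ R hσ hI hR
  rcases subsingleton_or_nontrivial W with h0 | h0
  · exact ⟨inferInstance, fun _ _ _ _ => Or.inr fun v hv => absurd (Subsingleton.elim _ _) hv⟩
  obtain ⟨S, hS⟩ := IsAtomic.exists_atom (Submodule R W)
  have top : sSup {A : Submodule R W | IsAtom A ∧ d A = d S} = ⊤ := by
    refine (Submodule.restrictScalars_eq_top_iff (ZMod p) _ _).1
      ((hI _ fun h hh x hx => ?_).resolve_left fun e => hS.1 (le_bot_iff.1 ?_))
    · have e : σ h⁻¹ * σ h = 1 := by rw [← hσ.mul _ (H.inv_mem hh) _ hh, inv_mul_cancel, hσ.one]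
      have e' : σ h * σ h⁻¹ = 1 := by rw [← hσ.mul _ hh _ (H.inv_mem hh), mul_inv_cancel, hσ.one]
      have k : ∀ r ∈ R, σ h⁻¹ * r * σ h ∈ R := by simpa using hR _ (H.inv_mem hh)
      refine (sSup_le fun A hA y hy => ?_ : _ ≤ cm _ _ e (hR h hh) (sSup _)) hx
      refine (le_sSup ⟨(OrderIso.isAtom_iff _ _).2 hA.1, (d_co _ _ _ _ _).trans hA.2⟩ :
        co _ _ e' e k (hR h hh) A ≤ sSup {A | IsAtom A ∧ d A = d S}) ?_
      change (σ h⁻¹ * σ h) y ∈ A
      rwa [e]
    · rw [← (Submodule.restrictScalars_eq_bot_iff _ _ _).1 e]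
      exact le_sSup ⟨hS, rfl⟩
  have ss : IsSemisimpleModule R W := IsSemisimpleModule.of_sSup_simples_eq_top
    (top_le_iff.1 (top.ge.trans (sSup_le_sSup fun A hA => isSimpleModule_iff_isAtom.2 hA.1)))
  have all : ∀ T : Submodule R W, IsAtom T → d T = d S := fun T hT => by
    obtain ⟨C, hC⟩ := exists_isCompl T
    have h1 := hC.isAtom_iff_isCoatom.1 hT
    obtain ⟨A, hA, h2⟩ : ∃ A : Submodule R W, (IsAtom A ∧ d A = d S) ∧ ¬ A ≤ C := by
      by_contra! h
      exact h1.1 (top_le_iff.1 (top.ge.trans (sSup_le h)))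
    have h3 := d_compl ⟨hA.1.not_le_iff_disjoint.1 h2, (h1.not_le_iff_codisjoint.1 h2).symm⟩
    have h4 := d_compl hC
    omega
  have s0 : 0 < d S := Nat.pos_of_ne_zero fun h => hS.1 (d_zero h)
  refine ⟨ss, fun w U hU hD => ?_⟩
  obtain rfl : U = (Submodule.span R {w}).restrictScalars (ZMod p) :=
    Submodule.ext fun y => (hU y).trans mem_span.symm
  change _ ≤ 2 * d _ at hD
  have chain : ∀ k, k * d S ≤ d (Submodule.span R {w}) →
      ∃ U' ≤ Submodule.span R {w}, d U' = k * d S := fun k => by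
    induction k with
    | zero => exact fun _ => ⟨⊥, bot_le, (finrank_bot (ZMod p) W).trans (zero_mul _).symm⟩
    | succ k ih =>
      intro h
      rw [add_mul, one_mul] at h ⊢
      obtain ⟨U', h1, h2⟩ := ih (by omega)
      obtain ⟨T, hT, h3⟩ : ∃ T : Submodule R W, (IsAtom T ∧ T ≤ Submodule.span R {w}) ∧
          ¬ T ≤ U' := by
        by_contra! h3
        have := d_mono ((sSup_atoms_le_eq _).ge.trans (sSup_le h3))
        omega
      exact ⟨U' ⊔ T, sup_le h1 hT.2, by
        rw [d_add (hT.1.not_le_iff_disjoint.1 h3).symm, h2, all T hT.1]⟩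
  rcases le_or_gt (2 * d S) (finrank (ZMod p) W) with h | h
  · have k1 := Nat.div_mul_le_self (finrank (ZMod p) W) (2 * d S)
    have k2 := Nat.lt_mul_div_succ (finrank (ZMod p) W) (show 0 < 2 * d S by omega)
    have k3 := Nat.le_mul_of_pos_left (d S) (Nat.div_pos h (by omega))
    generalize finrank (ZMod p) W / (2 * d S) = k at k1 k2 k3
    rw [mul_left_comm] at k1
    rw [mul_add, mul_assoc, mul_comm (d S)] at k2
    obtain ⟨U', h1, h2⟩ := chain k (by omega)
    obtain ⟨C, hC⟩ := exists_isCompl U'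
    obtain ⟨w', h3, c, h4, e⟩ := Submodule.mem_sup.1 (hC.sup_eq_top.ge (Submodule.mem_top (x := w)))
    refine Or.inl ⟨w', U'.restrictScalars (ZMod p), fun y => ⟨fun hy => ?_, ?_⟩, ?_⟩
    · obtain ⟨r, rfl⟩ := Submodule.mem_span_singleton.1 (h1 hy)
      refine ⟨r, r.2, (sub_eq_zero.1 (Submodule.disjoint_def.1 hC.disjoint _
        (U'.sub_mem hy (U'.smul_mem r h3)) ?_)).symm⟩
      rw [← e, smul_add, add_sub_cancel_left]
      exact C.smul_mem r h4
    · rintro ⟨r, hr, rfl⟩
      exact U'.smul_mem ⟨r, hr⟩ h3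
    · change Mid _ (d U')
      constructor <;> omega
  · obtain ⟨C, hC⟩ := exists_isCompl S
    have h1 := d_compl hC
    obtain rfl : C = ⊥ := (eq_bot_or_exists_atom_le C).resolve_right fun ⟨T, hT, e⟩ => by
      have := d_mono e
      have := all T hT
      omega
    obtain rfl : S = ⊤ := by simpa using hC.sup_eq_top
    refine Or.inr fun v hv y => mem_span.1 ?_
    exact ((hS.le_iff.1 le_top).resolve_left (mt Submodule.span_singleton_eq_bot.1 hv)).ge trivial

end Pool.Agent.P.MP_f1a348_lc.UP
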