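import Pool.Agent.P.MP_f1a348_lc.UP.Iface

namespace Pool.Agent.P.MP_f1a348_lc.UP

open Matrix Module Pool.Agent.P.MP_f1a348_lc.PG
open scoped commutatorElement

namespace ENVz

variable {p n : ℕ}

theorem lev (f : GG p n) : Lev (l0 n) f.1 := ⟨lab_l0, f.2, f.2.1.dg_l0⟩

theorem fr_eq (f : GG p n) (x : Mat p n) : fr f x = st f.1 * x * f.1 := by
  rw [fr, cj_apply, st_st]

theorem fr_one (x : Mat p n) : fr (1 : GG p n) x = x := by
  rw [fr_eq, val_one, st_one, one_mul, mul_one]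

theorem mem_env {Z : SG p n} {g : GG p n} (h : g ∈ Z) : g.1 ∈ Env Z :=
  Submodule.subset_span ⟨g, h, rfl⟩

theorem env_ind {Z : SG p n} {P : Mat p n → Prop} (h0 : ∀ g ∈ Z, P g.1) (h1 : P 0)
    (h2 : ∀ x y, P x → P y → P (x + y)) (h3 : ∀ (c : ZMod p) x, P x → P (c • x))
    {x : Mat p n} (hx : x ∈ Env Z) : P x := by
  induction hx using Submodule.span_induction with
  | mem x hx => obtain ⟨g, hg, rfl⟩ := hx; exact h0 g hg
  | zero => exact h1
  | add x y _ _ hx hy => exact h2 x y hx hy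
  | smul c x _ hx => exact h3 c x hx

theorem env_le {Z : SG p n} (R : Sub p n) : Env Z ≤ R ↔ ∀ g ∈ Z, g.1 ∈ R :=
  ⟨fun h _ hg => h (mem_env hg), fun h => Submodule.span_le.2 (by
    rintro _ ⟨g, hg, rfl⟩; exact h g hg)⟩

theorem sa_env (Z : SG p n) : SA (Env Z) where
  one := mem_env (g := 1) Z.one_mem
  mul a ha b hb := by
    refine env_ind (P := fun a => a * b ∈ Env Z) (fun g hg => ?_) (by simp)
      (fun x y hx hy => by rw [add_mul]; exact add_mem hx hy)
      (fun c x hx => by rw [smul_mul_assoc]; exact Submodule.smul_mem _ c hx) ha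
    exact env_ind (P := fun b => g.1 * b ∈ Env Z) (fun h hh => mem_env (Z.mul_mem hg hh)) (by simp)
      (fun x y hx hy => by rw [mul_add]; exact add_mem hx hy)
      (fun c x hx => by rw [mul_smul_comm]; exact Submodule.smul_mem _ c hx) hb
  star a ha := env_ind (P := fun a => st a ∈ Env Z) (fun g hg => mem_env (Z.inv_mem hg))
    (by rw [st_zero]; exact zero_mem _) (fun x y hx hy => by rw [st_add]; exact add_mem hx hy)
    (fun c x hx => by rw [st_smul]; exact Submodule.smul_mem _ c hx) ha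
  dg a ha := env_ind (P := fun a => Dg (l0 n) a) (fun g _ => g.2.1.dg_l0)
    (fun _ _ e => (e rfl).elim) (fun _ _ hx hy => hx.add hy) (fun c _ hx => hx.smul c) ha

theorem triR_env (Z : SG p n) (f : GG p n) (ℓ : Ix n → ℕ) :
    TriR (Env Z) f ℓ ↔ ∀ g ∈ Z, Tri ℓ (fr f g.1) :=
  ⟨fun h _ hg => h _ (mem_env hg), fun h _ hx =>
    env_ind (P := fun x => Tri ℓ (fr f x)) h (by rw [map_zero]; exact fun _ _ e => (e rfl).elim)
      (fun x y hx hy => by rw [map_add]; exact hx.add hy)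
      (fun c x hx => by rw [map_smul]; exact hx.smul c) hx⟩

theorem nil_comm {a b : Mat p n} (h : IsNilpotent (a * b)) : IsNilpotent (b * a) := by
  obtain ⟨k, hk⟩ := h
  exact ⟨k + 1, by rw [pow_succ', mul_assoc, ← mul_pow_mul, hk, zero_mul, mul_zero]⟩

theorem gB_eq {ℓ : Ix n → ℕ} {B : Sub p n} (h : Alg ℓ B) : gB B 1 ℓ = B := by
  ext x
  constructor
  · rintro ⟨y, hy, rfl⟩
    rwa [LinearMap.comp_apply, fr_one, (h.dg y hy).gr_eq]
  · intro hx
    exact ⟨x, hx, by rw [LinearMap.comp_apply, fr_one, (h.dg x hx).gr_eq]⟩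

theorem triR_one {ℓ : Ix n → ℕ} {B : Sub p n} (hl : Lab ℓ) (h : Alg ℓ B) : TriR B 1 ℓ :=
  fun x hx => by rw [fr_one]; exact (h.dg x hx).tri hl

variable [Fact p.Prime]

theorem le_nms {Z H : SG p n} (h : Nm H Z) : H ≤ NmS (Env Z) := fun g hg =>
  mem_NmS.2 fun _ hy => env_ind (P := fun y => cj g.1 y ∈ Env Z)
    (fun k hk => mem_env (h g hg k hk)) (by rw [map_zero]; exact zero_mem _)
    (fun x y hx hy => by rw [map_add]; exact add_mem hx hy)
    (fun c x hx => by rw [map_smul]; exact Submodule.smul_mem _ c hx) hy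

theorem inv_env (Z : SG p n) (U : VS p n) : Inv (Env Z) U ↔ Z ≤ Stb U :=
  ⟨fun h _ hg => mem_Stb.2 (h _ (mem_env hg)), fun h _ hx u hu =>
    env_ind (P := fun x => x *ᵥ u ∈ U) (fun _ hg => mem_Stb.1 (h hg) u hu)
      (by rw [Matrix.zero_mulVec]; exact zero_mem _)
      (fun x y hx hy => by rw [Matrix.add_mulVec]; exact add_mem hx hy)
      (fun c x hx => by rw [Matrix.smul_mulVec]; exact Submodule.smul_mem _ c hx) hx⟩

theorem card_le : Nat.card (GG p n) ≤ p ^ ((2 * n + 1) * (2 * n + 1)) := by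
  have h : Nat.card (Mat p n) = p ^ ((2 * n + 1) * (2 * n + 1)) := by
    rw [show Nat.card (Mat p n) = Nat.card (Ix n → Ix n → ZMod p) from rfl, Nat.card_fun,
      Nat.card_fun, Nat.card_zmod, Nat.card_eq_fintype_card, Fintype.card_fin, ← pow_mul]
  rw [← h]
  exact Nat.card_le_card_of_injective (fun g : GG p n => g.1) Subtype.val_injective

end ENVz

open ENVz in
theorem s_ENV (p n : ℕ) [Fact p.Prime] : S_ENV p n := by
  refine ⟨fun Z => ⟨sa_env Z, fun _ => mem_env, fun Z' h => (env_le _).2 fun _ hg => mem_env (h hg),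
    fun _ => le_nms, inv_env Z, triR_env Z, env_le⟩, fun f x y => ⟨(lev f).star.un.cj_mul x y,
    cj_st _ x, (lev f).star.un.cj_one, fr_one x, fun g => ?_,
    fun hx => ⟨(lev f).star.cj_dg hx, (lev f).star.cj_c0 (hx.tri lab_l0)⟩, ?_⟩,
    fun f g => (fr_eq f g.1).symm, fun R hR => ⟨fun g => ⟨fun h => ?_, fun h x hx => hR.mul _ h x hx⟩,
      fun x hx y hy => ⟨⟨hR.mul y hy x hx.1, fun z hz => ?_⟩, hR.mul x hx.1 y hy, fun z hz => ?_⟩,
      fun R' h x hx hx' => ⟨hx', fun y hy => hx.2 y (h hy)⟩, triR_one lab_l0 hR⟩,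
    fun ℓ B hl h => ⟨⟨h.one, h.mul, h.star, fun a ha => ((h.dg a ha).tri hl).dg_l0⟩,
      triR_one hl h, gB_eq h⟩,
    fun ℓ B h => ⟨h.lab, triR_one h.lab h.alg, by rw [gB_eq h.alg]; exact h.sim⟩, card_le⟩
  · simp only [fr_eq, val_mul, st_mul, mul_assoc]
  · rw [fr_eq, ← mul_assoc, ← mul_assoc, (lev f).un.mul_st, one_mul]
  · simpa using mem_UG.1 h 1 hR.one
  · rw [mul_assoc]
    refine nil_comm ?_
    rw [mul_assoc]
    exact hx.2 _ (hR.mul z hz y hy)
  · rw [mul_assoc]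
    exact hx.2 _ (hR.mul y hy z hz)

end Pool.Agent.P.MP_f1a348_lc.UP
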