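import Pool.Agent.P.MP_f1a348_lc.UP.Iface

/-! Finite division rings inside an algebra. -/

namespace Pool.Agent.P.MP_f1a348_lc.UP

open Matrix Module Pool.Agent.P.MP_f1a348_lc.PG
open scoped commutatorElement

namespace FLDz

variable {p : ℕ} {A : Type} [Ring A] [Algebra (ZMod p) A] {Z : Submodule (ZMod p) A} {ε : A}

theorem triv (h : PX.Div Z 0) {z : A} (hz : z ∈ Z) : z = 0 := by rw [← h.left z hz, zero_mul]

theorem model [Finite A] (h : PX.Div Z ε) (h0 : ε ≠ 0) : ∃ (F : Type) (_ : Field F) (_ : Fintype F)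
    (f : F → A), Function.Injective f ∧ (∀ z, z ∈ Z ↔ ∃ x, f x = z) ∧ f 0 = 0 ∧
      (∀ x y, f (x * y) = f x * f y) ∧ ∀ x k, 0 < k → f (x ^ k) = f x ^ k := by
  let S : NonUnitalSubring A :=
    { Z.toAddSubgroup with mul_mem' := fun {a b} ha hb => h.mul a ha b hb }
  let R : Ring S :=
    { (inferInstance : NonUnitalRing S) with
      one := ⟨ε, h.mem⟩
      one_mul := fun z => Subtype.ext (h.left z z.2)
      mul_one := fun z => Subtype.ext (h.right z z.2) }
  have : Nontrivial S := ⟨⟨⟨ε, h.mem⟩, 0, fun e => h0 (congrArg Subtype.val e)⟩⟩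
  have : NoZeroDivisors S := ⟨fun {a b} e => by
    by_cases ha : (a : A) = 0
    · exact Or.inl (Subtype.ext ha)
    · obtain ⟨y, -, hy⟩ := h.inv a a.2 ha
      have e' : (a : A) * b = 0 := congrArg Subtype.val e
      exact Or.inr (Subtype.ext (by rw [← h.left b b.2, ← hy, mul_assoc, e', mul_zero]; rfl))⟩
  have : IsDomain S := NoZeroDivisors.to_isDomain S
  let K := (Finite.isDomain_to_isField S).toField
  have hm : ∀ x y : S, ((x * y : S) : A) = x * y := fun _ _ => rfl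
  refine ⟨S, K, Fintype.ofFinite S, Subtype.val, Subtype.val_injective,
    fun z => ⟨fun hz => ⟨⟨z, hz⟩, rfl⟩, fun ⟨x, e⟩ => e ▸ x.2⟩, rfl, hm, fun x k hk => ?_⟩
  induction hk with
  | refl => rw [pow_one, pow_one]
  | step _ ih => rw [pow_succ, pow_succ, ← ih, hm]

end FLDz

theorem s_FLD (p : ℕ) [Fact p.Prime] : PX.S_FLD p := by
  intro A _ _ _ Z ε h
  rcases eq_or_ne ε 0 with rfl | h0
  · exact ⟨fun y hy z hz => by rw [FLDz.triv h hy, mul_zero, zero_mul], 0, h.mem,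
      fun z hz => Or.inl (FLDz.triv h hz)⟩
  obtain ⟨F, _, _, f, -, h2, h3, h4, h5⟩ := FLDz.model h h0
  refine ⟨fun y hy z hz => ?_, ?_⟩
  · obtain ⟨a, rfl⟩ := (h2 y).1 hy
    obtain ⟨b, rfl⟩ := (h2 z).1 hz
    rw [← h4, ← h4, mul_comm]
  · obtain ⟨g, hg⟩ := IsCyclic.exists_monoid_generator (α := Fˣ)
    refine ⟨f g, (h2 _).2 ⟨_, rfl⟩, fun z hz => ?_⟩
    obtain ⟨x, rfl⟩ := (h2 z).1 hz
    rcases eq_or_ne x 0 with rfl | hx
    · exact Or.inl h3
    obtain ⟨k, hk⟩ := hg (Units.mk0 x hx * g⁻¹)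
    refine Or.inr ⟨k + 1, k.succ_pos, ?_⟩
    rw [← h5 _ _ k.succ_pos, ← Units.val_pow_eq_pow_val, pow_succ]
    simp only at hk
    rw [hk, inv_mul_cancel_right, Units.val_mk0]

open Polynomial in
theorem s_FRB (p : ℕ) [Fact p.Prime] : S_FRB p := by
  classical
  intro A _ _ _ Z ε h
  rcases eq_or_ne ε 0 with rfl | h0
  · refine ⟨fun z hz => by
      rw [FLDz.triv h hz, zero_pow (pow_ne_zero _ (Fact.out : p.Prime).ne_zero)], fun q hq => ?_⟩
    exact (Set.ncard_le_ncard (t := {0}) fun x hx => FLDz.triv h hx.1).trans (by simp; omega)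
  obtain ⟨F, _, _, f, h1, h2, -, -, h5⟩ := FLDz.model h h0
  refine ⟨fun z hz => ?_, fun q hq => ?_⟩
  · obtain ⟨x, rfl⟩ := (h2 z).1 hz
    have e : Fintype.card F = p ^ finrank (ZMod p) Z := by
      have e := Module.natCard_eq_pow_finrank (K := ZMod p) (V := Z)
      rw [Nat.card_zmod] at e
      rw [← e, ← Nat.card_eq_fintype_card]
      exact Nat.card_congr (Equiv.ofBijective (fun x => ⟨f x, (h2 _).2 ⟨x, rfl⟩⟩)
        ⟨fun a b c => h1 (congrArg Subtype.val c), fun z =>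
          ((h2 z).1 z.2).imp fun _ c => Subtype.ext c⟩)
    rw [← e, ← h5 _ _ Fintype.card_pos, FiniteField.pow_card]
  · have e : {x | x ∈ Z ∧ x ^ q = x} ⊆ f '' ((X ^ q - X : F[X]).roots.toFinset : Set F) := by
      rintro z ⟨hz, e⟩
      obtain ⟨x, rfl⟩ := (h2 z).1 hz
      rw [← h5 _ _ (by omega)] at e
      refine ⟨x, ?_, rfl⟩
      simp [FiniteField.X_pow_card_sub_X_ne_zero F (show 1 < q by omega), h1 e]
    refine (Set.ncard_le_ncard e).trans ((Set.ncard_image_le (Finset.finite_toSet _)).trans ?_)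
    rw [Set.ncard_coe_finset]
    exact (Multiset.toFinset_card_le _).trans ((card_roots' _).trans
      (FiniteField.X_pow_card_sub_X_natDegree_eq F (show 1 < q by omega)).le)

end Pool.Agent.P.MP_f1a348_lc.UP
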