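import Pool.Agent.P.MP_f1a348_lc.UP.Iface

/-! A group that normalises a finite division ring. -/

namespace Pool.Agent.P.MP_f1a348_lc.UP
open Matrix Module Pool.Agent.P.MP_f1a348_lc.PG
open scoped commutatorElement

namespace GALz

theorem hom_bound {p : ℕ} [Fact p.Prime] {H F : Type} [Group H] [Field F] [Finite F]
    [Algebra (ZMod p) F] (φ : H →* (F ≃ₐ[ZMod p] F)) :
    (∀ a b : H, ⁅a, b⁆ ∈ φ.ker) ∧ φ.ker.index ≤ finrank (ZMod p) F := by
  refine ⟨fun a b => ?_, ?_⟩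
  · rw [MonoidHom.mem_ker, map_commutatorElement, commutatorElement_eq_one_iff_mul_comm]
    exact IsCyclic.commGroup.mul_comm _ _
  · rw [Subgroup.index_ker]
    refine (Subgroup.card_le_card_group _).trans ?_
    rw [Nat.card_eq_fintype_card]
    exact AlgEquiv.card_le

end GALz

theorem s_GAL (p : ℕ) [Fact p.Prime] (hFLD : PX.S_FLD p) (hFRB : S_FRB p) : PX.S_GAL p := by
  intro G A _ _ _ _ _ H C σ Z ε hσ hD hZ hC
  rcases eq_or_ne ε 0 with h0 | h0
  · have e : H ≤ C := fun h hh => (hC h).2 ⟨hh, fun z hz => by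
      rw [← hD.left z hz, h0, zero_mul, mul_zero, zero_mul]⟩
    refine ⟨(Subgroup.commutator_le_self H).trans e, ?_⟩
    rw [Subgroup.relIndex_eq_one.2 e]
    exact le_max_left _ _
  have hc := (hFLD A Z ε hD).1
  let R : CommRing Z :=
    { (inferInstance : AddCommGroup Z) with
      mul := fun y z => ⟨y * z, hD.mul _ y.2 _ z.2⟩
      one := ⟨ε, hD.mem⟩
      mul_assoc := fun x y z => Subtype.ext (mul_assoc x.1 y.1 z.1)
      one_mul := fun x => Subtype.ext (hD.left _ x.2)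
      mul_one := fun x => Subtype.ext (hD.right _ x.2)
      left_distrib := fun x y z => Subtype.ext (mul_add x.1 y.1 z.1)
      right_distrib := fun x y z => Subtype.ext (add_mul x.1 y.1 z.1)
      zero_mul := fun x => Subtype.ext (zero_mul x.1)
      mul_zero := fun x => Subtype.ext (mul_zero x.1)
      mul_comm := fun x y => Subtype.ext (hc _ x.2 _ y.2) }
  have hF : IsField Z := ⟨⟨1, 0, fun c => h0 (congrArg Subtype.val c)⟩, mul_comm, fun {a} ha => by
    obtain ⟨y, hy, e⟩ := hD.inv a a.2 fun c => ha (Subtype.ext c)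
    exact ⟨⟨y, hy⟩, Subtype.ext ((hc _ a.2 _ hy).trans e)⟩⟩
  let _ := hF.toField
  let _ : Algebra (ZMod p) Z := Algebra.ofModule
    (fun r x y => Subtype.ext (smul_mul_assoc r x.1 y.1))
    fun r x y => Subtype.ext (mul_smul_comm r x.1 y.1)
  have i1 : ∀ h : H, σ (h : G)⁻¹ * σ h = 1 := fun h => by
    rw [← hσ.mul _ (H.inv_mem h.2) _ h.2, inv_mul_cancel, hσ.one]
  have i2 : ∀ h : H, σ h * σ (h : G)⁻¹ = 1 := fun h => by
    rw [← hσ.mul _ h.2 _ (H.inv_mem h.2), mul_inv_cancel, hσ.one]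
  let c : H → Z ≃+* Z := fun h =>
    { toFun := fun z => ⟨σ h * z * σ (h : G)⁻¹, hZ _ h.2 _ z.2⟩
      invFun := fun z => ⟨σ (h : G)⁻¹ * z * σ (h : G)⁻¹⁻¹, hZ _ (H.inv_mem h.2) _ z.2⟩
      left_inv := fun z => Subtype.ext (by
        simp only [inv_inv, ← mul_assoc, i1, one_mul]
        rw [mul_assoc, i1, mul_one])
      right_inv := fun z => Subtype.ext (by
        simp only [inv_inv, ← mul_assoc, i2, one_mul]
        rw [mul_assoc, i2, mul_one])
      map_mul' := fun y z => Subtype.ext (by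
        change σ h * (y.1 * z.1) * σ (h : G)⁻¹ =
          σ h * y.1 * σ (h : G)⁻¹ * (σ h * z.1 * σ (h : G)⁻¹)
        simp only [← mul_assoc]
        rw [mul_assoc _ (σ (h : G)⁻¹) (σ h), i1, mul_one])
      map_add' := fun y z => Subtype.ext (by
        change σ h * (y.1 + z.1) * σ (h : G)⁻¹ =
          σ h * y.1 * σ (h : G)⁻¹ + σ h * z.1 * σ (h : G)⁻¹
        rw [mul_add, add_mul]) }
  let φ : H →* (Z ≃ₐ[ZMod p] Z) := MonoidHom.mk'
    (fun h => AlgEquiv.ofRingEquiv (f := c h) fun r => DFunLike.congr_fun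
      (RingHom.ext_zmod ((c h : Z →+* Z).comp (algebraMap _ _)) (algebraMap _ _)) r)
    fun a b => AlgEquiv.ext fun z => Subtype.ext (by
      change σ (a * b : G) * z.1 * σ (a * b : G)⁻¹ =
        σ a * (σ b * z.1 * σ (b : G)⁻¹) * σ (a : G)⁻¹
      rw [_root_.mul_inv_rev, hσ.mul _ a.2 _ b.2, hσ.mul _ (H.inv_mem b.2) _ (H.inv_mem a.2)]
      simp only [mul_assoc])
  have hk : C.subgroupOf H = φ.ker := by
    ext h
    rw [Subgroup.mem_subgroupOf, hC, MonoidHom.mem_ker]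
    refine ⟨fun e => AlgEquiv.ext fun z => Subtype.ext ?_, fun e => ⟨h.2, fun z hz => ?_⟩⟩
    · change σ h * z.1 * σ (h : G)⁻¹ = z.1
      rw [e.2 _ z.2, mul_assoc, i2, mul_one]
    · have e1 : σ h * z * σ (h : G)⁻¹ = z :=
        congrArg Subtype.val (DFunLike.congr_fun e (⟨z, hz⟩ : Z))
      conv_rhs => rw [← e1, mul_assoc, i1, mul_one]
  obtain ⟨b1, b2⟩ := GALz.hom_bound φ
  rw [← hk] at b1 b2
  exact ⟨Subgroup.commutator_le.2 fun a ha b hb => b1 ⟨a, ha⟩ ⟨b, hb⟩,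
    le_trans b2 (le_max_right _ _)⟩

end Pool.Agent.P.MP_f1a348_lc.UP
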