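import Pool.Agent.P.MP_f1a348_lc.UP.Defs
import Pool.Agent.P.MP_f1a348_lc.KT.Sign

/-!
Project UP: stable groups with a central involution; bounds on spaces of homomorphisms.
-/

namespace Pool.Agent.P.MP_f1a348_lc.UP.LT

open Matrix Module Pool.Agent.P.MP_f1a348_lc.PG Pool.Agent.P.MP_f1a348_lc.KT

variable {p n : ℕ}

/-- the action on vectors -/
noncomputable def mv : Mat p n →ₗ[ZMod p] Vec p n →ₗ[ZMod p] Vec p n := Matrix.toLin'.toLinearMap

@[simp] theorem mv_apply (x : Mat p n) (u : Vec p n) : mv x u = x *ᵥ u := Matrix.toLin'_apply x u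

theorem env_mem {Z : SG p n} {g : GG p n} (h : g ∈ Z) : g.1 ∈ Env Z :=
  Submodule.subset_span ⟨g, h, rfl⟩

theorem env_le {Z : SG p n} {S : Sub p n} (h : ∀ g ∈ Z, g.1 ∈ S) : Env Z ≤ S :=
  Submodule.span_le.2 (by rintro _ ⟨g, hg, rfl⟩; exact h g hg)

theorem env_mono {Z Y : SG p n} (h : Z ≤ Y) : Env Z ≤ Env Y := env_le fun _ hg => env_mem (h hg)

theorem env_mul {Z : SG p n} : ∀ a ∈ Env Z, ∀ b ∈ Env Z, a * b ∈ Env Z := fun _ ha b hb =>
  env_le (S := (Env Z).comap (LinearMap.mulRight _ b)) (fun g hg =>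
    env_le (S := (Env Z).comap (LinearMap.mulLeft _ g.1))
      (fun _ hh => env_mem (Z.mul_mem hg hh)) hb) ha

theorem inv_env {Z : SG p n} {U : VS p n} (h : ∀ z ∈ Z, ∀ u ∈ U, z.1 *ᵥ u ∈ U) : Inv (Env Z) U :=
  fun _ hx u hu => env_le (S := U.comap (evx u)) (fun g hg => h g hg u hu) hx

variable [Fact p.Prime]

theorem mem_of_perp {L : VS p n} {v : Vec p n}
    (h : ∀ y, (∀ w ∈ L, ip w y = 0) → ip v y = 0) : v ∈ L := by
  rw [← perp_perp L]
  exact fun y hy => (ip_comm _ _).trans (h y hy)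

theorem exists_ss {R : Sub p n} {L P : VS p n} (hL : Inv R L) (hP : Inv R P) (h : L < P) :
    ∃ U, SS R L U ∧ U ≤ P := by
  obtain ⟨U, a, b, c, d⟩ := exists_simple (Inv R) hP h
  exact ⟨U, ⟨hL, a, b, d⟩, c⟩

theorem homb (R : Sub p n) (hR : ∀ a ∈ R, ∀ b ∈ R, a * b ∈ R) (P : VS p n) (hP : Inv R P) (γ : ℕ)
    (hγ : ∀ L U, SS R L U → U ≤ P → γ + finrank (ZMod p) (ann R L U) ≤ finrank (ZMod p) R)
    {W : Type} [AddCommGroup W] [Module (ZMod p) W] [Module.Finite (ZMod p) W]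
    (φ : W →ₗ[ZMod p] Vec p n →ₗ[ZMod p] Vec p n) (H : Submodule (ZMod p) W)
    (hH : ∀ w ∈ H, ∀ a ∈ R, ∀ u ∈ P, φ w (a *ᵥ u) = a *ᵥ φ w u) :
    γ * finrank (ZMod p) H ≤
      γ * finrank (ZMod p) (Kl φ H P) + finrank (ZMod p) P * (2 * n + 1) := by
  have iv : ∀ U, Iv mv R U ↔ Inv R U := fun U => by simp only [Iv, Inv, mv_apply]
  have := KT.homb mv (fun a b v => by simp) R hR P ((iv P).2 hP) γ
    (fun L U a b c d e I hI hx => le_trans (Nat.add_le_add_left (Submodule.finrank_mono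
      (fun x h => ⟨hI h, fun u hu => by simpa using hx x h u hu⟩ : I ≤ ann R L U)) γ)
      (hγ L U ⟨(iv L).1 a, (iv U).1 b, c, fun W h => e W ((iv W).2 h)⟩ d)) φ H
    fun w hw a ha u hu => by simpa using hH w hw a ha u hu
  simpa using this

/-- a perfect group that is trivial on all simple sections between `L` and `P` -/
theorem uni {Z : SG p n} (hZ : PP p Z) {L P : VS p n} (hL : Inv (Env Z) L) (hP : Inv (Env Z) P)
    (hLP : L ≤ P) (h : ∀ L' U, SS (Env Z) L' U → L ≤ L' → U ≤ P → Z ≤ Ker L' U) :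
    Z ≤ Ker L P := by
  have key : ∀ (N : ℕ) (W : VS p n), finrank (ZMod p) P ≤ finrank (ZMod p) W + N →
      Inv (Env Z) W → L ≤ W → W ≤ P → Z ≤ Ker L W → Z ≤ Ker L P := by
    intro N
    induction N with
    | zero =>
      intro W a _ _ b c
      rwa [← Submodule.eq_of_le_of_finrank_le b a]
    | succ N ih =>
      intro W a hW b c d
      rcases c.eq_or_lt with rfl | e
      · exact d
      obtain ⟨U, u1, u2⟩ := exists_ss hW hP e
      have := Submodule.finrank_lt_finrank_of_lt u1.lt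
      refine ih U (by omega) u1.invU (b.trans u1.lt.le) u2 fun z hz =>
        ⟨(d hz).1, fun u hu => mem_of_perp fun y hy => ?_⟩
      refine hZ (fun z => ip (z.1 *ᵥ u - u) y) (fun x hx x' hx' => ?_) z hz
      have e1 := hy _ ((d hx).2 _ ((h W U u1 b u2 hx').2 u hu))
      rw [val_mul, ← Matrix.mulVec_mulVec]
      simp only [ip_sub_left, Matrix.mulVec_sub] at e1 ⊢
      linear_combination e1
  exact key _ L (Nat.le_add_left _ _) hL le_rfl hLP fun z hz =>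
    ⟨hL _ (env_mem hz), fun u hu => L.sub_mem (hL _ (env_mem hz) u hu) hu⟩

/-- `τ` is a central involution of the stable group `Z`; it is `-1` on the non-trivial simple
sections, and these have dimension `k` -/
structure Tz (Z : SG p n) (τ : GG p n) (k : ℕ) : Prop where
  mem : τ ∈ Z
  inv : τ * τ = 1
  cen : ∀ z ∈ Z, z * τ = τ * z
  stable : Stable Z
  sec : ∀ L U, SS (Env Z) L U → Z ≤ Ker L U ∨
    (finrank (ZMod p) U = finrank (ZMod p) L + k ∧ ∀ u ∈ U, τ.1 *ᵥ u + u ∈ L)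

variable {Z : SG p n} {τ : GG p n} {k : ℕ}

theorem Tz.comm (h : Tz Z τ k) {z : GG p n} (hz : z ∈ Z) (u : Vec p n) :
    τ.1 *ᵥ (z.1 *ᵥ u) = z.1 *ᵥ (τ.1 *ᵥ u) := by
  rw [Matrix.mulVec_mulVec, Matrix.mulVec_mulVec, ← val_mul, ← val_mul, h.cen z hz]

theorem Tz.sq (h : Tz Z τ k) (u : Vec p n) : τ.1 *ᵥ (τ.1 *ᵥ u) = u := by
  rw [Matrix.mulVec_mulVec, ← val_mul, h.inv, val_one, Matrix.one_mulVec]

theorem Tz.fix (hp : 5 ≤ p) (h : Tz Z τ k) {z : GG p n} (hz : z ∈ Z) {u : Vec p n}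
    (hu : τ.1 *ᵥ u = u) : z.1 *ᵥ u = u := by
  have := uni h.stable.1 (L := ⊥) (P := Ep (mv τ.1) ⊤) (fun x _ u hu => by
    rw [(Submodule.mem_bot _).1 hu, Matrix.mulVec_zero]; exact zero_mem _)
    (inv_env fun z hz u hu => mem_Ep.2 ⟨trivial, by
      rw [mv_apply, h.comm hz, ← mv_apply τ.1, (mem_Ep.1 hu).2]⟩) bot_le
    fun L U a _ c => (h.sec L U a).resolve_right fun e => a.lt.not_ge fun u hu =>
      mem_of_two_smul hp (by
        have := e.2 u hu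
        rwa [← mv_apply, (mem_Ep.1 (c hu)).2, ← two_smul (ZMod p)] at this)
  exact sub_eq_zero.1 ((this hz).2 u (mem_Ep.2 ⟨trivial, by rwa [mv_apply]⟩))

theorem Tz.neg (hp : 5 ≤ p) (h : Tz Z τ k) {L U : VS p n} (a : SS (Env Z) L U)
    (c : ∀ u ∈ U, τ.1 *ᵥ u = -u) : finrank (ZMod p) U = finrank (ZMod p) L + k ∧
      gam n + finrank (ZMod p) (ann (Env Z) L U) ≤ finrank (ZMod p) (Env Z) := by
  have e : ¬ Z ≤ Ker L U := fun e => a.lt.not_ge fun u hu => mem_of_two_smul hp (by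
    have := L.neg_mem ((e h.mem).2 u hu)
    rwa [c u hu, neg_sub, sub_neg_eq_add, ← two_smul (ZMod p)] at this)
  refine ⟨((h.sec L U a).resolve_left e).1, ?_⟩
  by_contra hc
  exact e (h.stable.2 L U a.lt.le a.invL a.invU (by omega))

theorem Tz.hom (hp : 5 ≤ p) (h : Tz Z τ k) {P : VS p n} (hP : Inv (Env Z) P)
    (c : ∀ u ∈ P, τ.1 *ᵥ u = -u)
    {W : Type} [AddCommGroup W] [Module (ZMod p) W] [Module.Finite (ZMod p) W]
    (φ : W →ₗ[ZMod p] Vec p n →ₗ[ZMod p] Vec p n) (H : Submodule (ZMod p) W)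
    (hH : ∀ w ∈ H, ∀ z ∈ Z, ∀ u ∈ P, φ w (z.1 *ᵥ u) = z.1 *ᵥ φ w u) :
    200 * finrank (ZMod p) H ≤ 200 * finrank (ZMod p) (Kl φ H P) + finrank (ZMod p) P := by
  have := homb (Env Z) env_mul P hP (gam n) (fun L U a b => (h.neg hp a fun u hu => c u (b hu)).2)
    φ H fun w hw a ha u hu => sub_eq_zero.1
      (env_le (S := LinearMap.ker (φ w ∘ₗ evx u - evx (φ w u)))
        (fun z hz => sub_eq_zero.2 (hH w hw z hz u hu)) ha)
  refine Nat.le_of_mul_le_mul_right ?_ (Nat.succ_pos (2 * n))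
  unfold gam at this
  change _ * (2 * n + 1) ≤ _ * (2 * n + 1)
  linarith

theorem Tz.sub (hp : 5 ≤ p) (h : Tz Z τ k) {P : VS p n} (hP : Inv (Env Z) P)
    (c : ∀ u ∈ P, τ.1 *ᵥ u = -u) (h0 : P ≠ ⊥) :
    ∃ N ≤ P, Inv (Env Z) N ∧ N ≠ ⊥ ∧ finrank (ZMod p) N = k := by
  obtain ⟨N, a, b⟩ := exists_ss (fun x _ u hu => by
    rw [(Submodule.mem_bot _).1 hu, Matrix.mulVec_zero]; exact zero_mem _) hP
    (bot_lt_iff_ne_bot.2 h0)
  exact ⟨N, b, a.invU, a.lt.ne', by simpa using (h.neg hp a fun u hu => c u (b hu)).1⟩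

/-- the vector that represents a functional -/
noncomputable def dv : (Vec p n →ₗ[ZMod p] ZMod p) →ₗ[ZMod p] Vec p n where
  toFun f := fun α => f (Pi.single α.rev 1)
  map_add' _ _ := rfl
  map_smul' _ _ := rfl

theorem ip_dv (f : Vec p n →ₗ[ZMod p] ZMod p) (y : Vec p n) : ip (dv f) y = f y := by
  have : ipL (dv f) = f := by
    refine LinearMap.pi_ext' fun β => LinearMap.ext_ring ?_
    simp [ip_single_right, dv]
  rw [← ipL_apply, this]

theorem Tz.kern (hp : 5 ≤ p) (h : Tz Z τ k) {A : VS p n} (hA : Inv (Env Z) A)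
    (c : ∀ u ∈ A, τ.1 *ᵥ u = -u) (S : Mat p n) (hS : ∀ z ∈ Z, z.1 * S = S * z.1)
    (t : Vec p n →ₗ[ZMod p] Vec p n →ₗ[ZMod p] Vec p n →ₗ[ZMod p] ZMod p) (H : VS p n)
    (ht : ∀ z ∈ Z, ∀ w ∈ H, ∀ x ∈ A, ∀ y,
      t w (z.1 *ᵥ x) (z.1 *ᵥ (S *ᵥ y)) = t w x (S *ᵥ y)) :
    ∃ K ≤ H, 200 * finrank (ZMod p) H ≤ 200 * finrank (ZMod p) K + finrank (ZMod p) A ∧
      ∀ w ∈ K, ∀ x ∈ A, ∀ y, t w x (S *ᵥ y) = 0 := by
  let φ := t.compr₂ (dv ∘ₗ LinearMap.lcomp (ZMod p) (ZMod p) (mv S))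
  have e : ∀ w x y, ip (φ w x) y = t w x (S *ᵥ y) := fun w x y => by
    simp [φ, ip_dv]
  refine ⟨Kl φ H A, inf_le_left, h.hom hp hA c φ H fun w hw z hz x hx => ip_ext fun y => ?_,
    fun w hw x hx y => by rw [← e, (mem_Kl.1 hw).2 x hx, ip_zero_left]⟩
  rw [ip_mulVec, e, e, ← ht z hz w hw x hx (st z.1 *ᵥ y), Matrix.mulVec_mulVec _ z.1, hS z hz,
    ← Matrix.mulVec_mulVec, z.2.2.1.mulVec_st]

theorem Tz.cb (hp : 5 ≤ p) (h : Tz Z τ k) {ℓ : Ix n → ℕ} {B : Sub p n} (hB : Str ℓ B)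
    (hZ : Env Z ≤ B) {N : VS p n} (hN : Inv (Env Z) N) (c : ∀ u ∈ N, τ.1 *ᵥ u = -u) (h0 : N ≠ ⊥)
    {b : Ix n} (hb : N ≤ Vb ℓ b) (a : Ix n) :
    200 * finrank (ZMod p) (Cb ℓ B a b) ≤ finrank (ZMod p) N := by
  have := h.hom hp hN c mv (Cb ℓ B a b) fun C hC z hz u _ => by
    simpa using com_mulVec hC.1 (hZ (env_mem hz)) u
  obtain ⟨x, hx, x0⟩ := Submodule.exists_mem_ne_zero_of_ne_bot h0
  have e : Kl mv (Cb ℓ B a b) N = ⊥ := eq_bot_iff.2 fun C hC =>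
    cb_inj hB (mem_Kl.1 hC).1 (hb hx) x0 (by simpa using (mem_Kl.1 hC).2 x hx)
  rw [e, finrank_bot] at this
  omega

end Pool.Agent.P.MP_f1a348_lc.UP.LT
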