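import Pool.Agent.P.MP_f1a348_lc.UP.Iface
import Pool.Agent.P.MP_f1a348_lc.UP.LT1

/-!
Project UP: modules with large simple sections have few homomorphisms.
-/

namespace Pool.Agent.P.MP_f1a348_lc.UP

open Matrix Module Pool.Agent.P.MP_f1a348_lc.PG Pool.Agent.P.MP_f1a348_lc.KT

theorem s_HOMB (p n : ℕ) [Fact p.Prime] : S_HOMB p n := fun R H P g _ hR hP hγ hH h0 => by
  have := LT.homb R hR P hP g hγ LT.mv H fun C hC x hx u hu => by simpa using hH C hC x hx u hu
  have e : Kl LT.mv H P = ⊥ := eq_bot_iff.2 fun C hC =>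
    h0 C (mem_Kl.1 hC).1 fun u hu => by simpa using (mem_Kl.1 hC).2 u hu
  rw [e, finrank_bot] at this
  omega

end Pool.Agent.P.MP_f1a348_lc.UP
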