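import Pool.Agent.P.MP_f1a348_lc.UP.Iface

namespace Pool.Agent.P.MP_f1a348_lc.UP

open Matrix Module Pool.Agent.P.MP_f1a348_lc.PG
open scoped commutatorElement

namespace JHz

variable {p n : ℕ} [Fact p.Prime]

theorem inv_inf {R : Sub p n} {A B : VS p n} (hA : Inv R A) (hB : Inv R B) : Inv R (A ⊓ B) :=
  fun x hx u hu => ⟨hA x hx u hu.1, hB x hx u hu.2⟩

theorem inv_sup {R : Sub p n} {A B : VS p n} (hA : Inv R A) (hB : Inv R B) : Inv R (A ⊔ B) := by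
  intro x hx u hu
  obtain ⟨a, ha, b, hb, rfl⟩ := Submodule.mem_sup.1 hu
  rw [Matrix.mulVec_add]
  exact Submodule.add_mem_sup (hA x hx a ha) (hB x hx b hb)

theorem ann_le {R : Sub p n} {L U A B P : VS p n} (hP : Inv R P) (hA : Inv R A)
    (h1 : P ⊔ A = B) (h2 : P ⊓ L ≤ A) (h3 : P ≤ U) : ann R L U ≤ ann R A B := by
  intro x hx
  refine ⟨hx.1, fun u hu => ?_⟩
  rw [← h1] at hu
  obtain ⟨a, ha, b, hb, rfl⟩ := Submodule.mem_sup.1 hu
  rw [Matrix.mulVec_add]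
  exact add_mem (h2 ⟨hP x hx.1 a ha, hx.2 a (h3 ha)⟩) (hA x hx.1 b hb)

theorem two {R : Sub p n} {L U A B : VS p n} (h : SS R L U) (h' : SS R A B)
    (h1 : U ⊓ A ≤ L) (h2 : U ≤ (U ⊓ B) ⊔ L) :
    ann R L U = ann R A B ∧ finrank (ZMod p) U + finrank (ZMod p) A =
      finrank (ZMod p) L + finrank (ZMod p) B := by
  have hP : Inv R (U ⊓ B) := inv_inf h.invU h'.invU
  have e1 : (U ⊓ B) ⊔ L = U := le_antisymm (sup_le inf_le_left h.lt.le) h2
  have nL : ¬ U ⊓ B ≤ L := fun c => h.lt.not_ge (h2.trans (sup_le c le_rfl))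
  have pA : (U ⊓ B) ⊓ A ≤ L := (inf_le_inf_right A inf_le_left).trans h1
  have e2 : (U ⊓ B) ⊔ A = B := by
    rcases h'.max _ (inv_sup hP h'.invL) le_sup_right (sup_le inf_le_right h'.lt.le) with e | e
    · exact absurd ((le_inf le_rfl (le_sup_left.trans e.le)).trans pA) nL
    · exact e
  have pL : (U ⊓ B) ⊓ L ≤ A := by
    rcases h'.max _ (inv_sup (inv_inf hP h.invL) h'.invL) le_sup_right
      (sup_le (inf_le_left.trans inf_le_right) h'.lt.le) with e | e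
    · exact le_sup_left.trans e.le
    · exfalso
      apply nL
      have m : (((U ⊓ B) ⊓ L) ⊔ A) ⊓ (U ⊓ B) = ((U ⊓ B) ⊓ L) ⊔ A ⊓ (U ⊓ B) :=
        sup_inf_assoc_of_le A inf_le_left
      rw [e] at m
      refine (le_inf inf_le_right le_rfl).trans (m.le.trans (sup_le inf_le_right ?_))
      rw [inf_comm]; exact pA
  refine ⟨le_antisymm (ann_le hP h'.invL e2 pL inf_le_left)
    (ann_le hP h.invL e1 pA inf_le_right), ?_⟩
  have e3 : (U ⊓ B) ⊓ L = (U ⊓ B) ⊓ A :=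
    le_antisymm (le_inf inf_le_left pL) (le_inf inf_le_left pA)
  have d1 := Submodule.finrank_sup_add_finrank_inf_eq (U ⊓ B) L
  have d2 := Submodule.finrank_sup_add_finrank_inf_eq (U ⊓ B) A
  rw [e1, e3] at d1
  rw [e2] at d2
  omega

theorem cut_zero (f : GG p n) : cut f 0 = ⊥ := by
  refine eq_bot_iff.2 fun x hx => ?_
  have h0 : st f.1 *ᵥ x = 0 := funext fun β => hx β (Nat.zero_le _)
  have hu : f.1 * st f.1 = 1 := mul_eq_one_comm.1 f.2.2.1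
  have : x = f.1 *ᵥ (st f.1 *ᵥ x) := by rw [Matrix.mulVec_mulVec, hu, Matrix.one_mulVec]
  rw [Submodule.mem_bot, this, h0, Matrix.mulVec_zero]

theorem top_sH (f : GG p n) {ℓ : Ix n → ℕ} (h : Lab ℓ) : sH f ℓ (Fin.last _) = ⊤ := by
  refine eq_top_iff.2 fun x _ β hβ => ?_
  have h1 := ((h.block (Fin.last _) (Fin.last _)).1 rfl).2
  have h2 := β.2
  rw [Fin.val_last] at h1
  omega

theorem prev {ℓ : Ix n → ℕ} (h : Lab ℓ) (α : Ix n) (h0 : ℓ α ≠ 0) :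
    ∃ β : Ix n, ℓ β < ℓ α ∧ ℓ β + nb ℓ β = ℓ α := by
  have hl := h.lt α
  let β : Ix n := ⟨ℓ α - 1, by omega⟩
  have hβ : β.val = ℓ α - 1 := rfl
  have h1 := h.le β
  have h2 := ((h.block β β).1 rfl).2
  refine ⟨β, by omega, ?_⟩
  by_contra c
  have h3 : ℓ (h.fst α) = ℓ β := (h.block β (h.fst α)).2 ⟨by show ℓ β ≤ ℓ α; omega,
    by show ℓ α < ℓ β + nb ℓ β; omega⟩
  rw [h.lab_fst] at h3
  omega

end JHz

open JHz in
theorem s_JH (p n : ℕ) [Fact p.Prime] (hSEC : S_SEC p n) (hBLK : S_BLK p n) : S_JH p n := by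
  intro R f ℓ L U hR hC h
  have hB := (hBLK R f ℓ hR hC).1
  have hne : ∃ k, ∃ α, ℓ α = k ∧ U ≤ (U ⊓ sH f ℓ α) ⊔ L :=
    ⟨_, Fin.last _, rfl, by rw [top_sH f hC.lab, inf_top_eq]; exact le_sup_left⟩
  classical
  obtain ⟨α, e, hα⟩ := Nat.find_spec hne
  have h1 : U ⊓ sL f ℓ α ≤ L := by
    by_cases h0 : ℓ α = 0
    · rw [sL, h0, cut_zero, inf_bot_eq]; exact bot_le
    · obtain ⟨β, hlt, hβ⟩ := prev hC.lab α h0
      have es : sL f ℓ α = sH f ℓ β := by rw [sL, sH, hβ]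
      rw [es]
      rcases h.max _ (inv_sup (inv_inf h.invU (hB β).1.invU) h.invL) le_sup_right
        (sup_le inf_le_left h.lt.le) with e' | e'
      · exact le_sup_left.trans e'.le
      · exact absurd ⟨β, rfl, e'.ge⟩ (Nat.find_min hne (e ▸ hlt))
  obtain ⟨a1, a2⟩ := two h (hB α).1 h1 hα
  have d := (hSEC.1 f ℓ α hC.lab).2.1
  exact ⟨α, a1.trans (hB α).2.1, by omega⟩

end Pool.Agent.P.MP_f1a348_lc.UP
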