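import Pool.Agent.P.MP_f1a348_lc.UP.Iface

/-!
Project UP: the local model of a triangular matrix.
-/

namespace Pool.Agent.P.MP_f1a348_lc.UP

open Matrix Module Pool.Agent.P.MP_f1a348_lc.PG
open scoped commutatorElement

namespace LCz

variable {p n : ℕ} {ℓ : Ix n → ℕ} {S : Set (Ix n)}

theorem lS_mem {β : Ix n} (h : β ∈ S) : lS ℓ S β = ℓ β := if_pos h

theorem lS_not {β : Ix n} (h : β ∉ S) : lS ℓ S β = β.val := if_neg h

theorem lt_lab (hl : Lab ℓ) (hS : Clo ℓ S) {a b : Ix n} (ha : a ∉ S) (hb : b ∈ S) (e : a ≤ b) :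
    a.val < ℓ b := by
  by_contra hc
  exact ha (hS.blk b a (le_antisymm (hl.can b a (not_lt.1 hc)) (hl.mono e)) hb)

theorem lS_le (hl : Lab ℓ) (hS : Clo ℓ S) {a b : Ix n} :
    lS ℓ S a ≤ lS ℓ S b ↔ a ≤ b ∨ (a ∈ S ∧ ℓ a = ℓ b) := by
  by_cases ha : a ∈ S <;> by_cases hb : b ∈ S
  · rw [lS_mem ha, lS_mem hb]
    refine ⟨fun e => ?_, fun e => e.elim (fun e => hl.mono e) fun e => e.2.le⟩
    rcases le_total a b with h | h
    · exact Or.inl h
    · exact Or.inr ⟨ha, le_antisymm e (hl.mono h)⟩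
  · rw [lS_mem ha, lS_not hb]
    refine ⟨fun e => Or.inl ?_, fun e => e.elim (fun e => (hl.le a).trans e)
      fun e => absurd (hS.blk _ _ e.2 ha) hb⟩
    by_contra hc
    exact absurd (lt_lab hl hS hb ha (not_le.1 hc).le) (not_lt.2 e)
  · rw [lS_not ha, lS_mem hb]
    exact ⟨fun e => Or.inl (e.trans (hl.le b)), fun e => e.elim
      (fun e => (lt_lab hl hS ha hb e).le) fun e => absurd e.1 ha⟩
  · rw [lS_not ha, lS_not hb]
    exact ⟨fun e => Or.inl e, fun e => e.elim id fun e => absurd e.1 ha⟩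

theorem lS_eq (hl : Lab ℓ) (hS : Clo ℓ S) {a b : Ix n} :
    lS ℓ S a = lS ℓ S b ↔ a = b ∨ (a ∈ S ∧ ℓ a = ℓ b) := by
  refine ⟨fun e => ?_, fun e => ?_⟩
  · rcases (lS_le hl hS).1 e.le with h | h
    · rcases (lS_le hl hS).1 e.ge with h' | h'
      · exact Or.inl (le_antisymm h h')
      · exact Or.inr ⟨hS.blk _ _ h'.2 h'.1, h'.2.symm⟩
    · exact Or.inr h
  · rcases e with rfl | e
    · rfl
    · rw [lS_mem e.1, lS_mem (hS.blk _ _ e.2 e.1), e.2]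

theorem lab_lS (hl : Lab ℓ) (hS : Clo ℓ S) : Lab (lS ℓ S) where
  mono _ _ h := (lS_le hl hS).2 (Or.inl h)
  sym a b h := (lS_le hl hS).2 (((lS_le hl hS).1 h).imp Fin.rev_le_rev.2 fun e =>
    ⟨hS.rev _ (hS.blk _ _ e.2 e.1), hl.rev_eq.2 e.2.symm⟩)
  ctr a h := ((lS_eq hl hS).1 h).elim id fun e => hl.ctr a e.2
  le a := by
    by_cases ha : a ∈ S
    · rw [lS_mem ha]; exact hl.le a
    · rw [lS_not ha]
  can a b h := by
    by_cases hb : b ∈ S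
    · by_cases ha : a ∈ S
      · rw [lS_mem ha] at h ⊢; rw [lS_mem hb]; exact hl.can a b h
      · rw [lS_not ha] at h; exact (lS_le hl hS).2 (Or.inl h)
    · rwa [lS_not hb]

theorem lS_iff (hl : Lab ℓ) (hS : Clo ℓ S) {a : Ix n} (ha : a ∈ S) (b : Ix n) :
    lS ℓ S b = lS ℓ S a ↔ ℓ b = ℓ a :=
  (lS_eq hl hS).trans ⟨fun e => e.elim (fun e => by rw [e]) fun e => e.2,
    fun e => Or.inr ⟨hS.blk _ _ e.symm ha, e⟩⟩

theorem lS_iff' (hl : Lab ℓ) (hS : Clo ℓ S) {a : Ix n} (ha : a ∉ S) (b : Ix n) :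
    lS ℓ S b = lS ℓ S a ↔ b = a :=
  (lS_eq hl hS).trans ⟨fun e => e.elim id fun e => absurd (hS.blk _ _ e.2 e.1) ha, Or.inl⟩

theorem lc_def (x : Mat p n) :
    lc ℓ S x = eS S * gr ℓ x * eS S + x (c0 n) (c0 n) • (1 - eS S) := rfl

open Classical in
theorem lc_apply (x : Mat p n) (a b : Ix n) : lc ℓ S x a b =
    if a ∈ S ∧ b ∈ S then gr ℓ x a b else if a = b then x (c0 n) (c0 n) else 0 := by
  rw [lc_def, Matrix.add_apply, Matrix.smul_apply, Matrix.sub_apply, eS, Matrix.mul_diagonal,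
    Matrix.diagonal_mul, Matrix.one_apply, Matrix.diagonal_apply]
  by_cases e : a = b
  · subst e
    by_cases ha : a ∈ S <;> simp [ha]
  · by_cases ha : a ∈ S <;> by_cases hb : b ∈ S <;> simp [ha, hb, e]

theorem lc_col (hS : Clo ℓ S) (x : Mat p n) (a : Ix n) {b : Ix n} (hb : b ∈ S) :
    lc ℓ S x a b = gr ℓ x a b := by
  rw [lc_apply]
  by_cases ha : a ∈ S
  · rw [if_pos ⟨ha, hb⟩]
  · rw [if_neg fun e => ha e.1, if_neg fun e : a = b => ha (e ▸ hb), gr_apply,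
      if_neg fun e => ha (hS.blk _ _ e.symm hb)]

theorem lc_col' (x : Mat p n) (a : Ix n) {b : Ix n} (hb : b ∉ S) :
    lc ℓ S x a b = if a = b then x (c0 n) (c0 n) else 0 := by
  rw [lc_apply, if_neg fun e => hb e.2]

theorem eS_idem : (eS S : Mat p n) * eS S = eS S := by
  simp only [eS, Matrix.diagonal_mul_diagonal]
  congr 1; funext β; split_ifs <;> simp

theorem eS_comm (hS : Clo ℓ S) {g : Mat p n} (hg : Dg ℓ g) : eS S * g = g * eS S :=
  hg.comm_diagonal fun α β e => by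
    rw [propext (⟨hS.blk _ _ e, hS.blk _ _ e.symm⟩ : α ∈ S ↔ β ∈ S)]

theorem st_eS (hS : Clo ℓ S) : st (eS S : Mat p n) = eS S := by
  rw [eS, st_diagonal]
  congr 1; funext α
  rw [propext (⟨fun e => by simpa using hS.rev _ e, hS.rev _⟩ : α.rev ∈ S ↔ α ∈ S)]

theorem lc_mul (hS : Clo ℓ S) {x y : Mat p n} (hx : Tri ℓ x) (hy : Tri ℓ y) :
    lc ℓ S (x * y) = lc ℓ S x * lc ℓ S y := by
  have h1 : (eS S : Mat p n) * (1 - eS S) = 0 := by rw [mul_sub, mul_one, eS_idem, sub_self]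
  have h2 : (1 - eS S) * (eS S : Mat p n) = 0 := by rw [sub_mul, one_mul, eS_idem, sub_self]
  have h3 : (1 - eS S) * (1 - eS S : Mat p n) = 1 - eS S := by
    rw [mul_sub, mul_one, h2, sub_zero]
  have h4 : eS S * gr ℓ x * eS S * (eS S * gr ℓ y * eS S) = eS S * (gr ℓ x * gr ℓ y) * eS S := by
    have h5 : eS S * gr ℓ x * eS S = eS S * gr ℓ x := by
      rw [mul_assoc, ← eS_comm hS (dg_gr x), ← mul_assoc, eS_idem]
    have h6 : eS S * gr ℓ y * eS S = gr ℓ y * eS S := by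
      rw [eS_comm hS (dg_gr y), mul_assoc, eS_idem]
    rw [h5, h6]
    simp only [mul_assoc]
  rw [lc_def, lc_def, lc_def, gr_mul hx hy, hx.mul_c0, add_mul, mul_add, mul_add, h4,
    mul_smul_comm, smul_mul_assoc, smul_mul_assoc, mul_smul_comm, h3, mul_assoc _ (eS S) (1 - eS S),
    h1, mul_assoc (eS S) (gr ℓ y), ← mul_assoc (1 - eS S), h2, smul_smul]
  simp

theorem lc_one : lc ℓ S (1 : Mat p n) = 1 := by
  rw [lc_def, gr_one, mul_one, eS_idem, Matrix.one_apply_eq, one_smul, add_sub_cancel]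

theorem lc_st (hl : Lab ℓ) (hS : Clo ℓ S) (x : Mat p n) : lc ℓ S (st x) = st (lc ℓ S x) := by
  rw [lc_def, lc_def, st_add, st_smul, st_sub, st_one, st_mul, st_mul, st_eS hS, gr_st hl,
    st_apply, rev_c0, mul_assoc]

theorem lc_dg (hl : Lab ℓ) (hS : Clo ℓ S) (x : Mat p n) : Dg (lS ℓ S) (lc ℓ S x) := fun a b e => by
  by_cases hb : b ∈ S
  · rw [lc_col hS x a hb] at e
    exact (lS_iff hl hS hb a).2 (dg_gr x a b e)
  · rw [lc_col' x a hb] at e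
    by_cases h : a = b
    · rw [h]
    · exact absurd (if_neg h) e

theorem lc_c0 (x : Mat p n) : lc ℓ S x (c0 n) (c0 n) = x (c0 n) (c0 n) := by
  rw [lc_apply]; split_ifs <;> simp_all

theorem lc_pr (hS : Clo ℓ S) (x : Mat p n) {α : Ix n} (h : α ∈ S) :
    lc ℓ S x * pr ℓ α = gr ℓ x * pr ℓ α := by
  ext a b
  rw [mul_pr_apply, mul_pr_apply]
  split_ifs with e
  · exact lc_col hS x a (hS.blk _ _ e.symm h)
  · rfl

theorem lc_pr' (hl : Lab ℓ) (hS : Clo ℓ S) (x : Mat p n) {α : Ix n} (h : α ∉ S) :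
    lc ℓ S x * pr (lS ℓ S) α = x (c0 n) (c0 n) • pr (lS ℓ S) α := by
  ext a b
  rw [mul_pr_apply, Matrix.smul_apply, pr, Matrix.diagonal_apply]
  simp only [lS_iff' hl hS h]
  by_cases e : b = α
  · subst e
    rw [if_pos rfl, lc_col' x a h]
    by_cases e : a = b <;> simp [e]
  · rw [if_neg e]
    by_cases e' : a = b
    · subst e'; simp [e]
    · simp [e']

theorem lc_par (hl : Lab ℓ) (hS : Clo ℓ S) {x : Mat p n} (hx : Par ℓ x) :
    Par (lS ℓ S) (lc ℓ S x) :=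
  ⟨(lc_dg hl hS x).tri (lab_lS hl hS), by
    rw [Un, ← lc_st hl hS, ← lc_mul hS (hx.1.st hl) hx.1, hx.2.1.st_mul, lc_one], by
    rw [lc_c0, hx.2.2]⟩

theorem pr_pr (x : Mat p n) (α : Ix n) : pr ℓ α * x * pr ℓ α = gr ℓ x * pr ℓ α := by
  ext a b
  rw [mul_pr_apply, mul_pr_apply, pr_mul_apply, gr_apply]
  split_ifs with e1 e2 e3 e3
  · rfl
  · exact absurd (e2.trans e1.symm) e3
  · exact absurd (e3.trans e1) e2
  · rfl
  · rfl

theorem lc_eq_one (hS : Clo ℓ S) {x : Mat p n} (hx : x (c0 n) (c0 n) = 1) :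
    (∀ α ∈ S, pr ℓ α * x * pr ℓ α = pr ℓ α) ↔ lc ℓ S x = 1 := by
  refine ⟨fun h => ?_, fun h α hα => by rw [pr_pr, ← lc_pr hS x hα, h, one_mul]⟩
  ext a b
  by_cases hb : b ∈ S
  · have h1 := h b hb
    rw [pr_pr, ← lc_pr hS x hb, ← one_mul (pr ℓ b), ← mul_assoc, mul_one] at h1
    have h2 := congrFun (congrFun h1 a) b
    rwa [mul_pr_apply, mul_pr_apply, if_pos rfl, if_pos rfl] at h2
  · rw [lc_col' x a hb, hx, Matrix.one_apply]

theorem clo_lam (hl : Lab ℓ) (a : Fin 3 → Ix n) : Clo ℓ (Lam ℓ a) where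
  blk _ _ e := fun ⟨j, h⟩ => ⟨j, e ▸ h⟩
  rev _ := fun ⟨j, h⟩ => ⟨j, h.elim (fun h => Or.inr (hl.rev_eq.2 h))
    fun h => Or.inl (hl.rev_eq'.2 h)⟩

end LCz

open LCz in
theorem s_LC (p n : ℕ) [Fact p.Prime] (hENV : S_ENV p n) (hSEC : S_SEC p n) : S_LC p n := by
  obtain ⟨-, hfr, hcj, -⟩ := hENV
  refine ⟨fun ℓ S hl hS => ⟨lab_lS hl hS, fun x y => lc_mul hS, lc_one, fun x =>
    ⟨lc_st hl hS x, lc_dg hl hS x, lc_c0 x, by rw [lc_def, lc_def, gr_gr, gr_apply, if_pos rfl],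
      fun α => lc_pr hS x, fun α => lc_pr' hl hS x, lc_par hl hS⟩, fun α hα => ⟨?_, ?_, ?_,
      lS_iff hl hS hα⟩, fun α hα => ?_, ⟨fun α β e hα => ?_, hS.rev⟩, fun α β e => ?_,
      fun R f hR hT => ⟨⟨1, hR.one, ?_⟩, ?_, ?_, ?_⟩, fun f g hg => ?_⟩, fun ℓ a hl => ?_⟩
  · simp only [nb, lS_iff hl hS hα]
  · ext x; simp only [mem_Vb, ne_eq, lS_iff hl hS hα]
  · simp only [pr, lS_iff hl hS hα]
  · simp only [nb, lS_iff' hl hS hα]
    rw [Finset.filter_eq', if_pos (Finset.mem_univ _), Finset.card_singleton]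
  · exact hS.blk _ _ ((lS_iff hl hS hα β).1 e.symm).symm hα
  · exact ((lS_le hl hS).1 e).elim (fun e => hl.mono e) fun e => e.2.le
  · rw [loc, LinearMap.comp_apply, (hfr f 1 1).2.2.1, lc_one]
  · rintro _ ⟨x, hx, rfl⟩ _ ⟨y, hy, rfl⟩
    refine ⟨x * y, hR.mul x hx y hy, ?_⟩
    simp only [loc, LinearMap.comp_apply]
    rw [(hfr f x y).1, lc_mul hS (hT x hx) (hT y hy)]
  · rintro _ ⟨x, hx, rfl⟩
    refine ⟨st x, hR.star x hx, ?_⟩
    simp only [loc, LinearMap.comp_apply]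
    rw [(hfr f x x).2.1, lc_st hl hS]
  · rintro _ ⟨x, -, rfl⟩
    exact lc_dg hl hS _
  · have hp : Par ℓ (fr f g.1) := ⟨hg, hcj f g ▸ (f⁻¹ * g * f).2.2⟩
    refine ⟨lc_par hl hS hp, ?_⟩
    rw [loc, LinearMap.comp_apply, ← lc_eq_one hS hp.2.2, mem_KB]
    refine forall₂_congr fun α _ => ?_
    obtain ⟨-, -, -, -, h5, -, h7, -⟩ := hSEC.1 f ℓ α hl
    exact h7 g (h5 _ hg).1 (h5 _ hg).2
  · have hS := clo_lam hl a
    have ha : ∀ j, a j ∈ Lam ℓ a := fun j => ⟨j, Or.inl rfl⟩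
    have hk : key (lS ℓ (Lam ℓ a)) a = key ℓ a := by simp only [key, lS_mem (ha _)]
    refine ⟨hS, ha, hk, ?_⟩
    ext w
    rw [mem_Wt, mem_Wt]
    refine forall_congr' fun i => imp_congr_left (not_congr ?_)
    rw [key_eq_iff hl, ← hk, key_eq_iff (lab_lS hl hS)]
    exact forall_congr' fun j => lS_iff hl hS (ha j) _

end Pool.Agent.P.MP_f1a348_lc.UP
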