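import Pool.Agent.P.MP_f1a348_lc.UP.Iface

/-! Project UP: restriction of an irreducible module to a normal subgroup. -/

namespace Pool.Agent.P.MP_f1a348_lc.UP

open Matrix Module Pool.Agent.P.MP_f1a348_lc.PG
open scoped commutatorElement

namespace N0z

variable {p : ℕ} [Fact p.Prime] {Γ W : Type} [Group Γ] [AddCommGroup W] [Module (ZMod p) W]
  {H : Subgroup Γ} {σ : Γ → Module.End (ZMod p) W}

theorem bal (hσ : PX.Rp H σ) {R : Subalgebra (ZMod p) (Module.End (ZMod p) W)}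
    (hR : ∀ h ∈ H, ∀ r ∈ R, σ h * r * σ h⁻¹ ∈ R) {w : W} {U : Submodule (ZMod p) W}
    (hU : ∀ y, y ∈ U ↔ ∃ r ∈ R, r w = y) (hm : Mid (finrank (ZMod p) W) (finrank (ZMod p) U)) :
    Bal H σ := by
  refine ⟨w, U, fun h hh hw x hx => ?_, hm⟩
  obtain ⟨c, hc⟩ := Submodule.mem_span_singleton.1 hw
  obtain ⟨r, hr, rfl⟩ := (hU x).1 hx
  have h1 : σ h⁻¹ * σ h = 1 := by rw [← hσ.mul _ (inv_mem hh) _ hh, inv_mul_cancel, hσ.one]
  have h2 : σ h (r w) = c • (σ h * r * σ h⁻¹) w := by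
    rw [← map_smul, hc, ← Module.End.mul_apply (σ h * r * σ h⁻¹), mul_assoc, h1, mul_one,
      Module.End.mul_apply]
  rw [h2]
  exact U.smul_mem c ((hU _).2 ⟨_, hR h hh r hr, rfl⟩)

theorem env_mul (hσ : PX.Rp H σ) {x y : Module.End (ZMod p) W} (hx : x ∈ PX.Env p H σ)
    (hy : y ∈ PX.Env p H σ) : x * y ∈ PX.Env p H σ := by
  have := Submodule.mul_mem_mul hx hy
  rw [PX.Env, Submodule.span_mul_span] at this
  refine Submodule.span_mono ?_ this
  rintro _ ⟨_, ⟨a, ha, rfl⟩, _, ⟨b, hb, rfl⟩, rfl⟩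
  exact ⟨a * b, H.mul_mem ha hb, hσ.mul a ha b hb⟩

end N0z

theorem s_N0 (p : ℕ) [Fact p.Prime] (hACW : S_ACW p) (hCYB : S_CYB p) (hSCH : S_SCH p) :
    S_N0 p := by
  intro Γ W _ _ _ _ H K σ hσ hi hK hN
  have hσK : PX.Rp K σ := ⟨hσ.one, fun a ha b hb => hσ.mul a (hK ha) b (hK hb)⟩
  have h1 : (1 : Module.End (ZMod p) W) ∈ PX.Env p K σ :=
    Submodule.subset_span ⟨1, K.one_mem, hσ.one⟩
  let A := (PX.Env p K σ).toSubalgebra h1 fun _ _ => N0z.env_mul hσK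
  let C := (PX.Cm (PX.Env p K σ)).toSubalgebra (fun b _ => by rw [one_mul, mul_one])
    fun x y hx hy b hb => by rw [mul_assoc, hy b hb, ← mul_assoc, hx b hb, mul_assoc]
  have h2 := (hSCH Γ W K σ hσK).2.2.2 H hσ hK hN
  have hA : ∀ h ∈ H, ∀ r ∈ A, σ h * r * σ h⁻¹ ∈ A := fun h hh => (h2 h hh).1
  have hC : ∀ h ∈ H, ∀ r ∈ C, σ h * r * σ h⁻¹ ∈ C := fun h hh => (h2 h hh).2
  obtain ⟨a1, a2⟩ := hCYB Γ W H σ A hσ hi hA
  obtain ⟨-, c2⟩ := hCYB Γ W H σ C hσ hi hC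
  obtain ⟨w, hw⟩ := hACW W A a1
  let U1 := (PX.Env p K σ).map (LinearMap.applyₗ w)
  let U2 := (PX.Cm (PX.Env p K σ)).map (LinearMap.applyₗ w)
  have h3 : U1 ⊔ U2 = ⊤ := eq_top_iff.2 fun y _ => by
    obtain ⟨r, hr, c, hc, rfl⟩ := hw y
    exact Submodule.add_mem_sup ⟨r, hr, rfl⟩ ⟨c, hc, rfl⟩
  have h4 := Submodule.finrank_add_le_finrank_add_finrank U1 U2
  rw [h3, finrank_top] at h4
  by_cases h5 : finrank (ZMod p) W ≤ 2 * finrank (ZMod p) U1
  · rcases a2 w U1 (fun _ => Iff.rfl) h5 with ⟨w', U', k1, k2⟩ | k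
    · exact .inl (N0z.bal hσ hA k1 k2)
    · refine .inr (.inl fun U hU => or_iff_not_imp_left.2 fun h0 => eq_top_iff.2 fun y _ => ?_)
      obtain ⟨v, hv, v0⟩ := (Submodule.ne_bot_iff U).1 h0
      obtain ⟨r, hr, rfl⟩ := k v v0 y
      have : PX.Env p K σ ≤ U.comap (LinearMap.applyₗ v) :=
        Submodule.span_le.2 (by rintro _ ⟨g, hg, rfl⟩; exact hU g hg v hv)
      exact this hr
  · rcases c2 w U2 (fun _ => Iff.rfl) (by omega) with ⟨w', U', k1, k2⟩ | k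
    · exact .inl (N0z.bal hσ hC k1 k2)
    · refine .inr (.inr ⟨h1, fun z _ => one_mul z, fun z _ => mul_one z,
        fun _ hy _ hz => N0z.env_mul hσK hy hz, fun z hz z0 => ?_⟩)
      have hu : IsUnit z := (Module.End.isUnit_iff z).2 (Finite.injective_iff_bijective.1
        ((injective_iff_map_eq_zero z).2 fun v hv => by
          by_contra v0
          refine z0 (LinearMap.ext fun y => ?_)
          obtain ⟨c, hc, rfl⟩ := k v v0 y
          rw [← Module.End.mul_apply, ← hc z hz, Module.End.mul_apply, hv, map_zero,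
            LinearMap.zero_apply]))
      have : Finite (Module.End (ZMod p) W) := Finite.of_injective _ DFunLike.coe_injective
      obtain ⟨n, n0, hn⟩ := isOfFinOrder_iff_pow_eq_one.1 (isOfFinOrder_iff_isUnit.2 hu)
      exact ⟨z ^ (n - 1), A.pow_mem hz _, by rw [← pow_succ, Nat.sub_add_cancel n0, hn]⟩

end Pool.Agent.P.MP_f1a348_lc.UP
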