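import Pool.Agent.P.MP_f1a348_lc.UP.Iface

/-! Normal `p`-subgroups act trivially on simple modules. -/

namespace Pool.Agent.P.MP_f1a348_lc.UP

open Matrix Module Pool.Agent.P.MP_f1a348_lc.PG
open scoped commutatorElement

theorem s_NPG (p : ℕ) [Fact p.Prime] : S_NPG p := by
  intro Γ W _ _ _ _ _ H D σ hR hI hD hN hp x hx
  rcases subsingleton_or_nontrivial W with h | h
  · exact LinearMap.ext fun _ => Subsingleton.elim _ _
  let φ : D →* Module.End (ZMod p) W :=
    ⟨⟨fun x => σ x, hR.one⟩, fun a b => hR.mul a (hD a.2) b (hD b.2)⟩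
  have hP : IsPGroup p φ.toHomUnits.range := by
    rintro ⟨_, y, rfl⟩
    obtain ⟨k, hk⟩ := hp y y.2
    refine ⟨k, Subtype.ext (Units.ext ?_)⟩
    rw [SubgroupClass.coe_pow, ← map_pow]
    exact hk
  have hd : p ∣ Nat.card W := by
    rw [Module.natCard_eq_pow_finrank (K := ZMod p), Nat.card_zmod]
    exact dvd_pow_self _ Module.finrank_pos.ne'
  obtain ⟨w, hw, h0⟩ := hP.exists_fixed_point_of_prime_dvd_card_of_fixed_point W hd (a := 0)
    fun g => smul_zero _
  let U : Submodule (ZMod p) W := ⨅ y ∈ D, LinearMap.eqLocus (σ y) 1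
  have hU : ∀ v, v ∈ U ↔ ∀ y ∈ D, σ y v = v := fun v => by simp [U]
  rcases hI U (fun g hg v hv => (hU _).2 fun y hy => by
    have h1 := hN g⁻¹ (inv_mem hg) y hy
    rw [inv_inv] at h1
    rw [← Module.End.mul_apply, ← hR.mul y (hD hy) g hg, show y * g = g * (g⁻¹ * y * g) by group,
      hR.mul g hg _ (hD h1), Module.End.mul_apply, (hU v).1 hv _ h1]) with e | e
  · have : w ∈ U := (hU w).2 fun y hy => hw ⟨_, ⟨y, hy⟩, rfl⟩
    rw [e] at this
    exact absurd this h0.symm
  · exact LinearMap.ext fun v => (hU v).1 (e ▸ Submodule.mem_top) x hx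

end Pool.Agent.P.MP_f1a348_lc.UP
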