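import Pool.Agent.P.MP_f1a348_lc.UP.Iface

namespace Pool.Agent.P.MP_f1a348_lc.UP

open Matrix Module Pool.Agent.P.MP_f1a348_lc.PG
open scoped commutatorElement

namespace OPz

variable {p : ℕ} {Γ : Type} [Group Γ]

/-- additive on `Z` -/
def Ad (Z : Subgroup Γ) (ψ : Γ → ZMod p) : Prop := ∀ a ∈ Z, ∀ b ∈ Z, ψ (a * b) = ψ a + ψ b

theorem Ad.one {Z : Subgroup Γ} {ψ : Γ → ZMod p} (h : Ad Z ψ) : ψ 1 = 0 := by
  have := h 1 Z.one_mem 1 Z.one_mem
  rw [mul_one] at this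
  exact left_eq_add.1 this

theorem Ad.inv {Z : Subgroup Γ} {ψ : Γ → ZMod p} (h : Ad Z ψ) {a : Γ} (ha : a ∈ Z) :
    ψ a⁻¹ = -ψ a := by
  have := h a ha a⁻¹ (Z.inv_mem ha)
  rw [mul_inv_cancel, h.one] at this
  exact (neg_eq_of_add_eq_zero_right this.symm).symm

theorem Ad.pow {Z : Subgroup Γ} {ψ : Γ → ZMod p} (h : Ad Z ψ) {a : Γ} (ha : a ∈ Z) (k : ℕ) :
    ψ (a ^ k) = k * ψ a := by
  induction k with
  | zero => rw [pow_zero, h.one, Nat.cast_zero, zero_mul]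
  | succ k ih => rw [pow_succ, h _ (Z.pow_mem ha k) _ ha, ih, Nat.cast_succ, add_mul, one_mul]

/-- the kernel -/
def Ad.ker {Z : Subgroup Γ} {ψ : Γ → ZMod p} (h : Ad Z ψ) : Subgroup Γ where
  carrier := {a | a ∈ Z ∧ ψ a = 0}
  one_mem' := ⟨Z.one_mem, h.one⟩
  mul_mem' {a b} ha hb := ⟨Z.mul_mem ha.1 hb.1, by rw [h a ha.1 b hb.1, ha.2, hb.2, add_zero]⟩
  inv_mem' {a} ha := ⟨Z.inv_mem ha.1, by rw [h.inv ha.1, ha.2, neg_zero]⟩

theorem conj_zero {X Z : Subgroup Γ} (hX : PP p X) {ψ : Γ → ZMod p} (h : Ad Z ψ) {g : Γ}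
    (hg : ∀ x ∈ X, g * x * g⁻¹ ∈ Z) {x : Γ} (hx : x ∈ X) : ψ (g * x * g⁻¹) = 0 :=
  hX (fun y => ψ (g * y * g⁻¹)) (fun a ha b hb => by
    rw [← h _ (hg a ha) _ (hg b hb)]
    congr 1
    group) x hx

theorem normal_sub {Z M : Subgroup Γ} (h : Nm Z M) : (M.subgroupOf Z).Normal :=
  ⟨fun n hn g => h g.1 g.2 n.1 hn⟩

variable [hp : Fact p.Prime]

theorem exists_hom (G : Type) [Group G] [Finite G] [Nontrivial G] (h : IsPGroup p G) :
    ∃ φ : G →* Multiplicative (ZMod p), Function.Surjective φ := by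
  obtain ⟨n, hn0, hn⟩ := h.nontrivial_iff_card.1 inferInstance
  obtain ⟨n, rfl⟩ := Nat.exists_eq_succ_of_ne_zero hn0.ne'
  obtain ⟨H, hH⟩ := Sylow.exists_subgroup_card_pow_prime (G := G) p (n := n)
    (by rw [hn]; exact pow_dvd_pow p (Nat.le_succ n))
  have hi : H.index = p := by
    have := H.card_mul_index
    rw [hH, hn, pow_succ] at this
    exact Nat.eq_of_mul_eq_mul_left (pow_pos hp.out.pos n) this
  have : H.Normal := H.normal_of_index_eq_minFac_card (by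
    rw [hi, hn, hp.out.pow_minFac (Nat.succ_ne_zero n)])
  let e : G ⧸ H ≃* Multiplicative (ZMod p) := mulEquivOfPrimeCardEq (p := p) hi (by simp)
  exact ⟨e.toMonoidHom.comp (QuotientGroup.mk' H),
    e.surjective.comp (QuotientGroup.mk'_surjective H)⟩

theorem key [Finite Γ] {Z M : Subgroup Γ} (hZ : PP p Z) (hM : Nm Z M)
    (h : ∀ x ∈ Z, ∃ k : ℕ, x ^ p ^ k ∈ M) : Z ≤ M := by
  classical
  have := normal_sub hM
  have hq : IsPGroup p (Z ⧸ M.subgroupOf Z) := fun q => by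
    obtain ⟨x, rfl⟩ := QuotientGroup.mk_surjective q
    obtain ⟨k, hk⟩ := h x.1 x.2
    exact ⟨k, by rw [← QuotientGroup.mk_pow, QuotientGroup.eq_one_iff]; exact hk⟩
  rcases subsingleton_or_nontrivial (Z ⧸ M.subgroupOf Z) with hs | hs
  · intro x hx
    exact (QuotientGroup.eq_one_iff (N := M.subgroupOf Z) ⟨x, hx⟩).1 (Subsingleton.elim _ _)
  obtain ⟨φ, hφ⟩ := exists_hom _ hq
  obtain ⟨q, hq⟩ := hφ (Multiplicative.ofAdd 1)
  obtain ⟨x, rfl⟩ := QuotientGroup.mk_surjective q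
  have := hZ (fun a => if ha : a ∈ Z then (φ (QuotientGroup.mk ⟨a, ha⟩)).toAdd else 0)
    (fun a ha b hb => by
      rw [dif_pos ha, dif_pos hb, dif_pos (Z.mul_mem ha hb), ← toAdd_mul, ← map_mul]
      rfl) x.1 x.2
  simp only [dif_pos x.2, Subtype.coe_eta, hq, toAdd_ofAdd] at this
  exact absurd this one_ne_zero

theorem split [Finite Γ] (x : Γ) : ∃ j k : ℕ, k.Coprime p ∧ orderOf x = p ^ j * k := by
  obtain ⟨j, k, h1, h2⟩ := Nat.exists_eq_pow_mul_and_not_dvd (orderOf_pos x).ne' p hp.out.ne_one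
  exact ⟨j, k, ((Nat.Prime.coprime_iff_not_dvd hp.out).2 h1).symm, h2⟩

theorem pp_zpowers {y : Γ} {k : ℕ} (hk : k.Coprime p) (hy : y ^ k = 1) :
    PP p (Subgroup.zpowers y) := fun ψ hψ a ha => by
  have h : Ad _ ψ := hψ
  have h1 : a ^ k = 1 := by
    obtain ⟨m, rfl⟩ := Subgroup.mem_zpowers_iff.1 ha
    rw [← zpow_natCast, zpow_comm, zpow_natCast, hy, _root_.one_zpow]
  have h2 := h.pow ha k
  rw [h1, h.one] at h2
  refine (mul_eq_zero.1 h2.symm).resolve_left fun e => ?_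
  exact (Nat.Prime.coprime_iff_not_dvd hp.out).1 hk.symm ((ZMod.natCast_eq_zero_iff k p).1 e)

omit hp in
theorem fr_le (Z : Subgroup Γ) : Fr p Z ≤ Z := (Subgroup.closure_le _).2 (by
  rintro _ (⟨a, ha, rfl⟩ | ⟨a, ha, b, hb, rfl⟩)
  · exact Z.pow_mem ha p
  · exact Z.mul_mem (Z.mul_mem (Z.mul_mem ha hb) (Z.inv_mem ha)) (Z.inv_mem hb))

omit hp in
theorem fr_nm {Z H : Subgroup Γ} (h : Nm H Z) : Nm H (Fr p Z) := fun g hg => by
  have : Fr p Z ≤ (Fr p Z).comap (MulAut.conj g).toMonoidHom := (Subgroup.closure_le _).2 (by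
    rintro _ (⟨a, ha, rfl⟩ | ⟨a, ha, b, hb, rfl⟩)
    · refine Subgroup.subset_closure (Or.inl ⟨_, h g hg a ha, ?_⟩)
      rw [map_pow]
      rfl
    · refine Subgroup.subset_closure (Or.inr ⟨_, h g hg a ha, _, h g hg b hb, ?_⟩)
      rw [map_commutatorElement]
      rfl)
  exact fun k hk => this hk

end OPz

open OPz in
theorem s_OP (p : ℕ) [Fact p.Prime] (hSOL : S_SOL) : S_OP p := by
  intro Γ _ _
  refine ⟨fun Z => ?_, fun Z => ?_, fun Z M => key, fun H X hX ψ hψ => ?_, fun x => ?_,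
    fun S N h1 h2 h3 h4 => ?_⟩
  · have a1 : Op p Z ≤ Z := sSup_le fun Y hY => hY.1
    have a2 : ∀ Y, Y ≤ Z → PP p Y → Y ≤ Op p Z := fun Y h1 h2 => le_sSup ⟨h1, h2⟩
    refine ⟨a1, fun ψ hψ a ha => ?_, fun x hx => ?_, a2, fun H hH g hg => ?_⟩
    · have h : Ad _ ψ := hψ
      have : Op p Z ≤ h.ker := sSup_le fun Y hY y hy => ⟨a2 Y hY.1 hY.2 hy, hY.2 ψ
        (fun a ha b hb => h a (a2 Y hY.1 hY.2 ha) b (a2 Y hY.1 hY.2 hb)) y hy⟩
      exact (this ha).2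
    · obtain ⟨j, k, hk, e⟩ := split (p := p) x
      refine ⟨j, a2 _ ((Subgroup.zpowers_le_of_mem (Z.pow_mem hx _))) (pp_zpowers hk ?_)
        (Subgroup.mem_zpowers _)⟩
      rw [← pow_mul, ← e, pow_orderOf_eq_one]
    · have : Op p Z ≤ (Op p Z).comap (MulAut.conj g).toMonoidHom := sSup_le fun Y hY => by
        rw [← Subgroup.map_le_iff_le_comap]
        refine a2 _ ?_ ?_
        · rintro _ ⟨y, hy, rfl⟩
          exact hH g hg y (hY.1 hy)
        · rintro ψ hψ _ ⟨y, hy, rfl⟩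
          exact conj_zero hY.2 hψ (fun x hx => ⟨x, hx, rfl⟩) hy
      exact fun k hk => this hk
  · refine ⟨fr_le Z, fun H => fr_nm, fun a ha b hb =>
      Subgroup.subset_closure (Or.inr ⟨a, ha, b, hb, rfl⟩), fun Y h1 h2 => key h2
      (fr_nm fun g hg k hk => Z.mul_mem (Z.mul_mem (h1 hg) hk) (Z.inv_mem (h1 hg)))
      fun x hx => ⟨1, Subgroup.subset_closure (Or.inl ⟨x, h1 hx, by rw [pow_one]⟩)⟩,
      fun h ψ hψ a ha => ?_⟩
    have hA : Ad _ ψ := hψ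
    have : Fr p Z ≤ hA.ker := (Subgroup.closure_le _).2 (by
      rintro _ (⟨a, ha, rfl⟩ | ⟨a, ha, b, hb, rfl⟩)
      · exact ⟨Z.pow_mem ha p, by rw [hA.pow ha, ZMod.natCast_self, zero_mul]⟩
      · refine ⟨Z.mul_mem (Z.mul_mem (Z.mul_mem ha hb) (Z.inv_mem ha)) (Z.inv_mem hb), ?_⟩
        rw [commutatorElement_def, hA _ (Z.mul_mem (Z.mul_mem ha hb) (Z.inv_mem ha)) _
          (Z.inv_mem hb), hA _ (Z.mul_mem ha hb) _ (Z.inv_mem ha), hA _ ha _ hb, hA.inv ha,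
          hA.inv hb]
        ring)
    exact (this (h ha)).2
  · have hA : Ad _ ψ := hψ
    have : Ncl H X ≤ hA.ker := (Subgroup.closure_le _).2 (by
      rintro _ ⟨h, hh, x, hx, rfl⟩
      exact ⟨Subgroup.subset_closure ⟨h, hh, x, hx, rfl⟩, conj_zero hX hA
        (fun y hy => Subgroup.subset_closure ⟨h, hh, y, hy, rfl⟩) hx⟩)
    exact fun a ha => (this ha).2
  · obtain ⟨j, k, hk, e⟩ := split (p := p) x
    have co : (p ^ j).Coprime k := Nat.Coprime.pow_left j hk.symm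
    obtain ⟨a, a1, a2⟩ := Nat.chineseRemainder co 1 0
    obtain ⟨b, b1, b2⟩ := Nat.chineseRemainder co 0 1
    refine ⟨a, b, j, k, ?_, ?_, ?_, hk⟩
    · rw [← pow_add]
      nth_rw 1 [← pow_one x]
      rw [pow_eq_pow_iff_modEq, e, ← Nat.modEq_and_modEq_iff_modEq_mul co]
      exact ⟨(a1.add b1).symm, (a2.add b2).symm⟩
    · rw [← pow_mul, ← orderOf_dvd_iff_pow_eq_one, e, mul_comm]
      exact Nat.mul_dvd_mul_right (Nat.modEq_zero_iff_dvd.1 a2) _
    · rw [← pow_mul, ← orderOf_dvd_iff_pow_eq_one, e]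
      exact Nat.mul_dvd_mul_right (Nat.modEq_zero_iff_dvd.1 b1) _
  · have hc := (hSOL Γ).2.2.2.2.2.2.2.2.2.1 S N h2 h4
    have := normal_sub h2
    have hpw : ∀ x ∈ Subgroup.closure S, x ^ p ∈ N := fun x hx => by
      induction hx using Subgroup.closure_induction with
      | mem x hx => exact h3 x hx
      | one => rw [one_pow]; exact N.one_mem
      | mul x y hx hy ix iy =>
        let π := QuotientGroup.mk' (N.subgroupOf (Subgroup.closure S))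
        have hπ : ∀ z : Subgroup.closure S, π z = 1 ↔ z.1 ∈ N := fun z =>
          QuotientGroup.eq_one_iff z
        have c : Commute (π ⟨x, hx⟩) (π ⟨y, hy⟩) := by
          rw [← commutatorElement_eq_one_iff_commute, ← map_commutatorElement, hπ]
          exact hc x hx y hy
        refine (hπ ((⟨x, hx⟩ * ⟨y, hy⟩) ^ p)).1 ?_
        rw [map_pow, map_mul, c.mul_pow, ← map_pow, ← map_pow, (hπ _).2 ix, (hπ _).2 iy, one_mul]
      | inv x _ ix => rw [inv_pow]; exact N.inv_mem ix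
    refine le_antisymm h1 ((Subgroup.closure_le _).2 ?_)
    rintro _ (⟨a, ha, rfl⟩ | ⟨a, ha, b, hb, rfl⟩)
    · exact hpw a ha
    · exact hc a ha b hb

end Pool.Agent.P.MP_f1a348_lc.UP
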