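import Pool.Agent.P.MP_f1a348_lc.UP.PIf
import Pool.Agent.P.MP_f1a348_lc.GI.ABasic

/-! Representatives of cosets and Schreier generators. -/

namespace Pool.Agent.P.MP_f1a348_lc.UP

open Matrix Module Pool.Agent.P.MP_f1a348_lc.PG
open scoped commutatorElement

namespace QBFSz

variable {p n : ℕ} [Fact p.Prime] {c : Cx} {t : V → Bool} {S R : List V}

def Done (c : Cx) (t : V → Bool) (S R : List V) : Prop :=
  ∀ s ∈ S ++ S.map (ginv c), ∀ r ∈ R, ∃ r' ∈ R, t (gdiv c r' (gmul c s r)) = true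

def Iv (p n : ℕ) (c : Cx) (t : V → Bool) (S : List V) (i : ℕ) (R : List V) : Prop :=
  oneP c ∈ R ∧ (∀ r ∈ R, gD p n r ∈ gS p n S) ∧
    R.Pairwise (fun u v => t (gdiv c v u) = false) ∧ (Done c t S R ∨ i + 1 ≤ R.length)

theorem gen (h : Ok p n c) {s : V} (hs : s ∈ S ++ S.map (ginv c)) : gD p n s ∈ gS p n S := by
  rcases List.mem_append.1 hs with e | e
  · exact mem_gS e
  · obtain ⟨a, ha, rfl⟩ := List.mem_map.1 e
    rw [h.gD_inv]
    exact inv_mem (mem_gS ha)

theorem step (h : Ok p n c) {i : ℕ} (k : Iv p n c t S i R) :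
    Iv p n c t S (i + 1) (bfsStep c t S R) := by
  obtain ⟨a1, a2, a3, a4⟩ := k
  unfold bfsStep
  cases e : ((S ++ S.map (ginv c)).flatMap fun s => R.map fun r => gmul c s r).find? fun x =>
    R.all fun r => !t (gdiv c r x) with
  | none =>
    refine ⟨a1, a2, a3, Or.inl fun s hs r hr => ?_⟩
    simpa using List.find?_eq_none.1 e (gmul c s r)
      (List.mem_flatMap.2 ⟨s, hs, List.mem_map_of_mem hr⟩)
  | some x =>
    obtain ⟨s, hs, hx⟩ := List.mem_flatMap.1 (List.mem_of_find?_eq_some e)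
    obtain ⟨r, hr, rfl⟩ := List.mem_map.1 hx
    have b1 : ∀ r' ∈ R, t (gdiv c r' (gmul c s r)) = false := by simpa using List.find?_some e
    refine ⟨List.mem_cons_of_mem _ a1, List.forall_mem_cons.2 ⟨?_, a2⟩,
      List.pairwise_cons.2 ⟨b1, a3⟩, Or.inr ?_⟩
    · rw [h.gD_mul]
      exact mul_mem (gen h hs) (a2 r hr)
    · rcases a4 with a4 | a4
      · obtain ⟨r', hr', h4⟩ := a4 s hs r hr
        rw [b1 r' hr'] at h4
        exact absurd h4 Bool.false_ne_true
      · exact Nat.succ_le_succ a4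

theorem fold (h : Ok p n c) (u : List Unit) : ∀ (i : ℕ) (R : List V), Iv p n c t S i R →
    Iv p n c t S (i + u.length) (u.foldl (fun R _ => bfsStep c t S R) R) := by
  induction u with
  | nil => exact fun _ _ k => k
  | cons a u ih =>
    intro i R k
    rw [List.length_cons, ← add_assoc, add_right_comm]
    exact ih _ _ (step h k)

theorem inv (h : Ok p n c) (t : V → Bool) (S : List V) :
    Iv p n c t S c.2.2.length (bfs c t S) := by
  have := fold (t := t) (S := S) h c.2.2 0 [oneP c]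
    ⟨by simp, by simp [h.gD_one], by simp, Or.inr le_rfl⟩
  rwa [zero_add] at this

theorem sch_map (h : Ok p n c) (R S : List V) :
    (sch c R S).map (gD p n) = GI.schTriples (R.map (gD p n)) (S.map (gD p n)) := by
  simp only [sch, GI.schTriples, List.map_flatMap, List.flatMap_map, List.map_map,
    List.flatMap_cons, List.flatMap_append, List.map_append, Function.comp_def, h.gD_mul, h.gD_div,
    h.gD_inv, h.gD_one]

theorem sch_mem (h : Ok p n c) (hR : ∀ r ∈ R, gD p n r ∈ gS p n S) {x : V}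
    (hx : x ∈ sch c R S) : Vd p n x ∧ gD p n x ∈ gS p n S := by
  obtain ⟨r', hr', hx⟩ := List.mem_flatMap.1 hx
  obtain ⟨s, hs, hx⟩ := List.mem_flatMap.1 hx
  obtain ⟨r, hr, rfl⟩ := List.mem_map.1 hx
  refine ⟨vd_of (h.gmul _ _), ?_⟩
  rw [h.gD_mul, h.gD_div]
  refine mul_mem (mul_mem (inv_mem (hR _ hr')) ?_) (hR _ hr)
  rcases List.mem_cons.1 hs with rfl | hs
  · rw [h.gD_one]; exact one_mem _
  · exact gen h hs

theorem len (h : Ok p n c) {Q : SG p n} (ht : Tst t (gS p n S) (· ∈ Q))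
    (hR : ∀ r ∈ R, gD p n r ∈ gS p n S) (hp : R.Pairwise fun u v => t (gdiv c v u) = false) :
    R.length ≤ Q.relIndex (gS p n S) := by
  classical
  have := Fintype.ofFinite (gS p n S ⧸ Q.subgroupOf (gS p n S))
  have h1 : (R.pmap (fun r hr => (QuotientGroup.mk ⟨gD p n r, hr⟩ :
      gS p n S ⧸ Q.subgroupOf (gS p n S))) hR).Nodup := by
    refine hp.pmap hR fun u hu v hv e e' => ?_
    rw [eq_comm, QuotientGroup.eq, Subgroup.mem_subgroupOf] at e'
    rw [(ht _ _ (mul_mem (inv_mem hv) hu) (h.gdiv v u)).2 e'] at e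
    exact absurd e (by simp)
  have h2 := h1.length_le_card
  rwa [List.length_pmap, ← Nat.card_eq_fintype_card, ← Subgroup.index_eq_card] at h2

end QBFSz

open QBFSz in
theorem s_QBFS (p n : ℕ) [Fact p.Prime] (hQRED : S_QRED p n) : S_QBFS p n := by
  classical
  intro c t S h
  obtain ⟨a1, a2, a3, a4⟩ := inv h t S
  rw [subG, hQRED c _ h]
  refine ⟨a2, gS_le.2 fun x hx => (sch_mem h a2 (List.mem_filter.1 hx).1).2, fun Q ht =>
    ⟨len h ht a2 a3, fun hl => ?_⟩⟩
  have a5 := a4.resolve_right (by omega)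
  have a6 : ∀ r ∈ (bfs c t S).map (gD p n), r ∈ gS p n S := List.forall_mem_map.2 a2
  obtain ⟨b1, b2⟩ := GI.schreier (R := (bfs c t S).map (gD p n)) (S := S.map (gD p n))
    (V := gS p n S ⊓ Q) (q := fun g => decide (g ∈ gS p n S ⊓ Q))
    (h.gD_one ▸ List.mem_map_of_mem a1) (gS_eq_gen (p := p) (n := n) S ▸ a6)
    (gS_eq_gen (p := p) (n := n) S ▸ inf_le_left)
    (fun x _ => decide_eq_true_iff) (by
      intro r0 hr0 s0 hs0
      obtain ⟨r, hr, rfl⟩ := List.mem_map.1 hr0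
      obtain ⟨s, hs, rfl⟩ : ∃ x ∈ S ++ S.map (ginv c), gD p n x = s0 := by
        rcases hs0 with hs | hs <;> obtain ⟨x, hx, e⟩ := List.mem_map.1 hs
        · exact ⟨x, List.mem_append_left _ hx, e⟩
        · exact ⟨_, List.mem_append_right _ (List.mem_map_of_mem hx), by
            rw [h.gD_inv, e, inv_inv]⟩
      obtain ⟨r', hr', e⟩ := a5 s hs r hr
      have hm := mul_mem (inv_mem (a2 r' hr')) (mul_mem (gen h hs) (a2 r hr))
      refine ⟨_, List.mem_map_of_mem hr', ?_⟩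
      rw [mul_assoc]
      exact ⟨hm, (ht _ _ hm (by rw [h.gdiv, h.gD_mul])).1 e⟩)
  rw [← gS_eq_gen] at b2
  refine ⟨⟨a6, b2⟩, ?_⟩
  rw [← b1, ← sch_map h, List.filter_map, gS_eq_gen]
  congr 2
  refine List.filter_congr fun x hx => ?_
  obtain ⟨e1, e2⟩ := sch_mem h a2 hx
  rw [Bool.eq_iff_iff, ht x _ e2 e1]
  simp [e2]

end Pool.Agent.P.MP_f1a348_lc.UP
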