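import Pool.Agent.P.MP_f1a348_lc.UP.PIf

/-!
Project UP: the intersection of a group with a group it normalises.
-/

namespace Pool.Agent.P.MP_f1a348_lc.UP

open Matrix Module Pool.Agent.P.MP_f1a348_lc.PG
open scoped commutatorElement

namespace QCAPz

variable {p n : ℕ} [Fact p.Prime]

theorem idx {A B : SG p n} (α : Ix n)
    (h : ∀ g ∈ A, (∀ β, g.1 β α = (1 : Mat p n) β α) → g ∈ B) :
    B.relIndex A ≤ p ^ (2 * n + 1) := by
  have hc : Nat.card (Vec p n) = p ^ (2 * n + 1) := by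
    rw [Nat.card_fun, Nat.card_zmod, Nat.card_eq_fintype_card, Fintype.card_fin]
  rw [← hc, Subgroup.relIndex, Subgroup.index]
  refine Nat.card_le_card_of_injective
    (fun q : A ⧸ B.subgroupOf A => fun β => (q.out : A).1.1 β α) fun q r e => ?_
  rw [← QuotientGroup.out_eq' q, ← QuotientGroup.out_eq' r, QuotientGroup.eq,
    Subgroup.mem_subgroupOf]
  refine h _ (q.out⁻¹ * r.out).2 fun β => ?_
  have e1 : ((q.out : A).1⁻¹ * (q.out : A).1).1 = 1 := by rw [inv_mul_cancel]; rfl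
  rw [← e1]
  show ((q.out : A).1⁻¹ * (r.out : A).1).1 β α = _
  rw [val_mul, val_mul, Matrix.mul_apply, Matrix.mul_apply]
  exact Finset.sum_congr rfl fun γ _ => congrArg (_ * ·) (congrFun e γ).symm

theorem chain (hKL : S_KL) {A K : SG p n} (hN : Nm A K) {t : ℕ → V → Bool} {B : ℕ}
    {Z : ℕ → SG p n} (hle : ∀ j, Z j ≤ A) (hm : ∀ j, Z (j + 1) ≤ Z j)
    (ht : ∀ j, Tst (t j) ⊤ (· ∈ K ⊔ Z (j + 1))) (hi : ∀ j, (Z (j + 1)).relIndex (Z j) ≤ B)
    (k : ℕ) : ∀ j, Chn t (fun i => K ⊔ Z (i + 1)) B (A ⊓ (K ⊔ Z j)) (List.range' j k) := by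
  induction k with
  | zero => exact fun _ => trivial
  | succ k ih =>
    intro j
    rw [List.range'_succ]
    refine ⟨(ht j).mono le_top,
      ((hKL _ A K A A hN le_rfl le_rfl).2.2.2 _ _ (hm j) (hle j)).trans (hi j), ?_⟩
    have e : A ⊓ (K ⊔ Z j) ⊓ (K ⊔ Z (j + 1)) = A ⊓ (K ⊔ Z (j + 1)) := by
      rw [inf_assoc, inf_eq_right.2 (sup_le_sup_left (hm j) K)]
    show Chn t _ B (A ⊓ (K ⊔ Z j) ⊓ (K ⊔ Z (j + 1))) _
    rw [e]
    exact ih (j + 1)

end QCAPz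

theorem s_QCAP (p n : ℕ) [Fact p.Prime] (hKL : S_KL) (hQSUBS : S_QSUBS p n)
    (hQFIX : S_QFIX p n) : S_QCAP p n := by
  intro c A K h hN
  have hr : ran (u1 c) = List.range' 0 (2 * n + 1) := by
    rw [ran_eq, h.len1, List.range_eq_range']
  have hmem : ∀ j i, i ∈ (ran (u1 c)).take j ↔ i < j ∧ i < 2 * n + 1 := fun j i => by
    rw [ran_eq, h.len1, List.take_range, List.mem_range, lt_min_iff]
  have hZ : ∀ j g, g ∈ gS p n (fixP c (nv c (u2 c)) ((ran (u1 c)).take j) A) ↔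
      g ∈ gS p n A ∧ ∀ α : Ix n, α.val < j → ∀ β, g.1 β α = (1 : Mat p n) β α := fun j g => by
    rw [((hQFIX c A h).1 _ _ (h.hom_id.mono le_top)).1 _ (fun i hi => ((hmem j i).1 hi).2) g]
    simp only [hmem, Fin.is_lt, and_true]
  set Z : ℕ → SG p n := fun j => gS p n (fixP c (nv c (u2 c)) ((ran (u1 c)).take j) A) with eZ
  have hZ' : ∀ j g, g ∈ Z j ↔
      g ∈ gS p n A ∧ ∀ α : Ix n, α.val < j → ∀ β, g.1 β α = (1 : Mat p n) β α := hZ
  have hle : ∀ j, Z j ≤ gS p n A := fun j g hg => ((hZ' j g).1 hg).1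
  have hm : ∀ i j, i ≤ j → Z j ≤ Z i := fun i j e g hg =>
    (hZ' i g).2 ⟨((hZ' j g).1 hg).1, fun α hα => ((hZ' j g).1 hg).2 α (hα.trans_le e)⟩
  have h0 : gS p n A ⊓ (gS p n K ⊔ Z 0) = gS p n A :=
    inf_eq_left.2 (le_sup_of_le_right fun g hg => (hZ' 0 g).2 ⟨hg, fun _ e => absurd e (by omega)⟩)
  have hb : Z (2 * n + 1) = ⊥ := le_bot_iff.1 fun g hg =>
    Subgroup.mem_bot.2 (Subtype.ext (Matrix.ext fun β α => ((hZ' _ g).1 hg).2 α α.2 β))
  have hi : ∀ j, (Z (j + 1)).relIndex (Z j) ≤ c.2.2.length := fun j => by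
    refine le_trans ?_ (h.pow_le' (k := 2 * n + 1) (by omega))
    refine QCAPz.idx ⟨j % (2 * n + 1), Nat.mod_lt _ (by omega)⟩ fun g hg e => ?_
    refine (hZ' _ g).2 ⟨hle j hg, fun α hα => ?_⟩
    rcases Nat.lt_succ_iff_lt_or_eq.1 hα with e1 | e1
    · exact ((hZ' j g).1 hg).2 α e1
    · have : α = ⟨j % (2 * n + 1), Nat.mod_lt _ (by omega)⟩ :=
        Fin.ext (by rw [← e1]; exact (Nat.mod_eq_of_lt α.2).symm)
      rw [this]; exact e
  have ht : ∀ j, Tst (memG c (K ++ fixP c (nv c (u2 c)) ((ran (u1 c)).take (j + 1)) A)) ⊤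
      (· ∈ gS p n K ⊔ Z (j + 1)) := fun j => by
    have := (hQFIX c (K ++ fixP c (nv c (u2 c)) ((ran (u1 c)).take (j + 1)) A) h).2.2
    rwa [gS_append] at this
  have hc := QCAPz.chain hKL hN hle (fun j => hm j (j + 1) (by omega)) ht hi (2 * n + 1) 0
  rw [h0, ← hr] at hc
  ext g
  rw [capN, hQSUBS c _ _ A _ h hc g, Subgroup.mem_inf]
  refine and_congr_right fun _ => ⟨fun e => ?_, fun e i _ => Subgroup.mem_sup_left e⟩
  have := e (2 * n) (by rw [mem_ran, h.len1]; omega)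
  rwa [hb, sup_bot_eq] at this

end Pool.Agent.P.MP_f1a348_lc.UP
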