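import Pool.Agent.P.MP_f1a348_lc.UP.PIf

/-!
Project UP: stabilisers of columns, kernels, lifts and the membership test.
-/

namespace Pool.Agent.P.MP_f1a348_lc.UP

open Matrix Module Pool.Agent.P.MP_f1a348_lc.PG
open scoped commutatorElement

namespace QFIXz

variable {p n : ℕ} [Fact p.Prime] {c : Cx} {ρ : V → V} {G : SG p n} {σ : GG p n → Mat p n}

theorem col_iff (h : Ok p n c) (z x : V) {i : ℕ} (hi : i < 2 * n + 1) : colT c ρ z i x = true ↔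
    ∀ β, mV p n (ρ x) β (ixD n i) = mV p n z β (ixD n i) := by
  rw [colT, QSidey.all1 h]
  refine forall_congr' fun β => ?_
  rw [h.mV_apply, h.mV_apply, ZMod.natCast_eq_natCast_iff', beq_iff_eq, h.hp,
    show (ixD n i).val = i from Nat.mod_eq_of_lt hi]

theorem col {B B' : Mat p n} {α : Ix n} (h : ∀ β, B β α = B' β α) (A : Mat p n) (β : Ix n) :
    (A * B) β α = (A * B') β α := by simp only [Matrix.mul_apply, h]

/-- the stabiliser of a column -/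
noncomputable def Qa (hσ : Hom ρ G σ) (α : Ix n) : SG p n :=
  sg (fun g => g ∈ G ∧ ∀ β, σ g β α = (1 : Mat p n) β α) ⟨one_mem _, fun β => by rw [hσ.one]⟩
    fun a b ha hb => ⟨mul_mem ha.1 hb.1, fun β => by
      rw [hσ.mul a ha.1 b hb.1, col hb.2, mul_one, ha.2]⟩

theorem key (hσ : Hom ρ G σ) (α : Ix n) {u w : GG p n} (hu : u ∈ G) (hw : w ∈ G) :
    (∀ β, σ (u * w) β α = σ u β α) ↔ w ∈ Qa hσ α := by
  refine ⟨fun e => ⟨hw, fun β => ?_⟩, fun e β => by rw [hσ.mul u hu w hw, col e.2, mul_one]⟩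
  have := col e (σ u⁻¹) β
  rwa [← hσ.mul _ (inv_mem hu) _ (mul_mem hu hw), ← hσ.mul _ (inv_mem hu) _ hu,
    inv_mul_cancel_left, inv_mul_cancel, hσ.one] at this

theorem idx (h : Ok p n c) (hσ : Hom ρ G σ) (α : Ix n) : (Qa hσ α).relIndex G ≤ c.2.2.length := by
  refine le_trans ?_ (h.pow_le' (k := 2 * n + 1) (by omega))
  refine (Nat.card_le_card_of_injective
    (fun (q : G ⧸ (Qa hσ α).subgroupOf G) β => σ q.out β α) fun q q' e => ?_).trans_eq (by simp)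
  rw [← q.out_eq, ← q'.out_eq]
  refine QuotientGroup.eq.2 ((key hσ α q.out.2 (q.out⁻¹ * q'.out).2).1 fun β => ?_)
  rw [Subgroup.coe_mul, Subgroup.coe_inv, mul_inv_cancel_left]
  exact (congrFun e β).symm

theorem tst (h : Ok p n c) (hσ : Hom ρ G σ) {i : ℕ} (hi : i < 2 * n + 1) :
    Tst (colT c ρ (oneP c) i) G (· ∈ Qa hσ (ixD n i)) := fun x g hg e => by
  rw [col_iff h _ _ hi, hσ.val x g hg e, h.oneP]
  exact ⟨fun k => ⟨hg, k⟩, fun k => k.2⟩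

omit [Fact p.Prime] in
theorem lt (h : Ok p n c) {i : ℕ} : i ∈ ran (u1 c) ↔ i < 2 * n + 1 := by rw [mem_ran, h.len1]

variable {S : List V}

theorem fix (hS : S_QSUBS p n) (h : Ok p n c) (hσ : Hom ρ (gS p n S) σ) (I : List ℕ)
    (hI : ∀ i ∈ I, i < 2 * n + 1) (g : GG p n) : g ∈ gS p n (fixP c ρ I S) ↔ g ∈ gS p n S ∧
      ∀ α : Ix n, α.val ∈ I → ∀ β, σ g β α = (1 : Mat p n) β α := by
  rw [fixP, hS c _ I S (fun i => Qa hσ (ixD n i)) h
    (chn_of fun i hi => ⟨tst h hσ (hI i hi), idx h hσ _⟩)]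
  refine and_congr_right fun hg => ⟨fun k α a => ixD_val α ▸ (k _ a).2, fun k i hi =>
    ⟨hg, k _ ?_⟩⟩
  rwa [show (ixD n i).val = i from Nat.mod_eq_of_lt (hI i hi)]

theorem ker (hS : S_QSUBS p n) (h : Ok p n c) (hσ : Hom ρ (gS p n S) σ) (g : GG p n) :
    g ∈ gS p n (kerP c ρ S) ↔ g ∈ gS p n S ∧ σ g = 1 := by
  rw [kerP, fix hS h hσ _ fun i => (lt h).1]
  exact and_congr_right fun _ => ⟨fun k => Matrix.ext fun β α => k α ((lt h).2 α.2) β,
    fun k α _ β => by rw [k]⟩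

theorem lift0 (hC : S_QCOS p n) (h : Ok p n c) (ρ : V → V) (z : V) :
    Vd p n (liftP c ρ S z) ∧ gD p n (liftP c ρ S z) ∈ gS p n S := by
  obtain ⟨h1, h2, -⟩ := hC c (colT c ρ (oneP c)) (colT c ρ z) (ran (u1 c)) (oneP c) S h
  rw [h.gD_one, inv_one, one_mul] at h2
  exact ⟨h1, h2⟩

theorem lift (hC : S_QCOS p n) (h : Ok p n c) (hσ : Hom ρ (gS p n S) σ) (z : V)
    (hz : ∃ g ∈ gS p n S, σ g = mV p n z) : σ (gD p n (liftP c ρ S z)) = mV p n z := by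
  have := (hC c (colT c ρ (oneP c)) (colT c ρ z) (ran (u1 c)) (oneP c) S h).2.2
    (fun i => Qa hσ (ixD n i)) fun i g => ∀ β, σ g β (ixD n i) = mV p n z β (ixD n i)
  simp only [h.gD_one, one_mul] at this
  obtain ⟨g, hg, e⟩ := hz
  refine Matrix.ext fun β α => ixD_val α ▸ this (fun i hi => ⟨tst h hσ ((lt h).1 hi), idx h hσ _,
    fun x u hu k => ?_, fun u hu k w hw => ?_⟩) ⟨g, hg, fun i _ β => by rw [e]⟩ _
    ((lt h).2 α.2) β
  · rw [col_iff h _ _ ((lt h).1 hi), hσ.val x u hu k]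
  · simp only [← k]
    exact key hσ _ hu hw

end QFIXz

open QFIXz in
theorem s_QFIX (p n : ℕ) [Fact p.Prime] (hQRED : S_QRED p n) (hQSUBS : S_QSUBS p n)
    (hQCOS : S_QCOS p n) : S_QFIX p n := by
  intro c S h
  refine ⟨fun ρ σ hσ => ⟨fix hQSUBS h hσ, ker hQSUBS h hσ, lift hQCOS h hσ, fun W hW =>
    ⟨{g | ∃ x ∈ kerP c ρ S ++ W.map (liftP c ρ S), gD p n x = g}, (hQRED c _ h).symm, ?_,
      fun a ha e => ?_, fun w hw => ⟨_, ⟨_, List.mem_append_right _ (List.mem_map_of_mem hw), rfl⟩,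
        lift hQCOS h hσ w (hW w hw)⟩⟩⟩, lift0 hQCOS h, fun x g _ e => ?_⟩
  · rintro _ ⟨x, hx, rfl⟩
    rcases List.mem_append.1 hx with k | k
    · exact ((ker hQSUBS h hσ _).1 (mem_gS k)).imp_right .inl
    · obtain ⟨w, hw, rfl⟩ := List.mem_map.1 k
      exact ⟨(lift0 hQCOS h ρ w).2, .inr ⟨w, hw, lift hQCOS h hσ w (hW w hw)⟩⟩
  · exact (gS_append _ _).ge (Subgroup.mem_sup_left ((ker hQSUBS h hσ a).2 ⟨ha, e⟩))
  · obtain ⟨h1, h2⟩ := lift0 (S := S) hQCOS h (nv c (u2 c)) x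
    rw [memG, h.meq, h1, e]
    exact ⟨fun k => (Subtype.ext k : _ = g) ▸ h2, fun k =>
      (lift hQCOS h (h.hom_id.mono le_top) x ⟨g, k, e.symm⟩).trans e⟩

end Pool.Agent.P.MP_f1a348_lc.UP
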