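import Pool.Agent.P.MP_f1a348_lc.UP.PIf

namespace Pool.Agent.P.MP_f1a348_lc.UP

open Matrix Module Pool.Agent.P.MP_f1a348_lc.PG
open scoped commutatorElement

namespace QNCLz

theorem fold_inv {α : Type} (f : α → α) (P : ℕ → α → Prop)
    (hs : ∀ i a, P i a → P (i + 1) (f a)) (u : U) :
    ∀ i a, P i a → P (i + u.length) (u.foldl (fun a _ => f a) a) := by
  induction u with
  | nil => exact fun _ _ h => h
  | cons x u ih =>
    intro i a h
    have := ih (i + 1) (f a) (hs i a h)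
    rwa [Nat.add_assoc, Nat.add_comm 1] at this

variable {p n : ℕ} [Fact p.Prime] {c : Cx}

theorem nm_of {H Y : List V}
    (h : ∀ x ∈ H, ∀ y ∈ Y, gD p n x * gD p n y * (gD p n x)⁻¹ ∈ gS p n Y) :
    Nm (gS p n H) (gS p n Y) := by
  have h1 : gS p n H ≤ sg (fun g => ∀ k ∈ gS p n Y, g * k * g⁻¹ ∈ gS p n Y)
      (fun k hk => by simpa using hk) fun a b ha hb k hk => by
        have := ha _ (hb k hk)
        simpa only [_root_.mul_inv_rev, mul_assoc] using this :=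
    gS_le.2 fun x hx k hk =>
      (gS_le (Z := (gS p n Y).comap (MulAut.conj (gD p n x)).toMonoidHom)).2 (h x hx) hk
  exact fun g hg => h1 hg

theorem card_two {A B : SG p n} (h : A ≤ B) (h' : ¬ B ≤ A) : 2 * Nat.card A ≤ Nat.card B := by
  obtain ⟨k, hk⟩ := Subgroup.card_dvd_of_le h
  have h0 : 0 < Nat.card B := Nat.card_pos
  have h1 : k ≠ 1 := fun e =>
    h' (Subgroup.eq_of_le_of_card_ge h (by rw [hk, e, mul_one])).ge
  have h2 : k ≠ 0 := fun e => by rw [hk, e] at h0; exact absurd h0 (by simp)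
  rw [hk, mul_comm]
  exact Nat.mul_le_mul_left _ (by omega)

theorem ncl_eq (hSOL : S_SOL) (hENV : S_ENV p n) (hQRED : S_QRED p n) (h : Ok p n c)
    (H X : List V) : gS p n (ncl c H X) = Ncl (gS p n H) (gS p n X) := by
  obtain ⟨h1, h2, h3⟩ := (hSOL (GG p n)).2.2.2.2.2.2.2.2.2.2.1 (gS p n H) (gS p n X)
  have h4 := fold_inv (fun Y => red c (Y ++ H.flatMap fun x => Y.map (gcj c x)))
    (fun i Y => gS p n X ≤ gS p n Y ∧ gS p n Y ≤ Ncl (gS p n H) (gS p n X) ∧
      (Ncl (gS p n H) (gS p n X) ≤ gS p n Y ∨ 2 ^ i ≤ Nat.card (gS p n Y))) (by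
    rintro i Y ⟨k1, k2, k3⟩
    rw [hQRED c _ h, gS_append]
    refine ⟨k1.trans le_sup_left, sup_le k2 (gS_le.2 fun z hz => ?_), ?_⟩
    · obtain ⟨x, hx, hz⟩ := List.mem_flatMap.1 hz
      obtain ⟨y, hy, rfl⟩ := List.mem_map.1 hz
      rw [h.gD_cj]
      exact h2 _ (mem_gS hx) _ (k2 (mem_gS hy))
    · by_cases e : gS p n Y ⊔ gS p n (H.flatMap fun x => Y.map (gcj c x)) ≤ gS p n Y
      · refine Or.inl ((h3 _ k1 (nm_of fun x hx y hy => ?_)).trans le_sup_left)
        rw [← h.gD_cj]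
        exact e (Subgroup.mem_sup_right
          (mem_gS (List.mem_flatMap.2 ⟨x, hx, List.mem_map_of_mem hy⟩)))
      · refine k3.imp (·.trans le_sup_left) fun k => ?_
        have := card_two le_sup_left e
        omega) (uR c) 0 (red c X) (by
    rw [hQRED c _ h]
    exact ⟨le_rfl, h1, Or.inr Nat.card_pos⟩)
  refine le_antisymm h4.2.1 (h4.2.2.resolve_right fun k => ?_)
  have k1 := (k.trans (Subgroup.card_le_card_group _)).trans hENV.2.2.2.2.2.2
  rw [Nat.zero_add, h.lenR, mul_comm, pow_mul] at k1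
  exact absurd k1 (not_le.2 (Nat.pow_lt_pow_left Nat.lt_two_pow_self (by positivity)))

end QNCLz

theorem s_QNCL (p n : ℕ) [Fact p.Prime] (hSOL : S_SOL) (hOP : S_OP p) (hENV : S_ENV p n)
    (hQRED : S_QRED p n) : S_QNCL p n := by
  intro c H X h
  refine ⟨QNCLz.ncl_eq hSOL hENV hQRED h H X, ?_⟩
  rw [frG, QNCLz.ncl_eq hSOL hENV hQRED h]
  have e : ∀ y, gD p n (pw c (nrm c y) (pp c)) = gD p n y ^ p := fun y =>
    gD_of (by rw [h.pw _ h.hp.le, h.hp, h.nrm, val_pow])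
  obtain ⟨h1, h2, h3⟩ := (hSOL (GG p n)).2.2.2.2.2.2.2.2.2.2.1 (gS p n X)
    (gS p n (X.map (fun y => pw c (nrm c y) (pp c)) ++ X.flatMap fun a => X.map (gcom c a)))
  obtain ⟨-, k2, k3, -⟩ := (hOP (GG p n)).2.1 (gS p n X)
  refine (hOP (GG p n)).2.2.2.2.2 {g | ∃ x ∈ X, gD p n x = g} _
    (h3 _ (gS_le.2 fun z hz => ?_) (k2 _ fun g hg k hk => mul_mem (mul_mem hg hk) (inv_mem hg)))
    h2 ?_ ?_
  · rcases List.mem_append.1 hz with hz | hz
    · obtain ⟨y, hy, rfl⟩ := List.mem_map.1 hz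
      rw [e]
      exact Subgroup.subset_closure (Or.inl ⟨_, mem_gS hy, rfl⟩)
    · obtain ⟨x, hx, hz⟩ := List.mem_flatMap.1 hz
      obtain ⟨y, hy, rfl⟩ := List.mem_map.1 hz
      rw [h.gD_com]
      exact k3 _ (mem_gS hx) _ (mem_gS hy)
  · rintro _ ⟨x, hx, rfl⟩
    rw [← e]
    exact h1 (mem_gS (List.mem_append_left _ (List.mem_map_of_mem hx)))
  · rintro _ ⟨x, hx, rfl⟩ _ ⟨y, hy, rfl⟩
    rw [commutatorElement_def, ← h.gD_com]
    exact h1 (mem_gS (List.mem_append_right _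
      (List.mem_flatMap.2 ⟨x, hx, List.mem_map_of_mem hy⟩)))

theorem s_QENVP (p n : ℕ) [Fact p.Prime] (hENV : S_ENV p n) : S_QENVP p n := by
  intro c S h
  obtain ⟨h1, h2, -, -, -, -, h3⟩ := hENV.1 (gS p n S)
  have h4 := QNCLz.fold_inv
    (fun B => basis c (u2 c) (B ++ S.flatMap fun s => B.map (mmul c (nrm c s))))
    (fun i B => 1 ∈ sp (mat p n) B ∧ sp (mat p n) B ≤ Env (gS p n S) ∧
      (Env (gS p n S) ≤ sp (mat p n) B ∨ i ≤ finrank (ZMod p) (sp (mat p n) B))) (by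
    rintro i B ⟨k1, k2, k3⟩
    rw [(basis_bas h.hp h.d2 _).sp, sp_append]
    refine ⟨Submodule.mem_sup_left k1, sup_le k2 (sp_le.2 fun z hz => ?_), ?_⟩
    · obtain ⟨x, hx, hz⟩ := List.mem_flatMap.1 hz
      obtain ⟨y, hy, rfl⟩ := List.mem_map.1 hz
      show mV p n _ ∈ _
      rw [h.mmul, h.nrm]
      exact h1.mul _ (h2 _ (mem_gS hx)) _ (k2 (mem_sp hy))
    · by_cases e : sp (mat p n) B ⊔ sp (mat p n) (S.flatMap fun s => B.map (mmul c (nrm c s))) ≤
          sp (mat p n) B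
      · have k4 : gS p n S ≤ UG (sp (mat p n) B) := gS_le.2 fun x hx y hy =>
          (sp_le (W := (sp (mat p n) B).comap (LinearMap.mulLeft (ZMod p) (gD p n x).1))).2
            (fun z hz => by
              show (gD p n x).1 * mV p n z ∈ sp (mat p n) B
              rw [← h.nrm, ← h.mmul]
              exact e (Submodule.mem_sup_right
                (mem_sp (List.mem_flatMap.2 ⟨x, hx, List.mem_map_of_mem hz⟩)))) hy
        refine Or.inl (((h3 _).2 fun g hg => ?_).trans le_sup_left)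
        simpa using mem_UG.1 (k4 hg) 1 k1
      · exact k3.imp (·.trans le_sup_left) fun k => k.trans_lt
          (Submodule.finrank_lt_finrank_of_lt (lt_of_le_not_ge le_sup_left e))) (u2 c) 0 [oneP c]
    ⟨h.oneP ▸ mem_sp List.mem_cons_self, sp_le.2 fun x hx => by
      show mV p n x ∈ _
      rw [List.mem_singleton.1 hx, h.oneP]; exact h1.one, Or.inr (Nat.zero_le _)⟩
  refine le_antisymm h4.2.1 (h4.2.2.elim id fun k => le_top.trans (Eq.ge ?_))
  refine Submodule.eq_top_of_finrank_eq (le_antisymm (Submodule.finrank_le _) (le_trans ?_ k))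
  rw [Nat.zero_add, h.len2, Module.finrank_matrix]
  simp

end Pool.Agent.P.MP_f1a348_lc.UP
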