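import Pool.Agent.P.MP_f1a348_lc.UP.PIf
import Pool.Agent.P.MP_f1a348_lc.GI.Sims

namespace Pool.Agent.P.MP_f1a348_lc.UP

open Matrix Module Pool.Agent.P.MP_f1a348_lc.PG
open scoped commutatorElement

namespace QREDz

variable {p n : ℕ} [Fact p.Prime] {c : Cx}

scoped instance act : MulAction (GG p n) (Vec p n) where
  smul g v := g.1 *ᵥ v
  one_smul v := Matrix.one_mulVec v
  mul_smul g k v := (Matrix.mulVec_mulVec v g.1 k.1).symm

theorem smul_def (g : GG p n) (v : Vec p n) : g • v = g.1 *ᵥ v := rfl

/-- both lists read as group elements -/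
noncomputable def mp (p n : ℕ) (st : List V × List V) : List (GG p n) × List (GG p n) :=
  (st.1.map (gD p n), st.2.map (gD p n))

theorem tr_in (h : Ok p n c) (b : V) (st : List V × List V) (g : V) :
    mp p n (simsIn c b st g) = GI.simsIn (vV p n b) (mp p n st) (gD p n g) := by
  have e : (fun r => isz c (u1 c) (vsub c (u1 c) (mvec c (nrm c r) b) (mvec c (nrm c g) b))) =
      (fun r : GG p n => r • vV p n b == gD p n g • vV p n b) ∘ gD p n := by
    funext r
    rw [Bool.eq_iff_iff, isz_iff h.hp h.d1, dv_vsub h.hp h.d1, sub_eq_zero, Function.comp,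
      beq_iff_eq, smul_def, smul_def, ← h.nrm, ← h.nrm, ← h.mvec, ← h.mvec]
  rw [simsIn, GI.simsIn, e, mp, mp, List.find?_map]
  cases st.1.find? ((fun r : GG p n => r • vV p n b == gD p n g • vV p n b) ∘ gD p n) with
  | none => simp [h.gD_nrm]
  | some r => simp [h.gD_div]

theorem tr_fold (h : Ok p n c) (b : V) (S : List V) : ∀ st : List V × List V,
    mp p n (S.foldl (simsIn c b) st) = (S.map (gD p n)).foldl (GI.simsIn (vV p n b)) (mp p n st) := by
  induction S with
  | nil => exact fun _ => rfl
  | cons g S ih => intro st; rw [List.foldl_cons, ih, tr_in h]; rfl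

theorem tr_step (h : Ok p n c) (st : List V × List V) (b : V) :
    mp p n (simsStep c st b) = GI.simsStep (mp p n st) (vV p n b) := by
  have e := tr_fold h b st.2 ([], [])
  rw [simsStep, GI.simsStep, simsFold]
  have e2 := congrArg Prod.snd e
  refine Prod.ext ?_ e2
  show List.map _ _ = _
  rw [List.map_append]
  exact congrArg (· ++ st.1.map (gD p n)) (congrArg Prod.fst e)

theorem tr_out (h : Ok p n c) (B : List V) : ∀ st : List V × List V,
    mp p n (B.foldl (simsStep c) st) = (B.map (vV p n)).foldl GI.simsStep (mp p n st) := by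
  induction B with
  | nil => exact fun _ => rfl
  | cons b B ih => intro st; rw [List.foldl_cons, ih, tr_step h]; rfl

theorem tr_red (h : Ok p n c) (S : List V) : (red c S).map (gD p n) =
    GI.sims c.2.2 ((units c (u1 c)).map (vV p n)) (S.map (gD p n)) := by
  have e := congrArg Prod.fst (tr_out h (units c (u1 c)) ([], S))
  have e1 : gD p n ∘ nrm c = gD p n := funext h.gD_nrm
  rw [red, GI.sims, List.map_map, e1, List.map_take]
  exact congrArg _ e

end QREDz

open QREDz in
theorem s_QRED (p n : ℕ) [Fact p.Prime] : S_QRED p n := by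
  intro c S h
  have h1 : 1 < p := (Fact.out : p.Prime).one_lt
  rw [gS_eq_gen, gS_eq_gen, tr_red h]
  refine GI.simsLemma _ _ _ _ _ (p ^ (2 * n + 1)) (fun u _ hu => Subtype.ext ?_)
    (fun b _ => ⟨Finset.univ, by simp [ZMod.card], fun _ _ => Finset.mem_univ _⟩) ?_
  · refine Matrix.ext_of_mulVec_single fun a => ?_
    have := hu (Pi.single a 1) (by
      rw [← h.unit1, units, h.ran1]
      exact List.mem_map_of_mem (List.mem_map_of_mem (List.mem_map_of_mem (List.mem_finRange a))))
    exact this.trans (Matrix.one_mulVec _).symm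
  · rw [List.length_map, units, h.ran1, List.length_map, List.length_map, List.length_finRange]
    refine le_trans ?_ (h.pow_le' le_rfl)
    rw [two_mul (2 * n + 1), pow_add p (2 * n + 1)]
    exact Nat.mul_le_mul_right _ (Nat.lt_pow_self h1).le

end Pool.Agent.P.MP_f1a348_lc.UP
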