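import Pool.Agent.P.MP_f1a348_lc.UP.Iface

/-! The radical and the block diagonal part. -/

namespace Pool.Agent.P.MP_f1a348_lc.UP

open Matrix Module Pool.Agent.P.MP_f1a348_lc.PG
open scoped commutatorElement

namespace RADz

variable {p n : ℕ} {ℓ : Ix n → ℕ}

theorem nil (h : Lab ℓ) {z : Mat p n} (hz : Tri ℓ z) (h0 : gr ℓ z = 0) : z ^ (2 * n + 1) = 0 := by
  have key : ∀ k α β, (z ^ k) α β ≠ 0 → ℓ α + k ≤ ℓ β := by
    intro k
    induction k with
    | zero => exact fun α β e => (Tri.one α β (by simpa using e)).1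
    | succ k ih =>
      intro α β e
      rw [pow_succ] at e
      obtain ⟨γ, h1, h2⟩ := exists_of_mul_ne e
      have a := ih _ _ h1
      have b := (hz _ _ h2).1
      have c : ℓ γ ≠ ℓ β := fun c => h2 (by simpa [c] using congrFun (congrFun h0 γ) β)
      omega
  ext α β
  by_contra e
  have := key _ _ _ e
  have := h.le β
  omega

end RADz

theorem s_RAD (p n : ℕ) [Fact p.Prime] (hENV : S_ENV p n) : S_RAD p n := by
  intro R f ℓ hR hℓ hT
  obtain ⟨-, hf, -, hr, -⟩ := hENV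
  have hm : ∀ x ∈ R, ∀ y ∈ R, gr ℓ (fr f (x * y)) = gr ℓ (fr f x) * gr ℓ (fr f y) :=
    fun x hx y hy => by rw [(hf f x y).1, gr_mul (hT x hx) (hT y hy)]
  have hp : ∀ (x : Mat p n) k, fr f (x ^ k) = fr f x ^ k := fun x k => by
    induction k with
    | zero => simpa using (hf f 1 1).2.2.1
    | succ k ih => rw [pow_succ, (hf f _ _).1, ih, pow_succ]
  have hA : Alg ℓ (gB R f ℓ) := by
    refine ⟨⟨1, hR.one, ?_⟩, ?_, ?_, ?_⟩
    · rw [LinearMap.comp_apply, (hf f 1 1).2.2.1, gr_one]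
    · rintro _ ⟨x, hx, rfl⟩ _ ⟨y, hy, rfl⟩
      exact ⟨x * y, hR.mul x hx y hy, hm x hx y hy⟩
    · rintro _ ⟨x, hx, rfl⟩
      exact ⟨st x, hR.star x hx, by simp only [LinearMap.comp_apply, (hf f x x).2.1, gr_st hℓ]⟩
    · rintro _ ⟨x, -, rfl⟩
      exact dg_gr _
  refine ⟨hA, fun x hx h0 => ⟨hx, fun y hy => ⟨2 * n + 1, ?_⟩⟩, fun hC => ⟨⟨hℓ, hA, hC.sim⟩, ?_⟩⟩
  · have := RADz.nil hℓ (hT _ (hR.mul x hx y hy)) (by rw [hm x hx y hy, h0, zero_mul])
    rw [← (hf f ((x * y) ^ (2 * n + 1)) 1).2.2.2.1, ← mul_inv_cancel f,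
      (hf f _ 1).2.2.2.2.1, hp, this, map_zero]
  · intro x hx
    ext α β
    by_contra e
    have hv : (Pi.single β 1 : Vec p n) ∈ Vb ℓ β := single_mem_Vb rfl 1
    obtain ⟨_, ⟨y, hy, rfl⟩, h1⟩ := hC.sim β _ ((dg_gr (fr f x)).mulVec_mem hv)
      (fun h => e (by simpa using congrFun h α)) _ hv
    obtain ⟨k, hk⟩ := (((hr R hR).2.1 x hx y hy).1).2 1 hR.one
    rw [LinearMap.comp_apply, Matrix.mulVec_mulVec, ← hm y hy x hx.1] at h1
    have h2 : ∀ j, gr ℓ (fr f (y * x)) ^ j *ᵥ (Pi.single β 1 : Vec p n) = Pi.single β 1 := by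
      intro j
      induction j with
      | zero => rw [pow_zero, Matrix.one_mulVec]
      | succ j ih => rw [pow_succ, ← Matrix.mulVec_mulVec, h1, ih]
    have h3 := h2 k
    rw [mul_one] at hk
    rw [← gr_pow (hT _ (hR.mul y hy x hx.1)), ← hp, hk, map_zero, map_zero, Matrix.zero_mulVec] at h3
    simpa using congrFun h3 β

end Pool.Agent.P.MP_f1a348_lc.UP
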