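import Pool.Agent.P.MP_f1a348_lc.UP.Iface

/-!
Project UP, task RB: the action on one block.
-/

namespace Pool.Agent.P.MP_f1a348_lc.UP

open Matrix Module Pool.Agent.P.MP_f1a348_lc.PG
open scoped commutatorElement

namespace RBz

variable {p n : ℕ} [Fact p.Prime] {ℓ : Ix n → ℕ} {f : GG p n} {α : Ix n}

theorem ext_v {A B : Mat p n} (h : ∀ v, A *ᵥ v = B *ᵥ v) : A = B :=
  Matrix.toLin'.injective (LinearMap.ext h)

theorem mem_v (α : Ix n) (x : Mat p n) (v : Vec p n) : (pr ℓ α * x) *ᵥ v ∈ Vb ℓ α :=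
  mulVec_mulVec v (pr ℓ α) x ▸ pr_mulVec_mem α _

theorem mulv (hSEC : S_SEC p n) (hl : Lab ℓ) {g h : GG p n}
    (hg : g ∈ Stb (sL f ℓ α) ⊓ Stb (sH f ℓ α)) (hh : h ∈ Stb (sL f ℓ α) ⊓ Stb (sH f ℓ α))
    {v : Vec p n} (hv : v ∈ Vb ℓ α) : (pr ℓ α * fr f (g * h).1) *ᵥ v =
      (pr ℓ α * fr f g.1) *ᵥ ((pr ℓ α * fr f h.1) *ᵥ v) := by
  obtain ⟨-, -, h3, -, -, h6, -⟩ := hSEC.1 f ℓ α hl
  have a1 := hg.1 _ (h6 h.1 hh.2 v hv)
  have a2 := h6 g.1 hg.2 _ (mem_v α (fr f h.1) v)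
  have a3 := h6 (g * h).1 (mul_mem hg hh).2 v hv
  refine sub_eq_zero.1 ((h3 _ (sub_mem (mem_v α _ v) (mem_v α _ _))).2 ?_)
  have := sub_mem (add_mem a1 a2) a3
  rw [mulVec_sub, val_mul, ← mulVec_mulVec (f.1 *ᵥ v)] at this
  rw [mulVec_sub, val_mul]
  convert this using 1
  abel

theorem gr_pr (x : Mat p n) : gr ℓ x * pr ℓ α = pr ℓ α * x * pr ℓ α := by
  ext β γ
  simp only [mul_pr_apply, pr_mul_apply, gr, LinearMap.coe_mk, AddHom.coe_mk, of_apply]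
  split_ifs <;> simp_all

theorem loc_eq (hENV : S_ENV p n) (g : GG p n) : loc f ℓ {β | ℓ β = ℓ α} g.1 =
    pr ℓ α * fr f g.1 * pr ℓ α + (1 - pr ℓ α) := by
  have e : (eS {β | ℓ β = ℓ α} : Mat p n) = pr ℓ α := by
    unfold eS pr
    congr 1
    funext β
    simp
  have h1 := ((hENV.2.1 f g.1 g.1).2.2.2.2.2.1 g.2.1.dg_l0).2
  change eS _ * gr ℓ (fr f g.1) * eS _ + fr f g.1 (c0 n) (c0 n) • (1 - eS _) = _
  rw [e, h1, g.2.2.2, one_smul, mul_assoc, gr_pr, ← mul_assoc, ← mul_assoc, pr_mul_pr]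

theorem rb_one {x : Mat p n} : rb f ℓ α x = 1 ↔ pr ℓ α * fr f x * pr ℓ α = pr ℓ α := by
  refine ⟨fun h => ext_v fun v => ?_, fun h => LinearMap.ext fun v => Subtype.ext ?_⟩
  · rw [← mulVec_mulVec]
    exact congrArg Subtype.val (LinearMap.congr_fun h ⟨_, pr_mulVec_mem α v⟩)
  · change (pr ℓ α * fr f x) *ᵥ v.1 = v.1
    rw [← mem_Vb_iff.1 v.2, mulVec_mulVec, h]

end RBz

open RBz in
theorem s_RB (p n : ℕ) [Fact p.Prime] (hENV : S_ENV p n) (hSEC : S_SEC p n) : S_RB p n := by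
  intro f ℓ α hl
  have h7 := (hSEC.1 f ℓ α hl).2.2.2.2.2.2.1
  refine ⟨fun _ _ => rfl, fun Z hZ => ⟨⟨?_, fun a ha b hb => ?_⟩, fun g hg => ?_⟩,
    fun g hg => ⟨?_, fun h hh => ?_⟩, fun Z hZ U hU => ?_, ?_, finrank_Vb α⟩
  · rw [rb_one, val_one, (hENV.2.1 f 1 1).2.2.1, mul_one, pr_mul_pr]
  · exact LinearMap.ext fun v => Subtype.ext (mulv hSEC hl (hZ ha) (hZ hb) v.2)
  · rw [h7 g (hZ hg).1 (hZ hg).2, rb_one]
  · rw [h7 g hg.1 hg.2, loc_eq hENV, add_sub_left_comm, add_eq_left, sub_eq_zero]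
  · have e : pr ℓ α * fr f (g * h).1 * pr ℓ α =
        pr ℓ α * fr f g.1 * (pr ℓ α * fr f h.1 * pr ℓ α) := ext_v fun v => by
      rw [← mulVec_mulVec, mulv hSEC hl hg hh (pr_mulVec_mem α v), mulVec_mulVec, mulVec_mulVec,
        mul_assoc]
    have e2 : ∀ x : Mat p n, pr ℓ α * (pr ℓ α * x) = pr ℓ α * x := fun x => by
      rw [← mul_assoc, pr_mul_pr]
    rw [loc_eq hENV, loc_eq hENV, loc_eq hENV, e]
    simp only [add_mul, mul_add, sub_mul, mul_sub, mul_assoc, pr_mul_pr, e2, mul_one, one_mul]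
    abel
  · refine or_iff_not_imp_left.2 fun h0 => eq_top_iff.2 fun y _ => ?_
    obtain ⟨x, hx, h1⟩ := (Submodule.ne_bot_iff _).1 h0
    obtain ⟨_, ⟨z, hz, rfl⟩, e⟩ := hZ.sim α x.1 x.2 (fun e => h1 (Subtype.ext e)) y.1 y.2
    have h2 : rb f ℓ α z x = y := Subtype.ext (by
      change (pr ℓ α * fr f z) *ᵥ x.1 = y.1
      rw [← e, ← mem_Vb_iff.1 x.2, mulVec_mulVec, mulVec_mulVec, ← gr_pr]
      rfl)
    rw [← h2]
    clear e h2
    induction hz using Submodule.span_induction with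
    | mem z hz =>
      obtain ⟨g, hg, rfl⟩ := hz
      exact hU g hg x hx
    | zero =>
      convert U.zero_mem using 1
      exact Subtype.ext (by simp [rb])
    | add a b _ _ ha hb =>
      convert U.add_mem ha hb using 1
      exact Subtype.ext (by simp [rb, mul_add])
    | smul c a _ ha =>
      convert U.smul_mem c ha using 1
      exact Subtype.ext (by simp [rb])
  · exact Module.nontrivial_of_finrank_pos (R := ZMod p) (finrank_Vb (p := p) α ▸ nb_pos ℓ α)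

end Pool.Agent.P.MP_f1a348_lc.UP
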