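import Pool.Agent.P.MP_f1a348_lc.UP.Iface

/-! An algebra with simple blocks is regular; its two-sided ideals. -/

namespace Pool.Agent.P.MP_f1a348_lc.UP

open Matrix Module Pool.Agent.P.MP_f1a348_lc.PG
open scoped commutatorElement

namespace REGz

variable {p n : ℕ} [Fact p.Prime] {ℓ : Ix n → ℕ} {B : Sub p n}

theorem compl (h : Str ℓ B) {W : VS p n} (hW : Stab B W) : ∃ W', Stab B W' ∧ IsCompl W W' := by
  obtain ⟨W1, ⟨h1, h2⟩, hmax⟩ := set_has_maximal_iff_noetherian.2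
    (inferInstance : IsNoetherian (ZMod p) (Vec p n))
    {W1 : VS p n | Stab B W1 ∧ Disjoint W W1} ⟨⊥, stab_bot, disjoint_bot_right⟩
  refine ⟨W1, h1, h2, codisjoint_iff.2 (eq_top_iff.2 fun x _ => mem_of_blocks h.lab fun a => ?_)⟩
  have hx := pr_mulVec_mem (ℓ := ℓ) a x
  generalize pr ℓ a *ᵥ x = x at hx
  by_contra e
  refine hmax (W1 ⊔ orb (Com B) x)
    ⟨h1.sup (stab_orb x), Submodule.disjoint_def.2 fun w hw hw' => ?_⟩
    (lt_of_le_of_ne le_sup_left fun e2 =>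
      e (Submodule.mem_sup_right (e2 ▸ Submodule.mem_sup_right (self_mem_orb x))))
  obtain ⟨u, hu, v, hv, rfl⟩ := Submodule.mem_sup.1 hw'
  by_cases c : v = 0
  · rw [c, add_zero] at hw ⊢
    exact Submodule.disjoint_def.1 h2 u hw hu
  · refine absurd (mem_of_orb h (hW.sup h1) hx hv c ?_) e
    have := sub_mem (Submodule.mem_sup_left hw : u + v ∈ W ⊔ W1) (Submodule.mem_sup_right hu)
    rwa [add_sub_cancel_left] at this

theorem reg (h : Str ℓ B) {x : Mat p n} (hx : x ∈ B) : ∃ y ∈ B, x * y * x = x := by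
  have s1 : Stab B (LinearMap.ker x.mulVecLin) := fun C hC w hw => by
    have hw' : x *ᵥ w = 0 := hw
    show x *ᵥ (C *ᵥ w) = 0
    rw [← com_mulVec hC hx, hw', mulVec_zero]
  have s2 : Stab B (im x) := by
    rintro C hC _ ⟨w, rfl⟩
    exact ⟨C *ᵥ w, (com_mulVec hC hx w).symm⟩
  obtain ⟨K, k1, k2⟩ := compl h s1
  obtain ⟨J, j1, j2⟩ := compl h s2
  obtain ⟨σ, -, a1, a2, -, a4⟩ := proj_mem h k2.symm k1 s1
  obtain ⟨ρ, hρ, b1, -, -, b4⟩ := proj_mem h j2 s2 j1
  choose u hu using fun β : Ix n => b4 (Pi.single β 1)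
  let D : Mat p n := Matrix.of fun α β => u β α
  have e1 : x * D = ρ := by
    ext α β
    have := congrFun (hu β) α
    simpa [Matrix.mul_apply, Matrix.mulVec, dotProduct, D, Pi.single_apply] using this
  have e2 : x * σ = x := mat_ext fun v => by
    obtain ⟨k, hk, k', hk', rfl⟩ :=
      Submodule.mem_sup.1 (k2.sup_eq_top ▸ Submodule.mem_top (x := v))
    have hk0 : x *ᵥ k = 0 := hk
    rw [← mulVec_mulVec, mulVec_add, a2 k hk, a1 k' hk', mulVec_add, mulVec_add, hk0, mulVec_zero]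
  have e3 : x * (σ * D) = ρ := by rw [← mul_assoc, e2, e1]
  have e4 : ∀ v, (σ * D) *ᵥ v ∈ K := fun v => by
    rw [← mulVec_mulVec]
    exact a4 _
  generalize σ * D = y at e3 e4
  refine ⟨y, dc h fun C hC => mat_ext fun v => sub_eq_zero.1 ?_, ?_⟩
  · refine Submodule.disjoint_def.1 k2.disjoint _ ?_ ?_
    · show x *ᵥ _ = 0
      rw [mulVec_sub, mulVec_mulVec, mulVec_mulVec, ← mul_assoc, ← mul_assoc, e3, ← hC x hx,
        mul_assoc, e3, hC ρ hρ, sub_self]
    · rw [← mulVec_mulVec, ← mulVec_mulVec]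
      exact sub_mem (e4 _) (k1 C hC _ (e4 _))
  · rw [e3]
    exact mat_ext fun v => by rw [← mulVec_mulVec, b1 (x *ᵥ v) ⟨v, rfl⟩]

/-- a two-sided ideal has a right unit -/
theorem unit (h : Str ℓ B) {J : Sub p n} (hle : J ≤ B) (hJ : ∀ b ∈ B, ∀ z ∈ J, b * z ∈ J)
    (hJ' : ∀ b ∈ B, ∀ z ∈ J, z * b ∈ J) : ∃ e ∈ J, ∀ z ∈ J, z * (1 - e) = 0 := by
  obtain ⟨_, ⟨e, he, e1, rfl⟩, hmin⟩ := IsArtinian.set_has_minimal
    {W : VS p n | ∃ e ∈ J, e * e = e ∧ LinearMap.ker e.mulVecLin = W}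
    ⟨_, 0, zero_mem _, by simp, rfl⟩
  refine ⟨e, he, fun z hz => ?_⟩
  have ht : z * (1 - e) ∈ J := hJ' _ (sub_mem h.alg.one (hle he)) z hz
  have t0 : z * (1 - e) * e = 0 := by rw [mul_assoc, sub_mul, one_mul, e1, sub_self, mul_zero]
  generalize z * (1 - e) = t at ht t0
  obtain ⟨s, hs, e2⟩ := reg h (hle ht)
  have hg : s * t ∈ J := hJ s hs t ht
  have g0 : s * t * e = 0 := by rw [mul_assoc, t0, mul_zero]
  have g1 : s * t * (s * t) = s * t := by rw [mul_assoc, ← mul_assoc t, e2]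
  have g2 : t * (s * t) = t := by rw [← mul_assoc, e2]
  generalize s * t = g at hg g0 g1 g2
  have f1 : e * (e + g - e * g) = e := by
    rw [mul_sub, mul_add, ← mul_assoc, e1, add_sub_cancel_right]
  have f2 : g * (e + g - e * g) = g := by
    rw [mul_sub, mul_add, ← mul_assoc, g0, g1, zero_mul, zero_add, sub_zero]
  have f3 : (e + g - e * g) * (e + g - e * g) = e + g - e * g := by
    rw [sub_mul, add_mul, mul_assoc, f1, f2]
  have hf : e + g - e * g ∈ J := sub_mem (add_mem he hg) (hJ e (hle he) g hg)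
  generalize e + g - e * g = f at f1 f2 f3 hf
  have k1 : LinearMap.ker f.mulVecLin ≤ LinearMap.ker e.mulVecLin := fun v hv => by
    have hv' : f *ᵥ v = 0 := hv
    show e *ᵥ v = 0
    rw [← f1, ← mulVec_mulVec, hv', mulVec_zero]
  have k2 := k1.eq_of_not_lt (hmin _ ⟨f, hf, f3, rfl⟩)
  have k3 : f * (1 - e) = 0 := mat_ext fun v => by
    have hv : (1 - e) *ᵥ v ∈ LinearMap.ker e.mulVecLin := by
      show e *ᵥ _ = 0
      rw [mulVec_mulVec, mul_sub, mul_one, e1, sub_self, zero_mulVec]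
    rw [← k2] at hv
    rw [← mulVec_mulVec, zero_mulVec]
    exact hv
  have k4 : g = 0 := by
    have : g * (1 - e) = 0 := by rw [← f2, mul_assoc, k3, mul_zero]
    rwa [mul_sub, g0, mul_one, sub_zero] at this
  rw [← g2, k4, mul_zero]

end REGz

open Classical in
theorem s_REG (p n : ℕ) [Fact p.Prime] : S_REG p n := by
  intro ℓ B h
  refine ⟨fun x hx => REGz.reg h hx, fun x hx a ha => ?_⟩
  set J := Submodule.span (ZMod p) {z | ∃ b ∈ B, ∃ b' ∈ B, z = b * x * b'} with hJ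
  have j1 : J ≤ B := Submodule.span_le.2 (by
    rintro _ ⟨b, hb, b', hb', rfl⟩
    exact h.alg.mul _ (h.alg.mul _ hb _ hx) _ hb')
  have j2 : ∀ b ∈ B, ∀ z ∈ J, b * z ∈ J := fun b hb z hz => by
    refine (Submodule.span_le.2 ?_ : J ≤ J.comap (LinearMap.mulLeft (ZMod p) b)) hz
    rintro _ ⟨c, hc, c', hc', rfl⟩
    exact Submodule.subset_span ⟨b * c, h.alg.mul _ hb _ hc, c', hc', by simp [mul_assoc]⟩
  have j3 : ∀ b ∈ B, ∀ z ∈ J, z * b ∈ J := fun b hb z hz => by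
    refine (Submodule.span_le.2 ?_ : J ≤ J.comap (LinearMap.mulRight (ZMod p) b)) hz
    rintro _ ⟨c, hc, c', hc', rfl⟩
    exact Submodule.subset_span ⟨c, hc, c' * b, h.alg.mul _ hc' _ hb, by simp [mul_assoc]⟩
  obtain ⟨e, he, e1⟩ := REGz.unit h j1 j2 j3
  have m1 : ec ℓ B a ∈ B := diagonal_mem h fun α β c =>
    if_congr (not_iff_not.1 ⟨fun t => cb_trans h t c, fun t => cb_trans h t (cb_symm h c)⟩) rfl rfl
  have m2 : ec ℓ B a * (1 - e) = 0 := by
    have d := h.alg.dg _ (sub_mem h.alg.one (j1 he))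
    ext α β
    rw [ec, diagonal_mul]
    split_ifs with c
    · simp
    obtain ⟨C, hC, c0⟩ := exists_cb_ne c
    obtain ⟨D, hD, c1, -⟩ := schur h hC c0
    obtain ⟨w, hw⟩ : ∃ w, x *ᵥ (pr ℓ α *ᵥ w) ≠ 0 := by
      by_contra t
      push Not at t
      have t' : x * pr ℓ α = 0 := mat_ext fun w => by rw [← mulVec_mulVec, t, zero_mulVec]
      exact ha (by rw [← c1, ← mul_assoc, ← hC.1 x hx, ← cb_left hD, mul_assoc, ← mul_assoc x, t',
        zero_mul, mul_zero])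
    have z : pr ℓ α * (1 - e) = 0 := mat_ext fun v => by
      by_contra t
      rw [zero_mulVec, ← mulVec_mulVec] at t
      obtain ⟨b, hb, t'⟩ := h.sim α _ (pr_mulVec_mem α _) t _ (pr_mulVec_mem α w)
      have q := e1 _ (Submodule.subset_span ⟨1, h.alg.one, b, hb, rfl⟩)
      apply hw
      rw [← t', mulVec_mulVec, mulVec_mulVec, mulVec_mulVec, mul_assoc, d.comm_pr, ← mul_assoc,
        ← one_mul x, q, zero_mul, zero_mulVec]
    have := congrFun (congrFun z α) β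
    rw [pr_mul_apply, if_pos rfl] at this
    rw [one_mul, this]
  rw [mul_sub, mul_one, sub_eq_zero] at m2
  rw [m2]
  exact j2 _ m1 e he

end Pool.Agent.P.MP_f1a348_lc.UP
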