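import Pool.Agent.P.MP_f1a348_lc.UP.Iface

/-!
Project UP, task SCH: the lemma of Schur.
-/

namespace Pool.Agent.P.MP_f1a348_lc.UP

open Matrix Module Pool.Agent.P.MP_f1a348_lc.PG
open scoped commutatorElement

namespace SCHz

variable {p : ℕ} [Fact p.Prime] {Γ W : Type} [Group Γ] [AddCommGroup W] [Module (ZMod p) W]
  [Finite W] {K : Subgroup Γ} {σ : Γ → Module.End (ZMod p) W}

theorem unit (h : PX.Irr K σ) {z : Module.End (ZMod p) W} (hz : z ∈ PX.Cm (PX.Env p K σ))
    (h0 : z ≠ 0) : IsUnit z := by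
  have := (h (LinearMap.ker z) fun g hg x hx => by
    have e := LinearMap.congr_fun (hz (σ g) (Submodule.subset_span ⟨g, hg, rfl⟩)) x
    rw [Module.End.mul_apply, Module.End.mul_apply, LinearMap.mem_ker.1 hx, map_zero] at e
    exact e).resolve_right fun e => h0 (LinearMap.ker_eq_top.1 e)
  exact (Module.End.isUnit_iff z).2 (Finite.injective_iff_bijective.1 (LinearMap.ker_eq_bot.1 this))

theorem div {Z : Submodule (ZMod p) (Module.End (ZMod p) W)} (h1 : 1 ∈ Z)
    (hm : ∀ y ∈ Z, ∀ z ∈ Z, y * z ∈ Z) (hu : ∀ z ∈ Z, z ≠ 0 → IsUnit z) : PX.Div Z 1 := by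
  refine ⟨h1, fun z _ => one_mul z, fun z _ => mul_one z, hm, fun z hz h0 => ?_⟩
  have : Finite (Module.End (ZMod p) W) := Finite.of_injective _ DFunLike.coe_injective
  obtain ⟨u, rfl⟩ := hu z hz h0
  obtain ⟨k, hk, e⟩ := (isOfFinOrder_of_finite u).exists_pow_eq_one
  obtain ⟨k, rfl⟩ := Nat.exists_eq_succ_of_ne_zero hk.ne'
  refine ⟨u ^ k, ?_, by rw [← pow_succ, ← Units.val_pow_eq_pow_val, e, Units.val_one]⟩
  clear hk e
  induction k with
  | zero => rwa [pow_zero]
  | succ k ih => rw [pow_succ]; exact hm _ ih _ hz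

omit [Finite W]

theorem conj {H : Subgroup Γ} (hH : PX.Rp H σ) (hK : K ≤ H) (hn : Nm H K) {h : Γ} (hh : h ∈ H)
    {z : Module.End (ZMod p) W} (hz : z ∈ PX.Env p K σ) : σ h * z * σ h⁻¹ ∈ PX.Env p K σ := by
  induction hz using Submodule.span_induction with
  | mem x hx =>
    obtain ⟨a, ha, rfl⟩ := hx
    rw [← hH.mul _ hh _ (hK ha), ← hH.mul _ (mul_mem hh (hK ha)) _ (inv_mem hh)]
    exact Submodule.subset_span ⟨_, hn h hh a ha, rfl⟩
  | zero => simp
  | add x y _ _ a b => rw [mul_add, add_mul]; exact add_mem a b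
  | smul c x _ a => rw [mul_smul_comm, smul_mul_assoc]; exact Submodule.smul_mem _ c a

end SCHz

theorem s_SCH (p : ℕ) [Fact p.Prime] : S_SCH p := by
  intro Γ W _ _ _ _ K σ hK
  refine ⟨fun h => SCHz.div (fun b _ => by simp) (fun y hy z hz b hb => ?_)
    fun z hz => SCHz.unit h hz, fun Z hZ => ?_, fun h hc => SCHz.div
      (Submodule.subset_span ⟨1, one_mem _, hK.one⟩) (fun y hy z hz => ?_)
      fun z hz => SCHz.unit h fun b hb => ?_,
    fun H hH hl hn h hh => ⟨fun z => SCHz.conj hH hl hn hh, fun z hz b hb => ?_⟩⟩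
  · rw [mul_assoc, hz b hb, ← mul_assoc, hy b hb, mul_assoc]
  · rcases subsingleton_or_nontrivial W with _ | _
    · rw [finrank_zero_of_subsingleton]
      exact Nat.zero_le _
    obtain ⟨w, hw⟩ := exists_ne (0 : W)
    refine LinearMap.finrank_le_finrank_of_injective
      (f := LinearMap.applyₗ w ∘ₗ Z.subtype) ((injective_iff_map_eq_zero _).2 fun z e => ?_)
    by_contra h0
    obtain ⟨y, -, hy⟩ := hZ.inv z z.2 fun k => h0 (Subtype.ext k)
    have := LinearMap.congr_fun hy w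
    rw [Module.End.mul_apply, show z.1 w = 0 from e, map_zero] at this
    exact hw this.symm
  · refine Submodule.span_induction₂ (p := fun y z _ _ => y * z ∈ PX.Env p K σ) ?_ (by simp)
      (by simp) (fun _ _ _ _ _ _ a b => by rw [add_mul]; exact add_mem a b)
      (fun _ _ _ _ _ _ a b => by rw [mul_add]; exact add_mem a b)
      (fun c _ _ _ _ a => by rw [smul_mul_assoc]; exact Submodule.smul_mem _ c a)
      (fun c _ _ _ _ a => by rw [mul_smul_comm]; exact Submodule.smul_mem _ c a) hy hz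
    rintro _ _ ⟨a, ha, rfl⟩ ⟨b, hb, rfl⟩
    exact Submodule.subset_span ⟨_, mul_mem ha hb, hK.mul a ha b hb⟩
  · refine Submodule.span_induction₂ (p := fun y z _ _ => y * z = z * y) ?_ (by simp)
      (by simp) (fun _ _ _ _ _ _ a b => by rw [add_mul, mul_add, a, b])
      (fun _ _ _ _ _ _ a b => by rw [add_mul, mul_add, a, b])
      (fun c _ _ _ _ a => by rw [smul_mul_assoc, mul_smul_comm, a])
      (fun c _ _ _ _ a => by rw [smul_mul_assoc, mul_smul_comm, a]) hz hb
    rintro _ _ ⟨a, ha, rfl⟩ ⟨b, hb, rfl⟩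
    exact hc a ha b hb
  · have e1 : σ h * σ h⁻¹ = 1 := by rw [← hH.mul _ hh _ (inv_mem hh), mul_inv_cancel, hH.one]
    have e := hz _ (SCHz.conj hH hl hn (inv_mem hh) hb)
    rw [inv_inv] at e
    calc _ = σ h * (z * (σ h⁻¹ * b * σ h)) * σ h⁻¹ := by simp only [mul_assoc, e1, mul_one]
      _ = _ := by rw [e]; simp only [← mul_assoc, e1, one_mul]

end Pool.Agent.P.MP_f1a348_lc.UP
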