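import Pool.Agent.P.MP_f1a348_lc.UP.Iface

/-! Sections of a frame. -/

namespace Pool.Agent.P.MP_f1a348_lc.UP

open Matrix Module Pool.Agent.P.MP_f1a348_lc.PG
open scoped commutatorElement

namespace SECz

variable {p n : ℕ} {ℓ ℓ' : Ix n → ℕ}

/-- `w` vanishes at the labels from `k` on -/
def Z (ℓ : Ix n → ℕ) (k : ℕ) (w : Vec p n) : Prop := ∀ β, k ≤ ℓ β → w β = 0

theorem Z.mul {k : ℕ} {w : Vec p n} (h : Z ℓ k w) {x : Mat p n} (hx : Tri ℓ x) :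
    Z ℓ k (x *ᵥ w) := fun β e => by
  rw [Matrix.mulVec, dotProduct]
  refine Finset.sum_eq_zero fun γ _ => ?_
  by_cases h1 : x β γ = 0
  · rw [h1, zero_mul]
  · rw [h γ (e.trans (hx _ _ h1).1), mul_zero]

theorem memL (h : Lab ℓ) {f : GG p n} {α : Ix n} {u : Vec p n} :
    u ∈ sL f ℓ α ↔ Z ℓ (ℓ α) (st f.1 *ᵥ u) :=
  forall_congr' fun β => imp_congr_left ⟨h.can α β, fun e => e.trans (h.le β)⟩

theorem memH (h : Lab ℓ) {f : GG p n} {α : Ix n} {u : Vec p n} :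
    u ∈ sH f ℓ α ↔ Z ℓ (ℓ α + 1) (st f.1 *ᵥ u) :=
  forall_congr' fun β => imp_congr_left (by
    have h1 := h.block α β
    have h2 := h.can α β
    have h3 := h.le β
    omega)

theorem un (f : GG p n) : Un f.1 := f.2.2.1

theorem fr_eq (f : GG p n) (x : Mat p n) : fr f x = st f.1 * x * f.1 := by
  rw [fr, cj_apply, st_st]

theorem st_act (f : GG p n) (x : Mat p n) (u : Vec p n) :
    st f.1 *ᵥ (x *ᵥ u) = fr f x *ᵥ (st f.1 *ᵥ u) := by
  rw [fr_eq, ← mulVec_mulVec, ← mulVec_mulVec, (un f).mulVec_st]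

theorem le (h : Lab ℓ) (f : GG p n) (α : Ix n) : sL f ℓ α ≤ sH f ℓ α := fun _ hu =>
  (memH h).2 fun β e => (memL h).1 hu β (by omega)

theorem blk (h : Lab ℓ) (f : GG p n) (α : Ix n) (v : Vec p n) (hv : v ∈ Vb ℓ α) :
    f.1 *ᵥ v ∈ sH f ℓ α ∧ (f.1 *ᵥ v ∈ sL f ℓ α → v = 0) := by
  rw [memH h, memL h, (un f).st_mulVec]
  refine ⟨fun β e => hv β (by omega), fun e => funext fun β => ?_⟩
  by_cases h1 : ℓ β = ℓ α
  · exact e β h1.ge
  · exact hv β h1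

theorem red (h : Lab ℓ) (f : GG p n) (α : Ix n) (u : Vec p n) (hu : u ∈ sH f ℓ α) :
    u - f.1 *ᵥ (pr ℓ α *ᵥ (st f.1 *ᵥ u)) ∈ sL f ℓ α := by
  rw [memL h, mulVec_sub, (un f).st_mulVec]
  intro β e
  rw [Pi.sub_apply, pr_mulVec]
  split_ifs with h1
  · exact sub_self _
  · rw [sub_zero]; exact (memH h).1 hu β (by omega)

theorem dim [Fact p.Prime] (h : Lab ℓ) (f : GG p n) (α : Ix n) :
    finrank (ZMod p) (sH f ℓ α) = finrank (ZMod p) (sL f ℓ α) + nb ℓ α := by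
  have inj : Function.Injective f.1.mulVecLin := fun x y e => by
    rw [← (un f).st_mulVec x, ← (un f).st_mulVec y]
    exact congrArg _ e
  have h1 : sL f ℓ α ⊔ (Vb ℓ α).map f.1.mulVecLin = sH f ℓ α := by
    refine le_antisymm (sup_le (le h f α) ?_) fun u hu => ?_
    · rintro _ ⟨v, hv, rfl⟩
      exact (blk h f α v hv).1
    · exact Submodule.mem_sup.2 ⟨_, red h f α u hu, _, ⟨_, pr_mulVec_mem α _, rfl⟩,
        sub_add_cancel _ _⟩
  have h2 : sL f ℓ α ⊓ (Vb ℓ α).map f.1.mulVecLin = ⊥ := by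
    rw [eq_bot_iff]
    rintro _ ⟨hu, v, hv, rfl⟩
    rw [(blk h f α v hv).2 hu, map_zero]
    exact zero_mem _
  have h3 := Submodule.finrank_sup_add_finrank_inf_eq (sL f ℓ α) ((Vb ℓ α).map f.1.mulVecLin)
  rw [h1, h2, finrank_bot, add_zero, ← (Submodule.equivMapOfInjective _ inj _).finrank_eq,
    finrank_Vb] at h3
  exact h3

theorem tri (h : Lab ℓ) (f : GG p n) (α : Ix n) (x : Mat p n) (hx : Tri ℓ (fr f x)) :
    (∀ u ∈ sL f ℓ α, x *ᵥ u ∈ sL f ℓ α) ∧ ∀ u ∈ sH f ℓ α, x *ᵥ u ∈ sH f ℓ α :=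
  ⟨fun u hu => by rw [memL h, st_act]; exact ((memL h).1 hu).mul hx,
    fun u hu => by rw [memH h, st_act]; exact ((memH h).1 hu).mul hx⟩

theorem act (h : Lab ℓ) (f : GG p n) (α : Ix n) (x : Mat p n)
    (hx : ∀ u ∈ sH f ℓ α, x *ᵥ u ∈ sH f ℓ α) (v : Vec p n) (hv : v ∈ Vb ℓ α) :
    x *ᵥ (f.1 *ᵥ v) - f.1 *ᵥ ((pr ℓ α * fr f x) *ᵥ v) ∈ sL f ℓ α := by
  have h1 := red h f α _ (hx _ (blk h f α v hv).1)
  rwa [st_act, (un f).st_mulVec, mulVec_mulVec v (pr ℓ α)] at h1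

variable [Fact p.Prime]

theorem ks (h : Lab ℓ) (f : GG p n) (α : Ix n) (g : GG p n) (h1 : g ∈ Stb (sL f ℓ α))
    (h2 : g ∈ Stb (sH f ℓ α)) : g ∈ KS f ℓ α ↔ pr ℓ α * fr f g.1 * pr ℓ α = pr ℓ α := by
  rw [KS, mem_Ker]
  constructor
  · rintro ⟨-, e⟩
    refine mat_ext fun x => funext fun β => ?_
    have e1 := (memL h).1 (e _ (blk h f α _ (pr_mulVec_mem α x)).1) β
    rw [mulVec_sub, st_act, (un f).st_mulVec, Pi.sub_apply, sub_eq_zero] at e1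
    rw [← mulVec_mulVec, ← mulVec_mulVec, pr_mulVec]
    split_ifs with e2
    · exact e1 e2.ge
    · rw [pr_mulVec, if_neg e2]
  · refine fun e => ⟨h1, fun u hu => ?_⟩
    have e1 := red h f α u hu
    have e2 := act h f α g.1 h2 _ (pr_mulVec_mem α (st f.1 *ᵥ u))
    rw [mulVec_mulVec _ (pr ℓ α * fr f g.1), e] at e2
    have e3 := add_mem (sub_mem (h1 _ e1) e1) e2
    rw [mulVec_sub] at e3
    convert e3 using 1
    abel

theorem dual (h : Lab ℓ) (f : GG p n) (α : Ix n) (g : GG p n) (hg : Tri ℓ (fr f g.1)) :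
    g ∈ KS f ℓ α.rev ↔ g ∈ KS f ℓ α := by
  have h1 : g⁻¹ ∈ Stb (sL f ℓ α) := inv_mem (tri h f α _ hg).1
  have h2 : g⁻¹ ∈ Stb (sH f ℓ α) := inv_mem (tri h f α _ hg).2
  have h3 : pr ℓ α.rev * fr f g.1 * pr ℓ α.rev = st (pr ℓ α * fr f (g⁻¹).1 * pr ℓ α) := by
    simp only [fr_eq, st_mul, st_pr h, st_st, val_inv, mul_assoc]
  rw [ks h f _ g (tri h f _ _ hg).1 (tri h f _ _ hg).2, ← inv_mem_iff (H := KS f ℓ α),
    ks h f α _ h1 h2, h3, ← st_pr h]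
  exact ⟨fun e => by rw [← st_st (_ * _), e, st_st], fun e => by rw [e]⟩

theorem stb {L U W : VS p n} (h1 : L ≤ W) (h2 : W ≤ U) : Ker L U ≤ Stb W := fun g hg u hu => by
  have := add_mem (h1 (hg.2 u (h2 hu))) hu
  rwa [sub_add_cancel] at this

theorem nm (L U : VS p n) : Nm (Stb L ⊓ Stb U) (Ker L U) := fun g hg k hk => by
  have h1 : g⁻¹ ∈ Stb L := inv_mem hg.1
  have h2 : g⁻¹ ∈ Stb U := inv_mem hg.2
  rw [mem_Ker]
  simp only [val_mul, ← mulVec_mulVec]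
  refine ⟨fun u hu => hg.1 _ (hk.1 _ (h1 u hu)), fun u hu => ?_⟩
  have h3 := hg.1 _ (hk.2 _ (h2 u hu))
  rwa [mulVec_sub, val_inv, (un g).mulVec_st] at h3

omit [Fact p.Prime]

theorem zz (h : Lab ℓ) {f f' : GG p n} (hd : Dg ℓ (f⁻¹ * f').1) {k : ℕ} {u : Vec p n}
    (hu : Z ℓ k (st f.1 *ᵥ u)) : Z ℓ k (st f'.1 *ᵥ u) := by
  have h1 := hu.mul ((hd.st h).tri h)
  rwa [val_mul, val_inv, st_mul, st_st, ← mulVec_mulVec, (un f).mulVec_st] at h1

theorem tt (h : Lab ℓ) {f f' : GG p n} (hd : Dg ℓ (f⁻¹ * f').1) {x : Mat p n}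
    (hx : Tri ℓ (fr f x)) : Tri ℓ (fr f' x) := by
  have h1 := (((hd.st h).tri h).mul hx).mul (hd.tri h)
  have h2 : ∀ y : Mat p n, f.1 * (st f.1 * y) = y := fun y => by
    rw [← mul_assoc, (un f).mul_st, one_mul]
  simpa only [val_mul, val_inv, st_mul, st_st, fr_eq, mul_assoc, h2] using h1

theorem dsym (h : Lab ℓ) {f f' : GG p n} (hd : Dg ℓ (f⁻¹ * f').1) : Dg ℓ (f'⁻¹ * f).1 := by
  have h1 := hd.st h
  rwa [← val_inv, _root_.mul_inv_rev, inv_inv] at h1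

theorem drefl (f : GG p n) : Dg ℓ (f⁻¹ * f).1 := by
  rw [inv_mul_cancel]; exact Dg.one

end SECz

open SECz in
theorem s_SEC (p n : ℕ) [Fact p.Prime] : S_SEC p n := by
  refine ⟨fun f ℓ α h => ⟨le h f α, dim h f α, blk h f α, red h f α, tri h f α, act h f α,
    ks h f α, dual h f α⟩, fun L U L' U' h1 h2 h3 g hg => ⟨stb h1 (h2.trans h3) hg,
    fun u hu => h1 (hg.2 u (h3 hu))⟩, fun L U W => stb, nm, fun f f' ℓ ℓ' h => ?_,
    fun f ℓ h => ⟨⟨h, h, fun _ _ e => e, drefl f⟩, lab_l0, h, fun α β e => ?_, ?_⟩⟩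
  · have hl := h.lab
    have hs := dsym hl h.dg
    have he : ∀ α β, ℓ' α = ℓ' β → ℓ α = ℓ β := fun α β e =>
      le_antisymm (h.fine _ _ e.le) (h.fine _ _ e.ge)
    refine ⟨⟨hl, hl, fun _ _ e => e, h.dg⟩, ⟨hl, h.lab', h.fine, drefl _⟩,
      ⟨hl, hl, fun _ _ e => e, hs⟩, fun α => ⟨?_, ?_, fun u hu => ?_, fun u hu => ?_⟩,
      fun x => ⟨tt hl hs, tt hl h.dg⟩,
      fun x hx α β e => ⟨h.fine _ _ (hx α β e).1, (hx α β e).2⟩, he,
      fun α => Finset.card_le_card fun β => ?_, fun f'' ℓ'' h' =>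
        ⟨hl, h'.lab', fun α β e => h.fine _ _ (h'.fine _ _ e), ?_⟩⟩
    · ext u; rw [memL hl, memL hl]; exact ⟨zz hl hs, zz hl h.dg⟩
    · ext u; rw [memH hl, memH hl]; exact ⟨zz hl hs, zz hl h.dg⟩
    · exact (memL h.lab').2 fun β e => zz hl h.dg ((memL hl).1 hu) β (h.fine _ _ e)
    · refine (memH hl).2 (zz hl hs fun β e => (memH h.lab').1 hu β ?_)
      have := h.fine β α
      omega
    · simp only [Finset.mem_filter, Finset.mem_univ, true_and]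
      exact he β α
    · have h1 := h.dg.mul fun α β e => he α β (h'.dg α β e)
      rwa [← val_mul, mul_assoc, mul_inv_cancel_left] at h1
  · rcases le_total α β with h1 | h1
    · exact lab_l0.mono h1
    · have h2 := le_antisymm e (h.mono h1)
      have a := h.lt_c0 h2
      have b := h.c0_lt h2
      simp only [Fin.lt_def, c0_val] at a b
      simp only [l0]; split_ifs <;> omega
  · rw [inv_one, one_mul]; exact f.2.1.dg_l0

end Pool.Agent.P.MP_f1a348_lc.UP
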