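import Pool.Agent.P.MP_f1a348_lc.UP.Iface

/-! Project UP, tasks SOL and KL: abstract groups. -/

namespace Pool.Agent.P.MP_f1a348_lc.UP

open Matrix Module Pool.Agent.P.MP_f1a348_lc.PG
open scoped commutatorElement

namespace SOLz

variable {Γ : Type} [Group Γ]

theorem der_le (k : ℕ) (Y : Subgroup Γ) : der k Y ≤ Y := by
  induction k with
  | zero => exact le_rfl
  | succ k ih =>
    exact Subgroup.commutator_le.2 fun a ha b hb => ih (mul_mem (mul_mem (mul_mem ha hb)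
      (inv_mem ha)) (inv_mem hb))

theorem der_mono (k : ℕ) (Y Y' : Subgroup Γ) (h : Y ≤ Y') : der k Y ≤ der k Y' := by
  induction k with
  | zero => exact h
  | succ k ih => exact Subgroup.commutator_mono ih ih

theorem der_add (k l : ℕ) (Y : Subgroup Γ) : der (k + l) Y = der l (der k Y) := by
  induction l with
  | zero => rfl
  | succ l ih => rw [← add_assoc, der, der, ih]

theorem nm_iff {H N : Subgroup Γ} :
    Nm H N ↔ ∀ g ∈ H, N ≤ N.comap (MulAut.conj g).toMonoidHom := Iff.rfl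

theorem nm_der (k : ℕ) (H Y : Subgroup Γ) (h : Nm H Y) : Nm H (der k Y) := by
  induction k with
  | zero => exact h
  | succ k ih =>
    refine nm_iff.2 fun g hg => Subgroup.commutator_le.2 fun a ha b hb => ?_
    rw [Subgroup.mem_comap, map_commutatorElement]
    exact Subgroup.commutator_mem_commutator (ih g hg a ha) (ih g hg b hb)

/-- the product of `A` and a subgroup normalised by `A` -/
def prd {A N : Subgroup Γ} (h : Nm A N) : Subgroup Γ where
  carrier := {y | ∃ x ∈ A, x⁻¹ * y ∈ N}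
  one_mem' := ⟨1, one_mem _, by simp⟩
  mul_mem' := by
    rintro y y' ⟨x, hx, h1⟩ ⟨x', hx', h2⟩
    refine ⟨x * x', mul_mem hx hx', ?_⟩
    convert mul_mem (h _ (inv_mem hx') _ h1) h2 using 1
    group
  inv_mem' := by
    rintro y ⟨x, hx, h1⟩
    refine ⟨x⁻¹, inv_mem hx, ?_⟩
    convert h _ hx _ (inv_mem h1) using 1
    group

theorem der_prd {Y A N : Subgroup Γ} (h : ∀ y ∈ Y, ∃ x ∈ A, x⁻¹ * y ∈ N) (hA : Nm A N) (k : ℕ) :
    ∀ y ∈ der k Y, ∃ x ∈ der k A, x⁻¹ * y ∈ N := by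
  induction k with
  | zero => exact h
  | succ k ih =>
    refine (Subgroup.commutator_le (H₃ := prd (A := der (k + 1) A)
      fun g hg => hA g (der_le _ _ hg))).2 fun y hy y' hy' => ?_
    obtain ⟨x, hx, h1⟩ := ih y hy
    obtain ⟨x', hx', h2⟩ := ih y' hy'
    refine ⟨_, Subgroup.commutator_mem_commutator hx hx', ?_⟩
    have a := der_le _ _ hx
    have a' := der_le _ _ hx'
    convert hA _ a' _ (mul_mem (hA _ a _ (mul_mem (mul_mem (hA _ (inv_mem a') _ h1) h2)
      (inv_mem h1))) (inv_mem h2)) using 1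
    simp only [commutatorElement_def]
    group

theorem gen {S : Set Γ} {N : Subgroup Γ} (h : Nm (Subgroup.closure S) N) {a : Γ}
    (ha : ∀ b ∈ S, ⁅a, b⁆ ∈ N) : ∀ b ∈ Subgroup.closure S, ⁅a, b⁆ ∈ N := by
  intro b hb
  induction hb using Subgroup.closure_induction with
  | mem b hb => exact ha b hb
  | one => simp
  | mul b c hb _ h1 h2 =>
    convert mul_mem h1 (h b hb _ h2) using 1
    simp only [commutatorElement_def]
    group
  | inv b hb h1 =>
    convert h _ (inv_mem hb) _ (inv_mem h1) using 1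
    simp only [commutatorElement_def]
    group

theorem idx {T : Type} [Finite T] {H Q : Subgroup Γ} (f : H → T)
    (hf : ∀ a b : H, f a = f b → (a : Γ)⁻¹ * b ∈ Q) : Q.relIndex H ≤ Nat.card T :=
  Nat.card_le_card_of_injective (fun q : H ⧸ Q.subgroupOf H => f q.out) fun q r e => by
    rw [← q.out_eq', ← r.out_eq', QuotientGroup.eq]
    exact hf _ _ e

end SOLz

open SOLz

theorem s_SOL : S_SOL := by
  intro Γ _
  refine ⟨der_le, der_mono, der_add, nm_der, fun Y N h => ⟨0, h⟩,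
    fun Y N h => ⟨1, Subgroup.commutator_le.2 h⟩,
    fun Y Y' N N' h1 h2 ⟨k, h⟩ => ⟨k, ((der_mono k _ _ h1).trans h).trans h2⟩,
    fun Y M N ⟨k, h1⟩ ⟨l, h2⟩ => ⟨k + l, ?_⟩, fun Y A M N h1 h2 ⟨k, h3⟩ => ⟨k, fun y hy => ?_⟩,
    fun S N h1 h2 a ha b hb => ?_, fun H X => ⟨fun x hx => ?_, ?_, fun N h1 h2 => ?_⟩,
    fun H M N h1 h2 => ⟨fun g hg x hx => ⟨h1 g hg x hx.1, h2 g hg x hx.2⟩, ?_⟩,
    fun H H' N h1 h2 g hg => h2 g (h1 hg),
    fun H g hg x hx => mul_mem (mul_mem hg hx) (inv_mem hg), fun R H Q h => ?_⟩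
  · rw [der_add]
    exact (der_mono l _ _ (le_inf (der_le k Y) h1)).trans h2
  · obtain ⟨x, hx, h4⟩ := der_prd h1 h2 k y hy
    rw [← mul_inv_cancel_left x y]
    exact mul_mem (Subgroup.mem_sup_right (h3 hx)) (Subgroup.mem_sup_left h4)
  · refine gen h1 (fun c hc => ?_) b hb
    rw [← commutatorElement_inv]
    exact inv_mem (gen h1 (h2 c hc) a ha)
  · exact Subgroup.subset_closure ⟨1, one_mem _, x, hx, by simp⟩
  · refine nm_iff.2 fun g hg => (Subgroup.closure_le _).2 ?_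
    rintro _ ⟨h, hh, x, hx, rfl⟩
    exact Subgroup.subset_closure ⟨g * h, mul_mem hg hh, x, hx, by simp [mul_assoc]⟩
  · refine (Subgroup.closure_le _).2 ?_
    rintro _ ⟨h, hh, x, hx, rfl⟩
    exact h2 h hh x (h1 hx)
  · exact nm_iff.2 fun g hg => sup_le (fun x hx => Subgroup.mem_sup_left (h1 g hg x hx))
      fun x hx => Subgroup.mem_sup_right (h2 g hg x hx)
  · have h1 : ∀ g : H, ∃ i : Fin R.length, (R.get i)⁻¹ * g ∈ Q := fun g => by
      obtain ⟨t, ht, h2⟩ := h g g.2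
      obtain ⟨i, rfl⟩ := List.get_of_mem ht
      exact ⟨i, h2⟩
    choose f hf using h1
    refine (idx f fun a b e => ?_).trans_eq (Nat.card_fin _)
    convert mul_mem (inv_mem (hf a)) (hf b) using 1
    rw [e]
    group

theorem s_KL : S_KL := by
  intro Γ _ _ D K A P hD hA hP
  have hK : Nm P K := fun g hg => hD g (hP hg)
  refine ⟨⟨A ⊓ prd hK, fun a => Iff.rfl⟩, fun S Z hZ hS h1 h2 a => ?_, fun P' Q h1 h2 => ?_,
    fun A' A'' _ h2 => ?_⟩
  · have h3 : Subgroup.closure S ≤ A ⊓ prd hK := (Subgroup.closure_le _).2 hS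
    refine ⟨fun h => h3 h, fun ⟨ha, g, hg, h4⟩ => ?_⟩
    have h5 : P ≤ prd (A := Subgroup.closure S) fun g hg => hD g (hA (h3 hg).1) := by
      refine hZ.ge.trans ((Subgroup.closure_le _).2 fun z hz => ?_)
      obtain ⟨b, hb, h6⟩ := h2 z hz
      exact ⟨b, hb, by simpa using inv_mem h6⟩
    obtain ⟨b, hb, h6⟩ := h5 hg
    rw [← mul_inv_cancel_left b a]
    exact mul_mem hb (h1 ⟨A.mul_mem (A.inv_mem (h3 hb).1) ha, by
      simpa [mul_assoc] using mul_mem h6 h4⟩)
  · choose! g hg h3 using h1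
    refine idx (fun a : A => ((⟨g a, hg a a.2⟩ : P) : P ⧸ P'.subgroupOf P)) fun a b e => ?_
    refine h2 _ (mul_mem (inv_mem a.2) b.2) ((g a)⁻¹ * g b)
      ⟨P.mul_mem (P.inv_mem (hg a a.2)) (hg b b.2),
        Subgroup.mem_subgroupOf.1 (QuotientGroup.eq.1 e)⟩ ?_
    convert mul_mem (hK _ (inv_mem (hg b b.2)) _ (hK _ (hg a a.2) _ (inv_mem (h3 a a.2))))
      (h3 b b.2) using 1
    group
  · have h3 : K ⊔ A' ≤ prd (A := A') fun g hg => hD g (hA (h2 hg)) :=
      sup_le (fun x hx => ⟨1, one_mem _, by simpa using hx⟩) fun x hx => ⟨x, hx, by simp⟩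
    choose g hg h4 using fun a : (A ⊓ (K ⊔ A') : Subgroup Γ) => h3 a.2.2
    refine idx (fun a => ((⟨g a, hg a⟩ : A') : A' ⧸ A''.subgroupOf A')) fun a b e => ?_
    have h5 : (g a)⁻¹ * g b ∈ A'' := Subgroup.mem_subgroupOf.1 (QuotientGroup.eq.1 e)
    convert mul_mem (mul_mem (Subgroup.mem_sup_left (T := A'') (inv_mem (h4 a)))
      (Subgroup.mem_sup_right h5)) (Subgroup.mem_sup_left (h4 b)) using 1
    group

end Pool.Agent.P.MP_f1a348_lc.UP
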