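import Pool.Agent.P.MP_f1a348_lc.UP.Iface

namespace Pool.Agent.P.MP_f1a348_lc.UP

open Matrix Module Pool.Agent.P.MP_f1a348_lc.PG
open scoped commutatorElement

namespace SOLVz

theorem idx_le {G X : Type} [Group G] [Finite X] (S T : Subgroup G) (f : T → X)
    (h : ∀ g g' : T, f g = f g' → (g : G)⁻¹ * g' ∈ S) : S.relIndex T ≤ Nat.card X :=
  Nat.card_le_card_of_injective (fun q : T ⧸ S.subgroupOf T => f q.out) fun q q' e => by
    rw [← q.out_eq', ← q'.out_eq']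
    exact QuotientGroup.eq.mpr (h _ _ e)

theorem idx_step {G : Type} [Group G] [Finite G] (N : Subgroup G) {T L : Subgroup G} (h : T ≤ L) :
    N.relIndex L ≤ N.relIndex T * T.relIndex L := by
  have := Subgroup.relIndex_inf_mul_relIndex N T L
  rw [inf_eq_left.mpr h] at this
  rw [this]
  exact Subgroup.relIndex_le_of_le_left inf_le_left Subgroup.index_ne_zero_of_finite

theorem gens (Q : Type) [Group Q] [Finite Q] :
    ∃ S : Finset Q, Subgroup.closure (S : Set Q) = ⊤ ∧ 2 ^ S.card ≤ Nat.card Q := by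
  classical
  have := Fintype.ofFinite Q
  obtain ⟨S, h1, h2⟩ := Finset.exists_max_image (Finset.univ.filter fun S : Finset Q =>
    2 ^ S.card ≤ Nat.card (Subgroup.closure (S : Set Q))) Finset.card
    ⟨∅, Finset.mem_filter.mpr ⟨Finset.mem_univ _, Nat.card_pos⟩⟩
  have h3 := (Finset.mem_filter.mp h1).2
  refine ⟨S, by_contra fun hne => ?_, h3.trans (Subgroup.card_le_card_group _)⟩
  obtain ⟨x, -, hx⟩ := SetLike.exists_of_lt (lt_top_iff_ne_top.mpr hne)
  have h4 : x ∉ S := fun h => hx (Subgroup.subset_closure h)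
  have h5 : Subgroup.closure (S : Set Q) ≤ Subgroup.closure ((insert x S : Finset Q) : Set Q) :=
    Subgroup.closure_mono (Finset.coe_subset.mpr (Finset.subset_insert x S))
  obtain ⟨c, hc⟩ := Subgroup.card_dvd_of_le h5
  have h6 : 2 ≤ c := by
    by_contra h
    have h7 := Subgroup.eq_of_le_of_card_ge h5
      (hc.trans_le (mul_le_of_le_one_right (Nat.zero_le _) (by omega)))
    exact hx (h7 ▸ Subgroup.subset_closure (Finset.mem_coe.mpr (Finset.mem_insert_self x S)))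
  have := h2 (insert x S) (Finset.mem_filter.mpr ⟨Finset.mem_univ _, by
    rw [Finset.card_insert_of_notMem h4, pow_succ, hc]
    exact Nat.mul_le_mul h3 h6⟩)
  rw [Finset.card_insert_of_notMem h4] at this
  omega

theorem card_hom (Q F : Type) [Group Q] [Finite Q] [Field F] :
    Finite (Q →* F) ∧ Nat.card (Q →* F) ≤ Nat.card Q := by
  have := Fintype.ofFinite Q
  have h := linearIndependent_monoidHom Q F
  have h1 := h.finite
  have := Fintype.ofFinite (Q →* F)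
  exact ⟨h1, by simpa using h.fintype_card_le_finrank⟩

/-- Common eigenvectors for distinct characters are linearly independent. -/
theorem indep {K F A I : Type} [Group K] [Field F] [AddCommGroup A] [Module F A]
    (c : K → A →ₗ[F] A) (χ : I → K →* F) (hχ : Function.Injective χ) (v : I → A)
    (h0 : ∀ i, v i ≠ 0) (hv : ∀ b i, c b (v i) = χ i b • v i) : LinearIndependent F v := by
  refine linearIndependent_iff'.mpr fun s g hg i hi => by_contra fun hne => h0 i ?_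
  refine (Module.forall_dual_apply_eq_zero_iff F _).mp fun φ => ?_
  have := linearIndependent_iff'.mp ((linearIndependent_monoidHom K F).comp χ hχ) s
    (fun j => g j * φ (v j)) (funext fun b => by
      have h1 := congrArg (fun x => φ (c b x)) hg
      simp only [map_sum, map_smul, hv, map_zero, smul_eq_mul] at h1
      rw [Finset.sum_apply, Pi.zero_apply, ← h1]
      exact Finset.sum_congr rfl fun j _ => by
        simp only [Pi.smul_apply, Function.comp_apply, smul_eq_mul]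
        ring) i hi
  exact (mul_eq_zero.mp this).resolve_left hne

end SOLVz

open SOLVz in
theorem s_SOLV (p : ℕ) [Fact p.Prime] (hFLD : PX.S_FLD p) (hFRB : S_FRB p) (hSCH : S_SCH p) :
    PX.S_SOLV p := by
  intro G W _ _ _ _ _ _ H K N σ hR hK hN hD hc hk h1
  have : Finite (Module.End (ZMod p) W) := Finite.of_injective _ DFunLike.coe_injective
  set E := PX.Cm (PX.Env p K σ) with hE
  have il : ∀ h ∈ H, σ h⁻¹ * σ h = 1 := fun h hh => by
    rw [← hR.mul _ (H.inv_mem hh) _ hh, inv_mul_cancel, hR.one]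
  have ir : ∀ h ∈ H, σ h * σ h⁻¹ = 1 := fun h hh => by simpa using il _ (H.inv_mem hh)
  have mE : ∀ z, (∀ a ∈ K, z * σ a = σ a * z) → z ∈ E := fun z h b hb => by
    induction hb using Submodule.span_induction with
    | mem x hx => obtain ⟨a, ha, rfl⟩ := hx; exact h a ha
    | zero => simp
    | add x y _ _ hx hy => rw [mul_add, add_mul, hx, hy]
    | smul r x _ hx => rw [mul_smul_comm, smul_mul_assoc, hx]
  let H2 : Subgroup G :=
    { carrier := {h | h ∈ H ∧ σ h ∈ E}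
      mul_mem' := fun ha hb => ⟨H.mul_mem ha.1 hb.1, hR.mul _ ha.1 _ hb.1 ▸ hD.mul _ ha.2 _ hb.2⟩
      one_mem' := ⟨H.one_mem, hR.one ▸ hD.mem⟩
      inv_mem' := fun {h} hh => ⟨H.inv_mem hh.1, mE _ fun a ha => by
        calc _ = σ h⁻¹ * (σ a * σ h) * σ h⁻¹ := by
              rw [mul_assoc, mul_assoc, ir h hh.1, mul_one]
          _ = _ := by rw [hc a (hK ha) _ hh.2, ← mul_assoc, il h hh.1, one_mul]⟩ }
  have cj : ∀ h ∈ H, ∀ z ∈ H2, σ (h * z * h⁻¹) = σ z := fun h hh z hz => by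
    rw [hR.mul _ (H.mul_mem hh hz.1) _ (H.inv_mem hh), hR.mul _ hh _ hz.1, hc h hh _ hz.2,
      mul_assoc, ir h hh, mul_one]
  have n2 : ∀ h ∈ H, ∀ z ∈ H2, h * z * h⁻¹ ∈ H2 := fun h hh z hz =>
    ⟨H.mul_mem (H.mul_mem hh hz.1) (H.inv_mem hh), cj h hh z hz ▸ hz.2⟩
  have cH : ∀ h ∈ H, ∀ a ∈ H, ⁅h, a⁆ ∈ H := fun h hh a ha =>
    H.mul_mem (H.mul_mem (H.mul_mem hh ha) (H.inv_mem hh)) (H.inv_mem ha)
  have c2 : ∀ h ∈ H, ∀ z ∈ H2, σ ⁅h, z⁆ = 1 := fun h hh z hz => by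
    rw [commutatorElement_def, hR.mul _ (n2 h hh z hz).1 _ (H.inv_mem hz.1), cj h hh z hz,
      ir z hz.1]
  let H1 : Subgroup G :=
    { carrier := {h | h ∈ H ∧ ∀ a ∈ K, ⁅h, a⁆ ∈ H2}
      mul_mem' := fun {g h} hg hh => ⟨H.mul_mem hg.1 hh.1, fun a ha => by
        rw [show ⁅g * h, a⁆ = g * ⁅h, a⁆ * g⁻¹ * ⁅g, a⁆ by group]
        exact H2.mul_mem (n2 g hg.1 _ (hh.2 a ha)) (hg.2 a ha)⟩
      one_mem' := ⟨H.one_mem, fun a _ => by simp⟩
      inv_mem' := fun {h} hh => ⟨H.inv_mem hh.1, fun a ha => by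
        rw [show ⁅h⁻¹, a⁆ = h⁻¹ * ⁅h, a⁆⁻¹ * h⁻¹⁻¹ by group]
        exact n2 _ (H.inv_mem hh.1) _ (H2.inv_mem (hh.2 a ha))⟩ }
  have K1 : K ≤ H1 := fun a ha => ⟨hK ha, fun b hb => ⟨cH a (hK ha) b (hK hb), hk a ha b hb⟩⟩
  have : (H2.subgroupOf K).Normal := ⟨fun z hz a => n2 a (hK a.2) z hz⟩
  let F := E.toSubalgebra hD.mem fun y z hy hz => hD.mul y hy z hz
  have hF : IsField F := ⟨⟨0, 1, zero_ne_one⟩,
    fun y z => Subtype.ext ((hFLD _ E 1 hD).1 _ y.2 _ z.2), fun {z} hz => by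
      obtain ⟨y, hy, e⟩ := hD.inv z z.2 fun e => hz (Subtype.ext e)
      exact ⟨⟨y, hy⟩, Subtype.ext (((hFLD _ E 1 hD).1 _ z.2 _ hy).trans e)⟩⟩
  let := hF.toField
  let ψ : H1 → K →* F := fun g =>
    { toFun := fun a : K => ⟨σ ⁅(g : G), (a : G)⁆, (g.2.2 a a.2).2⟩
      map_one' := Subtype.ext (by
        change σ ⁅(g : G), (1 : G)⁆ = 1
        rw [commutatorElement_one_right, hR.one])
      map_mul' := fun a b : K => Subtype.ext (by
        have e := n2 a (hK a.2) _ (g.2.2 b b.2)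
        change σ ⁅(g : G), (a : G) * b⁆ = σ ⁅(g : G), (a : G)⁆ * σ ⁅(g : G), (b : G)⁆
        rw [show ⁅(g : G), (a : G) * b⁆ =
          ⁅(g : G), (a : G)⁆ * (a * ⁅(g : G), (b : G)⁆ * (a : G)⁻¹) by group,
          hR.mul _ (g.2.2 a a.2).1 _ e.1, cj a (hK a.2) _ (g.2.2 b b.2)]) }
  have e1 : ∀ (g : H1) (a : K), σ g * σ a = (ψ g a : Module.End (ZMod p) W) * (σ a * σ g) :=
    fun g a => by
      change _ = σ ⁅(g : G), (a : G)⁆ * _
      rw [← hR.mul _ g.2.1 _ (hK a.2), ← hR.mul _ (hK a.2) _ g.2.1,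
        ← hR.mul _ (g.2.2 a a.2).1 _ (H.mul_mem (hK a.2) g.2.1)]
      congr 1
      group
  have e2 : ∀ g g' : H1, ψ g = ψ g' → (g : G)⁻¹ * g' ∈ H2 := fun g g' e =>
    ⟨H.mul_mem (H.inv_mem g.2.1) g'.2.1, mE _ fun a ha => by
      have h2 := e1 g ⟨a, ha⟩
      have h3 := e1 g' ⟨a, ha⟩
      rw [← e] at h3
      rw [hR.mul _ (H.inv_mem g.2.1) _ g'.2.1]
      calc _ = σ (g : G)⁻¹ * (ψ g ⟨a, ha⟩ * (σ a * σ g)) * (σ (g : G)⁻¹ * σ g') := by
            rw [mul_assoc, h3]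
            simp only [mul_assoc]
            rw [← mul_assoc (σ g), ir _ g.2.1, one_mul]
        _ = _ := by rw [← h2, ← mul_assoc (σ (g : G)⁻¹), il _ g.2.1, one_mul, ← mul_assoc]⟩
  set D := finrank (ZMod p) W with hDD
  set r := Nat.card (K ⧸ H2.subgroupOf K) with hr
  have r1 : r ≤ D * D := by
    have := Fintype.ofFinite (K ⧸ H2.subgroupOf K)
    have h2 := indep (F := F) (A := Module.End (ZMod p) W) (fun b : K =>
      { toFun := fun x => σ (b : G)⁻¹ * x * σ b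
        map_add' := fun x y => by rw [mul_add, add_mul]
        map_smul' := fun z x => by
          change σ (b : G)⁻¹ * (z.1 * x) * σ b = z.1 * (σ (b : G)⁻¹ * x * σ b)
          rw [← mul_assoc, hc _ (H.inv_mem (hK b.2)) _ z.2]
          simp only [mul_assoc] })
      (fun q : K ⧸ H2.subgroupOf K => ψ ⟨q.out, K1 q.out.2⟩) (fun q q' e => by
        rw [← q.out_eq', ← q'.out_eq']
        exact QuotientGroup.eq.mpr (e2 _ _ e)) (fun q => σ q.out)
      (fun q e => by simpa [e] using il _ (hK q.out.2)) fun b q => by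
        change σ (b : G)⁻¹ * σ q.out * σ b = (ψ ⟨q.out, K1 q.out.2⟩ b).1 * σ q.out
        rw [mul_assoc, e1 ⟨q.out, K1 q.out.2⟩ b, ← mul_assoc,
          hc _ (H.inv_mem (hK b.2)) _ (ψ ⟨q.out, K1 q.out.2⟩ b).2, mul_assoc,
          ← mul_assoc (σ (b : G)⁻¹), il _ (hK b.2), one_mul]
    have h3 := (h2.restrict_scalars' (ZMod p)).fintype_card_le_finrank
    rwa [← Nat.card_eq_fintype_card, Module.finrank_linearMap] at h3
  have b2 : N.relIndex H2 ≤ p ^ D := by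
    refine (idx_le (X := E) N H2 (fun g => ⟨σ g, g.2.2⟩) fun g g' e =>
      h1 _ (H.mul_mem (H.inv_mem g.2.1) g'.2.1) ?_).trans ?_
    · rw [hR.mul _ (H.inv_mem g.2.1) _ g'.2.1, ← (Subtype.mk.inj e : σ g = σ g'), il _ g.2.1]
    · rw [Module.natCard_eq_pow_finrank (K := ZMod p), Nat.card_zmod]
      exact Nat.pow_le_pow_right (Fact.out : p.Prime).pos ((hSCH G W H σ hR).2.1 E hD)
  have b1 : H2.relIndex H1 ≤ r := by
    obtain ⟨_, h2⟩ := card_hom (K ⧸ H2.subgroupOf K) F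
    refine (idx_le H2 H1 (fun g => QuotientGroup.lift (H2.subgroupOf K) (ψ g)
      fun a ha => Subtype.ext (c2 g g.2.1 a ha)) fun g g' e => e2 g g' ?_).trans h2
    exact MonoidHom.ext fun a => DFunLike.congr_fun e (a : K ⧸ H2.subgroupOf K)
  obtain ⟨S, hS, hS2⟩ := gens (K ⧸ H2.subgroupOf K)
  have b0 : H1.relIndex H ≤ r ^ S.card := by
    refine (idx_le (X := S → K ⧸ H2.subgroupOf K) H1 H
      (fun g s => (⟨g * s.1.out * (g : G)⁻¹, hN g g.2 _ s.1.out.2⟩ : K)) fun g g' e => ?_).trans_eq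
      (by rw [Nat.card_fun, Nat.card_eq_finsetCard])
    have hh := H.mul_mem (H.inv_mem g.2) g'.2
    let T : Subgroup K :=
      { carrier := {a | ⁅(g : G)⁻¹ * g', (a : G)⁆ ∈ H2}
        mul_mem' := fun {a b} ha hb => by
          change ⁅(g : G)⁻¹ * g', (a : G) * b⁆ ∈ H2
          rw [show ⁅(g : G)⁻¹ * g', (a : G) * b⁆ =
            ⁅(g : G)⁻¹ * g', (a : G)⁆ * (a * ⁅(g : G)⁻¹ * g', (b : G)⁆ * (a : G)⁻¹) by group]
          exact H2.mul_mem ha (n2 _ (hK a.2) _ hb)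
        one_mem' := by simp
        inv_mem' := fun {a} ha => by
          change ⁅(g : G)⁻¹ * g', (a : G)⁻¹⁆ ∈ H2
          rw [show ⁅(g : G)⁻¹ * g', (a : G)⁻¹⁆ =
            (a : G)⁻¹ * ⁅(g : G)⁻¹ * g', (a : G)⁆⁻¹ * (a : G)⁻¹⁻¹ by group]
          exact n2 _ (H.inv_mem (hK a.2)) _ (H2.inv_mem ha) }
    have hT : Subgroup.closure (S : Set (K ⧸ H2.subgroupOf K)) ≤ T.map (QuotientGroup.mk' _) :=
      (Subgroup.closure_le _).mpr fun s hs => ⟨s.out, by
        have h2 : ((g : G) * s.out * (g : G)⁻¹)⁻¹ * (g' * s.out * (g' : G)⁻¹) ∈ H2 :=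
          (QuotientGroup.eq (s := H2.subgroupOf K)).mp (congrFun e ⟨s, hs⟩)
        have h3 := n2 _ (H.mul_mem (hK s.out.2) (H.inv_mem g.2)) _ h2
        change ⁅(g : G)⁻¹ * g', (s.out : G)⁆ ∈ H2
        convert h3 using 1
        group, s.out_eq'⟩
    refine ⟨hh, fun a ha => ?_⟩
    obtain ⟨t, ht, e3⟩ := hT (hS ▸ Subgroup.mem_top ((⟨a, ha⟩ : K) : K ⧸ H2.subgroupOf K))
    have h2 : t⁻¹ * ⟨a, ha⟩ ∈ T :=
      ⟨cH _ hh _ (hK (t⁻¹ * ⟨a, ha⟩).2), 
        c2 _ hh _ ((QuotientGroup.eq (s := H2.subgroupOf K) (a := t) (b := ⟨a, ha⟩)).mp e3) ▸ hD.mem⟩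
    have h3 := T.mul_mem ht h2
    rwa [mul_inv_cancel_left] at h3
  have r2 : r ≤ 2 ^ (2 * Nat.size D) := by
    rw [two_mul, pow_add]
    exact r1.trans (Nat.mul_le_mul (Nat.lt_size_self D).le (Nat.lt_size_self D).le)
  have r3 : S.card ≤ 2 * Nat.size D := (Nat.pow_le_pow_iff_right one_lt_two).mp (hS2.trans r2)
  have l2 : H2 ≤ H1 := fun z hz => ⟨hz.1, fun a ha => by
    rw [← commutatorElement_inv]
    exact H2.inv_mem ⟨cH _ (hK ha) _ hz.1, c2 _ (hK ha) _ hz ▸ hD.mem⟩⟩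
  calc N.relIndex H ≤ N.relIndex H2 * H2.relIndex H1 * H1.relIndex H :=
        (idx_step N (T := H1) fun _ h => h.1).trans (Nat.mul_le_mul_right _ (idx_step N l2))
    _ ≤ p ^ D * 2 ^ (2 * Nat.size D) * (2 ^ (2 * Nat.size D)) ^ (2 * Nat.size D) :=
        Nat.mul_le_mul (Nat.mul_le_mul b2 (b1.trans r2)) (b0.trans
          ((Nat.pow_le_pow_left r2 _).trans (Nat.pow_le_pow_right (by positivity) r3)))
    _ = _ := by rw [PX.sml]; ring

end Pool.Agent.P.MP_f1a348_lc.UP
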