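import Pool.Agent.P.MP_f1a348_lc.UP.Iface

namespace Pool.Agent.P.MP_f1a348_lc.UP

open Matrix Module Pool.Agent.P.MP_f1a348_lc.PG
open scoped commutatorElement

namespace SSMz

section gen
variable {R M : Type} [Ring R] [AddCommGroup M] [Module R M] [IsSemisimpleModule R M]

theorem vnr (φ : Module.End R M) : ∃ ψ : Module.End R M, ∀ v, φ (ψ (φ v)) = φ v := by
  obtain ⟨s, hs⟩ := IsSemisimpleModule.lifting_property φ.rangeRestrict
    φ.surjective_rangeRestrict LinearMap.id
  obtain ⟨ψ, hψ⟩ := IsSemisimpleModule.extension_property (LinearMap.range φ).subtype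
    (Submodule.injective_subtype _) s
  refine ⟨ψ, fun v => ?_⟩
  have h1 := LinearMap.congr_fun hψ ⟨φ v, LinearMap.mem_range_self φ v⟩
  have h2 := congrArg Subtype.val (LinearMap.congr_fun hs ⟨φ v, LinearMap.mem_range_self φ v⟩)
  change ψ (φ v) = _ at h1
  rw [h1]
  exact h2

theorem ind (P : M → Prop) (h0 : P 0) (ha : ∀ a b, P a → P b → P (a + b))
    (H : ∀ s : M, (∀ r : R, r • s ≠ 0 → ∃ r' : R, r' • r • s = s) → P s) (v : M) : P v := by
  have hv : v ∈ sSup {m : Submodule R M | IsSimpleModule R m} := by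
    rw [IsSemisimpleModule.sSup_simples_eq_top]; trivial
  rw [sSup_eq_iSup'] at hv
  refine Submodule.iSup_induction _ (motive := P) hv ?_ h0 ha
  rintro ⟨S, hS⟩ s hs
  refine H s fun r h0 => ?_
  have hat : IsAtom S := isSimpleModule_iff_isAtom.1 hS
  have h2 : Submodule.span R {r • s} = S :=
    (hat.le_iff.1 ((Submodule.span_singleton_le_iff_mem _ _).2 (S.smul_mem r hs))).resolve_left
      fun e => h0 (Submodule.span_singleton_eq_bot.1 e)
  have h3 : s ∈ Submodule.span R {r • s} := by rw [h2]; exact hs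
  exact Submodule.mem_span_singleton.1 h3

end gen

variable {p n : ℕ} {A : Sub p n}

/-- an element of the algebra as an element of the ring of endomorphisms -/
noncomputable def el (h : SA A) {b : Mat p n} (hb : b ∈ A) : h.ring :=
  ⟨Matrix.toLin' b, h.mem_ring.2 ⟨b, hb, fun _ => rfl⟩⟩

theorem el_smul (h : SA A) {b : Mat p n} (hb : b ∈ A) (x : Vec p n) : el h hb • x = b *ᵥ x := rfl

theorem smul_eq (h : SA A) (r : h.ring) : ∃ b ∈ A, ∀ x : Vec p n, r • x = b *ᵥ x :=
  h.mem_ring.1 r.2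

/-- an invariant subspace as a submodule -/
def up' (h : SA A) (U : VS p n) (hU : Inv A U) : Submodule h.ring (Vec p n) where
  carrier := U
  add_mem' := add_mem
  zero_mem' := zero_mem _
  smul_mem' r x hx := by
    obtain ⟨b, hb, e⟩ := smul_eq h r
    rw [e]; exact hU b hb x hx

theorem ssm (h : SA A) (hs : SSm A) : IsSemisimpleModule h.ring (Vec p n) := by
  refine (isSemisimpleModule_iff _ _).2 ⟨fun W => ?_⟩
  obtain ⟨U', h1, h2⟩ := hs (W.restrictScalars (ZMod p)) fun x hx u hu =>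
    W.smul_mem (el h hx) hu
  refine ⟨up' h U' h1, ?_, ?_⟩
  · rw [disjoint_iff, eq_bot_iff]
    intro x hx
    have : x ∈ W.restrictScalars (ZMod p) ⊓ U' := hx
    rwa [h2.inf_eq_bot] at this
  · rw [codisjoint_iff, eq_top_iff]
    intro x _
    have : x ∈ W.restrictScalars (ZMod p) ⊔ U' := by rw [h2.sup_eq_top]; trivial
    obtain ⟨a, ha, b, hb, rfl⟩ := Submodule.mem_sup.1 this
    exact Submodule.add_mem_sup ha hb

theorem exists_mat (h : SA A) (φ : Module.End h.ring (Vec p n)) :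
    ∃ C ∈ Com A, ∀ y, C *ᵥ y = φ y := by
  let ψ : Vec p n →ₗ[ZMod p] Vec p n :=
    { toFun := φ
      map_add' := map_add φ
      map_smul' := fun c x => φ.map_smul (algebraMap (ZMod p) h.ring c) x }
  have h1 : ∀ y, LinearMap.toMatrix' ψ *ᵥ y = φ y := fun y =>
    (Matrix.toLin'_apply _ y).symm.trans (by rw [Matrix.toLin'_toMatrix']; rfl)
  refine ⟨LinearMap.toMatrix' ψ, fun b hb => mat_ext fun y => ?_, h1⟩
  rw [← Matrix.mulVec_mulVec, ← Matrix.mulVec_mulVec, h1, h1]
  exact φ.map_smul (el h hb) y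

theorem part1 (h : SA A) (hs : SSm A) : Com (Com A) ≤ A := by
  classical
  intro C hC
  have := ssm h hs
  let f : Module.End (Module.End h.ring (Vec p n)) (Vec p n) :=
    { toFun := fun x => C *ᵥ x
      map_add' := Matrix.mulVec_add C
      map_smul' := fun φ x => by
        obtain ⟨D, h2, h1⟩ := exists_mat h φ
        change C *ᵥ φ x = φ (C *ᵥ x)
        rw [← h1, ← h1, com_mulVec hC h2] }
  obtain ⟨r, hr⟩ := jacobson_density (R := h.ring) (M := Vec p n) f
    (Finset.univ.image fun β : Ix n => (Pi.single β 1 : Vec p n))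
  obtain ⟨b, hb, e⟩ := smul_eq h r
  have : C = b := by
    ext α β
    have h1 := congrFun (hr (Pi.single β 1) (Finset.mem_image_of_mem _ (Finset.mem_univ β))) α
    rw [e] at h1
    simpa [f] using h1
  rw [this]; exact hb

theorem part2 (h : SA A) (hs : SSm A) {x : Mat p n} (hx : x ∈ Rad A) : x = 0 := by
  have := ssm h hs
  refine mat_ext fun v => ?_
  rw [Matrix.zero_mulVec]
  refine ind (R := h.ring) (fun v => x *ᵥ v = 0) (Matrix.mulVec_zero x)
    (fun a b ha hb => by rw [Matrix.mulVec_add, ha, hb, add_zero]) (fun s H => ?_) v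
  by_contra h0
  obtain ⟨r, hr⟩ := H (el h hx.1) h0
  obtain ⟨y, hy, e⟩ := smul_eq h r
  rw [e, el_smul] at hr
  obtain ⟨k, hk⟩ := hx.2 y hy
  have h4 : ∀ j : ℕ, (x * y) ^ j *ᵥ (x *ᵥ s) = x *ᵥ s := fun j => by
    induction j with
    | zero => rw [pow_zero, Matrix.one_mulVec]
    | succ j ih => rw [pow_succ, ← Matrix.mulVec_mulVec, ← Matrix.mulVec_mulVec, hr, ih]
  exact h0 (by rw [← h4 k, hk, Matrix.zero_mulVec])

theorem part3 (h : SA A) (hs : SSm A) {x : Mat p n} (hx : x ∈ Com A) :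
    ∃ y ∈ Com A, x * y * x = x := by
  have := ssm h hs
  let φ : Module.End h.ring (Vec p n) :=
    { toFun := fun v => x *ᵥ v
      map_add' := Matrix.mulVec_add x
      map_smul' := fun r v => by
        obtain ⟨b, hb, e⟩ := smul_eq h r
        rw [RingHom.id_apply, e, e, com_mulVec hx hb] }
  obtain ⟨ψ, hψ⟩ := vnr (R := h.ring) (M := Vec p n) φ
  obtain ⟨y, hy, e⟩ := exists_mat h ψ
  refine ⟨y, hy, mat_ext fun v => ?_⟩
  rw [← Matrix.mulVec_mulVec, ← Matrix.mulVec_mulVec, e]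
  exact hψ v

theorem part4 (hs : SSm A) {L U : VS p n} (hL : Inv A L) (hU : Inv A U) (hle : L ≤ U) :
    ∃ W, Inv A W ∧ W ⊓ L = ⊥ ∧ W ⊔ L = U := by
  obtain ⟨L', h1, h2⟩ := hs L hL
  refine ⟨U ⊓ L', fun x hx u hu => ⟨hU x hx u hu.1, h1 x hx u hu.2⟩, ?_, ?_⟩
  · rw [inf_assoc, inf_comm L', h2.inf_eq_bot, inf_bot_eq]
  · rw [sup_comm, inf_comm, ← sup_inf_assoc_of_le _ hle, h2.sup_eq_top, top_inf_eq]

end SSMz

theorem s_SSM (p n : ℕ) [Fact p.Prime] (hENV : S_ENV p n) : S_SSM p n := by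
  have _ := hENV
  intro A h hs
  exact ⟨SSMz.part1 h hs, fun x hx => SSMz.part2 h hs hx, fun x hx => SSMz.part3 h hs hx,
    fun L U hL hU hle => SSMz.part4 hs hL hU hle⟩

end Pool.Agent.P.MP_f1a348_lc.UP
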