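import Pool.Agent.P.MP_f1a348_lc.UP.Iface
import Pool.Agent.P.MP_f1a348_lc.PG.TSPL

/-! Project UP: a perfect group that is trivial on the steps of a flag is trivial. -/

namespace Pool.Agent.P.MP_f1a348_lc.UP

open Matrix Module Pool.Agent.P.MP_f1a348_lc.PG
open scoped commutatorElement

namespace UNIz

variable {p n : ℕ} [Fact p.Prime] {Z : SG p n}

theorem trans (hZ : PP p Z) {L M U : VS p n} (h1 : Z ≤ Ker L M) (h2 : Z ≤ Ker M U) :
    Z ≤ Ker L U := by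
  refine fun g hg => ⟨(h1 hg).1, fun u hu => ?_⟩
  by_contra hc
  obtain ⟨φ, k1, k2⟩ := L.exists_dual_map_eq_bot_of_notMem hc inferInstance
  have k3 : ∀ x ∈ L, φ x = 0 := fun x hx => by
    have : φ x ∈ L.map φ := ⟨x, hx, rfl⟩
    rwa [k2, Submodule.mem_bot] at this
  refine k1 (hZ (fun z => φ (z.1 *ᵥ u - u)) (fun a ha b hb => ?_) g hg)
  have := k3 _ ((h1 ha).2 _ ((h2 hb).2 u hu))
  rw [← sub_eq_zero, ← this, ← map_add, ← map_sub, val_mul, Matrix.mulVec_sub,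
    Matrix.mulVec_mulVec]
  congr 1
  abel

theorem refl {L : VS p n} (h : Z ≤ Stb L) : Z ≤ Ker L L :=
  fun _ hg => ⟨h hg, fun u hu => sub_mem (h hg u hu) hu⟩

omit [Fact p.Prime] in
theorem cut_mono (f : GG p n) {k k' : ℕ} (h : k ≤ k') : cut f k ≤ cut f k' :=
  fun _ hx β hβ => hx β (h.trans hβ)

end UNIz

theorem s_UNI (p n : ℕ) [Fact p.Prime] (hENV : S_ENV p n) (hSEC : S_SEC p n) : S_UNI p n := by
  intro Z hZ
  obtain ⟨-, -, -, -, e1, e2, -⟩ := hENV.1 Z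
  refine ⟨fun L M U _ _ => UNIz.trans hZ, fun L U hLU hL hU h => ?_,
    fun f f' ℓ ℓ' α hf hT h => ?_⟩
  · induction L using WellFoundedGT.induction with
    | ind L ih =>
      rcases hLU.eq_or_lt with rfl | hlt
      · exact UNIz.refl ((e1 L).1 hL)
      obtain ⟨M, ⟨m1, m2, m3⟩, m4⟩ := wellFounded_lt.has_min
        {M : VS p n | Inv (Env Z) M ∧ L < M ∧ M ≤ U} ⟨U, hU, hlt, le_rfl⟩
      refine UNIz.trans hZ (h L M le_rfl m3 ⟨hL, m1, m2, fun W w1 w2 w3 => ?_⟩)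
        (ih M m2 m3 m1 fun L' U' l1 => h L' U' (m2.le.trans l1))
      exact w2.eq_or_lt.imp Eq.symm fun w4 =>
        w3.eq_or_lt.resolve_right (m4 W ⟨w1, w4, w3.trans m3⟩)
  · obtain ⟨-, -, -, s1, -, s2, s3, -⟩ := hSEC.2.2.2.2.1 f f' ℓ ℓ' hf
    have key : ∀ k, ℓ α ≤ k → k ≤ ℓ α + nb ℓ α → Z ≤ Ker (cut f' (ℓ α)) (cut f' k) := fun k => by
      induction k using Nat.strong_induction_on with
      | _ k ih =>
        intro k1 k2
        rcases k1.eq_or_lt with rfl | k3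
        · exact UNIz.refl fun g hg =>
            ((hSEC.1 f' ℓ α hf.lab).2.2.2.2.1 _ (s2 _ ((e2 f' ℓ').1 hT g hg))).1
        have k4 := SPLx.bound hf.lab α
        let β : Ix n := ⟨k - 1, by omega⟩
        have hβ : β.val = k - 1 := rfl
        have b1 : ℓ β = ℓ α := (hf.lab.block α β).2 (by omega)
        have b2 := (hf.lab'.block β β).1 rfl
        have b3 : ℓ α ≤ ℓ' β := by
          rw [← b1, ← s3 _ _ (hf.lab'.lab_fst β)]
          exact hf.lab.le _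
        exact UNIz.trans hZ (ih (ℓ' β) (by omega) b3 (by omega)) ((h β b1).trans
          (hSEC.2.1 _ _ _ _ le_rfl (UNIz.cut_mono f' (by omega)) (UNIz.cut_mono f' (by omega))))
    rw [KS, ← (s1 α).1, ← (s1 α).2.1]
    exact key _ (Nat.le_add_right _ _) le_rfl

end Pool.Agent.P.MP_f1a348_lc.UP
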