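import Pool.Agent.P.MP_f1a348_lc.UP.PBase

/-!
Project UP: the specifications of the program of the recursion.
-/

namespace Pool.Agent.P.MP_f1a348_lc.UP

open Matrix Module Pool.Agent.P.MP_f1a348_lc.PG
open scoped commutatorElement

set_option linter.unusedSectionVars false

noncomputable section
variable {p n : ℕ} [Fact p.Prime]

/-- bound for the forest of a core -/
def rho0 (p n : ℕ) : ℕ := 4 * p * top n
/-- bound for the growth of forests in one step -/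
def rho (p n : ℕ) : ℕ := 10 * p * top n

def SmF (B : ℕ) (F : List (Rec (GG p n))) : Prop := F.length ≤ B ∧ ∀ r ∈ F, r.1 ≤ B

def PtB (B : ℕ) (π : Fin 3 → Option (Ptr p n)) : Prop := ∀ j r, π j = some r → r.F.length ≤ B

/-- the forests of the state are short -/
def St.Bd (s : St p n) (B : ℕ) : Prop := s.F.length ≤ B ∧ PtB B s.ptr

def St.Sm (s : St p n) (B : ℕ) : Prop := SmF B s.F ∧ ∀ j r, s.ptr j = some r → SmF B r.F

structure AF.Sm (x : AF p n) (B : ℕ) : Prop where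
  s : x.s.Sm B
  k : x.k.Sm B
  F : SmF B x.F
  len : x.todo.length ≤ B
  tag : ∀ q ∈ x.todo, q.1 ≤ B
  acc : SmF B x.acc.F

/-- a good branching -/
def St.GB (s : St p n) (E EG B : ℕ) (b : Brc p n) : Prop :=
  (∃ c EG', s.BrOK E EG b c EG') ∧ b.F.length ≤ rho0 p n ∧ PtB B b.ptr

/-- the state in another frame -/
def St.fra (s : St p n) (f : GG p n) (ℓ : Ix n → ℕ) : St p n := { s with f := f, ℓ := ℓ }

def AF.call (x : AF p n) (q : ℕ × GG p n) : St p n :=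
  if x.br = true then { x.k with T' := pull1 q.2.1 (if q.1 = 2 then x.s.T' else x.s.T) }
  else x.k.sub x.k.f x.k.ℓ (bx n q.1) x.acc

def Out.join (q : ℕ × GG p n) (o r : Out p n) : Out p n :=
  if q.1 = 0 then ⟨r.H, r.X, r.F, none⟩ else if q.1 = 1 then
    ⟨o.H ⊔ Subgroup.closure {x | ∃ g, r.φ = some g ∧ x = q.2 * g}, o.X, o.F, o.φ⟩
  else ⟨o.H, o.X, o.F, o.φ.or (r.φ.map fun g => q.2 * g)⟩

def AF.feed (x : AF p n) (r : Out p n) : AF p n :=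
  { x with todo := x.todo.tail
           acc := if x.br = true then Out.join (x.todo.headD (0, 1)) x.acc r else x.acc.next r }

open Classical in
/-- the numbers `≥ t` of the sub-boxes -/
def St.boxes (s : St p n) (ℓ : Ix n → ℕ) (t : ℕ) : List ℕ :=
  (List.range' t (top n - t)).filter fun i =>
    decide (∀ j, s.ℓ (bx n i j) = s.ℓ (s.a j) ∧ ℓ (bx n i j) = (bx n i j).val)

/-- the first frame of a splitting -/
def St.frS (s : St p n) (f : GG p n) (ℓ : Ix n → ℕ) : AF p n :=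
  ⟨false, s.fra f ℓ, s.fra f ℓ, [], (s.boxes ℓ 0).map fun i => (i, 1), ⟨s.G, s.X, [], some 1⟩⟩

/-- the first frame of a branching -/
def St.frB (s : St p n) (b : Brc p n) : AF p n :=
  ⟨true, s, s.kid b s.T, b.F, (0, 1) :: (b.R.map (fun t => (1, t)) ++ b.R'.map fun t => (2, t)),
    ⟨⊥, ⊥, [], none⟩⟩

/-- the frame `x` is finished as `y` after `k` steps -/
inductive Ev (c : Cx) : Fm → Fm → ℕ → Prop
  | done {x} : todo x = [] → Ev c x x 0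
  | call {x q L y k z k'} : todo x = q :: L → Ev c (clM c (init c (call c x q))) y k →
      Ev c (clM c (feed c x (fin c y))) z k' → Ev c x z (k + k' + 2)

/-- the frame `x` solves the call `s` -/
def Fin1 (c : Cx) (x : Fm) (s : St p n) (E EG : ℕ) : Prop :=
  ∃ y k, Ev c (clM c x) y k ∧ s.Po EG (outD p n (fin c y)) ∧
    k + 2 + 3 * p ^ E ≤ 6 * p ^ E * s.sz ∧ (outD p n (fin c y)).F.length ≤ rho p n * (k + 1)

/-- the calls with budget `E` and size `z` are solved -/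
def Slv (p n : ℕ) [Fact p.Prime] (c : Cx) (E z : ℕ) : Prop :=
  ∀ (s : PS) (EG B : ℕ), (stD p n s).PrE E EG → (stD p n s).sz = z → (stD p n s).Bd B →
    B + rho p n * (6 * p ^ E * z) ≤ c.2.2.length → Fin1 c (init c s) (stD p n s) E EG

theorem smF_of (hk : S_KID p) {k B : ℕ} {G : SG p n} {F : List (Rec (GG p n))}
    (h : Kids p k G F) (hB : F.length ≤ B) : SmF B F :=
  ⟨hB, fun r hr => (((hk _).2.2.2.2.2.1 k G F h).1 r hr).le.trans hB⟩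

theorem St.sm_of (hk : S_KID p) {s : St p n} {E EG B : ℕ} (h : s.PrE E EG) (hB : s.Bd B) :
    s.Sm B := by
  obtain ⟨cc, τ, h1, -⟩ := h
  refine ⟨smF_of hk h1.val.1 hB.1, fun j r e => ?_⟩
  obtain ⟨N, h2, -⟩ := (h1.ptr j r e).val
  exact smF_of hk h2.1 (hB.2 j r e)

theorem St.Bd.mono {s : St p n} {B B' : ℕ} (h : s.Bd B) (e : B ≤ B') : s.Bd B' :=
  ⟨h.1.trans e, fun j r k => (h.2 j r k).trans e⟩

theorem St.PrE.ok0 {s : St p n} {E EG : ℕ} (h : s.PrE E EG) : s.Ok0 := by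
  obtain ⟨cc, τ, h1, -⟩ := h
  exact h1.toOk0

end

variable (p n : ℕ) [Fact p.Prime]

/-! ### groups -/

def S_QRED : Prop := ∀ (c : Cx) (S : List V), Ok p n c → gS p n (red c S) = gS p n S

def S_QBFS : Prop := ∀ (c : Cx) (t : V → Bool) (S : List V), Ok p n c →
  (∀ r ∈ bfs c t S, gD p n r ∈ gS p n S) ∧ gS p n (subG c t S) ≤ gS p n S ∧
  ∀ Q : SG p n, Tst t (gS p n S) (· ∈ Q) → (bfs c t S).length ≤ Q.relIndex (gS p n S) ∧
    ((bfs c t S).length ≤ c.2.2.length →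
      Cov ((bfs c t S).map (gD p n)) (gS p n S) (gS p n S ⊓ Q) ∧
      gS p n (subG c t S) = gS p n S ⊓ Q)

def S_QSUBS : Prop := ∀ (c : Cx) (t : ℕ → V → Bool) (I : List ℕ) (S : List V) (Q : ℕ → SG p n),
  Ok p n c → Chn t Q c.2.2.length (gS p n S) I →
  ∀ g, g ∈ gS p n (subs c t I S) ↔ g ∈ gS p n S ∧ ∀ i ∈ I, g ∈ Q i

def S_QCOS : Prop := ∀ (c : Cx) (t q : ℕ → V → Bool) (I : List ℕ) (g : V) (S : List V),
  Ok p n c → Vd p n (cos c t q I g S) ∧ (gD p n g)⁻¹ * gD p n (cos c t q I g S) ∈ gS p n S ∧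
  ∀ (Q : ℕ → SG p n) (P : ℕ → GG p n → Prop),
    (∀ i ∈ I, Tst (t i) (gS p n S) (· ∈ Q i) ∧ (Q i).relIndex (gS p n S) ≤ c.2.2.length ∧
      (∀ x, ∀ u ∈ gS p n S, mV p n x = (gD p n g * u).1 → (q i x = true ↔ P i (gD p n g * u))) ∧
      ∀ u ∈ gS p n S, P i (gD p n g * u) → ∀ w ∈ gS p n S, P i (gD p n g * u * w) ↔ w ∈ Q i) →
    (∃ u ∈ gS p n S, ∀ i ∈ I, P i (gD p n g * u)) → ∀ i ∈ I, P i (gD p n (cos c t q I g S))

def S_QFIX : Prop := ∀ (c : Cx) (S : List V), Ok p n c →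
  (∀ ρ σ, Hom ρ (gS p n S) σ →
    (∀ I : List ℕ, (∀ i ∈ I, i < 2 * n + 1) → ∀ g, g ∈ gS p n (fixP c ρ I S) ↔ g ∈ gS p n S ∧
      ∀ α : Ix n, α.val ∈ I → ∀ β, σ g β α = (1 : Mat p n) β α) ∧
    (∀ g, g ∈ gS p n (kerP c ρ S) ↔ g ∈ gS p n S ∧ σ g = 1) ∧
    (∀ z, (∃ g ∈ gS p n S, σ g = mV p n z) → σ (gD p n (liftP c ρ S z)) = mV p n z) ∧
    ∀ W : List V, (∀ w ∈ W, ∃ g ∈ gS p n S, σ g = mV p n w) → ∃ Z : Set (GG p n),
      Subgroup.closure Z = gS p n (klP c ρ S W) ∧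
      (∀ a ∈ Z, a ∈ gS p n S ∧ (σ a = 1 ∨ ∃ w ∈ W, σ a = mV p n w)) ∧
      (∀ a ∈ gS p n S, σ a = 1 → a ∈ Subgroup.closure Z) ∧
      ∀ w ∈ W, ∃ a ∈ Z, σ a = mV p n w) ∧
  (∀ ρ z, Vd p n (liftP c ρ S z) ∧ gD p n (liftP c ρ S z) ∈ gS p n S) ∧
  Tst (memG c S) ⊤ (· ∈ gS p n S)

def S_QCAP : Prop := ∀ (c : Cx) (A K : List V), Ok p n c → Nm (gS p n A) (gS p n K) →
  gS p n (capN c A K) = gS p n A ⊓ gS p n K

def S_QNCL : Prop := ∀ (c : Cx) (H X : List V), Ok p n c →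
  gS p n (ncl c H X) = Ncl (gS p n H) (gS p n X) ∧ gS p n (frG c X) = Fr p (gS p n X)

def S_QENVP : Prop := ∀ (c : Cx) (S : List V), Ok p n c →
  sp (mat p n) (envP c S) = Env (gS p n S)

/-- `x` describes a composition flag of `R` with frame `f` -/
structure CFx (R : Sub p n) (x : Lt) (f : GG p n) : Prop where
  val : mV p n x.2.1 = f.1
  cf : CF R f (lab n x.1)
  eq : gB R f (lab n x.1) = sp (mat p n) x.2.2

def S_QCF : Prop := ∀ (c : Cx) (f l : V) (R : List V) (F : GG p n), Ok p n c → mV p n f = F.1 →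
  Lab (lab n l) → SA (sp (mat p n) R) → TriR (sp (mat p n) R) F (lab n l) →
  ∃ F', CFx p n (sp (mat p n) R) (cfP c f l R) F' ∧ Fine F (lab n l) F' (lab n (cfP c f l R).1)

def S_QMI : Prop := ∀ (c : Cx) (R : List V) (x : Lt) (f : GG p n), Ok p n c →
  SA (sp (mat p n) R) → CFx p n (sp (mat p n) R) x f →
  (∀ i ∈ smlP c x, i < 2 * n + 1) ∧
  (∀ α : Ix n, α.val ∈ smlP c x ↔ α ∈ Sml (lab n x.1) (gB (sp (mat p n) R) f (lab n x.1))) ∧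
  (∀ I : List ℕ, (∀ i ∈ I, i < 2 * n + 1) →
    sp (mat p n) (miP c R x I) = MI (sp (mat p n) R) f (lab n x.1) {α | α.val ∈ I}) ∧
  (∀ I : List V, Tst (nmT c I) ⊤ (· ∈ NmS (sp (mat p n) I)) ∧
    Tst (cenT c R I) ⊤ (· ∈ CenQ (sp (mat p n) R) (sp (mat p n) I))) ∧
  dyP c = dy (Nat.size (2 * n + 1)) ∧ hP c = Nat.size (2 * n + 1) ∧
  (dy (Nat.size (2 * n + 1))).length ≤ 4 * (2 * n + 1) ∧
  ∀ Z : List V, Env (gS p n Z) ≤ sp (mat p n) R →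
    gS p n (fixP c (fun g => grP c x.1 (frP c x.2.1 g)) (smlP c x) Z) =
      gS p n Z ⊓ KB f (lab n x.1) (Sml (lab n x.1) (gB (sp (mat p n) R) f (lab n x.1)))

def S_QTREE : Prop := ∀ (c : Cx) (H R : List V) (x : Lt) (f : GG p n), Ok p n c →
  SA (sp (mat p n) R) → CFx p n (sp (mat p n) R) x f → gS p n H ≤ NmS (sp (mat p n) R) →
  foD p n (treeP c H R x (smlP c x)) = tree (gS p n H) (sp (mat p n) R) f (lab n x.1)
    (Sml (lab n x.1) (gB (sp (mat p n) R) f (lab n x.1))) (Nat.size (2 * n + 1))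

def S_QCORE : Prop := ∀ (c : Cx) (H N : List V), Ok p n c → gS p n N ≤ gS p n H →
  Nm (gS p n H) (gS p n N) →
  Core (gS p n H) (gS p n N) (gS p n (coreP c H N).1) (foD p n (coreP c H N).2) ∧
    (coreP c H N).2.length ≤ rho0 p n

/-! ### states -/

def S_QST : Prop := ∀ (c : Cx) (s : PS) (S : St p n), Ok p n c → stD p n s = S →
  (∀ Y, sp (mat p n) (leP c s Y) = S.le (gS p n Y)) ∧
  (∀ A, Alg S.ll (sp (mat p n) A) → phP c s A = S.ph (sp (mat p n) A)) ∧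
  (∀ j : Fin 3, Tst (ksT c s j.val) (Stb (sL S.f S.ℓ (S.a j)) ⊓ Stb (sH S.f S.ℓ (S.a j)))
    (· ∈ S.ks j)) ∧
  (S.Ok0 → Hom (loP c s) S.G (fun g => S.lo g.1) ∧
    (∀ Y, gS p n Y ≤ S.G → gS p n (n1P c s Y) = gS p n Y ⊓ S.N1) ∧
    (∀ (j : Fin 3) Y, gS p n Y ≤ S.G → (xkP c s j.val Y = true ↔ gS p n Y ≤ S.ks j)) ∧
    (tbP c s = true ↔ S.TBox) ∧
    ∀ Y A, gS p n Y ≤ S.G → Alg S.ll (sp (mat p n) A) →
      (∀ z, U1 (sp (mat p n) A) z → ∃ y ∈ gS p n Y, S.lo y.1 = z) →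
      Pre S.f S.ℓ S.lam (gS p n Y) (sp (mat p n) A) (gS p n (preP c s Y A))) ∧
  ∀ E EG k A, S.PrE E EG → Alg S.ll (sp (mat p n) A) → sp (mat p n) A ≤ S.le S.G →
    (paidP c s k A = true ↔ S.Paid k (sp (mat p n) A))

def S_QLEAF : Prop := ∀ (c : Cx) (s : PS) (S : St p n), Ok p n c → stD p n s = S → S.Ok0 →
  sp (frm p n) (spS c s) = S.Sp ∧ (leafT c s = true ↔ ∀ g ∈ S.G, S.kp g ∈ S.Sp) ∧
  ((∀ g ∈ S.G, S.kp g ∈ S.Sp) →
    S.IsH (gS p n (leafH c s)) ∧ S.IsS ((leafS c s).map (gD p n)))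

def S_QTRY : Prop := ∀ (c : Cx) (s : PS) (S : St p n) (E EG B : ℕ) (t : V → Bool) (Q : SG p n),
  Ok p n c → stD p n s = S → S.PrE E EG → S.Bd B → Tst t S.G (· ∈ Q) → S.X ≤ Q → S.N1 ≤ Q →
  Q ≤ S.G → (∀ b ∈ tryQ c s t, S.GB E EG B (brcD p n b)) ∧
    (tryQ c s t = [] → ¬ S.Paid (Q.relIndex S.G) (S.le Q))

def S_QRA : Prop := ∀ (c : Cx) (s : PS) (S : St p n) (E EG B : ℕ), Ok p n c → stD p n s = S →
  S.PrE E EG → S.Bd B → (∀ b ∈ ruleA c s, S.GB E EG B (brcD p n b)) ∧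
    (ruleA c s = [] → ∀ j, S.X ≤ S.ks j →
      (S.G ⊓ S.ks j).relIndex S.G ≤ p ^ (12 * (2 * n + 1)) → S.G ≤ S.ks j)

def S_QRB : Prop := ∀ (c : Cx) (s : PS) (S : St p n) (E EG B : ℕ), Ok p n c → stD p n s = S →
  S.PrE E EG → S.Bd B → (∀ b ∈ ruleB c s, S.GB E EG B (brcD p n b)) ∧
    (ruleB c s = [] → ∀ j, ∀ v ∈ Vb S.ll (S.a j),
      ¬ S.Paid ((S.qb j (S.f.1 *ᵥ v)).relIndex S.G) (S.le (S.qb j (S.f.1 *ᵥ v))))

def S_QRC : Prop := ∀ (c : Cx) (s : PS) (S : St p n) (E EG B : ℕ), Ok p n c → stD p n s = S →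
  S.PrE E EG → S.Bd B → Str S.ll (S.le S.X) → (∀ b ∈ ruleC c s, S.GB E EG B (brcD p n b)) ∧
    (ruleC c s = [] → ∃ sd : Side p n, Good S.ll sd ∧ sd.B = S.le S.X ∧
      ∀ C ∈ CL sd, ∀ Q, S.IsQc C Q → ¬ S.Paid (Q.relIndex S.G) (S.le Q))

/-- transport along the section of a pointer -/
def S_QTRN : Prop := ∀ (c : Cx) (π : PPt) (A Z : List V), Ok p n c →
  gS p n A ≤ Stb (ptD p n π).L ⊓ Stb (ptD p n π).U →
  gS p n Z ≤ Stb (ptD p n π).L ⊓ Stb (ptD p n π).U →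
  (∀ g ∈ gS p n Z, ∃ a ∈ gS p n A, g⁻¹ * a ∈ Ker (ptD p n π).L (ptD p n π).U) →
  ∀ a, a ∈ gS p n (trn c π A Z) ↔
    a ∈ gS p n A ∧ ∃ g ∈ gS p n Z, g⁻¹ * a ∈ Ker (ptD p n π).L (ptD p n π).U

def S_QRD : Prop := ∀ (c : Cx) (s : PS) (S : St p n) (E EG B : ℕ), Ok p n c → stD p n s = S →
  S.PrE E EG → E ≤ EE n → S.Bd B → (∀ b ∈ ruleD c s, S.GB E EG B (brcD p n b)) ∧
    (ruleD c s = [] → ∀ j, S.X ≤ S.ks j → ∃ G1, S.IsG1 j G1 ∧
      ¬ ∃ r ∈ tops (S.pt j).F, ∀ a ∈ G1 ⊓ r.1.1, ∀ b ∈ G1 ⊓ r.1.1, ⁅a, b⁆ ∈ S.ks j)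

def S_QRE : Prop := ∀ (c : Cx) (s : PS) (S : St p n) (E EG B : ℕ), Ok p n c → 0 < n →
  stD p n s = S → S.PrE E EG → S.Bd B → S.Sim → S.Res → Scl S.μ S.ll (S.le S.X) →
  (∀ b ∈ ruleE c s, S.GB E EG B (brcD p n b)) ∧ (ruleE c s = [] → ∀ g ∈ S.G, S.kp g ∈ S.Sp)

def S_QBR : Prop := ∀ (c : Cx) (s : PS) (S : St p n) (E EG B : ℕ), Ok p n c → 0 < n →
  stD p n s = S → S.PrE E EG → E ≤ EE n → S.Bd B → S.Sim → S.Tight →
  ¬ (∀ g ∈ S.G, S.kp g ∈ S.Sp) → S.GB E EG B (brcD p n (brP c s))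

def S_QOUT : Prop := ∀ (c : Cx) (s : PS) (S : St p n) (H : List V) (φ : Option V), Ok p n c →
  stD p n s = S → S.Ok0 → gS p n H ≤ S.G → ∃ Y F, Core (gS p n H) (gS p n H ⊓ S.X) Y F ∧
    F.length ≤ rho0 p n ∧ outD p n (outC c s H φ) = ⟨gS p n H, Y, F, φ.map (gD p n)⟩

/-! ### the machine -/

def S_QDEC : Prop := ∀ c : Cx, Ok p n c →
  (∀ x q, stD p n (call c x q) = (fmD p n x).call (q.1, gD p n q.2)) ∧
  (∀ x r, fmD p n (feed c x r) = (fmD p n x).feed (outD p n r)) ∧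
  (∀ x, (fmD p n x).Sm c.2.2.length → fmD p n (clM c x) = fmD p n x) ∧
  (∀ s, stD p n (resetP c s) = (stD p n s).reset) ∧
  (∀ s x, stD p n (refS s x) = (stD p n s).fra (gD p n x.2.1) (labD n x.1)) ∧
  (∀ s b, fmD p n (initB c s b) = (stD p n s).frB (brcD p n b)) ∧
  (∀ s k, (ran (u3 c)).filter (boxT c s k) = (stD p n s).boxes (stD p n k).ℓ 0) ∧
  ∀ G y T T', gS p n G = ⊤ → stD p n (rootQ c G y T T') =
    root (gS p n y.1) (foD p n y.2) (fV p n T) (fV p n T')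

def S_QFIN : Prop := ∀ (c : Cx) (x : Fm), Ok p n c →
  ((fmD p n x).br = false → outD p n (fin c x) = (fmD p n x).acc) ∧
  ∀ (s : St p n) b E EG k EG' o, (fmD p n x).br = true → (fmD p n x).s = s →
    (fmD p n x).k.G = b.Q → (fmD p n x).F = b.F → s.Ok0 → s.Sim → s.BrOK E EG b k EG' →
    (s.kid b s.T).Po EG' o → (fmD p n x).acc.X = o.X → (fmD p n x).acc.F = o.F →
    s.IsH (fmD p n x).acc.H → s.IsS (fmD p n x).acc.φ → s.Po EG (outD p n (fin c x)) ∧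
      (outD p n (fin c x)).F.length ≤ o.F.length + b.F.length + rho0 p n + 2

def S_QINIT : Prop := ∀ (c : Cx) (s : PS) (S : St p n) (E EG B : ℕ), Ok p n c → 0 < n →
  stD p n s = S → S.PrE E EG → E ≤ EE n → S.Bd B →
  (∃ f ℓ, Fine S.f S.ℓ f ℓ ∧ TriR (Env S.G) f ℓ ∧ (∃ j, nb ℓ (S.a j) < nb S.ℓ (S.a j)) ∧
    fmD p n (init c s) = S.frS f ℓ) ∨
  ∃ S1 : St p n, S1.PrE E EG ∧ S1.Sim ∧ S1.sz = S.sz ∧ S1.Bd B ∧ (∀ o, S1.Po EG o → S.Po EG o) ∧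
    ((∃ o, S1.Po EG o ∧ o.F.length ≤ rho0 p n ∧
      fmD p n (init c s) = ⟨false, S1, S1, [], [], o⟩) ∨
    ∃ b, S1.GB E EG B b ∧ fmD p n (init c s) = S1.frB b)

def S_MACH : Prop := ∀ (c : Cx) (s : PS) y k, Ev c (clM c (init c s)) y k → k ≤ c.2.2.length →
  runM c s = [y]

def S_LOOPS : Prop := ∀ (c : Cx) (s : St p n) (E EG B : ℕ) f ℓ (x : Fm), Ok p n c →
  s.PrE E EG → Fine s.f s.ℓ f ℓ → TriR (Env s.G) f ℓ → (∃ j, nb ℓ (s.a j) < nb s.ℓ (s.a j)) →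
  (∀ z < s.sz, Slv p n c E z) → s.Bd B → B + rho p n * (6 * p ^ E * s.sz) ≤ c.2.2.length →
  fmD p n x = s.frS f ℓ → Fin1 c x s E EG

def S_LOOPB : Prop := ∀ (c : Cx) (s : St p n) (E EG B : ℕ) b (x : Fm), Ok p n c →
  s.PrE E EG → s.Sim → s.GB E EG B b → (∀ E' < E, Slv p n c E' s.sz) → s.Bd B →
  B + rho p n * (6 * p ^ E * s.sz) ≤ c.2.2.length → fmD p n x = s.frB b → Fin1 c x s E EG

def S_MAIN : Prop := ∀ c : Cx, Ok p n c → 0 < n → ∀ E ≤ EE n, ∀ z, Slv p n c E z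

def S_ISO : Prop := ∀ (c : Cx) (T T' : V), Ok p n c → 0 < n →
  fV p n T ∈ Wt (l0 n) (key (l0 n) ![Fin.last _, Fin.last _, 0]) →
  fV p n T' ∈ Wt (l0 n) (key (l0 n) ![Fin.last _, Fin.last _, 0]) →
  (isoP c T T' = true ↔ ∃ ψ, Par (l0 n) ψ ∧ pull1 ψ (fV p n T') = fV p n T)

/-- the toolbox of the program -/
structure TP : Prop where
  red : S_QRED p n
  bfs : S_QBFS p n
  subs : S_QSUBS p n
  cos : S_QCOS p n
  fix : S_QFIX p n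
  cap : S_QCAP p n
  ncl : S_QNCL p n
  env : S_QENVP p n
  cf : S_QCF p n
  core : S_QCORE p n
  st : S_QST p n

end Pool.Agent.P.MP_f1a348_lc.UP
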