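import Pool.Agent.P.MP_f1a348_lc.UP.EIf

/-!
Project UP: the specification of the engine.
-/

namespace Pool.Agent.P.MP_f1a348_lc.UP

open Matrix Module Pool.Agent.P.MP_f1a348_lc.PG

namespace QENGy

variable {p n : ℕ} [Fact p.Prime] {c : Cx} {l : V} {s : Sd} {t : ℕ} {SL : List V}

omit [Fact p.Prime] in
theorem tr_eq (h : Ok p n c) (a : Fin 3 → Ix n) :
    [co c 0 (enc3 a), co c 1 (enc3 a), co c 2 (enc3 a)] = tr3 a := by
  rw [h.co, h.co, h.co]; rfl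

omit [Fact p.Prime] in
theorem mem_recs (h : Ok p n c) {ρ : Rz} : ρ ∈ recsK c l s t SL ↔ ∃ a : Fin 3 → Ix n,
    ρ.2.1 = tr3 a ∧ (2 ≤ ρ.1 ∧ ρ.1 < 8) ∧ ρ.2.2.1 < 6 ∧ ρ.2.2.2.1 ∈ [] :: annK c l s t SL ∧
    ρ.2.2.2.2.1 ∈ blkP c l (a 0).val ∧ ρ.2.2.2.2.2.1 ∈ blkP c l (a 0).val ∧
    ρ.2.2.2.2.2.2 < 2 * (2 * n + 1) := by
  have e1 : ∀ k : ℕ, k ∈ [2, 3, 4, 5, 6, 7] ↔ 2 ≤ k ∧ k < 8 := fun k => by simp; omega
  have e2 : ∀ k : ℕ, k ∈ [0, 1, 2, 3, 4, 5] ↔ k < 6 := fun k => by simp; omega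
  simp only [recsK, List.mem_flatMap, List.mem_map, e1, e2, mem_ran, h.len3, h.lenh]
  constructor
  · rintro ⟨kind, h1, _, ⟨i, hi, rfl⟩, k, h2, cs, h3, u, h4, v, h5, r, h6, rfl⟩
    obtain ⟨a, rfl⟩ := exists_enc3 hi
    rw [tr_eq h] at h4 h5 ⊢
    exact ⟨a, rfl, h1, h2, h3, h4, h5, h6⟩
  · obtain ⟨kind, b, k, cs, u, v, r⟩ := ρ
    rintro ⟨a, rfl, h1, h2, h3, h4, h5, h6⟩
    exact ⟨kind, h1, tr3 a, ⟨_, enc3_lt a, tr_eq h a⟩, k, h2, cs, h3, u, h4, v, h5, r, h6, rfl⟩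

theorem cst_eq (h : Ok p n c) (hs : Gd p n l s) {a : Fin 3 → Ix n} {ρ : Rz}
    (ha : ρ.2.1 = tr3 a) : cstP c l s ρ = cst (lab n l) (sdD p n s) (rzD p a ρ) := by
  rw [cstP, cst, ha]
  change (bif ρ.1 == 4 then 2 * (nbP c l (a 0).val + (csoP c s (rv c (a 2).val) (a 1).val).length)
    else 0) = if ρ.1 = 4 then 2 * (nb _ (a 0) + (Cso _ _ (a 2).rev (a 1)).length) else 0
  rw [h.rv, h.nbP, ← h.csoP hs, List.length_map]
  by_cases e : ρ.1 = 4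
  · rw [if_pos e, beq_iff_eq.2 e]; rfl
  · rw [if_neg e, beq_false_of_ne e]; rfl

theorem good_iff (hQPOT : S_QPOT p n) (h : Ok p n c) (hs : Gd p n l s) {a : Fin 3 → Ix n} {ρ : Rz}
    (ha : ρ.2.1 = tr3 a) (μ : V) (PL : List (V × V)) (w0 : V) :
    goodK c μ l s t PL w0 SL ρ = true ↔ (rzD p a ρ).t (lab n l) = t ∧
      (ρ.1 = 4 → Triv (lab n l) (sdD p n s).B (a 0) ∨ ∀ j, ¬ Triv (lab n l) (sdD p n s).B (a j)) ∧
      (4 ≤ ρ.1 → (thK c l s t PL ρ.2.2.2.1).isSome = true) ∧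
      cst (lab n l) (sdD p n s) (rzD p a ρ) + 1 ≤ 200 * (PhiS (muD μ) (lab n l) (sdD p n s).B -
        potP c μ l (aqP c l s w0 SL ρ (thR c l s t PL ρ))) := by
  have e0 : (tr3 a).getD 0 0 = (a 0).val := rfl
  have e1 : (tr3 a).getD 1 0 = (a 1).val := rfl
  have e2 : (tr3 a).getD 2 0 = (a 2).val := rfl
  rw [goodK, cst_eq h hs ha, (hQPOT c μ l h).1 s hs, ha, h.tP, e0, e1, e2]
  simp only [Bool.and_eq_true, Bool.or_eq_true, beq_iff_eq, bne_iff_ne, Bool.not_eq_true',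
    ← Bool.not_eq_true, h.trivP hs, Nat.blt_eq, Nat.ble_eq, Fin.forall_fin_succ, and_assoc]
  refine and_congr Iff.rfl (and_congr ?_ (and_congr ?_ Iff.rfl))
  · simp only [IsEmpty.forall_iff, and_true]
    change _ ↔ _ → _ ∨ _ ∧ ¬ Triv _ _ (a 1) ∧ ¬ Triv _ _ (a 2)
    tauto
  · rw [← not_le, imp_iff_not_or]

theorem count {p L k x y : ℕ} (hp : 0 < p) (h1 : L ≤ p ^ k) (h2 : k + 1 ≤ 200 * (y - x)) :
    p * L * p ^ (200 * x) ≤ p ^ (200 * y) := by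
  refine (Nat.mul_le_mul_right _ (Nat.mul_le_mul_left p h1)).trans ?_
  rw [← pow_succ', ← pow_add]
  exact Nat.pow_le_pow_right hp (by omega)

end QENGy

open QENGy in
theorem s_QENG (p n : ℕ) [Fact p.Prime] (m : PM p n) (hQPOT : S_QPOT p n) (hQE23 : S_QE23 p n)
    (hQXQ : S_QXQ p n) (hQREPS : S_QREPS p n) (hENG : S_ENG p n) (hSEMI : S_SEMI p n) :
    S_QENG p n := by
  intro c l B a μ PL w0 SL δ K h hn hB hG hS hK hPL hw hSL hδ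
  have hs := h.sdB hB
  rw [engP, h.tP, pm_zero, ← sdB_B p n c l B]
  rw [← sdB_B p n c l B] at hB hG hS hK hw
  change (engQ c μ l _ (key _ a) PL w0 SL δ = none → _) ∧
    ∀ A Y Y', engQ c μ l _ (key _ a) PL w0 SL δ = _ → _
  generalize sdB c l B = s at *
  obtain ⟨-, q1, q2, q3⟩ := hQE23 c l s _ K SL h hs hK hSL
  have q4 : ∀ cs, (thK c l s (key (lab n l) a) PL cs).isSome = true →
      ThK (lab n l) (sdD p n s) _ K (tv p cs)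
        (fV p n ((thK c l s (key (lab n l) a) PL cs).getD [])) := fun cs e => by
    obtain ⟨θ, e⟩ := Option.isSome_iff_exists.1 e
    rw [e]
    exact (q3 PL cs hPL).1 θ e
  have q5 : ∀ (b : Fin 3 → Ix n) (ρ : Rz), ρ.2.1 = tr3 b → 2 ≤ ρ.1 → ρ.2.2.1 < 6 →
      ρ.2.2.2.2.1 ∈ blkP c l (b 0).val → ρ.2.2.2.2.2.1 ∈ blkP c l (b 0).val →
      (rzD p b ρ).t (lab n l) = key (lab n l) a →
      (4 ≤ ρ.1 → (thK c l s (key (lab n l) a) PL ρ.2.2.2.1).isSome = true) →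
      sp (mat p n) (aqP c l s w0 SL ρ (thR c l s (key (lab n l) a) PL ρ)) =
        Aq (lab n l) (sdD p n s) K (rzD p b ρ) (fV p n (thR c l s (key (lab n l) a) PL ρ)) :=
    fun b ρ r0 r1 r2 r3 r4 r5 r6 => by
      rw [aqP, thR, hQXQ c l s _ K K SL b ρ w0 w0 _ _ _ _ h hn hs hK hK hSL hSL hw hw r0 r2 r5
        (h.blkP_norm r3) (h.blkP_norm r4) (fun e => ⟨(q4 _ (r6 e)).1, (q4 _ (r6 e)).1⟩) r1,
        hV_short (h.blkP_norm r3), hV_short (h.blkP_norm r4)]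
      rfl
  have q6 := (hQPOT c μ l h).2
  refine ⟨fun e => ?_, fun A Y Y' e => ?_⟩
  · have r0 : ∀ y, ∃ x ∈ [] :: annK c l s (key (lab n l) a) SL,
        (y = 0 ∨ ∃ x ∈ annK c l s (key (lab n l) a) SL, tv p x = y) → tv p x = y := fun y => by
      by_cases e : ∃ x ∈ annK c l s (key (lab n l) a) SL, tv p x = y
      · obtain ⟨x, hx, e⟩ := e
        exact ⟨x, List.mem_cons_of_mem _ hx, fun _ => e⟩
      · exact ⟨[], List.mem_cons_self, fun e' => tv_nil.trans (e'.resolve_right e).symm⟩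
    choose rep r1 r2 using r0
    refine (hENG (muD μ) _ _ a K _
      (fun y => fV p n ((thK c l s (key (lab n l) a) PL (rep y)).getD [])) hs (hG.big hB) hS hK
      (by rintro _ ⟨x, hx, rfl⟩; exact q1 x hx) q2 fun y hy hθ => ?_).resolve_right ?_
    · have := q4 _ ((q3 PL (rep y) hPL).2 (by rwa [r2 y (Or.inr hy)]))
      rwa [r2 y (Or.inr hy)] at this
    rintro ⟨⟨kind, b, k, y, u, v, r⟩, g1, g2, g3, g4⟩
    obtain ⟨u, hu, rfl⟩ := ((h.blkP hB.lab (b 0)).mem u).1 g1.u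
    obtain ⟨v, hv, rfl⟩ := ((h.blkP hB.lab (b 0)).mem v).1 g1.v
    have r3 : tv p (rep y) = y :=
      r2 y ((lt_or_ge kind 4).imp g3 fun e => (g4 e).1)
    have r4 : rzD p b (kind, tr3 b, k, rep y, u, v, r) =
        ⟨kind, b, k, y, vV p n u, vV p n v, r⟩ := by
      rw [rzD, r3]
    have r5 : 4 ≤ kind → (thK c l s (key (lab n l) a) PL (rep y)).isSome = true := fun e =>
      (q3 PL _ hPL).2 ⟨_, r3.symm ▸ (g4 e).2⟩
    have r6 := q5 b (kind, tr3 b, k, rep y, u, v, r) rfl g1.lo g1.k hu hv g1.t r5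
    rw [engQ, Option.map_eq_none_iff, List.find?_eq_none] at e
    refine e (kind, tr3 b, k, rep y, u, v, r)
      ((mem_recs h).2 ⟨b, rfl, ⟨g1.lo, g1.hi⟩, g1.k, r1 y, hu, hv, g1.r⟩)
      ((good_iff hQPOT h hs rfl _ _ _).2 ⟨g1.t, g1.pin, r5, ?_⟩)
    rw [q6 _ hB.lab (r6 ▸ aq_alg hB.alg _ _ _), r6, r4]
    exact g2
  · obtain ⟨ρ, e1, e2⟩ := Option.map_eq_some_iff.1 e
    obtain ⟨b, r0, r1, r2, -, r3, r4, r5⟩ := (mem_recs h).1 (List.mem_of_find?_eq_some e1)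
    obtain ⟨g1, g2, g3, g4⟩ := (good_iff hQPOT h hs r0 _ _ _).1 (List.find?_some e1)
    have r6 := q5 b ρ r0 r1.1 r2 r3 r4 g1 g3
    have sh : Shp (lab n l) (sdD p n s) _ (rzD p b ρ) := ⟨r1.1, r1.2, r2, r5, g1,
      ((h.blkP hB.lab (b 0)).mem _).2 ⟨_, r3, rfl⟩, ((h.blkP hB.lab (b 0)).mem _).2 ⟨_, r4, rfl⟩,
      g2⟩
    have k := fun d => hQREPS c l s _ K SL b ρ w0 (thR c l s (key (lab n l) a) PL ρ) d h hn hs hK
      hSL hw r0 sh (h.blkP_norm r3) (h.blkP_norm r4) fun e => q4 _ (g3 e)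
    have z : fV p n [] = 0 := dv_nil
    obtain ⟨k1, k2, k3⟩ := k [] (z ▸ zero_mem _)
    obtain ⟨k4, k5, k6⟩ := k δ hδ
    obtain ⟨rfl, rfl, rfl⟩ := e2
    rw [q6 _ hB.lab (r6 ▸ aq_alg hB.alg _ _ _)] at g4
    have hp : 0 < p := by have := m.five; omega
    refine ⟨?_, count hp k1 g4, count hp k4 g4⟩
    rw [r6]
    refine ⟨aq_alg hB.alg _ _ _, xq_le _ _ _ _ _ _ _ _, List.forall_mem_map.2 k2,
      List.forall_mem_map.2 k5, fun x hx => ?_, fun x w hx e => ?_, fun ⟨j, hj⟩ Z z1 z2 z3 =>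
      hSEMI _ _ _ K _ _ Z hs hK sh (fun e => q4 _ (g3 e))
        ⟨_, (Triv_congr ((key_eq_iff hB.lab).1 g1 j)).2 hj⟩ z1 z2 z3⟩
    · obtain ⟨y, hy, e⟩ := k3 x 0 hx (by rw [z, map_zero, add_zero])
      exact ⟨_, List.mem_map_of_mem hy, e⟩
    · obtain ⟨y, hy, e⟩ := k6 x w hx e
      exact ⟨_, List.mem_map_of_mem hy, e⟩

end Pool.Agent.P.MP_f1a348_lc.UP
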