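import Pool.Agent.P.MP_f1a348_lc.UP.EProg
import Pool.Agent.P.MP_f1a348_lc.NC.Time

/-!
Project UP: the engine runs in polynomial time.
-/

namespace Pool.Agent.P.MP_f1a348_lc.UP

open Pool.Agent.Lib.Helper47 Pool.Agent.P.MP_f1a348_lc.PG
open Pool.Agent.P.MP_f1a348_lc.GI (ps_len)

variable {α : Type} [Enc α]

@[fun_prop] theorem pt_sdB {c : α → Cx} {l : α → V} {B : α → List V} (h1 : PT c) (h2 : PT l) (h3 :
    PT B) : PT (fun e => sdB (c e) (l e) (B e)) := by
  unfold sdB; fun_prop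

@[fun_prop] theorem pt_z0B {c : α → Cx} {l : α → V} {B : α → List V} (h1 : PT c) (h2 : PT l) (h3 :
    PT B) : PT (fun e => z0B (c e) (l e) (B e)) := by
  unfold z0B; fun_prop

@[fun_prop] theorem pt_scP {μ : α → V} {k : α → ℕ} (h1 : PT μ) (h2 : PT k) : PT (fun e => scP (μ
    e) (k e)) := by
  unfold scP; fun_prop

@[fun_prop] theorem pt_phiSP {c : α → Cx} {μ : α → V} {l : α → V} {s : α → Sd} (h1 : PT c) (h2 :
    PT μ) (h3 : PT l) (h4 : PT s) : PT (fun e => phiSP (c e) (μ e) (l e) (s e)) := by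
  unfold phiSP; fun_prop

@[fun_prop] theorem pt_rf1 {c : α → Cx} {l : α → V} {A : α → List V} (h1 : PT c) (h2 : PT l) (h3 :
    PT A) : PT (fun e => rf1 (c e) (l e) (A e)) := by
  unfold rf1; fun_prop

@[fun_prop] theorem pt_potQ {c : α → Cx} {μ : α → V} {x : α → Lt} (h1 : PT c) (h2 : PT μ) (h3 : PT
    x) : PT (fun e => potQ (c e) (μ e) (x e)) := by
  unfold potQ; fun_prop

@[fun_prop] theorem pt_potP {c : α → Cx} {μ : α → V} {l : α → V} {A : α → List V} (h1 : PT c) (h2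
    : PT μ) (h3 : PT l) (h4 : PT A) : PT (fun e => potP (c e) (μ e) (l e) (A e)) := by
  unfold potP; fun_prop

@[fun_prop] theorem pt_chiA {c : α → Cx} {X : α → List V} (h1 : PT c) (h2 : PT X) : PT (fun e =>
    chiA (c e) (X e)) := by
  unfold chiA; fun_prop

@[fun_prop] theorem pt_pinP {c : α → Cx} {X : α → List V} {j : α → ℕ} {v : α → V} (h1 : PT c) (h2
    : PT X) (h3 : PT j) (h4 : PT v) : PT (fun e => pinP (c e) (X e) (j e) (v e)) := by
  unfold pinP; fun_prop

@[fun_prop] theorem pt_fstep {c : α → Cx} {l : α → V} {X : α → List V} {j : α → ℕ} (h1 : PT c) (h2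
    : PT l) (h3 : PT X) (h4 : PT j) : PT (fun e => fstep (c e) (l e) (X e) (j e)) := by
  unfold fstep; fun_prop

theorem size_htP (c : Cx) (uk : U) (H D D' : List V) : size (htP c uk H D D') ≤ bb c (u2 c) :=
  size_preAll _ _ _ _ _ _ _

theorem size_pinP (c : Cx) (X : List V) (j : ℕ) (v : V) : size (pinP c X j v) ≤ bb c (u2 c) :=
  size_htP _ _ _ _ _

theorem size_fstep (c : Cx) (l : V) (X : List V) (j : ℕ) : size (fstep c l X j) ≤ bb c (u2 c) := by
  unfold fstep
  cases (blkP c l j).find? fun v => (chiA c (pinP c X j v)).isSome with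
  | none => exact Nat.le_add_left _ _
  | some v => exact size_pinP _ _ _ _

@[fun_prop] theorem pt_findU {c : α → Cx} {l : α → V} {X : α → List V} (h1 : PT c) (h2 : PT l) (h3
    : PT X) : PT (fun e => findU (c e) (l e) (X e)) := 
  pt_chiA h1 (PT.foldl_add (f := fun e S j => fstep (c e) (l e) S j) (by fun_prop) (by fun_prop)
    (by fun_prop) _ (ps_bb h1 (pt_u2 h1)) fun _ _ _ _ =>
      (size_fstep _ _ _ _).trans (Nat.le_add_left _ _))

@[fun_prop] theorem pt_gstep {c : α → Cx} {l : α → V} {s : α → List V × List V} {j : α → ℕ} (h1 :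
    PT c) (h2 : PT l) (h3 : PT s) (h4 : PT j) : PT (fun e => gstep (c e) (l e) (s e) (j e)) := by
  unfold gstep; fun_prop

theorem size_findU {c : Cx} {l : V} {X : List V} {y : V} (h : findU c l X = some y) :
    size y ≤ bv c (u2 c) := by
  obtain ⟨x, -, rfl⟩ := Option.map_eq_some_iff.1 h
  exact size_tab _ _ _

theorem len_blkP (c : Cx) (l : V) (j : ℕ) : (blkP c l j).length ≤ c.2.2.length + 1 := by
  rw [blkP, List.length_map]; exact GI.length_tuples_le_pad _ _ _

theorem size_gstep (c : Cx) (l : V) (s : List V × List V) (j : ℕ) : size (gstep c l s j) ≤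
    size s + (bb c (u2 c) + ((c.2.2.length + 1) * (bv c (u2 c) + 1) + 1)) := by
  have h1 := size_pinP c s.1 j (unit c (u1 c) j)
  have h2 : size ((blkP c l j).filterMap fun v => findU c l (pinP c s.1 j v)) ≤ _ :=
    size_list_le' (B := bv c (u2 c)) (fun y hy => by
      obtain ⟨v, -, e⟩ := List.mem_filterMap.1 hy
      exact size_findU e) ((List.length_filterMap_le _ _).trans (len_blkP c l j))
  have h3 := size_append s.2 ((blkP c l j).filterMap fun v => findU c l (pinP c s.1 j v))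
  rw [gstep, size_pair, size_prod s]
  omega

@[fun_prop] theorem pt_genP {c : α → Cx} {l : α → V} {A : α → List V} (h1 : PT c) (h2 : PT l) (h3
    : PT A) : PT (fun e => genP (c e) (l e) (A e)) := 
  PT.snd (PT.foldl_add (f := fun e s j => gstep (c e) (l e) s j) (by fun_prop) (by fun_prop)
    (by fun_prop) _ ((ps_bb h1 (pt_u2 h1)).add ((((ps_len h1.snd.snd).add (PB.const 1)).mul
      ((ps_bv h1 (pt_u2 h1)).add (PB.const 1))).add (PB.const 1))) fun _ _ _ _ => size_gstep _ _ _ _)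

@[fun_prop] theorem pt_shK {w0 : α → V} {SL : α → List V} (h1 : PT w0) (h2 : PT SL) : PT (fun e =>
    shK (w0 e) (SL e)) := by
  unfold shK; fun_prop

@[fun_prop] theorem pt_e2P {c : α → Cx} {s : α → Sd} {w0 : α → V} {SL : α → List V} (h1 : PT c)
    (h2 : PT s) (h3 : PT w0) (h4 : PT SL) : PT (fun e => e2P (c e) (s e) (w0 e) (SL e)) := by
  unfold e2P; fun_prop

@[fun_prop] theorem pt_e3P {c : α → Cx} {s : α → Sd} {w0 : α → V} {SL : α → List V} (h1 : PT c)
    (h2 : PT s) (h3 : PT w0) (h4 : PT SL) : PT (fun e => e3P (c e) (s e) (w0 e) (SL e)) := by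
  unfold e3P; fun_prop

@[fun_prop] theorem pt_annK {c : α → Cx} {l : α → V} {s : α → Sd} {t : α → ℕ} {SL : α → List V}
    (h1 : PT c) (h2 : PT l) (h3 : PT s) (h4 : PT t) (h5 : PT SL) : PT (fun e => annK (c e) (l e)
    (s e) (t e) (SL e)) := by
  unfold annK; fun_prop

@[fun_prop] theorem pt_thK {c : α → Cx} {l : α → V} {s : α → Sd} {t : α → ℕ} {PL : α → List (V ×
    V)} {cs : α → V} (h1 : PT c) (h2 : PT l) (h3 : PT s) (h4 : PT t) (h5 : PT PL) (h6 : PT cs) :
    PT (fun e => thK (c e) (l e) (s e) (t e) (PL e) (cs e)) := by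
  unfold thK; fun_prop

@[fun_prop] theorem pt_hsP {c : α → Cx} {l : α → V} {s : α → Sd} {a : α → V} {θ : α → V} {r : α →
    ℕ} (h1 : PT c) (h2 : PT l) (h3 : PT s) (h4 : PT a) (h5 : PT θ) (h6 : PT r) : PT (fun e => hsP
    (c e) (l e) (s e) (a e) (θ e) (r e)) := by
  unfold hsP; fun_prop

@[fun_prop] theorem pt_e5P {c : α → Cx} {l : α → V} {s : α → Sd} {a : α → V} {θ : α → V} {r : α →
    ℕ} (h1 : PT c) (h2 : PT l) (h3 : PT s) (h4 : PT a) (h5 : PT θ) (h6 : PT r) : PT (fun e => e5P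
    (c e) (l e) (s e) (a e) (θ e) (r e)) := by
  unfold e5P; fun_prop

@[fun_prop] theorem pt_e6P {c : α → Cx} {l : α → V} {s : α → Sd} {a : α → V} {θ : α → V} {r : α →
    ℕ} (h1 : PT c) (h2 : PT l) (h3 : PT s) (h4 : PT a) (h5 : PT θ) (h6 : PT r) : PT (fun e => e6P
    (c e) (l e) (s e) (a e) (θ e) (r e)) := by
  unfold e6P; fun_prop

@[fun_prop] theorem pt_e7P {c : α → Cx} {l : α → V} {s : α → Sd} {a : α → V} {θ : α → V} {r : α →
    ℕ} (h1 : PT c) (h2 : PT l) (h3 : PT s) (h4 : PT a) (h5 : PT θ) (h6 : PT r) : PT (fun e => e7P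
    (c e) (l e) (s e) (a e) (θ e) (r e)) := by
  unfold e7P; fun_prop

@[fun_prop] theorem pt_edP {c : α → Cx} {l : α → V} {s : α → Sd} {w0 : α → V} {SL : α → List V} {ρ
    : α → Rz} {θ : α → V} {q : α → V} (h1 : PT c) (h2 : PT l) (h3 : PT s) (h4 : PT w0) (h5 : PT
    SL) (h6 : PT ρ) (h7 : PT θ) (h8 : PT q) : PT (fun e => edP (c e) (l e) (s e) (w0 e) (SL e) (ρ
    e) (θ e) (q e)) := by
  unfold edP; fun_prop

@[fun_prop] theorem pt_xqP {c : α → Cx} {l : α → V} {s : α → Sd} {w0 : α → V} {w0' : α → V} {SL :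
    α → List V} {ρ : α → Rz} {θ : α → V} {θ' : α → V} {q : α → V} {q' : α → V} (h1 : PT c) (h2 :
    PT l) (h3 : PT s) (h4 : PT w0) (h5 : PT w0') (h6 : PT SL) (h7 : PT ρ) (h8 : PT θ) (h9 : PT θ')
    (h10 : PT q) (h11 : PT q') : PT (fun e => xqP (c e) (l e) (s e) (w0 e) (w0' e) (SL e) (ρ e) (θ
    e) (θ' e) (q e) (q' e)) := by
  unfold xqP; fun_prop

@[fun_prop] theorem pt_aqP {c : α → Cx} {l : α → V} {s : α → Sd} {w0 : α → V} {SL : α → List V} {ρ
    : α → Rz} {θ : α → V} (h1 : PT c) (h2 : PT l) (h3 : PT s) (h4 : PT w0) (h5 : PT SL) (h6 : PT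
    ρ) (h7 : PT θ) : PT (fun e => aqP (c e) (l e) (s e) (w0 e) (SL e) (ρ e) (θ e)) := by
  unfold aqP; fun_prop

@[fun_prop] theorem pt_cstP {c : α → Cx} {l : α → V} {s : α → Sd} {ρ : α → Rz} (h1 : PT c) (h2 :
    PT l) (h3 : PT s) (h4 : PT ρ) : PT (fun e => cstP (c e) (l e) (s e) (ρ e)) := by
  unfold cstP; fun_prop

@[fun_prop] theorem pt_recsK {c : α → Cx} {l : α → V} {s : α → Sd} {t : α → ℕ} {SL : α → List V}
    (h1 : PT c) (h2 : PT l) (h3 : PT s) (h4 : PT t) (h5 : PT SL) : PT (fun e => recsK (c e) (l e)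
    (s e) (t e) (SL e)) := by
  unfold recsK; fun_prop

@[fun_prop] theorem pt_thR {c : α → Cx} {l : α → V} {s : α → Sd} {t : α → ℕ} {PL : α → List (V ×
    V)} {ρ : α → Rz} (h1 : PT c) (h2 : PT l) (h3 : PT s) (h4 : PT t) (h5 : PT PL) (h6 : PT ρ) : PT
    (fun e => thR (c e) (l e) (s e) (t e) (PL e) (ρ e)) := by
  unfold thR; fun_prop

@[fun_prop] theorem pt_goodK {c : α → Cx} {μ : α → V} {l : α → V} {s : α → Sd} {t : α → ℕ} {PL : α
    → List (V × V)} {w0 : α → V} {SL : α → List V} {ρ : α → Rz} (h1 : PT c) (h2 : PT μ) (h3 : PT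
    l) (h4 : PT s) (h5 : PT t) (h6 : PT PL) (h7 : PT w0) (h8 : PT SL) (h9 : PT ρ) : PT (fun e =>
    goodK (c e) (μ e) (l e) (s e) (t e) (PL e) (w0 e) (SL e) (ρ e)) := by
  unfold goodK; fun_prop

@[fun_prop] theorem pt_candK {c : α → Cx} {l : α → V} {s : α → Sd} {ρ : α → Rz} (h1 : PT c) (h2 :
    PT l) (h3 : PT s) (h4 : PT ρ) : PT (fun e => candK (c e) (l e) (s e) (ρ e)) := by
  unfold candK; fun_prop

@[fun_prop] theorem pt_repsK {c : α → Cx} {l : α → V} {s : α → Sd} {t : α → ℕ} {w0 : α → V} {SL :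
    α → List V} {ρ : α → Rz} {θ : α → V} {δ : α → V} (h1 : PT c) (h2 : PT l) (h3 : PT s) (h4 : PT
    t) (h5 : PT w0) (h6 : PT SL) (h7 : PT ρ) (h8 : PT θ) (h9 : PT δ) : PT (fun e => repsK (c e) (l
    e) (s e) (t e) (w0 e) (SL e) (ρ e) (θ e) (δ e)) := by
  unfold repsK; fun_prop

@[fun_prop] theorem pt_engQ {c : α → Cx} {μ : α → V} {l : α → V} {s : α → Sd} {t : α → ℕ} {PL : α
    → List (V × V)} {w0 : α → V} {SL : α → List V} {δ : α → V} (h1 : PT c) (h2 : PT μ) (h3 : PT l)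
    (h4 : PT s) (h5 : PT t) (h6 : PT PL) (h7 : PT w0) (h8 : PT SL) (h9 : PT δ) : PT (fun e => engQ
    (c e) (μ e) (l e) (s e) (t e) (PL e) (w0 e) (SL e) (δ e)) := by
  unfold engQ; fun_prop

@[fun_prop] theorem pt_engP {c : α → Cx} {l : α → V} {B : α → List V} {a : α → V} {μ : α → V} {PL
    : α → List (V × V)} {w0 : α → V} {SL : α → List V} {δ : α → V} (h1 : PT c) (h2 : PT l) (h3 :
    PT B) (h4 : PT a) (h5 : PT μ) (h6 : PT PL) (h7 : PT w0) (h8 : PT SL) (h9 : PT δ) : PT (fun e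
    => engP (c e) (l e) (B e) (a e) (μ e) (PL e) (w0 e) (SL e) (δ e)) := by
  unfold engP; fun_prop

/-! ### sizes of the results -/

theorem size_genP {c : Cx} {l : V} {A : List V} {y : V} (h : y ∈ genP c l A) :
    size y ≤ bv c (u2 c) := by
  have key : ∀ (I : List ℕ) (s : List V × List V), (∀ y ∈ s.2, size y ≤ bv c (u2 c)) →
      ∀ y ∈ (I.foldl (gstep c l) s).2, size y ≤ bv c (u2 c) := fun I => by
    induction I with
    | nil => exact fun _ h => h
    | cons j I ih =>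
      refine fun s hs => ih _ fun y hy => (List.mem_append.1 hy).elim (hs y) fun hy => ?_
      obtain ⟨v, -, e⟩ := List.mem_filterMap.1 hy
      exact size_findU e
  exact key _ _ (by simp) y h

theorem len_genP (c : Cx) (l : V) (A : List V) :
    (genP c l A).length ≤ (u1 c).length * (c.2.2.length + 1) := by
  have key : ∀ (I : List ℕ) (s : List V × List V),
      (I.foldl (gstep c l) s).2.length ≤ s.2.length + I.length * (c.2.2.length + 1) := fun I => by
    induction I with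
    | nil => simp
    | cons j I ih =>
      intro s
      have h1 := ih (gstep c l s j)
      have h2 := (List.length_filterMap_le (fun v => findU c l (pinP c s.1 j v)) _).trans
        (len_blkP c l j)
      have h3 : (gstep c l s j).2.length = _ := List.length_append
      rw [List.foldl_cons, List.length_cons, Nat.add_mul]; omega
  simpa [genP, len_ran] using key (ran (u1 c)) (basis c (u2 c) A, [])

theorem size_repsK {c : Cx} {l : V} {s : Sd} {t : ℕ} {w0 : V} {SL : List V} {ρ : Rz} {θ δ y : V}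
    (h : y ∈ repsK c l s t w0 SL ρ θ δ) : size y ≤ bv c (u2 c) := by
  obtain ⟨v, -, e⟩ := List.mem_filterMap.1 h
  exact size_findU e

theorem size_engP {c : Cx} {l : V} {B : List V} {a μ : V} {PL : List (V × V)} {w0 : V}
    {SL : List V} {δ : V} {r : List V × List V × List V}
    (h : engP c l B a μ PL w0 SL δ = some r) : size r.1 ≤ bb c (u2 c) ∧
    (∀ y ∈ r.2.1, size y ≤ bv c (u2 c)) ∧ ∀ y ∈ r.2.2, size y ≤ bv c (u2 c) := by
  obtain ⟨ρ, -, rfl⟩ := Option.map_eq_some_iff.1 h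
  exact ⟨size_htP _ _ _ _ _, fun _ => size_repsK, fun _ => size_repsK⟩

end Pool.Agent.P.MP_f1a348_lc.UP
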