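import Pool.Agent.P.MP_f1a348_lc.UP.Prog
import Pool.Agent.P.MP_f1a348_lc.UP.ETime

/-!
Project UP: the recursion runs in polynomial time.
-/

namespace Pool.Agent.P.MP_f1a348_lc.UP

open Pool.Agent.Lib.Helper47 Pool.Agent.P.MP_f1a348_lc.PG
open Pool.Agent.P.MP_f1a348_lc.GI (ps_len)

set_option synthInstance.maxSize 4096

variable {α : Type} [Enc α]

@[fun_prop] theorem pt_parP {c : α → Cx} {x : α → V} (h1 : PT c) (h2 : PT x) : PT (fun ee => parP
    (c ee) (x ee)) := by
  unfold parP; fun_prop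

@[fun_prop] theorem pt_nrm {c : α → Cx} {x : α → V} (h1 : PT c) (h2 : PT x) : PT (fun ee => nrm (c
    ee) (x ee)) := by
  unfold nrm; fun_prop

@[fun_prop] theorem pt_gmul {c : α → Cx} {x : α → V} {y : α → V} (h1 : PT c) (h2 : PT x) (h3 : PT
    y) : PT (fun ee => gmul (c ee) (x ee) (y ee)) := by
  unfold gmul; fun_prop

@[fun_prop] theorem pt_ginv {c : α → Cx} {x : α → V} (h1 : PT c) (h2 : PT x) : PT (fun ee => ginv
    (c ee) (x ee)) := by
  unfold ginv; fun_prop

@[fun_prop] theorem pt_gdiv {c : α → Cx} {x : α → V} {y : α → V} (h1 : PT c) (h2 : PT x) (h3 : PT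
    y) : PT (fun ee => gdiv (c ee) (x ee) (y ee)) := by
  unfold gdiv; fun_prop

@[fun_prop] theorem pt_gcj {c : α → Cx} {h : α → V} {x : α → V} (h1 : PT c) (h2 : PT h) (h3 : PT
    x) : PT (fun ee => gcj (c ee) (h ee) (x ee)) := by
  unfold gcj; fun_prop

@[fun_prop] theorem pt_gcom {c : α → Cx} {x : α → V} {y : α → V} (h1 : PT c) (h2 : PT x) (h3 : PT
    y) : PT (fun ee => gcom (c ee) (x ee) (y ee)) := by
  unfold gcom; fun_prop

@[fun_prop] theorem pt_chk {β : Type} [Enc β] {b : α → Bool} {x : α → β} (h1 : PT b) (h2 : PT x) :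
    PT (fun ee => chk (b ee) (x ee)) := by
  unfold chk; fun_prop

@[fun_prop] theorem pt_mn {c : α → Cx} {k : α → ℕ} (h1 : PT c) (h2 : PT k) : PT (fun ee => mn (c
    ee) (k ee)) := by
  unfold mn; fun_prop

@[fun_prop] theorem pt_pwN {c : α → Cx} {k : α → ℕ} (h1 : PT c) (h2 : PT k) : PT (fun ee => pwN (c
    ee) (k ee)) :=
  PT.pow (pt_pp h1) (pt_mn h1 h2) ((ps_len h1.snd.snd).mono fun _ => Nat.min_le_right _ _)

@[fun_prop] theorem pt_uR {c : α → Cx} (h1 : PT c) : PT (fun ee => uR (c ee)) := by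
  unfold uR; fun_prop

@[fun_prop] theorem pt_simsIn {c : α → Cx} {b : α → V} {st : α → List V × List V} {g : α → V} (h1
    : PT c) (h2 : PT b) (h3 : PT st) (h4 : PT g) : PT (fun ee => simsIn (c ee) (b ee) (st ee) (g
    ee)) := by
  unfold simsIn; fun_prop

theorem size_nrm (c : Cx) (x : V) : size (nrm c x) ≤ bv c (u2 c) := by
  unfold nrm; cases parP c x <;> exact size_tab _ _ _

theorem size_gmul (c : Cx) (x y : V) : size (gmul c x y) ≤ bv c (u2 c) := size_tab _ _ _

theorem simsIn_bd (c : Cx) (b : V) (st : List V × List V) (g : V) :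
    size (simsIn c b st g) ≤ size st + (bv c (u2 c) + 1) ∧
      (simsIn c b st g).2.length ≤ st.2.length + 1 := by
  unfold simsIn
  have h1 := size_nrm c g
  rw [size_prod st]
  cases st.1.find? _ with
  | none => simp only [Option.elim_none, size_pair, size_cons]; omega
  | some r =>
    have h2 : size (gdiv c r g) ≤ _ := size_gmul c _ _
    simp only [Option.elim_some, size_pair, size_cons, List.length_cons]; omega

theorem simsFold_bd (c : Cx) (b : V) (S : List V) :
    size (simsFold c b S) ≤ S.length * (bv c (u2 c) + 1) + 3 ∧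
      (simsFold c b S).2.length ≤ S.length := by
  unfold simsFold
  induction S using List.reverseRecOn with
  | nil => simp
  | append_singleton S g ih =>
    have := simsIn_bd c b (S.foldl (simsIn c b) ([], [])) g
    rw [List.foldl_append, List.length_append, Nat.add_mul]
    simp only [List.foldl_cons, List.foldl_nil, List.length_singleton]
    omega

@[fun_prop] theorem pt_simsFold {c : α → Cx} {b : α → V} {S : α → List V} (h1 : PT c) (h2 : PT b)
    (h3 : PT S) : PT (fun ee => simsFold (c ee) (b ee) (S ee)) :=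
  PT.foldl_add (f := fun e st g => simsIn (c e) (b e) st g) (by fun_prop) h3 (by fun_prop) _
    ((ps_bv h1 (pt_u2 h1)).add (PB.const 1)) fun _ _ _ _ => (simsIn_bd _ _ _ _).1

@[fun_prop] theorem pt_simsStep {c : α → Cx} {st : α → List V × List V} {b : α → V} (h1 : PT c)
    (h2 : PT st) (h3 : PT b) : PT (fun ee => simsStep (c ee) (st ee) (b ee)) := by
  unfold simsStep; fun_prop

@[fun_prop] theorem pt_red {c : α → Cx} {S : α → List V} (h1 : PT c) (h2 : PT S) : PT (fun ee =>
    red (c ee) (S ee)) := by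
  have : PT fun e => (units (c e) (u1 (c e))).foldl (simsStep (c e)) ([], S e) :=
    foldl_ia (f := fun e st b => simsStep (c e) st b) (by fun_prop) (by fun_prop) (by fun_prop)
      (fun e st => st.2.length ≤ (S e).length) (fun _ => le_rfl) _
      (((ps_len h2).mul ((ps_bv h1 (pt_u2 h1)).add (PB.const 1))).add (PB.const 3))
      fun e st b h => by
        obtain ⟨a1, a2⟩ := simsFold_bd (c e) b st.2
        have a3 := size_append (simsFold (c e) b st.2).1 st.1
        have a4 := Nat.mul_le_mul_right (bv (c e) (u2 (c e)) + 1) h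
        rw [size_prod] at a1
        rw [simsStep, size_pair, size_prod st]
        exact ⟨a2.trans h, by omega⟩
  unfold red; fun_prop

@[fun_prop] theorem pt_bfsStep {c : α → Cx} {t : α → V → Bool} {S : α → List V} {R : α → List V}
    (h1 : PT c) (h2 : PT (fun qq : α × V => t qq.1 qq.2)) (h3 : PT S) (h4 : PT R) : PT (fun ee =>
    bfsStep (c ee) (t ee) (S ee) (R ee)) := by
  unfold bfsStep; fun_prop

/-- bound for a short list of generators -/
def bR (c : Cx) : ℕ := c.2.2.length * (bv c (u2 c) + 1) + 1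

theorem ps_bR {c : α → Cx} (h1 : PT c) : Lib.Helper47.PS (fun e => bR (c e)) :=
  ((ps_len h1.snd.snd).mul ((ps_bv h1 (pt_u2 h1)).add (PB.const 1))).add (PB.const 1)

theorem size_red (c : Cx) (S : List V) : size (red c S) ≤ bR c :=
  size_list_le' (fun x hx => by
    obtain ⟨y, -, rfl⟩ := List.mem_map.1 hx
    exact size_nrm _ _) (by rw [red, List.length_map]; exact List.length_take_le _ _)

theorem size_bfsStep (c : Cx) (t : V → Bool) (S R : List V) :
    size (bfsStep c t S R) ≤ size R + (bv c (u2 c) + 1) := by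
  unfold bfsStep
  cases e : List.find? _ _ with
  | none => simp
  | some x =>
    obtain ⟨s, -, h⟩ := List.mem_flatMap.1 (List.mem_of_find?_eq_some e)
    obtain ⟨r, -, rfl⟩ := List.mem_map.1 h
    have := size_gmul c s r
    simp only [Option.toList_some, List.cons_append, List.nil_append, size_cons]; omega

@[fun_prop] theorem pt_bfs {c : α → Cx} {t : α → V → Bool} {S : α → List V} (h1 : PT c) (h2 : PT
    (fun qq : α × V => t qq.1 qq.2)) (h3 : PT S) : PT (fun ee => bfs (c ee) (t ee) (S ee)) :=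
  PT.foldl_add (f := fun e R _ => bfsStep (c e) (t e) (S e) R) (by fun_prop) (by fun_prop)
    (by fun_prop) _ ((ps_bv h1 (pt_u2 h1)).add (PB.const 1)) fun _ _ _ _ => size_bfsStep _ _ _ _

@[fun_prop] theorem pt_sch {c : α → Cx} {R : α → List V} {S : α → List V} (h1 : PT c) (h2 : PT R)
    (h3 : PT S) : PT (fun ee => sch (c ee) (R ee) (S ee)) := by
  unfold sch; fun_prop

@[fun_prop] theorem pt_subG {c : α → Cx} {t : α → V → Bool} {S : α → List V} (h1 : PT c) (h2 : PT
    (fun qq : α × V => t qq.1 qq.2)) (h3 : PT S) : PT (fun ee => subG (c ee) (t ee) (S ee)) := by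
  unfold subG; fun_prop

theorem size_subs (c : Cx) (t : ℕ → V → Bool) (I : List ℕ) (S : List V) :
    size (subs c t I S) ≤ bR c := by
  unfold subs
  induction I using List.reverseRecOn with
  | nil => exact size_red _ _
  | append_singleton I i _ => rw [List.foldl_append]; exact size_red _ _

@[fun_prop] theorem pt_subs {c : α → Cx} {t : α → ℕ → V → Bool} {I : α → List ℕ} {S : α → List V}
    (h1 : PT c) (h2 : PT (fun qq : α × ℕ × V => t qq.1 qq.2.1 qq.2.2)) (h3 : PT I) (h4 : PT S) :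
    PT (fun ee => subs (c ee) (t ee) (I ee) (S ee)) :=
  PT.foldl_add (f := fun e S i => subG (c e) (t e i) S) (by fun_prop) h3 (by fun_prop) _
    (ps_bR h1) fun _ _ _ _ => (size_red _ _).trans (Nat.le_add_left _ _)

@[fun_prop] theorem pt_cosStep {c : α → Cx} {t : α → ℕ → V → Bool} {q : α → ℕ → V → Bool} {s : α →
    V × List V} {i : α → ℕ} (h1 : PT c) (h2 : PT (fun qq : α × ℕ × V => t qq.1 qq.2.1 qq.2.2)) (h3
    : PT (fun qq : α × ℕ × V => q qq.1 qq.2.1 qq.2.2)) (h4 : PT s) (h5 : PT i) : PT (fun ee =>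
    cosStep (c ee) (t ee) (q ee) (s ee) (i ee)) := by
  unfold cosStep; fun_prop

theorem size_cosStep (c : Cx) (t q : ℕ → V → Bool) (s : V × List V) (i : ℕ) :
    size (cosStep c t q s i) ≤ bv c (u2 c) + bR c + 1 := by
  have h1 : size (subG c (t i) s.2) ≤ _ := size_red _ _
  have h2 : size (cosStep c t q s i).1 ≤ bv c (u2 c) := by
    unfold cosStep
    cases e : List.find? _ _ with
    | none => exact size_nrm _ _
    | some x =>
      obtain ⟨r, -, rfl⟩ := List.mem_map.1 (List.mem_of_find?_eq_some e)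
      exact size_gmul _ _ _
  exact (size_prod _).trans_le (Nat.succ_le_succ (Nat.add_le_add h2 h1))

@[fun_prop] theorem pt_cos {c : α → Cx} {t : α → ℕ → V → Bool} {q : α → ℕ → V → Bool} {I : α →
    List ℕ} {g : α → V} {S : α → List V} (h1 : PT c) (h2 : PT (fun qq : α × ℕ × V => t qq.1 qq.2.1
    qq.2.2)) (h3 : PT (fun qq : α × ℕ × V => q qq.1 qq.2.1 qq.2.2)) (h4 : PT I) (h5 : PT g) (h6 :
    PT S) : PT (fun ee => cos (c ee) (t ee) (q ee) (I ee) (g ee) (S ee)) :=
  PT.fst (PT.foldl_add (f := fun e s i => cosStep (c e) (t e) (q e) s i) (by fun_prop) h4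
    (by fun_prop) _ (((ps_bv h1 (pt_u2 h1)).add (ps_bR h1)).add (PB.const 1)) fun _ _ _ _ =>
      (size_cosStep _ _ _ _ _).trans (Nat.le_add_left _ _))

@[fun_prop] theorem pt_colT {c : α → Cx} {ρ : α → V → V} {z : α → V} {i : α → ℕ} {x : α → V} (h1 :
    PT c) (h2 : PT (fun qq : α × V => ρ qq.1 qq.2)) (h3 : PT z) (h4 : PT i) (h5 : PT x) : PT (fun
    ee => colT (c ee) (ρ ee) (z ee) (i ee) (x ee)) := by
  unfold colT; fun_prop

@[fun_prop] theorem pt_fixP {c : α → Cx} {ρ : α → V → V} {I : α → List ℕ} {S : α → List V} (h1 :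
    PT c) (h2 : PT (fun qq : α × V => ρ qq.1 qq.2)) (h3 : PT I) (h4 : PT S) : PT (fun ee => fixP
    (c ee) (ρ ee) (I ee) (S ee)) := by
  unfold fixP; fun_prop

@[fun_prop] theorem pt_kerP {c : α → Cx} {ρ : α → V → V} {S : α → List V} (h1 : PT c) (h2 : PT
    (fun qq : α × V => ρ qq.1 qq.2)) (h3 : PT S) : PT (fun ee => kerP (c ee) (ρ ee) (S ee)) := by
  unfold kerP; fun_prop

@[fun_prop] theorem pt_liftP {c : α → Cx} {ρ : α → V → V} {S : α → List V} {z : α → V} (h1 : PT c)
    (h2 : PT (fun qq : α × V => ρ qq.1 qq.2)) (h3 : PT S) (h4 : PT z) : PT (fun ee => liftP (c ee)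
    (ρ ee) (S ee) (z ee)) := by
  unfold liftP; fun_prop

@[fun_prop] theorem pt_memG {c : α → Cx} {S : α → List V} {x : α → V} (h1 : PT c) (h2 : PT S) (h3
    : PT x) : PT (fun ee => memG (c ee) (S ee) (x ee)) := by
  unfold memG; fun_prop

@[fun_prop] theorem pt_klP {c : α → Cx} {ρ : α → V → V} {S : α → List V} {W : α → List V} (h1 : PT
    c) (h2 : PT (fun qq : α × V => ρ qq.1 qq.2)) (h3 : PT S) (h4 : PT W) : PT (fun ee => klP (c
    ee) (ρ ee) (S ee) (W ee)) := by
  unfold klP; fun_prop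

@[fun_prop] theorem pt_capN {c : α → Cx} {A : α → List V} {K : α → List V} (h1 : PT c) (h2 : PT A)
    (h3 : PT K) : PT (fun ee => capN (c ee) (A ee) (K ee)) := by
  unfold capN; fun_prop

@[fun_prop] theorem pt_ncl {c : α → Cx} {H : α → List V} {X : α → List V} (h1 : PT c) (h2 : PT H)
    (h3 : PT X) : PT (fun ee => ncl (c ee) (H ee) (X ee)) :=
  PT.foldl_add (f := fun e Y _ => red (c e) (Y ++ (H e).flatMap fun h => Y.map (gcj (c e) h)))
    (by fun_prop) (by fun_prop) (by fun_prop) _ (ps_bR h1) fun _ _ _ _ =>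
      (size_red _ _).trans (Nat.le_add_left _ _)

@[fun_prop] theorem pt_frG {c : α → Cx} {Y : α → List V} (h1 : PT c) (h2 : PT Y) : PT (fun ee =>
    frG (c ee) (Y ee)) := by
  unfold frG; fun_prop

@[fun_prop] theorem pt_envP {c : α → Cx} {S : α → List V} (h1 : PT c) (h2 : PT S) : PT (fun ee =>
    envP (c ee) (S ee)) :=
  PT.foldl_add (f := fun e B _ => basis (c e) (u2 (c e))
      (B ++ (S e).flatMap fun s => B.map (mmul (c e) (nrm (c e) s))))
    (by fun_prop) (by fun_prop) (by fun_prop) _ (ps_bb h1 (pt_u2 h1)) fun _ _ _ _ =>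
      (size_basis _ _ _).trans (Nat.le_add_left _ _)

@[fun_prop] theorem pt_labP {c : α → Cx} {l : α → V} (h1 : PT c) (h2 : PT l) : PT (fun ee => labP
    (c ee) (l ee)) := by
  unfold labP; fun_prop

@[fun_prop] theorem pt_nl {c : α → Cx} {l : α → V} (h1 : PT c) (h2 : PT l) : PT (fun ee => nl (c
    ee) (l ee)) := by
  unfold nl; fun_prop

@[fun_prop] theorem pt_frP {c : α → Cx} {f : α → V} {x : α → V} (h1 : PT c) (h2 : PT f) (h3 : PT
    x) : PT (fun ee => frP (c ee) (f ee) (x ee)) := by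
  unfold frP; fun_prop

@[fun_prop] theorem pt_lcP {c : α → Cx} {l : α → V} {e : α → V} {y : α → V} (h1 : PT c) (h2 : PT
    l) (h3 : PT e) (h4 : PT y) : PT (fun ee => lcP (c ee) (l ee) (e ee) (y ee)) := by
  unfold lcP; fun_prop

@[fun_prop] theorem pt_locP {c : α → Cx} {f : α → V} {l : α → V} {e : α → V} {x : α → V} (h1 : PT
    c) (h2 : PT f) (h3 : PT l) (h4 : PT e) (h5 : PT x) : PT (fun ee => locP (c ee) (f ee) (l ee)
    (e ee) (x ee)) := by
  unfold locP; fun_prop

@[fun_prop] theorem pt_cfQ {c : α → Cx} {f : α → V} {x : α → Lt} (h1 : PT c) (h2 : PT f) (h3 : PT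
    x) : PT (fun ee => cfQ (c ee) (f ee) (x ee)) := by
  unfold cfQ; fun_prop

@[fun_prop] theorem pt_cfP {c : α → Cx} {f : α → V} {l : α → V} {R : α → List V} (h1 : PT c) (h2 :
    PT f) (h3 : PT l) (h4 : PT R) : PT (fun ee => cfP (c ee) (f ee) (l ee) (R ee)) := by
  unfold cfP; fun_prop

@[fun_prop] theorem pt_smlQ {c : α → Cx} {l : α → V} {s : α → Sd} (h1 : PT c) (h2 : PT l) (h3 : PT
    s) : PT (fun ee => smlQ (c ee) (l ee) (s ee)) := by
  unfold smlQ; fun_prop

@[fun_prop] theorem pt_smlP {c : α → Cx} {x : α → Lt} (h1 : PT c) (h2 : PT x) : PT (fun ee => smlP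
    (c ee) (x ee)) := by
  unfold smlP; fun_prop

@[fun_prop] theorem pt_miP {c : α → Cx} {R : α → List V} {x : α → Lt} {I : α → List ℕ} (h1 : PT c)
    (h2 : PT R) (h3 : PT x) (h4 : PT I) : PT (fun ee => miP (c ee) (R ee) (x ee) (I ee)) := by
  unfold miP; fun_prop

@[fun_prop] theorem pt_cjP {c : α → Cx} {g : α → V} {y : α → V} (h1 : PT c) (h2 : PT g) (h3 : PT
    y) : PT (fun ee => cjP (c ee) (g ee) (y ee)) := by
  unfold cjP; fun_prop

@[fun_prop] theorem pt_nmT {c : α → Cx} {I : α → List V} {g : α → V} (h1 : PT c) (h2 : PT I) (h3 :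
    PT g) : PT (fun ee => nmT (c ee) (I ee) (g ee)) := by
  unfold nmT; fun_prop

@[fun_prop] theorem pt_cenT {c : α → Cx} {R : α → List V} {I : α → List V} {g : α → V} (h1 : PT c)
    (h2 : PT R) (h3 : PT I) (h4 : PT g) : PT (fun ee => cenT (c ee) (R ee) (I ee) (g ee)) := by
  unfold cenT; fun_prop

@[fun_prop] theorem pt_p2 {c : α → Cx} {k : α → ℕ} (h1 : PT c) (h2 : PT k) : PT (fun ee => p2 (c
    ee) (k ee)) :=
  PT.pow (PT.const 2) (by fun_prop) ((ps_len h1.snd.fst).mono fun _ => Nat.min_le_right _ _)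

@[fun_prop] theorem pt_hP {c : α → Cx} (h1 : PT c) : PT (fun ee => hP (c ee)) := by
  unfold hP; fun_prop

section
variable {β : Type} [Enc β] {F : α → List (ℕ × β)}

@[fun_prop] theorem pt_up (h : PT F) : PT (fun e => up (F e)) := by unfold up; fun_prop

@[fun_prop] theorem pt_dn (h : PT F) : PT (fun e => dn (F e)) := by unfold dn; fun_prop

@[fun_prop] theorem pt_tops (h : PT F) : PT (fun e => tops (F e)) := by unfold tops; fun_prop

end

@[fun_prop] theorem pt_dyP {c : α → Cx} (h1 : PT c) : PT (fun ee => dyP (c ee)) := by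
  have h2 := pt_hP h1
  have h3 : PT fun e => hP (c e) * p2 (c e) (mM (c e)) := by fun_prop
  refine foldl_cnt (f := fun e D _ => (0, 0) :: (up D ++ D.map fun r => (r.1 + 1, r.2 + p2 (c e) r.1)))
    (by fun_prop) (by fun_prop) (by fun_prop)
    (fun e n D => D.length + 1 ≤ 2 ^ (n + 1) ∧ ∀ r ∈ D, r.1 ≤ n ∧ r.2 ≤ n * p2 (c e) (mM (c e)))
    (fun e => by simp) (fun e n D _ _ h => ⟨?_, fun r hr => ?_⟩) _
    (((((PB.const 4).mul (ps_len h1.snd.fst)).add (PB.const 2)).mul ((((PB.const 4).mul h2.size_le).add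
      ((PB.const 4).mul h3.size_le)).add (PB.const 2))).add (PB.const 1)) fun e n D hn h => ?_
  · have := h.1
    simp only [List.length_cons, List.length_append, up, List.length_map]
    rw [pow_succ]; omega
  · rw [Nat.add_mul, one_mul]
    rcases List.mem_cons.1 hr with rfl | hr
    · exact ⟨Nat.zero_le _, Nat.zero_le _⟩
    rcases List.mem_append.1 hr with hr | hr <;> obtain ⟨q, hq, rfl⟩ := List.mem_map.1 hr
    · exact ⟨Nat.succ_le_succ (h.2 q hq).1, (h.2 q hq).2.trans (Nat.le_add_right _ _)⟩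
    · exact ⟨Nat.succ_le_succ (h.2 q hq).1, Nat.add_le_add (h.2 q hq).2
        (Nat.pow_le_pow_right two_pos (by omega))⟩
  · refine size_list_le' (B := 4 * size (hP (c e)) + 4 * size (hP (c e) * p2 (c e) (mM (c e))) + 1)
      (fun r hr => ?_) ?_
    · have a1 := size_nat_mono ((h.2 r hr).1.trans hn)
      have a2 := size_nat_mono ((h.2 r hr).2.trans (Nat.mul_le_mul_right _ hn))
      rw [size_prod]
      exact Nat.succ_le_succ (Nat.add_le_add a1 a2)
    · have a1 := h.1
      rw [Nat.size_eq_bits_len] at hn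
      change _ ≤ 4 * mM (c e) + 2
      rcases n with _ | n
      · omega
      · have := Nat.lt_size.1 hn
        rw [pow_succ, pow_succ] at a1
        omega

@[fun_prop] theorem pt_dIP {c : α → Cx} {I : α → List ℕ} {j : α → ℕ} {i : α → ℕ} (h1 : PT c) (h2 :
    PT I) (h3 : PT j) (h4 : PT i) : PT (fun ee => dIP (c ee) (I ee) (j ee) (i ee)) := by
  unfold dIP; fun_prop

@[fun_prop] theorem pt_trK {c : α → Cx} {H : α → List V} {R : α → List V} {x : α → Lt} {J : α →
    List ℕ} (h1 : PT c) (h2 : PT H) (h3 : PT R) (h4 : PT x) (h5 : PT J) : PT (fun ee => trK (c ee)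
    (H ee) (R ee) (x ee) (J ee)) := by
  unfold trK; fun_prop

@[fun_prop] theorem pt_trP {c : α → Cx} {H : α → List V} {R : α → List V} {x : α → Lt} {J : α →
    List ℕ} {J' : α → List ℕ} (h1 : PT c) (h2 : PT H) (h3 : PT R) (h4 : PT x) (h5 : PT J) (h6 : PT
    J') : PT (fun ee => trP (c ee) (H ee) (R ee) (x ee) (J ee) (J' ee)) := by
  unfold trP; fun_prop

@[fun_prop] theorem pt_treeP {c : α → Cx} {H : α → List V} {R : α → List V} {x : α → Lt} {I : α →
    List ℕ} (h1 : PT c) (h2 : PT H) (h3 : PT R) (h4 : PT x) (h5 : PT I) : PT (fun ee => treeP (c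
    ee) (H ee) (R ee) (x ee) (I ee)) := by
  unfold treeP; fun_prop

@[fun_prop] theorem pt_coreQ {c : α → Cx} {H : α → List V} {Z : α → List V} {R : α → List V} {x :
    α → Lt} {F : α → Fo} (h1 : PT c) (h2 : PT H) (h3 : PT Z) (h4 : PT R) (h5 : PT x) (h6 : PT F) :
    PT (fun ee => coreQ (c ee) (H ee) (Z ee) (R ee) (x ee) (F ee)) := by
  unfold coreQ; fun_prop

@[fun_prop] theorem pt_coreR {c : α → Cx} {H : α → List V} {Z : α → List V} {R : α → List V} {F :
    α → Fo} (h1 : PT c) (h2 : PT H) (h3 : PT Z) (h4 : PT R) (h5 : PT F) : PT (fun ee => coreR (c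
    ee) (H ee) (Z ee) (R ee) (F ee)) := by
  unfold coreR; fun_prop

@[fun_prop] theorem pt_coreStep {c : α → Cx} {H : α → List V} {s : α → List V × Fo} (h1 : PT c)
    (h2 : PT H) (h3 : PT s) : PT (fun ee => coreStep (c ee) (H ee) (s ee)) := by
  unfold coreStep; fun_prop

theorem size_treeP (c : Cx) (H R : List V) (x : Lt) (I : List ℕ) :
    size (treeP c H R x I) ≤ (dyP c).length * (size (dyP c) + 2 * bR c + 1) + 1 := by
  refine size_list_le' (fun y hy => ?_) (by rw [treeP, List.length_map])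
  obtain ⟨r, hr, rfl⟩ := List.mem_map.1 hy
  have h1 := size_lt_of_mem hr
  have h2 : ∀ J, size (trK c H R x J) ≤ bR c := fun J => size_subs _ _ _ _
  have h3 : ∀ J J', size (trP c H R x J J') ≤ bR c := fun J J' => size_red _ _
  have h4 := h2 (dIP c I r.1 r.2)
  have h5 := h3 (dIP c I (r.1 + 1) (2 * r.2)) (dIP c I (r.1 + 1) (2 * r.2 + 1))
  have h6 := size_pos r.2
  rw [size_prod] at h1
  cases r.1 == hP c <;> simp only [size_pair, cond_true, cond_false] <;> omega

theorem size_coreStep (c : Cx) (H : List V) (s : List V × Fo) : size (coreStep c H s) ≤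
    size s + (bR c + ((dyP c).length * (size (dyP c) + 2 * bR c + 1) + 1)) := by
  unfold coreStep coreR coreQ
  generalize cfP _ _ _ _ = x
  have h1 := size_treeP c H (envP c (frG c s.1)) x (smlP c x)
  have h2 : size (fixP c (fun g => grP c x.1 (frP c x.2.1 g)) (smlP c x) (frG c s.1)) ≤ _ :=
    size_subs _ _ _ _
  have h3 := size_append s.2 (treeP c H (envP c (frG c s.1)) x (smlP c x))
  rw [size_pair, size_prod s]; omega

@[fun_prop] theorem pt_coreP {c : α → Cx} {H : α → List V} {N : α → List V} (h1 : PT c) (h2 : PT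
    H) (h3 : PT N) : PT (fun ee => coreP (c ee) (H ee) (N ee)) :=
  PT.foldl_add (f := fun e s _ => coreStep (c e) (H e) s) (by fun_prop) (by fun_prop)
    (by fun_prop) _ ((ps_bR h1).add (((ps_len (pt_dyP h1)).mul (((pt_dyP h1).size_le.add
      ((PB.const 2).mul (ps_bR h1))).add (PB.const 1))).add (PB.const 1)))
    fun _ _ _ _ => size_coreStep _ _ _

@[fun_prop] theorem pt_sG {s : α → PS} (h1 : PT s) : PT (fun ee => sG (s ee)) := by
  unfold sG; fun_prop

@[fun_prop] theorem pt_sX {s : α → PS} (h1 : PT s) : PT (fun ee => sX (s ee)) := by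
  unfold sX; fun_prop

@[fun_prop] theorem pt_sF {s : α → PS} (h1 : PT s) : PT (fun ee => sF (s ee)) := by
  unfold sF; fun_prop

@[fun_prop] theorem pt_sT {s : α → PS} (h1 : PT s) : PT (fun ee => sT (s ee)) := by
  unfold sT; fun_prop

@[fun_prop] theorem pt_sT' {s : α → PS} (h1 : PT s) : PT (fun ee => sT' (s ee)) := by
  unfold sT'; fun_prop

@[fun_prop] theorem pt_sP {s : α → PS} {j : α → ℕ} (h1 : PT s) (h2 : PT j) : PT (fun ee => sP (s
    ee) (j ee)) := by
  unfold sP; fun_prop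

@[fun_prop] theorem pt_fm {c : α → Cx} {s : α → PS} (h1 : PT c) (h2 : PT s) : PT (fun ee => fm (c
    ee) (s ee)) := by
  unfold fm; fun_prop

@[fun_prop] theorem pt_lP {c : α → Cx} {s : α → PS} (h1 : PT c) (h2 : PT s) : PT (fun ee => lP (c
    ee) (s ee)) := by
  unfold lP; fun_prop

@[fun_prop] theorem pt_aj {c : α → Cx} {s : α → PS} {j : α → ℕ} (h1 : PT c) (h2 : PT s) (h3 : PT
    j) : PT (fun ee => aj (c ee) (s ee) (j ee)) := by
  unfold aj; fun_prop

@[fun_prop] theorem pt_a3 {c : α → Cx} {s : α → PS} (h1 : PT c) (h2 : PT s) : PT (fun ee => a3 (c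
    ee) (s ee)) := by
  unfold a3; fun_prop

@[fun_prop] theorem pt_muP {c : α → Cx} {s : α → PS} (h1 : PT c) (h2 : PT s) : PT (fun ee => muP
    (c ee) (s ee)) := by
  unfold muP; fun_prop

@[fun_prop] theorem pt_inL {c : α → Cx} {s : α → PS} {b : α → ℕ} (h1 : PT c) (h2 : PT s) (h3 : PT
    b) : PT (fun ee => inL (c ee) (s ee) (b ee)) := by
  unfold inL; fun_prop

@[fun_prop] theorem pt_llP {c : α → Cx} {s : α → PS} (h1 : PT c) (h2 : PT s) : PT (fun ee => llP
    (c ee) (s ee)) := by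
  unfold llP; fun_prop

@[fun_prop] theorem pt_loP {c : α → Cx} {s : α → PS} {x : α → V} (h1 : PT c) (h2 : PT s) (h3 : PT
    x) : PT (fun ee => loP (c ee) (s ee) (x ee)) := by
  unfold loP; fun_prop

@[fun_prop] theorem pt_leP {c : α → Cx} {s : α → PS} {Y : α → List V} (h1 : PT c) (h2 : PT s) (h3
    : PT Y) : PT (fun ee => leP (c ee) (s ee) (Y ee)) := by
  unfold leP; fun_prop

@[fun_prop] theorem pt_phP {c : α → Cx} {s : α → PS} {A : α → List V} (h1 : PT c) (h2 : PT s) (h3
    : PT A) : PT (fun ee => phP (c ee) (s ee) (A ee)) := by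
  unfold phP; fun_prop

@[fun_prop] theorem pt_dlP {c : α → Cx} {s : α → PS} {w : α → V} (h1 : PT c) (h2 : PT s) (h3 : PT
    w) : PT (fun ee => dlP (c ee) (s ee) (w ee)) := by
  unfold dlP; fun_prop

@[fun_prop] theorem pt_kpP {c : α → Cx} {s : α → PS} {w : α → V} {g : α → V} (h1 : PT c) (h2 : PT
    s) (h3 : PT w) (h4 : PT g) : PT (fun ee => kpP (c ee) (s ee) (w ee) (g ee)) := by
  unfold kpP; fun_prop

@[fun_prop] theorem pt_n1P {c : α → Cx} {s : α → PS} {Y : α → List V} (h1 : PT c) (h2 : PT s) (h3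
    : PT Y) : PT (fun ee => n1P (c ee) (s ee) (Y ee)) := by
  unfold n1P; fun_prop

@[fun_prop] theorem pt_ksT {c : α → Cx} {s : α → PS} {j : α → ℕ} {x : α → V} (h1 : PT c) (h2 : PT
    s) (h3 : PT j) (h4 : PT x) : PT (fun ee => ksT (c ee) (s ee) (j ee) (x ee)) := by
  unfold ksT; fun_prop

@[fun_prop] theorem pt_xkP {c : α → Cx} {s : α → PS} {j : α → ℕ} {Y : α → List V} (h1 : PT c) (h2
    : PT s) (h3 : PT j) (h4 : PT Y) : PT (fun ee => xkP (c ee) (s ee) (j ee) (Y ee)) := by
  unfold xkP; fun_prop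

@[fun_prop] theorem pt_tbP {c : α → Cx} {s : α → PS} (h1 : PT c) (h2 : PT s) : PT (fun ee => tbP
    (c ee) (s ee)) := by
  unfold tbP; fun_prop

@[fun_prop] theorem pt_preP {c : α → Cx} {s : α → PS} {Y : α → List V} {A : α → List V} (h1 : PT
    c) (h2 : PT s) (h3 : PT Y) (h4 : PT A) : PT (fun ee => preP (c ee) (s ee) (Y ee) (A ee)) := by
  unfold preP; fun_prop

@[fun_prop] theorem pt_spS {c : α → Cx} {s : α → PS} (h1 : PT c) (h2 : PT s) : PT (fun ee => spS
    (c ee) (s ee)) := by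
  unfold spS; fun_prop

@[fun_prop] theorem pt_leafT {c : α → Cx} {s : α → PS} (h1 : PT c) (h2 : PT s) : PT (fun ee =>
    leafT (c ee) (s ee)) := by
  unfold leafT; fun_prop

@[fun_prop] theorem pt_crdT {c : α → Cx} {s : α → PS} {w : α → V} {i : α → ℕ} {x : α → V} (h1 : PT
    c) (h2 : PT s) (h3 : PT w) (h4 : PT i) (h5 : PT x) : PT (fun ee => crdT (c ee) (s ee) (w ee)
    (i ee) (x ee)) := by
  unfold crdT; fun_prop

@[fun_prop] theorem pt_solP {c : α → Cx} {s : α → PS} {w : α → V} {g : α → V} (h1 : PT c) (h2 : PT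
    s) (h3 : PT w) (h4 : PT g) : PT (fun ee => solP (c ee) (s ee) (w ee) (g ee)) := by
  unfold solP; fun_prop

@[fun_prop] theorem pt_leafH {c : α → Cx} {s : α → PS} (h1 : PT c) (h2 : PT s) : PT (fun ee =>
    leafH (c ee) (s ee)) := by
  unfold leafH; fun_prop

@[fun_prop] theorem pt_leafS {c : α → Cx} {s : α → PS} (h1 : PT c) (h2 : PT s) : PT (fun ee =>
    leafS (c ee) (s ee)) := by
  unfold leafS; fun_prop

@[fun_prop] theorem pt_outQ {H : α → List V} {y : α → List V × Fo} {φ : α → Option V} (h1 : PT H)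
    (h2 : PT y) (h3 : PT φ) : PT (fun ee => outQ (H ee) (y ee) (φ ee)) := by
  unfold outQ; fun_prop

@[fun_prop] theorem pt_outC {c : α → Cx} {s : α → PS} {H : α → List V} {φ : α → Option V} (h1 : PT
    c) (h2 : PT s) (h3 : PT H) (h4 : PT φ) : PT (fun ee => outC (c ee) (s ee) (H ee) (φ ee)) := by
  unfold outC; fun_prop

@[fun_prop] theorem pt_paidP {c : α → Cx} {s : α → PS} {k : α → ℕ} {A : α → List V} (h1 : PT c)
    (h2 : PT s) (h3 : PT k) (h4 : PT A) : PT (fun ee => paidP (c ee) (s ee) (k ee) (A ee)) := by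
  unfold paidP; fun_prop

@[fun_prop] theorem pt_brS {s : α → PS} {Q : α → List V} {π : α → List (Option PPt)} {R : α → List
    V} (h1 : PT s) (h2 : PT Q) (h3 : PT π) (h4 : PT R) : PT (fun ee => brS (s ee) (Q ee) (π ee) (R
    ee)) := by
  unfold brS; fun_prop

@[fun_prop] theorem pt_tryR {c : α → Cx} {s : α → PS} {Q : α → List V} {R : α → List V} (h1 : PT
    c) (h2 : PT s) (h3 : PT Q) (h4 : PT R) : PT (fun ee => tryR (c ee) (s ee) (Q ee) (R ee)) := by
  unfold tryR; fun_prop

@[fun_prop] theorem pt_tryQ {c : α → Cx} {s : α → PS} {t : α → V → Bool} (h1 : PT c) (h2 : PT s)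
    (h3 : PT (fun qq : α × V => t qq.1 qq.2)) : PT (fun ee => tryQ (c ee) (s ee) (t ee)) := by
  unfold tryQ; fun_prop

@[fun_prop] theorem pt_ruleA {c : α → Cx} {s : α → PS} (h1 : PT c) (h2 : PT s) : PT (fun ee =>
    ruleA (c ee) (s ee)) := by
  unfold ruleA; fun_prop

@[fun_prop] theorem pt_qbT {c : α → Cx} {s : α → PS} {W : α → List V} {v : α → V} {x : α → V} (h1
    : PT c) (h2 : PT s) (h3 : PT W) (h4 : PT v) (h5 : PT x) : PT (fun ee => qbT (c ee) (s ee) (W
    ee) (v ee) (x ee)) := by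
  unfold qbT; fun_prop

@[fun_prop] theorem pt_ruleB {c : α → Cx} {s : α → PS} (h1 : PT c) (h2 : PT s) : PT (fun ee =>
    ruleB (c ee) (s ee)) := by
  unfold ruleB; fun_prop

@[fun_prop] theorem pt_ptP {c : α → Cx} {s : α → PS} {j : α → ℕ} (h1 : PT c) (h2 : PT s) (h3 : PT
    j) : PT (fun ee => ptP (c ee) (s ee) (j ee)) := by
  unfold ptP; fun_prop

@[fun_prop] theorem pt_secP {c : α → Cx} {π : α → PPt} {x : α → V} (h1 : PT c) (h2 : PT π) (h3 :
    PT x) : PT (fun ee => secP (c ee) (π ee) (x ee)) := by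
  unfold secP; fun_prop

@[fun_prop] theorem pt_trn {c : α → Cx} {π : α → PPt} {A : α → List V} {Z : α → List V} (h1 : PT
    c) (h2 : PT π) (h3 : PT A) (h4 : PT Z) : PT (fun ee => trn (c ee) (π ee) (A ee) (Z ee)) := by
  unfold trn; fun_prop

@[fun_prop] theorem pt_abT {c : α → Cx} {s : α → PS} {j : α → ℕ} {C : α → List V} (h1 : PT c) (h2
    : PT s) (h3 : PT j) (h4 : PT C) : PT (fun ee => abT (c ee) (s ee) (j ee) (C ee)) := by
  unfold abT; fun_prop

@[fun_prop] theorem pt_setP {s : α → PS} {j : α → ℕ} {π : α → PPt} (h1 : PT s) (h2 : PT j) (h3 :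
    PT π) : PT (fun ee => setP (s ee) (j ee) (π ee)) := by
  unfold setP; fun_prop

@[fun_prop] theorem pt_brE {c : α → Cx} {s : α → PS} {j : α → ℕ} {π : α → PPt} {Q : α → List V}
    (h1 : PT c) (h2 : PT s) (h3 : PT j) (h4 : PT π) (h5 : PT Q) : PT (fun ee => brE (c ee) (s ee)
    (j ee) (π ee) (Q ee)) := by
  unfold brE; fun_prop

@[fun_prop] theorem pt_brD {c : α → Cx} {s : α → PS} {j : α → ℕ} {π : α → PPt} {P : α → List V} {F
    : α → Fo} (h1 : PT c) (h2 : PT s) (h3 : PT j) (h4 : PT π) (h5 : PT P) (h6 : PT F) : PT (fun ee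
    => brD (c ee) (s ee) (j ee) (π ee) (P ee) (F ee)) := by
  unfold brD; fun_prop

@[fun_prop] theorem pt_ruleD1 {c : α → Cx} {s : α → PS} {j : α → ℕ} {π : α → PPt} {G1 : α → List
    V} (h1 : PT c) (h2 : PT s) (h3 : PT j) (h4 : PT π) (h5 : PT G1) : PT (fun ee => ruleD1 (c ee)
    (s ee) (j ee) (π ee) (G1 ee)) := by
  unfold ruleD1; fun_prop

@[fun_prop] theorem pt_ruleD {c : α → Cx} {s : α → PS} (h1 : PT c) (h2 : PT s) : PT (fun ee =>
    ruleD (c ee) (s ee)) := by
  unfold ruleD; fun_prop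

@[fun_prop] theorem pt_qcT {c : α → Cx} {s : α → PS} {C : α → V} {x : α → V} (h1 : PT c) (h2 : PT
    s) (h3 : PT C) (h4 : PT x) : PT (fun ee => qcT (c ee) (s ee) (C ee) (x ee)) := by
  unfold qcT; fun_prop

@[fun_prop] theorem pt_ruleC {c : α → Cx} {s : α → PS} (h1 : PT c) (h2 : PT s) : PT (fun ee =>
    ruleC (c ee) (s ee)) := by
  unfold ruleC; fun_prop

@[fun_prop] theorem pt_engS {c : α → Cx} {s : α → PS} (h1 : PT c) (h2 : PT s) : PT (fun ee => engS
    (c ee) (s ee)) := by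
  unfold engS; fun_prop

@[fun_prop] theorem pt_brF {c : α → Cx} {s : α → PS} {Q : α → List V} {y : α → List V × Fo} {Z : α
    → List V} {Z' : α → List V} (h1 : PT c) (h2 : PT s) (h3 : PT Q) (h4 : PT y) (h5 : PT Z) (h6 :
    PT Z') : PT (fun ee => brF (c ee) (s ee) (Q ee) (y ee) (Z ee) (Z' ee)) := by
  unfold brF; fun_prop

@[fun_prop] theorem pt_ruleE {c : α → Cx} {s : α → PS} (h1 : PT c) (h2 : PT s) : PT (fun ee =>
    ruleE (c ee) (s ee)) := by
  unfold ruleE; fun_prop

@[fun_prop] theorem pt_brP {c : α → Cx} {s : α → PS} (h1 : PT c) (h2 : PT s) : PT (fun ee => brP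
    (c ee) (s ee)) := by
  unfold brP; fun_prop

@[fun_prop] theorem pt_ungQ {c : α → Cx} {s : α → PS} {Q : α → List V} {F : α → Fo} {o : α → PO}
    {K : α → List V} {y : α → List V × Fo} (h1 : PT c) (h2 : PT s) (h3 : PT Q) (h4 : PT F) (h5 :
    PT o) (h6 : PT K) (h7 : PT y) : PT (fun ee => ungQ (c ee) (s ee) (Q ee) (F ee) (o ee) (K ee)
    (y ee)) := by
  unfold ungQ; fun_prop

@[fun_prop] theorem pt_kkP {c : α → Cx} {s : α → PS} {H : α → List V} (h1 : PT c) (h2 : PT s) (h3
    : PT H) : PT (fun ee => kkP (c ee) (s ee) (H ee)) := by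
  unfold kkP; fun_prop

@[fun_prop] theorem pt_ungP {c : α → Cx} {s : α → PS} {Q : α → List V} {F : α → Fo} {o : α → PO}
    (h1 : PT c) (h2 : PT s) (h3 : PT Q) (h4 : PT F) (h5 : PT o) : PT (fun ee => ungP (c ee) (s ee)
    (Q ee) (F ee) (o ee)) := by
  unfold ungP; fun_prop

@[fun_prop] theorem pt_todo {x : α → Fm} (h1 : PT x) : PT (fun ee => todo (x ee)) := by
  unfold todo; fun_prop

@[fun_prop] theorem pt_acc {x : α → Fm} (h1 : PT x) : PT (fun ee => acc (x ee)) := by
  unfold acc; fun_prop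

@[fun_prop] theorem pt_resetP {c : α → Cx} {s : α → PS} (h1 : PT c) (h2 : PT s) : PT (fun ee =>
    resetP (c ee) (s ee)) := by
  unfold resetP; fun_prop

@[fun_prop] theorem pt_kidP {s : α → PS} {b : α → PB} (h1 : PT s) (h2 : PT b) : PT (fun ee => kidP
    (s ee) (b ee)) := by
  unfold kidP; fun_prop

@[fun_prop] theorem pt_initB {c : α → Cx} {s : α → PS} {b : α → PB} (h1 : PT c) (h2 : PT s) (h3 :
    PT b) : PT (fun ee => initB (c ee) (s ee) (b ee)) := by
  unfold initB; fun_prop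

@[fun_prop] theorem pt_init1 {c : α → Cx} {s : α → PS} (h1 : PT c) (h2 : PT s) : PT (fun ee =>
    init1 (c ee) (s ee)) := by
  unfold init1; fun_prop

@[fun_prop] theorem pt_boxT {c : α → Cx} {s : α → PS} {k : α → PS} {i : α → ℕ} (h1 : PT c) (h2 :
    PT s) (h3 : PT k) (h4 : PT i) : PT (fun ee => boxT (c ee) (s ee) (k ee) (i ee)) := by
  unfold boxT; fun_prop

@[fun_prop] theorem pt_init2 {c : α → Cx} {s : α → PS} {k : α → PS} (h1 : PT c) (h2 : PT s) (h3 :
    PT k) : PT (fun ee => init2 (c ee) (s ee) (k ee)) := by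
  unfold init2; fun_prop

@[fun_prop] theorem pt_refS {s : α → PS} {x : α → Lt} (h1 : PT s) (h2 : PT x) : PT (fun ee => refS
    (s ee) (x ee)) := by
  unfold refS; fun_prop

@[fun_prop] theorem pt_init {c : α → Cx} {s : α → PS} (h1 : PT c) (h2 : PT s) : PT (fun ee => init
    (c ee) (s ee)) := by
  unfold init; fun_prop

@[fun_prop] theorem pt_subS {c : α → Cx} {k : α → PS} {i : α → ℕ} {o : α → PO} (h1 : PT c) (h2 :
    PT k) (h3 : PT i) (h4 : PT o) : PT (fun ee => subS (c ee) (k ee) (i ee) (o ee)) := by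
  unfold subS; fun_prop

@[fun_prop] theorem pt_tgS {k : α → PS} {w : α → V} (h1 : PT k) (h2 : PT w) : PT (fun ee => tgS (k
    ee) (w ee)) := by
  unfold tgS; fun_prop

@[fun_prop] theorem pt_call {c : α → Cx} {x : α → Fm} {q : α → ℕ × V} (h1 : PT c) (h2 : PT x) (h3
    : PT q) : PT (fun ee => call (c ee) (x ee) (q ee)) := by
  unfold call; fun_prop

@[fun_prop] theorem pt_nextP {c : α → Cx} {o : α → PO} {r : α → PO} (h1 : PT c) (h2 : PT o) (h3 :
    PT r) : PT (fun ee => nextP (c ee) (o ee) (r ee)) := by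
  unfold nextP; fun_prop

@[fun_prop] theorem pt_joinP {c : α → Cx} {q : α → ℕ × V} {o : α → PO} {r : α → PO} (h1 : PT c)
    (h2 : PT q) (h3 : PT o) (h4 : PT r) : PT (fun ee => joinP (c ee) (q ee) (o ee) (r ee)) := by
  unfold joinP; fun_prop

@[fun_prop] theorem pt_feed {c : α → Cx} {x : α → Fm} {r : α → PO} (h1 : PT c) (h2 : PT x) (h3 :
    PT r) : PT (fun ee => feed (c ee) (x ee) (r ee)) := by
  unfold feed; fun_prop

@[fun_prop] theorem pt_fin {c : α → Cx} {x : α → Fm} (h1 : PT c) (h2 : PT x) : PT (fun ee => fin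
    (c ee) (x ee)) := by
  unfold fin; fun_prop

@[fun_prop] theorem pt_clF {c : α → Cx} {F : α → Fo} (h1 : PT c) (h2 : PT F) : PT (fun ee => clF
    (c ee) (F ee)) := by
  unfold clF; fun_prop

@[fun_prop] theorem pt_clP1 {c : α → Cx} {π : α → PPt} (h1 : PT c) (h2 : PT π) : PT (fun ee =>
    clP1 (c ee) (π ee)) := by
  unfold clP1; fun_prop

@[fun_prop] theorem pt_clS {c : α → Cx} {s : α → PS} (h1 : PT c) (h2 : PT s) : PT (fun ee => clS
    (c ee) (s ee)) := by
  unfold clS; fun_prop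

@[fun_prop] theorem pt_clO {c : α → Cx} {o : α → PO} (h1 : PT c) (h2 : PT o) : PT (fun ee => clO
    (c ee) (o ee)) := by
  unfold clO; fun_prop

@[fun_prop] theorem pt_clM {c : α → Cx} {x : α → Fm} (h1 : PT c) (h2 : PT x) : PT (fun ee => clM
    (c ee) (x ee)) := by
  unfold clM; fun_prop

@[fun_prop] theorem pt_stepM {c : α → Cx} {L : α → List Fm} (h1 : PT c) (h2 : PT L) : PT (fun ee
    => stepM (c ee) (L ee)) := by
  unfold stepM; fun_prop

/-- bound for the small parts of a frame -/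
def bW (c : Cx) : ℕ := bR c + bv c (u3 c) + bv c (u2 c) + mM c * (4 * mM c + 6) +
  4 * c.2.2.length + 12 * mM c + 20
def bF (c : Cx) : ℕ := c.2.2.length * (3 * bW c + 1) + 1

theorem ps_bW {c : α → Cx} (h1 : PT c) : Lib.Helper47.PS (fun e => bW (c e)) :=
  ((((((ps_bR h1).add (ps_bv h1 (pt_u3 h1))).add (ps_bv h1 (pt_u2 h1))).add
    ((ps_len h1.snd.fst).mul (((PB.const 4).mul (ps_len h1.snd.fst)).add (PB.const 6)))).add
    ((PB.const 4).mul (ps_len h1.snd.snd))).add ((PB.const 12).mul (ps_len h1.snd.fst))).add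
    (PB.const 20)

theorem size_mn (c : Cx) (k : ℕ) : size (mn c k) ≤ 4 * c.2.2.length + 1 := by
  have h1 := size_nat_le (mn c k)
  have h2 : mn c k ≤ _ := Nat.min_le_right _ _
  omega

theorem size_clF (c : Cx) (F : Fo) : size (clF c F) ≤ bF c := by
  refine size_list_le' (fun y hy => ?_) (by rw [clF, List.length_map]; exact List.length_take_le _ _)
  obtain ⟨r, -, rfl⟩ := List.mem_map.1 hy
  have h1 := size_mn c r.1
  have h2 := size_red c r.2.1
  have h3 := size_red c r.2.2
  simp only [size_pair, bW]; omega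

theorem size_nl (c : Cx) (l : V) : size (nl c l) ≤ mM c * (4 * mM c + 6) + 1 := by
  have key : ∀ f : ℕ → ℕ, (∀ j < mM c, f j ≤ mM c + 1) →
      size ((ran (u1 c)).map f) ≤ mM c * (4 * mM c + 6) + 1 := fun f hf =>
    size_list_le' (fun y hy => by
      obtain ⟨j, hj, rfl⟩ := List.mem_map.1 hy
      obtain ⟨q, hq, rfl⟩ := List.mem_map.1 hj
      have h1 := hf q.2 (by simpa [mM, u1] using List.snd_lt_of_mem_zipIdx hq)
      have h2 := size_nat_le (f q.2)
      omega) (by rw [List.length_map, len_ran]; rfl)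
  unfold nl
  cases labP c l
  · refine key _ fun j _ => ?_
    have : cz c ≤ mM c := Nat.div_le_self _ _
    cases Nat.blt j (cz c) <;> cases j == cz c <;> simp only [cond_true, cond_false] <;> omega
  · exact key _ fun j hj => by have := Nat.mod_lt (l.getD j 0) (Nat.zero_lt_of_lt hj); omega

theorem size_le_m {c : Cx} {k : ℕ} (h : k ≤ mM c) : size k ≤ 4 * mM c + 1 := by
  have := size_nat_le k; omega

theorem size_clP1 {c : Cx} (h0 : 0 < mM c) (π : PPt) : size (clP1 c π) ≤ 3 * bW c + bF c := by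
  have h1 := size_red c π.1
  have h2 := size_nrm c π.2.1
  have h3 := size_nl c π.2.2.1
  have h4 := size_le_m (Nat.mod_lt π.2.2.2.1 h0).le
  have h5 := size_clF c π.2.2.2.2
  simp only [clP1, size_pair, bW]; omega

theorem size_clS {c : Cx} (h0 : 0 < mM c) (s : PS) : size (clS c s) ≤ 20 * bW c + 4 * bF c := by
  have h1 : size (fm c s) ≤ _ := size_nrm _ _
  have h2 : size (lP c s) ≤ _ := size_nl _ _
  have h3 : size (a3 c s) ≤ 3 * (4 * mM c + 1 + 1) + 1 := size_list_le' (fun y hy => by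
    obtain ⟨j, -, rfl⟩ := List.mem_map.1 hy
    exact size_le_m (Nat.mod_lt _ h0).le) le_rfl
  have h4 : size (muP c s) ≤ 3 * (4 * mM c + 1 + 1) + 1 := size_list_le' (fun y hy => by
    obtain ⟨j, -, rfl⟩ := List.mem_map.1 hy
    exact size_le_m (Nat.min_le_right _ _)) le_rfl
  have h5 := size_red c (sG s)
  have h6 := size_red c (sX s)
  have h7 := size_clF c (sF s)
  have h8 : size ([0, 1, 2].map fun j => (sP s j).map (clP1 c)) ≤
      3 * (3 * bW c + bF c + 2 + 1) + 1 := size_list_le' (fun y hy => by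
    obtain ⟨j, -, rfl⟩ := List.mem_map.1 hy
    cases sP s j with
    | none => simp
    | some π => simpa using size_clP1 h0 π) le_rfl
  have h9 : size (nv c (u3 c) (sT s)) ≤ _ := size_tab _ _ _
  have h10 : size (nv c (u3 c) (sT' s)) ≤ _ := size_tab _ _ _
  simp only [clS, size_pair, bW] at h8 ⊢; omega

theorem size_clO (c : Cx) (o : PO) : size (clO c o) ≤ 3 * bW c + bF c := by
  have h1 := size_red c o.1
  have h2 := size_red c o.2.1
  have h3 := size_clF c o.2.2.1
  have h4 : size (o.2.2.2.map (nrm c)) ≤ bv c (u2 c) + 2 := by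
    cases o.2.2.2 with
    | none => simp
    | some g => simpa using size_nrm c g
  simp only [clO, size_pair, bW]; omega

theorem size_clM {c : Cx} (h0 : 0 < mM c) (x : Fm) : size (clM c x) + 1 ≤ 50 * bW c + 11 * bF c := by
  have h1 := size_bool x.1
  have h2 := size_clS h0 x.2.1
  have h3 := size_clS h0 x.2.2.1
  have h4 := size_clF c x.2.2.2.1
  have h5 : size (((todo x).take c.2.2.length).map fun q => (mn c q.1, nrm c q.2)) ≤ bF c :=
    size_list_le' (fun y hy => by
      obtain ⟨q, -, rfl⟩ := List.mem_map.1 hy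
      have a1 := size_mn c q.1
      have a2 := size_nrm c q.2
      simp only [size_pair, bW]; omega) (by rw [List.length_map]; exact List.length_take_le _ _)
  have h6 := size_clO c (acc x)
  have h7 : 20 ≤ bW c := Nat.le_add_left _ _
  simp only [clM, size_pair]; omega

theorem size_stepM {c : Cx} (h0 : 0 < mM c) (L : List Fm) :
    size (stepM c L) ≤ size L + (50 * bW c + 11 * bF c) := by
  unfold stepM
  cases L with
  | nil => exact Nat.le_add_right _ _
  | cons x L =>
    simp only [List.head?_cons, Option.elim_some, List.tail_cons]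
    cases (todo x).head? with
    | some q =>
      have := size_clM h0 (init c (call c x q))
      rw [Option.elim_some, size_cons]; omega
    | none =>
      cases L with
      | nil => exact Nat.le_add_right _ _
      | cons y L =>
        have := size_clM h0 (feed c y (fin c x))
        simp only [Option.elim_none, List.head?_cons, Option.elim_some, List.tail_cons, size_cons]
        omega

theorem pt_runM {c : α → Cx} {s : α → PS} (h1 : PT c) (h2 : PT s) (h0 : ∀ e, 0 < mM (c e)) : PT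
    (fun ee => runM (c ee) (s ee)) :=
  PT.foldl_add (f := fun e L _ => stepM (c e) L) (by fun_prop) (by fun_prop) (by fun_prop) _
    (((PB.const 50).mul (ps_bW h1)).add ((PB.const 11).mul (((ps_len h1.snd.snd).mul
      (((PB.const 3).mul (ps_bW h1)).add (PB.const 1))).add (PB.const 1))))
    fun e _ _ _ => size_stepM (h0 e) _

@[fun_prop] theorem pt_rootQ {c : α → Cx} {G : α → List V} {y : α → List V × Fo} {T : α → V} {T' :
    α → V} (h1 : PT c) (h2 : PT G) (h3 : PT y) (h4 : PT T) (h5 : PT T') : PT (fun ee => rootQ (c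
    ee) (G ee) (y ee) (T ee) (T' ee)) := by
  unfold rootQ; fun_prop

@[fun_prop] theorem pt_rootP {c : α → Cx} {G : α → List V} {T : α → V} {T' : α → V} (h1 : PT c)
    (h2 : PT G) (h3 : PT T) (h4 : PT T') : PT (fun ee => rootP (c ee) (G ee) (T ee) (T' ee)) := by
  unfold rootP; fun_prop

theorem pt_isoP {c : α → Cx} {T : α → V} {T' : α → V} (h1 : PT c) (h2 : PT T) (h3 : PT T') (h0 : ∀
    e, 0 < mM (c e)) : PT (fun ee => isoP (c ee) (T ee) (T' ee)) := by
  have := pt_runM h1 (pt_rootP h1 (pt_genP h1 (pt_l0P h1) (pt_b0P h1)) h2 h3) h0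
  unfold isoP; fun_prop

/-- the test, with a dimension that is never zero -/
def isoQ (c : Cx) (T T' : V) : Bool := isoP (c.1, () :: c.2.1.tail, c.2.2) T T'

theorem pt_isoQ : PT (fun x : Cx × V × V => isoQ x.1 x.2.1 x.2.2) :=
  pt_isoP (by fun_prop) (by fun_prop) (by fun_prop) fun _ => Nat.succ_pos _

theorem isoQ_eq {c : Cx} (h : 0 < mM c) (T T' : V) : isoQ c T T' = isoP c T T' := by
  obtain ⟨a, _ | ⟨_, b⟩, d⟩ := c
  · exact absurd h (Nat.lt_irrefl 0)
  · rfl

end Pool.Agent.P.MP_f1a348_lc.UP
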