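import Pool.Agent.P.MP_f1a348_lc.UP.TLC

/-!
Project UP: the elements whose local model lies in the local algebra have small index.
-/

namespace Pool.Agent.P.MP_f1a348_lc.UP

open Matrix Module Pool.Agent.P.MP_f1a348_lc.PG
open scoped commutatorElement

namespace AUTCz

variable {p n : ℕ} [Fact p.Prime] {ℓ : Ix n → ℕ} {S : Set (Ix n)} {B : Sub p n}

/-- scalar outside `S`, with large sections inside `S` -/
structure Su (ℓ : Ix n → ℕ) (S : Set (Ix n)) (B : Sub p n) : Prop where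
  alg : Alg ℓ B
  clo : Clo ℓ S
  chi : ∀ x ∈ B, (1 - eS S) * x = x (c0 n) (c0 n) • (1 - eS S)
  big : ∀ β ∈ S, ∀ L U, Inv B L → Inv B U → L < U → U ≤ Vb ℓ β →
    gam n + finrank (ZMod p) (ann B L U) < finrank (ZMod p) B

theorem lc_chi (y : Mat p n) :
    (1 - eS S) * lc ℓ S y = lc ℓ S y (c0 n) (c0 n) • (1 - eS S) := by
  have h2 : (1 - eS S) * (eS S : Mat p n) = 0 := by rw [sub_mul, one_mul, LCz.eS_idem, sub_self]
  rw [LCz.lc_c0, LCz.lc_def, mul_add, ← mul_assoc, ← mul_assoc, h2, zero_mul, zero_mul, zero_add,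
    mul_smul_comm, mul_sub, mul_one, h2, sub_zero]

theorem Su.com (h : Su ℓ S B) : eS S ∈ Com B := fun x hx => LCz.eS_comm h.clo (h.alg.dg x hx)

theorem Su.left (h : Su ℓ S B) {c : Mat p n} (hc : c ∈ Com B) : (1 - eS S) * c * eS S = 0 := by
  have hd : (1 - eS S) * c ∈ Com B := com_mul (sub_mem com_one h.com) hc
  have key : ∀ β ∈ S, ∀ v ∈ Vb ℓ β, ((1 - eS S) * c) *ᵥ v = 0 := by
    intro β hβ
    by_contra hn
    have i2 : Inv B (Vb ℓ β) := fun x hx u hu => (h.alg.dg x hx).mulVec_mem hu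
    have h1 := h.big β hβ (Vb ℓ β ⊓ LinearMap.ker ((1 - eS S) * c).mulVecLin) (Vb ℓ β)
      (fun x hx u hu => ⟨i2 x hx u hu.1, by
        have : ((1 - eS S) * c) *ᵥ u = 0 := hu.2
        show ((1 - eS S) * c) *ᵥ (x *ᵥ u) = 0
        rw [com_mulVec hd hx, this, Matrix.mulVec_zero]⟩) i2
      (inf_le_left.lt_of_ne fun e => hn fun v hv => LinearMap.mem_ker.1 (e.ge hv).2) le_rfl
    have h2 : B ≤ Submodule.span (ZMod p) {1} ⊔
        ann B (Vb ℓ β ⊓ LinearMap.ker ((1 - eS S) * c).mulVecLin) (Vb ℓ β) := fun x hx => by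
      have hy : x - x (c0 n) (c0 n) • 1 ∈ B := sub_mem hx (B.smul_mem _ h.alg.one)
      refine Submodule.mem_sup.2 ⟨_, Submodule.smul_mem _ _ (Submodule.mem_span_singleton_self _),
        _, ⟨hy, fun u hu => ⟨i2 _ hy u hu, ?_⟩⟩, add_sub_cancel _ _⟩
      show ((1 - eS S) * c) *ᵥ (_ *ᵥ u) = 0
      rw [Matrix.mulVec_mulVec, mul_assoc, hc _ hy, ← mul_assoc, h.chi _ hy]
      simp
    have h3 := (Submodule.finrank_mono h2).trans (Submodule.finrank_add_le_finrank_add_finrank _ _)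
    rw [finrank_span_singleton one_ne_zero] at h3
    rw [gam] at h1
    omega
  ext a b
  rw [eS, Matrix.mul_diagonal]
  split_ifs with hb
  · have := congrFun (key b hb _ (single_mem_Vb rfl 1)) a
    rw [Matrix.mulVec_single_one] at this
    rw [mul_one]; exact this
  · exact mul_zero _

theorem Su.comm (h : Su ℓ S B) {c : Mat p n} (hc : c ∈ Com B) : eS S * c = c * eS S := by
  have h1 := h.left hc
  have h2 := congrArg st (h.left (com_st h.alg hc))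
  rw [st_mul, st_mul, st_st, st_sub, st_one, LCz.st_eS h.clo, st_zero, mul_sub, mul_sub, mul_one,
    sub_eq_zero, ← mul_assoc] at h2
  rw [sub_mul, sub_mul, one_mul, sub_eq_zero] at h1
  rw [h2, ← h1]

theorem Su.ann_lt (h : Su ℓ S B) {W : VS p n} (hW : Inv B W) (h0 : W ≠ ⊥) (hP : W ≤ im (eS S)) :
    gam n + finrank (ZMod p) (ann B ⊥ W) < finrank (ZMod p) B := by
  obtain ⟨w, hw, hw0⟩ := Submodule.exists_mem_ne_zero_of_ne_bot h0
  obtain ⟨β, hβ⟩ := Function.ne_iff.1 hw0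
  have hS : β ∈ S := by
    obtain ⟨v, rfl⟩ := hP hw
    by_contra hc
    exact hβ (by rw [Matrix.mulVecLin_apply, eS, Matrix.mulVec_diagonal, if_neg hc, zero_mul]; rfl)
  refine lt_of_le_of_lt (Nat.add_le_add_left (Submodule.finrank_mono ?_) _)
    (h.big β hS ⊥ (W.map (pr ℓ β).mulVecLin) (fun x _ u hu => by
      rw [(Submodule.mem_bot _).1 hu, Matrix.mulVec_zero]; exact zero_mem _) ?_
      (bot_lt_iff_ne_bot.2 fun e => hβ ?_) ?_)
  · rintro x hx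
    refine ⟨hx.1, ?_⟩
    rintro _ ⟨u, hu, rfl⟩
    rw [Matrix.mulVecLin_apply, ← com_mulVec (com_pr h.alg β) hx.1,
      (Submodule.mem_bot _).1 (hx.2 u hu), Matrix.mulVec_zero]
    exact zero_mem _
  · rintro x hx _ ⟨u, hu, rfl⟩
    exact ⟨x *ᵥ u, hW x hx u hu, com_mulVec (com_pr h.alg β) hx u⟩
  · have := congrFun ((Submodule.mem_bot _).1 (e ▸ Submodule.mem_map_of_mem
      (f := (pr ℓ β).mulVecLin) hw)) β
    rwa [Matrix.mulVecLin_apply, pr_mulVec, if_pos rfl] at this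
  · rintro _ ⟨u, -, rfl⟩
    exact pr_mulVec_mem β u

theorem codim_le {W : VS p n} (hW : Inv B W) :
    finrank (ZMod p) B ≤ finrank (ZMod p) (ann B ⊥ W) + finrank (ZMod p) W * finrank (ZMod p) W := by
  let ρ : B →ₗ[ZMod p] (W →ₗ[ZMod p] W) :=
    { toFun := fun x => x.1.mulVecLin.restrict (hW x.1 x.2)
      map_add' := fun x y => LinearMap.ext fun u => Subtype.ext (Matrix.add_mulVec x.1 y.1 u.1)
      map_smul' := fun c x => LinearMap.ext fun u => Subtype.ext (Matrix.smul_mulVec c x.1 u.1) }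
  have h1 : LinearMap.ker ρ = (ann B ⊥ W).comap B.subtype := by
    ext x
    exact ⟨fun e => ⟨x.2, fun u hu => congrArg Subtype.val (LinearMap.congr_fun e ⟨u, hu⟩)⟩,
      fun e => LinearMap.ext fun u => Subtype.ext (e.2 u.1 u.2)⟩
  have h2 := ρ.finrank_range_add_finrank_ker
  rw [h1, (Submodule.comapSubtypeEquivOfLe (show ann B ⊥ W ≤ B from fun _ e => e.1)).finrank_eq]
    at h2
  have h3 := Submodule.finrank_le (LinearMap.range ρ)
  rw [Module.finrank_linearMap] at h3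
  omega

theorem sum_le (T : Finset (Mat p n)) (g : Mat p n → Mat p n) (h1 : ∀ x ∈ T, g x * g x = g x)
    (h2 : ∀ x ∈ T, ∀ y ∈ T, x ≠ y → g x * g y = 0) :
    ∑ x : T, finrank (ZMod p) (im (g x.1)) ≤ 2 * n + 1 := by
  classical
  let ψ : (∀ x : T, im (g x.1)) →ₗ[ZMod p] Vec p n :=
    ∑ x : T, (im (g x.1)).subtype ∘ₗ LinearMap.proj x
  have hψ : Function.Injective ψ := (injective_iff_map_eq_zero ψ).2 fun w hw => funext fun y => by
    have e : ∑ x : T, (w x).1 = 0 := by simpa [ψ] using hw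
    have e1 := congrArg (g y.1 *ᵥ ·) e
    simp only [Matrix.mulVec_sum, Matrix.mulVec_zero] at e1
    rw [Finset.sum_eq_single y (fun x _ hx => ?_) (fun hy => absurd (Finset.mem_univ y) hy)] at e1
    · obtain ⟨v, hv⟩ := mem_im.1 (w y).2
      rw [← hv, Matrix.mulVec_mulVec, h1 _ y.2, hv] at e1
      exact Subtype.ext e1
    · obtain ⟨v, hv⟩ := mem_im.1 (w x).2
      rw [← hv, Matrix.mulVec_mulVec, h2 _ y.2 _ x.2 fun e => hx (Subtype.ext e.symm),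
        Matrix.zero_mulVec]
  simpa [Module.finrank_pi_fintype] using LinearMap.finrank_le_finrank_of_injective hψ

/-- the part of the commutant that vanishes on `S` -/
noncomputable def Iz (S : Set (Ix n)) (B : Sub p n) : Sub p n :=
  Com B ⊓ LinearMap.ker (lr 1 (eS S))

theorem mem_Iz {c : Mat p n} : c ∈ Iz S B ↔ c ∈ Com B ∧ c * eS S = 0 := by
  rw [Iz, Submodule.mem_inf, LinearMap.mem_ker, lr_apply, one_mul]

theorem Su.ideal (h : Su ℓ S B) {x : Mat p n} (hx : x ∈ Com B) {y : Mat p n} (hy : y ∈ Iz S B) :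
    x * y ∈ Iz S B ∧ y * x ∈ Iz S B := by
  rw [mem_Iz] at hy
  exact ⟨mem_Iz.2 ⟨com_mul hx hy.1, by rw [mul_assoc, hy.2, mul_zero]⟩,
    mem_Iz.2 ⟨com_mul hy.1 hx, by rw [mul_assoc, ← h.comm hx, ← mul_assoc, hy.2, zero_mul]⟩⟩

theorem Su.card (h : Su ℓ S B) (T : Finset (Mat p n))
    (h1 : ∀ e ∈ T, e ∈ Com B ∧ e ∉ Iz S B ∧ e * e - e ∈ Iz S B)
    (h2 : ∀ e ∈ T, ∀ e' ∈ T, e ≠ e' → e * e' ∈ Iz S B) : T.card ≤ (2 * n + 1).sqrt := by
  have hm : ∀ x ∈ T, ∀ y ∈ T, x * eS S * (y * eS S) = x * y * eS S := fun x _ y hy => by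
    rw [mul_assoc, ← mul_assoc (eS S), h.comm (h1 y hy).1, mul_assoc y, LCz.eS_idem, mul_assoc]
  have h3 := sum_le T (· * eS S) (fun x hx => by
    have := (mem_Iz.1 (h1 x hx).2.2).2
    rw [sub_mul, sub_eq_zero] at this
    rw [hm x hx x hx, this]) fun x hx y hy e => by rw [hm x hx y hy, (mem_Iz.1 (h2 x hx y hy e)).2]
  have h4 : ∀ x : T, (2 * n + 1).sqrt + 1 ≤ finrank (ZMod p) (im (x.1 * eS S)) := fun x => by
    obtain ⟨a1, a2, -⟩ := h1 x.1 x.2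
    have hW : Inv B (im (x.1 * eS S)) := by
      rintro y hy _ ⟨v, rfl⟩
      exact ⟨y *ᵥ v, com_mulVec (com_mul a1 h.com) hy v⟩
    have b1 := h.ann_lt hW (fun e => a2 (mem_Iz.2 ⟨a1, mat_ext fun v => by
      rw [Matrix.zero_mulVec]; exact (Submodule.mem_bot _).1 (e ▸ mem_im.2 ⟨v, rfl⟩)⟩)) (by
      rintro _ ⟨v, rfl⟩
      exact ⟨x.1 *ᵥ v, by rw [← h.comm a1]; exact Matrix.mulVec_mulVec v (eS S) x.1⟩)
    have b2 := codim_le hW
    rw [gam] at b1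
    exact Nat.sqrt_lt.2 (by omega)
  have h5 := (Finset.sum_le_sum fun x _ => h4 x).trans h3
  rw [Finset.sum_const, Finset.card_univ, Fintype.card_coe, smul_eq_mul] at h5
  exact Nat.lt_succ_iff.1 (Nat.lt_of_mul_lt_mul_right (h5.trans_lt (Nat.lt_succ_sqrt _)))

theorem Su.codim (h : Su ℓ S B) (hH : S_HOMB p n)
    (hc : ∀ L U, Inv B L → Inv B U → L ≤ U → ∃ W, Inv B W ∧ W ⊓ L = ⊥ ∧ W ⊔ L = U) :
    finrank (ZMod p) (Com B) - finrank (ZMod p) (Iz S B) ≤ 2 * n + 1 := by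
  have hm : ∀ c, c ∈ Com B ⊓ LinearMap.ker (lr 1 (1 - eS S)) ↔ c ∈ Com B ∧ c * eS S = c :=
    fun c => by
      rw [Submodule.mem_inf, LinearMap.mem_ker, lr_apply, one_mul, mul_sub, mul_one, sub_eq_zero,
        eq_comm]
  have h1 := hH B (Com B ⊓ LinearMap.ker (lr 1 (1 - eS S))) (im (eS S)) (gam n) h.alg.one h.alg.mul
    (by rintro y hy _ ⟨v, rfl⟩; exact ⟨y *ᵥ v, com_mulVec h.com hy v⟩) (fun L U s hU => by
      obtain ⟨W, w1, w2, w3⟩ := hc L U s.invL s.invU s.lt.le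
      have hW : W ≤ U := w3 ▸ le_sup_left
      have ha : ann B L U ≤ ann B ⊥ W := fun x hx =>
        ⟨hx.1, fun u hu => w2 ▸ ⟨w1 x hx.1 u hu, hx.2 u (hW hu)⟩⟩
      refine le_trans (Nat.add_le_add_left (Submodule.finrank_mono ha) _)
        (h.ann_lt w1 (fun e => s.lt.ne ?_) (hW.trans hU)).le
      rwa [e, bot_sup_eq] at w3)
    (fun C hC x hx u _ => com_mulVec hC.1 hx u) fun C hC e => by
      rw [← ((hm C).1 hC).2]
      exact mat_ext fun v => by rw [← Matrix.mulVec_mulVec, e _ (mem_im.2 ⟨v, rfl⟩), Matrix.zero_mulVec]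
  have h2 : Com B ≤ (Com B ⊓ LinearMap.ker (lr 1 (1 - eS S))) ⊔ Iz S B := fun c hc => by
    rw [← add_sub_cancel (c * eS S) c]
    exact Submodule.add_mem_sup ((hm _).2 ⟨com_mul hc h.com, by rw [mul_assoc, LCz.eS_idem]⟩)
      (mem_Iz.2 ⟨sub_mem hc (com_mul hc h.com), by rw [sub_mul, mul_assoc, LCz.eS_idem, sub_self]⟩)
  have h3 := (Submodule.finrank_mono h2).trans (Submodule.finrank_add_le_finrank_add_finrank _ _)
  have h4 : finrank (ZMod p) (im (eS S : Mat p n)) ≤ 2 * n + 1 := by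
    simpa using Submodule.finrank_le (im (eS S : Mat p n))
  have h5 := h1.trans (Nat.mul_le_mul_right _ h4)
  rw [gam, mul_right_comm] at h5
  have h6 := Nat.le_of_mul_le_mul_right h5 (by omega)
  omega

theorem Su.index (h : Su ℓ S B) (hQ : S_AUTQ p n) (hH : S_HOMB p n) (m1 : Com (Com B) ≤ B)
    (m3 : ∀ x ∈ Com B, ∃ y ∈ Com B, x * y * x = x)
    (m4 : ∀ L U, Inv B L → Inv B U → L ≤ U → ∃ W, Inv B W ∧ W ⊓ L = ⊥ ∧ W ⊔ L = U) (G : SG p n)
    (g1 : G ≤ NmS B) (g2 : ∀ u ∈ G, eS S * u.1 = u.1 * eS S)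
    (g3 : ∀ u ∈ G, (1 - eS S) * u.1 = 1 - eS S) :
    (∀ u ∈ G, u ∈ CenQ (Com B) (Iz S B) → u.1 ∈ B) ∧
      (CenQ (Com B) (Iz S B)).relIndex G ≤ p ^ (4 * (2 * n + 1)) := by
  have hC : G ≤ NmS (Com B) := fun u hu c hc x hx => by
    have h1 : cj (st u.1) x ∈ B := g1 (inv_mem hu) x hx
    rw [← u.2.2.1.cj_cj' x, ← u.2.2.1.cj_mul, ← u.2.2.1.cj_mul, hc _ h1]
  have hI : G ≤ NmS (Iz S B) := fun u hu c hc => by
    rw [mem_Iz] at hc ⊢
    have e : eS S * st u.1 = st u.1 * eS S := g2 _ (inv_mem hu)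
    exact ⟨hC hu c hc.1, by
      rw [cj_apply, mul_assoc, ← e, ← mul_assoc, mul_assoc _ c, hc.2, mul_zero, zero_mul]⟩
  refine ⟨fun u hu hh => m1 fun c hc => ?_, (hQ G (Com B) (Iz S B) (2 * n + 1).sqrt com_one
    (fun x hx y hy => com_mul hx hy) inf_le_left (fun x hx y hy => h.ideal hx hy) hC hI
    (fun x hx hy => ?_) fun T hT hT' =>
      h.card T (fun e he => ⟨(hT e he).1, (hT e he).2.1, (hT e he).2.2.1⟩) hT').trans ?_⟩
  · obtain ⟨e0, e1⟩ := mem_Iz.1 (hh.2 c hc)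
    have e2 : (1 - eS S) * (cj u.1 c - c) = 0 := by
      have e3 : (1 - eS S) * c = c * (1 - eS S) := by
        rw [sub_mul, mul_sub, one_mul, mul_one, h.comm hc]
      have e4 : (1 - eS S) * st u.1 = 1 - eS S := g3 _ (inv_mem hu)
      rw [mul_sub, cj_apply, ← mul_assoc, ← mul_assoc, g3 u hu, e3, mul_assoc, e4, sub_self]
    rw [← h.comm e0] at e1
    rw [sub_mul, one_mul, e1, sub_zero, sub_eq_zero, cj_apply] at e2
    have e5 := congrArg (· * u.1) e2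
    simpa only [mul_assoc, u.2.2.1.st_mul, mul_one] using e5
  · obtain ⟨y, y1, y2⟩ := m3 x hx
    obtain ⟨k, hk⟩ := hy y y1
    rw [IsIdempotentElem.pow_succ_eq k (show x * y * (x * y) = x * y by
      rw [← mul_assoc, y2])] at hk
    exact y2 ▸ (h.ideal hx hk).2
  · have h2p : 2 ≤ p := (Fact.out : p.Prime).two_le
    refine (Nat.mul_le_mul ((Nat.pow_le_pow_right two_pos (Nat.sqrt_le _)).trans
      (Nat.pow_le_pow_left h2p _)) (Nat.pow_le_pow_right (by omega)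
      (Nat.mul_le_mul_left 3 (h.codim hH m4)))).trans ?_
    rw [← pow_add]
    exact Nat.pow_le_pow_right (by omega) (by omega)

end AUTCz

open AUTCz in
theorem s_AUTC (p n : ℕ) [Fact p.Prime] (t : TM p n) (hAUTQ : S_AUTQ p n) (hHOMB : S_HOMB p n) :
    S_AUTC p n := by
  intro s H KK ok sim nt hH hK
  obtain ⟨c1, c2, -, c4, c5, c6, c7, -⟩ := t.coc s ok
  obtain ⟨a1, a2, -, -, -, a6⟩ := c6 s.X ok.le
  obtain ⟨m1, -, m3, m4⟩ := t.ssm _ a2 (t.cliff s ok sim).1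
  have hE : ∀ g ∈ s.G, g.1 ∈ Env s.G := (t.env.1 s.G).2.1
  have hs : Su s.ll s.lam (s.le s.X) := ⟨a1, (t.lc.1 s.ℓ s.lam ok.lab c2).2.2.2.2.2.2.1,
    by rintro _ ⟨y, -, rfl⟩; exact lc_chi (ℓ := s.ℓ) (S := s.lam) (fr s.f y),
    fun β ⟨j, hj⟩ => t.gsl s j β ok sim (fun e => nt ⟨j, e⟩) hj⟩
  have hmul : ∀ g ∈ s.G, ∀ h ∈ s.G, s.lo (g * h).1 = s.lo g.1 * s.lo h.1 := fun g hg h hh =>
    (c5 _ (hE g hg)).2.2 _ (hE h hh)
  have hinv : ∀ g ∈ s.G, s.lo (g⁻¹).1 = st (s.lo g.1) := fun g hg => (c5 _ (hE g hg)).1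
  have hcj : ∀ g ∈ s.G, ∀ x ∈ s.le s.X, cj (s.lo g.1) x ∈ s.le s.X := fun g hg =>
    a6 g hg (ok.nm g hg)
  refine ⟨fun h hh k hk => ?_, ?_⟩
  · obtain ⟨k1, k2⟩ := (hK k).1 hk
    refine (hK _).2 ⟨mul_mem (mul_mem hh k1) (inv_mem hh), ?_⟩
    show s.lo _ ∈ _
    rw [hmul _ (hH (mul_mem hh k1)) _ (hH (inv_mem hh)), hmul h (hH hh) k (hH k1), hinv h (hH hh)]
    exact hcj h (hH hh) _ k2
  obtain ⟨φ, hφ⟩ : ∃ φ : H →* GG p n, ∀ h, (φ h).1 = s.lo h.1.1 :=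
    ⟨MonoidHom.mk' (fun h => ⟨s.lo h.1.1, (c7 h.1 (hH h.2)).1.l0⟩)
      fun g h => Subtype.ext (hmul g.1 (hH g.2) h.1 (hH h.2)), fun _ => rfl⟩
  obtain ⟨h1, h2⟩ := hs.index hAUTQ hHOMB m1 m3 m4 φ.range
    (by rintro _ ⟨h, rfl⟩ x hx; rw [hφ]; exact hcj _ (hH h.2) x hx)
    (by rintro _ ⟨h, rfl⟩; rw [hφ]; exact LCz.eS_comm hs.clo (LCz.lc_dg ok.lab c2 (fr s.f h.1.1)))
    (by
      rintro _ ⟨h, rfl⟩
      have := lc_chi (ℓ := s.ℓ) (S := s.lam) (fr s.f h.1.1)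
      rwa [show lc s.ℓ s.lam (fr s.f h.1.1) = (φ h).1 from (hφ h).symm, (φ h).2.2.2,
        one_smul] at this)
  rw [← Subgroup.index_comap] at h2
  refine (Subgroup.index_antitone fun h hh => (hK h.1).2 ⟨h.2, ?_⟩).trans h2
  have := h1 _ ⟨h, rfl⟩ hh
  rwa [hφ] at this

end Pool.Agent.P.MP_f1a348_lc.UP
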