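import Pool.Agent.P.MP_f1a348_lc.UP.EBase

/-!
Project UP: isomorphism of trilinear forms over `ZMod p` in time `p ^ O(n)`.
Mathematical definitions.
-/

namespace Pool.Agent.P.MP_f1a348_lc.UP

open Matrix Module Pool.Agent.P.MP_f1a348_lc.PG
open scoped commutatorElement

noncomputable section

/-! ### abstract groups -/

section grp
variable {Γ : Type} [Group Γ]

/-- no non-zero homomorphism to `ZMod p` -/
def PP (p : ℕ) (Z : Subgroup Γ) : Prop :=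
  ∀ ψ : Γ → ZMod p, (∀ a ∈ Z, ∀ b ∈ Z, ψ (a * b) = ψ a + ψ b) → ∀ a ∈ Z, ψ a = 0

/-- the largest `p`-perfect subgroup -/
def Op (p : ℕ) (Z : Subgroup Γ) : Subgroup Γ := sSup {Y | Y ≤ Z ∧ PP p Y}

/-- powers and commutators -/
def Fr (p : ℕ) (Z : Subgroup Γ) : Subgroup Γ :=
  Subgroup.closure {x | (∃ a ∈ Z, x = a ^ p) ∨ ∃ a ∈ Z, ∃ b ∈ Z, x = ⁅a, b⁆}

/-- the derived series -/
def der : ℕ → Subgroup Γ → Subgroup Γ
  | 0, Y => Y
  | k + 1, Y => ⁅der k Y, der k Y⁆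

def SolvMod (Y N : Subgroup Γ) : Prop := ∃ k, der k Y ≤ N

/-- `G` normalises `K` -/
def Nm (G K : Subgroup Γ) : Prop := ∀ g ∈ G, ∀ k ∈ K, g * k * g⁻¹ ∈ K

/-- the normal closure of `X` under `H` -/
def Ncl (H X : Subgroup Γ) : Subgroup Γ :=
  Subgroup.closure {y | ∃ h ∈ H, ∃ x ∈ X, y = h * x * h⁻¹}

/-- a closed predicate on a finite group as a subgroup -/
def sg [Finite Γ] (P : Γ → Prop) (h1 : P 1) (hm : ∀ a b, P a → P b → P (a * b)) : Subgroup Γ where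
  carrier := {g | P g}
  one_mem' := h1
  mul_mem' := hm _ _
  inv_mem' {g} hg := by
    have h : ∀ k : ℕ, P (g ^ k) := fun k => by
      induction k with
      | zero => rwa [pow_zero]
      | succ k ih => rw [pow_succ]; exact hm _ _ ih hg
    have e : g⁻¹ = g ^ (orderOf g - 1) := by
      rw [inv_eq_iff_mul_eq_one, ← pow_succ', Nat.sub_add_cancel (orderOf_pos g), pow_orderOf_eq_one]
    rw [e]; exact h _

/-- `R` contains representatives of the cosets of `Q` in `G` -/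
structure Cov (R : List Γ) (G Q : Subgroup Γ) : Prop where
  mem : ∀ t ∈ R, t ∈ G
  cov : ∀ g ∈ G, ∃ t ∈ R, t⁻¹ * g ∈ Q

/-- neither small nor large -/
def Mid (d k : ℕ) : Prop := d ≤ 4 * k ∧ 2 * k ≤ d

/-- the stabiliser of a line has a balanced invariant subspace -/
def Bal {p : ℕ} [Fact p.Prime] {W : Type} [AddCommGroup W] [Module (ZMod p) W] (H : Subgroup Γ)
    (σ : Γ → Module.End (ZMod p) W) : Prop :=
  ∃ (v : W) (U : Submodule (ZMod p) W),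
    (∀ h ∈ H, σ h v ∈ Submodule.span (ZMod p) {v} → ∀ x ∈ U, σ h x ∈ U) ∧
    Mid (finrank (ZMod p) W) (finrank (ZMod p) U)

theorem mem_sg [Finite Γ] {P : Γ → Prop} {h1 : P 1} {hm : ∀ a b, P a → P b → P (a * b)} {g : Γ} :
    g ∈ sg P h1 hm ↔ P g := Iff.rfl

end grp

/-! ### forests as lists of records in preorder -/

section forest
variable {α : Type}

def up (F : List (ℕ × α)) : List (ℕ × α) := F.map fun r => (r.1 + 1, r.2)
def dn (F : List (ℕ × α)) : List (ℕ × α) := F.map fun r => (r.1 - 1, r.2)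

/-- the roots with their subforests -/
def tops (F : List (ℕ × α)) : List (α × List (ℕ × α)) :=
  (F.zipIdx.filter fun r => r.1.1 == 0).map fun r =>
    (r.1.2, dn ((F.drop (r.2 + 1)).takeWhile fun s => s.1 != 0))

/-- the nodes `(depth, number)` of the binary tree of height `h` -/
def dy : ℕ → List (ℕ × ℕ)
  | 0 => [(0, 0)]
  | h + 1 => (0, 0) :: (up (dy h) ++ (dy h).map fun r => (r.1 + 1, r.2 + 2 ^ r.1))

end forest

section cert
variable {Γ : Type} [Group Γ]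

/-- depth, kernel, pinned subgroup -/
abbrev Rec (Γ : Type) [Group Γ] : Type := ℕ × Subgroup Γ × Subgroup Γ

/-- the intersection of the kernels of the roots -/
def topI (F : List (Rec Γ)) : Subgroup Γ := ⨅ r ∈ F, ⨅ _ : r.1 = 0, r.2.1

inductive Kids (p : ℕ) : ℕ → Subgroup Γ → List (Rec Γ) → Prop
  | nil (c G) : Kids p c G []
  | cons (c c0 c' G K P sub rest) : Nm G K → P.relIndex G ≤ p ^ c0 → c0 + 1 + c' ≤ c →
      Kids p c' (G ⊓ P) sub → SolvMod (G ⊓ P ⊓ topI sub) K → Kids p c G rest →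
      Kids p c G ((0, K, P) :: (up sub ++ rest))

def Val (p c : ℕ) (G N : Subgroup Γ) (F : List (Rec Γ)) : Prop :=
  Kids p c G F ∧ SolvMod (G ⊓ topI F) N

end cert

/-! ### the ambient group -/

def GG (p n : ℕ) : Type := {g : Mat p n // Par (l0 n) g}

variable {p n : ℕ}

instance : Group (GG p n) where
  mul a b := ⟨a.1 * b.1, a.2.mul b.2⟩
  mul_assoc _ _ _ := Subtype.ext (mul_assoc _ _ _)
  one := ⟨1, Par.one⟩
  one_mul _ := Subtype.ext (one_mul _)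
  mul_one _ := Subtype.ext (mul_one _)
  inv a := ⟨st a.1, a.2.star lab_l0⟩
  inv_mul_cancel a := Subtype.ext a.2.2.1

abbrev SG (p n : ℕ) : Type := Subgroup (GG p n)

instance [Fact p.Prime] : Finite (GG p n) := Subtype.finite

@[simp] theorem val_mul (a b : GG p n) : (a * b).1 = a.1 * b.1 := rfl
@[simp] theorem val_one : (1 : GG p n).1 = 1 := rfl
@[simp] theorem val_inv (a : GG p n) : (a⁻¹).1 = st a.1 := rfl

/-- coordinates in the frame `f` -/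
def fr (f : GG p n) : Mat p n →ₗ[ZMod p] Mat p n := cj (st f.1)

def Env (Z : SG p n) : Sub p n := Submodule.span (ZMod p) {x | ∃ g ∈ Z, g.1 = x}

/-- algebras with adjoint -/
abbrev SA (R : Sub p n) : Prop := Alg (l0 n) R

def Rad (R : Sub p n) : Set (Mat p n) := {x | x ∈ R ∧ ∀ y ∈ R, IsNilpotent (x * y)}

/-- `U` is invariant under `R` -/
def Inv (R : Sub p n) (U : VS p n) : Prop := ∀ x ∈ R, ∀ u ∈ U, x *ᵥ u ∈ U

/-- every invariant subspace has an invariant complement -/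
def SSm (R : Sub p n) : Prop := ∀ U, Inv R U → ∃ U', Inv R U' ∧ IsCompl U U'

/-- the annihilator of the section `U / L` -/
def ann (R : Sub p n) (L U : VS p n) : Sub p n where
  carrier := {x | x ∈ R ∧ ∀ u ∈ U, x *ᵥ u ∈ L}
  add_mem' hx hy := ⟨add_mem hx.1 hy.1, fun u hu => by
    rw [Matrix.add_mulVec]; exact add_mem (hx.2 u hu) (hy.2 u hu)⟩
  zero_mem' := ⟨zero_mem _, fun u _ => by rw [Matrix.zero_mulVec]; exact zero_mem _⟩
  smul_mem' c x hx := ⟨Submodule.smul_mem _ c hx.1, fun u hu => by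
    rw [Matrix.smul_mulVec]; exact Submodule.smul_mem _ c (hx.2 u hu)⟩

/-- simple sections -/
structure SS (R : Sub p n) (L U : VS p n) : Prop where
  invL : Inv R L
  invU : Inv R U
  lt : L < U
  max : ∀ W, Inv R W → L ≤ W → W ≤ U → W = L ∨ W = U

/-! ### frames, flags and local models -/

/-- `R` is triangular in the frame `f` -/
def TriR (R : Sub p n) (f : GG p n) (ℓ : Ix n → ℕ) : Prop := ∀ x ∈ R, Tri ℓ (fr f x)

/-- the block diagonal part -/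
def gB (R : Sub p n) (f : GG p n) (ℓ : Ix n → ℕ) : Sub p n := R.map (gr ℓ ∘ₗ fr f)

/-- composition flags -/
structure CF (R : Sub p n) (f : GG p n) (ℓ : Ix n → ℕ) : Prop where
  lab : Lab ℓ
  tri : TriR R f ℓ
  sim : Sim ℓ (gB R f ℓ)

/-- the flag `(f', ℓ')` refines `(f, ℓ)` -/
structure Fine (f : GG p n) (ℓ : Ix n → ℕ) (f' : GG p n) (ℓ' : Ix n → ℕ) : Prop where
  lab : Lab ℓ
  lab' : Lab ℓ'
  fine : ∀ α β, ℓ' α ≤ ℓ' β → ℓ α ≤ ℓ β
  dg : Dg ℓ (f⁻¹ * f').1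

/-- the span of the first `k` vectors of the frame -/
def cut (f : GG p n) (k : ℕ) : VS p n where
  carrier := {x | ∀ β : Ix n, k ≤ β.val → (st f.1 *ᵥ x) β = 0}
  add_mem' hx hy β h := by simp [Matrix.mulVec_add, hx β h, hy β h]
  zero_mem' β _ := by simp
  smul_mem' c x hx β h := by simp [Matrix.mulVec_smul, hx β h]

def sL (f : GG p n) (ℓ : Ix n → ℕ) (α : Ix n) : VS p n := cut f (ℓ α)
def sH (f : GG p n) (ℓ : Ix n → ℕ) (α : Ix n) : VS p n := cut f (ℓ α + nb ℓ α)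

/-- the action on the block of `α` -/
def rb (f : GG p n) (ℓ : Ix n → ℕ) (α : Ix n) (x : Mat p n) :
    Module.End (ZMod p) (Vb ℓ α : VS p n) :=
  ((pr ℓ α * fr f x).mulVecLin.domRestrict _).codRestrict _ fun v => by
    simpa only [LinearMap.domRestrict_apply, Matrix.mulVecLin_apply, ← Matrix.mulVec_mulVec]
      using pr_mulVec_mem α _

/-- the elements of `R` that vanish on the blocks of `I` -/
def MI (R : Sub p n) (f : GG p n) (ℓ : Ix n → ℕ) (I : Set (Ix n)) : Sub p n where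
  carrier := {x | x ∈ R ∧ ∀ α ∈ I, ∀ β γ, ℓ β = ℓ α → ℓ γ = ℓ α → fr f x β γ = 0}
  add_mem' hx hy := ⟨add_mem hx.1 hy.1, fun α h β γ h1 h2 => by
    simp [hx.2 α h β γ h1 h2, hy.2 α h β γ h1 h2]⟩
  zero_mem' := ⟨zero_mem _, fun α _ β γ _ _ => by simp⟩
  smul_mem' c x hx := ⟨Submodule.smul_mem _ c hx.1, fun α h β γ h1 h2 => by
    simp [hx.2 α h β γ h1 h2]⟩

/-- unions of blocks, closed under duality -/
structure Clo (ℓ : Ix n → ℕ) (S : Set (Ix n)) : Prop where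
  blk : ∀ α β, ℓ α = ℓ β → α ∈ S → β ∈ S
  rev : ∀ α ∈ S, α.rev ∈ S

open Classical in
def eS (S : Set (Ix n)) : Mat p n := Matrix.diagonal fun β => if β ∈ S then 1 else 0

open Classical in
/-- discrete outside `S` -/
def lS (ℓ : Ix n → ℕ) (S : Set (Ix n)) : Ix n → ℕ := fun β => if β ∈ S then ℓ β else β.val

/-- the local model -/
def lc (ℓ : Ix n → ℕ) (S : Set (Ix n)) : Mat p n →ₗ[ZMod p] Mat p n where
  toFun x := eS S * gr ℓ x * eS S + x (c0 n) (c0 n) • (1 - eS S)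
  map_add' x y := by
    simp only [map_add, mul_add, add_mul, Matrix.add_apply, add_smul]; abel
  map_smul' c x := by
    simp only [map_smul, mul_smul_comm, smul_mul_assoc, Matrix.smul_apply, smul_eq_mul, mul_smul,
      RingHom.id_apply, smul_add]

def loc (f : GG p n) (ℓ : Ix n → ℕ) (S : Set (Ix n)) : Mat p n →ₗ[ZMod p] Mat p n :=
  lc ℓ S ∘ₗ fr f

/-- the slots and their duals -/
def Lam (ℓ : Ix n → ℕ) (a : Fin 3 → Ix n) : Set (Ix n) :=
  {β | ∃ j, ℓ β = ℓ (a j) ∨ ℓ β = ℓ (a j).rev}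

/-- the small non-trivial blocks -/
def Sml (ℓ : Ix n → ℕ) (B : Sub p n) : Set (Ix n) :=
  {a | ¬ Triv ℓ B a ∧ nb ℓ a ^ 2 ≤ gam n * eb ℓ B a}

variable [Fact p.Prime]

/-- the stabiliser of a subspace -/
def Stb (U : VS p n) : SG p n :=
  sg (fun g => ∀ u ∈ U, g.1 *ᵥ u ∈ U) (fun u hu => by simpa using hu)
    fun a b ha hb u hu => by rw [val_mul, ← Matrix.mulVec_mulVec]; exact ha _ (hb u hu)

/-- the kernel on the section `U / L` -/
def Ker (L U : VS p n) : SG p n :=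
  sg (fun g => (∀ u ∈ L, g.1 *ᵥ u ∈ L) ∧ ∀ u ∈ U, g.1 *ᵥ u - u ∈ L)
    ⟨fun u hu => by simpa using hu, fun u _ => by simp⟩
    fun a b ha hb => ⟨fun u hu => by
      rw [val_mul, ← Matrix.mulVec_mulVec]; exact ha.1 _ (hb.1 u hu), fun u hu => by
      have := add_mem (ha.1 _ (hb.2 u hu)) (ha.2 u hu)
      rwa [Matrix.mulVec_sub, sub_add_sub_cancel, Matrix.mulVec_mulVec] at this⟩

/-- the kernel on a block -/
def KS (f : GG p n) (ℓ : Ix n → ℕ) (α : Ix n) : SG p n := Ker (sL f ℓ α) (sH f ℓ α)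

/-- the kernel on the blocks of `S` -/
def KB (f : GG p n) (ℓ : Ix n → ℕ) (S : Set (Ix n)) : SG p n := ⨅ α ∈ S, KS f ℓ α

/-- the unitary group of an algebra -/
def UG (R : Sub p n) : SG p n :=
  sg (fun g => ∀ x ∈ R, g.1 * x ∈ R) (fun x hx => by simpa using hx)
    fun a b ha hb x hx => by rw [val_mul, mul_assoc]; exact ha _ (hb x hx)

/-- the normaliser of a space of matrices -/
def NmS (I : Sub p n) : SG p n :=
  sg (fun g => ∀ y ∈ I, cj g.1 y ∈ I) (fun y hy => by simpa [cj] using hy)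
    fun a b ha hb y hy => by
      have := ha _ (hb y hy)
      simpa only [cj, LinearMap.coe_mk, AddHom.coe_mk, val_mul, st_mul, mul_assoc] using this

/-- the centraliser of `R / I` -/
def CenQ (R I : Sub p n) : SG p n :=
  sg (fun g => (∀ y ∈ I, cj g.1 y ∈ I) ∧ ∀ x ∈ R, cj g.1 x - x ∈ I)
    ⟨fun y hy => by simpa [cj] using hy, fun x _ => by simp [cj]⟩
    fun a b ha hb => ⟨fun y hy => by
      have := ha.1 _ (hb.1 y hy)
      simpa only [cj, LinearMap.coe_mk, AddHom.coe_mk, val_mul, st_mul, mul_assoc] using this,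
      fun x hx => by
      have := add_mem (ha.1 _ (hb.2 x hx)) (ha.2 x hx)
      rw [map_sub, sub_add_sub_cancel] at this
      simpa only [cj, LinearMap.coe_mk, AddHom.coe_mk, val_mul, st_mul, mul_assoc] using this⟩

theorem mem_Stb {U : VS p n} {g : GG p n} : g ∈ Stb U ↔ ∀ u ∈ U, g.1 *ᵥ u ∈ U := Iff.rfl

theorem mem_Ker {L U : VS p n} {g : GG p n} :
    g ∈ Ker L U ↔ (∀ u ∈ L, g.1 *ᵥ u ∈ L) ∧ ∀ u ∈ U, g.1 *ᵥ u - u ∈ L := Iff.rfl

theorem mem_KB {f g : GG p n} {ℓ : Ix n → ℕ} {S : Set (Ix n)} :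
    g ∈ KB f ℓ S ↔ ∀ α ∈ S, g ∈ KS f ℓ α := by simp only [KB, Subgroup.mem_iInf]

theorem mem_UG {R : Sub p n} {g : GG p n} : g ∈ UG R ↔ ∀ x ∈ R, g.1 * x ∈ R := Iff.rfl

theorem mem_NmS {I : Sub p n} {g : GG p n} : g ∈ NmS I ↔ ∀ y ∈ I, cj g.1 y ∈ I := Iff.rfl

theorem mem_CenQ {R I : Sub p n} {g : GG p n} :
    g ∈ CenQ R I ↔ (∀ y ∈ I, cj g.1 y ∈ I) ∧ ∀ x ∈ R, cj g.1 x - x ∈ I := Iff.rfl

def Stable (X : SG p n) : Prop :=
  PP p X ∧ ∀ L U : VS p n, L ≤ U → Inv (Env X) L → Inv (Env X) U →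
    finrank (ZMod p) (Env X) ≤ finrank (ZMod p) (ann (Env X) L U) + gam n → X ≤ Ker L U

def FullA (N : SG p n) (R : Sub p n) : Prop :=
  (∀ g ∈ N, g.1 ∈ R) ∧
    ∀ x ∈ R, x (c0 n) (c0 n) = 1 → st x * x - 1 ∈ Rad R → ∃ g ∈ N, g.1 - x ∈ Rad R

def Full (X : SG p n) : Prop := FullA X (Env X)

/-- `Y` is the largest stable subgroup of `N` -/
structure LS (N Y : SG p n) : Prop where
  le : Y ≤ N
  stable : Stable Y
  max : ∀ Z, Z ≤ N → Stable Z → Z ≤ Y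

/-- `Q` consists of the elements of `Y` with local model in `A` -/
def Pre (f : GG p n) (ℓ : Ix n → ℕ) (S : Set (Ix n)) (Y : SG p n) (A : Sub p n) (Q : SG p n) :
    Prop := ∀ g, g ∈ Q ↔ g ∈ Y ∧ loc f ℓ S g.1 ∈ A

/-! ### the core -/

def cT (n : ℕ) : ℕ := 608 * (2 * n + 1)
def capE (n : ℕ) : ℕ := 4800 * (2 * n + 1)
def nu (n : ℕ) : ℕ := capE n + cT n

/-- the dyadic pieces of `I` -/
def dI (I : Set (Ix n)) (h j i : ℕ) : Set (Ix n) := {α | α ∈ I ∧ α.val / 2 ^ (h - j) = i}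

def tree (H : SG p n) (R : Sub p n) (f : GG p n) (ℓ : Ix n → ℕ) (I : Set (Ix n)) (h : ℕ) :
    List (Rec (GG p n)) :=
  (dy h).map fun r => (r.1, H ⊓ CenQ R (MI R f ℓ (dI I h r.1 r.2)),
    if r.1 = h then H ⊓ CenQ R (MI R f ℓ (dI I h r.1 r.2)) else
      H ⊓ NmS (MI R f ℓ (dI I h (r.1 + 1) (2 * r.2))) ⊓
        NmS (MI R f ℓ (dI I h (r.1 + 1) (2 * r.2 + 1))))

/-- the invariant of the computation of the core of `N` -/
structure CoreI (H N Y : SG p n) (F : List (Rec (GG p n))) : Prop where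
  le : Y ≤ N
  nm : Nm H Y
  max : ∀ Z, Z ≤ N → Stable Z → Z ≤ Y
  val : Kids p (cT n) H F
  solv : SolvMod (N ⊓ topI F) Y
  near : ∀ M Z : SG p n, M ≤ H → Nm H M → Z ≤ N ⊓ M → Stable Z →
    (∀ x ∈ N ⊓ M, ∃ k : ℕ, x ^ p ^ k ∈ Z) → M ≤ topI F

structure Core (H N Y : SG p n) (F : List (Rec (GG p n))) : Prop where
  inv : CoreI H N Y F
  stable : Stable Y

/-! ### boxes -/

/-- forms that vanish below the box `a` -/
def Lowr (ℓ : Ix n → ℕ) (a : Fin 3 → Ix n) : Submodule (ZMod p) (Frm p n) where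
  carrier := {w | ∀ i, (∀ j, ℓ (i j) ≤ ℓ (a j)) → (∃ j, ℓ (i j) < ℓ (a j)) → w i = 0}
  add_mem' hx hy i h h' := by simp [hx i h h', hy i h h']
  zero_mem' _ _ _ := rfl
  smul_mem' c x hx i h h' := by simp [hx i h h']

/-- pointers: a group, a section, a forest -/
structure Ptr (p n : ℕ) where
  G : SG p n
  L : VS p n
  U : VS p n
  F : List (Rec (GG p n))

structure PtrOK (c : ℕ) (G X : SG p n) (L U : VS p n) (π : Ptr p n) : Prop where
  stb : π.G ≤ Stb π.L ⊓ Stb π.U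
  lo : π.L ≤ L
  hi : U ≤ π.U
  triv : X ≤ Ker π.L π.U
  cov : ∀ g ∈ G, ∃ g' ∈ π.G, g'⁻¹ * g ∈ Ker π.L π.U
  val : ∃ N, Val p c π.G N π.F ∧ SolvMod (π.G ⊓ N) (Ker L U)

/-- the arguments of a call -/
structure St (p n : ℕ) where
  f : GG p n
  ℓ : Ix n → ℕ
  a : Fin 3 → Ix n
  μ : Fin 3 → ℕ
  G : SG p n
  X : SG p n
  F : List (Rec (GG p n))
  ptr : Fin 3 → Option (Ptr p n)
  T : Frm p n
  T' : Frm p n

/-- the result of a call -/
structure Out (p n : ℕ) where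
  H : SG p n
  X : SG p n
  F : List (Rec (GG p n))
  φ : Option (GG p n)

namespace St
variable (s : St p n)

def lam : Set (Ix n) := Lam s.ℓ s.a
/-- labels of the local model -/
def ll : Ix n → ℕ := lS s.ℓ s.lam
def lo : Mat p n →ₗ[ZMod p] Mat p n := loc s.f s.ℓ s.lam
/-- the local algebra of a group -/
def le (Y : SG p n) : Sub p n := (Env Y).map s.lo
/-- the potential -/
def ph (A : Sub p n) : ℕ := PhA s.μ s.ll A
/-- the kernel on the slots -/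
def N1 : SG p n := s.G ⊓ KB s.f s.ℓ s.lam
def ks (j : Fin 3) : SG p n := KS s.f s.ℓ (s.a j)
def t : ℕ := key s.ℓ s.a
/-- the difference of `T''` and `T` on the box -/
def dl (T'' : Frm p n) : Frm p n := cmp s.ℓ s.t (pull1 s.f.1 (T'' - s.T))
def kp (g : GG p n) : Frm p n := s.dl (pull1 g.1 s.T)
def kp' (g : GG p n) : Frm p n := s.dl (pull1 g.1 s.T')
def TBox : Prop := ∃ j, s.X ≤ s.ks j
def sz : ℕ := ∏ j, nb s.ℓ (s.a j)
/-- `H` is the stabiliser -/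
def IsH (H : SG p n) : Prop := ∀ g, g ∈ H ↔ g ∈ s.G ∧ s.kp g = 0
/-- `φ` is a solution, if there is one -/
def IsS (φ : Option (GG p n)) : Prop :=
  (∀ g, φ = some g → g ∈ s.G ∧ s.kp' g = 0) ∧ (φ = none → ∀ g ∈ s.G, s.kp' g ≠ 0)

/-- the conditions that do not involve budgets -/
structure Ok0 : Prop where
  lab : Lab s.ℓ
  tri : TriR (Env s.G) s.f s.ℓ
  low : ∀ g ∈ s.G, pull1 s.f.1 (pull1 g.1 s.T - s.T) ∈ Lowr s.ℓ s.a
  low' : pull1 s.f.1 (s.T' - s.T) ∈ Lowr s.ℓ s.a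
  le : s.X ≤ s.G
  nm : Nm s.G s.X
  stable : Stable s.X
  full : Full s.X

/-- the precondition; `c` and `τ` are the budgets of the slots -/
structure Pr (EG : ℕ) (c τ : Fin 3 → ℕ) : Prop extends s.Ok0 where
  val : Val p (nu n) s.G s.X s.F
  mu : ∀ j, nb s.ℓ (s.a j) ≤ s.μ j
  ptr : ∀ j π, s.ptr j = some π → PtrOK (c j) s.G s.X (sL s.f s.ℓ (s.a j)) (sH s.f s.ℓ (s.a j)) π
  none : ∀ j, s.ptr j = none → nu n ≤ c j
  tau : ∀ j, τ j < 12 * (2 * n + 1) + 1 → s.G ≤ s.ks j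
  pot : 200 * s.ph (s.le s.G) + 1200 * ∑ j, s.μ j ≤ EG
  cap : EG ≤ capE n

def PrE (E EG : ℕ) : Prop := ∃ c τ : Fin 3 → ℕ, s.Pr EG c τ ∧ EG + ∑ j, (c j + τ j) ≤ E

/-- the conditions on the new pair `(Y, F)` inside the subgroup `H` -/
structure Nw (c : ℕ) (H Y : SG p n) (F : List (Rec (GG p n))) : Prop where
  le : Y ≤ H ⊓ s.X
  nm : Nm H Y
  stable : Stable Y
  full : Full Y
  off : ∀ Z, Z ≤ s.X ⊓ s.N1 → PP p Z → Z ≤ Y
  kids : Kids p c H F
  solv : SolvMod (H ⊓ s.X ⊓ topI F) Y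
  near : H ⊓ s.N1 ≤ topI F

/-- the postcondition -/
structure Po (EG : ℕ) (o : Out p n) : Prop where
  isH : s.IsH o.H
  isS : s.IsS o.φ
  nw : s.Nw (EG + cT n) o.H o.X o.F
  tb : s.TBox → ∀ Z, Z ≤ o.H ⊓ s.X → Stable Z → Z ≤ o.X

/-- all blocks are simple -/
def Sim : Prop := CF (Env s.G) s.f s.ℓ

/-- the scales are tight -/
def Tight : Prop := ∀ j, s.μ j < 2 * nb s.ℓ (s.a j)

def reset : St p n :=
  { s with μ := fun j => if 2 * nb s.ℓ (s.a j) ≤ s.μ j then nb s.ℓ (s.a j) else s.μ j }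

/-- the call for the sub-box `b`, after the results `o` -/
def sub (f : GG p n) (ℓ : Ix n → ℕ) (b : Fin 3 → Ix n) (o : Out p n) : St p n :=
  { s with f := f, ℓ := ℓ, a := b, G := o.H, X := o.X, F := s.F ++ o.F,
           T' := o.φ.elim s.T fun g => pull1 g.1 s.T' }

/-- `w` vanishes on the sub-boxes with key below `t` -/
def Bel (ℓ : Ix n → ℕ) (t : ℕ) (w : Frm p n) : Prop :=
  ∀ i, (∀ j, s.ℓ (i j) = s.ℓ (s.a j)) → key ℓ i < t → w i = 0

/-- the invariant of the loop over the sub-boxes -/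
structure Thr (EG : ℕ) (f : GG p n) (ℓ : Ix n → ℕ) (t : ℕ) (o : Out p n) : Prop where
  isH : ∀ g, g ∈ o.H ↔ g ∈ s.G ∧ s.Bel ℓ t (pull1 f.1 (pull1 g.1 s.T - s.T))
  some : ∀ g, o.φ = some g → g ∈ s.G ∧ s.Bel ℓ t (pull1 f.1 (pull1 g.1 s.T' - s.T))
  none : o.φ = none → ∀ g ∈ s.G, ¬ s.Bel ℓ t (pull1 f.1 (pull1 g.1 s.T' - s.T))
  nw : s.Nw (EG + cT n) o.H o.X o.F
  tb : s.TBox → ∀ Z, Z ≤ o.H ⊓ s.X → Stable Z → Z ≤ o.X

end St

/-- the accumulated result -/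
def Out.next (o r : Out p n) : Out p n :=
  ⟨r.H, r.X, o.F ++ r.F, o.φ.bind fun g => r.φ.map fun h => g * h⟩

/-! ### branching -/

structure Brc (p n : ℕ) where
  Q : SG p n
  X : SG p n
  F : List (Rec (GG p n))
  ptr : Fin 3 → Option (Ptr p n)
  R : List (GG p n)
  R' : List (GG p n)

namespace St
variable (s : St p n)

/-- the call for the target `T''` -/
def kid (b : Brc p n) (T'' : Frm p n) : St p n :=
  { s with G := b.Q, X := b.X, F := s.F ++ b.F, ptr := b.ptr, T' := T'' }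

structure BrOK (E EG : ℕ) (b : Brc p n) (c EG' : ℕ) : Prop where
  le : b.Q ≤ s.G
  n1 : ¬ s.TBox → s.N1 ≤ b.Q
  mem : ∀ t ∈ b.R, t ∈ s.G
  mem' : ∀ t ∈ b.R', t ∈ s.G
  cov : ∀ g ∈ s.G, s.kp g = 0 → ∃ t ∈ b.R, t⁻¹ * g ∈ b.Q
  cov' : ∀ g ∈ s.G, s.kp' g = 0 → ∃ t ∈ b.R', t⁻¹ * g ∈ b.Q
  len : p * b.R.length ≤ p ^ c
  len' : p * b.R'.length ≤ p ^ c
  pos : 0 < c
  nw : s.Nw (cT n) b.Q b.X b.F
  tb : s.TBox → ∀ Z, Z ≤ s.X → (∀ g ∈ Z, s.kp g = 0) → Stable Z → Z ≤ b.X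
  pre : c ≤ E ∧ (s.kid b s.T).PrE (E - c) EG'
  eg : EG' ≤ EG
  gg : ¬ s.TBox → EG' + c ≤ EG

/-- the pointer of slot `j` -/
def pt (j : Fin 3) : Ptr p n :=
  (s.ptr j).getD ⟨s.G, sL s.f s.ℓ (s.a j), sH s.f s.ℓ (s.a j), s.F⟩

/-- `G1` is the preimage of the action of `G` in the group of the pointer -/
def IsG1 (j : Fin 3) (G1 : SG p n) : Prop :=
  ∀ g', g' ∈ G1 ↔ g' ∈ (s.pt j).G ∧ ∃ g ∈ s.G, g'⁻¹ * g ∈ Ker (s.pt j).L (s.pt j).U

/-- the drop of the potential pays for `k` branches -/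
def Paid (k : ℕ) (R : Sub p n) : Prop :=
  p * k * p ^ (200 * s.ph R) ≤ p ^ (200 * s.ph (s.le s.G))

/-- the stabiliser of a cyclic submodule of slot `j` -/
def qb (j : Fin 3) (x : Vec p n) : SG p n := s.G ⊓ Stb (sL s.f s.ℓ (s.a j) ⊔ orb (Env s.X) x)

/-- `Q` is the centraliser of `C` -/
def IsQc (C : Mat p n) (Q : SG p n) : Prop := ∀ g, g ∈ Q ↔ g ∈ s.G ∧ s.lo g.1 * C = C * s.lo g.1

/-- `Q` is the preimage of `P` -/
def IsQd (j : Fin 3) (P Q : SG p n) : Prop :=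
  ∀ g, g ∈ Q ↔ g ∈ s.G ∧ ∃ g' ∈ P, g'⁻¹ * g ∈ Ker (s.pt j).L (s.pt j).U

/-- the span of the differences of the kernel -/
def Sp : Submodule (ZMod p) (Frm p n) := Submodule.span (ZMod p) {w | ∃ g ∈ s.N1, s.kp g = w}

/-- slot `j` is a simple module of `X` -/
def XS (j : Fin 3) : Prop :=
  ∀ x ∈ Vb s.ll (s.a j), x ≠ 0 → ∀ y ∈ Vb s.ll (s.a j), ∃ b ∈ s.le s.X, b *ᵥ x = y

/-- the box is resolved -/
structure Res : Prop where
  str : Str s.ll (s.le s.X)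
  giant : Giant s.ll (s.le s.X)
  mem : ∀ g ∈ s.G, s.lo g.1 ∈ s.le s.X

/-- the relation between local models and differences -/
def Kc (z : Mat p n) (w : Frm p n) : Prop := ∃ g ∈ s.G, s.lo g.1 = z ∧ s.kp g = w

end St

/-- the first call -/
def root (X : SG p n) (F : List (Rec (GG p n))) (T T' : Frm p n) : St p n :=
  ⟨1, l0 n, ![Fin.last _, Fin.last _, 0], fun _ => 2 * n + 1, ⊤, X, F, fun _ => none, T, T'⟩

/-- the budget of the first call -/
def EE (n : ℕ) : ℕ := capE n + 3 * (nu n + (12 * (2 * n + 1) + 1))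

end

end Pool.Agent.P.MP_f1a348_lc.UP
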