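import Pool.Agent.P.MP_f1a348_lc.UP.EProg
import Pool.Agent.P.MP_f1a348_lc.UP.Defs

/-!
Project UP: the program of the recursion.  Group elements are lists (matrices), groups are lists
of generators.
-/

namespace Pool.Agent.P.MP_f1a348_lc.UP

open Pool.Agent.P.MP_f1a348_lc.PG

/-! ### group elements -/

def parP (c : Cx) (x : V) : Bool :=
  meq c (grP c (l0P c) x) x && meq c (mmul c (mstar c x) x) (oneP c) &&
    ent c x (cz c) (cz c) % pp c == 1
/-- the matrix of a group element -/
def nrm (c : Cx) (x : V) : V := bif parP c x then nv c (u2 c) x else oneP c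
def gmul (c : Cx) (x y : V) : V := mmul c (nrm c x) (nrm c y)
def ginv (c : Cx) (x : V) : V := mstar c (nrm c x)
def gdiv (c : Cx) (x y : V) : V := gmul c (ginv c x) y
def gcj (c : Cx) (h x : V) : V := gmul c (gmul c h x) (ginv c h)
def gcom (c : Cx) (x y : V) : V := gmul c (gcj c x y) (ginv c y)
def chk {β : Type} (b : Bool) (x : β) : List β := bif b then [x] else []
def mn (c : Cx) (k : ℕ) : ℕ := min k c.2.2.length
def pwN (c : Cx) (k : ℕ) : ℕ := pp c ^ mn c k
def uR (c : Cx) : U := mulU (u2 c) (() :: c.1)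

/-! ### Schreier and Sims -/

def simsIn (c : Cx) (b : V) (st : List V × List V) (g : V) : List V × List V :=
  (st.1.find? fun r => isz c (u1 c) (vsub c (u1 c) (mvec c (nrm c r) b) (mvec c (nrm c g) b))).elim
    (nrm c g :: st.1, st.2) fun r => (st.1, gdiv c r g :: st.2)
def simsFold (c : Cx) (b : V) (S : List V) : List V × List V := S.foldl (simsIn c b) ([], [])
def simsStep (c : Cx) (st : List V × List V) (b : V) : List V × List V :=
  ((simsFold c b st.2).1 ++ st.1, (simsFold c b st.2).2)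
/-- a short list of generators -/
def red (c : Cx) (S : List V) : List V :=
  ((((units c (u1 c)).foldl (simsStep c) ([], S)).1).take c.2.2.length).map (nrm c)
def bfsStep (c : Cx) (t : V → Bool) (S R : List V) : List V :=
  (((S ++ S.map (ginv c)).flatMap fun s => R.map fun r => gmul c s r).find? fun x =>
    R.all fun r => !t (gdiv c r x)).toList ++ R
/-- representatives of cosets -/
def bfs (c : Cx) (t : V → Bool) (S : List V) : List V :=
  c.2.2.foldl (fun R _ => bfsStep c t S R) [oneP c]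
def sch (c : Cx) (R S : List V) : List V :=
  R.flatMap fun r' => (oneP c :: (S ++ S.map (ginv c))).flatMap fun s =>
    R.map fun r => gmul c (gdiv c r' s) r
/-- the subgroup of a test -/
def subG (c : Cx) (t : V → Bool) (S : List V) : List V := red c ((sch c (bfs c t S) S).filter t)
def subs (c : Cx) (t : ℕ → V → Bool) (I : List ℕ) (S : List V) : List V :=
  I.foldl (fun S i => subG c (t i) S) (red c S)
def cosStep (c : Cx) (t q : ℕ → V → Bool) (s : V × List V) (i : ℕ) : V × List V :=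
  ((((bfs c (t i) s.2).map (gmul c s.1)).find? (q i)).getD (nrm c s.1), subG c (t i) s.2)
/-- an element of a coset that passes the tests `q` -/
def cos (c : Cx) (t q : ℕ → V → Bool) (I : List ℕ) (g : V) (S : List V) : V :=
  (I.foldl (cosStep c t q) (nrm c g, red c S)).1

/-! ### kernels, lifts, closures -/

def colT (c : Cx) (ρ : V → V) (z : V) (i : ℕ) (x : V) : Bool :=
  (ran (u1 c)).all fun j => ent c (ρ x) j i % pp c == ent c z j i % pp c
def fixP (c : Cx) (ρ : V → V) (I : List ℕ) (S : List V) : List V := subs c (colT c ρ (oneP c)) I S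
def kerP (c : Cx) (ρ : V → V) (S : List V) : List V := fixP c ρ (ran (u1 c)) S
def liftP (c : Cx) (ρ : V → V) (S : List V) (z : V) : V :=
  cos c (colT c ρ (oneP c)) (colT c ρ z) (ran (u1 c)) (oneP c) S
def memG (c : Cx) (S : List V) (x : V) : Bool := meq c (liftP c (nv c (u2 c)) S x) x
def klP (c : Cx) (ρ : V → V) (S W : List V) : List V := red c (kerP c ρ S ++ W.map (liftP c ρ S))
def capN (c : Cx) (A K : List V) : List V :=
  subs c (fun i => memG c (K ++ fixP c (nv c (u2 c)) ((ran (u1 c)).take (i + 1)) A)) (ran (u1 c)) A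
def ncl (c : Cx) (H X : List V) : List V :=
  (uR c).foldl (fun Y _ => red c (Y ++ H.flatMap fun h => Y.map (gcj c h))) (red c X)
def frG (c : Cx) (Y : List V) : List V :=
  ncl c Y (Y.map (fun y => pw c (nrm c y) (pp c)) ++ Y.flatMap fun a => Y.map (gcom c a))
def envP (c : Cx) (S : List V) : List V :=
  (u2 c).foldl (fun B _ => basis c (u2 c) (B ++ S.flatMap fun s => B.map (mmul c (nrm c s))))
    [oneP c]

/-! ### frames -/

def labP (c : Cx) (l : V) : Bool :=
  (ran (u1 c)).all fun a => Nat.ble (l.getD a 0) a && (!same l a (cz c) || a == cz c) &&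
    (ran (u1 c)).all fun b => (Nat.blt b a || Nat.ble (l.getD a 0) (l.getD b 0)) &&
      (Nat.blt (l.getD b 0) (l.getD a 0) ||
        Nat.ble (l.getD (rv c b) 0) (l.getD (rv c a) 0)) &&
      (Nat.blt b (l.getD a 0) || Nat.ble (l.getD a 0) (l.getD b 0))
/-- the labels of a list -/
def nl (c : Cx) (l : V) : V :=
  bif labP c l then (ran (u1 c)).map fun j => l.getD j 0 % mM c else l0P c
def frP (c : Cx) (f x : V) : V := mmul c (mmul c (mstar c f) x) f
def lcP (c : Cx) (l e y : V) : V :=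
  axpy c (u2 c) (ent c y (cz c) (cz c)) (vsub c (u2 c) (oneP c) e) (mmul c (mmul c e (grP c l y)) e)
def locP (c : Cx) (f l e x : V) : V := lcP c l e (frP c f x)
def cfQ (c : Cx) (f : V) (x : Lt) : Lt := (x.1, mmul c f x.2.1, x.2.2)
/-- a composition flag -/
def cfP (c : Cx) (f l : V) (R : List V) : Lt := cfQ c f (rf1 c l (conjP c l f f R))

/-! ### the core -/

abbrev Fo : Type := List (ℕ × List V × List V)

def smlQ (c : Cx) (l : V) (s : Sd) : List ℕ :=
  (ran (u1 c)).filter fun a => !trivP c s a &&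
    Nat.ble (nbP c l a * nbP c l a) (200 * mM c * (csg c s a a).length)
def smlP (c : Cx) (x : Lt) : List ℕ := smlQ c x.1 (sdB c x.1 x.2.2)
def miP (c : Cx) (R : List V) (x : Lt) (I : List ℕ) : List V :=
  preim c (u2 c) (u2 c) R
    (fun y => mmul c (grP c x.1 (frP c x.2.1 y)) (diagP c fun j => I.any (same x.1 j))) []
def cjP (c : Cx) (g y : V) : V := mmul c (mmul c g y) (mstar c g)
def nmT (c : Cx) (I : List V) (g : V) : Bool := I.all fun y => mem c (u2 c) I (cjP c g y)
def cenT (c : Cx) (R I : List V) (g : V) : Bool :=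
  nmT c I g && R.all fun y => mem c (u2 c) I (vsub c (u2 c) (cjP c g y) y)
def p2 (c : Cx) (k : ℕ) : ℕ := 2 ^ min k (mM c)
def hP (c : Cx) : ℕ := (mM c).bits.length
def dyP (c : Cx) : List (ℕ × ℕ) :=
  (mM c).bits.foldl (fun D _ => (0, 0) :: (up D ++ D.map fun r => (r.1 + 1, r.2 + p2 c r.1)))
    [(0, 0)]
def dIP (c : Cx) (I : List ℕ) (j i : ℕ) : List ℕ := I.filter fun a => a / p2 c (hP c - j) == i
def trK (c : Cx) (H R : List V) (x : Lt) (J : List ℕ) : List V :=
  subs c (fun a => cenT c R (miP c R x [a])) J H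
def trP (c : Cx) (H R : List V) (x : Lt) (J J' : List ℕ) : List V :=
  subG c (nmT c (miP c R x J')) (subG c (nmT c (miP c R x J)) H)
def treeP (c : Cx) (H R : List V) (x : Lt) (I : List ℕ) : Fo :=
  (dyP c).map fun r => (r.1, trK c H R x (dIP c I r.1 r.2),
    bif r.1 == hP c then trK c H R x (dIP c I r.1 r.2) else
      trP c H R x (dIP c I (r.1 + 1) (2 * r.2)) (dIP c I (r.1 + 1) (2 * r.2 + 1)))
def coreQ (c : Cx) (H Z R : List V) (x : Lt) (F : Fo) : List V × Fo :=
  (fixP c (fun g => grP c x.1 (frP c x.2.1 g)) (smlP c x) Z, F ++ treeP c H R x (smlP c x))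
def coreR (c : Cx) (H Z R : List V) (F : Fo) : List V × Fo :=
  coreQ c H Z R (cfP c (oneP c) (l0P c) R) F
def coreStep (c : Cx) (H : List V) (s : List V × Fo) : List V × Fo :=
  coreR c H (frG c s.1) (envP c (frG c s.1)) s.2
/-- the core and its forest -/
def coreP (c : Cx) (H N : List V) : List V × Fo :=
  (uR c).foldl (fun s _ => coreStep c H s) (red c N, [])

/-! ### states -/

/-- group, frame, labels, block, forest -/
abbrev PPt : Type := List V × V × V × ℕ × Fo
/-- (frame, labels, box, scales), (group, core, forest), pointers, two forms -/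
abbrev PS : Type := (V × V × V × V) × (List V × List V × Fo) × List (Option PPt) × V × V
/-- stabiliser, core, forest, solution -/
abbrev PO : Type := List V × List V × Fo × Option V
/-- (subgroup, core, forest), pointers, representatives -/
abbrev PB : Type := (List V × List V × Fo) × List (Option PPt) × List V × List V

def sG (s : PS) : List V := s.2.1.1
def sX (s : PS) : List V := s.2.1.2.1
def sF (s : PS) : Fo := s.2.1.2.2
def sT (s : PS) : V := s.2.2.2.1
def sT' (s : PS) : V := s.2.2.2.2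
def sP (s : PS) (j : ℕ) : Option PPt := s.2.2.1.getD j none
def fm (c : Cx) (s : PS) : V := nrm c s.1.1
def lP (c : Cx) (s : PS) : V := nl c s.1.2.1
def aj (c : Cx) (s : PS) (j : ℕ) : ℕ := s.1.2.2.1.getD j 0 % mM c
def a3 (c : Cx) (s : PS) : V := [0, 1, 2].map (aj c s)
def muP (c : Cx) (s : PS) : V := [0, 1, 2].map fun j => min (s.1.2.2.2.getD j 0) (mM c)
def inL (c : Cx) (s : PS) (b : ℕ) : Bool :=
  [0, 1, 2].any fun j => same (lP c s) b (aj c s j) || same (lP c s) b (rv c (aj c s j))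
def llP (c : Cx) (s : PS) : V :=
  (ran (u1 c)).map fun b => bif inL c s b then (lP c s).getD b 0 else b
def loP (c : Cx) (s : PS) (x : V) : V := locP c (fm c s) (lP c s) (diagP c (inL c s)) x
def leP (c : Cx) (s : PS) (Y : List V) : List V := basis c (u2 c) ((envP c Y).map (loP c s))
def phP (c : Cx) (s : PS) (A : List V) : ℕ := potP c (muP c s) (llP c s) A
def dlP (c : Cx) (s : PS) (w : V) : V :=
  cmpP c (lP c s) (tP c (lP c s) (a3 c s) 0) (pull1P c (fm c s) (vsub c (u3 c) w (sT s)))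
def kpP (c : Cx) (s : PS) (w g : V) : V := dlP c s (pull1P c g w)
def n1P (c : Cx) (s : PS) (Y : List V) : List V := kerP c (loP c s) Y
def ksT (c : Cx) (s : PS) (j : ℕ) (x : V) : Bool :=
  meq c (mmul c (mmul c (prP c (lP c s) (aj c s j)) (frP c (fm c s) x)) (prP c (lP c s) (aj c s j)))
    (prP c (lP c s) (aj c s j))
def xkP (c : Cx) (s : PS) (j : ℕ) (Y : List V) : Bool := Y.all fun x => ksT c s j (nrm c x)
def tbP (c : Cx) (s : PS) : Bool := [0, 1, 2].any fun j => xkP c s j (sX s)
def preP (c : Cx) (s : PS) (Y A : List V) : List V := klP c (loP c s) Y (genP c (llP c s) A)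

/-! ### leaves -/

def spS (c : Cx) (s : PS) : List V := (n1P c s (sG s)).map fun u => kpP c s (sT s) (nrm c u)
def leafT (c : Cx) (s : PS) : Bool :=
  (sG s).all fun g => mem c (u3 c) (spS c s) (kpP c s (sT s) (nrm c g))
def crdT (c : Cx) (s : PS) (w : V) (i : ℕ) (x : V) : Bool := !nz c (kpP c s w x) i
def solP (c : Cx) (s : PS) (w g : V) : V :=
  cos c (crdT c s (sT s)) (crdT c s w) (ran (u3 c)) g (n1P c s (sG s))
def leafH (c : Cx) (s : PS) : List V :=
  (sG s).map (solP c s (sT s)) ++ subs c (crdT c s (sT s)) (ran (u3 c)) (n1P c s (sG s))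
def leafS (c : Cx) (s : PS) : Option V :=
  (chk (isz c (u3 c) (kpP c s (sT' s) (solP c s (sT' s) (oneP c))))
    (solP c s (sT' s) (oneP c))).head?
def outQ (H : List V) (y : List V × Fo) (φ : Option V) : PO := (H, y.1, y.2, φ)
def outC (c : Cx) (s : PS) (H : List V) (φ : Option V) : PO :=
  outQ H (coreP c H (capN c H (sX s))) φ

/-! ### the rules -/

def paidP (c : Cx) (s : PS) (k : ℕ) (A : List V) : Bool :=
  Nat.ble (pp c * k * pwN c (200 * phP c s A)) (pwN c (200 * phP c s (leP c s (sG s))))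
def brS (s : PS) (Q : List V) (π : List (Option PPt)) (R : List V) : PB := ((Q, sX s, []), π, R, R)
def tryR (c : Cx) (s : PS) (Q R : List V) : List PB :=
  chk (Nat.ble R.length c.2.2.length && paidP c s R.length (leP c s Q)) (brS s Q s.2.2.1 R)
def tryQ (c : Cx) (s : PS) (t : V → Bool) : List PB :=
  tryR c s (subG c t (sG s)) (bfs c t (sG s))
def ruleA (c : Cx) (s : PS) : List PB :=
  [0, 1, 2].flatMap fun j => chk (xkP c s j (sX s) && !xkP c s j (sG s) &&
    Nat.ble (bfs c (ksT c s j) (sG s)).length (pwN c (12 * mM c)))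
    (brS s (subG c (ksT c s j) (sG s)) s.2.2.1 (bfs c (ksT c s j) (sG s)))
def qbT (c : Cx) (s : PS) (W : List V) (v x : V) : Bool :=
  mem c (u1 c) W (mvec c (loP c s x) v)
def ruleB (c : Cx) (s : PS) : List PB :=
  [0, 1, 2].flatMap fun j => (blkP c (llP c s) (aj c s j)).flatMap fun v =>
    tryQ c s (qbT c s (orbP c (leP c s (sX s)) v) v)
def ptP (c : Cx) (s : PS) (j : ℕ) : PPt := (sP s j).getD (sG s, fm c s, lP c s, aj c s j, sF s)
def secP (c : Cx) (π : PPt) (x : V) : V :=
  locP c (nrm c π.2.1) (nl c π.2.2.1) (prP c (nl c π.2.2.1) (π.2.2.2.1 % mM c)) x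
def trn (c : Cx) (π : PPt) (A Z : List V) : List V :=
  klP c (secP c π) A (Z.map fun g => secP c π (nrm c g))
def abT (c : Cx) (s : PS) (j : ℕ) (C : List V) : Bool :=
  C.all fun a => C.all fun b => ksT c s j (gcom c a b)
def setP (s : PS) (j : ℕ) (π : PPt) : List (Option PPt) :=
  [0, 1, 2].map fun i => bif i == j then some π else sP s i
def brE (c : Cx) (s : PS) (j : ℕ) (π : PPt) (Q : List V) : PB :=
  brS s Q (setP s j π) (bfs c (memG c Q) (sG s))
def brD (c : Cx) (s : PS) (j : ℕ) (π : PPt) (P : List V) (F : Fo) : PB :=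
  brE c s j (P, π.2.1, π.2.2.1, π.2.2.2.1, F) (trn c π (sG s) P)
def ruleD1 (c : Cx) (s : PS) (j : ℕ) (π : PPt) (G1 : List V) : List PB :=
  (tops π.2.2.2.2).flatMap fun r => chk (abT c s j (capN c G1 r.1.1))
    (brD c s j π (subG c (memG c r.1.2) G1) r.2)
def ruleD (c : Cx) (s : PS) : List PB :=
  [0, 1, 2].flatMap fun j => bif xkP c s j (sX s) then
    ruleD1 c s j (ptP c s j) (trn c (ptP c s j) (ptP c s j).1 (sG s)) else []
def qcT (c : Cx) (s : PS) (C x : V) : Bool :=
  meq c (mmul c (loP c s x) C) (mmul c C (loP c s x))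
def ruleC (c : Cx) (s : PS) : List PB :=
  (clP c (sdB c (llP c s) (leP c s (sX s)))).flatMap fun C => tryQ c s (qcT c s C)
def engS (c : Cx) (s : PS) : Option (List V × List V × List V) :=
  engP c (llP c s) (leP c s (sX s)) (a3 c s) (muP c s)
    ((sG s).map fun g => (loP c s (nrm c g), kpP c s (sT s) (nrm c g)))
    (kpP c s (sT s) (liftP c (loP c s) (sG s) (z0B c (llP c s) (leP c s (sX s)))))
    (spS c s) (dlP c s (sT' s))
def brF (c : Cx) (s : PS) (Q : List V) (y : List V × Fo) (Z Z' : List V) : PB :=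
  ((Q, y.1, y.2), s.2.2.1, Z.map (liftP c (loP c s) (sG s)), Z'.map (liftP c (loP c s) (sG s)))
def ruleE (c : Cx) (s : PS) : List PB :=
  (engS c s).toList.map fun e => brF c s (preP c s (sG s) e.1)
    (coreP c (preP c s (sG s) e.1) (preP c s (sX s) e.1)) e.2.1 e.2.2
def brP (c : Cx) (s : PS) : PB :=
  (ruleA c s ++ (ruleB c s ++ (ruleD c s ++ (ruleC c s ++ ruleE c s)))).headD (brS s [] [] [])

/-! ### un-pinning -/

def ungQ (c : Cx) (s : PS) (Q : List V) (F : Fo) (o : PO) (K : List V) (y : List V × Fo) : PO :=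
  (o.1, y.1, (0, n1P c s o.1 ++ y.1, Q) :: (up (F ++ o.2.2.1 ++ [(0, K, K)]) ++ y.2), o.2.2.2)
def kkP (c : Cx) (s : PS) (H : List V) : List V :=
  subG c (fun h => mem c (u2 c) (leP c s (sX s)) (loP c s h)) H
def ungP (c : Cx) (s : PS) (Q : List V) (F : Fo) (o : PO) : PO :=
  ungQ c s Q F o (kkP c s o.1)
    (coreP c o.1 (capN c o.1 (preP c s (sX s) (leP c s (ncl c o.1 o.2.1)))))

/-! ### the machine -/

/-- branching or not, the state, the state of the children, a forest, the calls to come, the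
results so far -/
abbrev Fm : Type := Bool × PS × PS × Fo × List (ℕ × V) × PO

def todo (x : Fm) : List (ℕ × V) := x.2.2.2.2.1
def acc (x : Fm) : PO := x.2.2.2.2.2
def resetP (c : Cx) (s : PS) : PS :=
  ((s.1.1, s.1.2.1, s.1.2.2.1, [0, 1, 2].map fun j =>
    bif Nat.ble (2 * nbP c (lP c s) (aj c s j)) ((muP c s).getD j 0) then nbP c (lP c s) (aj c s j)
    else (muP c s).getD j 0), s.2)
def kidP (s : PS) (b : PB) : PS :=
  (s.1, (b.1.1, b.1.2.1, sF s ++ b.1.2.2), b.2.1, sT s, sT s)
def initB (c : Cx) (s : PS) (b : PB) : Fm :=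
  (true, s, kidP s b, b.1.2.2,
    (0, oneP c) :: (b.2.2.1.map (fun t => (1, t)) ++ b.2.2.2.map fun t => (2, t)),
    ([], [], [], none))
def init1 (c : Cx) (s : PS) : Fm :=
  bif leafT c s then (false, s, s, [], [], outC c s (leafH c s) (leafS c s))
  else initB c s (brP c s)
def boxT (c : Cx) (s k : PS) (i : ℕ) : Bool :=
  [0, 1, 2].all fun j => same (lP c s) (co c j i) (aj c s j) && (lP c k).getD (co c j i) 0 == co c j i
def init2 (c : Cx) (s k : PS) : Fm :=
  bif [0, 1, 2].any fun j => Nat.blt (nbP c (lP c k) (aj c s j)) (nbP c (lP c s) (aj c s j)) then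
    (false, k, k, [], ((ran (u3 c)).filter (boxT c s k)).map fun i => (i, []),
      (sG s, sX s, [], some (oneP c)))
  else init1 c (resetP c k)
def refS (s : PS) (x : Lt) : PS := ((x.2.1, x.1, s.1.2.2), s.2)
def init (c : Cx) (s : PS) : Fm :=
  init2 c s (refS s (cfP c (fm c s) (lP c s) (envP c (sG s))))
def subS (c : Cx) (k : PS) (i : ℕ) (o : PO) : PS :=
  ((k.1.1, k.1.2.1, [co c 0 i, co c 1 i, co c 2 i], k.1.2.2.2), (o.1, o.2.1, sF k ++ o.2.2.1),
    k.2.2.1, sT k, o.2.2.2.elim (sT k) fun g => pull1P c (nrm c g) (sT' k))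
def tgS (k : PS) (w : V) : PS := (k.1, k.2.1, k.2.2.1, sT k, w)
def call (c : Cx) (x : Fm) (q : ℕ × V) : PS :=
  bif x.1 then tgS x.2.2.1 (pull1P c (nrm c q.2) (bif q.1 == 2 then sT' x.2.1 else sT x.2.1))
  else subS c x.2.2.1 q.1 (acc x)
def nextP (c : Cx) (o r : PO) : PO :=
  (r.1, r.2.1, o.2.2.1 ++ r.2.2.1, o.2.2.2.bind fun g => r.2.2.2.map (gmul c g))
def joinP (c : Cx) (q : ℕ × V) (o r : PO) : PO :=
  bif q.1 == 0 then (r.1, r.2.1, r.2.2.1, none) else
  bif q.1 == 1 then (o.1 ++ r.2.2.2.toList.map (gmul c q.2), o.2) else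
    (o.1, o.2.1, o.2.2.1, (o.2.2.2.toList ++ r.2.2.2.toList.map (gmul c q.2)).head?)
def feed (c : Cx) (x : Fm) (r : PO) : Fm :=
  (x.1, x.2.1, x.2.2.1, x.2.2.2.1, (todo x).tail,
    bif x.1 then joinP c ((todo x).headD (0, [])) (acc x) r else nextP c (acc x) r)
def fin (c : Cx) (x : Fm) : PO :=
  bif x.1 then
    (bif tbP c x.2.1 then outC c x.2.1 (acc x).1 (acc x).2.2.2
    else ungP c x.2.1 (sG x.2.2.1) x.2.2.2.1 (acc x))
  else acc x

def clF (c : Cx) (F : Fo) : Fo :=
  (F.take c.2.2.length).map fun r => (mn c r.1, red c r.2.1, red c r.2.2)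
def clP1 (c : Cx) (π : PPt) : PPt :=
  (red c π.1, nrm c π.2.1, nl c π.2.2.1, π.2.2.2.1 % mM c, clF c π.2.2.2.2)
def clS (c : Cx) (s : PS) : PS :=
  ((fm c s, lP c s, a3 c s, muP c s), (red c (sG s), red c (sX s), clF c (sF s)),
    [0, 1, 2].map (fun j => (sP s j).map (clP1 c)), nv c (u3 c) (sT s), nv c (u3 c) (sT' s))
def clO (c : Cx) (o : PO) : PO := (red c o.1, red c o.2.1, clF c o.2.2.1, o.2.2.2.map (nrm c))
def clM (c : Cx) (x : Fm) : Fm :=
  (x.1, clS c x.2.1, clS c x.2.2.1, clF c x.2.2.2.1,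
    ((todo x).take c.2.2.length).map (fun q => (mn c q.1, nrm c q.2)), clO c (acc x))
def stepM (c : Cx) (L : List Fm) : List Fm :=
  L.head?.elim L fun x => (todo x).head?.elim
    (L.tail.head?.elim L fun y => clM c (feed c y (fin c x)) :: L.tail.tail)
    fun q => clM c (init c (call c x q)) :: L
def runM (c : Cx) (s : PS) : List Fm := c.2.2.foldl (fun L _ => stepM c L) [clM c (init c s)]
def rootQ (c : Cx) (G : List V) (y : List V × Fo) (T T' : V) : PS :=
  ((oneP c, l0P c, [mM c - 1, mM c - 1, 0], [mM c, mM c, mM c]), (G, y.1, y.2), [], T, T')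
def rootP (c : Cx) (G : List V) (T T' : V) : PS := rootQ c G (coreP c G G) T T'
/-- the test for isomorphism of two forms -/
def isoP (c : Cx) (T T' : V) : Bool :=
  (runM c (rootP c (genP c (l0P c) (b0P c)) T T')).any fun x => (fin c x).2.2.2.isSome

end Pool.Agent.P.MP_f1a348_lc.UP
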