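import Pool.Agent.P.MP_f1a348_lc.UP.OQDefs

/-!
Project UP: counting tuples.
-/

namespace Pool.Agent.P.MP_f1a348_lc.UP

open Matrix Module Pool.Agent.P.MP_f1a348_lc.PG

set_option linter.unusedSectionVars false

variable {p n : ℕ} [Fact p.Prime] {c : Cx} {l : V} {s : Sd}

theorem length_qsP (c : Cx) (l : V) (s : Sd) (a : V) : (qsP c l s a).length ≤
    pp c ^ (nbP c l (a.getD 0 0) + (csoP c s (rv c (a.getD 2 0)) (a.getD 1 0)).length) := by
  rw [qsP, List.length_flatMap, pow_add]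
  simp only [List.length_map, List.map_const', List.sum_replicate, smul_eq_mul]
  exact Nat.mul_le_mul (length_blkP _ _ _) ((length_allV _ _).trans_eq (by rw [length_unL]))

theorem enum_filter {X : Type} [AddCommGroup X] [Module (ZMod p) X] {δ : Dcd p X} {L : List V}
    {S : Set X} (h : Enum δ L S) (f : V → Bool) (P : X → Prop)
    (hf : ∀ x ∈ L, f x = true ↔ P (dv δ x)) : Enum δ (L.filter f) {y | y ∈ S ∧ P y} := by
  refine ⟨fun y => ⟨fun hy => ?_, ?_⟩, h.nodup.sublist (List.filter_sublist.map _)⟩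
  · obtain ⟨x, hx, rfl⟩ := (h.mem y).1 hy.1
    exact ⟨x, List.mem_filter.2 ⟨hx, (hf x hx).2 hy.2⟩, rfl⟩
  · rintro ⟨x, hx, rfl⟩
    obtain ⟨h1, h2⟩ := List.mem_filter.1 hx
    exact ⟨(h.mem _).2 ⟨x, h1, rfl⟩, (hf x h1).1 h2⟩

end Pool.Agent.P.MP_f1a348_lc.UP
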