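import Pool.Agent.P.MP_f1a348_lc.UP.OQSide
import Pool.Agent.P.MP_f1a348_lc.UP.OQCnt

/-!
Project UP: pins, popular vectors and the remaining canonical subspaces.
-/

namespace Pool.Agent.P.MP_f1a348_lc.UP

open Matrix Module Pool.Agent.P.MP_f1a348_lc.PG

set_option linter.unusedSectionVars false

variable {p n : ℕ} [Fact p.Prime] {c : Cx} {l : V} {s : Sd}

namespace QPopy

theorem len_cso (h : Ok p n c) (hs : Gd p n l s) (a b : Ix n) :
    (csoP c s a.val b.val).length = (Cso (lab n l) (sdD p n s) a b).length := by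
  rw [← h.csoP hs, List.length_map]

end QPopy

open QPopy

protected theorem Ok.qsP (h : Ok p n c) (hs : Gd p n l s) (a : Fin 3 → Ix n) :
    Enum (hh p n) (qsP c l s (tr3 a)) (Qs (lab n l) (sdD p n s) a : Submodule (ZMod p) (HH p n)) := by
  have hb := h.blkP hs.str.lab (a 0)
  have e0 : PG.qsP c l s (tr3 a) = (PG.blkP c l (a 0).val).flatMap fun u =>
      (allV c (unL (PG.csoP c s (a 2).rev.val (a 1).val))).map fun k => u ++ k := by
    rw [← h.rv]; rfl
  have hl : (unL (PG.csoP c s (a 2).rev.val (a 1).val)).length =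
      (Cso (lab n l) (sdD p n s) (a 2).rev (a 1)).length := by rw [length_unL, len_cso h hs]
  have hd := hs.length_cso_le (a 2).rev (a 1)
  rw [e0]
  generalize unL (PG.csoP c s (a 2).rev.val (a 1).val) = w at hl
  refine ⟨fun y => ⟨fun hy => ?_, ?_⟩, ?_⟩
  · obtain ⟨u, hu, e1⟩ := (hb.mem y.1).1 hy.1
    obtain ⟨v, hv⟩ := vec_surj y.2
    obtain ⟨k, hk, e2⟩ := allV_complete h.hp (u := w) (h.pow_le' (by omega)) v
    refine ⟨u ++ k, List.mem_flatMap.2 ⟨u, hu, List.mem_map_of_mem hk⟩, ?_⟩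
    refine (hV_append (h.blkP_norm hu) k).trans (Prod.ext e1 (funext fun α => ?_))
    change tv p k α.val = y.2 α
    by_cases q : α.val < w.length
    · rw [e2 _ q, ← hv]; rfl
    · rw [tv_of_le (by rw [(allV_sound hk).1]; omega), hy.2 α (by omega)]
  · rintro ⟨x, hx, rfl⟩
    obtain ⟨u, hu, hx⟩ := List.mem_flatMap.1 hx
    obtain ⟨k, hk, rfl⟩ := List.mem_map.1 hx
    have e := hV_append (p := p) (h.blkP_norm hu) k
    change hV p n (u ++ k) ∈ _
    rw [e]
    exact ⟨(hb.mem _).2 ⟨u, hu, rfl⟩, fun α hα =>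
      tv_of_le (by rw [(allV_sound hk).1]; omega)⟩
  · rw [List.map_flatMap, List.nodup_flatMap]
    refine ⟨fun u hu => ?_, (List.pairwise_map.1 hb.nodup).imp_of_mem fun {u u'} hu hu' e => ?_⟩
    · rw [List.map_map]
      refine (allV_nodup c w).map_on fun k hk k' hk' e => allV_inj h.hp hk hk' fun i hi => ?_
      have e1 : hV p n (u ++ k) = hV p n (u ++ k') := e
      rw [hV_append (h.blkP_norm hu), hV_append (h.blkP_norm hu)] at e1
      exact congrFun (congrArg Prod.snd e1) ⟨i, by omega⟩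
    · intro y h1 h2
      simp only [List.mem_map] at h1 h2
      obtain ⟨_, ⟨k, -, rfl⟩, e1⟩ := h1
      obtain ⟨_, ⟨k', -, rfl⟩, e2⟩ := h2
      have e3 : hV p n (u ++ k) = hV p n (u' ++ k') := e1.trans e2.symm
      rw [hV_append (h.blkP_norm hu), hV_append (h.blkP_norm hu')] at e3
      exact e (congrArg Prod.fst e3)

protected theorem Ok.lowP (h : Ok p n c) (hs : Gd p n l s) (a : Fin 3 → Ix n) (θ : V) (r : ℕ) :
    Enum (hh p n) (lowP c l s (tr3 a) θ r) (Low (lab n l) (sdD p n s) a (fV p n θ) r) :=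
  enum_filter (h.qsP hs a) _
    (fun q => finrank (ZMod p) (LinearMap.range (hat (lab n l) (sdD p n s) a (fV p n θ) q)) ≤ r)
    fun q _ => by rw [Nat.ble_eq, rk_eq h.hp h.dh, h.rngP hs]

protected theorem Ok.d0P (h : Ok p n c) {K : ℕ} (hK : 2 ≤ K) (q : V) :
    sp (tup p n K) (d0P c q) = D0 (vV p n q) := by
  have e : vV p n (unit c (u1 c) (cz c)) = e0 := by rw [h.cz]; exact h.unit1 (c0 n)
  rw [PG.d0P, sp_cons, sp_nil, sup_bot_eq, tup_t1 hK (by rw [length_axpy, h.len1]), vV,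
    dv_axpy h.hp h.d1, Nat.cast_one, one_smul, D0, ← e]

protected theorem Ok.d4P (h : Ok p n c) (hs : Gd p n l s) {K : ℕ} (hK : 2 ≤ K) (a : Fin 3 → Ix n)
    (θ q : V) : sp (tup p n K) (d4P c l s (tr3 a) θ q) =
      D4 (lab n l) (sdD p n s) a (fV p n θ) (hV p n q) := by
  have e : sp (hh p n) (PG.domP c l ((tr3 a).getD 1 0)) = _ := h.domP l (a 1)
  rw [PG.d4P, sp_map (δ := hh p n) (t2 ∘ₗ (LinearMap.fst _ _ _).prod
      (LinearMap.fst _ _ _ ∘ₗ hat (lab n l) (sdD p n s) a (fV p n θ) (hV p n q))),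
    (preim_bas h.hp h.d1 h.dh (LinearMap.snd _ _ _ ∘ₗ
      hat (lab n l) (sdD p n s) a (fV p n θ) (hV p n q)) _ _).sp, e, sp_nil,
    Submodule.comap_bot, D4]
  · intro y _
    rw [LinearMap.comp_apply, ← h.hatP hs, hV_eq, h.hM]
    rfl
  · intro y _
    rw [tup_t2 hK (by simp [h.len1]; omega), hV_append (by rw [length_nv, h.len1]), vV, vV,
      dv_nv h.hp h.d1, dv_nv h.hp h.d1]
    change _ = t2 ((hV p n y).1,
      (hat (lab n l) (sdD p n s) a (fV p n θ) (hV p n q) (hV p n y)).1)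
    rw [← h.hatP hs, hV_eq, hV_eq]

end Pool.Agent.P.MP_f1a348_lc.UP
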