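import Pool.Agent.P.MP_f1a348_lc.UP.OQSplit

/-!
Project UP: refinement until all blocks are simple.
-/

namespace Pool.Agent.P.MP_f1a348_lc.UP

open Matrix Module Pool.Agent.P.MP_f1a348_lc.PG

set_option linter.unusedSectionVars false

variable {p n : ℕ} [Fact p.Prime] {c : Cx}

namespace QRefy

theorem fst (c : Cx) (u : U) : ∀ z z' : Lt × List Rt, z.1 = z'.1 →
    (u.foldl (fun z _ => split c z) z).1 = (u.foldl (fun z _ => split c z) z').1 := by
  induction u with
  | nil => exact fun _ _ e => e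
  | cons _ u ih =>
    refine fun z z' e => ih _ _ ?_
    simp only [PG.split, e]
    cases findP c z'.1 with
    | none => exact e
    | some q => rfl

theorem fix (c : Cx) (u : U) {z : Lt × List Rt} (e : split c z = z) :
    u.foldl (fun z _ => split c z) z = z := by
  induction u with
  | nil => rfl
  | cons _ u ih => rw [List.foldl_cons, e, ih]

theorem main (h : Ok p n c) (m : PM p n) (T0 T0' : V) (u : U) : ∀ z : Lt × List Rt,
    Lab (lab n z.1.1) → Alg (lab n z.1.1) (alL p n z.1) →
    2 * n + 1 < u.length + nblk (lab n z.1.1) →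
    ∃ g, Stp p n T0 T0' z (u.foldl (fun z _ => split c z) z) g ∧
      Str (lab n (u.foldl (fun z _ => split c z) z).1.1)
        (alL p n (u.foldl (fun z _ => split c z) z).1) := by
  induction u with
  | nil =>
    intro z _ _ hk
    have : nblk (lab n z.1.1) ≤ 2 * n + 1 := (Finset.card_filter_le _ _).trans (by simp)
    simp only [List.length_nil] at hk
    omega
  | cons a u ih =>
    intro z hl hB hk
    obtain ⟨r1, r2, r3, -⟩ := m.ref _ _ hl hB
    rcases h.split m T0 T0' hl hB with ⟨hs, e⟩ | ⟨g, hg, h1, -⟩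
    · rw [fix c _ e]
      exact ⟨1, ⟨r1, (mul_one _).symm, rfl, id⟩, hl, hB, hs⟩
    · obtain ⟨g', hg', hS⟩ := ih _ hg.ref.lab (r2 _ _ _ hg.ref)
        (by rw [List.length_cons] at hk; omega)
      exact ⟨g * g', ⟨r3 _ _ _ _ _ _ hg.ref hg'.ref,
        hg'.mul.trans (by rw [hg.mul, mul_assoc]), hg'.len.trans hg.len,
        fun e => hg'.inv (hg.inv e)⟩, hS⟩

end QRefy

theorem refine_fst (c : Cx) (z : Lt × List Rt) : (refine c z).1 = (refine c (z.1, [])).1 :=
  QRefy.fst c _ _ _ rfl

protected theorem Ok.refine (h : Ok p n c) (m : PM p n) (T0 T0' : V) {z : Lt × List Rt}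
    (hl : Lab (lab n z.1.1)) (hB : Alg (lab n z.1.1) (alL p n z.1)) :
    ∃ g, Stp p n T0 T0' z (refine c z) g ∧
      Str (lab n (refine c z).1.1) (alL p n (refine c z).1) := by
  refine QRefy.main h m T0 T0' _ z hl hB ?_
  rw [h.len1]
  exact Nat.lt_add_of_pos_right (Finset.card_pos.2
    ⟨0, Finset.mem_filter.2 ⟨Finset.mem_univ _, Nat.le_zero.1 (hl.le 0)⟩⟩)

end Pool.Agent.P.MP_f1a348_lc.UP
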