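import Pool.Agent.P.MP_f1a348_lc.UP.EProg
import Pool.Agent.P.MP_f1a348_lc.UP.OQPop
import Pool.Agent.P.MP_f1a348_lc.UP.OQRef

/-!
Project UP: the specifications of the program of the engine.
-/

namespace Pool.Agent.P.MP_f1a348_lc.UP

open Matrix Module Pool.Agent.P.MP_f1a348_lc.PG

/-- scales -/
def muD (μ : V) : Fin 3 → ℕ := fun j => μ.getD j.val 0

/-- the pairs of a list -/
def plD (p n : ℕ) (PL : List (V × V)) : Set (Mat p n × Frm p n) :=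
  {y | ∃ q ∈ PL, y = (mV p n q.1, fV p n q.2)}

/-- a recipe with blocks `a` -/
noncomputable def rzD (p : ℕ) {n : ℕ} (a : Fin 3 → Ix n) (ρ : Rz) : Rq p n :=
  ⟨ρ.1, a, ρ.2.2.1, tv p ρ.2.2.2.1, vV p n ρ.2.2.2.2.1, vV p n ρ.2.2.2.2.2.1, ρ.2.2.2.2.2.2⟩

variable (p n : ℕ) [Fact p.Prime]

theorem sdB_B (c : Cx) (l : V) (B : List V) : (sdD p n (sdB c l B)).B = sp (mat p n) B := rfl

variable {p n} in
protected theorem Ok.sdB {c : Cx} (h : Ok p n c) {l : V} {B : List V}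
    (hB : Str (lab n l) (sp (mat p n) B)) : Gd p n l (sdB c l B) := h.good [] (x := (l, [], B)) hB

variable {p n} in
protected theorem Ok.z0B {c : Cx} (h : Ok p n c) {l : V} {B : List V}
    (hB : Str (lab n l) (sp (mat p n) B)) :
    mV p n (z0B c l B) = z0 (lab n l) (sp (mat p n) B) := h.z0P (h.sdB hB)

variable {p n} in
/-- the refinement that the program computes -/
protected theorem Ok.rf1 {c : Cx} (h : Ok p n c) (m : PM p n) {l : V} {A : List V}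
    (hl : Lab (lab n l)) (hA : Alg (lab n l) (sp (mat p n) A)) :
    Ref (lab n l) (sp (mat p n) A) (lab n (rf1 c l A).1) (mV p n (rf1 c l A).2.1)
      (sp (mat p n) (rf1 c l A).2.2) ∧
    Str (lab n (rf1 c l A).1) (sp (mat p n) (rf1 c l A).2.2) := by
  obtain ⟨g, h1, h2⟩ := h.refine m [] [] (z := ((l, oneP c, A), [])) hl hA
  have e : mV p n (UP.rf1 c l A).2.1 = g := by
    have := h1.mul
    rwa [h.oneP, one_mul] at this
  exact ⟨e ▸ h1.ref, h2⟩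

def S_QPOT : Prop := ∀ (c : Cx) (μ l : V), Ok p n c →
  (∀ s, Gd p n l s → phiSP c μ l s = PhiS (muD μ) (lab n l) (sdD p n s).B) ∧
  ∀ A, Lab (lab n l) → Alg (lab n l) (sp (mat p n) A) →
    potP c μ l A = PhA (muD μ) (lab n l) (sp (mat p n) A)

def S_QFIND : Prop := ∀ (c : Cx) (l : V) (X : List V), Ok p n c → Lab (lab n l) →
  (∀ x ∈ sp (mat p n) X, Dg (lab n l) x) →
  (∀ y, findU c l X = some y → U1 (sp (mat p n) X) (mV p n y)) ∧
  ∀ A, Alg (lab n l) A → Cos A (sp (mat p n) X) → (∃ z, U1 (sp (mat p n) X) z) →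
    (findU c l X).isSome = true

def S_QGEN : Prop := ∀ (c : Cx) (l : V) (A : List V), Ok p n c → Lab (lab n l) →
  Alg (lab n l) (sp (mat p n) A) → (∀ g ∈ genP c l A, U1 (sp (mat p n) A) (mV p n g)) ∧
  ∀ z, U1 (sp (mat p n) A) z → z ∈ Submonoid.closure {x | ∃ g ∈ genP c l A, mV p n g = x}

def S_QE23 : Prop := ∀ (c : Cx) (l : V) (s : Sd) (t : ℕ) (K : Rel p n) (SL : List V),
  Ok p n c → Gd p n l s → KC (lab n l) (sdD p n s).B t K → sp (frm p n) SL = SpK K →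
  (∀ w0, K (z0 (lab n l) (sdD p n s).B) (fV p n w0) →
    sp (tup p n (uK c s).length) (e2P c s w0 SL) = E2 (lab n l) (sdD p n s) K ∧
    sp (tup p n (uK c s).length) (e3P c s w0 SL) = E3 (lab n l) (sdD p n s) K) ∧
  (∀ x ∈ annK c l s t SL, AnnK (lab n l) (sdD p n s) t K (tv p x)) ∧
  (∀ v, AnnK (lab n l) (sdD p n s) t K v →
    ∃ v' ∈ Submodule.span (ZMod p) {y | ∃ x ∈ annK c l s t SL, tv p x = y},
      ∀ x < nc (CL (sdD p n s)), v x = v' x) ∧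
  ∀ PL cs, (∀ z w, K z w ↔ GenK (plD p n PL) z w) →
    (∀ θ, thK c l s t PL cs = some θ → ThK (lab n l) (sdD p n s) t K (tv p cs) (fV p n θ)) ∧
    ((∃ θ, ThK (lab n l) (sdD p n s) t K (tv p cs) θ) → (thK c l s t PL cs).isSome = true)

def S_QE5 : Prop := ∀ (c : Cx) (l : V) (s : Sd) (a : Fin 3 → Ix n) (θ : V) (r k : ℕ),
  Ok p n c → 0 < n → Gd p n l s → fV p n θ ∈ Wt (lab n l) (key (lab n l) a) → 2 ≤ k →
  sp (tup p n k) (e5P c l s (tr3 a) θ r) = E5 (lab n l) (sdD p n s) a (fV p n θ) r ∧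
  sp (tup p n k) (e6P c l s (tr3 a) θ r) = E6 (lab n l) (sdD p n s) a (fV p n θ) r ∧
  sp (tup p n k) (e7P c l s (tr3 a) θ r) = E7 (lab n l) (sdD p n s) a (fV p n θ) r

def S_QXQ : Prop := ∀ (c : Cx) (l : V) (s : Sd) (t : ℕ) (K K' : Rel p n) (SL : List V)
  (a : Fin 3 → Ix n) (ρ : Rz) (w0 w0' θ θ' q q' : V), Ok p n c → 0 < n → Gd p n l s →
  KC (lab n l) (sdD p n s).B t K → KC (lab n l) (sdD p n s).B t K' → sp (frm p n) SL = SpK K →
  sp (frm p n) SL = SpK K' → K (z0 (lab n l) (sdD p n s).B) (fV p n w0) →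
  K' (z0 (lab n l) (sdD p n s).B) (fV p n w0') → ρ.2.1 = tr3 a → ρ.2.2.1 < 6 →
  (rzD p a ρ).t (lab n l) = t → ρ.2.2.2.2.1.length = 2 * n + 1 →
  ρ.2.2.2.2.2.1.length = 2 * n + 1 →
  (4 ≤ ρ.1 → fV p n θ ∈ Wt (lab n l) t ∧ fV p n θ' ∈ Wt (lab n l) t) → 2 ≤ ρ.1 →
  sp (mat p n) (xqP c l s w0 w0' SL ρ θ θ' q q') = Xq (lab n l) (sdD p n s) K K' (rzD p a ρ)
    (fV p n θ) (fV p n θ') (hV p n q) (hV p n q')

def S_QREPS : Prop := ∀ (c : Cx) (l : V) (s : Sd) (t : ℕ) (K : Rel p n) (SL : List V)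
  (a : Fin 3 → Ix n) (ρ : Rz) (w0 θ δ : V), Ok p n c → 0 < n → Gd p n l s →
  KC (lab n l) (sdD p n s).B t K → sp (frm p n) SL = SpK K →
  K (z0 (lab n l) (sdD p n s).B) (fV p n w0) → ρ.2.1 = tr3 a →
  Shp (lab n l) (sdD p n s) t (rzD p a ρ) → ρ.2.2.2.2.1.length = 2 * n + 1 →
  ρ.2.2.2.2.2.1.length = 2 * n + 1 →
  (4 ≤ ρ.1 → ThK (lab n l) (sdD p n s) t K (tv p ρ.2.2.2.1) (fV p n θ)) →
  fV p n δ ∈ Wt (lab n l) t →
  (repsK c l s t w0 SL ρ θ δ).length ≤ p ^ cst (lab n l) (sdD p n s) (rzD p a ρ) ∧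
  (∀ y ∈ repsK c l s t w0 SL ρ θ δ, U1 (sdD p n s).B (mV p n y)) ∧
  ∀ z w, K z w → pull1 z (fV p n δ) + w = 0 → ∃ y ∈ repsK c l s t w0 SL ρ θ δ,
    st (mV p n y) * z ∈ Aq (lab n l) (sdD p n s) K (rzD p a ρ) (fV p n θ)

def S_QENG : Prop := ∀ (c : Cx) (l : V) (B : List V) (a : Fin 3 → Ix n) (μ : V)
  (PL : List (V × V)) (w0 : V) (SL : List V) (δ : V) (K : Rel p n), Ok p n c → 0 < n →
  Str (lab n l) (sp (mat p n) B) → Giant (lab n l) (sp (mat p n) B) →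
  Scl (muD μ) (lab n l) (sp (mat p n) B) →
  KC (lab n l) (sp (mat p n) B) (key (lab n l) a) K → (∀ z w, K z w ↔ GenK (plD p n PL) z w) →
  K (z0 (lab n l) (sp (mat p n) B)) (fV p n w0) → sp (frm p n) SL = SpK K →
  fV p n δ ∈ Wt (lab n l) (key (lab n l) a) →
  (engP c l B (tr3 a) μ PL w0 SL δ = none → ∀ z w, K z w → K 1 w) ∧
  ∀ A Y Y', engP c l B (tr3 a) μ PL w0 SL δ = some (A, Y, Y') →
    EO (lab n l) (sp (mat p n) B) a K (fV p n δ) (sp (mat p n) A) (Y.map (mV p n))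
      (Y'.map (mV p n)) ∧
    p * Y.length * p ^ (200 * PhA (muD μ) (lab n l) (sp (mat p n) A)) ≤
      p ^ (200 * PhiS (muD μ) (lab n l) (sp (mat p n) B)) ∧
    p * Y'.length * p ^ (200 * PhA (muD μ) (lab n l) (sp (mat p n) A)) ≤
      p ^ (200 * PhiS (muD μ) (lab n l) (sp (mat p n) B))

end Pool.Agent.P.MP_f1a348_lc.UP
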