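import Pool.Agent.P.MP_f1a348_lc.UP.Prog
import Pool.Agent.P.MP_f1a348_lc.UP.Iface
import Pool.Agent.P.MP_f1a348_lc.UP.EIf

/-!
Project UP: how the lists of the program are read as groups and states.
-/

namespace Pool.Agent.P.MP_f1a348_lc.UP

open Matrix Module Pool.Agent.P.MP_f1a348_lc.PG

set_option linter.unusedSectionVars false

noncomputable section

open Classical in
/-- the group element of a list -/
def gD (p n : ℕ) (x : V) : GG p n := if h : Par (l0 n) (mV p n x) then ⟨_, h⟩ else 1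

/-- the group of a list of generators -/
def gS (p n : ℕ) (L : List V) : SG p n := Subgroup.closure {g | ∃ x ∈ L, gD p n x = g}

open Classical in
/-- the labels of a list -/
def labD (n : ℕ) (l : V) : Ix n → ℕ := if Lab (lab n l) then lab n l else l0 n

def ixD (n k : ℕ) : Ix n := ⟨k % (2 * n + 1), Nat.mod_lt _ (by omega)⟩

/-- the box with number `i` -/
def bx (n i : ℕ) : Fin 3 → Ix n := fun j =>
  ixD n ([i / (2 * n + 1) / (2 * n + 1), i / (2 * n + 1) % (2 * n + 1), i % (2 * n + 1)].getD j.val 0)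

def foD (p n : ℕ) (F : Fo) : List (Rec (GG p n)) :=
  F.map fun r => (r.1, gS p n r.2.1, gS p n r.2.2)

def ptD (p n : ℕ) (π : PPt) : Ptr p n :=
  ⟨gS p n π.1, sL (gD p n π.2.1) (labD n π.2.2.1) (ixD n π.2.2.2.1),
    sH (gD p n π.2.1) (labD n π.2.2.1) (ixD n π.2.2.2.1), foD p n π.2.2.2.2⟩

def ptrD (p n : ℕ) (L : List (Option PPt)) : Fin 3 → Option (Ptr p n) :=
  fun j => (L.getD j.val none).map (ptD p n)

def stD (p n : ℕ) (s : PS) : St p n :=
  ⟨gD p n s.1.1, labD n s.1.2.1, fun j => ixD n (s.1.2.2.1.getD j.val 0),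
    fun j => min (s.1.2.2.2.getD j.val 0) (2 * n + 1), gS p n (sG s), gS p n (sX s),
    foD p n (sF s), ptrD p n s.2.2.1, fV p n (sT s), fV p n (sT' s)⟩

def outD (p n : ℕ) (o : PO) : Out p n :=
  ⟨gS p n o.1, gS p n o.2.1, foD p n o.2.2.1, o.2.2.2.map (gD p n)⟩

def brcD (p n : ℕ) (b : PB) : Brc p n :=
  ⟨gS p n b.1.1, gS p n b.1.2.1, foD p n b.1.2.2, ptrD p n b.2.1, b.2.2.1.map (gD p n),
    b.2.2.2.map (gD p n)⟩

/-- frames of the machine -/
structure AF (p n : ℕ) where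
  br : Bool
  s : St p n
  k : St p n
  F : List (Rec (GG p n))
  todo : List (ℕ × GG p n)
  acc : Out p n

def fmD (p n : ℕ) (x : Fm) : AF p n :=
  ⟨x.1, stD p n x.2.1, stD p n x.2.2.1, foD p n x.2.2.2.1,
    (todo x).map fun q => (q.1, gD p n q.2), outD p n (acc x)⟩

variable {p n : ℕ}

/-- `t` decides `P` on `G` -/
def Tst (t : V → Bool) (G : SG p n) (P : GG p n → Prop) : Prop :=
  ∀ x g, g ∈ G → mV p n x = g.1 → (t x = true ↔ P g)

/-- `ρ` computes the homomorphism `σ` on `D` -/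
structure Hom (ρ : V → V) (D : SG p n) (σ : GG p n → Mat p n) : Prop where
  val : ∀ x g, g ∈ D → mV p n x = g.1 → mV p n (ρ x) = σ g
  one : σ 1 = 1
  mul : ∀ g ∈ D, ∀ h ∈ D, σ (g * h) = σ g * σ h

/-- a chain of tests with small indices -/
def Chn (t : ℕ → V → Bool) (Q : ℕ → SG p n) (B : ℕ) : SG p n → List ℕ → Prop
  | _, [] => True
  | G, i :: I => Tst (t i) G (· ∈ Q i) ∧ (Q i).relIndex G ≤ B ∧ Chn t Q B (G ⊓ Q i) I

/-- the list is the matrix of a group element -/
def Vd (p n : ℕ) (x : V) : Prop := mV p n x = (gD p n x).1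

end

variable {p n : ℕ} [Fact p.Prime] {c : Cx}

/-! ### elements -/

theorem gD_of {x : V} {g : GG p n} (h : mV p n x = g.1) : gD p n x = g := by
  have h1 : Par (l0 n) (mV p n x) := h ▸ g.2
  rw [gD, dif_pos h1]; exact Subtype.ext h

theorem vd_of {x : V} {g : GG p n} (h : mV p n x = g.1) : Vd p n x := by rw [Vd, gD_of h, h]

theorem vd_par {x : V} (h : Par (l0 n) (mV p n x)) : Vd p n x := vd_of (g := ⟨_, h⟩) rfl

protected theorem Ok.parP (h : Ok p n c) (x : V) : parP c x = true ↔ Par (l0 n) (mV p n x) := by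
  have h1 : 1 < p := (Fact.out : p.Prime).one_lt
  rw [UP.parP, Bool.and_eq_true, Bool.and_eq_true, h.meq, h.meq, h.grP, h.l0P, h.mmul, h.mstar,
    h.oneP, beq_iff_eq, Par, Un, and_assoc, h.cz, h.hp]
  refine and_congr ⟨fun e => Dg.tri lab_l0 (e ▸ dg_gr _), fun e => e.dg_l0.gr_eq⟩
    (and_congr Iff.rfl ?_)
  have := h.mV_apply x (c0 n) (c0 n)
  rw [this, ← Nat.cast_one (R := ZMod p), ZMod.natCast_eq_natCast_iff', Nat.mod_eq_of_lt h1]
  rfl

protected theorem Ok.nv2 (h : Ok p n c) (x : V) : mV p n (nv c (u2 c) x) = mV p n x :=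
  dv_nv h.hp h.d2 x

protected theorem Ok.nv3 (h : Ok p n c) (x : V) : fV p n (nv c (u3 c) x) = fV p n x :=
  dv_nv h.hp h.d3 x

protected theorem Ok.nrm (h : Ok p n c) (x : V) : mV p n (nrm c x) = (gD p n x).1 := by
  rw [UP.nrm, gD]
  by_cases e : Par (l0 n) (mV p n x)
  · rw [dif_pos e, (h.parP x).2 e, cond_true, h.nv2]
  · rw [dif_neg e, Bool.eq_false_iff.2 (mt (h.parP x).1 e), cond_false, h.oneP]; rfl

protected theorem Ok.gmul (h : Ok p n c) (x y : V) :
    mV p n (gmul c x y) = (gD p n x * gD p n y).1 := by rw [UP.gmul, h.mmul, h.nrm, h.nrm]; rfl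

protected theorem Ok.ginv (h : Ok p n c) (x : V) : mV p n (ginv c x) = (gD p n x)⁻¹.1 := by
  rw [UP.ginv, h.mstar, h.nrm]; rfl

theorem Ok.gD_nrm (h : Ok p n c) (x : V) : gD p n (nrm c x) = gD p n x := gD_of (h.nrm x)

theorem Ok.gD_one (h : Ok p n c) : gD p n (oneP c) = 1 := gD_of h.oneP

theorem Ok.gD_mul (h : Ok p n c) (x y : V) : gD p n (gmul c x y) = gD p n x * gD p n y :=
  gD_of (h.gmul x y)

theorem Ok.gD_inv (h : Ok p n c) (x : V) : gD p n (ginv c x) = (gD p n x)⁻¹ := gD_of (h.ginv x)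

protected theorem Ok.gdiv (h : Ok p n c) (x y : V) :
    mV p n (gdiv c x y) = ((gD p n x)⁻¹ * gD p n y).1 := by rw [UP.gdiv, h.gmul, h.gD_inv]

theorem Ok.gD_div (h : Ok p n c) (x y : V) : gD p n (gdiv c x y) = (gD p n x)⁻¹ * gD p n y :=
  gD_of (h.gdiv x y)

protected theorem Ok.gcj (h : Ok p n c) (x y : V) :
    mV p n (gcj c x y) = (gD p n x * gD p n y * (gD p n x)⁻¹).1 := by
  rw [UP.gcj, h.gmul, h.gD_mul, h.gD_inv]

theorem Ok.gD_cj (h : Ok p n c) (x y : V) :
    gD p n (gcj c x y) = gD p n x * gD p n y * (gD p n x)⁻¹ := gD_of (h.gcj x y)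

protected theorem Ok.gcom (h : Ok p n c) (x y : V) :
    mV p n (gcom c x y) = (gD p n x * gD p n y * (gD p n x)⁻¹ * (gD p n y)⁻¹).1 := by
  rw [UP.gcom, h.gmul, h.gD_cj, h.gD_inv]

theorem Ok.gD_com (h : Ok p n c) (x y : V) :
    gD p n (gcom c x y) = gD p n x * gD p n y * (gD p n x)⁻¹ * (gD p n y)⁻¹ := gD_of (h.gcom x y)

theorem val_pow (g : GG p n) (k : ℕ) : (g ^ k).1 = g.1 ^ k := by
  induction k with
  | zero => rw [pow_zero, pow_zero]; rfl
  | succ k ih => rw [pow_succ, pow_succ, val_mul, ih]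

theorem gD_nil : gD p n [] = 1 := by
  rw [gD, dif_neg]
  intro e
  have := e.2.2
  rw [mV, dv_nil] at this
  exact zero_ne_one this

theorem mem_chk {β : Type} {b : Bool} {x y : β} : y ∈ chk b x ↔ b = true ∧ y = x := by
  cases b <;> simp [chk]

theorem chk_eq_nil {β : Type} {b : Bool} {x : β} : chk b x = [] ↔ b = false := by
  cases b <;> simp [chk]

theorem mn_eq {k : ℕ} (h : k ≤ c.2.2.length) : mn c k = k := min_eq_left h

protected theorem Ok.le_pad (h : Ok p n c) {k : ℕ} (hk : k ≤ bud2 n) : k ≤ c.2.2.length :=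
  (Nat.lt_pow_self (Fact.out : p.Prime).one_lt).le.trans (h.pow_le hk)

protected theorem Ok.pwN (h : Ok p n c) {k : ℕ} (hk : k ≤ bud2 n) : pwN c k = p ^ k := by
  rw [UP.pwN, mn_eq (h.le_pad hk), h.hp]

protected theorem Ok.lenR (h : Ok p n c) : (uR c).length = (2 * n + 1) * (2 * n + 1) * p := by
  rw [uR, length_mulU, h.len2, ← h.hp]; rfl

/-! ### groups -/

theorem mem_gS {L : List V} {x : V} (h : x ∈ L) : gD p n x ∈ gS p n L :=
  Subgroup.subset_closure ⟨x, h, rfl⟩

theorem gS_le {L : List V} {Z : SG p n} : gS p n L ≤ Z ↔ ∀ x ∈ L, gD p n x ∈ Z := by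
  rw [gS, Subgroup.closure_le]
  exact ⟨fun h x hx => h ⟨x, hx, rfl⟩, fun h _ ⟨x, hx, e⟩ => e ▸ h x hx⟩

theorem gS_nil : gS p n [] = ⊥ := le_bot_iff.1 (gS_le.2 (by simp))

theorem gS_append (L L' : List V) : gS p n (L ++ L') = gS p n L ⊔ gS p n L' :=
  le_antisymm (gS_le.2 fun _ hx => (List.mem_append.1 hx).elim
    (fun e => Subgroup.mem_sup_left (mem_gS e)) fun e => Subgroup.mem_sup_right (mem_gS e))
    (sup_le (gS_le.2 fun _ hx => mem_gS (List.mem_append_left _ hx))
      (gS_le.2 fun _ hx => mem_gS (List.mem_append_right _ hx)))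

theorem gS_eq_gen (L : List V) : gS p n L = GI.gen (L.map (gD p n)) := by
  rw [gS, GI.gen]; congr 1; ext g; simp

theorem Tst.mono {t : V → Bool} {G G' : SG p n} {P : GG p n → Prop} (h : Tst t G P)
    (e : G' ≤ G) : Tst t G' P := fun x g hg => h x g (e hg)

theorem Tst.congr {t : V → Bool} {G : SG p n} {P P' : GG p n → Prop} (h : Tst t G P)
    (e : ∀ g ∈ G, P g ↔ P' g) : Tst t G P' := fun x g hg hx => (h x g hg hx).trans (e g hg)

theorem Hom.mono {ρ : V → V} {D D' : SG p n} {σ : GG p n → Mat p n} (h : Hom ρ D σ)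
    (e : D' ≤ D) : Hom ρ D' σ :=
  ⟨fun x g hg => h.val x g (e hg), h.one, fun g hg k hk => h.mul g (e hg) k (e hk)⟩

theorem Ok.hom_id (h : Ok p n c) : Hom (nv c (u2 c)) (⊤ : SG p n) fun g => g.1 :=
  ⟨fun x _ _ e => (h.nv2 x).trans e, rfl, fun _ _ _ _ => rfl⟩

theorem chn_of {t : ℕ → V → Bool} {Q : ℕ → SG p n} {B : ℕ} {I : List ℕ} : ∀ {G : SG p n},
    (∀ i ∈ I, Tst (t i) G (· ∈ Q i) ∧ (Q i).relIndex G ≤ B) → Chn t Q B G I := by
  induction I with
  | nil => exact fun _ => trivial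
  | cons i I ih =>
    intro G h
    refine ⟨(h i (by simp)).1, (h i (by simp)).2, ih fun k hk => ?_⟩
    obtain ⟨h1, h2⟩ := h k (List.mem_cons_of_mem _ hk)
    exact ⟨h1.mono inf_le_left, (Subgroup.relIndex_le_of_le_right inf_le_left
      Subgroup.index_ne_zero_of_finite).trans h2⟩

/-! ### labels -/

theorem lab_labD (l : V) : Lab (labD n l) := by
  rw [labD]; split_ifs with e
  exacts [e, lab_l0]

theorem labD_of {l : V} (h : Lab (lab n l)) : labD n l = lab n l := if_pos h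

protected theorem Ok.labP (h : Ok p n c) (l : V) : labP c l = true ↔ Lab (lab n l) := by
  have e : ∀ a : Ix n, l.getD a.val 0 = lab n l a := fun _ => rfl
  have e0 : cz c = (c0 n).val := h.cz
  simp only [UP.labP, QSidey.all1 h, Bool.and_eq_true, Bool.or_eq_true, Nat.ble_eq, Nat.blt_eq,
    h.rv, e, e0, Bool.not_eq_true', ← Bool.not_eq_true, same_iff, beq_iff_eq]
  constructor
  · intro k
    refine ⟨fun a b hab => ((k a).2 b).1.1.resolve_left (not_lt.2 hab), fun a b hab =>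
      ((k a).2 b).1.2.resolve_left (not_lt.2 hab), fun a ha => Fin.ext ((k a).1.2.resolve_left
      (not_not.2 ha)), fun a => (k a).1.1, fun a b hab => ((k a).2 b).2.resolve_left (not_lt.2 hab)⟩
  · intro k a
    refine ⟨⟨k.le a, ?_⟩, fun b => ⟨⟨?_, ?_⟩, ?_⟩⟩
    · exact (em _).symm.imp id fun e => congrArg Fin.val (k.ctr a e)
    · exact (lt_or_ge b.val a.val).imp id fun e => k.mono e
    · exact (lt_or_ge _ _).imp id (k.sym a b)
    · exact (lt_or_ge _ _).imp id (k.can a b)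

protected theorem Ok.nl (h : Ok p n c) (l : V) : lab n (nl c l) = labD n l := by
  rw [UP.nl, labD]
  by_cases e : Lab (lab n l)
  · rw [if_pos e, (h.labP l).2 e, cond_true]
    funext β
    rw [lab_map_y h, h.hM]
    exact Nat.mod_eq_of_lt (e.lt β)
  · rw [if_neg e, Bool.eq_false_iff.2 (mt (h.labP l).1 e), cond_false, h.l0P]

theorem Ok.labD_nl (h : Ok p n c) (l : V) : labD n (nl c l) = labD n l := by
  rw [labD_of (h.nl l ▸ lab_labD l), h.nl]

theorem ixD_val (α : Ix n) : ixD n α.val = α := Fin.ext (Nat.mod_eq_of_lt α.2)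

theorem Ok.mod_ix (h : Ok p n c) (k : ℕ) : k % mM c = (ixD n k).val := by rw [h.hM]; rfl

theorem bx_enc (k : Fin 3 → Ix n) : bx n (enc3 k) = k := by
  funext j
  rw [bx, enc3, div_enc, div_enc, mod_enc, mod_enc]
  fin_cases j <;> exact ixD_val _

protected theorem Ok.frP (h : Ok p n c) {f : V} {F : GG p n} (e : mV p n f = F.1) (x : V) :
    mV p n (frP c f x) = fr F (mV p n x) := by
  rw [UP.frP, h.mmul, h.mmul, h.mstar, e, fr, cj_apply, st_st]

protected theorem Ok.cjP (h : Ok p n c) (g y : V) :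
    mV p n (cjP c g y) = cj (mV p n g) (mV p n y) := by
  rw [UP.cjP, h.mmul, h.mmul, h.mstar, cj_apply]

protected theorem Ok.locP (h : Ok p n c) {f e : V} {F : GG p n} {S : Set (Ix n)}
    (hf : mV p n f = F.1) (he : mV p n e = eS S) (l x : V) :
    mV p n (locP c f l e x) = loc F (lab n l) S (mV p n x) := by
  have e0 : cz c = (c0 n).val := h.cz
  have e1 : ∀ a b : V, mV p n (vsub c (u2 c) a b) = mV p n a - mV p n b := dv_vsub h.hp h.d2
  have e2 : ∀ (k : ℕ) (a b : V), mV p n (axpy c (u2 c) k a b) =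
      (k : ZMod p) • mV p n a + mV p n b := dv_axpy h.hp h.d2
  rw [UP.locP, lcP, e2, e1, e0, ← h.mV_apply, h.mmul, h.mmul, h.grP, h.oneP, he, h.frP hf, add_comm]
  rfl

theorem eS_blk (ℓ : Ix n → ℕ) (α : Ix n) : (eS {β | ℓ β = ℓ α} : Mat p n) = pr ℓ α := by
  rw [eS, pr]; congr 1; funext β; simp

/-! ### states -/

protected theorem Ok.fm (h : Ok p n c) (s : PS) : mV p n (fm c s) = (stD p n s).f.1 := h.nrm _

protected theorem Ok.lP (h : Ok p n c) (s : PS) : lab n (lP c s) = (stD p n s).ℓ := h.nl _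

theorem stD_lab (s : PS) : Lab (stD p n s).ℓ := lab_labD _

protected theorem Ok.aj (h : Ok p n c) (s : PS) (j : Fin 3) :
    aj c s j.val = ((stD p n s).a j).val := h.mod_ix _

protected theorem Ok.a3 (h : Ok p n c) (s : PS) : a3 c s = tr3 (stD p n s).a := by
  rw [tr3, ← h.aj, ← h.aj, ← h.aj]; rfl

protected theorem Ok.muP (h : Ok p n c) (s : PS) : muD (muP c s) = (stD p n s).μ := by
  funext j
  rw [muD, UP.muP, h.hM]
  fin_cases j <;> rfl

theorem mem3 {j : ℕ} : j ∈ [0, 1, 2] ↔ ∃ i : Fin 3, i.val = j := by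
  simp only [List.mem_cons, List.not_mem_nil, or_false, Fin.exists_fin_succ, Fin.exists_fin_zero]
  simp [eq_comm]

theorem any3 (f : ℕ → Bool) : [0, 1, 2].any f = true ↔ ∃ j : Fin 3, f j.val = true := by
  simp only [List.any_eq_true, mem3]
  exact ⟨fun ⟨_, ⟨j, e⟩, h⟩ => ⟨j, e ▸ h⟩, fun ⟨j, h⟩ => ⟨_, ⟨j, rfl⟩, h⟩⟩

theorem all3 (f : ℕ → Bool) : [0, 1, 2].all f = true ↔ ∀ j : Fin 3, f j.val = true := by
  simp only [List.all_eq_true, mem3]
  exact ⟨fun h j => h _ ⟨j, rfl⟩, fun h _ ⟨j, e⟩ => e ▸ h j⟩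

theorem getD3 {β : Type} (f : ℕ → β) (d : β) (j : Fin 3) :
    ([0, 1, 2].map f).getD j.val d = f j.val := by fin_cases j <;> rfl

protected theorem Ok.inL (h : Ok p n c) (s : PS) (β : Ix n) :
    inL c s β.val = true ↔ β ∈ (stD p n s).lam := by
  rw [UP.inL, any3]
  simp only [Bool.or_eq_true, h.aj, h.rv, same_iff, h.lP]
  rfl

protected theorem Ok.llP (h : Ok p n c) (s : PS) : lab n (llP c s) = (stD p n s).ll := by
  funext β
  rw [UP.llP, lab_map_y h, St.ll, lS]
  by_cases e : β ∈ (stD p n s).lam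
  · rw [if_pos e, (h.inL s β).2 e, cond_true, ← h.lP]; rfl
  · rw [if_neg e, Bool.eq_false_iff.2 (mt (h.inL s β).1 e), cond_false]

protected theorem Ok.loP (h : Ok p n c) (s : PS) (x : V) :
    mV p n (loP c s x) = (stD p n s).lo (mV p n x) := by
  rw [UP.loP, h.locP (h.fm s) (S := (stD p n s).lam), h.lP, St.lo]
  rw [h.diagP, eS]
  refine congrArg _ (funext fun β => ?_)
  by_cases e : β ∈ (stD p n s).lam
  · rw [if_pos e, if_pos ((h.inL s β).2 e)]
  · rw [if_neg e, if_neg (mt (h.inL s β).1 e)]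

protected theorem Ok.dlP (h : Ok p n c) (s : PS) (w : V) :
    fV p n (dlP c s w) = (stD p n s).dl (fV p n w) := by
  have e : (fun j => (stD p n s).a (pm 0 j)) = (stD p n s).a := by
    funext j; fin_cases j <;> rfl
  rw [UP.dlP, h.cmpP, h.pull1P, h.a3, h.tP, h.lP, h.fm, e, fV, dv_vsub h.hp h.d3]
  rfl

protected theorem Ok.kpP (h : Ok p n c) (s : PS) (w g : V) :
    fV p n (kpP c s w g) = (stD p n s).dl (pull1 (mV p n g) (fV p n w)) := by
  rw [UP.kpP, h.dlP, h.pull1P]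

protected theorem Ok.kp (h : Ok p n c) (s : PS) {x : V} {g : GG p n} (e : mV p n x = g.1) :
    fV p n (kpP c s (sT s) x) = (stD p n s).kp g ∧
      fV p n (kpP c s (sT' s) x) = (stD p n s).kp' g := by
  rw [h.kpP, h.kpP, e]; exact ⟨rfl, rfl⟩

protected theorem Ok.ptP (h : Ok p n c) (s : PS) (j : Fin 3) :
    ptD p n (ptP c s j.val) = (stD p n s).pt j := by
  rw [UP.ptP, St.pt]
  show _ = (Option.map (ptD p n) (sP s j.val)).getD _
  cases sP s j.val with
  | some π => rfl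
  | none =>
    rw [Option.getD_none, Option.map_none, Option.getD_none, ptD, UP.fm, h.gD_nrm, UP.lP, h.labD_nl,
      h.aj, ixD_val]
    rfl

protected theorem Ok.secP (h : Ok p n c) (π : PPt) (x : V) :
    mV p n (secP c π x) = loc (gD p n π.2.1) (labD n π.2.2.1)
      {β | labD n π.2.2.1 β = labD n π.2.2.1 (ixD n π.2.2.2.1)} (mV p n x) := by
  rw [UP.secP, h.locP (h.nrm _), h.nl]
  rw [h.mod_ix, h.prP, h.nl, eS_blk]

/-! ### forests -/

theorem foD_nil : foD p n [] = [] := rfl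

theorem foD_append (F F' : Fo) : foD p n (F ++ F') = foD p n F ++ foD p n F' := List.map_append

theorem foD_up (F : Fo) : foD p n (up F) = up (foD p n F) := by
  simp only [foD, up, List.map_map]; rfl

theorem length_foD (F : Fo) : (foD p n F).length = F.length := List.length_map _

theorem tops_map {α β : Type} (f : α → β) (F : List (ℕ × α)) :
    tops (F.map fun r => (r.1, f r.2)) =
      (tops F).map fun r => (f r.1, r.2.map fun r => (r.1, f r.2)) := by
  simp only [tops, List.zipIdx_map, List.filter_map, List.map_map, dn]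
  refine List.map_congr_left fun r _ => ?_
  simp only [Function.comp, Prod.map, id, ← List.map_drop, List.takeWhile_map, List.map_map]
  rfl

theorem tops_foD (F : Fo) : tops (foD p n F) =
    (tops F).map fun r => ((gS p n r.1.1, gS p n r.1.2), foD p n r.2) :=
  tops_map (fun r : List V × List V => (gS p n r.1, gS p n r.2)) F

theorem length_of_tops {α : Type} {F : List (ℕ × α)} {r : α × List (ℕ × α)} (h : r ∈ tops F) :
    r.2.length ≤ F.length := by
  obtain ⟨q, -, rfl⟩ := List.mem_map.1 h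
  rw [dn, List.length_map]
  exact ((List.takeWhile_sublist _).trans (List.drop_sublist _ _)).length_le

end Pool.Agent.P.MP_f1a348_lc.UP
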