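import Pool.Agent.P.MP_f1a348_lc.UP.EDefs

/-!
Project UP: basic facts on unitary elements and relations.
-/

namespace Pool.Agent.P.MP_f1a348_lc.UP

open Matrix Module Pool.Agent.P.MP_f1a348_lc.PG

set_option linter.unusedSectionVars false

variable {p n : ℕ} [Fact p.Prime] {ℓ : Ix n → ℕ} {B : Sub p n} {t : ℕ} {K : Rel p n}

theorem U1.lev (hl : Lab ℓ) (h : Alg ℓ B) {z : Mat p n} (hz : U1 B z) : Lev ℓ z :=
  ⟨hl, ⟨(h.dg z hz.1).tri hl, hz.2.1, hz.2.2⟩, h.dg z hz.1⟩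

theorem u1_one (h : Alg ℓ B) : U1 B 1 := ⟨h.one, Par.one (ℓ := ℓ).2.1, by simp⟩

theorem U1.mul (hl : Lab ℓ) (h : Alg ℓ B) {y z : Mat p n} (hy : U1 B y) (hz : U1 B z) :
    U1 B (y * z) :=
  ⟨h.mul _ hy.1 _ hz.1, ((hy.lev hl h).par.mul (hz.lev hl h).par).2⟩

theorem U1.star (hl : Lab ℓ) (h : Alg ℓ B) {z : Mat p n} (hz : U1 B z) : U1 B (st z) :=
  ⟨h.star _ hz.1, (hz.lev hl h).star.par.2⟩

theorem U1.mono {B' : Sub p n} (e : B ≤ B') {z : Mat p n} (hz : U1 B z) : U1 B' z :=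
  ⟨e hz.1, hz.2⟩

theorem grp_u1 (hl : Lab ℓ) (h : Alg ℓ B) : Grp {z | U1 B z} :=
  ⟨u1_one h, fun _ ha _ hb => U1.mul hl h ha hb, fun _ ha => ha.2.1, fun _ ha => U1.star hl h ha⟩

theorem u1_of_lo (h : Str ℓ B) {z : Mat p n} (hz : z ∈ Lo B) : U1 B z :=
  ⟨(lo_spec h hz).1, (lo_spec h hz).2.2⟩

theorem u1_z0 (hp : 5 ≤ p) (h : Str ℓ B) : U1 B (z0 ℓ B) := u1_of_lo h (test_z0.lo hp h).1

theorem U1.triv (h : Str ℓ B) {z : Mat p n} (hz : U1 B z) {a : Ix n} (t : Triv ℓ B a)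
    {x : Vec p n} (hx : x ∈ Vb ℓ a) : z *ᵥ x = x := by
  rw [triv_act h t hx hz.1, hz.2.2, one_smul]

theorem Giant.big (h : Str ℓ B) (hg : Giant ℓ B) : Big ℓ B 200 := fun a t => by
  have h1 := hg a t
  have h2 := nb_le ℓ a
  have h3 := eb_pos h.alg a
  rw [db, Nat.le_div_iff_mul_le h3]
  by_contra hc
  have h4 : nb ℓ a * nb ℓ a ≤ 200 * eb ℓ B a * (2 * n + 1) := Nat.mul_le_mul (by omega) h2
  rw [gam, pow_two] at h1
  nlinarith

theorem pull1_st_pull1 {z : Mat p n} (hz : Un z) (w : Frm p n) : pull1 (st z) (pull1 z w) = w := by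
  rw [← pull1_mul, hz.mul_st, pull1_one]

theorem pull1_pull1_st {z : Mat p n} (hz : Un z) (w : Frm p n) : pull1 z (pull1 (st z) w) = w := by
  rw [← pull1_mul, hz.st_mul, pull1_one]

theorem KC.mem_sp (h : KC ℓ B t K) {w : Frm p n} : w ∈ SpK K ↔ K 1 w := by
  have ha : ∀ u v, K 1 u → K 1 v → K 1 (u + v) := fun u v a b => by
    simpa [pull1_one] using h.mul _ _ _ _ a b
  refine ⟨fun hw => ?_, fun hw => Submodule.subset_span hw⟩
  induction hw using Submodule.span_induction with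
  | mem x hx => exact hx
  | zero => exact h.one
  | add x y _ _ a b => exact ha _ _ a b
  | smul c x _ a =>
    rw [← ZMod.natCast_zmod_val c, Nat.cast_smul_eq_nsmul]
    induction c.val with
    | zero => simpa using h.one
    | succ k ih => rw [succ_nsmul]; exact ha _ _ ih a

theorem KC.sp_le (h : KC ℓ B t K) : SpK K ≤ Wt ℓ t := fun _ hw => (h.mem _ _ (h.mem_sp.1 hw)).2

theorem KC.adjust (h : KC ℓ B t K) {z : Mat p n} {w v : Frm p n} (hw : K z w) (hv : v ∈ SpK K) :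
    K z (w + v) := by
  simpa [pull1_one] using h.mul _ _ _ _ hw (h.mem_sp.1 hv)

theorem KC.sub_mem (h : KC ℓ B t K) {z : Mat p n} {w v : Frm p n} (hw : K z w) (hv : K z v) :
    v - w ∈ SpK K := by
  have hu := (h.mem _ _ hw).1.2.1
  have := h.mul _ _ _ _ (h.star _ _ hw) hv
  rw [hu.st_mul, map_neg, pull1_pull1_st hu, neg_add_eq_sub] at this
  exact h.mem_sp.2 this

theorem KC.iff (h : KC ℓ B t K) {z : Mat p n} {w v : Frm p n} (hw : K z w) :
    K z v ↔ v - w ∈ SpK K :=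
  ⟨h.sub_mem hw, fun e => by simpa using h.adjust hw e⟩

theorem KC.pull_sp (h : KC ℓ B t K) {z : Mat p n} (hz : U1 B z) {v : Frm p n} (hv : v ∈ SpK K) :
    pull1 z v ∈ SpK K := by
  obtain ⟨w, hw⟩ := h.onto z hz
  have := h.sub_mem hw (by simpa using h.mul _ _ _ _ (h.mem_sp.1 hv) hw)
  simpa using this

theorem sft_zero (K : Rel p n) : sft K 0 = K := by
  funext z w; simp [sft]

theorem spK_sft (K : Rel p n) (δ : Frm p n) : SpK (sft K δ) = SpK K := by
  simp [SpK, sft, pull1_one]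

theorem KC.sft (hl : Lab ℓ) (hB : Alg ℓ B) (h : KC ℓ B t K) {δ : Frm p n} (hδ : δ ∈ Wt ℓ t) :
    KC ℓ B t (sft K δ) where
  mem z w hw := by
    obtain ⟨h1, h2⟩ := h.mem _ _ hw
    refine ⟨h1, ?_⟩
    have := Submodule.sub_mem _ (add_mem h2 (pull1_mem_Wt hl (hB.dg z h1.1) hδ)) hδ
    convert this using 1; abel
  one := by simpa [UP.sft, pull1_one] using h.one
  mul z w y v a b := by
    have := h.mul _ _ _ _ a b
    unfold UP.sft
    convert this using 1
    rw [pull1_mul, map_add, map_sub]; abel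
  star z w a := by
    have := h.star _ _ a
    unfold UP.sft
    convert this using 1
    rw [map_add, map_sub, pull1_st_pull1 (h.mem _ _ a).1.2.1]; abel
  onto z hz := by
    obtain ⟨w, hw⟩ := h.onto z hz
    refine ⟨w + pull1 z δ - δ, ?_⟩
    unfold UP.sft
    convert hw using 1; abel

/-- conjugation by a solution -/
theorem KC.conj (h : KC ℓ B t K) {δ w : Frm p n} {y : Mat p n} (hy : K y w)
    (e : pull1 y δ + w = 0) {z : Mat p n} {v : Frm p n} :
    UP.sft K δ z v ↔ K (st y * z * y) (pull1 y v) := by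
  have hu := (h.mem _ _ hy).1.2.1
  have e1 : w = -pull1 y δ := (neg_eq_of_add_eq_zero_right e).symm
  have h1 := h.star _ _ hy
  rw [e1, map_neg, neg_neg, pull1_st_pull1 hu] at h1
  constructor
  · intro a
    have := h.mul _ _ _ _ (h.mul _ _ _ _ h1 a) hy
    convert this using 1
    rw [e1, map_add, map_add, map_sub]; abel
  · intro a
    have := h.mul _ _ _ _ (h.mul _ _ _ _ hy a) h1
    rw [← mul_assoc, ← mul_assoc, hu.mul_st, one_mul, mul_assoc, hu.mul_st, mul_one] at this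
    unfold UP.sft
    convert this using 1
    rw [e1, map_add, pull1_st_pull1 hu, map_neg, map_neg, ← pull1_mul, ← pull1_mul, ← mul_assoc,
      ← mul_assoc, ← mul_assoc, hu.mul_st, one_mul, mul_assoc, hu.mul_st, mul_one]
    abel

theorem PPs.sub {Y : Set (Mat p n)} (h : PPs Y) {X : Type} [AddCommGroup X] [Module (ZMod p) X]
    (P : Submodule (ZMod p) X) (f : Mat p n → X)
    (hf : ∀ a ∈ Y, ∀ b ∈ Y, f (a * b) - (f a + f b) ∈ P) {a : Mat p n} (ha : a ∈ Y) : f a ∈ P := by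
  by_contra hc
  obtain ⟨φ, h1, h2⟩ := P.exists_dual_map_eq_bot_of_notMem hc inferInstance
  have h3 : ∀ x ∈ P, φ x = 0 := fun x hx => by
    have : φ x ∈ P.map φ := ⟨x, hx, rfl⟩
    rwa [h2, Submodule.mem_bot] at this
  refine h1 (h (fun z => φ (f z)) (fun a ha b hb => ?_) a ha)
  have := h3 _ (hf a ha b hb)
  rwa [map_sub, map_add, sub_eq_zero] at this

/-- a cocycle with trivial action on `Q / P` vanishes -/
theorem KC.hom_arg (h : KC ℓ B t K) (hl : Lab ℓ) (hB : Alg ℓ B) (hW : PPs {z | U1 B z})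
    {P Q : Submodule (ZMod p) (Frm p n)} (hP : SpK K ≤ P) (hQ : ∀ z w, K z w → w ∈ Q)
    (ha : ∀ z, U1 B z → ∀ w ∈ Q, pull1 z w - w ∈ P) {z : Mat p n} {w : Frm p n} (hw : K z w) :
    w ∈ P := by
  have := h.onto
  choose! f hf using this
  have hz := (h.mem _ _ hw).1
  have h1 : f z ∈ P := hW.sub P f (fun a a1 b b1 => by
    have h2 := hP (h.sub_mem (h.mul _ _ _ _ (hf a a1) (hf b b1)) (hf _ (U1.mul hl hB a1 b1)))
    have h3 := add_mem h2 (ha b b1 _ (hQ _ _ (hf a a1)))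
    convert h3 using 1; abel) hz
  simpa using add_mem (hP (h.sub_mem (hf z hz) hw)) h1

/-- the argument with the central reflection -/
theorem KC.odd_arg (h : KC ℓ B t K) (hB : Alg ℓ B)
    (ho : ∀ w ∈ Wt ℓ t, pull1 (z0 ℓ B) w = -w) {z : Mat p n} {w w0 : Frm p n} (hw : K z w)
    (h0 : K (z0 ℓ B) w0) : (2 : ZMod p) • w - (w0 - pull1 z w0) ∈ SpK K := by
  have h1 := h.sub_mem (h.mul _ _ _ _ hw h0)
    (com_z0 hB z (h.mem _ _ hw).1.1 ▸ h.mul _ _ _ _ h0 hw)
  rw [ho _ (h.mem _ _ hw).2] at h1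
  convert h1 using 1
  rw [two_smul]; abel

theorem KC.mem_sh (h : KC ℓ B t K) {w0 : Frm p n} (h0 : K (z0 ℓ B) w0) {y : ZMod p × Frm p n} :
    y ∈ ShK ℓ B K ↔ y.2 - y.1 • w0 ∈ SpK K := by
  refine ⟨fun hy => ?_, fun hy => ?_⟩
  · induction hy using Submodule.span_induction with
    | mem x hx => obtain ⟨g, hg, rfl⟩ := hx; simpa using h.sub_mem h0 hg
    | zero => simp
    | add x y _ _ hx hy =>
      have := add_mem hx hy
      rw [Prod.fst_add, Prod.snd_add, add_smul]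
      convert this using 1; abel
    | smul c x _ hx =>
      have := Submodule.smul_mem _ c hx
      rwa [smul_sub, smul_smul] at this
  · have h1 : ((1 : ZMod p), w0 + (y.2 - y.1 • w0)) ∈ ShK ℓ B K :=
      Submodule.subset_span ⟨_, h.adjust h0 hy, rfl⟩
    have h2 : ((1 : ZMod p), w0) ∈ ShK ℓ B K := Submodule.subset_span ⟨w0, h0, rfl⟩
    have := add_mem (Submodule.sub_mem _ h1 h2) (Submodule.smul_mem _ y.1 h2)
    convert this using 1
    ext <;> simp

/-- every algebra with simple blocks belongs to a side -/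
theorem exists_good (h : Str ℓ B) : ∃ s : Side p n, s.B = B ∧ Good ℓ s := by
  have key : ∀ S : Sub p n, ∃ L : List (Mat p n), spL L = S ∧ L.length = finrank (ZMod p) S := by
    intro S
    let b := Module.finBasis (ZMod p) S
    refine ⟨List.ofFn fun i => (b i).1, ?_, by simp⟩
    have h1 := congrArg (Submodule.map S.subtype) b.span_eq
    rw [Submodule.map_span, Submodule.map_top, Submodule.range_subtype] at h1
    refine Eq.trans ?_ h1
    rw [spL]
    congr 1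
    ext x
    simp [List.mem_ofFn]
  choose L h1 h2 using key
  exact ⟨⟨0, B, fun a b => L (Cb ℓ B a b)⟩, rfl, h, fun _ _ => h1 _, fun _ _ => h2 _⟩

theorem mem_Ht_of_map {H : Sub p n} {D : Submodule (ZMod p) (Tup p n)} {y : Mat p n} (hy : y ∈ H)
    (hu : Un y) : y ∈ Ht H D (D.map (act y)) := by
  refine mem_Ht.2 ⟨hy, fun τ hτ => ⟨τ, hτ, rfl⟩, ?_⟩
  rintro _ ⟨τ, hτ, rfl⟩
  have : act (st y) (act y τ) = τ := funext fun k => hu.st_mulVec _
  rwa [this]

theorem Ht_mono {H H' : Sub p n} (e : H ≤ H') (D D' : Submodule (ZMod p) (Tup p n)) :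
    Ht H D D' ≤ Ht H' D D' := fun _ h => ⟨e h.1, h.2⟩

theorem act_mul (a b : Mat p n) (τ : Tup p n) : act (a * b) τ = act a (act b τ) :=
  funext fun k => (Matrix.mulVec_mulVec (τ k) a b).symm

/-- `X` is a coset of the algebra `A` as soon as it contains a unitary element -/
structure Cos (A X : Sub p n) : Prop where
  mul : ∀ x ∈ X, ∀ a ∈ A, x * a ∈ X
  quo : ∀ x ∈ X, ∀ y ∈ X, st x * y ∈ A

theorem cos_self (h : Alg ℓ B) : Cos B B :=
  ⟨fun x hx a ha => h.mul x hx a ha, fun x hx y hy => h.mul _ (h.star x hx) y hy⟩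

theorem Cos.ht {A X : Sub p n} (h : Cos A X) (D D' : Submodule (ZMod p) (Tup p n)) :
    Cos (Ht A D D) (Ht X D D') where
  mul x hx a ha := ⟨h.mul x hx.1 a ha.1, fun τ hτ => by
      rw [act_mul]; exact hx.2.1 _ (ha.2.1 τ hτ), fun τ hτ => by
      rw [st_mul, act_mul]; exact ha.2.2 _ (hx.2.2 τ hτ)⟩
  quo x hx y hy := ⟨h.quo x hx.1 y hy.1, fun τ hτ => by
      rw [act_mul]; exact hx.2.2 _ (hy.2.1 τ hτ), fun τ hτ => by
      rw [st_mul, st_st, act_mul]; exact hy.2.2 _ (hx.2.1 τ hτ)⟩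

theorem aq_alg {s : Side p n} (h : Alg ℓ s.B) (K : Rel p n) (ρ : Rq p n) (θ : Frm p n) :
    Alg ℓ (Aq ℓ s K ρ θ) := Ht_alg (Ht_alg h _) _

theorem xq_le (s : Side p n) (K K' : Rel p n) (ρ : Rq p n) (θ θ' : Frm p n) (q q' : HH p n) :
    Xq ℓ s K K' ρ θ θ' q q' ≤ s.B := (Ht_le _ _ _).trans (Ht_le _ _ _)

theorem xq_cos {s : Side p n} (h : Alg ℓ s.B) (K K' : Rel p n) (ρ : Rq p n) (θ θ' : Frm p n)
    (q q' : HH p n) : Cos (Aq ℓ s K ρ θ) (Xq ℓ s K K' ρ θ θ' q q') :=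
  ((cos_self h).ht _ _).ht _ _

end Pool.Agent.P.MP_f1a348_lc.UP
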