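import Pool.Agent.P.MP_f1a348_lc.UP.EIf

/-! Proof of QFIND. -/

namespace Pool.Agent.P.MP_f1a348_lc.UP

open Matrix Module Pool.Agent.P.MP_f1a348_lc.PG

namespace QFINDy

variable {p n : ℕ} [Fact p.Prime] {ℓ : Ix n → ℕ}

theorem act_D0 (x : Mat p n) (u v : Vec p n) :
    (∀ τ ∈ D0 u, act x τ ∈ D0 v) ↔ ∃ a : ZMod p, a • (v + e0) = x *ᵥ (u + e0) := by
  have k : act x (t1 (u + e0)) ∈ D0 v ↔ ∃ a : ZMod p, a • (v + e0) = x *ᵥ (u + e0) := by
    rw [act_t1, D0, Submodule.mem_span_singleton]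
    simp only [← map_smul, t1_inj.eq_iff]
  refine ⟨fun h => k.1 (h _ (Submodule.mem_span_singleton_self _)), fun h τ hτ => ?_⟩
  obtain ⟨r, rfl⟩ := Submodule.mem_span_singleton.1 hτ
  rw [map_smul]
  exact Submodule.smul_mem _ _ (k.2 h)

theorem mem_pin {X : Sub p n} {x : Mat p n} {u v : Vec p n} : x ∈ Ht X (D0 u) (D0 v) ↔ x ∈ X ∧
    (∃ a : ZMod p, a • (v + e0) = x *ᵥ (u + e0)) ∧
      ∃ a : ZMod p, a • (u + e0) = st x *ᵥ (v + e0) := by
  rw [mem_Ht, act_D0, act_D0]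

theorem row (hl : Lab ℓ) {x : Mat p n} (hx : Dg ℓ x) (h1 : x (c0 n) (c0 n) = 1) (w : Vec p n) :
    (x *ᵥ w) (c0 n) = w (c0 n) := by
  rw [mulVec, dotProduct, Finset.sum_eq_single (c0 n), h1, one_mul]
  · intro β _ hβ
    by_cases e : x (c0 n) β = 0
    · rw [e, zero_mul]
    · exact absurd (hl.ctr β (hx _ _ e).symm) hβ
  · simp

theorem fix (hl : Lab ℓ) {x : Mat p n} (hx : Dg ℓ x) (h1 : x (c0 n) (c0 n) = 1) :
    x *ᵥ e0 = e0 ∧ st x *ᵥ e0 = e0 :=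
  ⟨by rw [(hx.tri hl).mulVec_e0, h1, one_smul],
    by rw [((hx.st hl).tri hl).mulVec_e0, st_apply, rev_c0, h1, one_smul]⟩

theorem ne (hp : 5 ≤ p) (j : Ix n) : (Pi.single j 1 + e0 : Vec p n) (c0 n) ≠ 0 := by
  by_cases e : j = c0 n
  · subst e
    have : ((2 : ℕ) : ZMod p) ≠ 0 := fun h => by
      have := Nat.le_of_dvd two_pos ((ZMod.natCast_eq_zero_iff 2 p).1 h)
      omega
    simpa [e0, one_add_one_eq_two] using this
  · simp [e0, Ne.symm e]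

theorem key (hl : Lab ℓ) {x : Mat p n} (hx : Dg ℓ x) (h1 : x (c0 n) (c0 n) = 1) {u v : Vec p n}
    (hu : (u + e0 : Vec p n) (c0 n) ≠ 0) {a b : ZMod p} (ha : a • (v + e0) = x *ᵥ (u + e0))
    (hb : b • (u + e0) = st x *ᵥ (v + e0)) :
    a * b = 1 ∧ st x *ᵥ (x *ᵥ (u + e0)) = u + e0 := by
  have e1 := congrFun ha (c0 n)
  have e2 := congrFun hb (c0 n)
  rw [row hl hx h1, Pi.smul_apply, smul_eq_mul] at e1
  rw [row hl (hx.st hl) (by rw [st_apply, rev_c0, h1]), Pi.smul_apply, smul_eq_mul] at e2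
  have e : a * b = 1 := mul_right_cancel₀ hu (by rw [mul_assoc, e2, e1, one_mul])
  exact ⟨e, by rw [← ha, mulVec_smul, ← hb, smul_smul, e, one_smul]⟩

theorem lift (hWM : S_WM p n) (hl : Lab ℓ) {A X : Sub p n} (hA : Alg ℓ A) (hc : Cos A X)
    (hX : ∀ x ∈ X, Dg ℓ x) {z h : Mat p n} (hz : U1 X z) {u v : Vec p n}
    (hu : (u + e0 : Vec p n) (c0 n) ≠ 0) (hh : h ∈ Ht X (D0 u) (D0 v)) (h1 : h (c0 n) (c0 n) = 1) :
    ∃ y, U1 (Ht X (D0 u) (D0 v)) y := by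
  obtain ⟨m, ⟨a, ha⟩, b, hb⟩ := mem_pin.1 hh
  obtain ⟨e, k⟩ := key hl (hX h m) h1 hu ha hb
  obtain ⟨f1, f2⟩ := fix hl (hX h m) h1
  obtain ⟨w, w1, w2, w3⟩ := hWM ℓ A hA _ (hc.quo z hz.1 h m)
  have w4 : ∀ y : Vec p n, st h *ᵥ (h *ᵥ y) = y → (z * w) *ᵥ y = h *ᵥ y := fun y hy => by
    rw [← mulVec_mulVec, w3 y (by
      rw [st_mul, st_st, ← mulVec_mulVec, ← mulVec_mulVec, hz.2.1.mulVec_st, hy]),
      ← mulVec_mulVec, hz.2.1.mulVec_st]
  have un := hz.2.1.mul w2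
  refine ⟨z * w, mem_pin.2 ⟨hc.mul z hz.1 w w1, ⟨a, by rw [w4 _ k, ha]⟩, b, ?_⟩, un, ?_⟩
  · rw [← un.st_mulVec (b • (u + e0)), mulVec_smul, w4 _ k, ← ha, smul_smul, mul_comm b, e,
      one_smul]
  · have := congrFun (w4 e0 (by rw [f1, f2])) (c0 n)
    rw [f1] at this
    simpa [e0] using this

variable {c : Cx} {l : V}

theorem sp_chi (h : Ok p n c) (X : List V) (y : Mat p n) :
    ((1 : ZMod p), y) ∈ sp (pl (mat p n)) (X.map fun x => ent c x (cz c) (cz c) :: x) ↔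
      y ∈ sp (mat p n) X ∧ y (c0 n) (c0 n) = 1 := by
  rw [sp_map (δ := mat p n) ((entryLinearMap (ZMod p) (ZMod p) (c0 n) (c0 n)).prod LinearMap.id)
    fun x _ => by
      rw [dv_pl_cons, h.cz]
      exact Prod.ext (h.mV_apply x (c0 n) (c0 n)).symm rfl]
  constructor
  · rintro ⟨x, hx, e⟩
    obtain ⟨e1, rfl⟩ := Prod.ext_iff.1 e
    exact ⟨hx, e1⟩
  · exact fun e => ⟨y, e.1, Prod.ext e.2 rfl⟩

theorem chi_isSome (h : Ok p n c) (X : List V) :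
    (chiA c X).isSome = true ↔ ∃ y ∈ sp (mat p n) X, y (c0 n) (c0 n) = 1 := by
  simp only [chiA, aff_isSome h.hp h.d2, sp_chi h]

theorem sp_pin (h : Ok p n c) (X : List V) (j : Ix n) (v : V) :
    sp (mat p n) (pinP c X j.val v) = Ht (sp (mat p n) X) (D0 (Pi.single j 1)) (D0 (vV p n v)) := by
  rw [pinP, h.htP, h.d0P (by simp), h.d0P (by simp), h.unit1]

theorem step (h : Ok p n c) (hl : Lab (lab n l)) (X : List V) (j : Ix n) :
    (sp (mat p n) (fstep c l X j.val) = ⊥ ∧ ∀ v ∈ Vb (lab n l) j,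
      ∀ y ∈ Ht (sp (mat p n) X) (D0 (Pi.single j 1)) (D0 v), y (c0 n) (c0 n) ≠ 1) ∨
    ∃ v, sp (mat p n) (fstep c l X j.val) = Ht (sp (mat p n) X) (D0 (Pi.single j 1)) (D0 v) ∧
      ∃ y ∈ Ht (sp (mat p n) X) (D0 (Pi.single j 1)) (D0 v), y (c0 n) (c0 n) = 1 := by
  rw [fstep]
  cases e : (blkP c l j.val).find? fun v => (chiA c (pinP c X j.val v)).isSome with
  | none =>
    refine Or.inl ⟨sp_nil, fun v hv y hy h1 => ?_⟩
    obtain ⟨x, hx, rfl⟩ := ((h.blkP hl j).mem v).1 hv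
    exact List.find?_eq_none.1 e x hx ((chi_isSome h _).2 ⟨y, sp_pin h X j x ▸ hy, h1⟩)
  | some v =>
    exact Or.inr ⟨_, sp_pin h X j v, sp_pin h X j v ▸ (chi_isSome h _).1
      (List.find?_some (p := fun v => (chiA c (pinP c X j.val v)).isSome) e)⟩

theorem sound (hp : 5 ≤ p) (h : Ok p n c) (hl : Lab (lab n l)) (I : List (Ix n)) (X : List V)
    (hX : ∀ x ∈ sp (mat p n) X, Dg (lab n l) x) :
    ∀ x ∈ sp (mat p n) ((I.map Fin.val).foldl (fstep c l) X), x ∈ sp (mat p n) X ∧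
      (x (c0 n) (c0 n) = 1 → ∀ j ∈ I, st x *ᵥ (x *ᵥ Pi.single j 1) = Pi.single j 1) := by
  induction I generalizing X with
  | nil => exact fun x hx => ⟨hx, by simp⟩
  | cons j I ih =>
    have k : ∀ x ∈ sp (mat p n) (fstep c l X j.val), x ∈ sp (mat p n) X ∧
        (x (c0 n) (c0 n) = 1 → st x *ᵥ (x *ᵥ Pi.single j 1) = Pi.single j 1) := fun x hx => by
      rcases step h hl X j with ⟨e, -⟩ | ⟨v, e, -⟩
      · rw [e, Submodule.mem_bot] at hx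
        exact ⟨hx ▸ zero_mem _, fun h1 => by simp [hx] at h1⟩
      · obtain ⟨m, ⟨a, ha⟩, b, hb⟩ := mem_pin.1 (e ▸ hx)
        refine ⟨m, fun h1 => ?_⟩
        have := (key hl (hX x m) h1 (ne hp j) ha hb).2
        rwa [mulVec_add, mulVec_add, (fix hl (hX x m) h1).1, (fix hl (hX x m) h1).2,
          add_left_inj] at this
    intro x hx
    obtain ⟨a1, a2⟩ := ih _ (fun y hy => hX y (k y hy).1) x hx
    exact ⟨(k x a1).1, fun h1 => List.forall_mem_cons.2 ⟨(k x a1).2 h1, a2 h1⟩⟩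

theorem complete (hp : 5 ≤ p) (hWM : S_WM p n) (h : Ok p n c) (hl : Lab (lab n l))
    (I : List (Ix n)) (X : List V) (hX : ∀ x ∈ sp (mat p n) X, Dg (lab n l) x) (A : Sub p n)
    (hA : Alg (lab n l) A) (hc : Cos A (sp (mat p n) X)) (hz : ∃ z, U1 (sp (mat p n) X) z) :
    ∃ z, U1 (sp (mat p n) ((I.map Fin.val).foldl (fstep c l) X)) z := by
  induction I generalizing X A with
  | nil => exact hz
  | cons j I ih =>
    obtain ⟨z, hz⟩ := hz
    rcases step h hl X j with ⟨-, e⟩ | ⟨v, e, y, hy, h1⟩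
    · obtain ⟨f1, f2⟩ := fix hl (hX z hz.1) hz.2.2
      refine absurd hz.2.2 (e _ ((hX z hz.1).mulVec_mem (single_mem_Vb rfl 1)) z
        (mem_pin.2 ⟨hz.1, ⟨1, ?_⟩, 1, ?_⟩))
      · rw [one_smul, mulVec_add, f1]
      · rw [one_smul, mulVec_add, f2, hz.2.1.st_mulVec]
    · exact ih (fstep c l X j.val) (fun x hx => hX x (e ▸ hx).1) _
        (Ht_alg hA (D0 (Pi.single j 1))) (e ▸ hc.ht _ _)
        (e ▸ lift hWM hl hA hc hX hz (ne hp j) hy h1)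

end QFINDy

open QFINDy in
theorem s_QFIND (p n : ℕ) [Fact p.Prime] (m : PM p n) (hWM : S_WM p n) : S_QFIND p n := by
  intro c l X h hl hX
  have e : sp (mat p n) (basis c (u2 c) X) = sp (mat p n) X := (basis_bas h.hp h.d2 X).sp
  rw [findU, h.ran1]
  rw [← e] at hX ⊢
  generalize basis c (u2 c) X = Y at hX ⊢
  refine ⟨fun y hy => ?_, fun A hA hc hz => ?_⟩
  · rw [chiA] at hy
    obtain ⟨a1, a2⟩ := (sp_chi h _ _).1 (aff_some h.hp h.d2 hy)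
    obtain ⟨b1, b2⟩ := sound m.five h hl (List.finRange (2 * n + 1)) Y hX _ a1
    refine ⟨b1, Matrix.ext fun α β => ?_, a2⟩
    have := congrFun (b2 a2 β (List.mem_finRange β)) α
    rw [mulVec_mulVec, mulVec_single_one] at this
    exact this.trans (by rw [one_apply, Pi.single_apply])
  · obtain ⟨z, hz⟩ := complete m.five hWM h hl (List.finRange (2 * n + 1)) Y hX A hA hc hz
    exact (chi_isSome h _).2 ⟨z, hz.1, hz.2.2⟩

end Pool.Agent.P.MP_f1a348_lc.UP
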