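import Pool.Agent.P.MP_f1a348_lc.UP.EIf

namespace Pool.Agent.P.MP_f1a348_lc.UP

open Matrix Module Pool.Agent.P.MP_f1a348_lc.PG

namespace QGENy

variable {p n : ℕ} [Fact p.Prime] {ℓ : Ix n → ℕ}

theorem act_t1 (f : Mat p n) (u : Vec p n) : act f (t1 u) = t1 (f *ᵥ u) := by
  funext k
  by_cases h : k = 0 <;> simp [act, t1, t2, h]

theorem D0_map {f : Mat p n} (hf : Par ℓ f) (u : Vec p n) :
    D0 (f *ᵥ u) = (D0 u).map (act f) := by
  rw [D0, D0, Submodule.map_span, Set.image_singleton, act_t1, Matrix.mulVec_add, hf.mulVec_e0]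

theorem fix (hp : 5 ≤ p) {X : Sub p n} {z : Mat p n} (hz : Par ℓ z) (j : Ix n)
    (h : z ∈ Ht X (D0 (Pi.single j 1)) (D0 (Pi.single j 1))) :
    z *ᵥ Pi.single j 1 = Pi.single j 1 := by
  by_cases e : j = c0 n
  · subst e
    exact hz.mulVec_e0
  obtain ⟨a, ha⟩ := Submodule.mem_span_singleton.1 (h.2.1 _ (Submodule.subset_span rfl))
  rw [act_t1, ← map_smul] at ha
  have h1 : a • ((Pi.single j 1 : Vec p n) + e0) = z *ᵥ (Pi.single j 1 + e0) := congrFun ha 0
  have h2 := congrFun h1 (c0 n)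
  rw [hz.1.mulVec_c0, hz.2.2] at h2
  have h3 : a = 1 := by simpa [e0, Ne.symm e] using h2
  rw [h3, one_smul, Matrix.mulVec_add, hz.mulVec_e0] at h1
  exact (add_right_cancel h1).symm

theorem pin {c : Cx} (h : Ok p n c) (X : List V) (j : Ix n) (v : V) :
    sp (mat p n) (pinP c X j.val v) = Ht (sp (mat p n) X) (D0 (Pi.single j 1)) (D0 (vV p n v)) := by
  rw [pinP, h.htP, h.d0P (by simp), h.d0P (by simp), h.unit1]

theorem fold (hp : 5 ≤ p) (hQ : S_QFIND p n) {c : Cx} {l : V} (h : Ok p n c) (hl : Lab (lab n l))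
    (I : List (Ix n)) : ∀ X G : List V, Alg (lab n l) (sp (mat p n) X) →
    (∀ z, U1 (sp (mat p n) X) z → ∀ i ∉ I, z *ᵥ Pi.single i 1 = Pi.single i 1) →
    (∀ g ∈ ((I.map Fin.val).foldl (gstep c l) (X, G)).2,
      g ∈ G ∨ U1 (sp (mat p n) X) (mV p n g)) ∧
    (∀ g ∈ G, g ∈ ((I.map Fin.val).foldl (gstep c l) (X, G)).2) ∧
    ∀ z, U1 (sp (mat p n) X) z → z ∈ Submonoid.closure
      {x | ∃ g ∈ ((I.map Fin.val).foldl (gstep c l) (X, G)).2, mV p n g = x} := by
  induction I with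
  | nil =>
    refine fun X G _ h1 => ⟨fun g hg => .inl hg, fun g hg => hg, fun z hz => ?_⟩
    have : z = 1 := by
      ext α β
      simpa [Matrix.one_apply, Pi.single_apply] using congrFun (h1 z hz β (by simp)) α
    exact this ▸ one_mem _
  | cons j I ih =>
    intro X G hX h1
    have e := pin h X j (unit c (u1 c) j)
    rw [h.unit1] at e
    have hA := Ht_alg hX (D0 (Pi.single j 1))
    have hf := fun v => hQ c l (pinP c X j v) h hl fun x hx =>
      hX.dg x (Ht_le _ _ _ (pin h X j v ▸ hx))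
    obtain ⟨i1, i2, i3⟩ := ih (pinP c X j (unit c (u1 c) j))
      (G ++ (blkP c l j).filterMap fun v => findU c l (pinP c X j v)) (e ▸ hA) fun z hz i hi => by
        rw [e] at hz
        by_cases a : i = j
        · exact a ▸ fix hp (hz.lev hl hA).par j hz.1
        · exact h1 z (hz.mono (Ht_le _ _ _)) i (by simp [a, hi])
    rw [e] at i1 i3
    refine ⟨fun g hg => ?_, fun g hg => i2 g (List.mem_append_left _ hg), fun z hz => ?_⟩
    · rcases i1 g hg with a | a
      · refine (List.mem_append.1 a).imp_right fun a => ?_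
        obtain ⟨v, -, a⟩ := List.mem_filterMap.1 a
        exact ((hf v).1 g a).mono (pin h X j v ▸ Ht_le _ _ _)
      · exact .inr (a.mono (Ht_le _ _ _))
    · obtain ⟨v, hv, a⟩ := ((h.blkP hl j).mem _).1
        ((hX.dg z hz.1).mulVec_mem (single_mem_Vb (ℓ := lab n l) (β := j) rfl (1 : ZMod p)))
      have hc := (cos_self hX).ht (D0 (Pi.single j 1)) (D0 (vV p n v))
      have hz' : z ∈ Ht (sp (mat p n) X) (D0 (Pi.single j 1)) (D0 (vV p n v)) := by
        rw [show vV p n v = _ from a, D0_map (hz.lev hl hX).par]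
        exact mem_Ht_of_map hz.1 hz.2.1
      obtain ⟨y, hy⟩ := Option.isSome_iff_exists.1 ((hf v).2 _ hA (pin h X j v ▸ hc)
        ⟨z, pin h X j v ▸ hz', hz.2⟩)
      have hu := (hf v).1 y hy
      rw [pin h] at hu
      have hu' := hu.mono (Ht_le _ _ _)
      rw [← one_mul z, ← hu.2.1.mul_st, mul_assoc]
      exact mul_mem (Submonoid.subset_closure ⟨y, i2 y (List.mem_append_right _
        (List.mem_filterMap.2 ⟨v, hv, hy⟩)), rfl⟩)
        (i3 _ ⟨hc.quo _ hu.1 _ hz', ((hu'.star hl hX).mul hl hX hz).2⟩)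

end QGENy

theorem s_QGEN (p n : ℕ) [Fact p.Prime] (m : PM p n) (hQFIND : S_QFIND p n) : S_QGEN p n := by
  intro c l A h hl hA
  have e := (basis_bas h.hp h.d2 A).sp
  obtain ⟨h1, -, h2⟩ := QGENy.fold m.five hQFIND h hl (List.finRange _) (basis c (u2 c) A) []
    (e ▸ hA) fun _ _ i hi => absurd (List.mem_finRange i) hi
  rw [← h.ran1, e] at h1 h2
  exact ⟨fun g hg => (h1 g hg).resolve_left List.not_mem_nil, h2⟩

end Pool.Agent.P.MP_f1a348_lc.UP
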