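import Pool.Agent.P.MP_f1a348_lc.UP.PIf

/-! Chains of subgroup tests and the search in a coset. -/

namespace Pool.Agent.P.MP_f1a348_lc.UP

open Matrix Module Pool.Agent.P.MP_f1a348_lc.PG
open scoped commutatorElement

namespace QSUBSz

variable {p n : ℕ} [Fact p.Prime] {c : Cx}

theorem subs_aux (hB : S_QBFS p n) (h : Ok p n c) (t : ℕ → V → Bool) (Q : ℕ → SG p n)
    (I : List ℕ) : ∀ S : List V, Chn t Q c.2.2.length (gS p n S) I → ∀ g,
      g ∈ gS p n (I.foldl (fun S i => subG c (t i) S) S) ↔ g ∈ gS p n S ∧ ∀ i ∈ I, g ∈ Q i := by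
  induction I with
  | nil => simp
  | cons i I ih =>
    rintro S ⟨h1, h2, h3⟩ g
    obtain ⟨k1, k2⟩ := (hB c (t i) S h).2.2 (Q i) h1
    have e := (k2 (k1.trans h2)).2
    rw [List.foldl_cons, ih _ (e ▸ h3), e]
    simp [and_assoc]

/-- one step stays in the coset -/
theorem step (hB : S_QBFS p n) (h : Ok p n c) (t q : ℕ → V → Bool) (s : V × List V) (i : ℕ) :
    Vd p n (cosStep c t q s i).1 ∧
      (gD p n s.1)⁻¹ * gD p n (cosStep c t q s i).1 ∈ gS p n s.2 ∧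
      gS p n (cosStep c t q s i).2 ≤ gS p n s.2 ∧
      ((∃ r ∈ bfs c (t i) s.2, q i (gmul c s.1 r) = true) → q i (cosStep c t q s i).1 = true) := by
  have hb := hB c (t i) s.2 h
  rcases e : ((bfs c (t i) s.2).map (gmul c s.1)).find? (q i) with _ | y
  · have e1 : (cosStep c t q s i).1 = nrm c s.1 := by rw [cosStep, e]; rfl
    rw [e1, h.gD_nrm, inv_mul_cancel]
    exact ⟨vd_of (h.nrm _), one_mem _, hb.2.1, fun ⟨r, h1, h2⟩ =>
      (List.find?_eq_none.1 e _ (List.mem_map_of_mem h1) h2).elim⟩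
  · have e1 : (cosStep c t q s i).1 = y := by rw [cosStep, e]; rfl
    obtain ⟨r, h1, rfl⟩ := List.mem_map.1 (List.mem_of_find?_eq_some e)
    rw [e1, h.gD_mul, inv_mul_cancel_left]
    exact ⟨vd_of (h.gmul _ _), hb.1 r h1, hb.2.1, fun _ => List.find?_some e⟩

theorem fold (hB : S_QBFS p n) (h : Ok p n c) (t q : ℕ → V → Bool) (I : List ℕ) :
    ∀ s : V × List V, Vd p n s.1 → Vd p n (I.foldl (cosStep c t q) s).1 ∧
      (gD p n s.1)⁻¹ * gD p n (I.foldl (cosStep c t q) s).1 ∈ gS p n s.2 := by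
  induction I with
  | nil => exact fun s hs => ⟨hs, by simp⟩
  | cons i I ih =>
    intro s _
    obtain ⟨h1, h2, h3, -⟩ := step hB h t q s i
    obtain ⟨k1, k2⟩ := ih _ h1
    refine ⟨k1, ?_⟩
    simpa [mul_assoc] using mul_mem h2 (h3 k2)

theorem solve (hB : S_QBFS p n) (h : Ok p n c) (t q : ℕ → V → Bool) (G : SG p n) (γ u : GG p n)
    (hu : u ∈ G) (Q : ℕ → SG p n) (P : ℕ → GG p n → Prop) (I : List ℕ)
    (H : ∀ i ∈ I, Tst (t i) G (· ∈ Q i) ∧ (Q i).relIndex G ≤ c.2.2.length ∧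
      (∀ x, ∀ u ∈ G, mV p n x = (γ * u).1 → (q i x = true ↔ P i (γ * u))) ∧
      ∀ u ∈ G, P i (γ * u) → ∀ w ∈ G, P i (γ * u * w) ↔ w ∈ Q i)
    (hP : ∀ i ∈ I, P i (γ * u)) : ∀ s : V × List V, gS p n s.2 ≤ G →
      (gD p n s.1)⁻¹ * (γ * u) ∈ gS p n s.2 →
      ∀ i ∈ I, P i (gD p n (I.foldl (cosStep c t q) s).1) := by
  induction I with
  | nil => simp
  | cons i I ih =>
    intro s hG hs
    obtain ⟨H1, H2, H3, H4⟩ := H i (by simp)
    obtain ⟨h1, h2, h3, h4⟩ := step hB h t q s i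
    obtain ⟨b1, -, b2⟩ := hB c (t i) s.2 h
    obtain ⟨b3, b4⟩ := b2 (Q i) fun x g hg => H1 x g (hG hg)
    obtain ⟨b5, b6⟩ := b4 (b3.trans
      ((Subgroup.relIndex_le_of_le_right hG Subgroup.index_ne_zero_of_finite).trans H2))
    have key : ∀ w ∈ G, P i (γ * u * w) ↔ w ∈ Q i := H4 u hu (hP i (by simp))
    have test : ∀ x, Vd p n x → (gD p n s.1)⁻¹ * gD p n x ∈ gS p n s.2 →
        (q i x = true ↔ (gD p n x)⁻¹ * (γ * u) ∈ Q i) := fun x hx k => by
      have k1 : (γ * u)⁻¹ * gD p n x ∈ G := by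
        simpa [mul_assoc] using hG (mul_mem (inv_mem hs) k)
      rw [H3 x _ (mul_mem hu k1) (by rw [hx]; congr 1; group), ← mul_assoc, key _ k1,
        ← inv_mem_iff]
      simp [mul_assoc]
    obtain ⟨_, r1, r2⟩ := b5.cov _ hs
    obtain ⟨r, r0, rfl⟩ := List.mem_map.1 r1
    have k1 := (test _ h1 h2).1 (h4 ⟨r, r0, (test _ (vd_of (h.gmul _ _))
      (by rw [h.gD_mul, inv_mul_cancel_left]; exact b1 r r0)).2
      (by simpa [h.gD_mul, mul_assoc] using r2.2)⟩)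
    have k2 : (gD p n (cosStep c t q s i).1)⁻¹ * (γ * u) ∈ gS p n (cosStep c t q s i).2 := by
      rw [show gS p n (cosStep c t q s i).2 = _ from b6]
      exact ⟨by simpa [mul_assoc] using mul_mem (inv_mem h2) hs, k1⟩
    intro j hj
    rcases List.mem_cons.1 hj with rfl | hj
    · have k3 := mul_mem (inv_mem k2) (fold hB h t q I _ h1).2
      have k4 := (key _ (hG (h3 k3))).2 ((show gS p n (cosStep c t q s j).2 = _ from b6) ▸ k3).2
      simpa [mul_assoc] using k4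
    · exact ih (fun k hk => H k (by simp [hk])) (fun k hk => hP k (by simp [hk])) _
        (h3.trans hG) k2 j hj

end QSUBSz

theorem s_QSUBS (p n : ℕ) [Fact p.Prime] (hQRED : S_QRED p n) (hQBFS : S_QBFS p n) :
    S_QSUBS p n := by
  intro c t I S Q h hc g
  rw [subs, QSUBSz.subs_aux hQBFS h t Q I _ (by rw [hQRED c S h]; exact hc), hQRED c S h]

theorem s_QCOS (p n : ℕ) [Fact p.Prime] (hQRED : S_QRED p n) (hQBFS : S_QBFS p n) :
    S_QCOS p n := by
  intro c t q I g S h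
  obtain ⟨h1, h2⟩ := QSUBSz.fold hQBFS h t q I (nrm c g, red c S) (vd_of (h.nrm g))
  rw [h.gD_nrm, hQRED c S h] at h2
  refine ⟨h1, h2, fun Q P H ⟨u, hu, hP⟩ => QSUBSz.solve hQBFS h t q _ _ u hu Q P I H hP
    (nrm c g, red c S) (hQRED c S h).le ?_⟩
  rw [h.gD_nrm, hQRED c S h, inv_mul_cancel_left]
  exact hu

end Pool.Agent.P.MP_f1a348_lc.UP
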