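import Pool.Agent.P.MP_f1a348_lc.UP.Iface

/-! Forests of certificates. -/

namespace Pool.Agent.P.MP_f1a348_lc.UP
open Matrix Module Pool.Agent.P.MP_f1a348_lc.PG
open scoped commutatorElement

namespace KIDz

section
variable {α : Type}

theorem tops_cons (r : ℕ × α) (F : List (ℕ × α)) : tops (r :: F) =
    (if r.1 = 0 then [(r.2, dn (F.takeWhile fun s => s.1 != 0))] else []) ++ tops F := by
  unfold tops
  rw [List.zipIdx_cons, List.zipIdx_succ, List.filter_cons]
  by_cases h : r.1 = 0 <;> simp [h, List.filter_map, Function.comp_def]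

theorem tops_up (F F' : List (ℕ × α)) : tops (up F ++ F') = tops F' := by
  induction F with
  | nil => rfl
  | cons r F ih =>
    rw [up, List.map_cons, List.cons_append, tops_cons, if_neg (Nat.succ_ne_zero _)]
    exact ih

theorem dn_up (F : List (ℕ × α)) : dn (up F) = F := by
  simp [dn, up, Function.comp_def]

theorem take_up (F F' : List (ℕ × α)) (h : F'.takeWhile (fun s => s.1 != 0) = []) :
    (up F ++ F').takeWhile (fun s => s.1 != 0) = up F := by
  induction F with
  | nil => exact h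
  | cons r F ih =>
    rw [up, List.map_cons, List.cons_append, List.takeWhile_cons_of_pos (by simp)]
    exact congrArg _ ih

end

variable {Γ : Type} [Group Γ] {p c : ℕ} {G : Subgroup Γ} {F : List (Rec Γ)}

theorem head (h : Kids p c G F) : F.takeWhile (fun s => s.1 != 0) = [] := by
  cases h with
  | nil => rfl
  | cons => exact List.takeWhile_cons_of_neg (by simp)

theorem tops_eq {x : Subgroup Γ × Subgroup Γ} (S : List (Rec Γ)) (h : Kids p c G F) :
    tops ((0, x) :: (up S ++ F)) = (x, S) :: tops F := by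
  rw [tops_cons, if_pos rfl, take_up _ _ (head h), dn_up, tops_up]
  rfl

theorem mem_topI {g : Γ} : g ∈ topI F ↔ ∀ r ∈ F, r.1 = 0 → g ∈ r.2.1 := by
  simp only [topI, Subgroup.mem_iInf]

theorem topI_append (F F' : List (Rec Γ)) : topI (F ++ F') = topI F ⊓ topI F' := by
  ext g
  simp only [Subgroup.mem_inf, mem_topI, List.forall_mem_append]

theorem topI_nil : topI ([] : List (Rec Γ)) = ⊤ := by simp [topI]

theorem topI_cons (K P : Subgroup Γ) (F F' : List (Rec Γ)) :
    topI ((0, K, P) :: (up F ++ F')) = K ⊓ topI F' := by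
  ext g
  simp only [Subgroup.mem_inf, mem_topI, List.forall_mem_cons, List.forall_mem_append, up,
    List.forall_mem_map]
  simp

theorem mono [Finite Γ] (hSOL : S_SOL) (h : Kids p c G F) :
    ∀ c' G', c ≤ c' → G' ≤ G → Kids p c' G' F := by
  induction h with
  | nil => exact fun _ _ _ _ => .nil _ _
  | cons c c0 c' G K P sub rest h1 h2 h3 _ h5 _ ih1 ih2 =>
    intro d G' hd hG
    exact .cons d c0 c' G' K P sub rest (fun g hg => h1 g (hG hg))
      ((Subgroup.relIndex_le_of_le_right hG Subgroup.index_ne_zero_of_finite).trans h2)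
      (h3.trans hd) (ih1 c' _ le_rfl (inf_le_inf_right _ hG))
      ((hSOL Γ).2.2.2.2.2.2.1 _ _ _ _ (inf_le_inf_right _ (inf_le_inf_right _ hG)) le_rfl h5)
      (ih2 d G' hd hG)

theorem append (h : Kids p c G F) : ∀ F', Kids p c G F' → Kids p c G (F ++ F') := by
  induction h with
  | nil => exact fun _ h => h
  | cons c c0 c' G K P sub rest h1 h2 h3 h4 h5 _ _ ih2 =>
    intro F' h
    rw [List.cons_append, List.append_assoc]
    exact .cons c c0 c' G K P sub _ h1 h2 h3 h4 h5 (ih2 F' h)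

theorem depth (h : Kids p c G F) : ∀ r ∈ F, r.1 < F.length := by
  induction h with
  | nil => simp
  | cons c c0 c' G K P sub rest _ _ _ _ _ _ ih1 ih2 =>
    simp only [List.forall_mem_cons, List.forall_mem_append, up, List.forall_mem_map,
      List.length_cons, List.length_append, List.length_map]
    refine ⟨by omega, fun r hr => ?_, fun r hr => ?_⟩
    · have := ih1 r hr
      omega
    · have := ih2 r hr
      omega

theorem roots (h : Kids p c G F) : topI F = (⨅ r ∈ tops F, r.1.1) ∧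
    ∀ r ∈ tops F, Nm G r.1.1 ∧ ∃ c0 c',
      r.1.2.relIndex G ≤ p ^ c0 ∧ c0 + 1 + c' ≤ c ∧ Val p c' (G ⊓ r.1.2) r.1.1 r.2 := by
  induction h with
  | nil => simp [topI, tops]
  | cons c c0 c' G K P sub rest h1 h2 h3 h4 h5 h6 _ ih2 =>
    rw [tops_eq sub h6, topI_cons, ih2.1, List.forall_mem_cons]
    refine ⟨?_, ⟨h1, c0, c', h2, h3, h4, h5⟩, ih2.2⟩
    ext g
    simp only [Subgroup.mem_inf, Subgroup.mem_iInf, List.forall_mem_cons]

end KIDz

theorem s_KID (p : ℕ) [Fact p.Prime] (hSOL : S_SOL) : S_KID p := by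
  intro Γ _ _
  refine ⟨fun c c' G G' F h => KIDz.mono hSOL h c' G', fun c G F F' h => KIDz.append h F',
    KIDz.topI_append, KIDz.topI_nil, KIDz.topI_cons,
    fun c G F h => ⟨KIDz.depth h, KIDz.roots h⟩, fun c c' G G' N N' F F' h hG hc h' hs =>
      ⟨KIDz.append (KIDz.mono hSOL h.1 c G' le_rfl hG) F' (KIDz.mono hSOL h' c G' hc le_rfl), ?_⟩⟩
  rw [KIDz.topI_append]
  exact (hSOL Γ).2.2.2.2.2.2.2.1 _ N _
    ((hSOL Γ).2.2.2.2.2.2.1 _ _ _ _ (inf_le_inf hG inf_le_left) le_rfl h.2)
    ((hSOL Γ).2.2.2.2.2.2.1 (G' ⊓ N ⊓ topI F') _ _ _ (fun g hg => ⟨⟨hg.1.1, hg.2⟩, hg.1.2.2⟩)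
      le_rfl hs)

end Pool.Agent.P.MP_f1a348_lc.UP
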