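import Pool.Agent.P.MP_f1a348_lc.PG.Iface
import Pool.Agent.P.MP_f1a348_lc.NC.Math
import Pool.Agent.P.MP_f1a348_lc.PX.TA

/-!
Project UP: the potential and the engine on an abstract relation.  Definitions and statements.
-/

namespace Pool.Agent.P.MP_f1a348_lc.UP

open Matrix Module Pool.Agent.P.MP_f1a348_lc.PG

noncomputable section
variable {p n : ℕ}

/-- unitary elements of `B` that fix the centre -/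
def U1 (B : Sub p n) (z : Mat p n) : Prop := z ∈ B ∧ Un z ∧ z (c0 n) (c0 n) = 1

/-- no non-zero homomorphism to `ZMod p` -/
def PPs (Y : Set (Mat p n)) : Prop :=
  ∀ f : Mat p n → ZMod p, (∀ a ∈ Y, ∀ b ∈ Y, f (a * b) = f a + f b) → ∀ a ∈ Y, f a = 0

def gam (n : ℕ) : ℕ := 200 * (2 * n + 1)

def Giant (ℓ : Ix n → ℕ) (B : Sub p n) : Prop :=
  ∀ a, ¬ Triv ℓ B a → gam n * eb ℓ B a < nb ℓ a ^ 2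

/-! ### the potential -/

/-- the number of scales below `2 k` -/
def sc (μ : Fin 3 → ℕ) (k : ℕ) : ℕ := ∑ j, if μ j < 2 * k then 1 else 0

/-- `k` is comparable with one of the scales -/
def Sc (μ : Fin 3 → ℕ) (k : ℕ) : Prop := ∃ j, μ j < 2 * k ∧ k ≤ μ j

def Scl (μ : Fin 3 → ℕ) (ℓ : Ix n → ℕ) (B : Sub p n) : Prop := ∀ a, ¬ Triv ℓ B a → Sc μ (nb ℓ a)

open Classical in
/-- the potential of an algebra with simple blocks -/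
def PhiS (μ : Fin 3 → ℕ) (ℓ : Ix n → ℕ) (B : Sub p n) : ℕ :=
  ∑ α, if Rep ℓ B α ∧ ¬ Triv ℓ B α then nb ℓ α * (3 + sc μ (nb ℓ α)) - eb ℓ B α else 0

/-- the potential of a block diagonal algebra -/
def PhA (μ : Fin 3 → ℕ) (ℓ : Ix n → ℕ) (A : Sub p n) : ℕ :=
  sSup {x | ∃ ℓ' g B', Ref ℓ A ℓ' g B' ∧ Sim ℓ' B' ∧ x = PhiS μ ℓ' B'}

/-- the commutant of the corner of `Bt` at `η` on the block of `a` -/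
def Ex (ℓ : Ix n → ℕ) (Bt : Sub p n) (η : Mat p n) (a : Ix n) : Sub p n where
  carrier := {C | η * pr ℓ a * C * (η * pr ℓ a) = C ∧ ∀ b ∈ Bt, C * (η * b * η) = η * b * η * C}
  add_mem' hC hD := ⟨by rw [mul_add, add_mul, hC.1, hD.1], fun b hb => by
    rw [add_mul, mul_add, hC.2 b hb, hD.2 b hb]⟩
  zero_mem' := ⟨by simp, fun b _ => by simp⟩
  smul_mem' c C hC := ⟨by rw [mul_smul_comm, smul_mul_assoc, hC.1], fun b hb => by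
    rw [smul_mul_assoc, mul_smul_comm, hC.2 b hb]⟩

/-- the corner of `Bt` at `η` acts simply on the part of the block of `a` that `η` fixes -/
structure Cr (ℓ : Ix n → ℕ) (B Bt : Sub p n) (a : Ix n) (η : Mat p n) (df ex : ℕ) : Prop where
  mem : η ∈ Bt
  idem : η * η = η
  off : ∀ b, Cb ℓ B a b = ⊥ → η * pr ℓ b = 0
  on : ∀ b, Cb ℓ B a b ≠ ⊥ → finrank (ZMod p) (im (1 - η) ⊓ Vb ℓ b : VS p n) = df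
  lt : df < nb ℓ a
  sim : ∀ x ∈ Vb ℓ a, η *ᵥ x = x → x ≠ 0 → ∀ y ∈ Vb ℓ a, η *ᵥ y = y → ∃ b ∈ Bt, b *ᵥ x = y
  dim : finrank (ZMod p) (Ex ℓ Bt η a) = ex
  dvd : eb ℓ B a ∣ ex
  corner : ex = eb ℓ B a → ∀ c ∈ B, η * c * η ∈ Bt

/-- the loss of potential pays for the corners -/
def GainQ (μ : Fin 3 → ℕ) (ℓ : Ix n → ℕ) (B Bt : Sub p n) (Φ' : ℕ) : Prop :=
  Φ' ≤ PhiS μ ℓ B ∧ ∀ a, ¬ Triv ℓ B a → Sc μ (nb ℓ a) → nb ℓ a ≤ PhiS μ ℓ B - Φ' ∨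
    ∃ η df ex, Cr ℓ B Bt a η df ex ∧ df + ex ≤ eb ℓ B a + (PhiS μ ℓ B - Φ')

/-- `π` is a unital homomorphism on `R` that keeps the central entry -/
structure Hm (R : Sub p n) (π : Mat p n →ₗ[ZMod p] Mat p n) : Prop where
  one : π 1 = 1
  mul : ∀ x ∈ R, ∀ y ∈ R, π (x * y) = π x * π y
  chi : ∀ x ∈ R, π x (c0 n) (c0 n) = x (c0 n) (c0 n)

/-! ### relations -/

abbrev Rel (p n : ℕ) : Type := Mat p n → Frm p n → Prop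

/-- a subgroup of the affine group of level `t` that maps onto the unitary group of `B` -/
structure KC (ℓ : Ix n → ℕ) (B : Sub p n) (t : ℕ) (K : Rel p n) : Prop where
  mem : ∀ z w, K z w → U1 B z ∧ w ∈ Wt ℓ t
  one : K 1 0
  mul : ∀ z w y v, K z w → K y v → K (z * y) (pull1 y w + v)
  star : ∀ z w, K z w → K (st z) (-pull1 (st z) w)
  onto : ∀ z, U1 B z → ∃ w, K z w

/-- the products of the pairs in `P` -/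
inductive GenK (P : Set (Mat p n × Frm p n)) : Rel p n
  | one : GenK P 1 0
  | mul {z w y v} : GenK P z w → (y, v) ∈ P → GenK P (z * y) (pull1 y w + v)

/-- the answer of the engine -/
structure EO (ℓ : Ix n → ℕ) (B : Sub p n) (a : Fin 3 → Ix n) (K : Rel p n) (δ : Frm p n)
    (A : Sub p n) (Y Y' : List (Mat p n)) : Prop where
  alg : Alg ℓ A
  le : A ≤ B
  mem : ∀ y ∈ Y, U1 B y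
  mem' : ∀ y ∈ Y', U1 B y
  cov : ∀ z, K z 0 → ∃ y ∈ Y, st y * z ∈ A
  cov' : ∀ z w, K z w → pull1 z δ + w = 0 → ∃ y ∈ Y', st y * z ∈ A
  semi : (∃ j, Triv ℓ B (a j)) → ∀ Z : Set (Mat p n), Grp Z → PPs Z → (∀ z ∈ Z, K z 0) →
    ∀ z ∈ Z, z ∈ A

/-- the relation seen from the point `δ` -/
def sft (K : Rel p n) (δ : Frm p n) : Rel p n := fun z w => K z (w - pull1 z δ + δ)

def SpK (K : Rel p n) : Submodule (ZMod p) (Frm p n) := Submodule.span (ZMod p) {w | K 1 w}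

def ShK (ℓ : Ix n → ℕ) (B : Sub p n) (K : Rel p n) : Submodule (ZMod p) (ZMod p × Frm p n) :=
  Submodule.span (ZMod p) {y | ∃ w, K (z0 ℓ B) w ∧ y = (1, w)}

def E2 (ℓ : Ix n → ℕ) (s : Side p n) (K : Rel p n) : Submodule (ZMod p) (Tup p n) :=
  (ShK ℓ s.B K).map (cn (CoL ℓ s))

def E3 (ℓ : Ix n → ℕ) (s : Side p n) (K : Rel p n) : Submodule (ZMod p) (Tup p n) :=
  Amb (CoL ℓ s).length ⊓ (ShK ℓ s.B K).comap (tn (CoL ℓ s))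

def AnnK (ℓ : Ix n → ℕ) (s : Side p n) (t : ℕ) (K : Rel p n) (c : ℕ → ZMod p) : Prop :=
  ∀ w ∈ SpK K, lam ℓ (CL s) t c w ∈ Tr ℓ s.B

def ThK (ℓ : Ix n → ℕ) (s : Side p n) (t : ℕ) (K : Rel p n) (c : ℕ → ZMod p) (θ : Frm p n) :
    Prop :=
  θ ∈ Wt ℓ t ∧ ∀ z w, K z w → pull1 z θ - θ - lam ℓ (CL s) t c w ∈ Tr ℓ s.B

/-- the relation whose tuples form `D4` -/
def R4 (ℓ : Ix n → ℕ) (s : Side p n) (a : Fin 3 → Ix n) (θ : Frm p n) (q : HH p n) :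
    Submodule (ZMod p) (HH p n) :=
  (Dom ℓ (a 1) ⊓ LinearMap.ker (LinearMap.snd _ _ _ ∘ₗ hat ℓ s a θ q)).map
    ((LinearMap.fst _ _ _).prod (LinearMap.fst _ _ _ ∘ₗ hat ℓ s a θ q))

/-- the slices of low rank -/
def HS (ℓ : Ix n → ℕ) (s : Side p n) (a : Fin 3 → Ix n) (θ : Frm p n) (r : ℕ) :
    Set (HH p n →ₗ[ZMod p] HH p n) := hat ℓ s a θ '' Low ℓ s a θ r

variable [Fact p.Prime]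

def E5 (ℓ : Ix n → ℕ) (s : Side p n) (a : Fin 3 → Ix n) (θ : Frm p n) (r : ℕ) :
    Submodule (ZMod p) (Tup p n) :=
  ((NC.Rm (HS ℓ s a θ r)).comap (LinearMap.inl _ _ _)).map t1

def E6 (ℓ : Ix n → ℕ) (s : Side p n) (a : Fin 3 → Ix n) (θ : Frm p n) (r : ℕ) :
    Submodule (ZMod p) (Tup p n) :=
  (Dom ℓ (a 1) ⊓ NC.Um (HS ℓ s a θ r)).map (t1 ∘ₗ LinearMap.fst _ _ _)

def E7 (ℓ : Ix n → ℕ) (s : Side p n) (a : Fin 3 → Ix n) (θ : Frm p n) (r : ℕ) :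
    Submodule (ZMod p) (Tup p n) :=
  (Submodule.span (ZMod p) (Low ℓ s a θ r)).map (t1 ∘ₗ LinearMap.fst _ _ _)

/-! ### recipes -/

structure Rq (p n : ℕ) where
  kind : ℕ
  a : Fin 3 → Ix n
  k : ℕ
  c : ℕ → ZMod p
  u : Vec p n
  v : Vec p n
  r : ℕ

/-- the level of a recipe -/
def Rq.t (ρ : Rq p n) (ℓ : Ix n → ℕ) : ℕ := key ℓ fun j => ρ.a (pm ρ.k j)

def Ed (ℓ : Ix n → ℕ) (s : Side p n) (K : Rel p n) (ρ : Rq p n) (θ : Frm p n) (q : HH p n) :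
    Submodule (ZMod p) (Tup p n) :=
  if ρ.kind = 2 then E2 ℓ s K else if ρ.kind = 3 then E3 ℓ s K else
  if ρ.kind = 4 then D4 ℓ s ρ.a (perm (pm ρ.k) θ) q else
  if ρ.kind = 5 then E5 ℓ s ρ.a (perm (pm ρ.k) θ) ρ.r else
  if ρ.kind = 6 then E6 ℓ s ρ.a (perm (pm ρ.k) θ) ρ.r else E7 ℓ s ρ.a (perm (pm ρ.k) θ) ρ.r

/-- the spaces of candidates -/
def Xq (ℓ : Ix n → ℕ) (s : Side p n) (K K' : Rel p n) (ρ : Rq p n) (θ θ' : Frm p n)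
    (q q' : HH p n) : Sub p n :=
  Ht (Ht s.B (Ed ℓ s K ρ θ (ρ.u, 0)) (Ed ℓ s K' ρ θ' q)) (Ed ℓ s K ρ θ (ρ.v, 0))
    (Ed ℓ s K' ρ θ' q')

/-- the smaller algebra -/
def Aq (ℓ : Ix n → ℕ) (s : Side p n) (K : Rel p n) (ρ : Rq p n) (θ : Frm p n) : Sub p n :=
  Xq ℓ s K K ρ θ θ (ρ.u, 0) (ρ.v, 0)

def cst (ℓ : Ix n → ℕ) (s : Side p n) (ρ : Rq p n) : ℕ :=
  if ρ.kind = 4 then 2 * (nb ℓ (ρ.a 0) + (Cso ℓ s (ρ.a 2).rev (ρ.a 1)).length) else 0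

/-- the shape of a recipe of level `t` -/
structure Shp (ℓ : Ix n → ℕ) (s : Side p n) (t : ℕ) (ρ : Rq p n) : Prop where
  lo : 2 ≤ ρ.kind
  hi : ρ.kind < 8
  k : ρ.k < 6
  r : ρ.r < 2 * (2 * n + 1)
  t : ρ.t ℓ = t
  u : ρ.u ∈ Vb ℓ (ρ.a 0)
  v : ρ.v ∈ Vb ℓ (ρ.a 0)
  pin : ρ.kind = 4 → Triv ℓ s.B (ρ.a 0) ∨ ∀ j, ¬ Triv ℓ s.B (ρ.a j)

/-- the recipe pays for its cost -/
def Pay (μ : Fin 3 → ℕ) (ℓ : Ix n → ℕ) (s : Side p n) (K : Rel p n) (ρ : Rq p n) (θ : Frm p n) :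
    Prop := cst ℓ s ρ + 1 ≤ 200 * (PhiS μ ℓ s.B - PhA μ ℓ (Aq ℓ s K ρ θ))

end

/-- the results of the project PG that are used -/
structure PM (p n : ℕ) [Fact p.Prime] : Prop where
  five : 5 ≤ p
  cw : S_CW p n
  sepi : S_SEPI p n
  swap : S_SWAP p n
  tr : S_TR p n
  rig : S_RIG p n
  mid : S_MID p n
  lamaa : S_LAMAA p n
  ex : S_EX p n
  eta : S_ETA p n
  ebas : S_EBAS p n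
  loc : S_LOC p n
  cls : S_CLS p n
  cls2 : S_CLS2 p n
  g1 : S_G1 p n
  g2 : S_G2 p n
  l1 : S_L1 p
  dec : S_DEC p n
  hinv : S_HINV p n
  plp1 : S_PLP1 p n
  nat3 : S_NAT3 p n
  cut : S_CUT n
  spl : S_SPL p n
  mkg : S_MKG p n
  ref : S_REF p n
  inv : S_INV p n
  cst : S_CST p n
  baer : S_BAER p
  tens : S_TENS p n

section
variable (p n : ℕ) [Fact p.Prime]

/-! ### unitary groups -/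

def S_WP : Prop := ∀ (ℓ : Ix n → ℕ) (B : Sub p n), Str ℓ B → PPs {z | U1 B z}

def S_WM : Prop := ∀ (ℓ : Ix n → ℕ) (A : Sub p n), Alg ℓ A → ∀ b ∈ A, ∃ w ∈ A, Un w ∧
  ∀ u : Vec p n, st b *ᵥ (b *ᵥ u) = u → w *ᵥ u = b *ᵥ u

/-! ### the potential -/

open Classical in
def S_ACQ : Prop := ∀ (I J : Type) [Fintype I] [Fintype J] (k e : I → ℕ) (k' e' : J → ℕ)
  (m : I → J → ℕ) (nt : J → Prop) (s : ℕ → ℕ) (Φ Φ' : ℕ), Monotone s →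
  (∀ A, 0 < e A ∧ e A ≤ k A ∧ k A = ∑ X, m A X) → (∀ X, 0 < k' X ∧ e' X ≤ k' X) →
  (∀ X, nt X → ∃ A, 0 < m A X) →
  (∀ A X, 0 < m A X → k' X ∣ m A X ∧ (m A X = k' X → e A ≤ e' X)) →
  Φ = ∑ A, (k A * (3 + s (k A)) - e A) →
  Φ' = ∑ X, (if nt X then k' X * (3 + s (k' X)) - e' X else 0) →
  Φ' ≤ Φ ∧ ∀ A, (∀ x, 2 * x ≤ k A → s x < s (k A)) → k A ≤ Φ - Φ' ∨
    ∃ X, nt X ∧ m A X = k' X ∧ (∀ A', A' ≠ A → m A' X = 0) ∧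
      k A + e' X ≤ k' X + e A + (Φ - Φ')

def S_REFX : Prop := ∀ (ℓ : Ix n → ℕ) (A : Sub p n), Lab ℓ → Alg ℓ A →
  ∃ ℓ' g B', Ref ℓ A ℓ' g B' ∧ Str ℓ' B'

def S_QUO : Prop := ∀ (μ : Fin 3 → ℕ) (ℓ1 ℓ2 : Ix n → ℕ) (R : Sub p n)
  (π1 π2 : Mat p n →ₗ[ZMod p] Mat p n), (1 : Mat p n) ∈ R → (∀ x ∈ R, ∀ y ∈ R, x * y ∈ R) →
  Hm R π1 → Hm R π2 → Str ℓ1 (R.map π1) → Str ℓ2 (R.map π2) →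
  (∀ x ∈ R, π2 x = 0 → IsNilpotent (π1 x)) →
  (∀ α, ∃ β, nb ℓ1 α = nb ℓ2 β ∧ eb ℓ1 (R.map π1) α = eb ℓ2 (R.map π2) β ∧
    ∀ x ∈ R, π1 x * pr ℓ1 α = 0 ↔ π2 x * pr ℓ2 β = 0) ∧
  PhiS μ ℓ1 (R.map π1) ≤ PhiS μ ℓ2 (R.map π2)

def S_PHI : Prop := ∀ (μ : Fin 3 → ℕ),
  (∀ (ℓ ℓ' : Ix n → ℕ) (A B' : Sub p n) (g : Mat p n), Lab ℓ → Alg ℓ A → Ref ℓ A ℓ' g B' →
    Sim ℓ' B' → PhA μ ℓ A = PhiS μ ℓ' B') ∧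
  (∀ (ℓ : Ix n → ℕ) (B : Sub p n), Str ℓ B → PhA μ ℓ B = PhiS μ ℓ B) ∧
  (∀ (ℓ1 ℓ2 : Ix n → ℕ) (R : Sub p n) (π1 π2 : Mat p n →ₗ[ZMod p] Mat p n), Lab ℓ1 → Lab ℓ2 →
    (1 : Mat p n) ∈ R → (∀ x ∈ R, ∀ y ∈ R, x * y ∈ R) → Hm R π1 → Hm R π2 →
    Alg ℓ1 (R.map π1) → Alg ℓ2 (R.map π2) → (∀ x ∈ R, π2 x = 0 → IsNilpotent (π1 x)) →
    PhA μ ℓ1 (R.map π1) ≤ PhA μ ℓ2 (R.map π2))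

def S_PHB : Prop := ∀ (μ : Fin 3 → ℕ) (ℓ : Ix n → ℕ) (B : Sub p n), Str ℓ B →
  PhiS μ ℓ B ≤ 6 * (2 * n + 1) ∧
  (∀ (a : Fin 3 → Ix n) (j : Fin 3) (x : ℕ),
    (∀ α, ¬ Triv ℓ B α → ∃ i, ℓ α = ℓ (a i) ∨ ℓ α = ℓ (a i).rev) →
    PhiS (Function.update μ j x) ℓ B ≤ PhiS μ ℓ B + 3 * μ j) ∧
  Monotone (sc μ) ∧ ∀ k, Sc μ k → ∀ x, 2 * x ≤ k → sc μ x < sc μ k

def S_CRX : Prop := ∀ (ℓ ℓ' : Ix n → ℕ) (B Bt B' : Sub p n) (β a : Ix n) (η u v : Mat p n),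
  Set0 ℓ B Bt ℓ' B' → Eta ℓ Bt ℓ' B' β η u v → mm ℓ ℓ' B' a β = nb ℓ' β →
  (∀ x ∈ Vb ℓ a, η *ᵥ x = x → x ≠ 0 → ∀ y ∈ Vb ℓ a, η *ᵥ y = y → ∃ b ∈ Bt, b *ᵥ x = y) ∧
  finrank (ZMod p) (Ex ℓ Bt η a) = eb ℓ' B' β

def S_GQ0 : Prop := ∀ (μ : Fin 3 → ℕ) (ℓ ℓ' : Ix n → ℕ) (B Bt B' : Sub p n),
  Set0 ℓ B Bt ℓ' B' → GainQ μ ℓ B Bt (PhiS μ ℓ' B')

def S_GQ : Prop := ∀ (μ : Fin 3 → ℕ) (ℓ : Ix n → ℕ) (B Bt : Sub p n), Str ℓ B → Alg ℓ Bt →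
  Bt ≤ B → GainQ μ ℓ B Bt (PhA μ ℓ Bt)

def S_PHM : Prop := ∀ (μ : Fin 3 → ℕ) (ℓ : Ix n → ℕ) (A A' : Sub p n), Lab ℓ → Alg ℓ A →
  Alg ℓ A' → A' ≤ A → PhA μ ℓ A' ≤ PhA μ ℓ A

def S_GABC : Prop := ∀ (μ : Fin 3 → ℕ) (ℓ : Ix n → ℕ) (B Bt : Sub p n), Str ℓ B → Alg ℓ Bt →
  Bt ≤ B →
  (Scl μ ℓ B → ¬ B ≤ Bt → PhA μ ℓ Bt < PhiS μ ℓ B) ∧
  (∀ (a : Ix n) (U : VS p n), ¬ Triv ℓ B a → Sc μ (nb ℓ a) → U ≤ Vb ℓ a →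
    (∀ b ∈ Bt, ∀ x ∈ U, b *ᵥ x ∈ U) → nb ℓ a ≤ 4 * finrank (ZMod p) U →
    2 * finrank (ZMod p) U ≤ nb ℓ a → nb ℓ a ≤ 4 * (PhiS μ ℓ B - PhA μ ℓ Bt)) ∧
  (Sim ℓ Bt → ∀ a, ¬ Triv ℓ B a → Sc μ (nb ℓ a) → nb ℓ a ≤ PhiS μ ℓ B - PhA μ ℓ Bt ∨
    (eb ℓ Bt a ≤ eb ℓ B a + (PhiS μ ℓ B - PhA μ ℓ Bt) ∧
      ∀ b, Cb ℓ B a b = ⊥ → Cb ℓ Bt a b = ⊥))

/-! ### the step -/

def S_STAK : Prop := ∀ (ℓ : Ix n → ℕ) (s : Side p n) (t : ℕ) (K : Rel p n), Good ℓ s →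
  KC ℓ s.B t K → s.B ≤ Ht s.B (E2 ℓ s K) (E2 ℓ s K) → ∀ z w, K z w → w ∈ SpK K ⊔ W0 ℓ s.B t

def S_STCK : Prop := ∀ (ℓ : Ix n → ℕ) (s : Side p n) (t : ℕ) (K : Rel p n), Good ℓ s →
  KC ℓ s.B t K → s.B ≤ Ht s.B (E3 ℓ s K) (E3 ℓ s K) →
  (∀ z w, K z w → w ∈ SpK K ⊔ Tr ℓ s.B) → ∀ z w, K z w → w ∈ SpK K

def S_STEPK : Prop := ∀ (ℓ : Ix n → ℕ) (s : Side p n) (a : Fin 3 → Ix n) (K : Rel p n),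
  Good ℓ s → Big ℓ s.B 30 → KC ℓ s.B (key ℓ a) K →
  s.B ≤ Ht s.B (E2 ℓ s K) (E2 ℓ s K) → s.B ≤ Ht s.B (E3 ℓ s K) (E3 ℓ s K) →
  ((∃ j, ¬ Triv ℓ s.B (a j)) → ∀ c, AnnK ℓ s (key ℓ a) K c →
    ∀ z w, K z w → lam ℓ (CL s) (key ℓ a) c w ∈ Tr ℓ s.B) →
  ∀ z w, K z w → w ∈ SpK K

def S_HCK : Prop := ∀ (ℓ : Ix n → ℕ) (s : Side p n) (a : Fin 3 → Ix n) (K : Rel p n)
  (c : ℕ → ZMod p), Good ℓ s → Big ℓ s.B 30 → KC ℓ s.B (key ℓ a) K →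
  (∃ j, ¬ Triv ℓ s.B (a j)) → AnnK ℓ s (key ℓ a) K c → ∃ θ, ThK ℓ s (key ℓ a) K c θ

/-! ### naturality -/

def S_NA23 : Prop := ∀ (ℓ : Ix n → ℕ) (s : Side p n) (t : ℕ) (K : Rel p n) (δ w : Frm p n)
  (y : Mat p n), Good ℓ s → KC ℓ s.B t K → δ ∈ Wt ℓ t → K y w → pull1 y δ + w = 0 →
  E2 ℓ s (sft K δ) = (E2 ℓ s K).map (act y) ∧ E3 ℓ s (sft K δ) = (E3 ℓ s K).map (act y)

def S_NA5 : Prop := ∀ (ℓ : Ix n → ℕ) (s : Side p n) (a : Fin 3 → Ix n) (θ : Frm p n)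
  (y : Mat p n) (r : ℕ), Good ℓ s → U1 s.B y →
  E5 ℓ s a (pull1 (st y) θ) r = (E5 ℓ s a θ r).map (act y) ∧
  E6 ℓ s a (pull1 (st y) θ) r = (E6 ℓ s a θ r).map (act y) ∧
  E7 ℓ s a (pull1 (st y) θ) r = (E7 ℓ s a θ r).map (act y)

def S_HI5 : Prop := ∀ (ℓ : Ix n → ℕ) (s : Side p n) (a : Fin 3 → Ix n) (θ τ : Frm p n) (r : ℕ),
  Good ℓ s → τ ∈ Tr ℓ s.B → τ ∈ Wt ℓ (key ℓ a) →
  E5 ℓ s a (θ + τ) r = E5 ℓ s a θ r ∧ E6 ℓ s a (θ + τ) r = E6 ℓ s a θ r ∧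
  E7 ℓ s a (θ + τ) r = E7 ℓ s a θ r

def S_NATK : Prop := ∀ (ℓ : Ix n → ℕ) (s : Side p n) (t : ℕ) (K : Rel p n) (ρ : Rq p n)
  (θ δ w : Frm p n) (y : Mat p n), Good ℓ s → KC ℓ s.B t K → Shp ℓ s t ρ →
  (4 ≤ ρ.kind → ThK ℓ s t K ρ.c θ) → δ ∈ Wt ℓ t → K y w → pull1 y δ + w = 0 →
  ∃ q ∈ Qs ℓ s ρ.a, ∃ q' ∈ Qs ℓ s ρ.a, (ρ.kind ≠ 4 → q = 0 ∧ q' = 0) ∧
    y ∈ Xq ℓ s K (sft K δ) ρ θ (θ + lam ℓ (CL s) t ρ.c δ) q q'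

def S_SEM0 : Prop := ∀ (ℓ : Ix n → ℕ) (s : Side p n) (a : Fin 3 → Ix n) (θ : Frm p n)
  (u : Vec p n) (Y : Set (Mat p n)), Good ℓ s → θ ∈ Wt ℓ (key ℓ a) → Triv ℓ s.B (a 0) →
  u ∈ Vb ℓ (a 0) → Grp Y → PPs Y → (∀ y ∈ Y, U1 s.B y ∧ pull1 y θ - θ ∈ Tr ℓ s.B) →
  ∀ y ∈ Y, y ∈ Ht s.B (D4 ℓ s a θ (u, 0)) (D4 ℓ s a θ (u, 0))

def S_SEMI : Prop := ∀ (ℓ : Ix n → ℕ) (s : Side p n) (t : ℕ) (K : Rel p n) (ρ : Rq p n)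
  (θ : Frm p n) (Y : Set (Mat p n)), Good ℓ s → KC ℓ s.B t K → Shp ℓ s t ρ →
  (4 ≤ ρ.kind → ThK ℓ s t K ρ.c θ) → (∃ j, Triv ℓ s.B (ρ.a j)) → Grp Y → PPs Y →
  (∀ y ∈ Y, K y 0) → ∀ y ∈ Y, y ∈ Aq ℓ s K ρ θ

/-- an invariant form on a level with a trivial slot is a trace -/
def S_LT0 : Prop := ∀ (ℓ : Ix n → ℕ) (B : Sub p n) (a : Fin 3 → Ix n) (θ : Frm p n)
  (Y : Set (Mat p n)), Str ℓ B → θ ∈ Wt ℓ (key ℓ a) → (∃ j, Triv ℓ B (a j)) →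
  (∃ j, ¬ Triv ℓ B (a j)) → Grp Y → PPs Y → Submodule.span (ZMod p) Y = B →
  (∀ y ∈ Y, U1 B y ∧ pull1 y θ - θ ∈ Tr ℓ B) → θ ∈ Tr ℓ B

/-- lifting through one level when the stabiliser spans the algebra -/
def S_LIFK : Prop := ∀ (ℓ : Ix n → ℕ) (B : Sub p n) (a : Fin 3 → Ix n) (K : Rel p n)
  (Y : Set (Mat p n)), Str ℓ B → Big ℓ B 30 → KC ℓ B (key ℓ a) K → Grp Y → (∀ y ∈ Y, K y 0) →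
  Submodule.span (ZMod p) Y = B →
  ((∃ j, ¬ Triv ℓ B (a j)) → ∀ θ ∈ Wt ℓ (key ℓ a), (∀ y ∈ Y, pull1 y θ - θ ∈ Tr ℓ B) →
    θ ∈ Tr ℓ B) →
  ∀ z w, K z w → K 1 w

/-! ### progress -/

def S_GRA : Prop := ∀ (ℓ : Ix n → ℕ) (B Bt : Sub p n) (a : Ix n) (η : Mat p n) (df ex e : ℕ)
  (D : Submodule (ZMod p) (HH p n)), Str ℓ B → Alg ℓ Bt → Bt ≤ B → Cr ℓ B Bt a η df ex →
  (∀ y ∈ D, y.1 ∈ Vb ℓ a ∧ y.2 ∈ Vb ℓ a) → (∀ b ∈ Bt, ∀ y ∈ D, (b *ᵥ y.1, b *ᵥ y.2) ∈ D) →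
  nb ℓ a ≤ finrank (ZMod p) (D.map (LinearMap.fst _ _ _)) + e →
  finrank (ZMod p) (D.comap (LinearMap.inr _ _ _)) ≤ e → df + e < nb ℓ a →
  (∃ L ∈ Ex ℓ Bt η a, (∀ z ∈ Vb ℓ a, η *ᵥ z = z → (z, L *ᵥ z) ∈ D) ∧
    ∀ y ∈ D, η *ᵥ y.2 = L *ᵥ y.1) ∧
  (∀ L ∈ Ex ℓ Bt η a, ∀ z ∈ Vb ℓ a, η *ᵥ z = z → L *ᵥ z = 0 → L = 0 ∨ z = 0) ∧
  (∀ C ∈ Cb ℓ B a a, η * C ∈ Ex ℓ Bt η a) ∧
  finrank (ZMod p) (im η ⊓ Vb ℓ a : VS p n) + df = nb ℓ a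

def S_R4 : Prop := ∀ (ℓ : Ix n → ℕ) (s : Side p n) (a : Fin 3 → Ix n) (θ : Frm p n)
  (u : Vec p n), Good ℓ s → θ ∈ Wt ℓ (key ℓ a) → ¬ Triv ℓ s.B (a 1) → u ∈ Vb ℓ (a 0) →
  D4 ℓ s a θ (u, 0) = (R4 ℓ s a θ (u, 0)).map t2 ∧
  (∀ y ∈ R4 ℓ s a θ (u, 0), y.1 ∈ Vb ℓ (a 1) ∧ y.2 ∈ Vb ℓ (a 2).rev) ∧
  (∀ b ∈ Ht s.B (D4 ℓ s a θ (u, 0)) (D4 ℓ s a θ (u, 0)), ∀ y ∈ R4 ℓ s a θ (u, 0),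
    (b *ᵥ y.1, b *ᵥ y.2) ∈ R4 ℓ s a θ (u, 0)) ∧
  nb ℓ (a 1) ≤ finrank (ZMod p) ((R4 ℓ s a θ (u, 0)).map (LinearMap.fst _ _ _)) + eb ℓ s.B (a 0) ∧
  finrank (ZMod p) ((R4 ℓ s a θ (u, 0)).comap (LinearMap.inr _ _ _)) ≤ eb ℓ s.B (a 0) ∧
  (∀ C ∈ Cb ℓ s.B (a 2).rev (a 1), ∃ q ∈ Low ℓ s a θ (finrank (ZMod p) ((R4 ℓ s a θ (u, 0)).map
    (LinearMap.snd _ _ _ - C.mulVecLin ∘ₗ LinearMap.fst _ _ _)) + eb ℓ s.B (a 0)), q.1 = u) ∧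
  (∀ r, ∀ q ∈ Low ℓ s a θ r, q.1 = u → ∃ C ∈ Cb ℓ s.B (a 2).rev (a 1),
    finrank (ZMod p) ((R4 ℓ s a θ (u, 0)).map
      (LinearMap.snd _ _ _ - C.mulVecLin ∘ₗ LinearMap.fst _ _ _)) ≤ r) ∧
  ∀ v ∈ Vb ℓ (a 0), ∀ (Y T : VS p n) (g : ℕ), nb ℓ (a 1) ≤ finrank (ZMod p) Y + g →
    (∀ z ∈ Y, ∃ y y', (z, y) ∈ R4 ℓ s a θ (u, 0) ∧ (z, y') ∈ R4 ℓ s a θ (v, 0) ∧ y - y' ∈ T) →
    (u - v, 0) ∈ Low ℓ s a θ (g + finrank (ZMod p) T + 2 * eb ℓ s.B (a 0))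

def S_PQ1 : Prop := ∀ (μ : Fin 3 → ℕ) (ℓ : Ix n → ℕ) (s : Side p n) (a : Fin 3 → Ix n)
  (θ : Frm p n) (u : Vec p n) (Bt : Sub p n), Good ℓ s → Scl μ ℓ s.B → θ ∈ Wt ℓ (key ℓ a) →
  θ ∉ Tr ℓ s.B → Triv ℓ s.B (a 0) → (¬ Triv ℓ s.B (a 1) ∨ ¬ Triv ℓ s.B (a 2)) →
  u ∈ Vb ℓ (a 0) → u ≠ 0 → Alg ℓ Bt → Bt ≤ Ht s.B (D4 ℓ s a θ (u, 0)) (D4 ℓ s a θ (u, 0)) →
  2 * (nb ℓ (a 0) + (Cso ℓ s (a 2).rev (a 1)).length) + 1 ≤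
    200 * (PhiS μ ℓ s.B - PhA μ ℓ Bt)

def S_PQ4 : Prop := ∀ (ℓ : Ix n → ℕ) (s : Side p n) (a : Fin 3 → Ix n) (θ : Frm p n)
  (u : Vec p n) (Bt : Sub p n) (η : Mat p n) (df ex : ℕ), Good ℓ s → θ ∈ Wt ℓ (key ℓ a) →
  ¬ Triv ℓ s.B (a 1) → u ∈ Vb ℓ (a 0) → Alg ℓ Bt →
  Bt ≤ Ht s.B (D4 ℓ s a θ (u, 0)) (D4 ℓ s a θ (u, 0)) → Cr ℓ s.B Bt (a 1) η df ex →
  df + eb ℓ s.B (a 0) < nb ℓ (a 1) →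
  (∃ q ∈ Low ℓ s a θ (df + 2 * eb ℓ s.B (a 0)), q.1 = u) ∨
  (ex ≠ eb ℓ s.B (a 1) ∧ Cb ℓ s.B (a 2).rev (a 1) ≠ ⊥ ∧
    ∀ r, ∀ q ∈ Low ℓ s a θ r, q.1 = u → nb ℓ (a 1) ≤ r + df)

def S_PQ8 : Prop := ∀ (ℓ : Ix n → ℕ) (s : Side p n) (a : Fin 3 → Ix n) (θ : Frm p n) (g : ℕ),
  Good ℓ s → θ ∈ Wt ℓ (key ℓ a) → ¬ Triv ℓ s.B (a 1) → Cb ℓ s.B (a 2).rev (a 1) ≠ ⊥ →
  2 * g + eb ℓ s.B (a 0) < nb ℓ (a 1) → 4 * g + 2 ≤ nb ℓ (a 0) →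
  (∀ u ∈ Vb ℓ (a 0), u ≠ 0 → ∀ v ∈ Vb ℓ (a 0), v ≠ 0 → ∃ Bt η df ex, Alg ℓ Bt ∧
    Bt ≤ Ht s.B (D4 ℓ s a θ (u, 0)) (D4 ℓ s a θ (u, 0)) ∧
    Bt ≤ Ht s.B (D4 ℓ s a θ (v, 0)) (D4 ℓ s a θ (v, 0)) ∧ Cr ℓ s.B Bt (a 1) η df ex ∧
    df ≤ g ∧ ex ≤ 2 * g) →
  ∃ q ∈ Low ℓ s a θ (3 * g + 2 * eb ℓ s.B (a 0)), q.1 ≠ 0

def S_PQ5 : Prop := ∀ (ℓ : Ix n → ℕ) (s : Side p n) (a : Fin 3 → Ix n) (θ : Frm p n) (r : ℕ),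
  Good ℓ s → θ ∈ Wt ℓ (key ℓ a) → θ ∉ Tr ℓ s.B → 4 * r < nb ℓ (a 1) → 4 * r < nb ℓ (a 2) →
  (∀ u ∈ Vb ℓ (a 0), ∃ q ∈ Low ℓ s a θ r, q.1 = u) →
  ¬ s.B ≤ Ht s.B (E5 ℓ s a θ r) (E5 ℓ s a θ r) ∨ ¬ s.B ≤ Ht s.B (E6 ℓ s a θ r) (E6 ℓ s a θ r)

/-- three non-trivial slots, the first one is the smallest -/
def S_PQ3 : Prop := ∀ (μ : Fin 3 → ℕ) (ℓ : Ix n → ℕ) (s : Side p n) (a : Fin 3 → Ix n)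
  (θ : Frm p n), Good ℓ s → Big ℓ s.B 200 → Scl μ ℓ s.B → θ ∈ Wt ℓ (key ℓ a) → θ ∉ Tr ℓ s.B →
  (∀ j, ¬ Triv ℓ s.B (a j)) → (∀ j, nb ℓ (a 0) ≤ nb ℓ (a j)) →
  (∃ u ∈ Vb ℓ (a 0), ∃ v ∈ Vb ℓ (a 0),
    2 * (nb ℓ (a 0) + (Cso ℓ s (a 2).rev (a 1)).length) + 1 ≤ 200 * (PhiS μ ℓ s.B - PhA μ ℓ
      (Ht (Ht s.B (D4 ℓ s a θ (u, 0)) (D4 ℓ s a θ (u, 0))) (D4 ℓ s a θ (v, 0))
        (D4 ℓ s a θ (v, 0))))) ∨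
  ∃ r < 2 * (2 * n + 1), ¬ s.B ≤ Ht s.B (E5 ℓ s a θ r) (E5 ℓ s a θ r) ∨
    ¬ s.B ≤ Ht s.B (E6 ℓ s a θ r) (E6 ℓ s a θ r) ∨ ¬ s.B ≤ Ht s.B (E7 ℓ s a θ r) (E7 ℓ s a θ r)

def S_PQ : Prop := ∀ (μ : Fin 3 → ℕ) (ℓ : Ix n → ℕ) (s : Side p n) (a : Fin 3 → Ix n)
  (K : Rel p n) (θ : Frm p n) (c : ℕ → ZMod p), Good ℓ s → Big ℓ s.B 200 → Scl μ ℓ s.B →
  (∃ j, ¬ Triv ℓ s.B (a j)) → θ ∈ Wt ℓ (key ℓ a) → θ ∉ Tr ℓ s.B →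
  ∃ ρ : Rq p n, ρ.c = c ∧ 4 ≤ ρ.kind ∧ Shp ℓ s (key ℓ a) ρ ∧ Pay μ ℓ s K ρ θ

def S_ENG : Prop := ∀ (μ : Fin 3 → ℕ) (ℓ : Ix n → ℕ) (s : Side p n) (a : Fin 3 → Ix n)
  (K : Rel p n) (cs : Set (ℕ → ZMod p)) (θf : (ℕ → ZMod p) → Frm p n), Good ℓ s →
  Big ℓ s.B 200 → Scl μ ℓ s.B → KC ℓ s.B (key ℓ a) K →
  (∀ c ∈ cs, AnnK ℓ s (key ℓ a) K c) →
  (∀ c, AnnK ℓ s (key ℓ a) K c →
    ∃ c' ∈ Submodule.span (ZMod p) cs, ∀ x < nc (CL s), c x = c' x) →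
  (∀ c ∈ cs, (∃ θ, ThK ℓ s (key ℓ a) K c θ) → ThK ℓ s (key ℓ a) K c (θf c)) →
  (∀ z w, K z w → K 1 w) ∨
  ∃ ρ : Rq p n, Shp ℓ s (key ℓ a) ρ ∧ Pay μ ℓ s K ρ (θf ρ.c) ∧
    (ρ.kind < 4 → ρ.c = 0) ∧ (4 ≤ ρ.kind → ρ.c ∈ cs ∧ ThK ℓ s (key ℓ a) K ρ.c (θf ρ.c))

end

end Pool.Agent.P.MP_f1a348_lc.UP
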