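import Pool.Agent.P.MP_f1a348_lc.PG.TCW
import Pool.Agent.P.MP_f1a348_lc.PG.TSEPI
import Pool.Agent.P.MP_f1a348_lc.PG.TTSM
import Pool.Agent.P.MP_f1a348_lc.PG.TSEP
import Pool.Agent.P.MP_f1a348_lc.PG.TSP
import Pool.Agent.P.MP_f1a348_lc.PG.TSWAP
import Pool.Agent.P.MP_f1a348_lc.PG.TTRANS
import Pool.Agent.P.MP_f1a348_lc.PG.TDFR
import Pool.Agent.P.MP_f1a348_lc.PG.TREL
import Pool.Agent.P.MP_f1a348_lc.PG.TPEEL
import Pool.Agent.P.MP_f1a348_lc.PG.TTR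
import Pool.Agent.P.MP_f1a348_lc.PG.TRIG
import Pool.Agent.P.MP_f1a348_lc.PG.TDUAL
import Pool.Agent.P.MP_f1a348_lc.PG.TMASCHKE
import Pool.Agent.P.MP_f1a348_lc.PG.TGP
import Pool.Agent.P.MP_f1a348_lc.PG.TMID
import Pool.Agent.P.MP_f1a348_lc.PG.TLAMAA
import Pool.Agent.P.MP_f1a348_lc.PG.TWD
import Pool.Agent.P.MP_f1a348_lc.PG.TADD
import Pool.Agent.P.MP_f1a348_lc.PG.TPL
import Pool.Agent.P.MP_f1a348_lc.PG.TBIL
import Pool.Agent.P.MP_f1a348_lc.PG.TEX2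
import Pool.Agent.P.MP_f1a348_lc.PG.TEX
import Pool.Agent.P.MP_f1a348_lc.PG.TETA
import Pool.Agent.P.MP_f1a348_lc.PG.TEBAS
import Pool.Agent.P.MP_f1a348_lc.PG.TLOC1
import Pool.Agent.P.MP_f1a348_lc.PG.TLOC2
import Pool.Agent.P.MP_f1a348_lc.PG.TLOC
import Pool.Agent.P.MP_f1a348_lc.PG.TCLS
import Pool.Agent.P.MP_f1a348_lc.PG.TCLS2
import Pool.Agent.P.MP_f1a348_lc.PG.TACCT
import Pool.Agent.P.MP_f1a348_lc.PG.TGAIN0
import Pool.Agent.P.MP_f1a348_lc.PG.TREF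
import Pool.Agent.P.MP_f1a348_lc.PG.TGAIN
import Pool.Agent.P.MP_f1a348_lc.PG.TG1
import Pool.Agent.P.MP_f1a348_lc.PG.TG2
import Pool.Agent.P.MP_f1a348_lc.PG.TCMP
import Pool.Agent.P.MP_f1a348_lc.PG.TL1
import Pool.Agent.P.MP_f1a348_lc.PG.TPOPN
import Pool.Agent.P.MP_f1a348_lc.PG.TDEC
import Pool.Agent.P.MP_f1a348_lc.PG.THINV
import Pool.Agent.P.MP_f1a348_lc.PG.TPLP1
import Pool.Agent.P.MP_f1a348_lc.PG.TNAT3
import Pool.Agent.P.MP_f1a348_lc.PG.TCUT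
import Pool.Agent.P.MP_f1a348_lc.PG.TSPL
import Pool.Agent.P.MP_f1a348_lc.PG.TMKG
import Pool.Agent.P.MP_f1a348_lc.PG.TINV
import Pool.Agent.P.MP_f1a348_lc.PG.TCST
import Pool.Agent.P.MP_f1a348_lc.PG.TBAER
import Pool.Agent.P.MP_f1a348_lc.PG.TTENS
import Pool.Agent.P.MP_f1a348_lc.UP.EDefs

/-!
Project UP: the results of the project PG.
-/

namespace Pool.Agent.P.MP_f1a348_lc.UP

open Pool.Agent.P.MP_f1a348_lc.PG

theorem pm_all (p : ℕ) [Fact p.Prime] (hp : 5 ≤ p) (n : ℕ) : PM p n := by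
  have hCW : PG.S_CW p n := PG.s_CW p n hp
  have hSEPI : PG.S_SEPI p n := PG.s_SEPI p n hp
  have hTSM : PG.S_TSM p n := PG.s_TSM p n hp
  have hSEP : PG.S_SEP p n := PG.s_SEP p n hp hSEPI hTSM
  have hSP : PG.S_SP p n := PG.s_SP p n hp hCW hSEPI
  have hSWAP : PG.S_SWAP p n := PG.s_SWAP p n hp hCW hSEPI
  have hTRANS : PG.S_TRANS p n := PG.s_TRANS p n hp hSWAP
  have hDFR : PG.S_DFR p n := PG.s_DFR p n hp hSEPI
  have hREL : PG.S_REL p n := PG.s_REL p n hp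
  have hPEEL : PG.S_PEEL p n := PG.s_PEEL p n hp hREL
  have hTR : PG.S_TR p n := PG.s_TR p n hp hSP hPEEL
  have hRIG : PG.S_RIG p n := PG.s_RIG p n hp hTR hSEPI
  have hDUAL : PG.S_DUAL p n := PG.s_DUAL p n hp hTR
  have hMASCHKE : PG.S_MASCHKE p n := PG.s_MASCHKE p n hp
  have hGP : PG.S_GP p n := PG.s_GP p n hp
  have hMID : PG.S_MID p n := PG.s_MID p n hp hMASCHKE hDUAL hDFR hTRANS hGP hTR
  have hLAMAA : PG.S_LAMAA p n := PG.s_LAMAA p n hp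
  have hWD : PG.S_WD p n := PG.s_WD p n hp hSEP
  have hADD : PG.S_ADD p n := PG.s_ADD p n hp
  have hPL : PG.S_PL p n := PG.s_PL p n hp hADD
  have hBIL : PG.S_BIL p n := PG.s_BIL p n hp hWD hADD hPL hSEP
  have hEX2 : PG.S_EX2 p n := PG.s_EX2 p n hp hBIL hTSM hSEP hREL
  have hEX : PG.S_EX p n := PG.s_EX p n hp hEX2
  have hETA : PG.S_ETA p n := PG.s_ETA p n hp
  have hEBAS : PG.S_EBAS p n := PG.s_EBAS p n hp
  have hLOC1 : PG.S_LOC1 p n := PG.s_LOC1 p n hp hEBAS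
  have hLOC2 : PG.S_LOC2 p n := PG.s_LOC2 p n hp
  have hLOC : PG.S_LOC p n := PG.s_LOC p n hp hEBAS hLOC1 hLOC2
  have hCLS : PG.S_CLS p n := PG.s_CLS p n hp
  have hCLS2 : PG.S_CLS2 p n := PG.s_CLS2 p n hp hCLS
  have hACCT : PG.S_ACCT := PG.s_ACCT
  have hGAIN0 : PG.S_GAIN0 p n := PG.s_GAIN0 p n hp hETA hLOC hCLS hCLS2 hACCT
  have hREF : PG.S_REF p n := PG.s_REF p n hp
  have hGAIN : PG.S_GAIN p n := PG.s_GAIN p n hp hGAIN0 hREF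
  have hG1 : PG.S_G1 p n := PG.s_G1 p n hp
  have hG2 : PG.S_G2 p n := PG.s_G2 p n hp
  have hACC0 : PG.S_ACC0 p n := PG.s_ACC0 hGAIN hG1
  have hCMP : PG.S_CMP p := PG.s_CMP p hp
  have hL1 : PG.S_L1 p := PG.s_L1 p hp hCMP
  have hPOPN : PG.S_POPN p := PG.s_POPN p hp
  have hDEC : PG.S_DEC p n := PG.s_DEC p n hp
  have hHINV : PG.S_HINV p n := PG.s_HINV p n hp hDEC hPOPN
  have hPLP1 : PG.S_PLP1 p n := PG.s_PLP1 p n hp hGAIN hG2 hACC0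
  have hNAT3 : PG.S_NAT3 p n := PG.s_NAT3 p n hp hPOPN
  have hCUT : PG.S_CUT n := PG.s_CUT n
  have hSPL : PG.S_SPL p n := PG.s_SPL p n hp hCUT
  have hMKG : PG.S_MKG p n := PG.s_MKG p n hp
  have hINV : PG.S_INV p n := PG.s_INV p n hp
  have hCST : PG.S_CST p n := PG.s_CST p n hp
  have hBAER : PG.S_BAER p := PG.s_BAER p hp
  have hTENS : PG.S_TENS p n := PG.s_TENS p n hp hBAER
  exact ⟨hp, hCW, hSEPI, hSWAP, hTR, hRIG, hMID, hLAMAA, hEX, hETA, hEBAS, hLOC, hCLS, hCLS2,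
    hG1, hG2, hL1, hDEC, hHINV, hPLP1, hNAT3, hCUT, hSPL, hMKG, hREF, hINV, hCST, hBAER, hTENS⟩

end Pool.Agent.P.MP_f1a348_lc.UP
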