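import Pool.Agent.P.MP_f1a348_lc.UP.Iface

/-! A vector which generates a semisimple module over the algebra and its commutant. -/

namespace Pool.Agent.P.MP_f1a348_lc.UP

open Matrix Module Pool.Agent.P.MP_f1a348_lc.PG
open scoped commutatorElement

namespace ACWz

theorem gen (R W : Type) [Ring R] [AddCommGroup W] [Module R W] [Finite W]
    [IsSemisimpleModule R W] : ∃ w : W, ∀ y, ∃ (r : R) (c : W →ₗ[R] W), y = r • w + c w := by
  obtain ⟨w, hw⟩ := Finite.exists_max fun w : W => (Set.range fun r : R => r • w).ncard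
  obtain ⟨U, hU⟩ := exists_isCompl (Submodule.span R {w})
  refine ⟨w, fun y => ?_⟩
  obtain ⟨x, hx, u, hu, rfl⟩ := Submodule.mem_sup.1 (hU.sup_eq_top ▸ Submodule.mem_top (x := y))
  obtain ⟨r, rfl⟩ := Submodule.mem_span_singleton.1 hx
  let π := (Submodule.span R {w}).projection U hU
  have h1 : π (w + u) = w := by
    rw [map_add, Submodule.projection_apply_of_mem_left hU (Submodule.mem_span_singleton_self w),
      Submodule.projection_apply_of_mem_right hU hu, add_zero]
  have h2 : π '' (Set.range fun r : R => r • (w + u)) = Set.range fun r : R => r • w := by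
    rw [← Set.range_comp]
    congr 1
    funext r
    simp only [Function.comp, map_smul, h1]
  have h3 : Set.InjOn π (Set.range fun r : R => r • (w + u)) :=
    Set.injOn_of_ncard_image_eq (le_antisymm Set.ncard_image_le (h2 ▸ hw (w + u)))
  have h4 : LinearMap.ker (LinearMap.toSpanSingleton R W w) ≤
      LinearMap.ker (LinearMap.toSpanSingleton R W u) := fun s hs => by
    have e : s • w = 0 := hs
    have := h3 ⟨s, rfl⟩ ⟨0, rfl⟩ (by simp only [map_smul, h1, e, zero_smul, map_zero])
    simp only [smul_add, e, zero_add, zero_smul] at this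
    exact this
  obtain ⟨c, hc⟩ := IsSemisimpleModule.extension_property
    ((LinearMap.ker (LinearMap.toSpanSingleton R W w)).liftQ _ le_rfl)
    (LinearMap.ker_eq_bot.1 (Submodule.ker_liftQ_eq_bot _ _ _ le_rfl))
    ((LinearMap.ker (LinearMap.toSpanSingleton R W w)).liftQ _ h4)
  refine ⟨r, c, ?_⟩
  have := LinearMap.congr_fun hc (Submodule.Quotient.mk 1)
  simp only [LinearMap.comp_apply, Submodule.liftQ_apply, LinearMap.toSpanSingleton_apply,
    one_smul] at this
  rw [this]

end ACWz

theorem s_ACW (p : ℕ) [Fact p.Prime] : S_ACW p := by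
  intro W _ _ _ R h
  obtain ⟨w, hw⟩ := ACWz.gen R W
  refine ⟨w, fun y => ?_⟩
  obtain ⟨r, c, e⟩ := hw y
  exact ⟨r, r.2, c.toAddMonoidHom.toZModLinearMap p,
    fun r' hr' => LinearMap.ext fun x => c.map_smul ⟨r', hr'⟩ x, e⟩

end Pool.Agent.P.MP_f1a348_lc.UP
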