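import Pool.Agent.P.MP_f1a348_lc.UP.Iface

/-! Refinements of flags and refinements of the block diagonal part. -/

namespace Pool.Agent.P.MP_f1a348_lc.UP

open Matrix Module Pool.Agent.P.MP_f1a348_lc.PG
open scoped commutatorElement

namespace CFXz

variable {p n : ℕ} {ℓ ℓ' : Ix n → ℕ}

theorem conj_gr (hl : Lab ℓ) {g y : Mat p n} (hg : Dg ℓ g) (hy : Tri ℓ y) :
    Tri ℓ (st g * y * g) ∧ st g * gr ℓ y * g = gr ℓ (st g * y * g) := by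
  have h1 := (hg.st hl).tri hl
  refine ⟨(h1.mul hy).mul (hg.tri hl), ?_⟩
  rw [gr_mul (h1.mul hy) (hg.tri hl), gr_mul h1 hy, hg.gr_eq, (hg.st hl).gr_eq]

theorem tri_gr (hf : ∀ α β, ℓ' α ≤ ℓ' β → ℓ α ≤ ℓ β) {z : Mat p n} (hz : Tri ℓ z) :
    Tri ℓ' (gr ℓ z) ↔ Tri ℓ' z := by
  refine ⟨fun h α β e => ?_, fun h α β e => h α β fun e' => e (by simp [e'])⟩
  by_cases h1 : ℓ α = ℓ β
  · exact h α β (by rwa [gr_apply, if_pos h1])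
  · exact ⟨(le_total _ _).elim id fun h2 => absurd (le_antisymm (hz α β e).1 (hf _ _ h2)) h1,
      (hz α β e).2⟩

theorem gr_gr' (hf : ∀ α β, ℓ' α ≤ ℓ' β → ℓ α ≤ ℓ β) (z : Mat p n) : gr ℓ' (gr ℓ z) = gr ℓ' z := by
  ext α β
  simp only [gr_apply]
  split_ifs with h1 h2
  · rfl
  · exact absurd (le_antisymm (hf _ _ h1.le) (hf _ _ h1.ge)) h2
  · rfl

theorem fr_mul (f g : GG p n) (x : Mat p n) : fr (f * g) x = st g.1 * fr f x * g.1 := by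
  simp only [fr, cj_apply, val_mul, st_mul, st_st, mul_assoc]

theorem key [Fact p.Prime] {R : Sub p n} {f g : GG p n} (hl : Lab ℓ) (hR : TriR R f ℓ)
    (hf : ∀ α β, ℓ' α ≤ ℓ' β → ℓ α ≤ ℓ β) (hg : Dg ℓ g.1) :
    ((∀ b ∈ gB R f ℓ, Tri ℓ' (st g.1 * b * g.1)) ↔ TriR R (f * g) ℓ') ∧
      gB R (f * g) ℓ' = (gB R f ℓ).map (gr ℓ' ∘ₗ cj (st g.1)) := by
  have h1 : ∀ x ∈ R, Tri ℓ' (st g.1 * gr ℓ (fr f x) * g.1) ↔ Tri ℓ' (fr (f * g) x) := fun x hx => by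
    rw [(conj_gr hl hg (hR x hx)).2, tri_gr hf (conj_gr hl hg (hR x hx)).1, fr_mul]
  have h2 : ∀ x ∈ R, (gr ℓ' ∘ₗ cj (st g.1)) ((gr ℓ ∘ₗ fr f) x) = (gr ℓ' ∘ₗ fr (f * g)) x :=
    fun x hx => by
      simp only [LinearMap.comp_apply, cj_apply, st_st]
      rw [(conj_gr hl hg (hR x hx)).2, gr_gr' hf, fr_mul]
  refine ⟨⟨fun h x hx => (h1 x hx).1 (h _ ⟨x, hx, rfl⟩), ?_⟩, ?_⟩
  · rintro h _ ⟨x, hx, rfl⟩
    exact (h1 x hx).2 (h x hx)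
  · ext y
    constructor
    · rintro ⟨x, hx, rfl⟩
      exact ⟨_, ⟨x, hx, rfl⟩, h2 x hx⟩
    · rintro ⟨_, ⟨x, hx, rfl⟩, rfl⟩
      exact ⟨x, hx, (h2 x hx).symm⟩

end CFXz

theorem s_CFX (p n : ℕ) [Fact p.Prime] (m : PM p n) (hENV : S_ENV p n) (hSEC : S_SEC p n)
    (hRAD : S_RAD p n) (hREFX : S_REFX p n) : S_CFX p n := by
  intro R f ℓ hl hR
  have h1 : ∀ ℓ' (g : GG p n) B', Ref ℓ (gB R f ℓ) ℓ' g.1 B' →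
      Fine f ℓ (f * g) ℓ' ∧ TriR R (f * g) ℓ' ∧ gB R (f * g) ℓ' = B' := fun ℓ' g B' h => by
    obtain ⟨k1, k2⟩ := CFXz.key hl hR h.fine h.dg
    exact ⟨⟨hl, h.lab, h.fine, by rw [inv_mul_cancel_left]; exact h.dg⟩, k1.1 h.tri,
      k2.trans h.eq.symm⟩
  refine ⟨h1, fun f' ℓ' h hR' => ?_, fun hA => ?_⟩
  · obtain ⟨k1, k2⟩ := CFXz.key hl hR h.fine h.dg
    rw [mul_inv_cancel_left] at k1 k2
    exact ⟨h.lab', h.fine, ⟨h.dg.tri hl, (f⁻¹ * f').2.2⟩, h.dg, k1.2 hR', k2⟩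
  · obtain ⟨ℓ', g, B', h, hS⟩ := hREFX ℓ _ hl (hRAD R f ℓ hA hl hR).1
    obtain ⟨k1, k2, k3⟩ := h1 ℓ' ⟨g, h.par.l0⟩ B' h
    exact ⟨_, ℓ', k1, h.lab, k2, by rw [k3]; exact hS.sim⟩

end Pool.Agent.P.MP_f1a348_lc.UP
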