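import Pool.Agent.P.MP_f1a348_lc.UP.Iface

namespace Pool.Agent.P.MP_f1a348_lc.UP

open Matrix Module Pool.Agent.P.MP_f1a348_lc.PG
open scoped commutatorElement

namespace CLIFFz

variable {p n : ℕ}

open Classical in
theorem lc_apply (ℓ : Ix n → ℕ) (S : Set (Ix n)) (y : Mat p n) (h0 : y (c0 n) (c0 n) = 0)
    (β γ : Ix n) :
    lc ℓ S y β γ = if β ∈ S ∧ γ ∈ S ∧ ℓ β = ℓ γ then y β γ else 0 := by
  have e : lc ℓ S y = eS S * gr ℓ y * eS S + y (c0 n) (c0 n) • (1 - eS S) := rfl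
  rw [e, h0, zero_smul, add_zero, eS, Matrix.mul_diagonal, Matrix.diagonal_mul, gr_apply]
  by_cases h1 : β ∈ S <;> by_cases h2 : γ ∈ S <;> by_cases h3 : ℓ β = ℓ γ <;> simp [h1, h2, h3]

end CLIFFz

theorem s_CLIFF (p n : ℕ) [Fact p.Prime] (b : TB p n) (hCLF : S_CLF p n) (hSSM : S_SSM p n)
    (hLOCF : S_LOCF p n) : S_CLIFF p n := by
  intro s hs hsim
  obtain ⟨-, hclo, -, lo1, hmul, hle, hpar, -, -, -, -, -, -, hstr⟩ := b.coc s hs
  obtain ⟨henv, hfr, -⟩ := b.env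
  obtain ⟨aX, saX, -, -, -, cjX⟩ := hle s.X hs.le
  obtain ⟨-, -, -, memG, minG, -⟩ := hle s.G le_rfl
  have hXG : Env s.X ≤ Env s.G := (henv s.X).2.2.1 _ hs.le
  have ssm : SSm (s.le s.X) := by
    refine hCLF s.ll (s.le s.G) (s.le s.X) (hstr hsim) aX (minG _ fun g hg => ?_)
    refine Submodule.subset_span ⟨memG g hg, (hpar g hg).1.2.1, fun x hx => ?_⟩
    have e : st (s.lo g.1) = s.lo (g⁻¹).1 := by
      rw [val_inv, (hmul g.1 ((henv s.G).2.1 g hg)).1]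
    rw [e]
    exact cjX g⁻¹ (inv_mem hg) (fun y hy => hs.nm _ (inv_mem hg) y hy) x hx
  have rad0 := (hSSM _ saX ssm).2.1
  have hpow : ∀ y ∈ Env s.G, ∀ k : ℕ, y ^ k ∈ Env s.G ∧ s.lo (y ^ k) = s.lo y ^ k := by
    intro y hy k
    induction k with
    | zero => exact ⟨by rw [pow_zero]; exact (henv s.G).1.one, by rw [pow_zero, pow_zero, lo1]⟩
    | succ k ih =>
      exact ⟨by rw [pow_succ]; exact (henv s.G).1.mul _ ih.1 _ hy,
        by rw [pow_succ, pow_succ, (hmul _ ih.1).2.2 _ hy, ih.2]⟩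
  refine ⟨ssm, fun x hx => rad0 _ ⟨⟨x, hx.1, rfl⟩, ?_⟩, fun f ℓ hf hcf x hx => ?_⟩
  · rintro _ ⟨y, hy, rfl⟩
    obtain ⟨k, hk⟩ := hx.2 y hy
    refine ⟨k, ?_⟩
    rw [← (hmul x (hXG hx.1)).2.2 y (hXG hy),
      ← (hpow _ (hXG ((henv s.X).1.mul _ hx.1 _ hy)) k).2, hk, map_zero]
  · obtain ⟨clo', h, hfine, hcf', -, hgr⟩ :=
      hLOCF (Env s.X) s.f f s.ℓ ℓ s.lam (henv s.X).1 hf hcf hclo
    have hc : fr f x (c0 n) (c0 n) = x (c0 n) (c0 n) :=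
      ((hfr f x x).2.2.2.2.2.1 ((henv s.X).1.dg x hx)).2
    constructor
    · intro e
      have h0 : x (c0 n) (c0 n) = 0 := by
        rw [← (hmul x (hXG hx)).2.1, e, Matrix.zero_apply]
      refine ⟨⟨hx, fun α hα β γ h1 h2 => ?_⟩, h0⟩
      have e1 : loc f ℓ s.lam x = 0 := by
        rw [← hgr x hx]
        have e' : loc s.f s.ℓ s.lam x = 0 := e
        rw [e', map_zero, map_zero]
      have e2 := CLIFFz.lc_apply ℓ s.lam (fr f x) (hc.trans h0) β γ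
      have e3 : lc ℓ s.lam (fr f x) = 0 := e1
      rw [e3, if_pos ⟨clo'.blk _ _ h1.symm hα, clo'.blk _ _ h2.symm hα, h1.trans h2.symm⟩] at e2
      exact e2.symm
    · rintro ⟨hm, h0⟩
      have e1 : loc f ℓ s.lam x = 0 := by
        ext β γ
        have e2 := CLIFFz.lc_apply ℓ s.lam (fr f x) (hc.trans h0) β γ
        refine e2.trans ?_
        split_ifs with h1
        · exact hm.2 β h1.1 β γ rfl h1.2.2.symm
        · rfl
      refine rad0 _ ((b.rad (s.le s.X) h (lS ℓ s.lam) saX hcf'.lab hcf'.tri).2.1 _ ⟨x, hx, rfl⟩ ?_)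
      exact (hgr x hx).trans e1

end Pool.Agent.P.MP_f1a348_lc.UP
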