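import Pool.Agent.P.MP_f1a348_lc.UP.Iface
import Pool.Agent.P.MP_f1a348_lc.PG.Struct

namespace Pool.Agent.P.MP_f1a348_lc.UP

open Matrix Module Pool.Agent.P.MP_f1a348_lc.PG
open scoped commutatorElement

theorem s_COREF (p n : ℕ) [Fact p.Prime] (b : TB p n) (hGENCF : S_GENCF p n) : S_COREF p n := by
  intro N Y R hR hF hLS
  obtain ⟨f, ℓ, -, cf⟩ := (b.cfx R 1 (l0 n) lab_l0 (b.env.2.2.2.1 R hR).2.2.2).2.2 hR
  have hS : Str ℓ (gB R f ℓ) := ((b.rad R f ℓ hR cf.lab cf.tri).2.2 cf).1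
  set S : Set (Ix n) :=
    {a | ¬ Triv ℓ (gB R f ℓ) a ∧ gam n * eb ℓ (gB R f ℓ) a < nb ℓ a ^ 2} with hSdef
  have hclo : Clo ℓ S := by
    refine ⟨fun α β e hα => ?_, fun α hα => ?_⟩
    · obtain ⟨h1, h2⟩ := hα
      refine ⟨fun t => h1 ((Triv_congr e).2 t), ?_⟩
      rwa [← eb_congr e, ← nb_congr e]
    · obtain ⟨h1, h2⟩ := hα
      refine ⟨fun t => h1 ((triv_rev hS).1 t), ?_⟩
      rwa [eb_rev hS, hS.lab.nb_rev]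
  have hcls : ∀ α ∈ S, ∀ β, Cb ℓ (gB R f ℓ) α β ≠ ⊥ → β ∈ S := by
    intro α hα β e
    obtain ⟨h1, h2⟩ := hα
    refine ⟨fun t => h1 ((triv_iff hS e).2 t), ?_⟩
    rwa [← eb_eq hS e, ← nb_eq hS e]
  obtain ⟨hst, hfull, -⟩ := hGENCF N R f ℓ S hR hF cf hclo hcls (fun α hα _ => hα.2) _ rfl
  have hop := (b.op (GG p n)).1 (N ⊓ KB f ℓ Sᶜ)
  have h1 : Op p (N ⊓ KB f ℓ Sᶜ) ≤ Y := hLS.max _ (hop.1.trans inf_le_left) hst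
  have hE : Env Y ≤ R := ((b.env.1 Y).2.2.2.2.2.2 R).2 fun g hg => hF.1 g (hLS.le hg)
  have h2 : Y ≤ KB f ℓ Sᶜ := by
    intro g hg
    refine mem_KB.2 fun α hα => ?_
    have hs := b.stcf.2.1 Y R f ℓ α hR cf hE
    by_cases ht : Triv ℓ (gB R f ℓ) α
    · exact hs.1 ht hg
    · refine hs.2 hLS.stable ?_ hg
      by_contra hlt
      exact hα ⟨ht, not_le.1 hlt⟩
  have h3 : Y ≤ Op p (N ⊓ KB f ℓ Sᶜ) := hop.2.2.2.1 Y (le_inf hLS.le h2) hLS.stable.1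
  rw [le_antisymm h3 h1]
  exact hfull

end Pool.Agent.P.MP_f1a348_lc.UP
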