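import Pool.Agent.P.MP_f1a348_lc.UP.EBase
import Pool.Agent.P.MP_f1a348_lc.PG.TLVL

/-! Proof of ENG. -/

namespace Pool.Agent.P.MP_f1a348_lc.UP

open Matrix Module Pool.Agent.P.MP_f1a348_lc.PG

namespace ENGy

/-- the recipes without a choice -/
theorem easy {p n : ℕ} [Fact p.Prime] (hG : S_GABC p n) {μ : Fin 3 → ℕ} {ℓ : Ix n → ℕ}
    {s : Side p n} (hs : Good ℓ s) (hc : Scl μ ℓ s.B) (a : Fin 3 → Ix n) (K : Rel p n)
    (θ : Frm p n) (k : ℕ) (hk : k = 2 ∨ k = 3)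
    (h : ¬ s.B ≤ Ht s.B (Ed ℓ s K ⟨k, a, 0, 0, 0, 0, 0⟩ θ (0, 0))
      (Ed ℓ s K ⟨k, a, 0, 0, 0, 0, 0⟩ θ (0, 0))) :
    Shp ℓ s (key ℓ a) ⟨k, a, 0, 0, 0, 0, 0⟩ ∧ Pay μ ℓ s K ⟨k, a, 0, 0, 0, 0, 0⟩ θ := by
  refine ⟨⟨by simp only; omega, by simp only; omega, by simp, by simp, by simp [Rq.t, pm_zero],
    zero_mem _, zero_mem _, fun e => by simp only at e; omega⟩, ?_⟩
  have := (hG μ ℓ s.B _ hs.str (aq_alg hs.str.alg K ⟨k, a, 0, 0, 0, 0, 0⟩ θ)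
    (xq_le _ _ _ _ _ _ _ _)).1 hc fun e => h (e.trans (Ht_le _ _ _))
  have e : cst ℓ s ⟨k, a, 0, 0, 0, 0, 0⟩ = 0 := if_neg (by simp only; omega)
  rw [Pay, e]
  omega

end ENGy

open LVLx in
theorem s_ENG (p n : ℕ) [Fact p.Prime] (m : PM p n) (hSTEPK : S_STEPK p n) (hHCK : S_HCK p n) (hPQ : S_PQ p n) (hGABC : S_GABC p n) : S_ENG p n := by
  intro μ ℓ s a K cs θf hs hB hc hK hA hS hθ
  have h30 : Big ℓ s.B 30 := hB.mono (by omega)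
  by_cases h2 : s.B ≤ Ht s.B (E2 ℓ s K) (E2 ℓ s K)
  swap
  · obtain ⟨e1, e2⟩ := ENGy.easy hGABC hs hc a K (θf 0) 2 (Or.inl rfl) (by simpa [Ed] using h2)
    exact Or.inr ⟨_, e1, e2, fun _ => rfl, fun e => by simp only at e; omega⟩
  by_cases h3 : s.B ≤ Ht s.B (E3 ℓ s K) (E3 ℓ s K)
  swap
  · obtain ⟨e1, e2⟩ := ENGy.easy hGABC hs hc a K (θf 0) 3 (Or.inr rfl) (by simpa [Ed] using h3)
    exact Or.inr ⟨_, e1, e2, fun _ => rfl, fun e => by simp only at e; omega⟩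
  by_cases h4 : (∃ j, ¬ Triv ℓ s.B (a j)) ∧ ∃ c ∈ cs, θf c ∉ Tr ℓ s.B
  · obtain ⟨hj, c, hc', hn⟩ := h4
    have h0 := hθ c hc' (hHCK ℓ s a K c hs h30 hK hj (hA c hc'))
    obtain ⟨ρ, rfl, e2, e3, e4⟩ := hPQ μ ℓ s a K (θf c) c hs hB hc hj h0.1 hn
    exact Or.inr ⟨ρ, e3, e4, fun e => by omega, fun _ => ⟨hc', h0⟩⟩
  · refine Or.inl fun z w hw => hK.mem_sp.1
      (hSTEPK ℓ s a K hs h30 hK h2 h3 (fun hj c hc z w hw => ?_) z w hw)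
    obtain ⟨c', hc', e⟩ := hS c hc
    rw [lam_congr _ _ e]
    refine Submodule.span_induction (p := fun c' _ =>
      lam ℓ (CL s) (key ℓ a) c' w ∈ Tr ℓ s.B) (fun x hx => ?_)
      (by rw [lam_zero]; exact zero_mem _) (fun x y _ _ hx hy => by
        rw [lam_add]; exact add_mem hx hy) (fun r x _ hx => by
        rw [lam_smul]; exact Submodule.smul_mem _ r hx) hc'
    have h1 : θf x ∈ Tr ℓ s.B := by
      by_contra hn
      exact h4 ⟨hj, x, hx, hn⟩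
    have h5 := hθ x hx (hHCK ℓ s a K x hs h30 hK hj (hA x hx))
    have hz := (hK.mem z w hw).1
    have := sub_mem (sub_mem (pull1_mem_Tr hz.1 hz.2.1 h1) h1) (h5.2 z w hw)
    rwa [sub_sub_cancel] at this

end Pool.Agent.P.MP_f1a348_lc.UP
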