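import Pool.Agent.P.MP_f1a348_lc.UP.EBase
import Pool.Agent.P.MP_f1a348_lc.PG.TGAIN

/-! The gain of a subalgebra after a change of basis. -/

namespace Pool.Agent.P.MP_f1a348_lc.UP

open Matrix Module Pool.Agent.P.MP_f1a348_lc.PG

namespace GQy

variable {p n : ℕ} {ℓ : Ix n → ℕ} {g : Mat p n}

theorem phi (h : Lev ℓ g) (μ : Fin 3 → ℕ) (B : Sub p n) :
    PhiS μ ℓ (B.map (cj g)) = PhiS μ ℓ B := by
  classical
  unfold PhiS
  refine Finset.sum_congr rfl fun α _ => if_congr ?_ (by rw [h.eb]) rfl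
  simp only [PG.Rep, First, h.triv, h.cb_eq_bot]

theorem ex_map (h : Lev ℓ g) (Bt : Sub p n) (η : Mat p n) (a : Ix n) :
    Ex ℓ (Bt.map (cj g)) (cj g η) a = (Ex ℓ Bt η a).map (cj g) := by
  ext C
  obtain ⟨C, rfl⟩ : ∃ D, cj g D = C := ⟨_, h.un.cj_cj' C⟩
  rw [h.un.mem_map_cj, h.un.cj_cj]
  refine and_congr ?_ ⟨fun e b hb => h.un.cj_inj ?_, ?_⟩
  · rw [← h.cj_pr a]
    simp only [← h.un.cj_mul, h.un.cj_inj.eq_iff]
    rw [h.cj_pr a]
  · simpa only [h.un.cj_mul] using e _ ⟨b, hb, rfl⟩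
  · rintro e _ ⟨b, hb, rfl⟩
    simpa only [h.un.cj_mul] using congrArg (cj g) (e b hb)

theorem cr (h : Lev ℓ g) {B Bt : Sub p n} {a : Ix n} {η : Mat p n} {df ex : ℕ} [Fact p.Prime]
    (c : Cr ℓ B Bt a η df ex) : Cr ℓ (B.map (cj g)) (Bt.map (cj g)) a (cj g η) df ex where
  mem := ⟨η, c.mem, rfl⟩
  idem := by rw [← h.un.cj_mul, c.idem]
  off b e := by
    rw [← h.cj_pr b, ← h.un.cj_mul, c.off b ((h.cb_eq_bot B a b).1 e), map_zero]
  on b e := by
    rw [← h.un.cj_one, ← map_sub, GAINx.finrank_im_cj h]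
    exact c.on b fun e' => e ((h.cb_eq_bot B a b).2 e')
  lt := c.lt
  sim x hx e h0 y hy e' := by
    have k : ∀ z, cj g η *ᵥ z = z → η *ᵥ (st g *ᵥ z) = st g *ᵥ z := fun z e => by
      rw [← h.un.cj_cj η, h.star.un.cj_mulVec, e]
    obtain ⟨b, hb, e2⟩ := c.sim _ (h.star.dg.mulVec_mem hx) (k x e)
      (fun e => h0 (by rw [← h.un.mulVec_st x, e, Matrix.mulVec_zero])) _
      (h.star.dg.mulVec_mem hy) (k y e')
    exact ⟨_, ⟨b, hb, rfl⟩, by rw [← h.un.mulVec_st x, h.un.cj_mulVec, e2, h.un.mulVec_st]⟩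
  dim := by rw [ex_map h, h.un.finrank_map_cj, c.dim]
  dvd := h.eb B a ▸ c.dvd
  corner e := by
    rintro _ ⟨x, hx, rfl⟩
    exact ⟨_, c.corner (h.eb B a ▸ e) x hx, by rw [h.un.cj_mul, h.un.cj_mul]⟩

end GQy

theorem s_GQ (p n : ℕ) [Fact p.Prime] (m : PM p n) (hGQ0 : S_GQ0 p n) (hREFX : S_REFX p n)
    (hPHI : S_PHI p n) : S_GQ p n := by
  intro μ ℓ B Bt h hBt hle
  obtain ⟨ℓ', g, B', hr, hs⟩ := hREFX ℓ Bt h.lab hBt
  have hg : Lev ℓ g := ⟨h.lab, hr.par, hr.dg⟩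
  have S : Set0 ℓ (B.map (cj (st g))) (Bt.map (cj (st g))) ℓ' B' :=
    { str := hg.star.str h
      alg := hg.star.alg hBt
      le := Submodule.map_mono hle
      ref :=
        { lab := hr.lab
          fine := hr.fine
          par := Par.one
          dg := Dg.one
          tri := by
            rintro _ ⟨b, hb, rfl⟩
            simpa only [st_one, one_mul, mul_one, cj_apply, st_st] using hr.tri b hb
          eq := by
            rw [hr.eq, ← Submodule.map_comp]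
            congr 1
            refine LinearMap.ext fun X => ?_
            simp only [LinearMap.comp_apply, cj_apply, st_one, one_mul, mul_one] }
      str' := hs }
  obtain ⟨h1, h2⟩ := hGQ0 μ ℓ ℓ' _ _ B' S
  rw [GQy.phi hg.star] at h1 h2
  rw [(hPHI μ).1 ℓ ℓ' Bt B' g h.lab hBt hr hs.sim]
  refine ⟨h1, fun a t s => (h2 a (fun t' => t ((hg.star.triv B a).1 t')) s).imp_right ?_⟩
  rintro ⟨η, df, ex, c, e⟩
  have k : ∀ S : Sub p n, (S.map (cj (st g))).map (cj g) = S := fun S => by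
    simpa only [st_st] using hg.star.un.map_cj_cj S
  have := GQy.cr hg c
  rw [k, k] at this
  exact ⟨_, df, ex, this, hg.star.eb B a ▸ e⟩

end Pool.Agent.P.MP_f1a348_lc.UP
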