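import Pool.Agent.P.MP_f1a348_lc.UP.EBase
import Pool.Agent.P.MP_f1a348_lc.PG.TGAIN0
import Pool.Agent.P.MP_f1a348_lc.PG.TPLP5

namespace Pool.Agent.P.MP_f1a348_lc.UP

open Matrix Module Pool.Agent.P.MP_f1a348_lc.PG

theorem s_GRA (p n : ℕ) [Fact p.Prime] (m : PM p n) : S_GRA p n := by
  intro ℓ B Bt a η df ex e D hB hBt hle h hD hinv h1 h2 h3
  have hd := hBt.dg η h.mem
  have hdim := GAIN0x.split h.idem hd a
  rw [h.on a (cb_refl hB.alg a)] at hdim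
  have ee : ∀ x, η *ᵥ (η *ᵥ x) = η *ᵥ x := fun x => by rw [mulVec_mulVec, h.idem]
  have pv : ∀ x ∈ Vb ℓ a, (η * pr ℓ a) *ᵥ x = η *ᵥ x := fun x hx => by
    rw [← mulVec_mulVec, mem_Vb_iff.1 hx]
  have p1 : ∀ x, (η * pr ℓ a) *ᵥ x ∈ Vb ℓ a := fun x => by
    rw [← mulVec_mulVec]; exact hd.mulVec_mem (pr_mulVec_mem a x)
  have p2 : ∀ x, η *ᵥ ((η * pr ℓ a) *ᵥ x) = (η * pr ℓ a) *ᵥ x := fun x => by
    rw [mulVec_mulVec, ← mul_assoc, h.idem]
  have pp : η * pr ℓ a * (η * pr ℓ a) = η * pr ℓ a := mat_ext fun x => by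
    rw [← mulVec_mulVec, pv _ (p1 x), p2]
  have cm : ∀ b ∈ Bt, η * b * η ∈ Bt := fun b hb => hBt.mul _ (hBt.mul _ h.mem _ hb) _ h.mem
  have c1 : ∀ (b : Mat p n) x, η *ᵥ ((η * b * η) *ᵥ x) = (η * b * η) *ᵥ x := fun b x => by
    rw [mulVec_mulVec, ← mul_assoc, ← mul_assoc, h.idem]
  have tr : ∀ x ∈ Vb ℓ a, η *ᵥ x = x → x ≠ 0 → ∀ y ∈ Vb ℓ a, η *ᵥ y = y →
      ∃ b ∈ Bt, (η * b * η) *ᵥ x = y := fun x hx e1 x0 y hy e2 => by
    obtain ⟨b, hb, e3⟩ := h.sim x hx e1 x0 y hy e2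
    exact ⟨b, hb, by rw [← mulVec_mulVec, ← mulVec_mulVec, e1, e3, e2]⟩
  refine ⟨?_, fun L hL z hz e1 e2 => ?_, fun C hC => ?_, hdim⟩
  · obtain ⟨y0, hy0, y1⟩ : ∃ y ∈ D, η *ᵥ y.1 ≠ 0 := by
      by_contra hc
      push Not at hc
      have : D.map (LinearMap.fst _ _ _) ≤ (im (1 - η) ⊓ Vb ℓ a : VS p n) := by
        rintro _ ⟨y, hy, rfl⟩
        exact ⟨mem_im.2 ⟨y.1, by simp [sub_mulVec, hc y hy]⟩, (hD y hy).1⟩
      have := Submodule.finrank_mono this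
      rw [h.on a (cb_refl hB.alg a)] at this
      omega
    have uq : ∀ z w w', (z, w) ∈ D → (z, w') ∈ D → η *ᵥ w = w → η *ᵥ w' = w' → w = w' := by
      intro z w w' k1 k2 k3 k4
      by_contra hne
      have k5 : ((0 : Vec p n), w - w') ∈ D := by simpa using D.sub_mem k1 k2
      have : (im η ⊓ Vb ℓ a : VS p n) ≤ D.comap (LinearMap.inr _ _ _) := by
        rintro x ⟨⟨y, rfl⟩, hx⟩
        obtain ⟨b, hb, e3⟩ := tr _ (hD _ k5).2 (by simp [mulVec_sub, k3, k4]) (sub_ne_zero.2 hne)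
          _ hx (ee y)
        have := hinv _ (cm b hb) _ k5
        rw [e3, mulVec_zero] at this
        exact this
      have := Submodule.finrank_mono this
      omega
    obtain ⟨κ, hκ⟩ := PLP5x.sec D
    set L := η * pr ℓ a * LinearMap.toMatrix' κ * (η * pr ℓ a) with hL
    have l1 : L * (η * pr ℓ a) = L := by rw [hL, mul_assoc, pp]
    have l2 : ∀ x, η *ᵥ (L *ᵥ x) = L *ᵥ x := fun x => by
      rw [hL, mul_assoc, ← mulVec_mulVec, p2]
    have l3 : ∀ z ∈ Vb ℓ a, η *ᵥ z = z → (z, L *ᵥ z) ∈ D := fun z hz e1 => by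
      obtain ⟨b, hb, e3⟩ := tr _ (hd.mulVec_mem (hD _ hy0).1) (ee _) y1 z hz e1
      have k1 := hκ _ (hinv _ (cm b hb) _ (hinv _ h.mem _ hy0))
      simp only [e3] at k1
      have k2 := hinv _ h.mem _ k1
      simp only [e1] at k2
      rwa [hL, ← mulVec_mulVec, ← mulVec_mulVec, pv z hz, e1, LinearMap.toMatrix'_mulVec,
        pv _ (hD _ k1).2]
    refine ⟨L, ⟨by rw [mul_assoc _ L, l1, hL, ← mul_assoc _ _ (η * pr ℓ a),
      ← mul_assoc (η * pr ℓ a), pp], fun b hb => ?_⟩, l3,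
      fun y hy => ?_⟩
    · have k0 : η * pr ℓ a * (η * b * η) = η * b * η * (η * pr ℓ a) := by
        rw [mul_assoc η, (hBt.dg _ (cm b hb)).comm_pr, ← mul_assoc, ← mul_assoc, ← mul_assoc,
          ← mul_assoc, h.idem, mul_assoc _ η η, h.idem]
      refine mat_ext fun x => ?_
      have k1 := uq _ _ _ (l3 _ ((hBt.dg _ (cm b hb)).mulVec_mem (p1 x)) (c1 b _))
        (hinv _ (cm b hb) _ (l3 _ (p1 x) (p2 x))) (l2 _) (c1 b _)
      simp only [mulVec_mulVec] at k1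
      rwa [l1, ← k0, ← mul_assoc, l1] at k1
    · rw [uq _ _ _ (hinv _ h.mem y hy) (l3 _ (hd.mulVec_mem (hD y hy).1) (ee _)) (ee _) (l2 _),
        ← pv _ (hD y hy).1, mulVec_mulVec, l1]
  · refine or_iff_not_imp_right.2 fun z0 => mat_ext fun x => ?_
    obtain ⟨b, hb, e3⟩ := tr z hz e1 z0 _ (p1 x) (p2 x)
    have l1 : L * (η * pr ℓ a) = L := by rw [← hL.1, mul_assoc, pp]
    rw [← l1, ← mulVec_mulVec, ← e3, mulVec_mulVec, hL.2 b hb, ← mulVec_mulVec, e2, mulVec_zero,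
      zero_mulVec]
  · have k1 := hC.1 η (hle h.mem)
    refine ⟨?_, fun b hb => ?_⟩
    · have k2 : η * C = η * pr ℓ a * C := by rw [mul_assoc, cb_left hC]
      have k3 : η * C = C * (η * pr ℓ a) := by
        rw [← hd.comm_pr, ← mul_assoc, cb_right hC, k1]
      rw [k2, ← mul_assoc (η * pr ℓ a), pp, ← k2, k3, mul_assoc C, pp]
    · rw [mul_assoc η C, hC.1 _ (hle (cm b hb)), ← mul_assoc, ← mul_assoc, ← mul_assoc,
        ← mul_assoc, h.idem, mul_assoc _ η η, h.idem]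

end Pool.Agent.P.MP_f1a348_lc.UP
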