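import Pool.Agent.P.MP_f1a348_lc.UP.EBase

/-! The coboundary attached to an annihilating operator, for a relation. -/

namespace Pool.Agent.P.MP_f1a348_lc.UP

open Matrix Module Pool.Agent.P.MP_f1a348_lc.PG

theorem s_HCK (p n : ℕ) [Fact p.Prime] (m : PM p n) : S_HCK p n := by
  intro ℓ s a K c hs hb hK hj hA
  have h := hs.str
  have hl := h.lab
  have hμ := (m.lamaa ℓ s a hs).1 c
  have hk : ∀ w ∈ Wt ℓ (key ℓ a), (lam ℓ (CL s) (key ℓ a) c ∘ₗ cmp ℓ (key ℓ a)) w =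
      lam ℓ (CL s) (key ℓ a) c w := fun w hw => by
    rw [LinearMap.comp_apply, mem_Wt_iff.1 hw]
  have hA' : ∀ w ∈ SpK K, (lam ℓ (CL s) (key ℓ a) c ∘ₗ cmp ℓ (key ℓ a)) w ∈ Tr ℓ s.B :=
    fun w hw => hk w (hK.sp_le hw) ▸ hA w hw
  generalize lam ℓ (CL s) (key ℓ a) c ∘ₗ cmp ℓ (key ℓ a) = μ at hμ hk hA'
  have ho := hK.onto
  choose! g hg using ho
  obtain ⟨θ, h1, h2⟩ := m.ex ℓ s.B a (fun z => μ (g z)) h hb hj
    ⟨fun z => aa_mem_Wt hl hμ _, fun z hz y hy => by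
      have z1 := u1_of_lo h hz
      have y1 := u1_of_lo h hy
      have h3 := hA' _ (hK.sub_mem (hK.mul _ _ _ _ (hg z z1) (hg y y1)) (hg _ (z1.mul hl h.alg y1)))
      rwa [map_sub, map_add, aa_pull1 hμ y1.1] at h3⟩
  have k : ∀ z w, Test ℓ s.B z → K z w → pull1 z θ - θ - μ w ∈ Tr ℓ s.B := fun z w t hw => by
    have h4 := sub_mem (h2 z t) (hA' _ (hK.sub_mem (hg z (hK.mem _ _ hw).1) hw))
    rwa [map_sub, sub_sub, add_sub_cancel] at h4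
  refine ⟨θ, h1, fun z w hw => ?_⟩
  obtain ⟨z1, w1⟩ := hK.mem _ _ hw
  rw [← hk w w1]
  refine m.rig ℓ s.B a h hb hj _ (sub_mem (sub_mem (pull1_mem_Wt hl (h.alg.dg z z1.1) h1) h1)
    (aa_mem_Wt hl hμ _)) fun τ t => ?_
  have t' := t.conj h z1.1 z1.2.1
  have u := u1_of_lo h (t.lo m.five h).1
  have u' := u1_of_lo h (t'.lo m.five h).1
  have e : z * τ * st z * z = z * τ := by rw [mul_assoc, z1.2.1.st_mul, mul_one]
  have h3 := hA' _ (hK.sub_mem (hK.mul _ _ _ _ hw (hg _ u)) (e ▸ hK.mul _ _ _ _ (hg _ u') hw))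
  have h4 := pull1_mem_Tr z1.1 z1.2.1 (k _ _ t' (hg _ u'))
  rw [map_sub, map_sub, ← pull1_mul, e, pull1_mul] at h4
  rw [map_sub, map_add, map_add, aa_pull1 hμ z1.1, aa_pull1 hμ u.1] at h3
  have h5 := add_mem (sub_mem h4 (k _ _ t (hg _ u))) h3
  convert h5 using 1
  rw [map_sub, map_sub]
  abel

end Pool.Agent.P.MP_f1a348_lc.UP
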