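import Pool.Agent.P.MP_f1a348_lc.UP.EBase
import Pool.Agent.P.MP_f1a348_lc.PG.THINV

namespace Pool.Agent.P.MP_f1a348_lc.UP

open Matrix Module Pool.Agent.P.MP_f1a348_lc.PG

open HINVx in
theorem s_HI5 (p n : ℕ) [Fact p.Prime] (m : PM p n) : S_HI5 p n := by
  intro ℓ s a θ τ r hs h1 h2
  obtain ⟨k0, k1, ψ, hd, hk⟩ := (m.dec ℓ s a hs).1 τ h1 h2
  have key : ∀ q ∈ Qs ℓ s a, ∀ y, hat ℓ s a (θ + τ) (sk (-k0) q) y =
      sr ψ (hat ℓ s a θ q (sk k1 y)) := fun q hq y => by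
    refine Prod.ext ?_ rfl
    have e : cmb (Cso ℓ s (a 2).rev (a 1)) q.2 = cmb (Cso ℓ s (a 2).rev (a 1)) (q.2 + (-k0) q.1) +
        cmb (Cso ℓ s (a 2).rev (a 1)) (k0 q.1) := by rw [← cmb_add]; simp
    rw [sr_apply]
    simp only [hat_fst, sk_apply, au_add, hd q.1 hq.1 y.1 trivial]
    rw [e, cmb_add _ y.2, add_mulVec, add_mulVec,
      show (hat ℓ s a θ q (y.1, y.2 + k1 y.1)).2 =
        fun i => ip ((Cso ℓ s (a 1).rev (a 0)).getD i.val 0 *ᵥ q.1) y.1 from rfl]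
    abel
  have hQ : ∀ q, sk (-k0) q ∈ Qs ℓ s a ↔ q ∈ Qs ℓ s a := fun q =>
    and_congr Iff.rfl (forall₂_congr fun α h => by simp [sk_apply, hk q.1 α h])
  have hr : ∀ q ∈ Qs ℓ s a, LinearMap.range (hat ℓ s a (θ + τ) (sk (-k0) q)) =
      (LinearMap.range (hat ℓ s a θ q)).map (sr ψ).toLinearMap := fun q hq => by
    rw [show hat ℓ s a (θ + τ) (sk (-k0) q) = (sr ψ).toLinearMap ∘ₗ hat ℓ s a θ q ∘ₗ
      (sk k1).toLinearMap from LinearMap.ext (key q hq), LinearMap.range_comp,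
      LinearEquiv.range_comp]
  have hL : ∀ q, sk (-k0) q ∈ Low ℓ s a (θ + τ) r ↔ q ∈ Low ℓ s a θ r := fun q =>
    (and_congr (hQ q) Iff.rfl).trans (and_congr_right fun h => by
      rw [hr q h, LinearEquiv.finrank_map_eq])
  have hU := NC.um_map (S := HS ℓ s a θ r) (S' := HS ℓ s a (θ + τ) r) (sk k1).symm (sr ψ)
    (fun U => le_antisymm (NC.img_le.2 (by
      rintro _ ⟨q', hq', rfl⟩ _ ⟨u, hu, rfl⟩
      obtain ⟨q, rfl⟩ := (sk (-k0)).surjective q'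
      have hq := (hL q).1 hq'
      refine ⟨hat ℓ s a θ q u, NC.mem_img (S := HS ℓ s a θ r) ⟨q, hq, rfl⟩ hu, ?_⟩
      rw [key q hq.1]
      simp))
      (Submodule.map_le_iff_le_comap.2 (NC.img_le.2 (by
        rintro _ ⟨q, hq, rfl⟩ u hu
        have := NC.mem_img (S := HS ℓ s a (θ + τ) r) (U := U.map (sk k1).symm.toLinearMap)
          ⟨_, (hL q).2 hq, rfl⟩ ⟨u, hu, rfl⟩
        rw [key q hq.1] at this
        simpa using this))))
  have hR' : ∀ z, sr ψ z ∈ NC.Rm (HS ℓ s a (θ + τ) r) ↔ z ∈ NC.Rm (HS ℓ s a θ r) := fun z => by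
    rw [hU.2.1, Submodule.mem_map_equiv, LinearEquiv.symm_apply_apply]
  have hU' : ∀ z, z ∈ NC.Um (HS ℓ s a (θ + τ) r) ↔ sk k1 z ∈ NC.Um (HS ℓ s a θ r) := fun z => by
    rw [hU.1, Submodule.mem_map_equiv, LinearEquiv.symm_symm]
  refine ⟨congrArg (Submodule.map t1) (Submodule.ext fun x => ?_),
    map_eq (sk k1) (fun y => and_congr (and_congr Iff.rfl Iff.rfl) (hU' y)) fun _ _ => rfl,
    map_eq (sk (-k0)).symm (fun y => ?_) fun y _ => ?_⟩
  · simpa [sr_apply] using hR' (x, 0)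
  · have e : Low ℓ s a (θ + τ) r = (sk (-k0)).toLinearMap '' Low ℓ s a θ r := by
      ext q
      obtain ⟨q, rfl⟩ := (sk (-k0)).surjective q
      rw [hL]
      exact ((sk (-k0)).injective.mem_set_image).symm
    rw [e, ← Submodule.map_span, Submodule.mem_map_equiv]
  · obtain ⟨y, rfl⟩ := (sk (-k0)).surjective y
    rw [LinearEquiv.symm_apply_apply]
    rfl

end Pool.Agent.P.MP_f1a348_lc.UP
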