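import Pool.Agent.P.MP_f1a348_lc.UP.PIf

/-!
Project UP: the test for isomorphism is correct.
-/

namespace Pool.Agent.P.MP_f1a348_lc.UP

open Matrix Module Pool.Agent.P.MP_f1a348_lc.PG
open scoped commutatorElement

namespace ISOz

variable {p n : ℕ} [Fact p.Prime] {c : Cx}

theorem alg0 (h : Ok p n c) : Alg (lab n (l0P c)) (sp (mat p n) (b0P c)) := by
  rw [h.l0P]
  exact ⟨(h.b0P _).2 Dg.one, fun a ha b hb => (h.b0P _).2 (((h.b0P _).1 ha).mul ((h.b0P _).1 hb)),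
    fun a ha => (h.b0P _).2 (((h.b0P _).1 ha).st lab_l0), fun a ha => (h.b0P _).1 ha⟩

theorem gen_top (hG : S_QGEN p n) (h : Ok p n c) : gS p n (genP c (l0P c) (b0P c)) = ⊤ := by
  obtain ⟨h1, h2⟩ := hG c (l0P c) (b0P c) h (h.l0P ▸ lab_l0) (alg0 h)
  have key : ∀ z ∈ Submonoid.closure {x | ∃ g ∈ genP c (l0P c) (b0P c), mV p n g = x},
      ∃ g ∈ gS p n (genP c (l0P c) (b0P c)), g.1 = z := by
    intro z hz
    induction hz using Submonoid.closure_induction with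
    | mem x hx =>
      obtain ⟨g, hg, rfl⟩ := hx
      obtain ⟨a, b, d⟩ := h1 g hg
      exact ⟨gD p n g, mem_gS hg, (vd_par ⟨((h.b0P _).1 a).tri lab_l0, b, d⟩).symm⟩
    | one => exact ⟨1, Subgroup.one_mem _, rfl⟩
    | mul x y _ _ hx hy =>
      obtain ⟨g, hg, rfl⟩ := hx
      obtain ⟨k, hk, rfl⟩ := hy
      exact ⟨g * k, Subgroup.mul_mem _ hg hk, rfl⟩
  refine top_le_iff.1 fun g _ => ?_
  obtain ⟨k, hk, e⟩ := key g.1 (h2 _ ⟨(h.b0P _).2 g.2.1.dg_l0, g.2.2.1, g.2.2.2⟩)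
  exact (Subtype.ext e : k = g) ▸ hk

omit [Fact p.Prime] in
theorem num (h5 : 5 ≤ p) {z : ℕ} (hz : z ≤ top n) :
    rho0 p n + rho p n * (6 * p ^ EE n * z) ≤ p ^ (EE n + 4 + 6 * (2 * n + 1)) := by
  have h1 : 2 * n + 1 ≤ p ^ (2 * n + 1) := (Nat.lt_pow_self (by omega)).le
  have h2 : top n ≤ p ^ (3 * (2 * n + 1)) := by
    rw [top, show 3 * (2 * n + 1) = 2 * n + 1 + (2 * n + 1) + (2 * n + 1) by ring, pow_add, pow_add]
    exact Nat.mul_le_mul (Nat.mul_le_mul h1 h1) h1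
  have h3 : 64 ≤ p ^ 3 := le_trans (by norm_num) (Nat.pow_le_pow_left h5 3)
  have h4 : 1 ≤ p ^ EE n := Nat.one_le_pow _ _ (by omega)
  have h6 : 1 ≤ p ^ (3 * (2 * n + 1)) := Nat.one_le_pow _ _ (by omega)
  have e : p ^ (EE n + 4 + 6 * (2 * n + 1)) =
      p ^ 3 * (p * p ^ (3 * (2 * n + 1)) * (p ^ EE n * p ^ (3 * (2 * n + 1)))) := by ring
  rw [e, rho0, rho]
  generalize p ^ (3 * (2 * n + 1)) = W at *
  generalize p ^ EE n = P at *
  have a1 : 4 * p * top n ≤ 4 * (p * W * (P * W)) := by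
    rw [mul_assoc]
    refine Nat.mul_le_mul_left _ (le_trans (Nat.mul_le_mul_left _ h2) ?_)
    exact Nat.le_mul_of_pos_right _ (Nat.mul_pos h4 h6)
  have a2 : 10 * p * top n * (6 * P * z) ≤ 60 * (p * W * (P * W)) := by
    calc 10 * p * top n * (6 * P * z) = 60 * (p * top n * (P * z)) := by ring
      _ ≤ _ := Nat.mul_le_mul_left _ (Nat.mul_le_mul (Nat.mul_le_mul_left _ h2)
        (Nat.mul_le_mul_left _ (hz.trans h2)))
  calc _ ≤ 64 * (p * W * (P * W)) := by omega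
    _ ≤ _ := Nat.mul_le_mul_right _ h3

omit [Fact p.Prime] in
theorem bud : EE n + 4 + 6 * (2 * n + 1) ≤ bud2 n := by
  simp only [EE, capE, nu, cT, bud2]; omega

end ISOz

theorem s_ISO (p n : ℕ) [Fact p.Prime] (t : TM p n) (q : TP p n) (hROOT : S_ROOT p n)
    (hSZ : S_SZ p n) (hQGEN : S_QGEN p n) (hQDEC : S_QDEC p n) (hMAIN : S_MAIN p n)
    (hMACH : S_MACH) : S_ISO p n := by
  intro c T T' h hn hT hT'
  have hG := ISOz.gen_top hQGEN h
  generalize hG0 : genP c (l0P c) (b0P c) = G at hG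
  obtain ⟨hc, hl⟩ := q.core c G G h le_rfl (by rw [hG]; exact fun _ _ _ _ => trivial)
  rw [hG] at hc
  obtain ⟨hpre, hiff⟩ := hROOT _ _ _ _ hc hT hT'
  have hd := (hQDEC c h).2.2.2.2.2.2.2 G (coreP c G G) T T' hG
  rw [← hd] at hpre hiff
  have hsz := (hSZ (stD p n (rootQ c G (coreP c G G) T T')) _ _
    (t.sec.2.2.2.2.2 _ _ (stD_lab _)).1).2.2.1
  have hbd : (stD p n (rootQ c G (coreP c G G) T T')).Bd (rho0 p n) := by
    rw [hd]
    exact ⟨(length_foD _).trans_le hl, fun j r e => by cases e⟩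
  have hnum := (ISOz.num t.pm.five hsz).trans (h.pow_le ISOz.bud)
  obtain ⟨y, k, hev, hpo, hk, -⟩ := hMAIN c h hn (EE n) le_rfl _ _ (capE n) (rho0 p n) hpre rfl hbd
    hnum
  have hr : 0 < rho p n := by
    have := t.pm.five
    rw [rho, top]; positivity
  have hk' : k ≤ c.2.2.length := by
    have := Nat.le_mul_of_pos_left
      (6 * p ^ EE n * (stD p n (rootQ c G (coreP c G G) T T')).sz) hr
    omega
  have hrun := hMACH c _ y k hev hk'
  rw [isoP, hG0, rootP, hrun, List.any_cons, List.any_nil, Bool.or_false, ← hiff _ hpo.isS]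
  rw [outD, Option.isSome_map]

end Pool.Agent.P.MP_f1a348_lc.UP
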