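import Pool.Agent.P.MP_f1a348_lc.UP.Iface

/-!
Project UP: primitive groups with a solvable intersection of non-abelian normal subgroups are small.
-/

namespace Pool.Agent.P.MP_f1a348_lc.UP

open Matrix Module Pool.Agent.P.MP_f1a348_lc.PG
open scoped commutatorElement

namespace KIDSz

open Subgroup

set_option linter.unusedSectionVars false

variable {p : ℕ} [Fact p.Prime] {G W : Type} [Group G] [Finite G] [AddCommGroup W]
  [Module (ZMod p) W] [Finite W] [Nontrivial W] {σ : G →* Module.End (ZMod p) W}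
  {K L M : Subgroup G}

/-- the standing hypotheses: a faithful primitive representation of a large group -/
structure Hy (σ : G →* Module.End (ZMod p) W) : Prop where
  fld : PX.S_FLD p
  gal : PX.S_GAL p
  n0 : S_N0 p
  sch : S_SCH p
  so1 : S_SO1 p
  inj : Function.Injective σ
  irr : PX.Irr ⊤ σ
  bal : ¬ Bal ⊤ σ
  big : ¬ Nat.card G ≤ p ^ (12 * finrank (ZMod p) W)

instance finEnd : Finite (Module.End (ZMod p) W) := DFunLike.finite _

theorem rp (K : Subgroup G) : PX.Rp K σ := ⟨map_one σ, fun a _ b _ => map_mul σ a b⟩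

theorem nm (K : Subgroup G) [h : K.Normal] : Nm ⊤ K := fun g _ k hk => h.conj_mem k hk g

theorem env {a : G} (ha : a ∈ K) : σ a ∈ PX.Env p K σ := Submodule.subset_span ⟨a, ha, rfl⟩

theorem cen (hi : Function.Injective σ) {g : G} :
    g ∈ centralizer (K : Set G) ↔ σ g ∈ PX.Cm (PX.Env p K σ) := by
  refine ⟨fun h z hz => ?_, fun h a ha => hi ?_⟩
  · induction hz using Submodule.span_induction with
    | mem x hx =>
      obtain ⟨a, ha, rfl⟩ := hx
      rw [← map_mul, ← map_mul, h a ha]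
    | zero => simp
    | add x y _ _ hx hy => rw [mul_add, add_mul, hx, hy]
    | smul c x _ hx => rw [mul_smul_comm, smul_mul_assoc, hx]
  · rw [map_mul, map_mul, h _ (env ha)]

theorem ab_mono (h : K ≤ L) (e : ⁅L, L⁆ = ⊥) : ⁅K, K⁆ = ⊥ :=
  le_bot_iff.1 ((commutator_mono h h).trans e.le)

theorem three (h : ⁅L, M⁆ ≤ centralizer (M : Set G)) : L ≤ centralizer (⁅M, M⁆ : Subgroup G) := by
  rw [← commutator_eq_bot_iff_le_centralizer] at h ⊢
  rw [commutator_comm]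
  exact commutator_commutator_eq_bot_of_rotate (by rwa [commutator_comm M L]) h

omit [Finite G] in
theorem der_map {G' : Type} [Group G'] (f : G →* G') (k : ℕ) (Y : Subgroup G) :
    der k (Y.map f) = (der k Y).map f := by
  induction k with
  | zero => rfl
  | succ k ih => rw [der, der, ih, map_commutator]

variable (h : Hy σ)
include h

theorem Hy.ab_of {Z : Submodule (ZMod p) (Module.End (ZMod p) W)} (hZ : PX.Div Z 1)
    (hK : ∀ a ∈ K, σ a ∈ Z) : ⁅K, K⁆ = ⊥ := by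
  refine commutator_eq_bot_iff_le_centralizer.2 fun a ha b hb => h.inj ?_
  rw [map_mul, map_mul, (h.fld _ Z 1 hZ).1 _ (hK a ha) _ (hK b hb)]

theorem Hy.dich (K : Subgroup G) [K.Normal] : PX.Irr K σ ∨ PX.Div (PX.Env p K σ) 1 :=
  (h.n0 G W ⊤ K σ (rp _) h.irr le_top (nm K)).resolve_left h.bal

theorem Hy.gal' [K.Normal] (hK : PX.Div (PX.Env p K σ) 1) :
    ⁅(⊤ : Subgroup G), ⊤⁆ ≤ centralizer (K : Set G) ∧
      (centralizer (K : Set G)).index ≤ max 1 (finrank (ZMod p) (PX.Env p K σ)) := by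
  rw [← relIndex_top_right]
  exact h.gal G _ ⊤ _ σ _ 1 (rp _) hK
    (fun g hg => ((h.sch G W K σ (rp _)).2.2.2 ⊤ (rp _) le_top (nm K) g hg).1)
    fun g => (cen h.inj).trans ⟨fun e => ⟨trivial, e⟩, fun e => e.2⟩

/-- abelian normal subgroups are centralised by the derived group -/
theorem Hy.star [K.Normal] (e : ⁅K, K⁆ = ⊥) : ⁅(⊤ : Subgroup G), ⊤⁆ ≤ centralizer (K : Set G) := by
  refine (h.gal' ((h.dich K).elim (fun i => (h.sch G W K σ (rp _)).2.2.1 i fun a ha b hb => ?_)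
    id)).1
  rw [← map_mul, ← map_mul, commutator_eq_bot_iff_le_centralizer.1 e hb a ha]

theorem Hy.irr' [K.Normal] (e : ⁅K, K⁆ ≠ ⊥) : PX.Irr K σ :=
  (h.dich K).resolve_right fun d => e (h.ab_of d fun _ => env)

/-- non-abelian normal subgroups have abelian centralisers -/
theorem Hy.star2 [K.Normal] (e : ⁅K, K⁆ ≠ ⊥) (hL : L ≤ centralizer (K : Set G)) : ⁅L, L⁆ = ⊥ :=
  h.ab_of ((h.sch G W K σ (rp _)).1 (h.irr' e)) fun _ ha => (cen h.inj).1 (hL ha)

theorem Hy.nil [M.Normal] (i : PX.Irr M σ) : ¬ M ≤ centralizer (⁅M, M⁆ : Subgroup G) := fun e => by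
  refine h.big ?_
  rw [← index_bot, ← relIndex_top_right]
  refine h.so1 G W ⊤ M ⊥ σ (rp _) le_top (nm M) i (fun a ha b hb c hc => ?_) fun g _ e =>
    h.inj (e.trans (map_one σ).symm)
  rw [← map_mul, ← map_mul, e hc _ (commutator_mem_commutator ha hb)]

theorem Hy.one [M.Normal] (hM : M ≤ ⁅(⊤ : Subgroup G), ⊤⁆) (e : ⁅M, M⁆ ≠ ⊥) :
    ⁅⁅M, M⁆, ⁅M, M⁆⁆ ≠ ⊥ := fun e' => h.nil (h.irr' e) (hM.trans (h.star e'))

theorem Hy.top : ⁅⁅(⊤ : Subgroup G), (⊤ : Subgroup G)⁆, ⁅(⊤ : Subgroup G), (⊤ : Subgroup G)⁆⁆ ≠ ⊥ := by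
  intro e
  rw [commutator_eq_bot_iff_le_centralizer] at e
  set M := centralizer ((⁅(⊤ : Subgroup G), ⊤⁆ : Subgroup G) : Set G) with hM
  obtain i | d := h.dich M
  · exact h.nil i (centralizer_le (commutator_mono le_top le_top))
  have h1 := (h.sch G W M σ (rp _)).2.1 _ d
  have h2 := (h.gal' d).2
  have h3 : Nat.card (centralizer (M : Set G)) ≤ Nat.card (PX.Env p M σ) :=
    Nat.card_le_card_of_injective (fun g => ⟨σ g, env (centralizer_le e g.2)⟩)
      fun a b hab => Subtype.ext (h.inj (congrArg Subtype.val hab))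
  rw [Module.natCard_eq_pow_finrank (K := ZMod p) (V := PX.Env p M σ), Nat.card_zmod] at h3
  have h4 : 0 < finrank (ZMod p) W := Module.finrank_pos
  have h5 : 1 < p := (Fact.out : p.Prime).one_lt
  refine h.big ?_
  rw [← index_mul_card (centralizer (M : Set G)),
    show 12 * finrank (ZMod p) W = 11 * finrank (ZMod p) W + finrank (ZMod p) W by ring, pow_add]
  refine Nat.mul_le_mul ?_ (h3.trans (Nat.pow_le_pow_right h5.le h1))
  have := Nat.lt_pow_self (n := 11 * finrank (ZMod p) W) h5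
  omega

theorem Hy.two [L.Normal] [M.Normal] (hM : M ≤ ⁅(⊤ : Subgroup G), ⊤⁆) (e : ⁅L, L⁆ ≠ ⊥)
    (e' : ⁅M, M⁆ ≠ ⊥) : ⁅⁅L, M⁆, ⁅L, M⁆⁆ ≠ ⊥ := fun e'' =>
  h.one hM e' (h.star2 e (le_centralizer_iff.1 (three (le_centralizer_iff.1
    (hM.trans (h.star e''))))))

theorem Hy.three' [L.Normal] (e : ⁅L, L⁆ ≠ ⊥) : ⁅⁅L, L⁆, ⁅L, L⁆⁆ ≠ ⊥ := fun e' => by
  have h1 : ⁅L ⊓ ⁅(⊤ : Subgroup G), ⊤⁆, L ⊓ ⁅(⊤ : Subgroup G), ⊤⁆⁆ = ⊥ := by
    by_contra h1
    exact h.one inf_le_right h1 (ab_mono (commutator_mono inf_le_left inf_le_left) e')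
  exact e (h.star2 (h.one le_rfl h.top) (three ((commutator_le_inf _ _).trans
    (le_centralizer_iff.1 (h.star h1)))))

theorem Hy.der' [hL : L.Normal] (e : ⁅L, L⁆ ≠ ⊥) (k : ℕ) :
    (der k L).Normal ∧ ⁅der k L, der k L⁆ ≠ ⊥ := by
  induction k with
  | zero => exact ⟨hL, e⟩
  | succ k ih =>
    have := ih.1
    exact ⟨commutator_normal _ _, h.three' ih.2⟩

theorem Hy.fold {Γ : Type} [Group Γ] (π : Γ →* G) (hπ : Function.Surjective π)
    (S : List (Subgroup Γ)) (hS : ∀ K ∈ S, K.Normal ∧ ⁅K.map π, K.map π⁆ ≠ ⊥) :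
    ∃ J : Subgroup Γ, J.Normal ∧ (∀ K ∈ S, J ≤ K) ∧ J.map π ≤ ⁅(⊤ : Subgroup G), ⊤⁆ ∧
      ⁅J.map π, J.map π⁆ ≠ ⊥ := by
  induction S with
  | nil =>
    have e : Subgroup.map π ⁅(⊤ : Subgroup Γ), (⊤ : Subgroup Γ)⁆ =
        ⁅(⊤ : Subgroup G), (⊤ : Subgroup G)⁆ := by
      rw [map_commutator, map_top_of_surjective π hπ]
    exact ⟨_, commutator_normal ⊤ ⊤, by simp, e.le, e ▸ h.top⟩
  | cons K S ih =>
    obtain ⟨J, n1, h1, h2, h3⟩ := ih fun K hK => hS K (List.mem_cons_of_mem _ hK)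
    obtain ⟨n2, h4⟩ := hS K List.mem_cons_self
    have := n1.map π hπ
    have := n2.map π hπ
    refine ⟨⁅K, J⁆, inferInstance, fun K' hK' => ?_, ?_, ?_⟩
    · rcases List.mem_cons.1 hK' with rfl | hK'
      · exact commutator_le_left _ _
      · exact (commutator_le_right _ _).trans (h1 K' hK')
    · rw [map_commutator]
      exact commutator_mono le_top le_top
    · rw [map_commutator]
      exact h.two h2 h4 h3

end KIDSz

open KIDSz Subgroup in
theorem s_KIDS (p : ℕ) [Fact p.Prime] (hp : 5 ≤ p) (hSOL : S_SOL) (hFLD : PX.S_FLD p)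
    (hGAL : PX.S_GAL p) (hN0 : S_N0 p) (hSCH : S_SCH p) (hSO1 : S_SO1 p) : S_KIDS p := by
  intro Γ W _ _ _ _ _ _ H N J σ L hr hi hb hN hL hJ ⟨k, hk⟩
  have _ := hp
  by_contra hc
  let φ : H →* Module.End (ZMod p) W :=
    ⟨⟨fun g => σ g, hr.one⟩, fun a b => hr.mul _ a.2 _ b.2⟩
  have e : N.subgroupOf H = φ.ker := Subgroup.ext fun g => hN g g.2
  have : (N.subgroupOf H).Normal := e ▸ φ.normal_ker
  let π := QuotientGroup.mk' (N.subgroupOf H)
  have hπ : Function.Surjective π := QuotientGroup.mk'_surjective _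
  let τ := QuotientGroup.lift (N.subgroupOf H) φ e.le
  have hτ : ∀ g : H, τ (π g) = σ g := fun _ => rfl
  have h : Hy τ := by
    refine ⟨hFLD, hGAL, hN0, hSCH, hSO1, (injective_iff_map_eq_one τ).2 fun g hg => ?_,
      fun U hU => hi U fun g hg => hU (π ⟨g, hg⟩) trivial, fun ⟨v, U, hU, hm⟩ =>
        hb ⟨v, U, fun g hg => hU (π ⟨g, hg⟩) trivial, hm⟩, hc⟩
    obtain ⟨g, rfl⟩ := hπ g
    exact (QuotientGroup.eq_one_iff g).2 ((hN g g.2).2 hg)
  obtain ⟨J1, n1, h1, -, h2⟩ := h.fold π hπ (L.map fun K => K.subgroupOf H) fun K' hK' => by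
    obtain ⟨K, hK, rfl⟩ := List.mem_map.1 hK'
    obtain ⟨h3, a, ha, b, hb, h4⟩ := hL K hK
    refine ⟨⟨fun x hx g => h3 g g.2 x hx⟩, fun e' => h4 ?_⟩
    have := congrArg τ (commutator_eq_bot_iff_le_centralizer.1 e'
      (mem_map_of_mem π (x := ⟨b, hb.1⟩) hb.2) _ (mem_map_of_mem π (x := ⟨a, ha.1⟩) ha.2))
    rwa [map_mul, map_mul] at this
  have := n1.map π hπ
  refine (h.der' h2 k).2 (le_bot_iff.1 ((commutator_mono ?_ le_top).trans
    (commutator_bot_left ⊤).le))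
  rw [der_map]
  rintro _ ⟨g, hg, rfl⟩
  refine (QuotientGroup.eq_one_iff g).2 (hk ((hSOL Γ).2.1 k (J1.map H.subtype) _ ?_ ?_))
  · rintro _ ⟨x, hx, rfl⟩
    exact ⟨x.2, hJ _ fun K hK => h1 _ (List.mem_map_of_mem hK) hx⟩
  · rw [der_map]
    exact mem_map_of_mem _ hg

end Pool.Agent.P.MP_f1a348_lc.UP
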