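import Pool.Agent.P.MP_f1a348_lc.UP.Iface

/-! The leaves. -/

namespace Pool.Agent.P.MP_f1a348_lc.UP

open Matrix Module Pool.Agent.P.MP_f1a348_lc.PG
open scoped commutatorElement

namespace LEAFz

theorem sub {p : ℕ} [Fact p.Prime] {Γ : Type} [Group Γ] {Y : Subgroup Γ} (h : PP p Y) {X : Type}
    [AddCommGroup X] [Module (ZMod p) X] (P : Submodule (ZMod p) X) (f : Γ → X)
    (hf : ∀ a ∈ Y, ∀ b ∈ Y, f (a * b) - (f a + f b) ∈ P) {a : Γ} (ha : a ∈ Y) : f a ∈ P := by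
  by_contra hc
  obtain ⟨φ, h1, h2⟩ := P.exists_dual_map_eq_bot_of_notMem hc inferInstance
  have h3 : ∀ x ∈ P, φ x = 0 := fun x hx => by
    have : φ x ∈ P.map φ := ⟨x, hx, rfl⟩
    rwa [h2, Submodule.mem_bot] at this
  refine h1 (h (fun z => φ (f z)) (fun a ha b hb => ?_) a ha)
  have := h3 _ (hf a ha b hb)
  rwa [map_sub, map_add, sub_eq_zero] at this

end LEAFz

theorem s_LEAF (p n : ℕ) [Fact p.Prime] (t : TM p n) (hUNC : S_UNC p n) : S_LEAF p n := by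
  intro s EG H Y F φ h0 hS hsp hH hφ hC
  obtain ⟨hA, hE, hmono, -⟩ := t.env.1 s.X
  refine hUNC s EG H Y F φ h0 hS hH hφ hC
    (t.coref _ Y _ hA ?_ ((t.core H _ inf_le_left).2.2 Y F hC))
  obtain ⟨-, -, -, -, -, -, c1, c2, -, c3, -, -, c4, -⟩ := t.coc s h0
  obtain ⟨l1, -, l2, l3, -⟩ := t.leaf1 s h0
  have hN : s.N1 ≤ s.G := inf_le_left
  obtain ⟨f, ℓ, -, hF⟩ := (t.cfx (Env s.X) s.f s.ℓ h0.lab
    fun x hx => h0.tri x (hmono _ h0.le hx)).2.2 hA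
  obtain ⟨-, r1, r2⟩ := t.rad _ f ℓ hA hF.lab hF.tri
  have radd : ∀ x ∈ Rad (Env s.X), ∀ y ∈ Rad (Env s.X), x + y ∈ Rad (Env s.X) :=
    fun x hx y hy => r1 _ (add_mem hx.1 hy.1) (by
      rw [map_add, map_add, (r2 hF).2 x hx, (r2 hF).2 y hy, add_zero])
  have step : ∀ g ∈ s.X, ∀ (u : GG p n) x, u.1 - 1 ∈ Rad (Env s.X) → g.1 - x ∈ Rad (Env s.X) →
      (g * u).1 - x ∈ Rad (Env s.X) := fun g hg u x hu hx => by
    have := radd _ ((t.env.2.2.2.1 _ hA).2.1 _ hu _ (hE g hg)).1 _ hx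
    rwa [mul_sub, mul_one, sub_add_sub_cancel] at this
  have one : (1 : GG p n).1 - 1 ∈ Rad (Env s.X) :=
    r1 _ (sub_mem hA.one hA.one) (by rw [val_one, sub_self, map_zero, map_zero])
  let S : Submodule (ZMod p) (Frm p n) :=
    Submodule.span (ZMod p) {w | ∃ u ∈ s.X ⊓ s.N1, s.kp u = w}
  have k1 : ∀ w ∈ S, ∃ u ∈ s.X ⊓ s.N1, u.1 - 1 ∈ Rad (Env s.X) ∧ s.kp u = w := fun w hw => by
    induction hw using Submodule.span_induction with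
    | mem w hw =>
      obtain ⟨y, hy, rfl⟩ := hw
      obtain ⟨z, hz, h1⟩ := (t.locst s h0 hS).2.1 y hy
      obtain ⟨o1, o2, -⟩ := (t.op _).1 (s.X ⊓ s.N1)
      have h2 := mul_mem (inv_mem (o1 hz)) hy
      have h3 := l2 z (hN (o1 hz).2) _ h2.2
      rw [mul_inv_cancel_left, c4 _ (o1.trans inf_le_right) o2 z hz, zero_add] at h3
      exact ⟨_, h2, h1, h3.symm⟩
    | zero => exact ⟨1, one_mem _, one, c2⟩
    | add w w' _ _ ih ih' =>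
      obtain ⟨u, u1, u2, rfl⟩ := ih
      obtain ⟨v, v1, v2, rfl⟩ := ih'
      exact ⟨u * v, mul_mem u1 v1, step u u1.1 v 1 v2 u2, l2 u (hN u1.2) v v1.2⟩
    | smul c w _ ih =>
      obtain ⟨u, u1, u2, rfl⟩ := ih
      refine ⟨u ^ c.val, pow_mem u1 _, ?_, by rw [l3 u u1.2, ZMod.natCast_zmod_val]⟩
      induction c.val with
      | zero => rwa [pow_zero]
      | succ k ih => rw [pow_succ]; exact step _ (pow_mem u1.1 k) u 1 u2 ih
  have k2 : ∀ g ∈ s.X, s.kp g ∈ S := fun g hg => LEAFz.sub h0.stable.1 S s.kp (fun a ha b hb => by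
    obtain ⟨m, hm, e⟩ := l1 _ (hsp a (h0.le ha))
    have hb' := h0.le hb
    have m1 : b⁻¹ * m * b ∈ s.N1 := by simpa using c3 b⁻¹ (inv_mem hb') m hm
    have m2 : b⁻¹ * (m * b * m⁻¹) ∈ s.X ⊓ s.N1 :=
      ⟨s.X.mul_mem (s.X.inv_mem hb) (h0.nm m (hN hm) b hb), by
        rw [← mul_assoc, ← mul_assoc]
        exact s.N1.mul_mem m1 (s.N1.inv_mem hm)⟩
    have e1 := ((c1 m (hN hm)).2.2.2.2.2 b hb').1
    have e2 := l2 b hb' _ m1
    have e3 := l2 _ (hN m2.2) m hm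
    rw [show b * (b⁻¹ * m * b) = m * b by group] at e2
    rw [show b⁻¹ * (m * b * m⁻¹) * m = b⁻¹ * m * b by group] at e3
    rw [((c1 a (h0.le ha)).2.2.2.2.2 b hb').1, ← e, ← e1, e2, e3]
    refine Submodule.subset_span ⟨_, m2, ?_⟩
    abel) hg
  refine ⟨fun g hg => hE g hg.2, fun x hx h1 h2 => ?_⟩
  obtain ⟨g, hg, h3⟩ := h0.full.2 x hx h1 h2
  obtain ⟨u, u1, u2, u3⟩ := k1 _ (neg_mem (k2 g hg))
  refine ⟨g * u, ⟨(hH _).2 ⟨mul_mem (h0.le hg) (hN u1.2), ?_⟩, mul_mem hg u1.1⟩,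
    step g hg u x u2 h3⟩
  rw [l2 g (h0.le hg) u u1.2, u3, add_neg_cancel]

end Pool.Agent.P.MP_f1a348_lc.UP
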