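import Pool.Agent.P.MP_f1a348_lc.UP.Iface

/-! Project UP: the differences on the kernel. -/

namespace Pool.Agent.P.MP_f1a348_lc.UP

open Matrix Module Pool.Agent.P.MP_f1a348_lc.PG
open scoped commutatorElement

namespace LEAF1z

variable {p n : ℕ} [Fact p.Prime] {s : St p n} {g h u : GG p n}

theorem le1 : s.N1 ≤ s.G := inf_le_left

theorem rmul {Γ : Type} [Group Γ] {G N : Subgroup Γ} (hN : Nm G N) {x a y c : Γ} (hy : y ∈ G)
    (h : x⁻¹ * a ∈ N) (h' : y⁻¹ * c ∈ N) : (x * y)⁻¹ * (a * c) ∈ N := by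
  have := mul_mem (hN _ (inv_mem hy) _ h) h'
  rwa [show y⁻¹ * (x⁻¹ * a) * y⁻¹⁻¹ * (y⁻¹ * c) = (x * y)⁻¹ * (a * c) by group] at this

theorem rinv {Γ : Type} [Group Γ] {G N : Subgroup Γ} (hN : Nm G N) {x a : Γ} (hx : x ∈ G)
    (h : x⁻¹ * a ∈ N) : x⁻¹⁻¹ * a⁻¹ ∈ N := by
  have := hN _ hx _ (inv_mem h)
  rwa [show x * (x⁻¹ * a)⁻¹ * x⁻¹ = x⁻¹⁻¹ * a⁻¹ by group] at this

variable (b : TB p n) (h0 : s.Ok0)
include b h0

theorem km (hg : g ∈ s.G) (hh : h ∈ s.G) : s.kp (g * h) = pull1 (s.lo h.1) (s.kp g) + s.kp h :=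
  (((b.coc s h0).2.2.2.2.2.2.1 g hg).2.2.2.2.2 h hh).1

theorem lo1 (hu : u ∈ s.N1) : s.lo u.1 = 1 := ((b.coc s h0).2.2.2.2.2.2.1 u (le1 hu)).2.1.1 hu

theorem k1 : s.kp 1 = 0 := (b.coc s h0).2.2.2.2.2.2.2.1

theorem nm : Nm s.G s.N1 := (b.coc s h0).2.2.2.2.2.2.2.2.2.1

theorem ka (hg : g ∈ s.G) (hu : u ∈ s.N1) : s.kp (g * u) = s.kp g + s.kp u := by
  rw [km b h0 hg (le1 hu), lo1 b h0 hu, pull1_one]

theorem kpow (hu : u ∈ s.N1) (k : ℕ) : s.kp (u ^ k) = (k : ZMod p) • s.kp u := by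
  induction k with
  | zero => rw [pow_zero, k1 b h0, Nat.cast_zero, zero_smul]
  | succ k ih => rw [pow_succ, ka b h0 (pow_mem (le1 hu) k) hu, ih, Nat.cast_succ, add_smul, one_smul]

theorem kinv (hu : u ∈ s.N1) : s.kp u⁻¹ = -s.kp u := by
  rw [eq_neg_iff_add_eq_zero, ← ka b h0 (inv_mem (le1 hu)) hu, inv_mul_cancel, k1 b h0]

theorem real {M : SG p n} (hM : M ≤ s.N1) {w : Frm p n}
    (hw : w ∈ Submodule.span (ZMod p) {w | ∃ g ∈ M, s.kp g = w}) : ∃ g ∈ M, s.kp g = w := by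
  induction hw using Submodule.span_induction with
  | mem x hx => exact hx
  | zero => exact ⟨1, one_mem _, k1 b h0⟩
  | add x y _ _ hx hy =>
    obtain ⟨g, a, rfl⟩ := hx
    obtain ⟨h, c, rfl⟩ := hy
    exact ⟨g * h, mul_mem a c, ka b h0 (le1 (hM a)) (hM c)⟩
  | smul c x _ hx =>
    obtain ⟨g, a, rfl⟩ := hx
    exact ⟨g ^ c.val, pow_mem a _, by rw [kpow b h0 (hM a), ZMod.natCast_zmod_val]⟩

theorem conj (hg : g ∈ s.G) (hu : u ∈ s.N1) :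
    g⁻¹ * u * g ∈ s.N1 ∧ pull1 (s.lo g.1) (s.kp u) = s.kp (g⁻¹ * u * g) := by
  have a : g⁻¹ * u * g ∈ s.N1 := by simpa using nm b h0 _ (inv_mem hg) u hu
  have e := ka b h0 hg a
  rw [show g * (g⁻¹ * u * g) = u * g by group, km b h0 (le1 hu) hg, add_comm] at e
  exact ⟨a, add_left_cancel e⟩

theorem inv_sp (hg : g ∈ s.G) {w : Frm p n} (hw : w ∈ s.Sp) : pull1 (s.lo g.1) w ∈ s.Sp := by
  obtain ⟨u, hu, rfl⟩ := real b h0 le_rfl hw
  exact Submodule.subset_span ⟨_, (conj b h0 hg hu).1, (conj b h0 hg hu).2.symm⟩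

theorem mul_sp (hg : g ∈ s.G) (hh : h ∈ s.G) (a : s.kp g ∈ s.Sp) (c : s.kp h ∈ s.Sp) :
    s.kp (g * h) ∈ s.Sp := by
  rw [km b h0 hg hh]; exact add_mem (inv_sp b h0 hh a) c

end LEAF1z

open LEAF1z in
theorem s_LEAF1 (p n : ℕ) [Fact p.Prime] (b : TB p n) : S_LEAF1 p n := by
  intro s h0
  have c := b.coc s h0
  refine ⟨fun w hw => real b h0 le_rfl hw, fun S hS => le_antisymm (Submodule.span_le.2 ?_)
    (Submodule.span_mono fun _ ⟨g, hg, e⟩ => ⟨g, hS ▸ Subgroup.subset_closure hg, e⟩),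
    fun g hg h hh => ka b h0 hg hh, fun h hh k => kpow b h0 hh k, fun S hS h g hg => ?_,
    fun h h' => ⟨fun _ e => (by cases e), fun _ g hg e => h' ?_⟩,
    fun g hg e => ⟨fun _ e' => ?_, fun e' => by cases e'⟩, fun S S' hS h1 h2 h3 g => ?_⟩
  · rintro _ ⟨g, hg, rfl⟩
    rw [← hS] at hg
    induction hg using Subgroup.closure_induction with
    | mem x hx => exact Submodule.subset_span ⟨x, hx, rfl⟩
    | one => rw [k1 b h0]; exact zero_mem _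
    | mul x y hx hy a a' => rw [ka b h0 (le1 (hS ▸ hx)) (hS ▸ hy)]; exact add_mem a a'
    | inv x hx a => rw [kinv b h0 (hS ▸ hx)]; exact neg_mem a
  · rw [← hS] at hg
    induction hg using Subgroup.closure_induction with
    | mem x hx => exact h x hx
    | one => rw [k1 b h0]; exact zero_mem _
    | mul x y hx hy a a' => exact mul_sp b h0 (hS ▸ hx) (hS ▸ hy) a a'
    | inv x hx a =>
      have hx' : x ∈ s.G := hS ▸ hx
      have e := km b h0 hx' (inv_mem hx')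
      rw [mul_inv_cancel, k1 b h0] at e
      rw [eq_neg_of_add_eq_zero_right e.symm]
      exact neg_mem (inv_sp b h0 (inv_mem hx') a)
  · have d := c.2.2.2.2.2.2.1 g hg
    rw [d.2.2.2.1] at e
    have a := inv_sp b h0 (inv_mem hg) (eq_neg_of_add_eq_zero_left e ▸ neg_mem (h g hg))
    rwa [val_inv, (c.2.2.2.2.1 _ ((b.env.1 _).2.1 g hg)).1, pull1_st_pull1 d.1.2.1] at a
  · cases e'
    exact ⟨le1 hg, by rw [(c.2.2.2.2.2.2.1 g (le1 hg)).2.2.2.1, lo1 b h0 hg, pull1_one, e]⟩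
  · obtain ⟨H, hH⟩ := c.2.2.2.2.2.2.2.2.2.2.2.1
    have a : Subgroup.closure S' ≤ H := (Subgroup.closure_le _).2 fun x hx => (hH x).2 (h1 x hx)
    refine ⟨fun hg => (hH g).1 (a hg), fun ⟨hg, e⟩ => ?_⟩
    have d : ∀ x ∈ Subgroup.closure S, ∃ y ∈ Subgroup.closure S', y⁻¹ * x ∈ s.N1 := fun x hx => by
      induction hx using Subgroup.closure_induction with
      | mem x hx =>
        obtain ⟨u, a, a'⟩ := h2 x hx
        exact ⟨_, a', by simpa using a⟩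
      | one => exact ⟨1, one_mem _, by simp⟩
      | mul x y _ _ i j =>
        obtain ⟨u, i, i'⟩ := i
        obtain ⟨v, j, j'⟩ := j
        exact ⟨_, mul_mem i j, rmul (nm b h0) ((hH v).1 (a j)).1 i' j'⟩
      | inv x _ i =>
        obtain ⟨u, i, i'⟩ := i
        exact ⟨_, inv_mem i, rinv (nm b h0) ((hH u).1 (a i)).1 i'⟩
    obtain ⟨y, i, j⟩ := d g (hS ▸ hg)
    have := mul_mem i (h3 _ j ((hH _).1 (mul_mem (inv_mem (a i)) ((hH g).2 ⟨hg, e⟩))).2)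
    rwa [mul_inv_cancel_left] at this

open LEAF1z in
theorem s_REL (p n : ℕ) [Fact p.Prime] (b : TB p n) : S_REL p n := by
  intro s H D h0 hH hD h y hy
  have hG : H ≤ s.G := fun g hg => ((hH g).1 hg).1
  let D0 : SG p n := sg (fun a => ∃ x ∈ H ⊓ s.X, x⁻¹ * a ∈ s.N1) ⟨1, one_mem _, by simp⟩
    fun a c ⟨x, i, i'⟩ ⟨z, j, j'⟩ => ⟨_, mul_mem i j, rmul (nm b h0) (hG j.1) i' j'⟩
  let X' : SG p n := sg (fun x => x ∈ s.X ∧ s.kp x ∈ s.Sp)
    ⟨one_mem _, by rw [k1 b h0]; exact zero_mem _⟩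
    fun a c i j => ⟨mul_mem i.1 j.1, mul_sp b h0 (h0.le i.1) (h0.le j.1) i.2 j.2⟩
  let S := Submodule.span (ZMod p) {w | ∃ g ∈ s.X ⊓ s.N1, s.kp g = w}
  have hom : ∀ x ∈ X', ∀ z ∈ s.X, S.mkQ (s.kp (x * z)) = S.mkQ (s.kp x) + S.mkQ (s.kp z) :=
    fun x hx z hz => by
      obtain ⟨u, hu, e⟩ := real b h0 le_rfl hx.2
      obtain ⟨c1, c2⟩ := conj b h0 (h0.le hz) hu
      rw [km b h0 (h0.le hx.1) (h0.le hz), map_add, ← e, c2, add_left_inj, Submodule.mkQ_apply,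
        Submodule.mkQ_apply, Submodule.Quotient.eq, sub_eq_add_neg, ← kinv b h0 hu,
        ← ka b h0 (le1 c1) (inv_mem hu)]
      refine Submodule.subset_span ⟨_, ⟨?_, s.N1.mul_mem c1 (inv_mem hu)⟩, rfl⟩
      have := mul_mem (inv_mem hz) (h0.nm u (le1 hu) z hz)
      rwa [← mul_assoc, ← mul_assoc] at this
  have mem : ∀ a ∈ D, ∃ x ∈ X', x⁻¹ * a ∈ s.N1 := fun a ha => by
    obtain ⟨x, i, j⟩ := h a ha
    have e := ka b h0 (h0.le i) j
    rw [mul_inv_cancel_left, ((hH a).1 (hD ha)).2] at e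
    exact ⟨x, ⟨i, eq_neg_of_add_eq_zero_left e.symm ▸
      neg_mem (Submodule.subset_span ⟨_, j, rfl⟩)⟩, j⟩
  have le : ⁅D, D⁆ ≤ D0 := Subgroup.commutator_le.2 fun a ha c hc => by
    obtain ⟨x, i, i'⟩ := mem a ha
    obtain ⟨z, j, j'⟩ := mem c hc
    have k : ⁅x, z⁆ ∈ X' := mul_mem (mul_mem (mul_mem i j) (inv_mem i)) (inv_mem j)
    have e := hom _ k _ (mul_mem j.1 i.1)
    rw [show ⁅x, z⁆ * (z * x) = x * z by rw [commutatorElement_def]; group, hom x i z j.1,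
      hom z j x i.1, add_comm, right_eq_add, Submodule.mkQ_apply,
      Submodule.Quotient.mk_eq_zero] at e
    obtain ⟨v, hv, e'⟩ := real b h0 inf_le_right (neg_mem e)
    have r : ⁅x, z⁆⁻¹ * ⁅a, c⁆ ∈ s.N1 :=
      rmul (nm b h0) (inv_mem (h0.le j.1)) (rmul (nm b h0) (inv_mem (h0.le i.1))
        (rmul (nm b h0) (h0.le j.1) i' j') (rinv (nm b h0) (h0.le i.1) i'))
        (rinv (nm b h0) (h0.le j.1) j')
    refine ⟨⁅x, z⁆ * v, ⟨(hH _).2 ⟨mul_mem (h0.le k.1) (le1 hv.2), ?_⟩, mul_mem k.1 hv.1⟩, ?_⟩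
    · rw [ka b h0 (h0.le k.1) hv.2, e', add_neg_cancel]
    · rw [_root_.mul_inv_rev, mul_assoc]
      exact mul_mem (inv_mem hv.2) r
  obtain ⟨x, i, j⟩ := le hy
  exact ⟨x, i, H.mul_mem (H.inv_mem i.1) (hD (b.sol _ |>.1 1 D hy)), j⟩

end Pool.Agent.P.MP_f1a348_lc.UP
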