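import Pool.Agent.P.MP_f1a348_lc.UP.EBase

namespace Pool.Agent.P.MP_f1a348_lc.UP

open Matrix Module Pool.Agent.P.MP_f1a348_lc.PG

theorem s_LIFK (p n : ℕ) [Fact p.Prime] (_m : PM p n) (hSTEPK : S_STEPK p n) (hHCK : S_HCK p n)
    (hNA23 : S_NA23 p n) : S_LIFK p n := by
  intro ℓ B a K Y hB hb hK hY h0 hs h1
  obtain ⟨s, rfl, hg⟩ := exists_good hB
  have h2 := fun y hy => hNA23 ℓ s _ K 0 0 y hg hK (zero_mem _) (h0 y hy) (by simp)
  simp only [sft_zero] at h2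
  have h3 := fun y hy => (hK.mem _ _ (h0 y hy)).1
  have h4 : ∀ D, (∀ y ∈ Y, D = D.map (act y)) → s.B ≤ Ht s.B D D := fun D e =>
    hs.symm.le.trans (Submodule.span_le.2 fun y hy => by
      have := mem_Ht_of_map (D := D) (h3 y hy).1 (h3 y hy).2.1
      rwa [← e y hy] at this)
  refine fun z w hw => hK.mem_sp.1 (hSTEPK ℓ s a K hg hb hK (h4 _ fun y hy => (h2 y hy).1)
    (h4 _ fun y hy => (h2 y hy).2) (fun ht c hc z w hw => ?_) z w hw)
  obtain ⟨θ, t1, t2⟩ := hHCK ℓ s a K c hg hb hK ht hc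
  have t3 := h1 ht θ t1 fun y hy => by simpa using t2 y 0 (h0 y hy)
  have hz := (hK.mem _ _ hw).1
  simpa using sub_mem (sub_mem (pull1_mem_Tr hz.1 hz.2.1 t3) t3) (t2 z w hw)

end Pool.Agent.P.MP_f1a348_lc.UP
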