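import Pool.Agent.P.MP_f1a348_lc.UP.LT3

/-!
Project UP: the stabiliser of the form on a box is full in the preimage of the local algebra of
the normal closure.
-/

namespace Pool.Agent.P.MP_f1a348_lc.UP

open Matrix Module Pool.Agent.P.MP_f1a348_lc.PG

set_option linter.unusedSectionVars false

namespace LT

variable {p n : ℕ} [Fact p.Prime] (t : TB p n) {s : St p n} {g : GG p n} {ℓ : Ix n → ℕ}

/-- the difference in the frame `g` -/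
noncomputable def Wd (s : St p n) (g y : GG p n) : Frm p n := pull1 g.1 (pull1 y.1 s.T - s.T)

theorem grp (Y : SG p n) : Grp {x | ∃ y ∈ Y, y.1 = x} where
  one := ⟨1, Y.one_mem, rfl⟩
  mul := by
    rintro _ ⟨y, hy, rfl⟩ _ ⟨z, hz, rfl⟩
    exact ⟨y * z, Y.mul_mem hy hz, rfl⟩
  un := by
    rintro _ ⟨y, -, rfl⟩
    exact y.2.2.1
  star := by
    rintro _ ⟨y, hy, rfl⟩
    exact ⟨y⁻¹, Y.inv_mem hy, rfl⟩

theorem Fine.eq {f : GG p n} {l : Ix n → ℕ} (h : Fine f l g ℓ) {α β : Ix n} (e : ℓ α = ℓ β) :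
    l α = l β := le_antisymm (h.fine _ _ e.le) (h.fine _ _ e.ge)

theorem low_sub (hf : Fine s.f s.ℓ g ℓ) {w : Frm p n} (hw : w ∈ Lowr s.ℓ s.a) {k : ℕ}
    (hb : s.Bel ℓ k w) {b : Fin 3 → Ix n} (h1 : ∀ j, s.ℓ (b j) = s.ℓ (s.a j)) (h2 : key ℓ b ≤ k) :
    w ∈ Lowr ℓ b := fun i a1 a2 => by
  have a3 : ∀ j, s.ℓ (i j) ≤ s.ℓ (s.a j) := fun j => h1 j ▸ hf.fine _ _ (a1 j)
  by_cases e : ∀ j, s.ℓ (i j) = s.ℓ (s.a j)
  · refine hb i e (lt_of_lt_of_le (lt_of_le_of_ne (key_le a1) fun e2 => ?_) h2)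
    obtain ⟨j, hj⟩ := a2
    exact hj.ne ((key_eq_iff hf.lab').1 e2 j)
  · obtain ⟨j, hj⟩ := not_forall.1 e
    exact hw i a3 ⟨j, lt_of_le_of_ne (a3 j) hj⟩

theorem cmp_zero (hf : Fine s.f s.ℓ g ℓ) {w : Frm p n} {k : ℕ} (hb : s.Bel ℓ k w)
    {b : Fin 3 → Ix n} (h1 : ∀ j, s.ℓ (b j) = s.ℓ (s.a j)) (h2 : key ℓ b < k) :
    cmp ℓ (key ℓ b) w = 0 := funext fun i => by
  rw [cmp_apply]
  split_ifs with e
  · exact hb i (fun j => (Fine.eq hf ((key_eq_iff hf.lab').1 e j)).trans (h1 j)) (e ▸ h2)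
  · rfl

include t

theorem bel_pull (hf : Fine s.f s.ℓ g ℓ) {w : Frm p n} (hw : w ∈ Lowr s.ℓ s.a) {k : ℕ}
    (hb : s.Bel ℓ k w) {u : Mat p n} (hu : Tri ℓ u) : s.Bel ℓ k (pull1 u w) := fun i h1 h2 => by
  have := congrFun ((t.low ℓ i u w hf.lab' hu).1 (low_sub hf hw hb h1 h2.le)).2 i
  rwa [cmp_zero hf hb h1 h2, map_zero, cmp_apply, if_pos rfl] at this

theorem Wd_mul (y z : GG p n) : Wd s g (y * z) = pull1 (fr g z.1) (Wd s g y) + Wd s g z := by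
  simp only [Wd, val_mul, map_sub, ← pull1_mul, mul_assoc, (t.env.2.1 g z.1 z.1).2.2.2.2.2.2]
  abel

omit t in
theorem Wd_one : Wd s g 1 = 0 := by simp [Wd]

omit t in
theorem Wd_eq (y : GG p n) : Wd s g y = pull1 (s.f⁻¹ * g).1 (Wd s s.f y) := by
  simp only [Wd]
  rw [← pull1_mul, ← val_mul, mul_inv_cancel_left]

theorem Wd_low (h : s.Ok0) (hf : Fine s.f s.ℓ g ℓ) {y : GG p n} (hy : y ∈ s.G) :
    Wd s g y ∈ Lowr s.ℓ s.a :=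
  Wd_eq y ▸ ((t.low _ _ _ _ h.lab (hf.dg.tri h.lab)).1 (h.low y hy)).1

omit t in
theorem kp_iff (hf : Fine s.f s.ℓ g ℓ) (y : GG p n) :
    s.kp y = 0 ↔ s.Bel ℓ (top n) (Wd s g y) := by
  have e : cmp s.ℓ (key s.ℓ s.a) (Wd s g y) = pull1 (s.f⁻¹ * g).1 (s.kp y) := by
    rw [Wd_eq, cmp_pull1_dg hf.lab hf.dg]; rfl
  constructor
  · intro h i h1 _
    have := congrFun e i
    rwa [h, map_zero, cmp_apply, if_pos ((key_eq_iff hf.lab).2 h1)] at this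
  · intro h
    rw [← (s.f⁻¹ * g).2.2.1.pull1_st (s.kp y), ← e, show cmp s.ℓ (key s.ℓ s.a) (Wd s g y) = 0 from
      funext fun i => ?_, map_zero]
    rw [cmp_apply]
    split_ifs with e
    · exact h i ((key_eq_iff hf.lab).1 e) (key_lt_top hf.lab' i)
    · rfl

theorem kc (h : s.Ok0) (hf : Fine s.f s.ℓ g ℓ) {R : Sub p n} (hR : TriR R g ℓ) {N : SG p n}
    (hN : N ≤ s.G) (hm : ∀ y ∈ N, y.1 ∈ R) {b : Fin 3 → Ix n}
    (hb : ∀ j, s.ℓ (b j) = s.ℓ (s.a j))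
    (ho : ∀ z, U1 (gB R g ℓ) z → ∃ y ∈ N, pg g ℓ y.1 = z ∧ s.Bel ℓ (key ℓ b) (Wd s g y)) :
    KC ℓ (gB R g ℓ) (key ℓ b) fun z w => ∃ y ∈ N, pg g ℓ y.1 = z ∧ s.Bel ℓ (key ℓ b) (Wd s g y) ∧
      cmp ℓ (key ℓ b) (Wd s g y) = w := by
  have cp : ∀ y ∈ N, ∀ z ∈ N, s.Bel ℓ (key ℓ b) (Wd s g y) →
      s.Bel ℓ (key ℓ b) (pull1 (fr g z.1) (Wd s g y)) ∧
      cmp ℓ (key ℓ b) (pull1 (fr g z.1) (Wd s g y)) =
        pull1 (pg g ℓ z.1) (cmp ℓ (key ℓ b) (Wd s g y)) := fun y hy z hz e =>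
    ⟨bel_pull t hf (Wd_low t h hf (hN hy)) e (hR _ (hm z hz)), ((t.low ℓ b _ _ hf.lab'
      (hR _ (hm z hz))).1 (low_sub hf (Wd_low t h hf (hN hy)) e hb le_rfl)).2⟩
  refine ⟨?_, ⟨1, N.one_mem, pg_one t, fun i _ _ => by rw [Wd_one]; rfl, by rw [Wd_one, map_zero]⟩,
    ?_, ?_, fun z hz => ?_⟩
  · rintro _ _ ⟨y, hy, rfl, -, rfl⟩
    exact ⟨⟨⟨_, hm y hy, rfl⟩, (pg_par t hf.lab' (hR _ (hm y hy))).2⟩, cmp_mem _ _⟩
  · rintro _ _ _ _ ⟨y, hy, rfl, a, rfl⟩ ⟨z, hz, rfl, c, rfl⟩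
    refine ⟨y * z, N.mul_mem hy hz, pg_mul t hR (hm y hy) (hm z hz), fun i h1 h2 => ?_, ?_⟩
    · rw [Wd_mul t, Pi.add_apply, (cp y hy z hz a).1 i h1 h2, c i h1 h2, add_zero]
    · rw [Wd_mul t, map_add, (cp y hy z hz a).2]
  · rintro _ _ ⟨y, hy, rfl, a, rfl⟩
    have e := Wd_mul t (s := s) (g := g) y y⁻¹
    rw [mul_inv_cancel, Wd_one, eq_comm, add_eq_zero_iff_neg_eq] at e
    have c := cp y hy _ (N.inv_mem hy) a
    refine ⟨y⁻¹, N.inv_mem hy, pg_st t hf.lab' _, fun i h1 h2 => ?_, ?_⟩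
    · rw [← e, Pi.neg_apply, c.1 i h1 h2, neg_zero]
    · rw [← e, map_neg, c.2, val_inv, pg_st t hf.lab']
  · obtain ⟨y, hy, a, c⟩ := ho z hz
    exact ⟨_, y, hy, a, c, rfl⟩

theorem ltj (hG : S_GENCF p n) (h0 : S_LT0 p n) {H X Y : SG p n} (hs : Stable X) (hf : Full X)
    (hc : CF (Env (Ncl H X)) g ℓ) (hY : Gim g ℓ (Ncl H X) Y) :
    Big ℓ (Env Y) 30 ∧ ∀ a : Fin 3 → Ix n, (∃ j, ¬ Triv ℓ (Env Y) (a j)) →
      ∀ θ ∈ Wt ℓ (key ℓ a), (∀ y ∈ Y, pull1 y.1 θ - θ ∈ Tr ℓ (Env Y)) → θ ∈ Tr ℓ (Env Y) := by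
  have hp := t.pm.five
  have hJ := (t.env.1 (Ncl H X)).1
  have hB := ((t.rad _ g ℓ hJ hc.lab hc.tri).2.2 hc).1
  rw [← hY.env] at hB
  have key' : ∀ b, ¬ Triv ℓ (Env Y) b →
      ∃ Z ≤ Y, ∃ τ k, Tz Z τ k ∧ ∃ x ∈ Vb ℓ b, τ.1 *ᵥ x ≠ x := fun b hb => by
    by_contra hn
    refine hb (hY.env ▸ t.stcf.2.2 _ g ℓ b hc ((Subgroup.closure_le _).2 ?_))
    rintro _ ⟨h, hh, x, hx, rfl⟩
    have m : ∀ x ∈ X, h * x * h⁻¹ ∈ Ncl H X := fun x hx =>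
      Subgroup.subset_closure ⟨h, hh, x, hx, rfl⟩
    have e : ∀ x : GG p n, fr (h⁻¹ * g) x.1 = fr g (h * x * h⁻¹).1 := fun x => by
      rw [(t.env.2.1 h⁻¹ x.1 x.1).2.2.2.2.1 g, ← t.env.2.2.1 h⁻¹ x, inv_inv]
    have tr : TriR (Env X) (h⁻¹ * g) ℓ := ((t.env.1 X).2.2.2.2.2.1 _ ℓ).2 fun x hx =>
      e x ▸ hc.tri _ (env_mem (m x hx))
    obtain ⟨X', hX⟩ := exists_gim t hc.lab tr
    have le : X' ≤ Y := fun y hy => by
      obtain ⟨x, hx, e1⟩ := hX.src y hy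
      obtain ⟨y', hy', e2⟩ := hY.dst _ (m x hx)
      rwa [show y = y' from Subtype.ext (e1.trans ((congrArg (gr ℓ) (e x)).trans e2.symm))]
    have kr : X' ≤ Ker ⊥ (Vb ℓ b) := by
      by_contra hk
      obtain ⟨Z, z1, z2⟩ := tz2 t hG hs hf hc.lab tr hX hk
      exact hn ⟨Z, z1.trans le, z2⟩
    obtain ⟨y, hy, e1⟩ := hX.dst x hx
    refine (((t.blk _ g ℓ hJ hc).1 b).2.2.2.2.2 _ (env_mem (m x hx))).2
      (mem_MI.2 ⟨sub_mem (env_mem (m x hx)) hJ.one, fun β γ _ hγ => ?_⟩)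
    have := congrFun ((Submodule.mem_bot _).1 ((kr hy).2 _ (single_mem_Vb hγ 1))) β
    rw [map_sub, pg_one t, show pg g ℓ (h * x * h⁻¹).1 = y.1 from
      (e1.trans (congrArg (gr ℓ) (e x))).symm]
    simpa [Matrix.one_apply, Pi.single_apply] using this
  refine ⟨fun b hb => ?_, fun a ha θ hθ hi => ?_⟩
  · obtain ⟨Z, z1, τ, k, z2, x, hx, x0⟩ := key' b hb
    have iv := inv_Vb hB (env_mono z1) b
    have a1 := z2.cb hp hB (env_mono z1) (z2.em iv) em_neg (fun e => x0 (sub_eq_zero.1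
      ((Submodule.mem_bot _).1 (e ▸ z2.proj iv hx))).symm) inf_le_left b
    have a2 : finrank (ZMod p) (KT.Em (mv τ.1) (Vb ℓ b)) ≤ nb ℓ b :=
      (Submodule.finrank_mono inf_le_left).trans_eq (finrank_Vb b)
    rw [db, Nat.le_div_iff_mul_le (eb_pos hB.alg b), eb]
    omega
  by_cases e : ∃ j, Triv ℓ (Env Y) (a j)
  · refine h0 ℓ _ a θ {x | ∃ y ∈ Y, y.1 = x} hB hθ e ha (grp Y) (fun ψ hψ => ?_) rfl ?_
    · rintro _ ⟨y, hy, rfl⟩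
      exact hY.pp t hc.tri ((t.op _).2.2.2.1 H X hs.1) (fun y => ψ y.1)
        (fun a ha b hb => hψ _ ⟨a, ha, rfl⟩ _ ⟨b, hb, rfl⟩) y hy
    · rintro _ ⟨y, hy, rfl⟩
      exact ⟨⟨env_mem hy, y.2.2⟩, hi y hy⟩
  · exact lt hp hB rfl hθ hi (not_exists.1 e) fun j => key' _ (not_exists.1 e j)

end LT

open _root_.Pool.Agent.P.MP_f1a348_lc.UP.LT in
theorem s_LIFTJ (p n : ℕ) [Fact p.Prime] (t : TB p n) (hG : S_GENCF p n) (hS : S_LOCST p n)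
    (hP : S_PREF p n) (hK : S_LIFK p n) (h0 : S_LT0 p n) : S_LIFTJ p n := by
  intro s H Xi XJ h hsim hH hi hs hf ho hJ
  obtain ⟨-, -, -, -, -, -, -, -, -, -, n1, n2, n3, n4, -⟩ := t.sol (GG p n)
  have hHG : H ≤ s.G := fun y hy => ((hH y).1 hy).1
  have j1 : Ncl H Xi ≤ H ⊓ s.X :=
    (n1 H Xi).2.2 _ hi (n2 H _ _ (n4 H) (n3 _ _ _ hHG h.nm)).1
  have hA := ((t.coc s h).2.2.2.2.2.1 _ (j1.trans (inf_le_left.trans hHG))).1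
  obtain ⟨hR, hF⟩ := hP s _ XJ h hsim hA hJ
  set R := Env s.X ⊓ (s.le (Ncl H Xi)).comap s.lo with eR
  obtain ⟨g, ℓ, hfi, hc⟩ := (t.cfx R s.f s.ℓ h.lab
    fun x hx => h.tri x (env_mono h.le hx.1)).2.2 hR
  have r := t.rad R g ℓ hR hc.lab hc.tri
  have j2 : Env (Ncl H Xi) ≤ R := fun x hx => ⟨env_mono (j1.trans inf_le_right) hx, x, hx, rfl⟩
  have j3 : gB (Env (Ncl H Xi)) g ℓ = gB R g ℓ := by
    refine le_antisymm (Submodule.map_mono j2) ?_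
    rintro _ ⟨x, hx, rfl⟩
    obtain ⟨y, hy, e⟩ := hx.2
    obtain ⟨z, hz, e2⟩ := (hS s h hsim).2.2 (x - y) (sub_mem hx.1 (j2 hy).1)
      (by rw [map_sub, e, sub_self])
    have hz' := env_mono ((ho _ ((t.op _).1 _).1 ((t.op _).1 _).2.1).trans (n1 H Xi).1) hz
    have := (r.2.2 hc).2 _ ((t.env.2.2.2.1 _ (t.env.1 s.X).1).2.2.1 R inf_le_left _ e2
      (sub_mem (sub_mem hx (j2 hy)) (j2 hz')))
    refine ⟨y + z, add_mem hy hz', (sub_eq_zero.1 ?_).symm⟩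
    rw [← map_sub, ← sub_sub]
    exact this
  have c2 : CF (Env (Ncl H Xi)) g ℓ := ⟨hc.lab, fun x hx => hc.tri x (j2 hx), j3 ▸ hc.sim⟩
  obtain ⟨Y, hY⟩ := exists_gim t hc.lab c2.tri
  obtain ⟨big, hlt⟩ := ltj t hG h0 hs hf c2 hY
  have eY := hY.env.trans j3
  have xg : XJ ≤ s.G := fun y hy => h.le ((hJ y).1 hy).1
  have ind : ∀ k, ∀ z, U1 (gB R g ℓ) z →
      ∃ y ∈ XJ, pg g ℓ y.1 = z ∧ s.Bel ℓ k (Wd s g y) := by
    intro k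
    induction k with
    | zero =>
      intro z hz
      obtain ⟨y, hy, e⟩ := onto t hR hc hF hz
      exact ⟨y, hy, e, fun _ _ h => absurd h (Nat.not_lt_zero _)⟩
    | succ k ih =>
      intro z hz
      by_cases e : ∃ b : Fin 3 → Ix n, (∀ j, s.ℓ (b j) = s.ℓ (s.a j)) ∧ key ℓ b = k
      · obtain ⟨b, hb, rfl⟩ := e
        have K := kc t h hfi hc.tri xg hF.1 hb ih
        obtain ⟨w, hw⟩ := K.onto z hz
        have k1 := hK ℓ _ b _ {x | ∃ y ∈ Y, y.1 = x} (r.2.2 hc).1 (eY ▸ big) K (grp Y) (by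
          rintro _ ⟨y, hy, rfl⟩
          obtain ⟨x, hx, e⟩ := hY.src y hy
          have := (kp_iff hfi x).1 ((hH x).1 (j1 hx).1).2
          exact ⟨x, (hJ x).2 ⟨(j1 hx).2, _, env_mem hx, rfl⟩, e.symm,
            fun i h1 _ => this i h1 (key_lt_top hc.lab i),
            cmp_zero hfi this hb (key_lt_top hc.lab b)⟩) eY (fun ha θ hθ hi => eY ▸ hlt b (eY ▸ ha)
            θ hθ fun y hy => eY ▸ hi _ ⟨y, hy, rfl⟩) z w hw
        obtain ⟨y, hy, a1, a2, a3⟩ := K.adjust hw (neg_mem (K.mem_sp.2 k1))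
        refine ⟨y, hy, a1, fun i h1 h2 => ?_⟩
        rcases Nat.lt_succ_iff_lt_or_eq.1 h2 with e | e
        · exact a2 i h1 e
        · have := congrFun a3 i
          rwa [cmp_apply, if_pos e, add_neg_cancel] at this
      · obtain ⟨y, hy, a1, a2⟩ := ih z hz
        exact ⟨y, hy, a1, fun i h1 h2 => a2 i h1 (lt_of_le_of_ne (Nat.lt_succ_iff.1 h2)
          fun e2 => e ⟨i, h1, e2⟩)⟩
  refine fullA t hR hc (fun y hy => hF.1 y hy.2) fun z hz => ?_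
  obtain ⟨y, hy, a1, a2⟩ := ind (top n) z hz
  exact ⟨y, ⟨(hH y).2 ⟨xg hy, (kp_iff hfi y).2 a2⟩, hy⟩, a1⟩

end Pool.Agent.P.MP_f1a348_lc.UP
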