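import Pool.Agent.P.MP_f1a348_lc.UP.Iface

/-! Project UP: unitary elements of the local algebra come from the group. -/

namespace Pool.Agent.P.MP_f1a348_lc.UP

open Matrix Module Pool.Agent.P.MP_f1a348_lc.PG
open scoped commutatorElement

namespace LOCUz

set_option linter.unusedSectionVars false

variable {p n : ℕ} [Fact p.Prime] {ℓ : Ix n → ℕ} {B R : Sub p n}

theorem mem_MI {f : GG p n} {I : Set (Ix n)} {x : Mat p n} :
    x ∈ MI R f ℓ I ↔ x ∈ R ∧ ∀ α ∈ I, gr ℓ (fr f x) * pr ℓ α = 0 := by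
  refine and_congr_right fun _ => forall₂_congr fun α _ => ⟨fun h => ?_, fun h β γ h1 h2 => ?_⟩
  · ext β γ
    rw [mul_pr_apply, gr_apply, Matrix.zero_apply]
    split_ifs with h1 h2
    · exact h β γ (h2.trans h1) h1
    all_goals rfl
  · have := congrFun (congrFun h β) γ
    rwa [mul_pr_apply, gr_apply, if_pos h2, if_pos (h1.trans h2.symm)] at this

theorem ann_cls (h : Str ℓ B) {a b : Ix n} (e : Cb ℓ B a b ≠ ⊥) {c : Mat p n} (hc : c ∈ B)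
    (h0 : c * pr ℓ a = 0) : c * pr ℓ b = 0 := by
  obtain ⟨C, hC, hne⟩ := exists_cb_ne e
  obtain ⟨D, hD, _, e1⟩ := schur h hC hne
  rw [← e1, ← mul_assoc, ← hD.1 c hc, ← cb_left hC, mul_assoc, ← mul_assoc c, h0, zero_mul,
    mul_zero]

theorem exists_eps (h : Str ℓ B) {I : Set (Ix n)} (hI : ∀ α ∈ I, α.rev ∈ I) :
    ∃ ε ∈ B, st ε = ε ∧ ε * ε = ε ∧ (∀ c ∈ B, ε * c = c * ε) ∧ (∀ α ∈ I, ε * pr ℓ α = pr ℓ α) ∧
      ∀ c ∈ B, (∀ α ∈ I, c * pr ℓ α = 0) → c * ε = 0 := by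
  classical
  have k1 : ∀ β γ, Cb ℓ B β γ ≠ ⊥ → ((∃ α ∈ I, Cb ℓ B α β ≠ ⊥) ↔ ∃ α ∈ I, Cb ℓ B α γ ≠ ⊥) :=
    fun β γ e => exists_congr fun α => and_congr_right fun _ =>
      ⟨fun t => cb_trans h t e, fun t => cb_trans h t (cb_symm h e)⟩
  have k2 : ∀ β : Ix n, (∃ α ∈ I, Cb ℓ B α β ≠ ⊥) → ∃ α ∈ I, Cb ℓ B α β.rev ≠ ⊥ :=
    fun β ⟨α, h1, h2⟩ => ⟨α.rev, hI α h1, cb_symm h (cb_rev h h2)⟩
  have k3 : ∀ β γ, ℓ β = ℓ γ → Cb ℓ B β γ ≠ ⊥ := fun β γ e => by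
    rw [← Cb_congr (B := B) rfl e]; exact cb_refl h.alg β
  refine ⟨Matrix.diagonal fun β => if ∃ α ∈ I, Cb ℓ B α β ≠ ⊥ then 1 else 0,
    diagonal_mem h fun β γ e => by simp only [k1 β γ e], ?_, ?_, fun c hc =>
      (h.alg.dg c hc).comm_diagonal fun β γ e => by simp only [k1 β γ (k3 β γ e)],
    fun α hα => ?_, fun c hc H => ?_⟩
  · rw [st_diagonal]
    congr 1
    funext β
    have : (∃ α ∈ I, Cb ℓ B α β.rev ≠ ⊥) ↔ ∃ α ∈ I, Cb ℓ B α β ≠ ⊥ :=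
      ⟨fun t => by simpa using k2 _ t, k2 β⟩
    simp only [this]
  · rw [Matrix.diagonal_mul_diagonal]
    congr 1; funext β; split_ifs <;> simp
  · rw [pr, Matrix.diagonal_mul_diagonal]
    congr 1
    funext β
    by_cases e : ℓ β = ℓ α
    · rw [if_pos ⟨α, hα, k3 α β e.symm⟩, one_mul]
    · rw [if_neg e, mul_zero]
  · ext β γ
    rw [Matrix.mul_diagonal, Matrix.zero_apply]
    split_ifs with e
    · obtain ⟨α, h1, h2⟩ := e
      have := congrFun (congrFun (ann_cls h h2 hc (H α h1)) β) γ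
      rw [mul_pr_apply, if_pos rfl] at this
      rw [this, Matrix.zero_apply, zero_mul]
    · rw [mul_zero]

end LOCUz

open LOCUz in
theorem s_LOCU (p n : ℕ) [Fact p.Prime] (b : TB p n) (hCLIFF : S_CLIFF p n) : S_LOCU p n := by
  rintro s hs hsim _ ⟨⟨x0, hx0, rfl⟩, hu, hc⟩
  obtain ⟨_, c2, c3⟩ := hCLIFF s hs hsim
  obtain ⟨e1, e2, _⟩ := b.env
  have hR : SA (Env s.X) := (e1 s.X).1
  have ht : TriR (Env s.X) s.f s.ℓ := fun x hx => hs.tri x ((e1 s.X).2.2.1 _ hs.le hx)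
  obtain ⟨f, ℓ, hf, hcf⟩ := (b.cfx _ s.f s.ℓ hs.lab ht).2.2 hR
  obtain ⟨_, r2, r3⟩ := b.rad _ f ℓ hR hcf.lab hcf.tri
  have hB := (r3 hcf).1
  have hS := (b.lc.2 s.ℓ s.a hs.lab).1
  obtain ⟨_, l2, l3, l4, _⟩ := b.lc.1 s.ℓ s.lam hs.lab hS
  obtain ⟨_, ⟨e, he, rfl⟩, a1, a2, a3, a4, a5⟩ := exists_eps hB hS.rev
  have hfull := hs.full.2
  have c4 := c3 f ℓ hf hcf
  simp only [mem_MI] at c4
  generalize Env s.X = R at *
  obtain ⟨π, hπ⟩ : ∃ π : Mat p n →ₗ[ZMod p] Mat p n, π = gr ℓ ∘ₗ fr f := ⟨_, rfl⟩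
  have p0 : ∀ x, gr ℓ (fr f x) = π x := fun x => by rw [hπ]; rfl
  have p1 : π 1 = 1 := by rw [← p0, (e2 f 1 1).2.2.1, gr_one]
  have p2 : ∀ x ∈ R, ∀ y ∈ R, π (x * y) = π x * π y := fun x hx y hy => by
    rw [← p0, ← p0, ← p0, (e2 f x y).1, gr_mul (hcf.tri x hx) (hcf.tri y hy)]
  have p3 : ∀ x, π (st x) = st (π x) := fun x => by
    rw [← p0, ← p0, (e2 f x x).2.1, gr_st hcf.lab]
  have p4 : ∀ x ∈ R, π x ∈ gB R f ℓ := fun x hx => ⟨x, hx, p0 x⟩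
  rw [← hπ] at a1 a2 a3 a4 a5
  simp only [p0] at c4 r2
  have q1 : x0 (c0 n) (c0 n) = 1 := by
    rw [← hc, ← ((e2 s.f x0 x0).2.2.2.2.2.1 (hR.dg x0 hx0)).2]
    exact ((l4 _).2.2.1).symm
  have hs0 := hR.star x0 hx0
  have hy0 : st x0 * x0 - 1 ∈ R := sub_mem (hR.mul _ hs0 _ hx0) hR.one
  have q2 : s.lo (st x0 * x0 - 1) = 0 := by
    rw [map_sub, sub_eq_zero]
    change lc s.ℓ s.lam (fr s.f _) = lc s.ℓ s.lam (fr s.f _)
    rw [(e2 s.f _ _).1, l2 _ _ (ht _ hs0) (ht _ hx0), (e2 s.f x0 x0).2.1, (l4 _).1,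
      (e2 s.f 1 1).2.2.1, l3]
    exact hu
  have q3 := a5 _ (p4 _ hy0) ((c4 _ hy0).1 q2).1.2
  rw [map_sub, p2 _ hs0 _ hx0, p1, p3, sub_mul, one_mul, sub_eq_zero] at q3
  have hx1 : e * x0 + (1 - e) ∈ R := add_mem (hR.mul _ he _ hx0) (sub_mem hR.one he)
  have q4 : π (e * x0 + (1 - e)) = π e * π x0 + (1 - π e) := by
    rw [map_add, map_sub, p2 _ he _ hx0, p1]
  have q5 : (e * x0 + (1 - e)) (c0 n) (c0 n) = 1 := by
    rw [Matrix.add_apply, ((hR.dg e he).tri lab_l0).mul_c0, q1, Matrix.sub_apply,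
      Matrix.one_apply_eq, mul_one, add_sub_cancel]
  have hs1 := hR.star _ hx1
  obtain ⟨g, hg, q6⟩ := hfull _ hx1 q5 (r2 _ (sub_mem (hR.mul _ hs1 _ hx1) hR.one) (by
    rw [map_sub, p2 _ hs1 _ hx1, p1, p3, q4, st_add, st_sub, st_mul, st_one, a1, sub_eq_zero]
    have b1 := a3 _ (p4 _ hx0)
    generalize π e = ε at *
    generalize π x0 = w at *
    have b2 : ε * (1 - ε) = 0 := by rw [mul_sub, mul_one, a2, sub_self]
    have b3 : (1 - ε) * ε = 0 := by rw [sub_mul, one_mul, a2, sub_self]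
    rw [add_mul, mul_add, mul_add, mul_assoc _ ε (1 - ε), b2, mul_zero, add_zero,
      ← mul_assoc (1 - ε), b3, zero_mul, zero_add, mul_assoc, ← mul_assoc ε, a2, b1,
      ← mul_assoc, q3, mul_sub, mul_one, b3, sub_zero, add_sub_cancel]))
  refine ⟨g, hg, ?_⟩
  have q7 := c2 _ q6
  have q8 := (c4 _ (sub_mem hx1 hx0)).2 ⟨⟨sub_mem hx1 hx0, fun α hα => by
    rw [map_sub, q4, a3 _ (p4 _ hx0), sub_mul, add_mul, sub_mul, mul_assoc, a4 α hα, one_mul,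
      sub_self, add_zero, sub_self]⟩, by rw [Matrix.sub_apply, q5, q1, sub_self]⟩
  rw [map_sub, sub_eq_zero] at q7 q8
  exact q7.trans q8

end Pool.Agent.P.MP_f1a348_lc.UP
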