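import Pool.Agent.P.MP_f1a348_lc.UP.PIf

/-!
Project UP: the loop over the children of a branching.
-/

namespace Pool.Agent.P.MP_f1a348_lc.UP

open Matrix Module Pool.Agent.P.MP_f1a348_lc.PG
open scoped commutatorElement

set_option linter.unusedSectionVars false

namespace LOOPBz

variable {p n : ℕ} [Fact p.Prime]

/-- the frame of the loop -/
noncomputable def fw (s : St p n) (b : Brc p n) (L : List (ℕ × GG p n)) (a : Out p n) : AF p n :=
  ⟨true, s, s.kid b s.T, b.F, L, a⟩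

/-- the child with tag `q` -/
noncomputable def ch (s : St p n) (b : Brc p n) (q : ℕ × GG p n) : St p n :=
  s.kid b (pull1 q.2.1 (if q.1 = 2 then s.T' else s.T))

/-- the invariant of the loop -/
structure Jv (s : St p n) (b : Brc p n) (H0 : SG p n) (o : Out p n) (L : List (ℕ × GG p n))
    (a : Out p n) : Prop where
  X : a.X = o.X
  F : a.F = o.F
  lo : o.H ≤ a.H
  hi : a.H ≤ H0
  tag : ∀ q ∈ L, (q.1 = 1 ∧ q.2 ∈ b.R) ∨ (q.1 = 2 ∧ q.2 ∈ b.R')
  r1 : ∀ t ∈ b.R, (1, t) ∈ L ∨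
    ∃ φ, (s.kid b (pull1 t.1 s.T)).IsS φ ∧ ∀ g, φ = some g → t * g ∈ a.H
  sm : ∀ g, a.φ = some g → s.IsS (some g)
  no : a.φ = none → ∀ t ∈ b.R', (2, t) ∈ L ∨ (s.kid b (pull1 t.1 s.T')).IsS none

theorem kid_kp (s : St p n) (b : Brc p n) (t g : GG p n) :
    (s.kid b (pull1 t.1 s.T)).kp' g = s.kp (t * g) := by
  rw [St.kp, val_mul, pull1_mul]; rfl

theorem Jv.step (hJ : S_JOIN p n) {s : St p n} {b : Brc p n} {H0 : SG p n} {o a r : Out p n}
    {E EG k EG' : ℕ} {q : ℕ × GG p n} {L : List (ℕ × GG p n)} (h0 : s.Ok0)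
    (hb : s.BrOK E EG b k EG') (hH : s.IsH H0) (h : Jv s b H0 o (q :: L) a)
    (hr : (ch s b q).IsS r.φ) : Jv s b H0 o L (Out.join q a r) := by
  obtain ⟨i, t⟩ := q
  have tl : ∀ q ∈ L, (q.1 = 1 ∧ q.2 ∈ b.R) ∨ (q.1 = 2 ∧ q.2 ∈ b.R') :=
    fun q hq => h.tag q (List.mem_cons_of_mem _ hq)
  rcases h.tag _ List.mem_cons_self with ⟨e, ht⟩ | ⟨e, ht⟩
  · obtain rfl : i = 1 := e
    change t ∈ b.R at ht
    have e1 : Out.join (1, t) a r =
        ⟨a.H ⊔ Subgroup.closure {x | ∃ g, r.φ = some g ∧ x = t * g}, a.X, a.F, a.φ⟩ := rfl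
    have hr' : (s.kid b (pull1 t.1 s.T)).IsS r.φ := hr
    rw [e1]
    refine ⟨h.X, h.F, h.lo.trans le_sup_left, sup_le h.hi ?_, tl, fun u hu => ?_, h.sm,
      fun e u hu => ?_⟩
    · rw [Subgroup.closure_le]
      rintro _ ⟨g, hg, rfl⟩
      obtain ⟨k1, k2⟩ := hr'.1 g hg
      exact (hH _).2 ⟨mul_mem (hb.mem t ht) (hb.le k1), kid_kp s b t g ▸ k2⟩
    · rcases h.r1 u hu with k1 | ⟨φ, k1, k2⟩
      · rcases List.mem_cons.1 k1 with k2 | k2
        · obtain rfl : u = t := (Prod.mk.inj k2).2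
          exact Or.inr ⟨r.φ, hr', fun g hg =>
            Subgroup.mem_sup_right (Subgroup.subset_closure ⟨g, hg, rfl⟩)⟩
        · exact Or.inl k2
      · exact Or.inr ⟨φ, k1, fun g hg => Subgroup.mem_sup_left (k2 g hg)⟩
    · refine (h.no e u hu).imp_left fun k1 => (List.mem_cons.1 k1).resolve_left fun k2 => ?_
      exact absurd (Prod.mk.inj k2).1 (by decide)
  · obtain rfl : i = 2 := e
    change t ∈ b.R' at ht
    have e1 : Out.join (2, t) a r = ⟨a.H, a.X, a.F, a.φ.or (r.φ.map fun g => t * g)⟩ := rfl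
    have hr' : (s.kid b (pull1 t.1 s.T')).IsS r.φ := hr
    rw [e1]
    refine ⟨h.X, h.F, h.lo, h.hi, tl, fun u hu => ?_, fun g e => ?_, fun e u hu => ?_⟩
    · refine (h.r1 u hu).imp_left fun k1 => (List.mem_cons.1 k1).resolve_left fun k2 => ?_
      exact absurd (Prod.mk.inj k2).1 (by decide)
    · change a.φ.or _ = some g at e
      cases e2 : a.φ with
      | some g' =>
        rw [e2, Option.some_or] at e
        exact e ▸ h.sm g' e2
      | none =>
        rw [e2, Option.none_or] at e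
        obtain ⟨g', k1, rfl⟩ := Option.map_eq_some_iff.1 e
        exact (hJ s E EG b k EG' h0 hb).2.2.1 t (hb.mem' t ht) g' (k1 ▸ hr')
    · change a.φ.or _ = none at e
      obtain ⟨e2, e3⟩ := Option.or_eq_none_iff.1 e
      rcases h.no e2 u hu with k1 | k1
      · rcases List.mem_cons.1 k1 with k2 | k2
        · obtain rfl : u = t := (Prod.mk.inj k2).2
          exact Or.inr (Option.map_eq_none_iff.1 e3 ▸ hr')
        · exact Or.inl k2
      · exact Or.inr k1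

theorem Jv.fin (hJ : S_JOIN p n) {s : St p n} {b : Brc p n} {H0 : SG p n} {o a : Out p n}
    {E EG k EG' : ℕ} (h0 : s.Ok0) (hb : s.BrOK E EG b k EG') (hH : s.IsH H0)
    (ho : (s.kid b s.T).IsH o.H) (h : Jv s b H0 o [] a) : s.IsH a.H ∧ s.IsS a.φ := by
  obtain ⟨-, j2, -, j4⟩ := hJ s E EG b k EG' h0 hb
  constructor
  · have k1 : ∀ t, ∃ φ, t ∈ b.R → (s.kid b (pull1 t.1 s.T)).IsS φ ∧
        ∀ g, φ = some g → t * g ∈ a.H := fun t => by
      by_cases ht : t ∈ b.R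
      · obtain ⟨φ, k2⟩ := (h.r1 t ht).resolve_left List.not_mem_nil
        exact ⟨φ, fun _ => k2⟩
      · exact ⟨none, fun e => absurd e ht⟩
    choose φ hφ using k1
    have k2 := j2 o.H φ {x | ∃ t ∈ b.R, ∃ g, φ t = some g ∧ x = t * g} ho
      (fun t ht => (hφ t ht).1) fun _ => Iff.rfl
    refine fun g => ⟨fun e => (hH g).1 (h.hi e), fun e => ?_⟩
    refine (sup_le h.lo ?_ : _ ≤ a.H) ((k2 g).2 e)
    rw [Subgroup.closure_le]
    rintro _ ⟨t, ht, g', e', rfl⟩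
    exact (hφ t ht).2 g' e'
  · cases e : a.φ with
    | some g => exact h.sm g e
    | none => exact j4 fun t ht => (h.no e t ht).resolve_left List.not_mem_nil

theorem arith {K P Q z N : ℕ} (hP : 0 < P) (hz : 0 < z) (hN : N + 1 ≤ Q)
    (h : K + 3 * P * N ≤ 6 * P * z * N) : K + 2 + 3 * (P * Q) ≤ 6 * (P * Q) * z := by
  obtain ⟨w, rfl⟩ : ∃ w, z = w + 1 := ⟨z - 1, by omega⟩
  obtain ⟨d, rfl⟩ : ∃ d, Q = N + 1 + d := ⟨Q - (N + 1), by omega⟩
  have e1 : 6 * P * (w + 1) * N = 6 * (P * w * N) + 6 * (P * N) := by ring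
  have e2 : 3 * P * N = 3 * (P * N) := by ring
  have e3 : 3 * (P * (N + 1 + d)) = 3 * (P * N) + 3 * P + 3 * (P * d) := by ring
  have e4 : 6 * (P * (N + 1 + d)) * (w + 1) = 6 * (P * w * N) + 6 * (P * N) + 6 * P +
      6 * (P * d) + 6 * (P * w) + 6 * (P * w * d) := by ring
  omega

end LOOPBz

open LOOPBz in
theorem s_LOOPB (p n : ℕ) [Fact p.Prime] (t : TM p n) (hJOIN : S_JOIN p n) (hQDEC : S_QDEC p n)
    (hQFIN : S_QFIN p n) : S_LOOPB p n := by
  intro c s E EG B b x hc hs hsim hGB hS hB hpad hx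
  obtain ⟨⟨k0, EG', hb⟩, hbF, hbp⟩ := hGB
  obtain ⟨dcall, dfeed, dcl, -⟩ := hQDEC c hc
  have h0 := hs.ok0
  obtain ⟨H0, hH⟩ : ∃ H, s.IsH H := (t.coc s h0).2.2.2.2.2.2.2.2.2.2.2.1
  have h5 : 5 ≤ p := t.pm.five
  have hk0 := hb.pos
  have hkE := hb.pre.1
  have z0 : 0 < s.sz := Finset.prod_pos fun j _ => nb_pos _ _
  have hP : 0 < p ^ (E - k0) := pow_pos (by omega) _
  have eE : p ^ E = p ^ (E - k0) * p ^ k0 := by rw [← pow_add, Nat.sub_add_cancel hkE]
  have hQ : p ≤ p ^ k0 := Nat.le_self_pow hk0.ne' p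
  have hN : b.R.length + b.R'.length + 1 + 1 ≤ p ^ k0 := by
    have e1 := (Nat.mul_le_mul_right b.R.length h5).trans hb.len
    have e2 := (Nat.mul_le_mul_right b.R'.length h5).trans hb.len'
    omega
  have htop : 0 < p * top n := Nat.mul_pos (by omega) (by rw [top]; positivity)
  have hrho : 2 * rho0 p n + 2 ≤ rho p n := by
    rw [rho0, rho, Nat.mul_assoc, Nat.mul_assoc]; omega
  generalize hY : 6 * p ^ (E - k0) * s.sz = Y
  have hY0 : 0 < Y := hY ▸ Nat.mul_pos (by omega) z0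
  have hpad' : B + rho p n * Y * p ^ k0 ≤ c.2.2.length := by
    rw [← hY]; refine le_of_eq_of_le ?_ hpad; rw [eE]; ring
  have hr1 : rho p n ≤ rho p n * Y := Nat.le_mul_of_pos_right _ hY0
  have hr2 : rho p n * Y * 5 ≤ rho p n * Y * p ^ k0 := Nat.mul_le_mul_left _ (h5.trans hQ)
  have hr3 : p ^ k0 ≤ rho p n * Y * p ^ k0 := Nat.le_mul_of_pos_left _ (by omega)
  have kB : ∀ w, (s.kid b w).Bd (B + rho0 p n) := fun w =>
    ⟨(List.length_append).le.trans (Nat.add_le_add hB.1 hbF),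
      fun j r e => (hbp j r e).trans (Nat.le_add_right _ _)⟩
  have sm : ∀ L a, L.length ≤ p ^ k0 → (∀ q ∈ L, q.1 ≤ 2) → SmF c.2.2.length a.F →
      (fw s b L a).Sm c.2.2.length := fun L a e1 e2 e3 =>
    ⟨St.sm_of t.kid hs (hB.mono (by omega)), St.sm_of t.kid hb.pre.2 ((kB _).mono (by omega)),
      smF_of t.kid hb.nw.kids (hbF.trans (by omega)), e1.trans (by omega),
      fun q hq => (e2 q hq).trans (by omega), e3⟩
  have one : ∀ (y : Fm) q L a, fmD p n y = fw s b (q :: L) a → q.2 ∈ s.G →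
      ∃ q' L' y1 k1, todo y = q' :: L' ∧ Ev c (clM c (init c (call c y q'))) y1 k1 ∧
        (ch s b q).Po EG' (outD p n (fin c y1)) ∧ k1 + 2 + 3 * p ^ (E - k0) ≤ Y ∧
        (outD p n (fin c y1)).F.length ≤ rho p n * (k1 + 1) ∧
        fmD p n (feed c y (fin c y1)) = fw s b L (Out.join q a (outD p n (fin c y1))) := by
    intro y q L a hy hq
    obtain ⟨q', L', e1, e2, -⟩ := List.map_eq_cons_iff.1 (congrArg AF.todo hy)
    have e3 : stD p n (call c y q') = ch s b q := by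
      rw [dcall, e2, hy]; rfl
    have e4 : (ch s b q).PrE (E - k0) EG' := by
      rw [ch]; split_ifs
      exacts [((hJOIN s E EG b k0 EG' h0 hb).1 _ hq).2, ((hJOIN s E EG b k0 EG' h0 hb).1 _ hq).1]
    obtain ⟨y1, k1, ev1, po1, b1, l1⟩ := hS (E - k0) (by omega) (call c y q') EG' (B + rho0 p n)
      (e3 ▸ e4) (by rw [e3]; rfl) (e3 ▸ kB _) (by rw [hY]; omega)
    rw [e3] at po1 b1
    refine ⟨q', L', y1, k1, e1, ev1, po1, hY ▸ b1, l1, ?_⟩
    rw [dfeed, hy]; rfl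
  have main : ∀ o : Out p n, (s.kid b s.T).Po EG' o → o.F.length ≤ c.2.2.length →
      ∀ (L : List (ℕ × GG p n)) (y : Fm) (a : Out p n), L.length ≤ p ^ k0 →
      fmD p n y = fw s b L a → Jv s b H0 o L a →
      ∃ z k, Ev c (clM c y) z k ∧ s.Po EG (outD p n (fin c z)) ∧
        k + 3 * p ^ (E - k0) * L.length ≤ Y * L.length ∧
        (outD p n (fin c z)).F.length ≤ o.F.length + b.F.length + rho0 p n + 2 := by
    intro o po ol L
    have cl : ∀ (L : List (ℕ × GG p n)) (y : Fm) (a : Out p n), L.length ≤ p ^ k0 →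
        fmD p n y = fw s b L a → Jv s b H0 o L a → fmD p n (clM c y) = fw s b L a := by
      intro L y a hl hy hi
      rw [dcl _ (hy ▸ sm L a hl (fun q hq => by rcases hi.tag q hq with e | e <;> omega)
        (hi.F ▸ smF_of t.kid po.nw.kids ol)), hy]
    induction L with
    | nil =>
      intro y a hl hy hi
      have e := cl _ y a hl hy hi
      obtain ⟨i1, i2⟩ := hi.fin hJOIN h0 hb hH po.isH
      obtain ⟨f1, f2⟩ := (hQFIN c (clM c y) hc).2 s b E EG k0 EG' o (by rw [e]; rfl)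
        (by rw [e]; rfl) (by rw [e]; rfl) (by rw [e]; rfl) h0 hsim hb po (by rw [e]; exact hi.X)
        (by rw [e]; exact hi.F) (by rw [e]; exact i1) (by rw [e]; exact i2)
      exact ⟨_, 0, Ev.done (List.map_eq_nil_iff.1 (congrArg AF.todo e)), f1, by simp, f2⟩
    | cons q L ih =>
      intro y a hl hy hi
      have hq : q.2 ∈ s.G := (hi.tag q List.mem_cons_self).elim (fun e => hb.mem _ e.2)
        fun e => hb.mem' _ e.2
      obtain ⟨q', L', y1, k1, e1, ev1, po1, b1, -, e2⟩ := one _ q L a (cl _ y a hl hy hi) hq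
      rw [List.length_cons] at hl ⊢
      obtain ⟨z, k2, ev2, po2, b2, l2⟩ := ih _ _ (by omega) e2 (hi.step hJOIN h0 hb hH po1.isS)
      refine ⟨z, k1 + k2 + 2, Ev.call e1 ev1 ev2, po2, ?_, l2⟩
      rw [Nat.mul_add, Nat.mul_add]; omega
  generalize hL : b.R.map (fun t => ((1, t) : ℕ × GG p n)) ++ b.R'.map (fun t => (2, t)) = L
  have lL : L.length = b.R.length + b.R'.length := by rw [← hL]; simp
  have tg : ∀ q ∈ L, (q.1 = 1 ∧ q.2 ∈ b.R) ∨ (q.1 = 2 ∧ q.2 ∈ b.R') := by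
    intro q hq
    rw [← hL, List.mem_append, List.mem_map, List.mem_map] at hq
    rcases hq with ⟨u, hu, rfl⟩ | ⟨u, hu, rfl⟩
    exacts [Or.inl ⟨rfl, hu⟩, Or.inr ⟨rfl, hu⟩]
  have e0 : fmD p n x = fw s b ((0, 1) :: L) ⟨⊥, ⊥, [], none⟩ := hL ▸ hx
  have e1 : fmD p n (clM c x) = fw s b ((0, 1) :: L) ⟨⊥, ⊥, [], none⟩ := by
    rw [dcl _ (e0 ▸ sm _ _ (by rw [List.length_cons]; omega) (fun q hq => by
      rcases List.mem_cons.1 hq with rfl | hq
      · exact Nat.zero_le _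
      · rcases tg q hq with e | e <;> omega) ⟨Nat.zero_le _, by simp⟩), e0]
  obtain ⟨q', L', y1, k1, e2, ev1, po1, b1, l1, e3⟩ := one _ _ _ _ e1 (one_mem _)
  have e4 : ch s b (0, 1) = s.kid b s.T := congrArg (s.kid b) (pull1_one _)
  rw [e4] at po1
  generalize outD p n (fin c y1) = o at po1 l1 e3
  have l2 : rho p n * (k1 + 1) ≤ rho p n * Y := Nat.mul_le_mul_left _ (by omega)
  have hi : Jv s b H0 o L (Out.join (0, 1) ⟨⊥, ⊥, [], none⟩ o) := by
    refine ⟨rfl, rfl, le_rfl, fun g hg => ?_, tg, fun u hu => Or.inl ?_, fun g e => ?_,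
      fun _ u hu => Or.inl ?_⟩
    · obtain ⟨i1, i2⟩ := (po1.isH g).1 hg
      exact (hH g).2 ⟨hb.le i1, i2⟩
    · rw [← hL]; exact List.mem_append_left _ (List.mem_map_of_mem hu)
    · cases e
    · rw [← hL]; exact List.mem_append_right _ (List.mem_map_of_mem hu)
  obtain ⟨z, k2, ev2, po2, b2, l3⟩ := main o po1 (by omega) L _ _ (by omega) e3 hi
  refine ⟨z, k1 + k2 + 2, Ev.call e2 ev1 ev2, po2, ?_, ?_⟩
  · rw [eE]
    refine arith (N := L.length + 1) hP z0 (by omega) ?_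
    rw [hY, Nat.mul_add, Nat.mul_add]; omega
  · have : rho p n * (k1 + 1) + rho p n ≤ rho p n * (k1 + k2 + 2 + 1) := by
      rw [← Nat.mul_succ]; exact Nat.mul_le_mul_left _ (by omega)
    omega

end Pool.Agent.P.MP_f1a348_lc.UP
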