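import Pool.Agent.P.MP_f1a348_lc.UP.EBase
import Pool.Agent.P.MP_f1a348_lc.PG.TNATUR

/-! Project UP: naturality of the recipes. -/

namespace Pool.Agent.P.MP_f1a348_lc.UP

open Matrix Module Pool.Agent.P.MP_f1a348_lc.PG

theorem s_NATK (p n : ℕ) [Fact p.Prime] (m : PM p n) (hNA23 : S_NA23 p n) (hNA5 : S_NA5 p n)
    (hHI5 : S_HI5 p n) : S_NATK p n := by
  intro ℓ s t K ρ θ δ w y hs hK hρ hθ hδ hy e
  have hl := hs.str.lab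
  have hU := (hK.mem _ _ hy).1
  have hf := hU.lev hl hs.str.alg
  suffices H : ∀ u ∈ Vb ℓ (ρ.a 0), ∃ q ∈ Qs ℓ s ρ.a, (ρ.kind ≠ 4 → q = 0) ∧
      Ed ℓ s (sft K δ) ρ (θ + lam ℓ (CL s) t ρ.c δ) q = (Ed ℓ s K ρ θ (u, 0)).map (act y) by
    obtain ⟨q, h1, h2, h3⟩ := H _ hρ.u
    obtain ⟨q', h4, h5, h6⟩ := H _ hρ.v
    refine ⟨q, h1, q', h4, fun k => ⟨h2 k, h5 k⟩, ?_⟩
    rw [Xq, h3, h6]
    exact mem_Ht_of_map (mem_Ht_of_map hU.1 hU.2.1) hU.2.1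
  intro u hu
  obtain ⟨n2, n3⟩ := hNA23 ℓ s t K δ w y hs hK hδ hy e
  by_cases k2 : ρ.kind = 2
  · exact ⟨0, zero_mem _, fun _ => rfl, by simp only [Ed, if_pos k2, n2]⟩
  by_cases k3 : ρ.kind = 3
  · exact ⟨0, zero_mem _, fun _ => rfl, by simp only [Ed, if_neg k2, if_pos k3, n3]⟩
  obtain ⟨T1, T2⟩ := hθ (by have := hρ.lo; omega)
  obtain rfl := hρ.t
  have hL : pull1 y (lam ℓ (CL s) (ρ.t ℓ) ρ.c δ) = lam ℓ (CL s) (ρ.t ℓ) ρ.c (pull1 y δ) := by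
    have := aa_pull1 ((m.lamaa ℓ s (fun j => ρ.a (pm ρ.k j)) hs).1 ρ.c) hU.1 δ
    unfold Rq.t at hδ
    rw [LinearMap.comp_apply, LinearMap.comp_apply, mem_Wt_iff.1 hδ,
      mem_Wt_iff.1 (pull1_mem_Wt hl hf.dg hδ)] at this
    exact this.symm
  set θ' := θ + lam ℓ (CL s) (ρ.t ℓ) ρ.c δ with hθ'
  have hW : θ' - pull1 (st y) θ ∈ Wt ℓ (ρ.t ℓ) :=
    sub_mem (add_mem T1 (cmp_mem _ _)) (pull1_mem_Wt hl hf.star.dg T1)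
  have hTr : θ' - pull1 (st y) θ ∈ Tr ℓ s.B := by
    have := pull1_mem_Tr (hs.str.alg.star _ hU.1) hf.star.un (T2 y w hy)
    rw [eq_neg_of_add_eq_zero_right e, map_neg, ← hL, map_sub, map_sub, map_neg,
      pull1_st_pull1 hU.2.1, pull1_st_pull1 hU.2.1] at this
    convert this using 1
    rw [hθ']
    abel
  have hτ := perm_mem_Tr hs.str (pm_bij ρ.k) hTr
  have hτW := perm_mem_Wt hl (pm_bij ρ.k) (a := ρ.a) hW
  have e' : pull1 (st y) (perm (pm ρ.k) θ) + perm (pm ρ.k) (θ' - pull1 (st y) θ) =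
      perm (pm ρ.k) θ' := by
    rw [map_sub, pull1_perm (pm_bij ρ.k)]
    abel
  by_cases k4 : ρ.kind = 4
  · obtain ⟨q, h1, -, h2⟩ := (m.hinv ℓ s ρ.a (pull1 (st y) (perm (pm ρ.k) θ)) _ hs hτ hτW).1
      (y *ᵥ u, 0) ⟨hf.dg.mulVec_mem hu, fun _ _ => rfl⟩
    have := (m.nat3 ℓ y ⟨0, s.B, s.Cs⟩ ⟨0, s.B, s.Cs⟩ ρ.a (perm (pm ρ.k) θ) ⟨hs.str, hs.sp, hs.len⟩
      ⟨hf.par, map_zero _, by rw [hf.dg.gr_eq, NATURx.map_cj_self hs.str.alg hU.1 hU.2.1],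
        fun a b => by
          rw [hf.dg.gr_eq]
          exact ((List.map_congr_left (g := id) fun C hC =>
            hU.2.1.cj_of_comm ((hs.mem_cb hC).1 _ hU.1)).trans (List.map_id _)).symm⟩).1 (u, 0)
    rw [hf.dg.gr_eq] at this
    refine ⟨q, h1, fun k => absurd k4 k, ?_⟩
    simp only [Ed, if_neg k2, if_neg k3, if_pos k4]
    rw [← e', h2]
    exact this
  obtain ⟨i5, i6, i7⟩ := hHI5 ℓ s ρ.a (pull1 (st y) (perm (pm ρ.k) θ)) _ ρ.r hs hτ hτW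
  obtain ⟨j5, j6, j7⟩ := hNA5 ℓ s ρ.a (perm (pm ρ.k) θ) y ρ.r hs hU
  refine ⟨0, zero_mem _, fun _ => rfl, ?_⟩
  simp only [Ed, if_neg k2, if_neg k3, if_neg k4]
  rw [← e', i5, i6, i7, j5, j6, j7]
  split_ifs <;> rfl

end Pool.Agent.P.MP_f1a348_lc.UP
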