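import Pool.Agent.P.MP_f1a348_lc.UP.Iface

/-! Project UP: a refinement that does not split the box. -/

namespace Pool.Agent.P.MP_f1a348_lc.UP

open Matrix Module Pool.Agent.P.MP_f1a348_lc.PG
open scoped commutatorElement

theorem s_ONE (p n : ℕ) [Fact p.Prime] (b : TB p n) (hSPL1 : S_SPL1 p n) (hSPL2 : S_SPL2 p n) :
    S_ONE p n := by
  intro s EG c τ f ℓ hs hf hT hn
  obtain ⟨-, -, -, -, -, -, s3, -⟩ := b.sec.2.2.2.2.1 _ _ _ _ hf
  have hk : ∀ a : Fin 3 → Ix n, (∀ j, s.ℓ (a j) = s.ℓ (s.a j)) → key ℓ a = key ℓ s.a :=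
    fun a ha => (key_eq_iff hf.lab').2 fun j => by
      have h1 := Finset.eq_of_subset_of_card_le
        (s := Finset.univ.filter fun β => ℓ β = ℓ (s.a j))
        (t := Finset.univ.filter fun β => s.ℓ β = s.ℓ (s.a j))
        (fun β hβ => by simpa using s3 _ _ (by simpa using hβ)) (hn j)
      simpa [ha j] using Finset.ext_iff.1 h1 (a j)
  obtain ⟨h0, h1⟩ := hSPL1 s EG c τ f ℓ hs hf hT
  have skip : ∀ o t k, (∀ i, t ≤ i → i < t + k → i ≠ key ℓ s.a) → s.Thr EG f ℓ t o →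
      s.Thr EG f ℓ (t + k) o := fun o t k hi ho => by
    induction k with
    | zero => exact ho
    | succ k ih =>
      exact (hSPL2 s EG f ℓ _ o hs.toOk0 hf hT (ih fun i i1 i2 => hi i i1 (by omega))).2.1
        fun a ha => hk a ha ▸ (hi _ (by omega) (by omega)).symm
  have h2 := skip _ 0 (key ℓ s.a) (fun i _ hi => by omega) h0
  rw [zero_add] at h2
  have e : s.sub f ℓ s.a ⟨s.G, s.X, [], some 1⟩ = { s with f := f, ℓ := ℓ } := by
    simp [St.sub, pull1_one]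
  refine ⟨e ▸ h1 _ _ s.a h2 (fun _ => rfl) rfl, fun o ho => ?_⟩
  have h3 := (hSPL2 s EG f ℓ _ _ hs.toOk0 hf hT h2).1 s.a o (fun _ => rfl) rfl (e ▸ ho)
  have e' : Out.next ⟨s.G, s.X, [], some 1⟩ o = o := by
    obtain ⟨H, X, F, φ⟩ := o
    cases φ <;> simp [Out.next]
  rw [e'] at h3
  exact (hSPL2 s EG f ℓ _ o hs.toOk0 hf hT (skip o _ (top n) (fun i hi _ => by omega) h3)).2.2
    (by omega)

end Pool.Agent.P.MP_f1a348_lc.UP
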