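import Pool.Agent.P.MP_f1a348_lc.UP.EBase

/-!
Project UP: two of many relations which lie in fields are close.
-/

namespace Pool.Agent.P.MP_f1a348_lc.UP

open Matrix Module Pool.Agent.P.MP_f1a348_lc.PG

namespace OPPy

theorem fld (F : Type) [Field F] [Finite F] (x y : F) : orderOf x < Nat.card F ∧
    (orderOf x = orderOf y → ∃ k < Nat.card F, y = x ^ (k + 1)) := by
  have := Fintype.ofFinite F
  rw [Nat.card_eq_fintype_card]
  have h1 : 1 < Fintype.card F := Fintype.one_lt_card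
  have h2 : ∀ z : F, z ≠ 0 → 0 < orderOf z ∧ orderOf z < Fintype.card F := fun z hz => by
    have := orderOf_dvd_of_pow_eq_one (FiniteField.pow_card_sub_one_eq_one z hz)
    exact ⟨Nat.pos_of_dvd_of_pos this (by omega), by have := Nat.le_of_dvd (by omega) this; omega⟩
  rcases eq_or_ne x 0 with rfl | hx
  · rw [orderOf_zero]
    refine ⟨by omega, fun h => ⟨0, by omega, ?_⟩⟩
    by_contra k
    have := (h2 y (by simpa using k)).1
    omega
  · obtain ⟨h3, h4⟩ := h2 x hx
    refine ⟨h4, fun h => ?_⟩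
    have : NeZero (orderOf x) := ⟨h3.ne'⟩
    obtain ⟨i, hi, e⟩ := (IsPrimitiveRoot.orderOf x).eq_pow_of_pow_eq_one
      (ξ := y) (h ▸ pow_orderOf_eq_one y)
    rcases i with _ | i
    · exact ⟨orderOf x - 1, by omega, by
        rw [Nat.sub_add_cancel h3, pow_orderOf_eq_one, ← e, pow_zero]⟩
    · exact ⟨i, by omega, e.symm⟩

variable {p : ℕ} [Fact p.Prime] {M : Type} [AddCommGroup M] [Module (ZMod p) M] [Finite M]
  {Γ : Submodule (ZMod p) (M × M)} {g : ℕ} {Z Z' : Submodule (ZMod p) M}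
  {η : M →ₗ[ZMod p] Z} {η' : M →ₗ[ZMod p] Z'} {L : Module.End (ZMod p) Z}
  {L' : Module.End (ZMod p) Z'}

/-- an operator which describes a relation on a large subspace -/
structure Ok (Γ : Submodule (ZMod p) (M × M)) (g : ℕ) {Z : Submodule (ZMod p) M}
    (η : M →ₗ[ZMod p] Z) (L : Module.End (ZMod p) Z) : Prop where
  dim : finrank (ZMod p) M ≤ finrank (ZMod p) Z + g
  id : ∀ z : Z, η z = z
  gr : ∀ z : Z, (z.1, (L z).1) ∈ Γ
  eq : ∀ y ∈ Γ, η y.2 = L (η y.1)
  inj : ∀ k : ℕ, L ^ k - 1 ≠ 0 → Function.Injective ⇑(L ^ k - 1)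

theorem Ok.ker (a : Ok Γ g η L) : finrank (ZMod p) (LinearMap.ker η) ≤ g := by
  have h := LinearMap.finrank_range_add_finrank_ker η
  rw [(LinearMap.range_eq_top (f := η)).2 fun z => ⟨z, a.id z⟩, finrank_top] at h
  have := a.dim
  omega

omit [Finite M] in
theorem Ok.pow (a : Ok Γ g η L) (b : Ok Γ g η' L') (k : ℕ) (z : Z') :
    η ((L' ^ k) z) = (L ^ k) (η z) := by
  induction k with
  | zero => rfl
  | succ k ih =>
    rw [pow_succ', pow_succ', Module.End.mul_apply, Module.End.mul_apply, ← ih]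
    exact a.eq _ (b.gr _)

theorem Ok.one (hg : 2 * g < finrank (ZMod p) M) (a : Ok Γ g η L) (b : Ok Γ g η' L') {k : ℕ}
    (h : L' ^ k = 1) : L ^ k = 1 := by
  by_contra hk
  have h1 : Z' ≤ LinearMap.ker η := fun z hz => a.inj k (sub_ne_zero.2 hk) (by
    have := a.pow b k ⟨z, hz⟩
    rw [h] at this
    rw [map_zero, LinearMap.sub_apply, ← this]
    exact sub_self _)
  have h2 := Submodule.finrank_mono h1
  have := a.ker
  have := b.dim
  omega

theorem Ok.ord (hg : 2 * g < finrank (ZMod p) M) (a : Ok Γ g η L) (b : Ok Γ g η' L') :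
    orderOf L = orderOf L' := orderOf_eq_orderOf_iff.2 fun _ => ⟨b.one hg a, a.one hg b⟩

theorem pair (hg : 2 * g < finrank (ZMod p) M) {Γ' : Submodule (ZMod p) (M × M)}
    (h : PX.Fd p Γ Γ' g) : ∃ (Z : Submodule (ZMod p) M) (η : M →ₗ[ZMod p] Z)
      (L L' : Module.End (ZMod p) Z), Ok Γ g η L ∧ Ok Γ' g η L' ∧ orderOf L < p ^ (2 * g) ∧
      (orderOf L = orderOf L' → ∃ k < p ^ (2 * g), L' = L ^ (k + 1)) := by
  obtain ⟨Z, η, E, L, L', h1, h2, h3, h4, h5, h6, h7, h8, h9, h10⟩ := h.ex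
  have : Nontrivial Z := Module.finrank_pos_iff.1 (show 0 < finrank (ZMod p) Z by omega)
  have : Finite (Module.End (ZMod p) Z) := Finite.of_injective _ DFunLike.coe_injective
  have : NoZeroDivisors E := ⟨fun {x y} e => by
    by_cases hx : x = 0
    · exact .inl hx
    refine .inr (Subtype.ext (LinearMap.ext fun z => h3 x x.2 (fun k => hx (Subtype.ext k)) ?_))
    simpa using LinearMap.congr_fun (congrArg Subtype.val e) z⟩
  have : IsDomain E := NoZeroDivisors.to_isDomain E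
  have hc : Nat.card E ≤ p ^ (2 * g) := by
    rw [Module.natCard_eq_pow_finrank (K := ZMod p), Nat.card_zmod]
    exact Nat.pow_le_pow_right (Fact.out : p.Prime).pos h4
  have ho : ∀ x : E, orderOf (x : Module.End (ZMod p) Z) = orderOf x := fun x =>
    orderOf_injective E.val.toRingHom.toMonoidHom Subtype.val_injective x
  have hf := @fld E (Finite.isDomain_to_isField E).toField _ ⟨L, h5⟩ ⟨L', h6⟩
  refine ⟨Z, η, L, L', ⟨h1, h2, h7, h9, fun k => h3 _ (sub_mem (pow_mem h5 k) (one_mem E))⟩,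
    ⟨h1, h2, h8, h10, fun k => h3 _ (sub_mem (pow_mem h6 k) (one_mem E))⟩,
    ((ho ⟨L, h5⟩).trans_lt hf.1).trans_le hc, fun e => ?_⟩
  obtain ⟨k, hk, e'⟩ := hf.2 ((ho ⟨L, h5⟩).symm.trans (e.trans (ho ⟨L', h6⟩)))
  exact ⟨k, hk.trans_le hc, congrArg Subtype.val e'⟩

end OPPy

open OPPy

theorem s_OPP (p : ℕ) [Fact p.Prime] (hp : 5 ≤ p) : PX.S_OPP p := by
  intro Q M _ _ _ _ Γ g hg hQ h
  classical
  have := Fintype.ofFinite Q
  choose Z η L L' a b c d using fun u v => pair hg (h u v)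
  have h1 : (Finset.range (p ^ (2 * g))).card * p ^ (2 * g) < (Finset.univ : Finset Q).card := by
    rw [Finset.card_range, ← pow_add, Finset.card_univ, ← Nat.card_eq_fintype_card]
    exact (Nat.pow_le_pow_right (by omega) (by omega)).trans_lt hQ
  obtain ⟨o, -, ho⟩ := Finset.exists_lt_card_fiber_of_mul_lt_card_of_maps_to
    (f := fun u => orderOf (L u u)) (fun u _ => Finset.mem_range.2 (c u u)) h1
  obtain ⟨u, hu⟩ := Finset.card_pos.1 (Nat.zero_lt_of_lt ho)
  have h2 : ∀ v ∈ Finset.univ.filter fun u => orderOf (L u u) = o,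
      ∃ k < p ^ (2 * g), L' u v = L u v ^ (k + 1) := fun v hv => d u v (by
    rw [(a u v).ord hg (a u u), (b u v).ord hg (a v v), (Finset.mem_filter.1 hu).2,
      (Finset.mem_filter.1 hv).2])
  choose! k hk e using h2
  obtain ⟨v, hv, v', hv', hne, e'⟩ := Finset.exists_ne_map_eq_of_card_lt_of_maps_to
    (t := Finset.range (p ^ (2 * g))) (by rwa [Finset.card_range]) (f := k)
    fun v hv => Finset.mem_coe.2 (Finset.mem_range.2 (hk v hv))
  refine ⟨v, v', hne, Z u v ⊓ Z u v', LinearMap.ker (η u v), ?_, (a u v).ker, fun z hz =>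
    ⟨_, _, (b u v).gr ⟨z, hz.1⟩, (b u v').gr ⟨z, hz.2⟩, ?_⟩⟩
  · have := Submodule.finrank_sup_add_finrank_inf_eq (Z u v) (Z u v')
    have := Submodule.finrank_le (Z u v ⊔ Z u v')
    have := (a u v).dim
    have := (a u v').dim
    omega
  · rw [LinearMap.mem_ker, map_sub, (a u v).id, e v' hv', (a u v).pow (a u v'), e v hv, e',
      sub_eq_zero]
    exact congrArg _ ((a u v).id ⟨z, hz.1⟩).symm

end Pool.Agent.P.MP_f1a348_lc.UP
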