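import Pool.Agent.P.MP_f1a348_lc.UP.Iface

/-! Project UP: balanced subspaces pay; cyclic submodules of a slot. -/

namespace Pool.Agent.P.MP_f1a348_lc.UP

open Matrix Module Pool.Agent.P.MP_f1a348_lc.PG
open scoped commutatorElement

namespace PAYBz

variable {p n : ℕ} [Fact p.Prime] {s : St p n}

theorem paid (b : TB p n) (h0 : s.Ok0) (h1 : s.Sim) {R : Sub p n} {k e : ℕ} (hk : k ≤ p ^ e)
    (he : 1 + e ≤ 200 * (PhiS s.μ s.ll (s.le s.G) - PhA s.μ s.ll R)) : s.Paid k R := by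
  have hp : 0 < p := (Fact.out : p.Prime).pos
  rw [St.Paid, St.ph, St.ph, (b.phi s.μ).2.1 _ _ ((b.coc s h0).2.2.2.2.2.2.2.2.2.2.2.2.2 h1)]
  calc _ ≤ p * p ^ e * p ^ (200 * PhA s.μ s.ll R) := by gcongr
    _ = p ^ (1 + e + 200 * PhA s.μ s.ll R) := by ring
    _ ≤ _ := Nat.pow_le_pow_right hp (by omega)

theorem slot (b : TB p n) (h0 : s.Ok0) {α : Ix n} (h : α ∈ s.lam) :
    nb s.ll α = nb s.ℓ α ∧ (Vb s.ll α : VS p n) = Vb s.ℓ α ∧ (pr s.ll α : Mat p n) = pr s.ℓ α :=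
  have := (b.lc.1 s.ℓ s.lam h0.lab (b.coc s h0).2.1).2.2.2.2.1 α h
  ⟨this.1, this.2.1, this.2.2.1⟩

theorem amem (b : TB p n) (h0 : s.Ok0) (j : Fin 3) : s.a j ∈ s.lam := (b.lc.2 s.ℓ s.a h0.lab).2.1 j

theorem rb_lo (b : TB p n) (h0 : s.Ok0) {α : Ix n} (h : α ∈ s.lam) (x : Mat p n)
    (v : (Vb s.ℓ α : VS p n)) : (rb s.f s.ℓ α x v).1 = s.lo x *ᵥ v.1 := by
  have e := ((b.lc.1 s.ℓ s.lam h0.lab (b.coc s h0).2.1).2.2.2.1 (fr s.f x)).2.2.2.2.1 α h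
  have e' : gr s.ℓ (fr s.f x) * pr s.ℓ α = pr s.ℓ α * fr s.f x * pr s.ℓ α := by
    ext β γ
    rw [mul_pr_apply, mul_pr_apply, pr_mul_apply, gr_apply]
    split_ifs with h1 h2 h3 h3
    exacts [rfl, (h3 (h2.trans h1)).elim, (h2 (h3.trans h1.symm)).elim, rfl, rfl]
  rw [(b.rb s.f s.ℓ α h0.lab).1, ← mem_Vb_iff.1 v.2, Matrix.mulVec_mulVec, Matrix.mulVec_mulVec,
    ← e', ← e]
  rfl

/-- the action of an algebra on an invariant subspace -/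
def rs {ℓ : Ix n → ℕ} {A : Sub p n} (hA : Alg ℓ A) (W : VS p n) :
    Subalgebra (ZMod p) (Module.End (ZMod p) W) where
  carrier := {r | ∃ x ∈ A, ∀ v, (r v).1 = x *ᵥ v.1}
  mul_mem' := fun ⟨x, hx, e⟩ ⟨y, hy, e'⟩ => ⟨x * y, hA.mul x hx y hy, fun v => by
    rw [Module.End.mul_apply, e, e', Matrix.mulVec_mulVec]⟩
  add_mem' := fun ⟨x, hx, e⟩ ⟨y, hy, e'⟩ => ⟨x + y, add_mem hx hy, fun v => by
    rw [LinearMap.add_apply, Submodule.coe_add, e, e', Matrix.add_mulVec]⟩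
  algebraMap_mem' c := ⟨c • 1, A.smul_mem c hA.one, fun v => by
    rw [Matrix.smul_mulVec, Matrix.one_mulVec]; rfl⟩

theorem rs_orb {ℓ : Ix n → ℕ} {A : Sub p n} (hA : Alg ℓ A) {W : VS p n} (hW : Inv A W) (w y : W) :
    y.1 ∈ orb A w.1 ↔ ∃ r ∈ rs hA W, r w = y :=
  ⟨fun ⟨x, hx, e⟩ => ⟨x.mulVecLin.restrict (hW x hx), ⟨x, hx, fun _ => rfl⟩, Subtype.ext e⟩,
    fun ⟨_, ⟨x, hx, e⟩, e'⟩ => ⟨x, hx, by rw [← e', e]; rfl⟩⟩

theorem rk {A : Sub p n} {W : VS p n} (hW : Inv A W) (w : W) :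
    finrank (ZMod p) ((orb A w.1).comap W.subtype) = finrank (ZMod p) (orb A w.1) :=
  (Submodule.comapSubtypeEquivOfLe (by rintro _ ⟨x, hx, rfl⟩; exact hW x hx _ w.2)).finrank_eq

theorem ext_com {ℓ : Ix n → ℕ} {A : Sub p n} (hA : Alg ℓ A) (α : Ix n)
    {c : Module.End (ZMod p) (Vb ℓ α : VS p n)} (hc : ∀ r ∈ rs hA (Vb ℓ α), c * r = r * c) :
    ∃ C ∈ Cb ℓ A α α, ∀ v, C *ᵥ v.1 = (c v).1 := by
  have hW : Inv A (Vb ℓ α) := fun x hx u hu => (hA.dg x hx).mulVec_mem hu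
  obtain ⟨C, hC⟩ : ∃ C : Mat p n, ∀ u, C *ᵥ u = (c ⟨_, pr_mulVec_mem α u⟩).1 :=
    ⟨LinearMap.toMatrix' ((Vb ℓ α).subtype ∘ₗ c ∘ₗ (pr ℓ α).mulVecLin.codRestrict _
      (pr_mulVec_mem α)), fun u => LinearMap.toMatrix'_mulVec _ u⟩
  refine ⟨C, ⟨fun x hx => mat_ext fun u => ?_, mat_ext fun u => ?_⟩, fun v => ?_⟩
  · have := congrArg Subtype.val (LinearMap.congr_fun (hc (x.mulVecLin.restrict (hW x hx))
      ⟨x, hx, fun _ => rfl⟩) ⟨_, pr_mulVec_mem α u⟩)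
    rw [← Matrix.mulVec_mulVec, ← Matrix.mulVec_mulVec, hC, hC]
    refine Eq.trans (congrArg (fun z => (c z).1) (Subtype.ext ?_)) this
    show pr ℓ α *ᵥ x *ᵥ u = x *ᵥ pr ℓ α *ᵥ u
    rw [Matrix.mulVec_mulVec, Matrix.mulVec_mulVec, (hA.dg x hx).comm_pr]
  · rw [← Matrix.mulVec_mulVec, ← Matrix.mulVec_mulVec, hC, hC, mem_Vb_iff.1 (Subtype.prop _)]
    exact congrArg (fun z => (c z).1) (Subtype.ext (mem_Vb_iff.1 (pr_mulVec_mem α u)))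
  · rw [hC]
    exact congrArg (fun z => (c z).1) (Subtype.ext (mem_Vb_iff.1 v.2))

end PAYBz

open PAYBz in
theorem s_PAYB (p n : ℕ) [Fact p.Prime] (b : TB p n) : S_PAYB p n := by
  intro s j h0 h1 hs Q U k hQ hU hI hM hk
  have c := b.coc s h0
  have hB := c.2.2.2.2.2.2.2.2.2.2.2.2.2 h1
  have e := (slot b h0 (amem b h0 j)).1
  have h2 := nb_pos s.ℓ (s.a j)
  obtain ⟨m1, m2⟩ := hM
  have := (b.gabc s.μ s.ll _ _ hB (c.2.2.2.2.2.1 Q hQ).1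
    ((c.2.2.2.2.2.1 _ le_rfl).2.2.1 Q hQ)).2.1 (s.a j) U
    (fun t => by have := triv_nb hB t; omega) (e ▸ hs j) hU hI (e ▸ m1) (e ▸ m2)
  exact paid b h0 h1 hk (by omega)

open PAYBz in
theorem s_CYC (p n : ℕ) [Fact p.Prime] (b : TB p n) (hCLIFF : S_CLIFF p n) (hGSL : S_GSL p n)
    (hHOMB : S_HOMB p n) (hACW : S_ACW p) (hCYB : S_CYB p) : S_CYC p n := by
  intro s j h0 h1 hX
  have _ := hCLIFF
  have c := b.coc s h0
  obtain ⟨e1, e2, e3⟩ := slot b h0 (amem b h0 j)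
  have cX := c.2.2.2.2.2.1 _ h0.le
  have hA := cX.1
  have hW : Inv (s.le s.X) (Vb s.ll (s.a j)) := fun x hx u hu => (hA.dg x hx).mulVec_mem hu
  have hb := hHOMB _ (Cb s.ll (s.le s.X) (s.a j) (s.a j)) _ (gam n) hA.one hA.mul hW
    (fun L U h h' => (hGSL s j (s.a j) h0 h1 hX (.inl rfl) L U h.invL h.invU h.lt h').le)
    (fun C hC x hx u _ => com_mulVec hC.1 hx u) fun C hC h => mat_ext fun u => by
      rw [← cb_right hC, ← Matrix.mulVec_mulVec, h _ (pr_mulVec_mem _ u), Matrix.zero_mulVec]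
  have r := b.rb s.f s.ℓ (s.a j) h0.lab
  have key : ∃ σ : GG p n → Module.End (ZMod p) (Vb s.ll (s.a j) : VS p n), PX.Rp s.G σ ∧
      PX.Irr s.G σ ∧ ∀ g v, (σ g v).1 = s.lo g.1 *ᵥ v.1 := by
    rw [e2]
    exact ⟨_, (r.2.1 _ (c.2.2.2.2.2.2.2.2.2.2.1 j).2).1, r.2.2.2.1 _ h1,
      fun g v => rb_lo b h0 (amem b h0 j) _ v⟩
  obtain ⟨σ, s1, s2, s3⟩ := key
  obtain ⟨ss, cy⟩ := hCYB _ _ s.G σ (rs hA _) s1 s2 fun h hh r ⟨x, hx, e⟩ =>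
    ⟨_, cX.2.2.2.2.2 h hh (h0.nm h hh) x hx, fun v => by
      rw [Module.End.mul_apply, Module.End.mul_apply, s3, e, s3, val_inv,
        (c.2.2.2.2.1 _ ((b.env.1 _).2.1 h hh)).1, cj_apply, Matrix.mulVec_mulVec,
        Matrix.mulVec_mulVec]⟩
  obtain ⟨w, hw⟩ := hACW _ _ ss
  have le : (Vb s.ll (s.a j) : VS p n) ≤
      orb (s.le s.X) w.1 ⊔ orb (Cb s.ll (s.le s.X) (s.a j) (s.a j)) w.1 := fun y hy => by
    obtain ⟨r, hr, d, hd, e⟩ := hw ⟨y, hy⟩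
    obtain ⟨C, hC, e'⟩ := ext_com hA _ hd
    rw [show y = (r w).1 + (d w).1 from congrArg Subtype.val e]
    exact Submodule.add_mem_sup ((rs_orb hA hW w _).2 ⟨r, hr, rfl⟩) ⟨C, hC, e' w⟩
  have f1 := (Submodule.finrank_mono le).trans (Submodule.finrank_add_le_finrank_add_finrank _ _)
  have f2 : finrank (ZMod p) (orb (Cb s.ll (s.le s.X) (s.a j) (s.a j)) w.1) ≤ _ :=
    Submodule.finrank_map_le _ _
  have f3 : 200 * finrank (ZMod p) (Cb s.ll (s.le s.X) (s.a j) (s.a j)) ≤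
      finrank (ZMod p) (Vb s.ll (s.a j) : VS p n) :=
    Nat.le_of_mul_le_mul_right (by rw [gam] at hb; linarith) (Nat.succ_pos (2 * n))
  rcases cy w _ (fun y => rs_orb hA hW w y) (by rw [rk hW w]; omega) with ⟨v, U, hU, hM⟩ | h
  · obtain rfl : U = (orb (s.le s.X) v.1).comap (Submodule.subtype _) :=
      Submodule.ext fun y => (hU y).trans (rs_orb hA hW v y).symm
    rw [rk hW, finrank_Vb, e1] at hM
    exact .inl ⟨v.1, v.2, hM⟩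
  · exact .inr fun x hx h' y hy => (rs_orb hA hW ⟨x, hx⟩ ⟨y, hy⟩).2
      (h _ (fun e => h' (congrArg Subtype.val e)) _)

end Pool.Agent.P.MP_f1a348_lc.UP
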