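import Pool.Agent.P.MP_f1a348_lc.UP.EBase

/-! Bounds for the potential with scales. -/

namespace Pool.Agent.P.MP_f1a348_lc.UP

open Matrix Module Pool.Agent.P.MP_f1a348_lc.PG

namespace PHBy

open Finset

variable {n : ℕ}

theorem sc_le (μ : Fin 3 → ℕ) (k : ℕ) : sc μ k ≤ 3 := by
  unfold sc
  rw [Fin.sum_univ_three]
  split_ifs <;> omega

theorem sc_upd (μ : Fin 3 → ℕ) (j : Fin 3) (x k : ℕ) :
    sc (Function.update μ j x) k ≤ sc μ k + if 2 * k ≤ μ j then 1 else 0 := by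
  unfold sc
  rw [← add_sum_erase _ _ (mem_univ j),
    ← add_sum_erase _ (fun i => if μ i < 2 * k then 1 else 0) (mem_univ j),
    sum_congr rfl fun i hi => by rw [Function.update_of_ne (ne_of_mem_erase hi)]]
  split_ifs <;> omega

theorem sum_nb (ℓ : Ix n → ℕ) (S : Finset (Ix n)) (h : ∀ α ∈ S, ℓ α = α.val) :
    ∑ α ∈ S, nb ℓ α ≤ 2 * n + 1 := by
  unfold nb
  rw [← card_biUnion]
  · simpa using card_le_univ (S.biUnion fun α => univ.filter fun β => ℓ β = ℓ α)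
  · intro α hα β hβ e
    refine disjoint_left.2 fun γ h1 h2 => e (Fin.ext ?_)
    rw [← h α hα, ← h β hβ, ← (mem_filter.1 h1).2, ← (mem_filter.1 h2).2]

theorem card_six (ℓ : Ix n → ℕ) (a : Fin 3 → Ix n) (S : Finset (Ix n))
    (h : ∀ α ∈ S, ∃ i, α.val = ℓ (a i) ∨ α.val = ℓ (a i).rev) : S.card ≤ 6 := by
  have h1 := card_le_card_of_injOn (s := S) (t := (univ : Finset (Fin 3 × Bool)).image
    fun q => if q.2 then ℓ (a q.1) else ℓ (a q.1).rev) Fin.val (fun α hα => by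
      obtain ⟨i, e | e⟩ := h α hα
      · exact mem_coe.2 (mem_image.2 ⟨(i, true), mem_univ _, e.symm⟩)
      · exact mem_coe.2 (mem_image.2 ⟨(i, false), mem_univ _, e.symm⟩)) Fin.val_injective.injOn
  exact h1.trans (card_image_le.trans (by simp))

end PHBy

open Finset in
theorem s_PHB (p n : ℕ) [Fact p.Prime] (m : PM p n) : S_PHB p n := by
  classical
  intro μ ℓ B _
  obtain ⟨S, hS⟩ : ∃ S : Finset (Ix n), S = univ.filter fun α => Rep ℓ B α ∧ ¬ Triv ℓ B α :=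
    ⟨_, rfl⟩
  have e : ∀ ν, PhiS ν ℓ B = ∑ α ∈ S, (nb ℓ α * (3 + sc ν (nb ℓ α)) - eb ℓ B α) := fun ν => by
    rw [hS, sum_filter, PhiS]
  have hm : ∀ α ∈ S, Rep ℓ B α ∧ ¬ Triv ℓ B α := fun α hα => by
    rw [hS] at hα
    exact (mem_filter.1 hα).2
  refine ⟨?_, fun a j x h => ?_, fun k k' h => ?_, fun k ⟨j, h1, h2⟩ x h => ?_⟩
  · rw [e]
    refine le_trans (sum_le_sum fun α _ => ?_) ((mul_sum S (nb ℓ) 6).ge.trans
      (Nat.mul_le_mul_left 6 (PHBy.sum_nb ℓ S fun α hα => (hm α hα).1.1)))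
    have := Nat.mul_le_mul_left (nb ℓ α) (Nat.add_le_add_left (PHBy.sc_le μ (nb ℓ α)) 3)
    omega
  · have h1 := PHBy.card_six ℓ a S fun α hα => (hm α hα).1.1 ▸ h α (hm α hα).2
    have h2 : ∑ α ∈ S, 2 * (nb ℓ α * (3 + sc (Function.update μ j x) (nb ℓ α)) - eb ℓ B α) ≤
        ∑ α ∈ S, (2 * (nb ℓ α * (3 + sc μ (nb ℓ α)) - eb ℓ B α) + μ j) := by
      refine sum_le_sum fun α _ => ?_
      have := Nat.mul_le_mul_left (nb ℓ α) (PHBy.sc_upd μ j x (nb ℓ α))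
      simp only [mul_add] at this ⊢
      split_ifs at this <;> omega
    rw [sum_add_distrib, ← mul_sum, ← mul_sum, ← e, ← e, sum_const, smul_eq_mul] at h2
    have h3 := Nat.mul_le_mul_right (μ j) h1
    omega
  · refine sum_le_sum fun j _ => ?_
    split_ifs <;> omega
  · refine sum_lt_sum (fun i _ => ?_) ⟨j, mem_univ _, ?_⟩
    · split_ifs <;> omega
    · split_ifs <;> omega

end Pool.Agent.P.MP_f1a348_lc.UP
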