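import Pool.Agent.P.MP_f1a348_lc.UP.EBase

namespace Pool.Agent.P.MP_f1a348_lc.UP

open Matrix Module Pool.Agent.P.MP_f1a348_lc.PG

namespace PHIy

variable {p n : ℕ} [Fact p.Prime]

theorem pow_ne {ℓ : Ix n → ℕ} {M : Mat p n} (hM : Tri ℓ M) (h0 : gr ℓ M = 0) (k : ℕ) :
    ∀ a b, (M ^ k) a b ≠ 0 → ℓ a + k ≤ ℓ b := by
  induction k with
  | zero =>
    intro a b e
    rw [pow_zero] at e
    exact (Tri.one (ℓ := ℓ) a b e).1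
  | succ k ih =>
    intro a b e
    rw [pow_succ] at e
    obtain ⟨c, h1, h2⟩ := exists_of_mul_ne e
    have h3 := ih a c h1
    have h4 := (hM c b h2).1
    have h5 : ℓ c ≠ ℓ b := fun e' => by
      have := congrFun (congrFun h0 c) b
      rw [gr_apply, if_pos e'] at this
      exact h2 this
    omega

theorem nil_tri {ℓ : Ix n → ℕ} (hl : Lab ℓ) {M : Mat p n} (hM : Tri ℓ M) (h0 : gr ℓ M = 0) :
    IsNilpotent M := by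
  refine ⟨2 * n + 1, ?_⟩
  ext a b
  by_contra e
  have h1 := pow_ne hM h0 (2 * n + 1) a b e
  have h2 := hl.lt b
  omega

theorem conj_pow {g : Mat p n} (hg : Un g) (M : Mat p n) (k : ℕ) :
    (g * M * st g) ^ k = g * M ^ k * st g := by
  induction k with
  | zero => rw [pow_zero, pow_zero, mul_one, hg.mul_st]
  | succ k ih =>
    rw [pow_succ, ih, pow_succ]
    calc g * M ^ k * st g * (g * M * st g) = g * M ^ k * (st g * g) * M * st g := by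
          simp only [mul_assoc]
      _ = g * (M ^ k * M) * st g := by rw [hg.st_mul, mul_one]; simp only [mul_assoc]

theorem pi_apply (ℓ' : Ix n → ℕ) (g x : Mat p n) :
    (gr ℓ' ∘ₗ cj (st g)) x = gr ℓ' (st g * x * g) := by
  rw [LinearMap.comp_apply, cj_apply, st_st]

theorem hm_ref {ℓ ℓ' : Ix n → ℕ} {A B' : Sub p n} {g : Mat p n} (hl : Lab ℓ) (hA : Alg ℓ A)
    (h : Ref ℓ A ℓ' g B') : Hm A (gr ℓ' ∘ₗ cj (st g)) where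
  one := by rw [pi_apply, mul_one, h.par.2.1.st_mul, gr_one]
  mul x hx y hy := by
    rw [pi_apply, pi_apply, pi_apply, ← gr_mul (h.tri x hx) (h.tri y hy)]
    congr 1
    calc st g * (x * y) * g = st g * x * (g * st g) * y * g := by
          rw [h.par.2.1.mul_st, mul_one]; simp only [mul_assoc]
      _ = st g * x * g * (st g * y * g) := by simp only [mul_assoc]
  chi x hx := by
    have h1 : Tri ℓ (st g) := (h.par.star hl).1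
    have h2 : Tri ℓ x := (hA.dg x hx).tri hl
    rw [pi_apply, gr_apply, if_pos rfl, (h1.mul h2).mul_c0, h1.mul_c0, (h.par.star hl).2.2,
      h.par.2.2, one_mul, mul_one]

theorem nil_ref {ℓ ℓ' : Ix n → ℕ} {A B' : Sub p n} {g : Mat p n} (h : Ref ℓ A ℓ' g B')
    {x : Mat p n} (hx : x ∈ A) (h0 : (gr ℓ' ∘ₗ cj (st g)) x = 0) : IsNilpotent x := by
  rw [pi_apply] at h0
  obtain ⟨k, hk⟩ := nil_tri h.lab (h.tri x hx) h0
  refine ⟨k, ?_⟩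
  have e : x = g * (st g * x * g) * st g := by
    calc x = (g * st g) * x * (g * st g) := by rw [h.par.2.1.mul_st, one_mul, mul_one]
      _ = g * (st g * x * g) * st g := by simp only [mul_assoc]
  rw [e, conj_pow h.par.2.1, hk, mul_zero, zero_mul]

theorem pow_mem {R : Sub p n} (h1 : (1 : Mat p n) ∈ R) (hm : ∀ x ∈ R, ∀ y ∈ R, x * y ∈ R)
    {x : Mat p n} (hx : x ∈ R) (k : ℕ) : x ^ k ∈ R := by
  induction k with
  | zero => rwa [pow_zero]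
  | succ k ih => rw [pow_succ]; exact hm _ ih _ hx

theorem hm_pow {R : Sub p n} (h1 : (1 : Mat p n) ∈ R) (hm : ∀ x ∈ R, ∀ y ∈ R, x * y ∈ R)
    {π : Mat p n →ₗ[ZMod p] Mat p n} (h : Hm R π) {x : Mat p n} (hx : x ∈ R) (k : ℕ) :
    π (x ^ k) = π x ^ k := by
  induction k with
  | zero => rw [pow_zero, pow_zero, h.one]
  | succ k ih => rw [pow_succ, pow_succ, h.mul _ (pow_mem h1 hm hx k) _ hx, ih]

theorem hm_comp {R : Sub p n} {π ρ : Mat p n →ₗ[ZMod p] Mat p n} (h : Hm R π)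
    (h' : Hm (R.map π) ρ) : Hm R (ρ ∘ₗ π) where
  one := by rw [LinearMap.comp_apply, h.one, h'.one]
  mul x hx y hy := by
    simp only [LinearMap.comp_apply]
    rw [h.mul x hx y hy, h'.mul _ ⟨x, hx, rfl⟩ _ ⟨y, hy, rfl⟩]
  chi x hx := by rw [LinearMap.comp_apply, h'.chi _ ⟨x, hx, rfl⟩, h.chi x hx]

theorem key (m : PM p n) (hQUO : S_QUO p n) (μ : Fin 3 → ℕ) {ℓ1 ℓ2 : Ix n → ℕ} {R : Sub p n}
    {π1 π2 : Mat p n →ₗ[ZMod p] Mat p n} (hl1 : Lab ℓ1) (hl2 : Lab ℓ2)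
    (h1 : (1 : Mat p n) ∈ R) (hm : ∀ x ∈ R, ∀ y ∈ R, x * y ∈ R) (H1 : Hm R π1) (H2 : Hm R π2)
    (A1 : Alg ℓ1 (R.map π1)) (A2 : Alg ℓ2 (R.map π2))
    (hn : ∀ x ∈ R, π2 x = 0 → IsNilpotent (π1 x)) {k1 k2 : Ix n → ℕ} {g1 g2 : Mat p n}
    {B1 B2 : Sub p n} (r1 : Ref ℓ1 (R.map π1) k1 g1 B1) (s1 : Sim k1 B1)
    (r2 : Ref ℓ2 (R.map π2) k2 g2 B2) (s2 : Sim k2 B2) : PhiS μ k1 B1 ≤ PhiS μ k2 B2 := by
  have e1 : B1 = R.map ((gr k1 ∘ₗ cj (st g1)) ∘ₗ π1) := by rw [Submodule.map_comp, ← r1.eq]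
  have e2 : B2 = R.map ((gr k2 ∘ₗ cj (st g2)) ∘ₗ π2) := by rw [Submodule.map_comp, ← r2.eq]
  have S1 : Str k1 B1 := ⟨r1.lab, (m.ref ℓ1 _ hl1 A1).2.1 _ _ _ r1, s1⟩
  have S2 : Str k2 B2 := ⟨r2.lab, (m.ref ℓ2 _ hl2 A2).2.1 _ _ _ r2, s2⟩
  have G1 := hm_ref hl1 A1 r1
  have G2 := hm_ref hl2 A2 r2
  rw [e1] at S1
  rw [e2] at S2
  rw [e1, e2]
  refine (hQUO μ k1 k2 R _ _ h1 hm (hm_comp H1 G1) (hm_comp H2 G2) S1 S2 fun x hx h0 => ?_).2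
  obtain ⟨k, hk⟩ := nil_ref r2 ⟨x, hx, rfl⟩ h0
  rw [← hm_pow h1 hm H2 hx] at hk
  obtain ⟨j, hj⟩ := hn _ (pow_mem h1 hm hx k) hk
  rw [hm_pow h1 hm H1 hx, ← pow_mul] at hj
  refine ⟨k * j, ?_⟩
  rw [LinearMap.comp_apply, ← hm_pow A1.one A1.mul G1 ⟨x, hx, rfl⟩, hj, map_zero]

theorem hm_id (R : Sub p n) : Hm R LinearMap.id := ⟨rfl, fun _ _ _ _ => rfl, fun _ _ => rfl⟩

theorem key1 (m : PM p n) (hQUO : S_QUO p n) (μ : Fin 3 → ℕ) {ℓ : Ix n → ℕ} {A : Sub p n}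
    (hl : Lab ℓ) (hA : Alg ℓ A) {k1 k2 : Ix n → ℕ} {g1 g2 : Mat p n} {B1 B2 : Sub p n}
    (r1 : Ref ℓ A k1 g1 B1) (s1 : Sim k1 B1) (r2 : Ref ℓ A k2 g2 B2) (s2 : Sim k2 B2) :
    PhiS μ k1 B1 ≤ PhiS μ k2 B2 := by
  have e : A.map (LinearMap.id : Mat p n →ₗ[ZMod p] Mat p n) = A := Submodule.map_id A
  refine key m hQUO μ hl hl hA.one hA.mul (hm_id A) (hm_id A) (e.symm ▸ hA) (e.symm ▸ hA)
    (fun x _ h0 => ?_) (e.symm ▸ r1) s1 (e.symm ▸ r2) s2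
  rw [h0]
  exact IsNilpotent.zero

theorem pha_eq (m : PM p n) (hQUO : S_QUO p n) (μ : Fin 3 → ℕ) {ℓ ℓ' : Ix n → ℕ}
    {A B' : Sub p n} {g : Mat p n} (hl : Lab ℓ) (hA : Alg ℓ A) (r : Ref ℓ A ℓ' g B')
    (s : Sim ℓ' B') : PhA μ ℓ A = PhiS μ ℓ' B' := by
  have e : {x | ∃ ℓ' g B', Ref ℓ A ℓ' g B' ∧ Sim ℓ' B' ∧ x = PhiS μ ℓ' B'} = {PhiS μ ℓ' B'} := by
    ext x
    constructor
    · rintro ⟨k, g2, B2, r2, s2, rfl⟩
      exact le_antisymm (key1 m hQUO μ hl hA r2 s2 r s) (key1 m hQUO μ hl hA r s r2 s2)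
    · rintro rfl
      exact ⟨ℓ', g, B', r, s, rfl⟩
  rw [PhA, e, csSup_singleton]

end PHIy

theorem s_PHI (p n : ℕ) [Fact p.Prime] (m : PM p n) (hREFX : S_REFX p n) (hQUO : S_QUO p n) :
    S_PHI p n := by
  intro μ
  refine ⟨fun ℓ ℓ' A B' g hl hA r s => PHIy.pha_eq m hQUO μ hl hA r s, fun ℓ B h => ?_, ?_⟩
  · exact PHIy.pha_eq m hQUO μ h.lab h.alg (m.ref ℓ B h.lab h.alg).1 h.sim
  · intro ℓ1 ℓ2 R π1 π2 hl1 hl2 h1 hm H1 H2 A1 A2 hn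
    obtain ⟨k1, g1, B1, r1, s1⟩ := hREFX ℓ1 _ hl1 A1
    obtain ⟨k2, g2, B2, r2, s2⟩ := hREFX ℓ2 _ hl2 A2
    rw [PHIy.pha_eq m hQUO μ hl1 A1 r1 s1.sim, PHIy.pha_eq m hQUO μ hl2 A2 r2 s2.sim]
    exact PHIy.key m hQUO μ hl1 hl2 h1 hm H1 H2 A1 A2 hn r1 s1.sim r2 s2.sim

end Pool.Agent.P.MP_f1a348_lc.UP
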