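import Pool.Agent.P.MP_f1a348_lc.UP.EBase

namespace Pool.Agent.P.MP_f1a348_lc.UP

open Matrix Module Pool.Agent.P.MP_f1a348_lc.PG

theorem s_PHM (p n : ℕ) [Fact p.Prime] (m : PM p n) (hGQ : S_GQ p n) (hREFX : S_REFX p n)
    (hPHI : S_PHI p n) : S_PHM p n := by
  intro μ ℓ A A' hl hA hA' hle
  obtain ⟨ℓ1, g1, B1, r1, s1⟩ := hREFX ℓ A hl hA
  have r2 : Ref ℓ A' ℓ1 g1 (A'.map (gr ℓ1 ∘ₗ cj (st g1))) :=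
    ⟨r1.lab, r1.fine, r1.par, r1.dg, fun b hb => r1.tri b (hle hb), rfl⟩
  have a2 := (m.ref ℓ A' hl hA').2.1 _ _ _ r2
  obtain ⟨ℓ2, g2, B2, r3, s3⟩ := hREFX ℓ1 _ r1.lab a2
  rw [(hPHI μ).1 _ _ _ _ _ hl hA' ((m.ref ℓ A' hl hA').2.2.1 _ _ _ _ _ _ r2 r3) s3.sim,
    ← (hPHI μ).1 _ _ _ _ _ r1.lab a2 r3 s3.sim, (hPHI μ).1 _ _ _ _ _ hl hA r1 s1.sim]
  exact (hGQ μ ℓ1 B1 _ s1 a2 (r1.eq ▸ Submodule.map_mono hle)).1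

end Pool.Agent.P.MP_f1a348_lc.UP
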