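import Pool.Agent.P.MP_f1a348_lc.UP.EBase

/-! A form that is not a trace yields a recipe that pays. -/

namespace Pool.Agent.P.MP_f1a348_lc.UP

open Matrix Module Pool.Agent.P.MP_f1a348_lc.PG

set_option linter.unusedVariables false in
theorem s_PQ (p n : ℕ) [Fact p.Prime] (m : PM p n) (hPQ1 : S_PQ1 p n) (hPQ3 : S_PQ3 p n)
    (hGABC : S_GABC p n) : S_PQ p n := by
  intro μ ℓ s a K θ c hs hbig hsc hnt hθ hn0
  have hl := hs.str.lab
  obtain ⟨j0, hj0⟩ : ∃ j0, Triv ℓ s.B (a j0) ∨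
      ((∀ j, ¬ Triv ℓ s.B (a j)) ∧ ∀ j, nb ℓ (a j0) ≤ nb ℓ (a j)) := by
    by_cases ht : ∃ j, Triv ℓ s.B (a j)
    · exact ht.imp fun j hj => Or.inl hj
    · obtain ⟨j0, -, h0⟩ := Finset.exists_min_image Finset.univ (fun j => nb ℓ (a j))
        Finset.univ_nonempty
      exact ⟨j0, Or.inr ⟨fun j hj => ht ⟨j, hj⟩, fun j => h0 j (Finset.mem_univ j)⟩⟩
  obtain ⟨k, hk, ek⟩ := exists_pm (Equiv.swap (0 : Fin 3) j0).bijective
  have hσ : ∀ j, pm k (pm k j) = j := fun j => by rw [ek]; exact Equiv.swap_apply_self _ _ j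
  have h0 : pm k 0 = j0 := by rw [ek]; exact Equiv.swap_apply_left _ _
  obtain ⟨b, hb⟩ : ∃ b : Fin 3 → Ix n, b = fun j => a (pm k j) := ⟨_, rfl⟩
  have hba : (fun j => b (pm k j)) = a := by funext j; rw [hb]; dsimp only; rw [hσ]
  have hb0 : b 0 = a j0 := by rw [hb]; dsimp only; rw [h0]
  have hW : perm (pm k) θ ∈ Wt ℓ (key ℓ b) := perm_mem_Wt hl (pm_bij k) (hba.symm ▸ hθ)
  have hN : perm (pm k) θ ∉ Tr ℓ s.B := fun h2 => by
    have h3 := perm_mem_Tr hs.str (pm_bij k) h2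
    rw [perm_perm, show pm k ∘ pm k = id from funext hσ, perm_id] at h3
    exact hn0 h3
  have hkey : key ℓ (fun j => b (pm k j)) = key ℓ a := by rw [hba]
  rcases hj0 with ht | ⟨hall, hmin⟩
  · have hne : ¬ Triv ℓ s.B (b 1) ∨ ¬ Triv ℓ s.B (b 2) := by
      obtain ⟨j, hj⟩ := hnt
      rw [← congrFun hba j] at hj
      generalize pm k j = m at hj
      fin_cases m
      · exact absurd (hb0 ▸ ht) hj
      · exact Or.inl hj
      · exact Or.inr hj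
    have hu : Pi.single (b 0) 1 ∈ (Vb ℓ (b 0) : VS p n) := single_mem_Vb rfl 1
    have ht' : Triv ℓ s.B (b 0) := hb0 ▸ ht
    exact ⟨⟨4, b, k, c, Pi.single (b 0) 1, Pi.single (b 0) 1, 0⟩, rfl, le_rfl,
      ⟨by norm_num, by norm_num, hk, by dsimp only; omega, hkey, hu, hu, fun _ => .inl ht'⟩,
      hPQ1 μ ℓ s b _ _ _ hs hsc hW hN ht' hne hu (fun e => by simpa using congrFun e (b 0))
        (aq_alg hs.str.alg _ _ _) (Ht_le _ _ _)⟩
  have hnb : ∀ j, ¬ Triv ℓ s.B (b j) := fun j => by rw [hb]; exact hall _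
  have hmin' : ∀ j, nb ℓ (b 0) ≤ nb ℓ (b j) := fun j => by
    rw [hb0]; rw [hb]; exact hmin _
  rcases hPQ3 μ ℓ s b _ hs hbig hsc hW hN hnb hmin' with ⟨u, hu, v, hv, H⟩ | ⟨r, hr, H⟩
  · exact ⟨⟨4, b, k, c, u, v, 0⟩, rfl, le_rfl,
      ⟨by norm_num, by norm_num, hk, by dsimp only; omega, hkey, hu, hv, fun _ => .inr hnb⟩, H⟩
  have key : ∀ j, 5 ≤ j → j < 8 → ¬ s.B ≤ Ht s.B (Ed ℓ s K ⟨j, b, k, c, 0, 0, r⟩ θ (0, 0))
      (Ed ℓ s K ⟨j, b, k, c, 0, 0, r⟩ θ (0, 0)) →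
      ∃ ρ : Rq p n, ρ.c = c ∧ 4 ≤ ρ.kind ∧ Shp ℓ s (key ℓ a) ρ ∧ Pay μ ℓ s K ρ θ :=
    fun j h1 h2 h3 => ⟨⟨j, b, k, c, 0, 0, r⟩, rfl, by dsimp only; omega,
      ⟨by dsimp only; omega, h2, hk, hr, hkey, zero_mem _, zero_mem _, fun _ => .inr hnb⟩, by
        have := (hGABC μ ℓ s.B _ hs.str (aq_alg hs.str.alg K ⟨j, b, k, c, 0, 0, r⟩ θ)
          (xq_le _ _ _ _ _ _ _ _)).1 hsc fun e => h3 (e.trans (Ht_le _ _ _))
        rw [Pay, cst, if_neg (by dsimp only; omega)]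
        omega⟩
  rcases H with H | H | H
  exacts [key 5 le_rfl (by norm_num) H, key 6 (by norm_num) (by norm_num) H,
    key 7 (by norm_num) (by norm_num) H]

end Pool.Agent.P.MP_f1a348_lc.UP
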