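import Pool.Agent.P.MP_f1a348_lc.UP.EBase
import Pool.Agent.P.MP_f1a348_lc.PG.TPLP5

/-!
Project UP: progress on a level with three non-trivial slots.
-/

namespace Pool.Agent.P.MP_f1a348_lc.UP

open Matrix Module Pool.Agent.P.MP_f1a348_lc.PG

namespace PQ3y

variable {p n : ℕ} [Fact p.Prime] {ℓ : Ix n → ℕ} {B Bt : Sub p n} {s : Side p n}
  {a : Fin 3 → Ix n} {θ : Frm p n}

theorem ex_pos {b : Ix n} {η : Mat p n} {df ex : ℕ} (hB : Alg ℓ B) (ht : Alg ℓ Bt)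
    (h : Cr ℓ B Bt b η df ex) : 0 < ex := by
  have hm : η * pr ℓ b ∈ Ex ℓ Bt η b := by
    have c := (ht.dg η h.mem).comm_pr b
    have e : η * pr ℓ b * (η * pr ℓ b) = η * pr ℓ b := by
      rw [mul_assoc, ← mul_assoc (pr ℓ b), c, mul_assoc, pr_mul_pr, ← mul_assoc, h.idem]
    refine ⟨by rw [e, e], fun x hx => ?_⟩
    rw [mul_assoc η, (ht.dg _ (ht.mul _ (ht.mul _ h.mem _ hx) _ h.mem)).comm_pr b, ← mul_assoc,
      ← mul_assoc, ← mul_assoc, h.idem, ← mul_assoc, mul_assoc (η * x) η η, h.idem]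
  refine Nat.pos_of_ne_zero fun e => ?_
  rw [← h.dim, Submodule.finrank_eq_zero] at e
  rw [e, Submodule.mem_bot] at hm
  have h1 := h.on b (cb_refl hB b)
  rw [inf_eq_right.2 fun x hx => mem_im.2 ⟨x, by
    rw [Matrix.sub_mulVec, Matrix.one_mulVec, ← mem_Vb_iff.1 hx, Matrix.mulVec_mulVec, hm,
      Matrix.zero_mulVec, sub_zero]⟩, finrank_Vb] at h1
  exact h.lt.ne' h1

omit [Fact p.Prime] in
theorem low_mono {r r' : ℕ} (h : r ≤ r') {q : HH p n} (hq : q ∈ Low ℓ s a θ r) :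
    q ∈ Low ℓ s a θ r' := ⟨hq.1, hq.2.trans h⟩

theorem span_low {r : ℕ}
    (h : ∀ q ∈ Low ℓ s a θ (2 * r), ∃ q' ∈ Low ℓ s a θ r, q'.1 = q.1) {q : HH p n}
    (hq : q ∈ Submodule.span (ZMod p) (Low ℓ s a θ r)) : ∃ q' ∈ Low ℓ s a θ r, q'.1 = q.1 := by
  induction hq using Submodule.span_induction with
  | mem x hx => exact ⟨x, hx, rfl⟩
  | zero =>
    refine ⟨0, ⟨zero_mem _, ?_⟩, rfl⟩
    rw [← hatL_coe, map_zero, LinearMap.range_zero, finrank_bot]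
    exact Nat.zero_le _
  | add x y _ _ hx hy =>
    obtain ⟨x', hx, e⟩ := hx
    obtain ⟨y', hy, e'⟩ := hy
    obtain ⟨z, hz, e''⟩ := h (x' + y') ⟨add_mem hx.1 hy.1, by
      rw [← hatL_coe, map_add, hatL_coe, two_mul]
      exact (PLP5x.rk_add _ _).trans (add_le_add hx.2 hy.2)⟩
    exact ⟨z, hz, by rw [e'', Prod.fst_add, Prod.fst_add, e, e']⟩
  | smul c x _ hx =>
    obtain ⟨x', hx, e⟩ := hx
    refine ⟨c • x', ⟨Submodule.smul_mem _ c hx.1, ?_⟩, by rw [Prod.smul_fst, Prod.smul_fst, e]⟩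
    rw [← hatL_coe, map_smul]
    exact (PLP5x.rk_smul c _).trans hx.2

end PQ3y

open PQ3y in
theorem s_PQ3 (p n : ℕ) [Fact p.Prime] (m : PM p n) (hGQ : S_GQ p n) (hPQ4 : S_PQ4 p n)
    (hPQ5 : S_PQ5 p n) (hPQ8 : S_PQ8 p n) : S_PQ3 p n := by
  intro μ ℓ s a θ hG hB hS hθ hT hn hb
  have _ := m
  have hs := hG.str
  refine or_iff_not_imp_left.2 fun hc => ?_
  have big : ∀ j, 200 * eb ℓ s.B (a j) ≤ nb ℓ (a j) := fun j =>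
    db_mul_eb hs (a j) ▸ Nat.mul_le_mul_right _ (hB _ (hn j))
  have b0 := big 0
  have b1 := big 1
  have p0 := eb_pos hs.alg (a 0)
  have p1 := eb_pos hs.alg (a 1)
  have l1 := hb 1
  have l2 := hb 2
  have n1 := nb_le ℓ (a 1)
  have q0 := hG.length_cso (a 2).rev (a 1)
  have q1 := q0.trans (finrank_cb_le hs _ _)
  have q2 : (Cso ℓ s (a 2).rev (a 1)).length = 0 ∨ nb ℓ (a 2) = nb ℓ (a 1) := by
    by_cases e : Cb ℓ s.B (a 2).rev (a 1) = ⊥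
    · rw [e, finrank_bot] at q0
      exact Or.inl (Nat.le_zero.1 q0)
    · exact Or.inr (hs.lab.nb_rev (a 2) ▸ nb_eq hs e)
  clear q0
  obtain ⟨g, hg⟩ : ∃ g, g = 2 * (nb ℓ (a 0) + (Cso ℓ s (a 2).rev (a 1)).length) / 200 := ⟨_, rfl⟩
  have key : ∀ u ∈ Vb ℓ (a 0), ∀ v ∈ Vb ℓ (a 0), ∃ Bt η df ex, Alg ℓ Bt ∧
      Bt ≤ Ht s.B (D4 ℓ s a θ (u, 0)) (D4 ℓ s a θ (u, 0)) ∧
      Bt ≤ Ht s.B (D4 ℓ s a θ (v, 0)) (D4 ℓ s a θ (v, 0)) ∧ Cr ℓ s.B Bt (a 1) η df ex ∧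
      df + ex ≤ eb ℓ s.B (a 1) + g ∧ eb ℓ s.B (a 1) ≤ ex := fun u hu v hv => by
    have hA := Ht_alg (Ht_alg hs.alg (D4 ℓ s a θ (u, 0))) (D4 ℓ s a θ (v, 0))
    have h1 := not_le.1 fun h => hc ⟨u, hu, v, hv, h⟩
    obtain h2 | ⟨η, df, ex, h2, h3⟩ := (hGQ μ ℓ s.B _ hs hA
      ((Ht_le _ _ _).trans (Ht_le _ _ _))).2 (a 1) (hn 1) (hS _ (hn 1))
    · omega
    · exact ⟨_, η, df, ex, hA, Ht_le _ _ _, Ht_mono (Ht_le _ _ _) _ _, h2, by omega,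
        Nat.le_of_dvd (ex_pos hs.alg hA h2) h2.dvd⟩
  have dbl : ∀ q ∈ Low ℓ s a θ (2 * (3 * g + 2 * eb ℓ s.B (a 0))),
      ∃ q' ∈ Low ℓ s a θ (3 * g + 2 * eb ℓ s.B (a 0)), q'.1 = q.1 := fun q hq => by
    obtain ⟨Bt, η, df, ex, h1, h2, -, h3, h4, h5⟩ := key _ hq.1.1 _ hq.1.1
    obtain ⟨q', h6, h7⟩ | ⟨-, -, h6⟩ := hPQ4 ℓ s a θ _ Bt η df ex hG hθ (hn 1) hq.1.1 h1 h2 h3
      (by omega)
    · exact ⟨q', low_mono (by omega) h6, h7⟩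
    · have := h6 _ q hq rfl
      omega
  refine ⟨3 * g + 2 * eb ℓ s.B (a 0), by omega, ?_⟩
  set W := (Submodule.span (ZMod p) (Low ℓ s a θ (3 * g + 2 * eb ℓ s.B (a 0)))).map
    (LinearMap.fst (ZMod p) _ _) with hW
  by_cases w1 : W = Vb ℓ (a 0)
  · rw [← or_assoc]
    refine Or.inl (hPQ5 ℓ s a θ _ hG hθ hT (by omega) (by omega) fun u hu => ?_)
    obtain ⟨q, hq, rfl⟩ : u ∈ W := w1 ▸ hu
    exact span_low dbl hq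
  refine Or.inr (Or.inr ?_)
  rw [E7, Submodule.map_comp]
  refine not_le_Ht hs (a := a 0) ?_ (fun w0 : W = ⊥ => ?_) w1
  · rintro _ ⟨q, hq, rfl⟩
    obtain ⟨q', h1, h2⟩ := span_low dbl hq
    exact (h2 ▸ h1.1.1 : q.1 ∈ Vb ℓ (a 0))
  have z : ∀ q ∈ Low ℓ s a θ (3 * g + 2 * eb ℓ s.B (a 0)), q.1 = 0 := fun q hq =>
    (Submodule.mem_bot _).1 (w0 ▸ ⟨q, Submodule.subset_span hq, rfl⟩ : q.1 ∈ (⊥ : VS p n))
  have k2 : ∀ u ∈ Vb ℓ (a 0), u ≠ 0 → ∀ v ∈ Vb ℓ (a 0), ∃ Bt η df ex, Alg ℓ Bt ∧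
      Bt ≤ Ht s.B (D4 ℓ s a θ (u, 0)) (D4 ℓ s a θ (u, 0)) ∧
      Bt ≤ Ht s.B (D4 ℓ s a θ (v, 0)) (D4 ℓ s a θ (v, 0)) ∧ Cr ℓ s.B Bt (a 1) η df ex ∧
      df ≤ g ∧ ex ≤ 2 * g ∧ eb ℓ s.B (a 1) ≤ g ∧ Cb ℓ s.B (a 2).rev (a 1) ≠ ⊥ :=
    fun u hu u0 v hv => by
      obtain ⟨Bt, η, df, ex, h1, h2, h2', h3, h4, h5⟩ := key _ hu _ hv
      obtain ⟨q', h6, h7⟩ | ⟨h6, h7, -⟩ := hPQ4 ℓ s a θ _ Bt η df ex hG hθ (hn 1) hu h1 h2 h3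
        (by omega)
      · exact absurd (h7 ▸ z q' (low_mono (by omega) h6)) u0
      · obtain ⟨c, hc⟩ := h3.dvd
        have h8 : 2 * eb ℓ s.B (a 1) ≤ ex := by
          rcases c with _ | _ | c
          · omega
          · omega
          · rw [hc, mul_comm]
            exact Nat.mul_le_mul_left _ (by omega)
        exact ⟨Bt, η, df, ex, h1, h2, h2', h3, by omega, by omega, by omega, h7⟩
  obtain ⟨u, hu, u0⟩ := Submodule.exists_mem_ne_zero_of_ne_bot (p := (Vb ℓ (a 0) : VS p n))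
    fun e => w1 (w0.trans e.symm)
  obtain ⟨-, -, -, -, -, -, -, -, -, -, k3, k4⟩ := k2 u hu u0 u hu
  obtain ⟨q, hq, q0⟩ := hPQ8 ℓ s a θ g hG hθ (hn 1) k4 (by omega) (by omega)
    fun u hu u0 v hv _ => by
      obtain ⟨Bt, η, df, ex, h1, h2, h3, h4, h5, h6, -⟩ := k2 u hu u0 v hv
      exact ⟨Bt, η, df, ex, h1, h2, h3, h4, h5, h6⟩
  exact q0 (z q hq)

end Pool.Agent.P.MP_f1a348_lc.UP
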