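import Pool.Agent.P.MP_f1a348_lc.UP.EBase
import Pool.Agent.P.MP_f1a348_lc.PG.TG2

/-! A pinned vector: a slice of low rank, or no slice of moderately low rank. -/

namespace Pool.Agent.P.MP_f1a348_lc.UP

open Matrix Module Pool.Agent.P.MP_f1a348_lc.PG

theorem s_PQ4 (p n : ℕ) [Fact p.Prime] (m : PM p n) (hGRA : S_GRA p n) (hR4 : S_R4 p n) :
    S_PQ4 p n := by
  intro ℓ s a θ u Bt η df ex hg hθ hnt hu ht hle hc hdf
  obtain ⟨-, r2, r3, r4, r5, r6, r7, -⟩ := hR4 ℓ s a θ u hg hθ hnt hu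
  have hB := hg.str
  have hle' : Bt ≤ s.B := hle.trans (Ht_le _ _ _)
  generalize R4 ℓ s a θ (u, 0) = R at r2 r3 r4 r5 r6 r7
  have r3' : ∀ b ∈ Bt, ∀ y ∈ R, (b *ᵥ y.1, b *ᵥ y.2) ∈ R := fun b hb => r3 b (hle hb)
  by_contra hcon
  rw [not_or] at hcon
  obtain ⟨hn, hcon⟩ := hcon
  have big : ∀ C ∈ Cb ℓ s.B (a 2).rev (a 1), ¬ finrank (ZMod p) (R.map
      (LinearMap.snd _ _ _ - C.mulVecLin ∘ₗ LinearMap.fst _ _ _)) ≤ df + eb ℓ s.B (a 0) := by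
    intro C hC h
    obtain ⟨q, hq, e⟩ := r6 C hC
    exact hn ⟨q, ⟨hq.1, hq.2.trans (by omega)⟩, e⟩
  have hon := hc.on _ (cb_refl hB.alg (a 1))
  have h1 : 1 - η ∈ Bt := sub_mem ht.one hc.mem
  have hcb : Cb ℓ s.B (a 2).rev (a 1) ≠ ⊥ := by
    intro e
    have e' : Cb ℓ s.B (a 1) (a 2).rev = ⊥ := by
      by_contra h
      exact cb_symm hB h e
    refine big 0 (zero_mem _) (le_trans (G2x.rel_le R (im (1 - η) ⊓ Vb ℓ (a 1)) _ ?_) (by omega))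
    rintro _ ⟨x, hx, rfl⟩
    refine ⟨(1 - η) *ᵥ x.1, ⟨⟨x.1, rfl⟩, (ht.dg _ h1).mulVec_mem (r2 x hx).1⟩, ?_⟩
    have h2 := r3' _ h1 x hx
    have h3 : η *ᵥ x.2 = 0 := by
      rw [← mem_Vb_iff.1 (r2 x hx).2, mulVec_mulVec, hc.off _ e', zero_mulVec]
    rw [sub_mulVec _ _ x.2, h3, one_mulVec, sub_zero] at h2
    simpa using h2
  refine hcon ⟨fun e => ?_, hcb, fun r q hq e => ?_⟩
  · obtain ⟨C, hC, h⟩ := m.g2 ℓ s.B Bt (a 1) (a 2).rev η df R hB ht hle'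
      ⟨hc.mem, hc.idem, hc.off, hc.on, hc.corner e⟩ r2 r3'
    exact big C hC (by omega)
  obtain ⟨C, hC, hr⟩ := r7 r q hq e
  obtain ⟨C0, hC0, h0⟩ := exists_cb_ne hcb
  obtain ⟨C1, hC1, e1, -⟩ := schur hB hC0 h0
  obtain ⟨⟨L, hL, l1, l2⟩, g2, g3, g4⟩ := hGRA ℓ s.B Bt (a 1) η df ex (eb ℓ s.B (a 0))
    (R.map (LinearMap.prodMap LinearMap.id C1.mulVecLin)) hB ht hle' hc
    (by
      rintro _ ⟨x, hx, rfl⟩
      exact ⟨(r2 x hx).1, cb_mulVec_mem hC1 x.2⟩)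
    (by
      rintro b hb _ ⟨x, hx, rfl⟩
      exact ⟨_, r3' b hb x hx, Prod.ext rfl (com_mulVec hC1.1 (hle' hb) x.2)⟩)
    (by
      rw [← Submodule.map_comp]
      exact r4)
    (by
      refine le_trans (Submodule.finrank_mono (t := (R.comap (LinearMap.inr _ _ _)).map
        C1.mulVecLin) ?_) ((Submodule.finrank_map_le _ _).trans r5)
      rintro z ⟨⟨x, y⟩, hx, e⟩
      obtain ⟨rfl, e'⟩ : x = 0 ∧ C1 *ᵥ y = z := Prod.ext_iff.1 e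
      exact ⟨y, hx, e'⟩) hdf
  have l3 : ∀ x ∈ R, (L - η * (C1 * C)) *ᵥ x.1 = (η * C1) *ᵥ (x.2 - C *ᵥ x.1) := fun x hx => by
    have h : η *ᵥ (C1 *ᵥ x.2) = L *ᵥ x.1 := l2 _ ⟨x, hx, rfl⟩
    rw [sub_mulVec, ← h, mulVec_sub, mulVec_mulVec, mulVec_mulVec, mul_assoc]
  by_cases c : L - η * (C1 * C) = 0
  · refine absurd (le_trans (Submodule.finrank_mono (t := (im (1 - η) ⊓ Vb ℓ (a 1)).map
      C0.mulVecLin) ?_) ((Submodule.finrank_map_le _ _).trans (hon.le.trans (Nat.le_add_right _ _))))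
      (big C hC)
    rintro _ ⟨x, hx, rfl⟩
    have h := l3 x hx
    rw [c, zero_mulVec, ← mulVec_mulVec] at h
    refine ⟨C1 *ᵥ (x.2 - C *ᵥ x.1), ⟨⟨C1 *ᵥ (x.2 - C *ᵥ x.1), ?_⟩, cb_mulVec_mem hC1 _⟩, ?_⟩
    · rw [mulVecLin_apply, sub_mulVec, ← h, one_mulVec, sub_zero]
    · rw [mulVecLin_apply, mulVec_mulVec, e1,
        mem_Vb_iff.1 (sub_mem (r2 x hx).2 (cb_mulVec_mem hC x.1))]
      rfl
  · have hz : ∀ z ∈ im η ⊓ Vb ℓ (a 1), η *ᵥ z = z := by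
      rintro _ ⟨⟨y, rfl⟩, -⟩
      rw [mulVecLin_apply, mulVec_mulVec, hc.idem]
    have hm : ∀ z ∈ im η ⊓ Vb ℓ (a 1), (L - η * (C1 * C)).mulVecLin z ∈ (R.map
        (LinearMap.snd _ _ _ - C.mulVecLin ∘ₗ LinearMap.fst _ _ _)).map (η * C1).mulVecLin := by
      intro z h
      obtain ⟨x, hx, e⟩ := l1 z h.2 (hz z h)
      obtain rfl : x.1 = z := congrArg Prod.fst e
      exact ⟨_, ⟨x, hx, rfl⟩, (l3 x hx).symm⟩
    have h2 := LinearMap.finrank_le_finrank_of_injective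
      (f := (L - η * (C1 * C)).mulVecLin.restrict hm) (by
        refine (injective_iff_map_eq_zero _).2 fun z h => Subtype.ext ?_
        exact (g2 _ (sub_mem hL (g3 _ (cb_mul hC1 hC))) z.1 z.2.2 (hz _ z.2)
          (congrArg Subtype.val h)).resolve_left c)
    exact g4.ge.trans (Nat.add_le_add_right ((h2.trans (Submodule.finrank_map_le _ _)).trans hr) _)

end Pool.Agent.P.MP_f1a348_lc.UP
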