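import Pool.Agent.P.MP_f1a348_lc.UP.EBase
import Pool.Agent.P.MP_f1a348_lc.PG.TPLP5

/-!
Project UP: progress when all slices have small rank.
-/

namespace Pool.Agent.P.MP_f1a348_lc.UP

open Matrix Module Pool.Agent.P.MP_f1a348_lc.PG

namespace PQ5y

open PLP5x (rk_add rk_smul hat0)

variable {p n : ℕ} [Fact p.Prime] {ℓ : Ix n → ℕ} {s : Side p n} {a : Fin 3 → Ix n}
  {θ : Frm p n} {r : ℕ}

theorem low_add (hG : Good ℓ s) (h1 : 4 * r < nb ℓ (a 1))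
    (hL : ∀ u ∈ Vb ℓ (a 0), ∃ q ∈ Low ℓ s a θ r, q.1 = u) {q q' : HH p n}
    (hq : q ∈ Low ℓ s a θ r) (hq' : q' ∈ Low ℓ s a θ r) : q + q' ∈ Low ℓ s a θ r := by
  obtain ⟨q2, hq2, e⟩ := hL _ (add_mem hq.1.1 hq'.1.1)
  have e1 : q + q' + (-1 : ZMod p) • q2 = (0, q.2 + q'.2 - q2.2) :=
    Prod.ext (by simp [e]) (by simp [sub_eq_add_neg])
  have e2 : hat ℓ s a θ (0, q.2 + q'.2 - q2.2) =
      hat ℓ s a θ q + hat ℓ s a θ q' + (-1 : ZMod p) • hat ℓ s a θ q2 := by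
    rw [← e1, ← hatL_coe, map_add, map_add, map_smul]
  have hC : cmb (Cso ℓ s (a 2).rev (a 1)) (q.2 + q'.2 - q2.2) = 0 := by
    by_contra hC
    let g := (hat ℓ s a θ (0, q.2 + q'.2 - q2.2) ∘ₗ LinearMap.inl (ZMod p) _ _).domRestrict
      (Vb ℓ (a 1))
    have hg : Function.Injective g := by
      refine (injective_iff_map_eq_zero g).2 fun x hx => Subtype.ext ?_
      by_contra h0
      refine hC (cb_inj hG.str (hG.cmb_mem _ _ _).1 x.2 h0 ?_)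
      exact congrArg Prod.fst ((hat0 _ (x.1, 0)).symm.trans hx)
    have h2 := LinearMap.finrank_range_of_inj hg
    have h3 : LinearMap.range g ≤ LinearMap.range (hat ℓ s a θ (0, q.2 + q'.2 - q2.2)) := by
      rintro _ ⟨x, rfl⟩
      exact ⟨_, rfl⟩
    have h4 := Submodule.finrank_mono h3
    rw [h2, finrank_Vb, e2] at h4
    have h5 := rk_add (hat ℓ s a θ q + hat ℓ s a θ q') ((-1 : ZMod p) • hat ℓ s a θ q2)
    have h6 := rk_add (hat ℓ s a θ q) (hat ℓ s a θ q')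
    have h7 := rk_smul (-1 : ZMod p) (hat ℓ s a θ q2)
    have h8 := hq.2
    have h9 := hq'.2
    have h10 := hq2.2
    omega
  have e3 : hat ℓ s a θ (0, q.2 + q'.2 - q2.2) = 0 := LinearMap.ext fun y => by
    rw [hat0, hC, Matrix.zero_mulVec]
    rfl
  refine ⟨add_mem hq.1 hq'.1, ?_⟩
  have e4 : hat ℓ s a θ (q + q') = hat ℓ s a θ q2 := by
    have e5 : q + q' = (0, q.2 + q'.2 - q2.2) + q2 := Prod.ext (by simp [e]) (by simp)
    rw [e5, ← hatL_coe, map_add, hatL_coe, e3, zero_add]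
  rw [e4]
  exact hq2.2

/-- the pins of small rank form a subspace -/
noncomputable def lowS (hG : Good ℓ s) (h1 : 4 * r < nb ℓ (a 1))
    (hL : ∀ u ∈ Vb ℓ (a 0), ∃ q ∈ Low ℓ s a θ r, q.1 = u) : Submodule (ZMod p) (HH p n) where
  carrier := Low ℓ s a θ r
  add_mem' := low_add hG h1 hL
  zero_mem' := ⟨zero_mem _, by
    rw [← hatL_coe, map_zero, LinearMap.range_zero, finrank_bot]
    exact Nat.zero_le _⟩
  smul_mem' c q hq := ⟨Submodule.smul_mem _ c hq.1, by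
    rw [← hatL_coe, map_smul]
    exact (rk_smul c _).trans hq.2⟩

theorem rm_le (hG : Good ℓ s) (hθ : θ ∈ Wt ℓ (key ℓ a)) :
    NC.Rm (HS ℓ s a θ r) ≤ (Vb ℓ (a 2).rev).prod ⊤ := by
  refine NC.img_le.2 ?_
  rintro _ ⟨q, -, rfl⟩ y -
  refine ⟨?_, trivial⟩
  change (hat ℓ s a θ q y).1 ∈ Vb ℓ (a 2).rev
  rw [hat_fst]
  exact add_mem (add_mem (au_mem hG.str.lab hθ _ _) (cb_mulVec_mem (hG.cmb_mem _ _ _).1 _))
    (cb_mulVec_mem (hG.cmb_mem _ _ _).1 _)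

theorem bound (m : PM p n) (hG : Good ℓ s) (h1 : 4 * r < nb ℓ (a 1))
    (hL : ∀ u ∈ Vb ℓ (a 0), ∃ q ∈ Low ℓ s a θ r, q.1 = u) :
    finrank (ZMod p) (HH p n) + finrank (ZMod p) (NC.Rm (HS ℓ s a θ r)) ≤
      finrank (ZMod p) (NC.Um (HS ℓ s a θ r)) + 4 * r := by
  obtain ⟨U, hU⟩ := m.l1 _ _ ((lowS hG h1 hL).map (hatL ℓ s a θ)) r (by
    rintro _ ⟨q, hq, rfl⟩
    exact hq.2)
  exact NC.um_bound U _ hU

end PQ5y

open PQ5y in
open PLP5x (sec meet rk_inl cmb_neg) in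
theorem s_PQ5 (p n : ℕ) [Fact p.Prime] (m : PM p n) : S_PQ5 p n := by
  intro ℓ s a θ r hG hθ hT h1 h2 hL
  have hU := bound m hG h1 hL
  have hR : finrank (ZMod p) (NC.Rm (HS ℓ s a θ r)) ≤ 4 * r := by
    have := Submodule.finrank_le (NC.Um (HS ℓ s a θ r))
    omega
  by_cases h5 : (NC.Rm (HS ℓ s a θ r)).comap (LinearMap.inl (ZMod p) _ _) = ⊥
  swap
  · refine Or.inl (not_le_Ht hG.str (a := (a 2).rev) (fun x hx => (rm_le hG hθ hx).1) h5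
      fun e => ?_)
    have h4 := Submodule.finrank_mono
      (Submodule.map_comap_le (LinearMap.inl (ZMod p) _ _) (NC.Rm (HS ℓ s a θ r)))
    rw [e] at h4
    have h6 := (rk_inl _).symm.trans_le h4
    rw [finrank_Vb, hG.str.lab.nb_rev] at h6
    exact absurd (h6.trans hR) (not_le.2 h2)
  right
  rw [E6, Submodule.map_comp]
  set T := Dom ℓ (a 1) ⊓ NC.Um (HS ℓ s a θ r) with hT6
  refine not_le_Ht hG.str (a := a 1) ?_ (fun e => ?_) fun e => hT ?_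
  · rintro _ ⟨y, hy, rfl⟩
    exact hy.1.1
  · obtain ⟨y, hy, hy0, hy'⟩ := meet (Vb ℓ (a 1)) (NC.Um (HS ℓ s a θ r)) (4 * r)
      (le_trans (Nat.le_add_right _ _) hU) (by rwa [finrank_Vb])
    have : y ∈ T.map (LinearMap.fst (ZMod p) _ _) := ⟨(y, 0), ⟨⟨hy, trivial⟩, hy'⟩, rfl⟩
    rw [e, Submodule.mem_bot] at this
    exact hy0 this
  · obtain ⟨κ, hκ⟩ := sec (lowS hG h1 hL)
    obtain ⟨y2, hy2⟩ := sec T
    obtain ⟨ψ, hψ⟩ :=
      sec ((NC.Rm (HS ℓ s a θ r)).comap (LinearEquiv.prodComm (ZMod p) _ _).toLinearMap)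
    have h3 : ∀ z ∈ NC.Rm (HS ℓ s a θ r), ψ z.2 = z.1 := fun z hz => by
      have h4 : (ψ z.2, z.2) ∈ NC.Rm (HS ℓ s a θ r) := hψ (z.2, z.1) hz
      have h6 : ψ z.2 - z.1 ∈ (NC.Rm (HS ℓ s a θ r)).comap (LinearMap.inl (ZMod p) _ _) := by
        have := sub_mem h4 hz
        rwa [show (ψ z.2, z.2) - z = (ψ z.2 - z.1, 0) from Prod.ext rfl (sub_self _)] at this
      rwa [h5, Submodule.mem_bot, sub_eq_zero] at h6
    refine (m.dec ℓ s a hG).2 θ hθ (-κ) (-y2) ψ fun u hu y hy => ?_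
    obtain ⟨q, hq, rfl⟩ := hL u hu
    obtain ⟨w, hw, rfl⟩ : y ∈ T.map (LinearMap.fst (ZMod p) _ _) := e ▸ hy
    have h6 := h3 _ (NC.mem_img (S := HS ℓ s a θ r) ⟨_, hκ q hq, rfl⟩ (hy2 w hw).2)
    rw [hat_fst] at h6
    have h7 : (hat ℓ s a θ (q.1, κ q.1) (w.1, y2 w.1)).2 =
        fun i => ip ((Cso ℓ s (a 1).rev (a 0)).getD i.val 0 *ᵥ q.1) w.1 := rfl
    rw [h7] at h6
    simp only [LinearMap.fst_apply, LinearMap.neg_apply, cmb_neg, Matrix.neg_mulVec, h6]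
    abel

end Pool.Agent.P.MP_f1a348_lc.UP
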