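import Pool.Agent.P.MP_f1a348_lc.UP.Iface

namespace Pool.Agent.P.MP_f1a348_lc.UP

open Matrix Module Pool.Agent.P.MP_f1a348_lc.PG
open scoped commutatorElement

namespace PREFz

variable {p n : ℕ} [Fact p.Prime]

theorem rad_add (b : TB p n) {R : Sub p n} (hR : SA R) {x y : Mat p n} (hx : x ∈ Rad R)
    (hy : y ∈ Rad R) : x + y ∈ Rad R := by
  have ht : TriR R 1 (l0 n) := (b.env.2.2.2.1 R hR).2.2.2
  obtain ⟨f, ℓ, -, hcf⟩ := (b.cfx R 1 (l0 n) lab_l0 ht).2.2 hR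
  obtain ⟨-, h1, h2⟩ := b.rad R f ℓ hR hcf.lab hcf.tri
  refine h1 _ (add_mem hx.1 hy.1) ?_
  rw [map_add, map_add, (h2 hcf).2 x hx, (h2 hcf).2 y hy, add_zero]

theorem zero_rad (R : Sub p n) : (0 : Mat p n) ∈ Rad R :=
  ⟨zero_mem _, fun y _ => by rw [zero_mul]; exact IsNilpotent.zero⟩

end PREFz

theorem s_PREF (p n : ℕ) [Fact p.Prime] (b : TB p n) (hWC : S_WC p n) (hCLIFF : S_CLIFF p n) :
    S_PREF p n := by
  intro s A Q h0 hs hA hQ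
  obtain ⟨-, -, -, lo1, hlo, -⟩ := b.coc s h0
  obtain ⟨hX, hmem, hmono, -⟩ := b.env.1 s.X
  have hle : Env s.X ≤ Env s.G := hmono _ h0.le
  have hSA : SA (Env s.X ⊓ A.comap s.lo) :=
    { one := ⟨hX.one, by
        show s.lo 1 ∈ A
        rw [lo1]; exact hA.one⟩
      mul := fun x hx y hy => ⟨hX.mul x hx.1 y hy.1, by
        show s.lo (x * y) ∈ A
        rw [(hlo x (hle hx.1)).2.2 y (hle hy.1)]; exact hA.mul _ hx.2 _ hy.2⟩
      star := fun x hx => ⟨hX.star x hx.1, by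
        show s.lo (st x) ∈ A
        rw [(hlo x (hle hx.1)).1]; exact hA.star _ hx.2⟩
      dg := fun x hx => hX.dg x hx.1 }
  refine ⟨hSA, fun g hg => ⟨hmem g ((hQ g).1 hg).1, ((hQ g).1 hg).2⟩, fun x hx h1 h2 => ?_⟩
  obtain ⟨w, hw, hwx⟩ := (hWC _ hSA).2.2 x hx h1 h2
  have hwR := (hWC _ hSA).2.1 w hw
  obtain ⟨g, hg, hgw⟩ := h0.full.2 w.1 hwR.1 w.2.2.2 (by
    rw [w.2.2.1.st_mul, sub_self]; exact PREFz.zero_rad _)
  have e : s.lo g.1 = s.lo w.1 := by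
    rw [← sub_eq_zero, ← map_sub]; exact (hCLIFF s h0 hs).2.1 _ hgw
  have hgA : s.lo g.1 ∈ A := by rw [e]; exact hwR.2
  refine ⟨g, (hQ g).2 ⟨hg, hgA⟩, ?_⟩
  have h3 : g.1 - w.1 ∈ Rad (Env s.X ⊓ A.comap s.lo) :=
    (b.env.2.2.2.1 _ hX).2.2.1 _ inf_le_left _ hgw (sub_mem ⟨hmem g hg, hgA⟩ hwR)
  have := PREFz.rad_add b hSA h3 hwx
  rwa [sub_add_sub_cancel] at this

theorem s_KR (p n : ℕ) [Fact p.Prime] (b : TB p n) (hLOCU : S_LOCU p n) : S_KR p n := by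
  intro s h0 hs hmem
  obtain ⟨-, -, -, lo1, hlo, hY, hg, kp1, -⟩ := b.coc s h0
  have hE := (b.env.1 s.G).2.1
  have one : s.Kc 1 0 := ⟨1, one_mem _, lo1, kp1⟩
  have mul : ∀ z w y v, s.Kc z w → s.Kc y v → s.Kc (z * y) (pull1 y w + v) := by
    rintro _ _ _ _ ⟨g, gG, rfl, rfl⟩ ⟨h, hG, rfl, rfl⟩
    exact ⟨g * h, mul_mem gG hG, (hlo _ (hE g gG)).2.2 _ (hE h hG),
      ((hg g gG).2.2.2.2.2 h hG).1⟩
  refine ⟨⟨?_, one, mul, ?_, ?_⟩, ?_, ?_, ?_⟩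
  · rintro _ _ ⟨g, gG, rfl, rfl⟩
    exact ⟨⟨hmem g gG, (hg g gG).1.2.1, (hg g gG).1.2.2⟩, (hg g gG).2.2.1⟩
  · rintro _ _ ⟨g, gG, rfl, rfl⟩
    have e : s.lo (g⁻¹).1 = st (s.lo g.1) := (hlo _ (hE g gG)).1
    refine ⟨g⁻¹, inv_mem gG, e, ?_⟩
    have := ((hg g gG).2.2.2.2.2 g⁻¹ (inv_mem gG)).1
    rw [mul_inv_cancel, kp1, e] at this
    exact eq_neg_of_add_eq_zero_right this.symm
  · intro z hz
    obtain ⟨x, hx, e⟩ := hLOCU s h0 hs z hz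
    exact ⟨_, x, h0.le hx, e, rfl⟩
  · exact le_antisymm ((hY s.G le_rfl).2.2.2.2.1 _ hmem) ((hY s.G le_rfl).2.2.1 _ h0.le)
  · unfold SpK St.Sp
    congr 1
    ext w
    constructor
    · rintro ⟨g, gG, e, rfl⟩
      exact ⟨g, (hg g gG).2.1.2 e, rfl⟩
    · rintro ⟨g, gN, rfl⟩
      exact ⟨g, gN.1, (hg g gN.1).2.1.1 gN, rfl⟩
  · intro S P hS hP z w
    have hSG : ∀ g ∈ S, g ∈ s.G := fun g h => hS ▸ Subgroup.subset_closure h
    constructor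
    · rintro ⟨g, gG, rfl, rfl⟩
      have h1 : g ∈ Submonoid.closure S := by
        rw [← Subgroup.closure_toSubmonoid_of_finite, Subgroup.mem_toSubmonoid, hS]; exact gG
      have h2 : ∀ g ∈ Submonoid.closure S, g ∈ s.G := fun g h => by
        rwa [← Subgroup.closure_toSubmonoid_of_finite, Subgroup.mem_toSubmonoid, hS] at h
      clear gG
      induction h1 using Submonoid.closure_induction_right with
      | one => rw [val_one, lo1, kp1]; exact GenK.one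
      | mul_right x hx y hy ih =>
        rw [val_mul, (hlo _ (hE x (h2 x hx))).2.2 _ (hE y (hSG y hy)),
          ((hg x (h2 x hx)).2.2.2.2.2 y (hSG y hy)).1]
        exact GenK.mul ih ((hP _).2 ⟨y, hy, rfl⟩)
    · intro h
      induction h with
      | one => exact one
      | mul _ hy ih =>
        obtain ⟨g, hgS, e⟩ := (hP _).1 hy
        obtain ⟨rfl, rfl⟩ := Prod.mk.inj e
        exact mul _ _ _ _ ih ⟨g, hSG g hgS, rfl, rfl⟩

end Pool.Agent.P.MP_f1a348_lc.UP
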