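import Pool.Agent.P.MP_f1a348_lc.UP.PIf

namespace Pool.Agent.P.MP_f1a348_lc.UP

open Matrix Module Pool.Agent.P.MP_f1a348_lc.PG
open scoped commutatorElement

theorem s_QCF (p n : ℕ) [Fact p.Prime] (b : TB p n) : S_QCF p n := by
  intro c f l R F h hf hl hR hT
  have e : sp (mat p n) (conjP c l f f R) = gB (sp (mat p n) R) F (lab n l) := by
    rw [h.conjP, hf, QSplity.lr_eq]; rfl
  have hA : Alg (lab n l) (sp (mat p n) (conjP c l f f R)) := e ▸ (b.rad _ F _ hR hl hT).1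
  obtain ⟨r1, r2⟩ := h.rf1 b.pm hl hA
  rw [e] at r1
  let G0 : GG p n := ⟨mV p n (rf1 c l (conjP c l f f R)).2.1, r1.par.l0⟩
  obtain ⟨k1, k2, k3⟩ := (b.cfx _ F _ hl hT).1 _ G0 _ r1
  refine ⟨F * G0, ⟨?_, ⟨r1.lab, k2, ?_⟩, k3⟩, k1⟩
  · show mV p n (mmul c f _) = _
    rw [h.mmul, hf]; rfl
  · show Sim (lab n (rf1 c l (conjP c l f f R)).1)
      (gB _ _ (lab n (rf1 c l (conjP c l f f R)).1))
    rw [k3]; exact r2.sim

theorem s_QOUT (p n : ℕ) [Fact p.Prime] (t : TM p n) (q : TP p n) : S_QOUT p n := by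
  intro c s S H φ h hs h0 hH
  subst hs
  have hN : Nm (gS p n H) (gS p n (sX s)) := fun g hg k hk => h0.nm g (hH hg) k hk
  have e := q.cap c H (sX s) h hN
  obtain ⟨k1, k2⟩ := q.core c H (capN c H (sX s)) h (e ▸ inf_le_left) (by
    rw [e]
    exact fun g hg k hk => ⟨(gS p n H).mul_mem ((gS p n H).mul_mem hg hk.1)
      ((gS p n H).inv_mem hg), hN g hg k hk.2⟩)
  rw [e] at k1
  exact ⟨_, _, k1, (length_foD _).trans_le k2, rfl⟩

end Pool.Agent.P.MP_f1a348_lc.UP
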