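import Pool.Agent.P.MP_f1a348_lc.UP.PIf

namespace Pool.Agent.P.MP_f1a348_lc.UP

open Matrix Module Pool.Agent.P.MP_f1a348_lc.PG
open scoped commutatorElement

namespace QCOREz

theorem fold_ind {α β : Type} (P : ℕ → α → Prop) (f : α → α) (hf : ∀ i s, P i s → P (i + 1) (f s)) :
    ∀ (L : List β) (i : ℕ) (s : α), P i s → P (i + L.length) (L.foldl (fun s _ => f s) s)
  | [], _, _, h => h
  | _ :: L, i, s, h => by
    have := fold_ind P f hf L (i + 1) (f s) (hf i s h)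
    rwa [add_assoc, add_comm 1] at this

theorem half {Γ : Type} [Group Γ] [Finite Γ] {Y Y' : Subgroup Γ} (h : Y' ≤ Y) (k : ¬ Y ≤ Y') :
    Nat.card Y' * 2 ≤ Nat.card Y := by
  obtain ⟨d, hd⟩ := Subgroup.card_dvd_of_le h
  have h0 : 0 < Nat.card Y := Nat.card_pos
  have h1 : d ≠ 1 := by
    rintro rfl
    exact k (Subgroup.eq_of_le_of_card_ge h (by omega)).ge
  have h2 : d ≠ 0 := by
    rintro rfl
    omega
  rw [hd]
  exact Nat.mul_le_mul_left _ (by omega)

end QCOREz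

open QCOREz in
theorem s_QCORE (p n : ℕ) [Fact p.Prime] (t : TM p n) (hQRED : S_QRED p n) (hQNCL : S_QNCL p n)
    (hQENVP : S_QENVP p n) (hQCF : S_QCF p n) (hQMI : S_QMI p n) (hQTREE : S_QTREE p n) :
    S_QCORE p n := by
  intro c H N h hN hNm
  obtain ⟨c1, c2, -⟩ := t.core _ _ hN
  have hcard := t.env.2.2.2.2.2.2
  have key := fold_ind (fun i (s : List V × Fo) =>
      CoreI (gS p n H) (gS p n N) (gS p n s.1) (foD p n s.2) ∧ s.2.length ≤ 4 * (2 * n + 1) * i ∧
      (Stable (gS p n s.1) ∨ Nat.card (gS p n s.1) * 2 ^ i ≤ Nat.card (GG p n)))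
    (coreStep c H) ?_ (uR c) 0 (red c N, []) ?_
  · obtain ⟨k1, k2, k3⟩ := key
    rw [zero_add, h.lenR] at k2 k3
    refine ⟨⟨k1, k3.resolve_right fun k => ?_⟩, k2.trans (le_of_eq (by unfold rho0 top; ring))⟩
    have h0 : 0 < Nat.card (gS p n
      ((uR c).foldl (fun s _ => coreStep c H s) (red c N, [])).1) := Nat.card_pos
    have h1 : p ^ ((2 * n + 1) * (2 * n + 1)) < 2 ^ ((2 * n + 1) * (2 * n + 1) * p) := by
      rw [mul_comm _ p, pow_mul 2 p]
      exact Nat.pow_lt_pow_left Nat.lt_two_pow_self (Nat.mul_ne_zero (by omega) (by omega))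
    have h2 := (Nat.le_mul_of_pos_left _ h0).trans k
    omega
  · rintro i s ⟨k1, k2, k3⟩
    have eZ : gS p n (frG c s.1) = Fr p (gS p n s.1) := (hQNCL c [] s.1 h).2
    have eR : sp (mat p n) (envP c (frG c s.1)) = Env (Fr p (gS p n s.1)) := by
      rw [hQENVP c _ h, eZ]
    have hS : SA (sp (mat p n) (envP c (frG c s.1))) := eR ▸ (t.env.1 _).1
    obtain ⟨F', hx, -⟩ := hQCF c (oneP c) (l0P c) (envP c (frG c s.1)) 1 h h.oneP
      (by rw [h.l0P]; exact lab_l0) hS (by rw [h.l0P]; exact (t.env.2.2.2.1 _ hS).2.2.2)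
    obtain ⟨-, -, -, -, e1, -, e3, e4⟩ := hQMI c _ _ F' h hS hx
    have e5 := e4 (frG c s.1) (by rw [eR, eZ])
    have hcf := hx.cf
    have s1 : 2 * n + 1 ≤ 2 ^ Nat.size (2 * n + 1) := (Nat.lt_size_self _).le
    have s2 : 2 ^ Nat.size (2 * n + 1) ≤ 2 * (2 * n + 1) := by
      have h0 : 0 < Nat.size (2 * n + 1) := Nat.size_pos.2 (by omega)
      obtain ⟨k, hk⟩ : ∃ k, Nat.size (2 * n + 1) = k + 1 := ⟨_, (Nat.succ_pred_eq_of_pos h0).symm⟩
      have h1 : 2 ^ k ≤ 2 * n + 1 := Nat.lt_size.1 (by omega)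
      rw [hk, pow_succ]
      omega
    rw [eR] at hcf
    obtain ⟨d1, d2, d3, d4, d5⟩ := c2 _ _ F' _ _ _ _ k1 hcf s1 s2 rfl rfl
    have e6 := hQTREE c H _ _ F' h hS hx (eR ▸ d2)
    rw [eR] at e5 e6
    rw [eZ] at e5
    have e7 : gS p n (coreStep c H s).1 = _ := e5
    have e8 : foD p n (coreStep c H s).2 = _ := (foD_append _ _).trans (congrArg _ e6)
    have e9 : (coreStep c H s).2.length = s.2.length + (dyP c).length := by
      simp only [coreStep, coreR, coreQ, treeP, List.length_append, List.length_map]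
    rw [e7, e8, e9, e1]
    refine ⟨d1, by rw [mul_add]; omega, ?_⟩
    refine (em _).imp d4 fun hY => ?_
    have h1 := k3.resolve_left fun k => hY (d5 k)
    have h2 := Nat.mul_le_mul_right (2 ^ i) (half d3 hY)
    refine le_trans (le_of_eq ?_) (h2.trans h1)
    rw [pow_succ]; ring
  · have e : gS p n (red c N) = gS p n N := hQRED c N h
    refine ⟨by rw [e]; exact c1 hNm, by simp, .inr ?_⟩
    rw [pow_zero, mul_one]
    exact Subgroup.card_le_card_group _

end Pool.Agent.P.MP_f1a348_lc.UP
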