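import Pool.Agent.P.MP_f1a348_lc.UP.PIf

namespace Pool.Agent.P.MP_f1a348_lc.UP

open Matrix Module Pool.Agent.P.MP_f1a348_lc.PG
open scoped commutatorElement

namespace QDECz

variable {p n : ℕ} [Fact p.Prime] {c : Cx}

omit [Fact p.Prime] in
theorem st_ext {s t : St p n} (h1 : s.f = t.f) (h2 : s.ℓ = t.ℓ) (h3 : s.a = t.a) (h4 : s.μ = t.μ)
    (h5 : s.G = t.G) (h6 : s.X = t.X) (h7 : s.F = t.F) (h8 : s.ptr = t.ptr) (h9 : s.T = t.T)
    (h10 : s.T' = t.T') : s = t := by
  cases s; cases t; congr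

omit [Fact p.Prime] in
theorem out_ext {s t : Out p n} (h1 : s.H = t.H) (h2 : s.X = t.X) (h3 : s.F = t.F)
    (h4 : s.φ = t.φ) : s = t := by
  cases s; cases t; congr

omit [Fact p.Prime] in
theorem af_ext {s t : AF p n} (h1 : s.br = t.br) (h2 : s.s = t.s) (h3 : s.k = t.k)
    (h4 : s.F = t.F) (h5 : s.todo = t.todo) (h6 : s.acc = t.acc) : s = t := by
  cases s; cases t; congr

theorem call_eq (h : Ok p n c) (x : Fm) (q : ℕ × V) :
    stD p n (call c x q) = (fmD p n x).call (q.1, gD p n q.2) := by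
  obtain ⟨b, s, k, F, L, o⟩ := x
  cases b
  · refine st_ext rfl rfl (funext fun j => ?_) rfl rfl rfl (foD_append _ _) rfl rfl ?_
    · change ixD n ([co c 0 q.1, co c 1 q.1, co c 2 q.1].getD j.val 0) = bx n q.1 j
      simp only [bx, co, h.hM]
      rfl
    · obtain ⟨H, X, F', _ | g⟩ := o
      · rfl
      · exact (h.pull1P _ _).trans (by rw [h.nrm]; rfl)
  · refine st_ext rfl rfl rfl rfl rfl rfl rfl rfl rfl ((h.pull1P _ _).trans ?_)
    rw [h.nrm]
    change _ = pull1 (gD p n q.2).1 (if q.1 = 2 then fV p n (sT' s) else fV p n (sT s))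
    by_cases e : q.1 = 2
    · simp [e]
    · simp [e, beq_false_of_ne e]

theorem next_eq (h : Ok p n c) (o r : PO) :
    outD p n (nextP c o r) = (outD p n o).next (outD p n r) := by
  refine out_ext rfl rfl (foD_append _ _) ?_
  obtain ⟨H, X, F, _ | g⟩ := o
  · rfl
  · obtain ⟨H', X', F', _ | g'⟩ := r
    · rfl
    · exact congrArg some (h.gD_mul g g')

theorem join_eq (h : Ok p n c) (q : ℕ × V) (o r : PO) :
    outD p n (joinP c q o r) = Out.join (q.1, gD p n q.2) (outD p n o) (outD p n r) := by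
  rw [joinP, Out.join]
  by_cases e0 : q.1 = 0
  · rw [if_pos e0, e0]; rfl
  rw [if_neg e0, beq_false_of_ne e0, cond_false]
  by_cases e1 : q.1 = 1
  · rw [if_pos e1, e1]
    refine out_ext ((gS_append _ _).trans (congrArg _ (congrArg Subgroup.closure ?_))) rfl rfl rfl
    obtain ⟨H', X', F', _ | g'⟩ := r <;> simp [outD, h.gD_mul, eq_comm]
  · rw [if_neg e1, beq_false_of_ne e1, cond_false]
    refine out_ext rfl rfl rfl ?_
    obtain ⟨H, X, F, _ | g⟩ := o <;> obtain ⟨H', X', F', _ | g'⟩ := r <;> simp [outD, h.gD_mul]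

theorem feed_eq (h : Ok p n c) (x : Fm) (r : PO) :
    fmD p n (feed c x r) = (fmD p n x).feed (outD p n r) := by
  obtain ⟨b, s, k, F, L, o⟩ := x
  refine af_ext rfl rfl rfl rfl List.map_tail ?_
  cases b
  · exact next_eq h _ _
  · refine (join_eq h _ _ _).trans ?_
    cases L
    · exact congrArg (fun g => Out.join (0, g) _ _) gD_nil
    · rfl

theorem clF_eq (hR : S_QRED p n) (h : Ok p n c) {F : Fo} (hF : SmF c.2.2.length (foD p n F)) :
    foD p n (clF c F) = foD p n F := by
  rw [clF, List.take_of_length_le ((length_foD F).symm.trans_le hF.1), foD, foD, List.map_map]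
  refine List.map_congr_left fun r hr => ?_
  simp only [Function.comp, hR c _ h]
  rw [mn_eq (hF.2 _ (List.mem_map_of_mem hr))]

theorem clP_eq (hR : S_QRED p n) (h : Ok p n c) {π : PPt} (hF : SmF c.2.2.length (ptD p n π).F) :
    ptD p n (clP1 c π) = ptD p n π := by
  simp only [ptD, clP1, hR c _ h, h.gD_nrm, h.labD_nl, h.mod_ix, ixD_val, clF_eq hR h hF]

theorem clS_eq (hR : S_QRED p n) (h : Ok p n c) {s : PS} (hs : (stD p n s).Sm c.2.2.length) :
    stD p n (clS c s) = stD p n s := by
  refine st_ext (h.gD_nrm _) (h.labD_nl _) (funext fun j => ?_) (funext fun j => ?_) (hR c _ h)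
    (hR c _ h) (clF_eq hR h hs.1) (funext fun j => ?_) (h.nv3 _) (h.nv3 _)
  · exact (congrArg (ixD n) ((getD3 (aj c s) 0 j).trans (h.aj s j))).trans (ixD_val _)
  · change min (muD (muP c s) j) _ = _
    rw [h.muP]
    exact min_eq_left (min_le_right _ _)
  · refine (congrArg (Option.map (ptD p n)) (getD3 (fun j => (sP s j).map (clP1 c)) none j)).trans ?_
    have e := hs.2 j
    change (∀ r, (sP s j.val).map (ptD p n) = some r → _) at e
    change _ = (sP s j.val).map (ptD p n)
    cases e' : sP s j.val with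
    | none => rfl
    | some π => exact congrArg some (clP_eq hR h (e _ (by rw [e']; rfl)))

theorem clM_eq (hR : S_QRED p n) (h : Ok p n c) (x : Fm) (hx : (fmD p n x).Sm c.2.2.length) :
    fmD p n (clM c x) = fmD p n x := by
  refine af_ext rfl (clS_eq hR h hx.s) (clS_eq hR h hx.k) (clF_eq hR h hx.F) ?_
    (out_ext (hR c _ h) (hR c _ h) (clF_eq hR h hx.acc) ?_)
  · change (((todo x).take _).map _).map _ = (todo x).map _
    rw [List.take_of_length_le ((List.length_map _).symm.trans_le hx.len), List.map_map]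
    refine List.map_congr_left fun q hq => ?_
    simp only [Function.comp, h.gD_nrm]
    rw [mn_eq (hx.tag _ (List.mem_map_of_mem hq))]
  · change ((acc x).2.2.2.map _).map _ = (acc x).2.2.2.map _
    rw [Option.map_map]
    exact congrArg (fun f => Option.map f _) (funext h.gD_nrm)

theorem reset_eq (h : Ok p n c) (s : PS) : stD p n (resetP c s) = (stD p n s).reset := by
  refine st_ext rfl rfl rfl (funext fun j => ?_) rfl rfl rfl rfl rfl rfl
  change min (([0, 1, 2].map fun j => bif Nat.ble (2 * nbP c (lP c s) (aj c s j))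
    ((muP c s).getD j 0) then nbP c (lP c s) (aj c s j) else (muP c s).getD j 0).getD j.val 0)
    (2 * n + 1) = _
  rw [getD3]
  have e : (muP c s).getD j.val 0 = (stD p n s).μ j := congrFun (h.muP s) j
  simp only [e, h.aj, h.nbP, h.lP, Bool.cond_eq_ite, Nat.ble_eq, St.reset]
  refine min_eq_left ?_
  split_ifs
  · exact nb_le _ _
  · exact min_le_right _ _

theorem initB_eq (h : Ok p n c) (s : PS) (b : PB) :
    fmD p n (initB c s b) = (stD p n s).frB (brcD p n b) := by
  refine af_ext rfl rfl (st_ext rfl rfl rfl rfl rfl rfl (foD_append _ _) rfl rfl rfl) rfl ?_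
    (out_ext gS_nil gS_nil rfl rfl)
  simp [fmD, initB, todo, St.frB, brcD, h.gD_one, Function.comp_def]

theorem box_eq (h : Ok p n c) (s k : PS) :
    (ran (u3 c)).filter (boxT c s k) = (stD p n s).boxes (stD p n k).ℓ 0 := by
  rw [ran_eq, h.len3, List.range_eq_range', St.boxes, Nat.sub_zero]
  refine List.filter_congr fun i hi => ?_
  obtain ⟨a, rfl⟩ := exists_enc3 (n := n) (i := i) (by simpa using hi)
  rw [Bool.eq_iff_iff, boxT, all3, decide_eq_true_iff, bx_enc]
  refine forall_congr' fun j => ?_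
  have e : sl j.val = j := by fin_cases j <;> rfl
  rw [h.co, e, h.aj, Bool.and_eq_true, same_iff, h.lP, beq_iff_eq, ← h.lP k]
  rfl

theorem root_eq (h : Ok p n c) (G : List V) (y : List V × Fo) (T T' : V) (hG : gS p n G = ⊤) :
    stD p n (rootQ c G y T T') = root (gS p n y.1) (foD p n y.2) (fV p n T) (fV p n T') := by
  refine st_ext h.gD_one ((labD_of (h.l0P ▸ lab_l0)).trans h.l0P) (funext fun j => ?_)
    (funext fun j => ?_) hG rfl rfl (funext fun j => ?_) rfl rfl
  · fin_cases j <;> simp [stD, rootQ, root, ixD, h.hM, Fin.ext_iff]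
  · fin_cases j <;> simp [stD, rootQ, root, h.hM]
  · rfl

end QDECz

open QDECz in
theorem s_QDEC (p n : ℕ) [Fact p.Prime] (hQRED : S_QRED p n) : S_QDEC p n := fun _ h =>
  ⟨call_eq h, feed_eq h, clM_eq hQRED h, reset_eq h, fun _ _ => rfl, initB_eq h, box_eq h,
    root_eq h⟩

end Pool.Agent.P.MP_f1a348_lc.UP
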