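import Pool.Agent.P.MP_f1a348_lc.UP.EIf
import Pool.Agent.P.MP_f1a348_lc.NC.Spec

/-! The program computes the subspaces `E5`, `E6` and `E7`. -/

namespace Pool.Agent.P.MP_f1a348_lc.UP

open Matrix Module Pool.Agent.P.MP_f1a348_lc.PG

namespace QE5y

variable {p n : ℕ} [Fact p.Prime]

theorem ex_out {ℓ : Ix n → ℕ} (hl : Lab ℓ) (hn : 0 < n) (b : Ix n) : ∃ β, ℓ β ≠ ℓ b := by
  by_cases e : ℓ (c0 n) = ℓ b
  · refine ⟨0, fun e' => ?_⟩
    have := congrArg Fin.val (hl.ctr 0 (e'.trans e.symm))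
    simp [c0] at this
    omega
  · exact ⟨_, e⟩

theorem df_pos {ℓ : Ix n → ℕ} {s : Side p n} (h : Good ℓ s) (hn : 0 < n) {a : Fin 3 → Ix n}
    {θ : Frm p n} (hθ : θ ∈ Wt ℓ (key ℓ a)) (r : ℕ) : 0 < NC.df (HS ℓ s a θ r) := by
  obtain ⟨β, hβ⟩ := ex_out h.str.lab hn (a 2).rev
  have h1 : NC.img (HS ℓ s a θ r) ⊤ < ⊤ := by
    refine lt_of_le_of_lt (b := (Vb ℓ (a 2).rev).prod ⊤) (NC.img_le.2 ?_) (lt_top_iff_ne_top.2 ?_)
    · rintro _ ⟨q, -, rfl⟩ y -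
      exact ⟨add_mem (add_mem (au_mem h.str.lab hθ _ _) (cb_mulVec_mem (h.cmb_mem _ _ _).1 _))
        (cb_mulVec_mem (h.cmb_mem _ _ _).1 _), trivial⟩
    · intro e
      have : ((Pi.single β 1, 0) : HH p n) ∈ (Vb ℓ (a 2).rev).prod ⊤ := e ▸ trivial
      simpa using this.1 β hβ
  have h2 := Submodule.finrank_lt_finrank_of_lt h1
  have h3 := NC.le_df (S := HS ℓ s a θ r) ⊤
  omega

variable {c : Cx} {l : V} {s : Sd}

theorem nc (h : Ok p n c) (hn : 0 < n) (hs : Gd p n l s) {a : Fin 3 → Ix n} {θ : V}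
    (hθ : fV p n θ ∈ Wt (lab n l) (key (lab n l) a)) (r : ℕ) :
    sp (hh p n) (NC.rmP c (uh c) (hsP c l s (tr3 a) θ r)) =
      NC.Rm (HS (lab n l) (sdD p n s) a (fV p n θ) r) ∧
    sp (hh p n) (NC.umP c (uh c) (hsP c l s (tr3 a) θ r)) =
      NC.Um (HS (lab n l) (sdD p n s) a (fV p n θ) r) := by
  have co : NC.Co (hh p n) (uh c).length := ⟨h.dh, hh_surj⟩
  have e1 : Submodule.span (ZMod p) (NC.SL (hh p n) (uh c).length (hsP c l s (tr3 a) θ r)) =
      Submodule.span (ZMod p) (HS (lab n l) (sdD p n s) a (fV p n θ) r) := by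
    rw [NC.SL, ← sp_eq_span, hsP, (basis_bas h.hp (by rw [length_mulU]; exact co.lin.dec) _).sp,
      sp_eq_span]
    congr 1
    ext A
    simp only [HS, Set.mem_image, Set.mem_ofPred_eq, List.mem_map, (h.lowP hs a θ r).mem]
    constructor
    · rintro ⟨_, ⟨q, hq, rfl⟩, rfl⟩
      exact ⟨_, ⟨q, hq, rfl⟩, (NC.dv_mk h.hp co _ (h.hatP hs a θ q)).symm⟩
    · rintro ⟨_, ⟨q, hq, rfl⟩, rfl⟩
      exact ⟨_, ⟨q, hq, rfl⟩, NC.dv_mk h.hp co _ (h.hatP hs a θ q)⟩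
  obtain ⟨e2, e3, e4⟩ := NC.um_map (S' := NC.SL (hh p n) (uh c).length (hsP c l s (tr3 a) θ r))
    (S := HS (lab n l) (sdD p n s) a (fV p n θ) r) (LinearEquiv.refl _ _) (LinearEquiv.refl _ _)
    fun U => by
      rw [LinearEquiv.refl_toLinearMap, Submodule.map_id, Submodule.map_id, ← NC.img_span, e1,
        NC.img_span]
  rw [LinearEquiv.refl_toLinearMap, Submodule.map_id] at e2 e3
  have hd := e4 ▸ df_pos hs hn hθ r
  have hu := h.pow_le' h.lenh.le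
  exact ⟨(NC.rm_spec h.hp co hu _ hd).trans e3, (NC.um_spec h.hp co hu _ hd).trans e2⟩

end QE5y

theorem s_QE5 (p n : ℕ) [Fact p.Prime] (m : PM p n) : S_QE5 p n := by
  intro c l s a θ r k h hn hs hθ hk
  obtain ⟨e1, e2⟩ := QE5y.nc h hn hs hθ r
  have t1' : ∀ {L W}, Bas (vec p n) (u1 c).length L W → sp (tup p n k) L = W.map t1 :=
    fun {L W} b => by
      have e := sp_map (δ := vec p n) (ε := tup p n k) (f := id) t1
        fun x hx => tup_t1 hk ((b.norm x hx).trans h.len1)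
      rwa [List.map_id, b.sp] at e
  refine ⟨?_, ?_, ?_⟩
  · rw [e5P, t1' (preim_bas h.hp h.dh h.d1 (LinearMap.inl _ _ _) (fun x _ => by
      refine (hV_short (by rw [length_nv, h.len1])).trans ?_
      rw [vV, dv_nv h.hp h.d1]
      rfl) _), sp_units_top h.hp h.d1 vec_surj, top_inf_eq, e1, E5]
  · have e : sp (hh p n) (PG.domP c l ((tr3 a).getD 1 0)) = _ := h.domP l (a 1)
    rw [e6P, sp_map (δ := hh p n) (t1 ∘ₗ LinearMap.fst _ _ _),
      (preim_bas h.hp h.dh h.dh LinearMap.id (fun x _ => dv_nv h.hp h.dh x) _).sp, e, e2,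
      Submodule.comap_id, E6]
    intro y _
    rw [tup_t1 hk (by rw [length_nv, h.len1]), vV, dv_nv h.hp h.d1]
    change _ = t1 (hV p n y).1
    rw [hV_eq]
  · have e := sp_map (δ := hh p n) (ε := vec p n) (L := lowP c l s (tr3 a) θ r) (f := id)
      (LinearMap.fst _ _ _) fun x _ => rfl
    rw [List.map_id] at e
    rw [e7P, t1' (basis_bas h.hp h.d1 _), e, E7, Submodule.map_comp, sp_eq_span]
    congr 3
    ext q
    exact ((h.lowP hs a θ r).mem q).symm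

end Pool.Agent.P.MP_f1a348_lc.UP
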