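import Pool.Agent.P.MP_f1a348_lc.UP.PIf

/-! The program at a leaf of the recursion. -/

namespace Pool.Agent.P.MP_f1a348_lc.UP

open Matrix Module Pool.Agent.P.MP_f1a348_lc.PG
open scoped commutatorElement

namespace QLEAFz

variable {p n : ℕ} [Fact p.Prime] {c : Cx}

theorem exQ {Γ : Type} [Group Γ] (N : Subgroup Γ) (f : Γ → ZMod p)
    (hf : ∀ g ∈ N, ∀ h ∈ N, f (g * h) = f g + f h) :
    ∃ Q : Subgroup Γ, (∀ g, g ∈ Q ↔ g ∈ N ∧ f g = 0) ∧ Q.relIndex N ≤ p := by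
  let φ : N →* Multiplicative (ZMod p) := MonoidHom.mk' (fun g => Multiplicative.ofAdd (f g))
    fun a b => congrArg Multiplicative.ofAdd (hf a a.2 b b.2)
  refine ⟨φ.ker.map N.subtype, fun g => ⟨?_, fun h => ⟨⟨g, h.1⟩, h.2, rfl⟩⟩, ?_⟩
  · rintro ⟨u, hu, rfl⟩
    exact ⟨u.2, hu⟩
  · rw [Subgroup.relIndex, Subgroup.subgroupOf,
      Subgroup.comap_map_eq_self_of_injective N.subtype_injective, Subgroup.index_ker]
    exact (Subgroup.card_le_card_group _).trans (by simp)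

theorem crd (h : Ok p n c) (s : PS) (w x : V) {i : ℕ} (hi : i ∈ ran (u3 c)) :
    crdT c s w i x = true ↔ fV p n (kpP c s w x) (bx n i) = 0 := by
  obtain ⟨k, rfl⟩ := exists_enc3 (h.len3 ▸ mem_ran.1 hi)
  rw [crdT, Bool.not_eq_true', nz_false h.hp, bx_enc]
  rfl

theorem all0 (h : Ok p n c) {F : Frm p n} (hF : ∀ i ∈ ran (u3 c), F (bx n i) = 0) : F = 0 := by
  funext k
  have := hF (enc3 k) (mem_ran.2 (h.len3 ▸ enc3_lt k))
  rwa [bx_enc] at this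

end QLEAFz

open QLEAFz in
theorem s_QLEAF (p n : ℕ) [Fact p.Prime] (t : TM p n) (q : TP p n) : S_QLEAF p n := by
  intro c s S h hS h0
  obtain ⟨l1, l2, l3, -, l5, l6, -, l8⟩ := t.leaf1 S h0
  obtain ⟨-, -, -, -, -, -, c7, -⟩ := t.coc S h0
  have hG : gS p n (sG s) = S.G := hS ▸ rfl
  have hle : S.N1 ≤ S.G := inf_le_left
  have hN : gS p n (n1P c s (sG s)) = S.N1 := by
    rw [((q.st c s S h hS).2.2.2.1 h0).2.1 _ hG.le, hG, inf_eq_right.2 hle]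
  have k1 : ∀ x g, mV p n x = g.1 → fV p n (kpP c s (sT s) x) = S.kp g := fun x g e =>
    hS ▸ (h.kp s e).1
  have k2 : ∀ x g, mV p n x = g.1 → fV p n (kpP c s (sT' s) x) = S.kp' g := fun x g e =>
    hS ▸ (h.kp s e).2
  have l3' : ∀ g ∈ S.G, ∀ u ∈ S.N1, S.kp' (g * u) = S.kp' g + S.kp u := fun g hg u hu => by
    rw [((c7 g hg).2.2.2.2.2 u (hle hu)).2, (c7 u (hle hu)).2.1.1 hu, pull1_one]
  have p1 : sp (frm p n) (spS c s) = S.Sp := by
    rw [l2 _ hN, sp_eq_span]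
    congr 1
    ext w
    simp only [spS, Set.mem_image, Set.mem_ofPred_eq, List.mem_map]
    constructor
    · rintro ⟨_, ⟨x, hx, rfl⟩, rfl⟩
      exact ⟨_, ⟨x, hx, rfl⟩, (k1 _ _ (h.nrm x)).symm⟩
    · rintro ⟨_, ⟨x, hx, rfl⟩, rfl⟩
      exact ⟨_, ⟨x, hx, rfl⟩, k1 _ _ (h.nrm x)⟩
  refine ⟨p1, ?_, fun hall => ?_⟩
  · simp only [leafT, List.all_eq_true, mem_iff h.hp h.d3, p1, k1 _ _ (h.nrm _)]
    refine ⟨fun k => l5 _ hG ?_, fun k x hx => k _ (hG ▸ mem_gS hx)⟩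
    rintro _ ⟨x, hx, rfl⟩
    exact k x hx
  choose Q hQ hI using fun i : ℕ => exQ S.N1 (fun g => S.kp g (bx n i))
    fun g hg u hu => congrFun (l3 g (hle hg) u hu) _
  have hp : p ≤ c.2.2.length := by
    simpa using h.pow_le (k := 1) (by unfold bud2; omega)
  have hT : ∀ i ∈ ran (u3 c), Tst (crdT c s (sT s) i) S.N1 (· ∈ Q i) ∧
      (Q i).relIndex S.N1 ≤ c.2.2.length := fun i hi =>
    ⟨fun x g hg e => by
      rw [crd h s _ _ hi, k1 x g e]
      exact ((hQ i g).trans (and_iff_right hg)).symm, (hI i).trans hp⟩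
  have sol : ∀ (w : V) (κ : GG p n → Frm p n),
      (∀ x g, mV p n x = g.1 → fV p n (kpP c s w x) = κ g) →
      (∀ g ∈ S.G, ∀ u ∈ S.N1, κ (g * u) = κ g + S.kp u) → ∀ g, gD p n g ∈ S.G →
      Vd p n (solP c s w g) ∧ (gD p n g)⁻¹ * gD p n (solP c s w g) ∈ S.N1 ∧
        gD p n (solP c s w g) ∈ S.G ∧ (κ (gD p n g) ∈ S.Sp → κ (gD p n (solP c s w g)) = 0) := by
    intro w κ a1 a2 g hg
    obtain ⟨b1, b2, b3⟩ := q.cos c (crdT c s (sT s)) (crdT c s w) (ran (u3 c)) g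
      (n1P c s (sG s)) h
    rw [hN] at b2 b3
    refine ⟨b1, b2, ?_, fun m => all0 h (b3 Q (fun i g => κ g (bx n i) = 0) (fun i hi =>
      ⟨(hT i hi).1, (hT i hi).2, fun x u _ e => by rw [crd h s _ _ hi, a1 x _ e],
        fun u hu e v hv => ?_⟩) ?_)⟩
    · have := mul_mem hg (hle b2)
      rwa [mul_inv_cancel_left] at this
    · rw [a2 _ (mul_mem hg (hle hu)) v hv, Pi.add_apply, e, zero_add, hQ, and_iff_right hv]
    · obtain ⟨u, hu, e⟩ := l1 _ (neg_mem m)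
      exact ⟨u, hu, fun i _ => by rw [a2 _ hg u hu, e, add_neg_cancel]; rfl⟩
  have sub := q.subs c (crdT c s (sT s)) (ran (u3 c)) (n1P c s (sG s)) Q h (hN ▸ chn_of hT)
  rw [hN] at sub
  constructor
  · refine l8 _ _ hG ?_ ?_ fun u hu e => ?_
    · rintro _ ⟨x, hx, rfl⟩
      rcases List.mem_append.1 hx with a | a
      · obtain ⟨g, hg, rfl⟩ := List.mem_map.1 a
        have b := hG ▸ mem_gS (p := p) (n := n) hg
        exact ⟨(sol _ _ k1 l3 g b).2.2.1, (sol _ _ k1 l3 g b).2.2.2 (hall _ b)⟩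
      · obtain ⟨b1, b2⟩ := (sub _).1 (mem_gS a)
        exact ⟨hle b1, all0 h fun i hi => ((hQ i _).1 (b2 i hi)).2⟩
    · rintro _ ⟨g, hg, rfl⟩
      refine ⟨_, (sol _ _ k1 l3 g (hG ▸ mem_gS hg)).2.1, ?_⟩
      rw [mul_inv_cancel_left]
      exact mem_gS (List.mem_append_left _ (List.mem_map_of_mem hg))
    · have := (sub u).2 ⟨hu, fun i _ => (hQ i u).2 ⟨hu, congrFun e _⟩⟩
      exact (gS_append _ _).ge (Subgroup.mem_sup_right this)
  · obtain ⟨b1, -, b3, b4⟩ := sol _ _ k2 l3' (oneP c) (h.gD_one ▸ one_mem _)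
    have b5 := (isz_iff h.hp h.d3 (kpP c s (sT' s) (solP c s (sT' s) (oneP c)))).trans
      (k2 _ _ b1).congr_left
    rw [leafS]
    cases e : isz c (u3 c) (kpP c s (sT' s) (solP c s (sT' s) (oneP c))) with
    | true =>
      refine ⟨fun g hg => ?_, fun hg => absurd hg (by simp [chk])⟩
      obtain rfl : gD p n (solP c s (sT' s) (oneP c)) = g := by simpa [chk] using hg
      exact ⟨b3, b5.1 e⟩
    | false =>
      refine l6 hall fun m => Bool.false_ne_true (e ▸ b5.2 (b4 ?_))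
      rwa [h.gD_one, St.kp', val_one, pull1_one]

end Pool.Agent.P.MP_f1a348_lc.UP
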