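import Pool.Agent.P.MP_f1a348_lc.UP.PIf

namespace Pool.Agent.P.MP_f1a348_lc.UP

open Matrix Module Pool.Agent.P.MP_f1a348_lc.PG
open scoped commutatorElement

namespace QRAz

theorem head_mem {β : Type} {L : List β} (M : List β) (d : β) (h : L ≠ []) :
    (L ++ M).headD d ∈ L := by
  cases L with
  | nil => exact absurd rfl h
  | cons a L => simp

end QRAz

theorem s_QRA (p n : ℕ) [Fact p.Prime] (t : TM p n) (q : TP p n) (hRA : S_RA p n) :
    S_QRA p n := by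
  intro c s S E EG B h hS hP hB
  subst hS
  have ok0 := St.PrE.ok0 hP
  obtain ⟨-, -, hT, h4, -⟩ := q.st c s _ h rfl
  obtain ⟨-, -, hxk, -⟩ := h4 ok0
  obtain ⟨-, -, -, -, -, -, -, -, -, -, hco, -⟩ := t.coc _ ok0
  have hG : (stD p n s).G = gS p n (sG s) := rfl
  have hX : (stD p n s).X = gS p n (sX s) := rfl
  have hk : 12 * (2 * n + 1) ≤ bud2 n := by unfold bud2; omega
  have hpw : pwN c (12 * mM c) = p ^ (12 * (2 * n + 1)) := by rw [h.hM]; exact h.pwN hk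
  have hT' : ∀ j : Fin 3, Tst (ksT c s j.val) (gS p n (sG s)) (· ∈ (stD p n s).ks j) :=
    fun j => (hT j).mono (hco j).2
  have hx1 : ∀ j : Fin 3, xkP c s j.val (sX s) = true ↔ (stD p n s).X ≤ (stD p n s).ks j :=
    fun j => hxk j (sX s) ok0.le
  have hx2 : ∀ j : Fin 3, xkP c s j.val (sG s) = true ↔ (stD p n s).G ≤ (stD p n s).ks j :=
    fun j => hxk j (sG s) le_rfl
  refine ⟨fun b hb => ?_, fun hA j hXj hI => ?_⟩
  · obtain ⟨i, hi, hb⟩ := List.mem_flatMap.1 hb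
    obtain ⟨j, rfl⟩ := mem3.1 hi
    obtain ⟨hc, rfl⟩ := mem_chk.1 hb
    rw [Bool.and_eq_true, Bool.and_eq_true, Nat.ble_eq, hpw, Bool.not_eq_true',
      ← Bool.not_eq_true, hx1, hx2] at hc
    obtain ⟨⟨h1, h2⟩, h3⟩ := hc
    obtain ⟨hcov, hsub⟩ := ((q.bfs c (ksT c s j.val) (sG s) h).2.2 _ (hT' j)).2
      (h3.trans (h.pow_le hk))
    have e : brcD p n (brS s (subG c (ksT c s j.val) (sG s)) s.2.2.1
        (bfs c (ksT c s j.val) (sG s))) = ⟨(stD p n s).G ⊓ (stD p n s).ks j, (stD p n s).X, [],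
          (stD p n s).ptr, (bfs c (ksT c s j.val) (sG s)).map (gD p n),
          (bfs c (ksT c s j.val) (sG s)).map (gD p n)⟩ := by
      rw [hG, ← hsub]; rfl
    rw [e]
    exact ⟨hRA _ E EG j _ hP h1 h2 hcov (by rwa [List.length_map]), Nat.zero_le _, hB.2⟩
  · by_contra hn
    have := List.flatMap_eq_nil_iff.1 hA j.val (mem3.2 ⟨j, rfl⟩)
    rw [chk_eq_nil, ← Bool.not_eq_true, Bool.and_eq_true, Bool.and_eq_true, Nat.ble_eq, hpw,
      Bool.not_eq_true', ← Bool.not_eq_true, hx1, hx2] at this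
    refine this ⟨⟨hXj, hn⟩, ?_⟩
    refine (((q.bfs c (ksT c s j.val) (sG s) h).2.2 _ (hT' j)).1).trans ?_
    rw [hG, Subgroup.inf_relIndex_left] at hI
    exact hI

theorem s_QBR (p n : ℕ) [Fact p.Prime] (hTSL : S_TSL p n) (hRES : S_RES p n) (hQRA : S_QRA p n)
    (hQRB : S_QRB p n) (hQRC : S_QRC p n) (hQRD : S_QRD p n) (hQRE : S_QRE p n) :
    S_QBR p n := by
  intro c s S E EG B h hn hS hP hE hB hSim hTi hL
  obtain ⟨a1, a2⟩ := hQRA c s S E EG B h hS hP hB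
  obtain ⟨b1, b2⟩ := hQRB c s S E EG B h hS hP hB
  obtain ⟨d1, d2⟩ := hQRD c s S E EG B h hS hP hE hB
  rw [brP]
  by_cases eA : ruleA c s = []
  swap
  · exact a1 _ (QRAz.head_mem _ _ eA)
  rw [eA, List.nil_append]
  by_cases eB : ruleB c s = []
  swap
  · exact b1 _ (QRAz.head_mem _ _ eB)
  rw [eB, List.nil_append]
  by_cases eD : ruleD c s = []
  swap
  · exact d1 _ (QRAz.head_mem _ _ eD)
  rw [eD, List.nil_append]
  have hK : ∀ j, S.X ≤ S.ks j → S.G ≤ S.ks j := by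
    intro j hj
    obtain ⟨G1, g1, g2⟩ := d2 eD j hj
    rcases hTSL S E EG j G1 hP hSim hTi hj g1 with k | ⟨v, hv, k⟩ | k
    · exact a2 eA j hj k
    · exact absurd k (b2 eB j v hv)
    · exact absurd k g2
  obtain ⟨r1, -, r3, r4⟩ := hRES S E EG hP hSim hTi hK (b2 eB)
  obtain ⟨c1, c2⟩ := hQRC c s S E EG B h hS hP hB r1
  by_cases eC : ruleC c s = []
  swap
  · exact c1 _ (QRAz.head_mem _ _ eC)
  rw [eC, List.nil_append]
  obtain ⟨sd, s1, s2, s3⟩ := c2 eC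
  obtain ⟨e1, e2⟩ := hQRE c s S E EG B h hn hS hP hB hSim (r4 sd s1 s2 s3) r3
  have := QRAz.head_mem [] (brS s [] [] []) fun e => hL (e2 e)
  rw [List.append_nil] at this
  exact e1 _ this

end Pool.Agent.P.MP_f1a348_lc.UP
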