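import Pool.Agent.P.MP_f1a348_lc.UP.PIf

namespace Pool.Agent.P.MP_f1a348_lc.UP

open Matrix Module Pool.Agent.P.MP_f1a348_lc.PG
open scoped commutatorElement

theorem s_QRE (p n : ℕ) [Fact p.Prime] (t : TM p n) (q : TP p n) (hKR : S_KR p n) (hRE : S_RE p n)
    (hLOCU : S_LOCU p n) (hQENG : S_QENG p n) (hQLEAF : S_QLEAF p n) : S_QRE p n := by
  intro c s S E EG B h hn hS hP hB hsim hres hscl
  have ok0 := St.PrE.ok0 hP
  have el : lab n (llP c s) = S.ll := hS ▸ h.llP s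
  have ea : a3 c s = tr3 S.a := hS ▸ h.a3 s
  have em : muD (muP c s) = S.μ := hS ▸ h.muP s
  have eG : gS p n (sG s) = S.G := by rw [← hS]; rfl
  have eX : gS p n (sX s) = S.X := by rw [← hS]; rfl
  have ept : ptrD p n s.2.2.1 = S.ptr := by rw [← hS]; rfl
  have ed : fV p n (dlP c s (sT' s)) = S.dl S.T' := by rw [h.dlP, ← hS]; rfl
  have elo : ∀ x, mV p n (loP c s x) = S.lo (mV p n x) := fun x => hS ▸ h.loP s x
  have ekp : ∀ x (g : GG p n), mV p n x = g.1 → fV p n (kpP c s (sT s) x) = S.kp g :=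
    fun x g e => hS ▸ (h.kp s e).1
  obtain ⟨hle, -, -, hok, -⟩ := q.st c s S h hS
  obtain ⟨hom, -, -, -, hpre⟩ := hok ok0
  have eB : sp (mat p n) (leP c s (sX s)) = S.le S.X := by rw [hle, eX]
  obtain ⟨-, -, hkey, -, -, -, -, -, hdl, -⟩ := t.coc S ok0
  obtain ⟨hKC, hGX, hSp, hgen⟩ := hKR S ok0 hsim hres.mem
  have eS : sp (frm p n) (spS c s) = SpK S.Kc := by rw [hSp]; exact (hQLEAF c s S h hS ok0).1
  obtain ⟨hfix, hlift, -⟩ := q.fix c (sG s) h
  rw [eG] at hfix hlift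
  obtain ⟨-, -, hlf, -⟩ := hfix _ _ hom
  -- lifts of unitary elements
  have onto : ∀ z, U1 (S.le S.X) z → ∃ g ∈ S.G, S.lo g.1 = z := fun z hz => by
    obtain ⟨w, g, h1, h2, -⟩ := hKC.onto z hz
    exact ⟨g, h1, h2⟩
  have lift : ∀ y, U1 (S.le S.X) (mV p n y) →
      S.lo (gD p n (liftP c (loP c s) (sG s) y)).1 = mV p n y := fun y hy => hlf y (onto _ hy)
  have ez : mV p n (z0B c (llP c s) (leP c s (sX s))) = z0 S.ll (S.le S.X) := by
    rw [h.z0B (by rw [el, eB]; exact hres.str), el, eB]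
  have hE := hQENG c (llP c s) (leP c s (sX s)) S.a (muP c s)
    ((sG s).map fun g => (loP c s (nrm c g), kpP c s (sT s) (nrm c g)))
    (kpP c s (sT s) (liftP c (loP c s) (sG s) (z0B c (llP c s) (leP c s (sX s)))))
    (spS c s) (dlP c s (sT' s)) S.Kc h hn
  rw [el, eB, em, hkey, ed, ← ea] at hE
  replace hE := hE hres.str hres.giant hscl hKC (hgen {g | ∃ x ∈ sG s, gD p n x = g} _ eG ?_) ?_ eS
    hdl
  rotate_left
  · intro y
    constructor
    · rintro ⟨_, hq, rfl⟩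
      obtain ⟨x, hx, rfl⟩ := List.mem_map.1 hq
      exact ⟨_, ⟨x, hx, rfl⟩, by rw [elo, h.nrm, ekp _ _ (h.nrm x)]⟩
    · rintro ⟨_, ⟨x, hx, rfl⟩, rfl⟩
      exact ⟨_, List.mem_map.2 ⟨x, hx, rfl⟩, by rw [elo, h.nrm, ekp _ _ (h.nrm x)]⟩
  · refine ⟨_, (hlift _ _).2, ?_, (ekp _ _ (hlift _ _).1).symm⟩
    rw [lift _ (ez ▸ u1_z0 t.pm.five hres.str), ez]
  obtain ⟨hnone, hsome⟩ := hE
  refine ⟨fun b hb => ?_, fun e g hg => ?_⟩
  · obtain ⟨⟨A, Y, Y'⟩, he, rfl⟩ := List.mem_map.1 hb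
    obtain ⟨eo, pY, pY'⟩ := hsome A Y Y' (Option.mem_toList.1 he)
    have pG := hpre (sG s) A eG.le eo.alg (by
      rw [eG]; exact fun z hz => onto z (hz.mono eo.le))
    have pX := hpre (sX s) A (eX.le.trans ok0.le) eo.alg (by
      rw [eX]; exact fun z hz => hLOCU S ok0 hsim z (hz.mono eo.le))
    rw [eG] at pG
    rw [eX] at pX
    obtain ⟨k1, k2, k3⟩ := hRE S E EG _ _ _ _ _ hP hsim hres eo pG pX
    obtain ⟨k4, k5⟩ := q.core c _ _ h k1 k2
    have eph : S.ph (S.le S.G) = PhiS S.μ S.ll (S.le S.X) := by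
      rw [hGX]; exact (t.phi S.μ).2.1 _ _ hres.str
    have lf : ∀ W : List V, (∀ y ∈ W.map (mV p n), U1 (S.le S.X) y) →
        ((W.map (liftP c (loP c s) (sG s))).map (gD p n)).map (fun t => S.lo t.1) =
          W.map (mV p n) := fun W hW => by
      rw [List.map_map, List.map_map]
      exact List.map_congr_left fun y hy => lift y (hW _ (List.mem_map_of_mem hy))
    have mm : ∀ W : List V, ∀ x ∈ (W.map (liftP c (loP c s) (sG s))).map (gD p n), x ∈ S.G := by
      intro W x hx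
      obtain ⟨y, hy, rfl⟩ := List.mem_map.1 hx
      obtain ⟨z, -, rfl⟩ := List.mem_map.1 hy
      exact (hlift _ _).2
    refine ⟨?_, ?_, ?_⟩
    · have := k3 _ _ _ _ (fun x hx => (List.mem_append.1 hx).elim (mm Y x) (mm Y' x))
        (lf Y eo.mem) (lf Y' eo.mem') (by rw [St.Paid, eph, List.length_map]; exact pY)
        (by rw [St.Paid, eph, List.length_map]; exact pY') k4
      rw [← ept] at this
      exact this
    · exact (length_foD _).le.trans k5
    · have := hB.2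
      rw [← ept] at this
      exact this
  · have e1 : engS c s = none := by
      rw [ruleE, List.map_eq_nil_iff] at e
      cases k : engS c s with
      | none => rfl
      | some x => rw [k] at e; cases e
    rw [← hSp]
    exact Submodule.subset_span (hnone e1 _ _ ⟨g, hg, rfl, rfl⟩)

end Pool.Agent.P.MP_f1a348_lc.UP
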