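import Pool.Agent.P.MP_f1a348_lc.UP.PIf

/-!
Project UP, task QST: the basic operations on states.
-/

namespace Pool.Agent.P.MP_f1a348_lc.UP

open Matrix Module Pool.Agent.P.MP_f1a348_lc.PG
open scoped commutatorElement

namespace QSTz

variable {p n : ℕ} [Fact p.Prime] {c : Cx}

/-- the generators of the unitary group -/
theorem gen (t : TM p n) (hQGEN : S_QGEN p n) (h : Ok p n c) {l : V} {A : List V}
    (hl : Lab (lab n l)) (hA : Alg (lab n l) (sp (mat p n) A)) :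
    (∀ x ∈ genP c l A, Vd p n x) ∧ gS p n (genP c l A) = UG (sp (mat p n) A) := by
  obtain ⟨h1, h2⟩ := hQGEN c l A h hl hA
  have hS := (t.env.2.2.2.2.1 _ _ hl hA).1
  have h3 := (t.env.2.2.2.1 _ hS).1
  have hv : ∀ x ∈ genP c l A, Vd p n x := fun x hx =>
    vd_par ⟨(hS.dg _ (h1 x hx).1).tri lab_l0, (h1 x hx).2⟩
  refine ⟨hv, le_antisymm (gS_le.2 fun x hx => (h3 _).2 (hv x hx ▸ (h1 x hx).1)) fun g hg => ?_⟩
  have key : ∀ z ∈ Submonoid.closure {x | ∃ g ∈ genP c l A, mV p n g = x},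
      ∃ k ∈ gS p n (genP c l A), k.1 = z := fun z hz => by
    induction hz using Submonoid.closure_induction with
    | mem z hz =>
      obtain ⟨x, hx, rfl⟩ := hz
      exact ⟨_, mem_gS hx, (hv x hx).symm⟩
    | one => exact ⟨1, one_mem _, rfl⟩
    | mul a b _ _ ha hb =>
      obtain ⟨a, ha, rfl⟩ := ha
      obtain ⟨b, hb, rfl⟩ := hb
      exact ⟨a * b, mul_mem ha hb, rfl⟩
  obtain ⟨k, hk, e⟩ := key _ (h2 g.1 ⟨(h3 g).1 hg, g.2.2⟩)
  exact (Subtype.ext e : k = g) ▸ hk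

end QSTz

theorem s_QST (p n : ℕ) [Fact p.Prime] (t : TM p n) (hRP : S_RP p n) (hQPOT : S_QPOT p n)
    (hQGEN : S_QGEN p n) (hQENVP : S_QENVP p n) (hQFIX : S_QFIX p n) : S_QST p n := by
  rintro c s _ h rfl
  have hl := stD_lab (p := p) (n := n) s
  have hll : Lab (lab n (llP c s)) := h.llP s ▸ (t.lc.1 _ _ hl (t.lc.2 _ _ hl).1).1
  have h1 : ∀ Y, sp (mat p n) (leP c s Y) = (stD p n s).le (gS p n Y) := fun Y => by
    rw [leP, (basis_bas h.hp h.d2 _).sp, sp_map (δ := mat p n) _ fun x _ => h.loP s x,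
      hQENVP c Y h, St.le]
  have h2 : ∀ A, Alg (stD p n s).ll (sp (mat p n) A) →
      phP c s A = (stD p n s).ph (sp (mat p n) A) := fun A hA => by
    rw [phP, (hQPOT c _ _ h).2 A hll (h.llP s ▸ hA), h.muP, h.llP, St.ph]
  have h3 : ∀ j : Fin 3, Tst (ksT c s j.val) (Stb (sL (stD p n s).f (stD p n s).ℓ ((stD p n s).a j)) ⊓
      Stb (sH (stD p n s).f (stD p n s).ℓ ((stD p n s).a j))) (· ∈ (stD p n s).ks j) :=
    fun j x g hg e => by
      rw [ksT, h.meq, h.mmul, h.mmul, h.aj, h.prP, h.lP, h.frP (h.fm s), e]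
      exact ((t.sec.1 _ _ _ hl).2.2.2.2.2.2.1 g hg.1 hg.2).symm
  refine ⟨h1, h2, h3, fun h0 => ?_, fun E EG k A hP hA hG => ?_⟩
  · have hc := t.coc _ h0
    have hm : Hom (loP c s) (stD p n s).G fun g => (stD p n s).lo g.1 :=
      ⟨fun x g _ e => e ▸ h.loP s x, hc.2.2.2.1, fun a ha b hb =>
        (hc.2.2.2.2.1 _ ((t.env.1 _).2.1 a ha)).2.2 _ ((t.env.1 _).2.1 b hb)⟩
    have hn : ∀ g ∈ (stD p n s).G, g ∈ (stD p n s).N1 ↔ (stD p n s).lo g.1 = 1 :=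
      fun g hg => (hc.2.2.2.2.2.2.1 g hg).2.1
    have hx : ∀ (j : Fin 3) Y, gS p n Y ≤ (stD p n s).G →
        (xkP c s j.val Y = true ↔ gS p n Y ≤ (stD p n s).ks j) := fun j Y hY => by
      rw [xkP, List.all_eq_true, gS_le]
      exact forall₂_congr fun x hx =>
        h3 j _ _ ((hc.2.2.2.2.2.2.2.2.2.2.1 j).2 (hY (mem_gS hx))) (h.nrm x)
    refine ⟨hm, fun Y hY => ?_, hx, ?_, fun Y A hY hA hU => ?_⟩
    · ext g
      rw [n1P, ((hQFIX c Y h).1 _ _ (hm.mono hY)).2.1 g, Subgroup.mem_inf]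
      exact and_congr_right fun hg => (hn g (hY hg)).symm
    · rw [tbP, any3]
      exact exists_congr fun j => hx j _ h0.le
    · have hA' : Alg (lab n (llP c s)) (sp (mat p n) A) := h.llP s ▸ hA
      have hg := (hQGEN c _ A h hll hA').1
      obtain ⟨hv, e⟩ := QSTz.gen t hQGEN h hll hA'
      obtain ⟨Z, z1, z2, z3, z4⟩ := ((hQFIX c Y h).1 _ _ (hm.mono hY)).2.2.2 _
        fun w hw => hU _ (hg w hw)
      rw [preP, ← z1]
      refine ((t.qb _ h0).2.2.1 _ _ hY hA).2 Z _ e ?_ (fun y hy => ⟨(z2 y hy).1, ?_⟩)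
        fun g hg => z3 g hg.1 ((hn g hg.2.1).1 hg.2)
      · rintro _ ⟨x, hx, rfl⟩
        obtain ⟨a, ha, e⟩ := z4 x hx
        exact ⟨a, Subgroup.subset_closure ha, e.trans (hv x hx)⟩
      · rcases (z2 y hy).2 with e | ⟨w, hw, e⟩
        · exact e ▸ hA.one
        · exact e ▸ (hg w hw).1
  · obtain ⟨-, -, -, r1, r2, -⟩ := hRP _ E EG hP
    have r3 := r2 _ hA hG
    have r4 : capE n ≤ bud2 n := Nat.mul_le_mul_right _ (by norm_num)
    have e : gS p n (sG s) = (stD p n s).G := rfl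
    rw [paidP, Nat.ble_eq, h2 A hA, h2 _ (by
      rw [h1, e]; exact ((t.coc _ hP.ok0).2.2.2.2.2.1 _ le_rfl).1), h1, e, h.pwN (by omega),
      h.pwN (by omega), h.hp, St.Paid]

end Pool.Agent.P.MP_f1a348_lc.UP
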