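import Pool.Agent.P.MP_f1a348_lc.UP.PIf

/-!
Project UP: the program computes the dyadic forest of a composition flag.
-/

namespace Pool.Agent.P.MP_f1a348_lc.UP

open Matrix Module Pool.Agent.P.MP_f1a348_lc.PG
open scoped commutatorElement

namespace QTREEz

variable {p n : ℕ} [Fact p.Prime] {c : Cx}

theorem size_le (n : ℕ) : Nat.size (2 * n + 1) ≤ 2 * n + 1 :=
  Nat.size_le.2 Nat.lt_two_pow_self

omit [Fact p.Prime] in
theorem dip (h : Ok p n c) (hh : hP c = Nat.size (2 * n + 1)) {I : List ℕ} {S : Set (Ix n)}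
    (hS : ∀ α : Ix n, α.val ∈ I ↔ α ∈ S) (j i : ℕ) :
    {α : Ix n | α.val ∈ dIP c I j i} = dI S (Nat.size (2 * n + 1)) j i := by
  ext α
  have e : min (Nat.size (2 * n + 1) - j) (2 * n + 1) = Nat.size (2 * n + 1) - j :=
    min_eq_left ((Nat.sub_le _ _).trans (size_le n))
  simp only [dIP, dI, p2, hh, h.hM, e, List.mem_filter, Set.mem_ofPred_eq, beq_iff_eq, hS]

theorem sgl (α : Ix n) : {β : Ix n | β.val ∈ [α.val]} = {α} := by
  ext β
  simp [Fin.ext_iff]

theorem two_pow (h : Ok p n c) (S : Set (Ix n)) : 2 ^ S.ncard ≤ c.2.2.length := by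
  have h1 : S.ncard ≤ 2 * n + 1 := by
    have := Set.ncard_le_card S
    rwa [Nat.card_eq_fintype_card, Fintype.card_fin] at this
  exact ((Nat.pow_le_pow_right (by norm_num) h1).trans
    (Nat.pow_le_pow_left (Fact.out : p.Prime).two_le _)).trans (h.pow_le' (by omega))

theorem sub_eq (hB : S_QBFS p n) (h : Ok p n c) {t : V → Bool} {S : List V} {Q : SG p n}
    (ht : Tst t ⊤ (· ∈ Q)) (hi : Q.relIndex (gS p n S) ≤ c.2.2.length) :
    gS p n (subG c t S) = gS p n S ⊓ Q := by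
  obtain ⟨h1, h2⟩ := (hB c t S h).2.2 Q (ht.mono le_top)
  exact (h2 (h1.trans hi)).2

end QTREEz

set_option linter.unusedVariables false in
open QTREEz in
theorem s_QTREE (p n : ℕ) [Fact p.Prime] (b : TB p n) (hPERM : S_PERM p n) (hQBFS : S_QBFS p n)
    (hQSUBS : S_QSUBS p n) (hQMI : S_QMI p n) : S_QTREE p n := by
  intro c H R x f h hR hx hH
  obtain ⟨m1, m2, m3, m4, m5, m6, -, -⟩ := hQMI c R x f h hR hx
  obtain ⟨-, p2', p3, -, p5, p6⟩ := hPERM (gS p n H) _ f _ hR hx.cf hH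
  have sub : ∀ j i, ∀ a ∈ dIP c (smlP c x) j i, a ∈ smlP c x := fun j i a ha =>
    (List.mem_filter.1 ha).1
  have mi : ∀ j i, sp (mat p n) (miP c R x (dIP c (smlP c x) j i)) =
      MI (sp (mat p n) R) f (lab n x.1) (dI (Sml (lab n x.1) (gB (sp (mat p n) R) f (lab n x.1)))
        (Nat.size (2 * n + 1)) j i) := fun j i => by
    rw [m3 _ fun a ha => m1 a (sub j i a ha), dip h m6 m2]
  have hK : ∀ j i, gS p n (trK c H R x (dIP c (smlP c x) j i)) = gS p n H ⊓
      CenQ (sp (mat p n) R) (MI (sp (mat p n) R) f (lab n x.1)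
        (dI (Sml (lab n x.1) (gB (sp (mat p n) R) f (lab n x.1))) (Nat.size (2 * n + 1)) j i)) := by
    intro j i
    ext g
    have e1 : ∀ α : Ix n, sp (mat p n) (miP c R x [α.val]) =
        MI (sp (mat p n) R) f (lab n x.1) {α} := fun α => by
      rw [m3 _ (by simpa using α.2), sgl]
    rw [trK, hQSUBS c _ _ H (fun a => CenQ (sp (mat p n) R) (sp (mat p n) (miP c R x [a]))) h
      (chn_of fun a ha => ⟨(m4 _).2.mono le_top, ?_⟩), p6, ← dip h m6 m2]
    · refine and_congr Iff.rfl ⟨fun k α hα => e1 α ▸ k _ hα, fun k a ha => ?_⟩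
      have := e1 ⟨a, m1 a (sub j i a ha)⟩
      rw [this]
      exact k _ ha
    · have := e1 ⟨a, m1 a (sub j i a ha)⟩
      rw [this]
      exact (p5 _ ((m2 ⟨a, m1 a (sub j i a ha)⟩).1 (sub j i a ha))).trans
        (h.pow_le (by rw [cT, bud2]; omega))
  have hN : ∀ j i (S : List V), gS p n S ≤ gS p n H →
      gS p n (subG c (nmT c (miP c R x (dIP c (smlP c x) j i))) S) = gS p n S ⊓
      NmS (MI (sp (mat p n) R) f (lab n x.1)
        (dI (Sml (lab n x.1) (gB (sp (mat p n) R) f (lab n x.1))) (Nat.size (2 * n + 1)) j i)) := by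
    intro j i S hS
    refine sub_eq hQBFS h (mi j i ▸ (m4 _).1) ?_
    exact (p3 _ _ (fun α hα => hα.1) _ hS (hS.trans p2')).trans (two_pow h _)
  rw [foD, treeP, tree, m5, List.map_map]
  refine List.map_congr_left fun r _ => ?_
  rw [Function.comp_apply, hK, m6]
  by_cases e : r.1 = Nat.size (2 * n + 1)
  · rw [if_pos e, beq_iff_eq.2 e, cond_true, hK]
  · rw [if_neg e, beq_eq_false_iff_ne.2 e, cond_false, trP, hN, hN _ _ _ le_rfl]
    rw [hN _ _ _ le_rfl]
    exact inf_le_left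

end Pool.Agent.P.MP_f1a348_lc.UP
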