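import Pool.Agent.P.MP_f1a348_lc.UP.EBase

/-! Project UP: comparison of the potentials of two quotients of an algebra. -/

namespace Pool.Agent.P.MP_f1a348_lc.UP

open Matrix Module Pool.Agent.P.MP_f1a348_lc.PG

namespace QUOy

set_option linter.unusedSectionVars false

variable {p n : ℕ} [Fact p.Prime] {ℓ1 ℓ2 : Ix n → ℕ} {R : Sub p n}
  {π1 π2 : Mat p n →ₗ[ZMod p] Mat p n}

theorem kill (hR : ∀ x ∈ R, ∀ y ∈ R, x * y ∈ R) (m1 : Hm R π1) (m2 : Hm R π2)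
    (h1 : Str ℓ1 (R.map π1)) (hn : ∀ x ∈ R, π2 x = 0 → IsNilpotent (π1 x)) {x : Mat p n}
    (hx : x ∈ R) (e : π2 x = 0) {α : Ix n} {v : Vec p n} (hv : v ∈ Vb ℓ1 α) :
    π1 x *ᵥ v = 0 := by
  by_contra hw
  obtain ⟨_, ⟨a, ha, rfl⟩, e1⟩ := h1.sim α _
    ((h1.alg.dg _ ⟨x, hx, rfl⟩).mulVec_mem hv) hw v hv
  obtain ⟨k, hk⟩ := hn _ (hR a ha x hx) (by rw [m2.mul a ha x hx, e, mul_zero])
  have h2 : ∀ j : ℕ, π1 (a * x) ^ j *ᵥ v = v := fun j => by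
    induction j with
    | zero => simp
    | succ j ih =>
      rw [pow_succ, ← Matrix.mulVec_mulVec, m1.mul a ha x hx, ← Matrix.mulVec_mulVec, e1,
        ← m1.mul a ha x hx, ih]
  have h3 := h2 k
  rw [hk, Matrix.zero_mulVec] at h3
  exact hw (by rw [← h3, Matrix.mulVec_zero])

/-- the elements of `R` whose image kills the unit vectors in `S` -/
def NS (R : Sub p n) (π : Mat p n →ₗ[ZMod p] Mat p n) (S : Finset (Ix n)) : Sub p n where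
  carrier := {x | x ∈ R ∧ ∀ j ∈ S, π x *ᵥ (Pi.single j 1 : Vec p n) = 0}
  add_mem' hx hy := ⟨add_mem hx.1 hy.1, fun j hj => by
    rw [map_add, Matrix.add_mulVec, hx.2 j hj, hy.2 j hj, add_zero]⟩
  zero_mem' := ⟨zero_mem _, fun j _ => by rw [map_zero, Matrix.zero_mulVec]⟩
  smul_mem' c x hx := ⟨R.smul_mem c hx.1, fun j hj => by
    rw [map_smul, Matrix.smul_mulVec, hx.2 j hj, smul_zero]⟩

theorem ideal (h1R : (1 : Mat p n) ∈ R) (hR : ∀ x ∈ R, ∀ y ∈ R, x * y ∈ R) (m1 : Hm R π1)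
    (m2 : Hm R π2) (h1 : Str ℓ1 (R.map π1)) (hn : ∀ x ∈ R, π2 x = 0 → IsNilpotent (π1 x))
    {α : Ix n} {v : Vec p n} (hv : v ∈ Vb ℓ1 α) (h0 : v ≠ 0) :
    ∃ (β : Ix n) (N : Sub p n), N ≤ R ∧ (∀ a ∈ R, ∀ x ∈ N, a * x ∈ N) ∧
      (∃ x ∈ N, π1 x *ᵥ v ≠ 0) ∧
      ∀ x ∈ N, π2 x *ᵥ (Pi.single β 1 : Vec p n) = 0 → π1 x *ᵥ v = 0 := by
  classical
  by_contra hc
  have key : ∀ S : Finset (Ix n), ∃ x ∈ NS R π2 S, π1 x *ᵥ v ≠ 0 := by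
    intro S
    induction S using Finset.induction_on with
    | empty => exact ⟨1, ⟨h1R, fun j hj => by simp at hj⟩, by rwa [m1.one, Matrix.one_mulVec]⟩
    | insert β S _ ih =>
      by_contra hd
      refine hc ⟨β, NS R π2 S, fun x hx => hx.1, fun a ha x hx => ⟨hR a ha x hx.1, fun j hj => by
        rw [m2.mul a ha x hx.1, ← Matrix.mulVec_mulVec, hx.2 j hj, Matrix.mulVec_zero]⟩, ih,
        fun x hx e => ?_⟩
      by_contra hne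
      refine hd ⟨x, ⟨hx.1, fun j hj => ?_⟩, hne⟩
      rcases Finset.mem_insert.1 hj with rfl | hj
      · exact e
      · exact hx.2 j hj
  obtain ⟨x, hx, hne⟩ := key Finset.univ
  refine hne (kill hR m1 m2 h1 hn hx.1 ?_ hv)
  ext a b
  simpa using congrFun (hx.2 b (Finset.mem_univ b)) a

theorem build (m1 : Hm R π1) (m2 : Hm R π2) (h1 : Str ℓ1 (R.map π1)) (h2 : Str ℓ2 (R.map π2))
    {N : Sub p n} (hN : N ≤ R) (hl : ∀ a ∈ R, ∀ x ∈ N, a * x ∈ N) {α β : Ix n} {u v : Vec p n}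
    (hv : v ∈ Vb ℓ1 α) (hu : u ∈ Vb ℓ2 β) (h0 : ∃ x ∈ N, π2 x *ᵥ u ≠ 0)
    (hk : ∀ x ∈ N, π2 x *ᵥ u = 0 → π1 x *ᵥ v = 0) :
    ∃ F : Mat p n, (∀ a ∈ R, F * π2 a = π1 a * F) ∧ (∀ z ∈ N, F *ᵥ (π2 z *ᵥ u) = π1 z *ᵥ v) ∧
      F * pr ℓ2 β = F ∧ pr ℓ1 α * F = F ∧ ∀ y, ∃ z ∈ N, π2 z *ᵥ u = pr ℓ2 β *ᵥ y := by
  obtain ⟨x0, hx0, e0⟩ := h0
  have dg1 : ∀ a ∈ R, Dg ℓ1 (π1 a) := fun a ha => h1.alg.dg _ ⟨a, ha, rfl⟩
  have dg2 : ∀ a ∈ R, Dg ℓ2 (π2 a) := fun a ha => h2.alg.dg _ ⟨a, ha, rfl⟩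
  have hs : ∀ y, ∃ z ∈ N, π2 z *ᵥ u = pr ℓ2 β *ᵥ y := fun y => by
    obtain ⟨_, ⟨a, ha, rfl⟩, e⟩ := h2.sim β _ ((dg2 _ (hN hx0)).mulVec_mem hu) e0 _
      (pr_mulVec_mem β y)
    exact ⟨a * x0, hl a ha x0 hx0, by rw [m2.mul a ha x0 (hN hx0), ← Matrix.mulVec_mulVec, e]⟩
  choose X hX eX using fun γ : Ix n => hs (Pi.single γ 1)
  let F : Mat p n := Matrix.of fun i γ => (π1 (X γ) *ᵥ v) i
  have hF : ∀ y : Vec p n, ∀ z ∈ N, π2 z *ᵥ u = pr ℓ2 β *ᵥ y → F *ᵥ y = π1 z *ᵥ v := by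
    intro y z hz e
    have a1 : ∑ γ, y γ • X γ ∈ N := Submodule.sum_mem _ fun γ _ => N.smul_mem _ (hX γ)
    have a2 : π2 (∑ γ, y γ • X γ) *ᵥ u = pr ℓ2 β *ᵥ y := by
      rw [map_sum, Matrix.sum_mulVec]
      conv_rhs => rw [← Finset.univ_sum_single y, Matrix.mulVec_sum]
      refine Finset.sum_congr rfl fun γ _ => ?_
      rw [map_smul, Matrix.smul_mulVec, eX, ← Matrix.mulVec_smul, ← Pi.single_smul', smul_eq_mul,
        mul_one]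
    have a3 := hk _ (sub_mem a1 hz) (by rw [map_sub, Matrix.sub_mulVec, a2, e, sub_self])
    rw [map_sub, Matrix.sub_mulVec, sub_eq_zero] at a3
    rw [← a3, map_sum, Matrix.sum_mulVec]
    funext i
    rw [Finset.sum_apply]
    simp only [F, Matrix.mulVec, dotProduct, Matrix.of_apply, map_smul, Matrix.smul_apply,
      smul_eq_mul]
    refine Finset.sum_congr rfl fun γ _ => ?_
    rw [mul_comm, Finset.mul_sum]
    exact Finset.sum_congr rfl fun j _ => (mul_assoc _ _ _).symm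
  refine ⟨F, fun a ha => mat_ext fun y => ?_, fun z hz => hF _ z hz ?_, mat_ext fun y => ?_,
    mat_ext fun y => ?_, hs⟩
  · obtain ⟨z, hz, e⟩ := hs y
    rw [← Matrix.mulVec_mulVec, ← Matrix.mulVec_mulVec, hF y z hz e,
      hF _ (a * z) (hl a ha z hz) (by
        rw [m2.mul a ha z (hN hz), ← Matrix.mulVec_mulVec, e, Matrix.mulVec_mulVec,
          Matrix.mulVec_mulVec, (dg2 a ha).comm_pr]),
      m1.mul a ha z (hN hz), Matrix.mulVec_mulVec]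
  · exact (mem_Vb_iff.1 ((dg2 _ (hN hz)).mulVec_mem hu)).symm
  · obtain ⟨z, hz, e⟩ := hs y
    rw [← Matrix.mulVec_mulVec, hF y z hz e, hF _ z hz (by
      rw [Matrix.mulVec_mulVec, pr_mul_pr, e])]
  · obtain ⟨z, hz, e⟩ := hs y
    rw [← Matrix.mulVec_mulVec, hF y z hz e]
    exact mem_Vb_iff.1 ((dg1 _ (hN hz)).mulVec_mem hv)

theorem half {α β : Ix n} {F G : Mat p n} (hF : ∀ a ∈ R, F * π2 a = π1 a * F)
    (hG : ∀ a ∈ R, G * π1 a = π2 a * G) (e : F * G = pr ℓ1 α) (e1 : pr ℓ2 β * G = G)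
    (e2 : F * pr ℓ2 β = F) :
    nb ℓ1 α ≤ nb ℓ2 β ∧ eb ℓ1 (R.map π1) α ≤ eb ℓ2 (R.map π2) β ∧
      ∀ x ∈ R, π2 x * pr ℓ2 β = 0 → π1 x * pr ℓ1 α = 0 := by
  refine ⟨?_, ?_, fun x hx h => ?_⟩
  · rw [← finrank_Vb (p := p), ← finrank_Vb (p := p)]
    refine LinearMap.finrank_le_finrank_of_injective (f := G.mulVecLin.restrict
      (p := Vb ℓ1 α) (q := Vb ℓ2 β) fun x _ => ?_) fun x y h => Subtype.ext ?_
    · rw [Matrix.mulVecLin_apply, ← e1, ← Matrix.mulVec_mulVec]; exact pr_mulVec_mem _ _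
    · have h' : G *ᵥ x.1 = G *ᵥ y.1 := congrArg Subtype.val h
      rw [← mem_Vb_iff.1 x.2, ← mem_Vb_iff.1 y.2, ← e, ← Matrix.mulVec_mulVec,
        ← Matrix.mulVec_mulVec, h']
  · refine finrank_le_of_mul (lr G F) (lr F G) (fun C hC => ⟨?_, ?_⟩) fun C hC => ?_
    · rintro _ ⟨a, ha, rfl⟩
      rw [lr_apply, mul_assoc, hF a ha, ← mul_assoc, mul_assoc G, hC.1 _ ⟨a, ha, rfl⟩,
        ← mul_assoc, hG a ha]
      simp only [mul_assoc]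
    · rw [lr_apply, ← mul_assoc, ← mul_assoc, e1, mul_assoc, e2]
    · rw [lr_apply, lr_apply, ← mul_assoc, ← mul_assoc, e, mul_assoc, e, hC.2]
  · rw [← e, ← mul_assoc, ← hF x hx, ← e1, mul_assoc, ← mul_assoc (π2 x), h, zero_mul, mul_zero]

theorem part1 (h1R : (1 : Mat p n) ∈ R) (hR : ∀ x ∈ R, ∀ y ∈ R, x * y ∈ R) (m1 : Hm R π1)
    (m2 : Hm R π2) (h1 : Str ℓ1 (R.map π1)) (h2 : Str ℓ2 (R.map π2))
    (hn : ∀ x ∈ R, π2 x = 0 → IsNilpotent (π1 x)) (α : Ix n) :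
    ∃ β, nb ℓ1 α = nb ℓ2 β ∧ eb ℓ1 (R.map π1) α = eb ℓ2 (R.map π2) β ∧
      ∀ x ∈ R, π1 x * pr ℓ1 α = 0 ↔ π2 x * pr ℓ2 β = 0 := by
  have hv : (Pi.single α 1 : Vec p n) ∈ Vb ℓ1 α := single_mem_Vb rfl 1
  obtain ⟨β, N, hN, hl, ⟨x0, hx0, e0⟩, hk⟩ := ideal h1R hR m1 m2 h1 hn hv
    (fun e => by simpa using congrFun e α)
  have hu : (Pi.single β 1 : Vec p n) ∈ Vb ℓ2 β := single_mem_Vb rfl 1
  generalize (Pi.single α 1 : Vec p n) = v at hv e0 hk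
  generalize (Pi.single β 1 : Vec p n) = u at hu hk
  obtain ⟨F, a1, a2, a3, a4, a5⟩ := build m1 m2 h1 h2 hN hl hv hu
    ⟨x0, hx0, fun e => e0 (hk x0 hx0 e)⟩ hk
  have hk' : ∀ x ∈ N, π1 x *ᵥ v = 0 → π2 x *ᵥ u = 0 := fun z hz e => by
    by_contra hne
    have dg2 : ∀ a ∈ R, Dg ℓ2 (π2 a) := fun a ha => h2.alg.dg _ ⟨a, ha, rfl⟩
    obtain ⟨_, ⟨a, ha, rfl⟩, e'⟩ := h2.sim β _ ((dg2 _ (hN hz)).mulVec_mem hu) hne _
      ((dg2 _ (hN hx0)).mulVec_mem hu)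
    refine e0 ?_
    rw [← a2 x0 hx0, ← e', Matrix.mulVec_mulVec, a1 a ha, ← Matrix.mulVec_mulVec, a2 z hz, e,
      Matrix.mulVec_zero]
  obtain ⟨G, b1, b2, b3, b4, b5⟩ := build m2 m1 h2 h1 hN hl hu hv ⟨x0, hx0, e0⟩ hk'
  have c1 : F * G = pr ℓ1 α := mat_ext fun y => by
    obtain ⟨z, hz, e⟩ := b5 y
    rw [← b3, ← Matrix.mulVec_mulVec, ← Matrix.mulVec_mulVec, ← e, b2 z hz, a2 z hz]
  have c2 : G * F = pr ℓ2 β := mat_ext fun y => by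
    obtain ⟨z, hz, e⟩ := a5 y
    rw [← a3, ← Matrix.mulVec_mulVec, ← Matrix.mulVec_mulVec, ← e, a2 z hz, b2 z hz]
  obtain ⟨d1, d2, d3⟩ := half a1 b1 c1 b4 a3
  obtain ⟨f1, f2, f3⟩ := half b1 a1 c2 a4 b3
  exact ⟨β, le_antisymm d1 f1, le_antisymm d2 f2, fun x hx => ⟨f3 x hx, d3 x hx⟩⟩

theorem ann_cls {ℓ : Ix n → ℕ} {B : Sub p n} (h : Str ℓ B) {a b : Ix n} (e : Cb ℓ B a b ≠ ⊥)
    {c : Mat p n} (hc : c ∈ B) (h0 : c * pr ℓ b = 0) : c * pr ℓ a = 0 := by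
  obtain ⟨C, hC, hne⟩ := exists_cb_ne e
  obtain ⟨D, hD, e1, _⟩ := schur h hC hne
  rw [← e1, ← mul_assoc, ← hC.1 c hc, ← cb_left hD, mul_assoc, ← mul_assoc c, h0, zero_mul,
    mul_zero]

theorem triv_of (h1R : (1 : Mat p n) ∈ R) (m1 : Hm R π1) (m2 : Hm R π2)
    (h1 : Str ℓ1 (R.map π1)) (h2 : Str ℓ2 (R.map π2)) {α β : Ix n}
    (ha : ∀ x ∈ R, π2 x * pr ℓ2 β = 0 → π1 x * pr ℓ1 α = 0) (t : Triv ℓ2 (R.map π2) β) :
    Triv ℓ1 (R.map π1) α := by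
  have hv : (Pi.single α 1 : Vec p n) ∈ Vb ℓ1 α := single_mem_Vb rfl 1
  have key : ∀ x ∈ R, π1 x *ᵥ (Pi.single α 1 : Vec p n) =
      x (c0 n) (c0 n) • (Pi.single α 1 : Vec p n) := fun x hx => by
    have a1 := ha (x - x (c0 n) (c0 n) • 1) (sub_mem hx (R.smul_mem _ h1R)) (mat_ext fun y => by
      rw [← Matrix.mulVec_mulVec, map_sub, map_smul, m2.one, Matrix.sub_mulVec,
        triv_act h2 t (pr_mulVec_mem β y) ⟨x, hx, rfl⟩, m2.chi x hx, Matrix.smul_mulVec,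
        Matrix.one_mulVec, sub_self, Matrix.zero_mulVec])
    have a2 := congrArg (· *ᵥ (Pi.single α 1 : Vec p n)) a1
    simp only [← Matrix.mulVec_mulVec, mem_Vb_iff.1 hv, Matrix.zero_mulVec] at a2
    rwa [map_sub, map_smul, m1.one, Matrix.sub_mulVec, Matrix.smul_mulVec, Matrix.one_mulVec,
      sub_eq_zero] at a2
  have hC : ∀ y : Vec p n, (Matrix.single α (c0 n) 1 : Mat p n) *ᵥ y =
      y (c0 n) • (Pi.single α 1 : Vec p n) := fun y => by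
    rw [Matrix.single_mulVec, one_mul]
    funext i
    by_cases e : i = α
    · subst e; simp
    · simp [e]
  refine cb_ne_of (C := Matrix.single α (c0 n) 1) ⟨?_, mat_ext fun y => ?_⟩ fun e => ?_
  · rintro _ ⟨x, hx, rfl⟩
    refine mat_ext fun y => ?_
    rw [← Matrix.mulVec_mulVec, ← Matrix.mulVec_mulVec, hC, hC, Matrix.mulVec_smul, key x hx,
      ((h1.alg.dg _ ⟨x, hx, rfl⟩).tri h1.lab).mulVec_c0, m1.chi x hx, smul_smul, mul_comm]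
  · rw [← Matrix.mulVec_mulVec, ← Matrix.mulVec_mulVec, hC, hC, pr_mulVec, if_pos rfl,
      Matrix.mulVec_smul, mem_Vb_iff.1 hv]
  · simpa using congrFun (congrFun e α) (c0 n)

theorem cls_of (h1 : Str ℓ1 (R.map π1)) {α α' : Ix n}
    (ha : ∀ x ∈ R, π1 x * pr ℓ1 α = 0 → π1 x * pr ℓ1 α' = 0) : Cb ℓ1 (R.map π1) α α' ≠ ⊥ := by
  classical
  intro hb
  obtain ⟨x, hx, e⟩ := diagonal_mem h1 (d := fun γ => if Cb ℓ1 (R.map π1) α γ = ⊥ then 1 else 0)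
    fun γ δ e => by
      have : Cb ℓ1 (R.map π1) α γ = ⊥ ↔ Cb ℓ1 (R.map π1) α δ = ⊥ :=
        not_iff_not.1 ⟨fun t => cb_trans h1 t e, fun t => cb_trans h1 t (cb_symm h1 e)⟩
      simp only [this]
  have a1 := ha x hx (by
    rw [e]
    ext i j
    rw [mul_pr_apply, Matrix.diagonal_apply, Matrix.zero_apply]
    split_ifs with b1 b2 b3
    · subst b2
      exact absurd (by rwa [Cb_congr (B := R.map π1) rfl b1] at b3) (cb_refl h1.alg α)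
    all_goals rfl)
  have a2 := congrFun (congrFun a1 α') α'
  rw [e, mul_pr_apply, if_pos rfl, Matrix.diagonal_apply_eq, if_pos hb] at a2
  exact one_ne_zero a2

end QUOy

open QUOy in
theorem s_QUO (p n : ℕ) [Fact p.Prime] (m : PM p n) : S_QUO p n := by
  classical
  intro μ ℓ1 ℓ2 R π1 π2 h1R hR m1 m2 h1 h2 hn
  refine ⟨part1 h1R hR m1 m2 h1 h2 hn, ?_⟩
  have key : ∀ α, ∃ β, Rep ℓ2 (R.map π2) β ∧ nb ℓ1 α = nb ℓ2 β ∧
      eb ℓ1 (R.map π1) α = eb ℓ2 (R.map π2) β ∧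
      ∀ x ∈ R, π1 x * pr ℓ1 α = 0 ↔ π2 x * pr ℓ2 β = 0 := fun α => by
    obtain ⟨β, a1, a2, a3⟩ := part1 h1R hR m1 m2 h1 h2 hn α
    obtain ⟨γ, b1, b2⟩ := (m.cls ℓ2 _ h2).1 β
    exact ⟨γ, b1, a1.trans (nb_eq h2 b2).symm, a2.trans (eb_eq h2 b2).symm, fun x hx =>
      (a3 x hx).trans ⟨ann_cls h2 b2 ⟨x, hx, rfl⟩, ann_cls h2 (cb_symm h2 b2) ⟨x, hx, rfl⟩⟩⟩
  choose β b1 b2 b3 b4 using key
  unfold PhiS
  rw [← Finset.sum_filter, ← Finset.sum_filter]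
  rw [Finset.sum_congr rfl fun α _ => by rw [b2 α, b3 α]]
  rw [← Finset.sum_image (g := β)
    (f := fun γ => nb ℓ2 γ * (3 + sc μ (nb ℓ2 γ)) - eb ℓ2 (R.map π2) γ) ?_]
  · refine Finset.sum_le_sum_of_subset fun γ hγ => ?_
    obtain ⟨α, hα, rfl⟩ := Finset.mem_image.1 hγ
    exact Finset.mem_filter.2 ⟨Finset.mem_univ _, b1 α, fun t => (Finset.mem_filter.1 hα).2.2
      (triv_of h1R m1 m2 h1 h2 (fun x hx => (b4 α x hx).2) t)⟩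
  · intro α hα α' hα' e
    exact (m.cls ℓ1 _ h1).2.1 α α' (Finset.mem_filter.1 hα).2.1 (Finset.mem_filter.1 hα').2.1
      (cls_of h1 fun x hx h0 => (b4 α' x hx).2 (e ▸ (b4 α x hx).1 h0))

end Pool.Agent.P.MP_f1a348_lc.UP
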