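import Pool.Agent.P.MP_f1a348_lc.UP.EIf

namespace Pool.Agent.P.MP_f1a348_lc.UP

open Matrix Module Pool.Agent.P.MP_f1a348_lc.PG

namespace QXQy

theorem ed_y {p n : ℕ} [Fact p.Prime] (hQE23 : S_QE23 p n) (hQE5 : S_QE5 p n) {c : Cx} {l : V}
    {s : Sd} {t : ℕ} {K : Rel p n} {SL : List V} {a : Fin 3 → Ix n} {ρ : Rz} {w0 θ : V} (q : V)
    (h : Ok p n c) (hn : 0 < n) (hs : Gd p n l s) (hK : KC (lab n l) (sdD p n s).B t K)
    (hSL : sp (frm p n) SL = SpK K) (hw : K (z0 (lab n l) (sdD p n s).B) (fV p n w0))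
    (ha : ρ.2.1 = tr3 a) (ht : (rzD p a ρ).t (lab n l) = t)
    (hθ : 4 ≤ ρ.1 → fV p n θ ∈ Wt (lab n l) t) (h2 : 2 ≤ ρ.1) :
    sp (tup p n (uK c s).length) (edP c l s w0 SL ρ θ q) =
      Ed (lab n l) (sdD p n s) K (rzD p a ρ) (fV p n θ) (hV p n q) := by
  have hk : 2 ≤ (uK c s).length := by rw [length_uK]; omega
  have h23 := (hQE23 c l s t K SL h hs hK hSL).1 w0 hw
  obtain ⟨kind, a', k, cs, u, v, r⟩ := ρ
  simp only at ha hθ h2
  subst ha
  have hp : 4 ≤ kind → fV p n (permP c k θ) ∈ Wt (lab n l) (key (lab n l) a) := fun h4 => by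
    rw [h.permP]
    refine perm_mem_Wt hs.str.lab (pm_bij k) ?_
    have := hθ h4
    rw [← ht] at this
    exact this
  simp only [edP, Ed, rzD]
  by_cases e2 : kind = 2
  · subst e2; simpa using h23.1
  by_cases e3 : kind = 3
  · subst e3; simpa using h23.2
  have h4 : 4 ≤ kind := by omega
  have h5 := hQE5 c l s a (permP c k θ) r _ h hn hs (hp h4) hk
  rw [h.permP] at h5
  by_cases e4 : kind = 4
  · subst e4
    have := h.d4P hs hk a (permP c k θ) q
    rw [h.permP] at this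
    simpa using this
  by_cases e5 : kind = 5
  · subst e5; simpa using h5.1
  by_cases e6 : kind = 6
  · subst e6; simpa using h5.2.1
  have b2 : (kind == 2) = false := by simpa using e2
  have b3 : (kind == 3) = false := by simpa using e3
  have b4 : (kind == 4) = false := by simpa using e4
  have b5 : (kind == 5) = false := by simpa using e5
  have b6 : (kind == 6) = false := by simpa using e6
  simp only [b2, b3, b4, b5, b6, cond_false, if_neg e2, if_neg e3, if_neg e4, if_neg e5, if_neg e6]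
  exact h5.2.2

end QXQy

theorem s_QXQ (p n : ℕ) [Fact p.Prime] (m : PM p n) (hQE23 : S_QE23 p n) (hQE5 : S_QE5 p n) :
    S_QXQ p n := by
  intro c l s t K K' SL a ρ w0 w0' θ θ' q q' h hn hs hK hK' hSL hSL' hw hw' ha _ ht hu hv hθ h2
  have e1 := fun q => QXQy.ed_y hQE23 hQE5 q h hn hs hK hSL hw ha ht (fun h4 => (hθ h4).1) h2
  have e2 := fun q => QXQy.ed_y hQE23 hQE5 q h hn hs hK' hSL' hw' ha ht (fun h4 => (hθ h4).2) h2
  rw [xqP, h.htP, h.htP, e1, e1, e2, e2, hV_short hu, hV_short hv]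
  rfl

end Pool.Agent.P.MP_f1a348_lc.UP
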