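import Pool.Agent.P.MP_f1a348_lc.UP.Iface

/-!
Project UP, tasks RA and RP: branching over a subgroup that contains the stable group.
-/

namespace Pool.Agent.P.MP_f1a348_lc.UP

open Matrix Module Pool.Agent.P.MP_f1a348_lc.PG
open scoped commutatorElement

namespace RAz

variable {p n : ℕ} [Fact p.Prime] {s : St p n} {E EG EG' : ℕ} {c τ τ' : Fin 3 → ℕ}

/-- the precondition of the child -/
theorem child (t : TM p n) (h : s.Pr EG c τ) (b : Brc p n) (hQ : b.Q ≤ s.G)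
    (hw : s.Nw (cT n) b.Q b.X b.F) (hp : b.ptr = s.ptr)
    (ht : ∀ j, τ' j < 12 * (2 * n + 1) + 1 → b.Q ≤ s.ks j)
    (hpot : 200 * s.ph (s.le b.Q) + 1200 * ∑ j, s.μ j ≤ EG') (hc : EG' ≤ capE n) :
    (s.kid b s.T).Pr EG' c τ' where
  lab := h.lab
  tri x hx := h.tri x ((t.env.1 b.Q).2.2.1 _ hQ hx)
  low g hg := h.low g (hQ hg)
  low' := by
    change pull1 s.f.1 (s.T - s.T) ∈ _
    rw [sub_self, map_zero]
    exact zero_mem _
  le := hw.le.trans inf_le_left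
  nm := hw.nm
  stable := hw.stable
  full := hw.full
  val := (t.kid _).2.2.2.2.2.2 _ _ _ _ _ _ _ _ h.val hQ (Nat.le_add_left _ _) hw.kids hw.solv
  mu := h.mu
  ptr j π e := by
    have k := h.ptr j π (hp ▸ e)
    exact ⟨k.stb, k.lo, k.hi, (hw.le.trans inf_le_right).trans k.triv,
      fun g hg => k.cov g (hQ hg), k.val⟩
  none j e := h.none j (hp ▸ e)
  tau := ht
  pot := hpot
  cap := hc

theorem nw0 (t : TM p n) (h : s.Ok0) {Q : SG p n} (h1 : s.X ≤ Q) (h2 : Q ≤ s.G) (k : ℕ) :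
    s.Nw k Q s.X [] where
  le := le_inf h1 le_rfl
  nm g hg := h.nm g (h2 hg)
  stable := h.stable
  full := h.full
  off _ hZ _ := hZ.trans inf_le_left
  kids := Kids.nil _ _
  solv := ⟨0, inf_le_left.trans inf_le_right⟩
  near := by rw [(t.kid _).2.2.2.1]; exact le_top

theorem ph_le (t : TM p n) (h : s.Ok0) {A : Sub p n} (h1 : Alg s.ll A) (h2 : A ≤ s.le s.G) :
    s.ph A ≤ s.ph (s.le s.G) :=
  t.phm _ _ _ _ (t.coc s h).1 ((t.coc s h).2.2.2.2.2.1 _ le_rfl).1 h1 h2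

theorem paid_len {k : ℕ} {A : Sub p n} (h : s.Paid k A) (e : s.ph A ≤ s.ph (s.le s.G)) :
    p * k ≤ p ^ (200 * s.ph (s.le s.G) - 200 * s.ph A) := by
  have hp : 0 < p ^ (200 * s.ph A) := pow_pos (Fact.out : p.Prime).pos _
  refine Nat.le_of_mul_le_mul_right (h.trans ?_) hp
  rw [← pow_add, Nat.sub_add_cancel (by omega)]

theorem paid_lt {k : ℕ} {A : Sub p n} (h : s.Paid k A) (hk : 0 < k) :
    s.ph A < s.ph (s.le s.G) := by
  have hp : 1 < p := (Fact.out : p.Prime).one_lt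
  have h1 : p ^ (200 * s.ph A + 1) ≤ p ^ (200 * s.ph (s.le s.G)) := by
    refine le_trans ?_ h
    rw [pow_succ']
    exact Nat.mul_le_mul_right _ (Nat.le_mul_of_pos_right _ hk)
  have := (Nat.pow_le_pow_iff_right hp).1 h1
  omega

/-- a branching that is paid by the potential -/
theorem paid_br (t : TM p n) (h : s.PrE E EG) (b : Brc p n) (A : Sub p n) (hQ : b.Q ≤ s.G)
    (n1 : s.N1 ≤ b.Q) (mem : ∀ x ∈ b.R, x ∈ s.G) (mem' : ∀ x ∈ b.R', x ∈ s.G)
    (cov : ∀ g ∈ s.G, s.kp g = 0 → ∃ x ∈ b.R, x⁻¹ * g ∈ b.Q)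
    (cov' : ∀ g ∈ s.G, s.kp' g = 0 → ∃ x ∈ b.R', x⁻¹ * g ∈ b.Q) (hp : b.ptr = s.ptr)
    (hA : s.ph (s.le b.Q) ≤ s.ph A) (P : s.Paid b.R.length A) (P' : s.Paid b.R'.length A)
    (hw : s.Nw (cT n) b.Q b.X b.F)
    (tb : s.TBox → ∀ Z, Z ≤ s.X → (∀ g ∈ Z, s.kp g = 0) → Stable Z → Z ≤ b.X) :
    ∃ c EG', s.BrOK E EG b c EG' := by
  obtain ⟨c, τ, h, hE⟩ := h
  obtain ⟨x, hx, -⟩ := cov 1 (one_mem _) (t.coc s h.toOk0).2.2.2.2.2.2.2.1
  have h1 := paid_lt P (List.length_pos_of_mem hx)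
  have h2 := h.pot
  have h3 := h.cap
  refine ⟨200 * s.ph (s.le s.G) - 200 * s.ph A, EG - (200 * s.ph (s.le s.G) - 200 * s.ph A),
    hQ, fun _ => n1, mem, mem', cov, cov', paid_len P h1.le, paid_len P' h1.le, by omega, hw, tb,
    ⟨by omega, c, τ, child t h b hQ hw hp (fun j e => hQ.trans (h.tau j e)) (by omega) (by omega),
      by omega⟩, by omega, fun _ => by omega⟩

end RAz

open RAz in
theorem s_RA (p n : ℕ) [Fact p.Prime] (t : TM p n) : S_RA p n := by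
  rintro s E EG j R ⟨c, τ, h, hE⟩ hX hG hR hl
  have h1 : 12 * (2 * n + 1) + 1 ≤ τ j := not_lt.1 fun e => hG (h.tau j e)
  have hw := nw0 t h.toOk0 (le_inf h.le hX) inf_le_left (cT n)
  have h2 : ∑ i, (c i + Function.update τ j 0 i) + τ j = ∑ i, (c i + τ i) := by
    rw [Finset.sum_add_distrib, Finset.sum_add_distrib, add_assoc,
      Finset.sum_update_of_mem (Finset.mem_univ j), ← Finset.add_sum_erase _ τ (Finset.mem_univ j),
      Finset.sdiff_singleton_eq_erase, zero_add, add_comm (τ j)]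
  have h3 : p * R.length ≤ p ^ (12 * (2 * n + 1) + 1) := by
    rw [pow_succ']; exact Nat.mul_le_mul_left _ hl
  have h4 := ((t.coc s h.toOk0).2.2.2.2.2.1 _ (inf_le_left (b := s.ks j))).1
  have h5 := ph_le t h.toOk0 h4 (((t.coc s h.toOk0).2.2.2.2.2.1 _ le_rfl).2.2.1 _ inf_le_left)
  have h6 := h.pot
  refine ⟨12 * (2 * n + 1) + 1, EG, inf_le_left, fun e => (e ⟨j, hX⟩).elim, hR.mem, hR.mem,
    fun g hg _ => hR.cov g hg, fun g hg _ => hR.cov g hg, h3, h3, by omega, hw,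
    fun _ Z hZ _ _ => hZ, ⟨by omega, c, Function.update τ j 0,
      child t h _ inf_le_left hw rfl (fun i e => ?_) (by dsimp only; omega) h.cap, by omega⟩, le_rfl,
    fun e => (e ⟨j, hX⟩).elim⟩
  by_cases hi : i = j
  · rw [hi]; exact inf_le_right
  · rw [Function.update_of_ne hi] at e
    exact inf_le_left.trans (h.tau i e)

open RAz in
theorem s_RP (p n : ℕ) [Fact p.Prime] (t : TM p n) : S_RP p n := by
  intro s E EG hP
  obtain ⟨c, τ, h, hE⟩ := id hP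
  have h2 := h.pot
  have h3 := h.cap
  have hp : 0 < p := (Fact.out : p.Prime).pos
  refine ⟨fun Q R h4 h5 h6 hR P => paid_br t hP ⟨Q, s.X, [], s.ptr, R, R⟩ _ h6 h5 hR.mem hR.mem
    (fun g hg _ => hR.cov g hg) (fun g hg _ => hR.cov g hg) rfl le_rfl P P
    (nw0 t h.toOk0 h4 h6 _) fun _ Z hZ _ _ => hZ, fun k R P => ?_, fun k k' R e P => ?_, by omega,
    fun A h4 h5 => ph_le t h.toOk0 h4 h5, by omega⟩
  · refine le_trans ?_ (le_trans P (Nat.pow_le_pow_right hp (by omega)))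
    exact (Nat.le_mul_of_pos_left _ hp).trans (Nat.le_mul_of_pos_right _ (pow_pos hp _))
  · exact le_trans (Nat.mul_le_mul_right _ (Nat.mul_le_mul_left _ e)) P

end Pool.Agent.P.MP_f1a348_lc.UP
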