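import Pool.Agent.P.MP_f1a348_lc.UP.TRA

/-!
Project UP, task RE: branching by the answer of the engine.
-/

namespace Pool.Agent.P.MP_f1a348_lc.UP

open Matrix Module Pool.Agent.P.MP_f1a348_lc.PG
open scoped commutatorElement

namespace REz

variable {p n : ℕ} [Fact p.Prime] {s : St p n}

theorem lo_mul (t : TM p n) (h : s.Ok0) {a b : GG p n} (ha : a ∈ s.G) (hb : b ∈ s.G) :
    s.lo (a * b).1 = s.lo a.1 * s.lo b.1 :=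
  ((t.coc s h).2.2.2.2.1 _ ((t.env.1 _).2.1 a ha)).2.2 _ ((t.env.1 _).2.1 b hb)

theorem lo_inv (t : TM p n) (h : s.Ok0) {a : GG p n} (ha : a ∈ s.G) :
    s.lo (a⁻¹).1 = st (s.lo a.1) :=
  ((t.coc s h).2.2.2.2.1 _ ((t.env.1 _).2.1 a ha)).1

/-- perfect subgroups of the stabiliser lie over `A` -/
theorem semi (t : TM p n) (h : s.Ok0) (hr : s.Res) {A : Sub p n} {Y Y' : List (Mat p n)}
    (e : EO s.ll (s.le s.X) s.a s.Kc (s.dl s.T') A Y Y') (hb : s.TBox) {Z : SG p n} (hZ : Z ≤ s.G)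
    (h0 : ∀ g ∈ Z, s.kp g = 0) (hp : PP p Z) {g : GG p n} (hg : g ∈ Z) : s.lo g.1 ∈ A := by
  obtain ⟨j, hj⟩ := hb
  have hc := t.coc s h
  refine e.semi ⟨j, (((t.qb s h).2.2.2 s.X (s.a j) h.le ⟨j, Or.inl rfl⟩).2 hr.str).1 hj⟩
    {z | ∃ g ∈ Z, s.lo g.1 = z} ⟨⟨1, one_mem _, hc.2.2.2.1⟩, ?_, ?_, ?_⟩ ?_ ?_ _ ⟨g, hg, rfl⟩
  · rintro _ ⟨a, ha, rfl⟩ _ ⟨b, hb, rfl⟩
    exact ⟨a * b, mul_mem ha hb, lo_mul t h (hZ ha) (hZ hb)⟩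
  · rintro _ ⟨a, ha, rfl⟩
    exact (hc.2.2.2.2.2.2.1 a (hZ ha)).1.2.1
  · rintro _ ⟨a, ha, rfl⟩
    exact ⟨a⁻¹, inv_mem ha, lo_inv t h (hZ ha)⟩
  · rintro f hf _ ⟨a, ha, rfl⟩
    refine hp (fun g => f (s.lo g.1)) (fun a ha b hb => ?_) a ha
    rw [lo_mul t h (hZ ha) (hZ hb)]
    exact hf _ ⟨a, ha, rfl⟩ _ ⟨b, hb, rfl⟩
  · rintro _ ⟨a, ha, rfl⟩
    exact ⟨a, hZ ha, rfl, h0 a ha⟩

end REz

open RAz REz in
theorem s_RE (p n : ℕ) [Fact p.Prime] (t : TM p n) (_hKR : S_KR p n) : S_RE p n := by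
  intro s E EG A Z Z' Q XA hP hs hr e hQ hA
  obtain ⟨c, τ, h', -⟩ := id hP
  have h := h'.toOk0
  have hc := t.coc s h
  have hG : Q ≤ s.G := fun g hg => ((hQ g).1 hg).1
  have hX : XA ≤ s.X := fun g hg => ((hA g).1 hg).1
  have h1 : XA ≤ Q := fun g hg => (hQ g).2 ⟨h.le (hX hg), ((hA g).1 hg).2⟩
  have h2 : ∀ g ∈ s.N1, s.lo g.1 ∈ A := fun g hg => by
    rw [(hc.2.2.2.2.2.2.1 g hg.1).2.1.1 hg]; exact e.alg.one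
  have h3 : s.N1 ≤ Q := fun g hg => (hQ g).2 ⟨hg.1, h2 g hg⟩
  have h4 : s.X ⊓ s.N1 ≤ XA := fun g hg => (hA g).2 ⟨hg.1, h2 g hg.2⟩
  have h5 : Nm Q XA := fun g hg k hk => (hA _).2 ⟨h.nm g (hG hg) k (hX hk), by
    change s.lo _ ∈ A
    rw [lo_mul t h (mul_mem (hG hg) (hG (h1 hk))) (inv_mem (hG hg)),
      lo_mul t h (hG hg) (hG (h1 hk)), lo_inv t h (hG hg)]
    exact e.alg.mul _ (e.alg.mul _ ((hQ g).1 hg).2 _ ((hA k).1 hk).2) _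
      (e.alg.star _ ((hQ g).1 hg).2)⟩
  refine ⟨h1, h5, fun R R' Y F hR hZ hZ' P P' hY => ?_⟩
  have hm : ∀ x ∈ R, x ∈ s.G := fun x hx => hR x (List.mem_append_left _ hx)
  have hm' : ∀ x ∈ R', x ∈ s.G := fun x hx => hR x (List.mem_append_right _ hx)
  have hq : ∀ x ∈ s.G, ∀ g ∈ s.G, st (s.lo x.1) * s.lo g.1 ∈ A → x⁻¹ * g ∈ Q :=
    fun x hx g hg k => (hQ _).2 ⟨mul_mem (inv_mem hx) hg, by
      change s.lo _ ∈ A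
      rwa [lo_mul t h (inv_mem hx) hg, lo_inv t h hx]⟩
  have ho := (t.op _).1 (s.X ⊓ s.N1)
  have hl := (t.locst s h hs).1
  have hpre := t.pref s A XA h hs e.alg hA
  refine paid_br t hP ⟨Q, Y, F, s.ptr, R, R'⟩ A hG h3 hm hm' (fun g hg k => ?_) (fun g hg k => ?_)
    rfl (t.phm _ _ _ _ hc.1 e.alg (hc.2.2.2.2.2.1 Q hG).1
      ((hc.2.2.2.2.2.1 Q hG).2.2.2.2.1 A fun g hg => ((hQ g).1 hg).2))
    (by rwa [← hZ, List.length_map] at P) (by rwa [← hZ', List.length_map] at P')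
    ⟨hY.inv.le.trans (le_inf h1 hX), hY.inv.nm, hY.stable,
      t.coref _ _ _ hpre.1 hpre.2 ((t.core Q XA h1).2.2 Y F hY), fun W hW hp => ?_, hY.inv.val,
      ?_, ?_⟩ fun hb W hW h0 hS => hY.inv.max W (fun g hg => (hA g).2
        ⟨hW hg, semi t h hr e hb (hW.trans h.le) h0 hS.1 hg⟩) hS
  · obtain ⟨y, hy, k'⟩ := e.cov _ ⟨g, hg, rfl, k⟩
    rw [← hZ] at hy
    obtain ⟨x, hx, rfl⟩ := List.mem_map.1 hy
    exact ⟨x, hx, hq x (hm x hx) g hg k'⟩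
  · obtain ⟨y, hy, k'⟩ := e.cov' _ _ ⟨g, hg, rfl, rfl⟩
      ((hc.2.2.2.2.2.2.1 g hg).2.2.2.1.symm.trans k)
    rw [← hZ'] at hy
    obtain ⟨x, hx, rfl⟩ := List.mem_map.1 hy
    exact ⟨x, hx, hq x (hm' x hx) g hg k'⟩
  · exact (ho.2.2.2.1 W hW hp).trans (hY.inv.max _ (ho.1.trans h4) hl)
  · obtain ⟨k, hk⟩ := hY.inv.solv
    have h6 : Q ⊓ s.X ≤ XA := fun g hg => (hA g).2 ⟨hg.2, ((hQ g).1 hg.1).2⟩
    exact ⟨k, ((t.sol _).2.1 k _ _ (inf_le_inf_right _ h6)).trans hk⟩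
  · exact hY.inv.near (Q ⊓ s.N1) _ inf_le_left (fun g hg k hk => ⟨Q.mul_mem (Q.mul_mem hg hk.1)
      (Q.inv_mem hg), hc.2.2.2.2.2.2.2.2.2.1 g (hG hg) k hk.2⟩)
      (le_inf (ho.1.trans h4) (ho.1.trans (inf_le_right.trans (le_inf h3 le_rfl)))) hl
      fun x hx => ho.2.2.1 x ⟨hX hx.1, hx.2.2⟩

end Pool.Agent.P.MP_f1a348_lc.UP
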