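import Pool.Agent.P.MP_f1a348_lc.UP.EBase

namespace Pool.Agent.P.MP_f1a348_lc.UP
open Matrix Module Pool.Agent.P.MP_f1a348_lc.PG

namespace REFXy

variable {p n : ℕ} [Fact p.Prime]

/-- the projection to a block -/
def Pj (ℓ : Ix n → ℕ) (α : Ix n) : Vec p n →ₗ[ZMod p] Vb (p := p) ℓ α where
  toFun x := ⟨fun β => if ℓ β = ℓ α then x β else 0, fun β h => if_neg h⟩
  map_add' x y := by ext β; simp only [Submodule.coe_add, Pi.add_apply]; split_ifs <;> simp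
  map_smul' c x := by
    ext β; simp only [Submodule.coe_smul, Pi.smul_apply, RingHom.id_apply]; split_ifs <;> simp

theorem P_coe {ℓ : Ix n → ℕ} {α : Ix n} (x : Vb (p := p) ℓ α) : Pj ℓ α x = x := by
  ext β
  show (if ℓ β = ℓ α then x.1 β else 0) = x.1 β
  split_ifs with h
  · rfl
  · exact (x.2 β h).symm

/-- extension by the identity -/
def F (ℓ : Ix n → ℕ) (α : Ix n) (f : Vb (p := p) ℓ α →ₗ[ZMod p] Vb (p := p) ℓ α) :
    Vec p n →ₗ[ZMod p] Vec p n :=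
  (Vb ℓ α).subtype ∘ₗ f ∘ₗ Pj ℓ α + (LinearMap.id - (Vb ℓ α).subtype ∘ₗ Pj ℓ α)

theorem F_apply (ℓ : Ix n → ℕ) (α : Ix n) (f : Vb (p := p) ℓ α →ₗ[ZMod p] Vb (p := p) ℓ α)
    (x : Vec p n) : F ℓ α f x = (f (Pj ℓ α x) : Vec p n) + (x - Pj ℓ α x) := rfl

theorem ad (m : PM p n) {ℓ : Ix n → ℕ} (hl : Lab ℓ) {α : Ix n} (hα : c0 n < α) {W : VS p n}
    (hW : W ≤ Vb ℓ α) : ∃ g, Ad ℓ α W g := by
  let v : Fin (finrank (ZMod p) W) → Vb (p := p) ℓ α := fun k =>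
    Pj ℓ α fun γ => if γ.val = ℓ α + k then 1 else 0
  have h1 : finrank (ZMod p) (Submodule.span (ZMod p) (Set.range v)) ≤
      finrank (ZMod p) (W.comap (Vb ℓ α).subtype) := by
    rw [(Submodule.comapSubtypeEquivOfLe hW).finrank_eq]
    exact (finrank_range_le_card v).trans (by simp)
  obtain ⟨i, hi⟩ := finrank_le_iff_exists_linearMap.1 h1
  obtain ⟨f, hf⟩ := Submodule.exists_linearEquiv_restrict_eq
    (LinearEquiv.ofInjective ((W.comap (Vb ℓ α).subtype).subtype ∘ₗ i)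
      (Subtype.val_injective.comp hi))
  have hc : ∀ γ β, LinearMap.toMatrix' (F ℓ α f.toLinearMap) γ β =
      F ℓ α f.toLinearMap (Pi.single β 1) γ := fun γ β => by
    rw [LinearMap.toMatrix'_apply]
  have hin : ∀ β, ℓ β = ℓ α → F ℓ α f.toLinearMap (Pi.single β 1) =
      (f (Pj ℓ α (Pi.single β 1)) : Vec p n) := fun β e => by
    rw [F_apply, P_coe ⟨_, single_mem_Vb e 1⟩]
    simp
  refine ⟨_, m.mkg ℓ α W (LinearMap.toMatrix' (F ℓ α f.toLinearMap))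
    (LinearMap.toMatrix' (F ℓ α f.symm.toLinearMap)) hl hα ?_ (fun γ β e => ?_)
    (fun γ β e e' => ?_) fun β e e' => ?_⟩
  · rw [← LinearMap.toMatrix'_comp, ← LinearMap.toMatrix'_id]
    congr 1
    refine LinearMap.ext fun x => ?_
    simp [F_apply, P_coe]
  · have : Pj (p := p) ℓ α (Pi.single β 1) = 0 := by
      ext δ
      show (if ℓ δ = ℓ α then (Pi.single β 1 : Vec p n) δ else 0) = 0
      split_ifs with h
      · exact Pi.single_eq_of_ne (fun e' : δ = β => e (e' ▸ h)) _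
      · rfl
    rw [hc, F_apply, this]
    simp [Matrix.one_apply, Pi.single_apply]
  · rw [hc, hin β e]
    exact (f _).2 γ e'
  · have h2 := hl.le β
    have h3 : Pj ℓ α (Pi.single β 1) = v ⟨β.val - ℓ α, by omega⟩ := by
      refine congrArg _ (funext fun γ => ?_)
      have : γ.val = ℓ α + (β.val - ℓ α) ↔ γ = β := by rw [Fin.ext_iff]; omega
      simp only [Pi.single_apply, this]
    simp only [hc]
    rw [hin β e, h3, ← hf ⟨_, Submodule.subset_span (Set.mem_range_self _)⟩]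
    exact (i _).2

end REFXy

theorem s_REFX (p n : ℕ) [Fact p.Prime] (m : PM p n) : S_REFX p n := by
  intro ℓ A hl hA
  induction hk : 2 * n + 1 - nblk ℓ using Nat.strong_induction_on generalizing ℓ A with
  | _ k ih =>
    obtain ⟨r1, r2, r3, r4⟩ := m.ref _ _ hl hA
    by_cases h : ∀ α, c0 n < α → ∀ x ∈ Vb ℓ α, x ≠ 0 → nb ℓ α ≤ finrank (ZMod p) (orb A x)
    · exact ⟨ℓ, 1, A, r1, hl, hA, r4 h⟩
    push Not at h
    obtain ⟨α, hα, x, hx, h0, hlt⟩ := h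
    have hle : orb A x ≤ Vb ℓ α := fun w hw => by
      obtain ⟨b, hb, rfl⟩ := mem_orb.1 hw
      exact (hA.dg b hb).mulVec_mem hx
    have hpos : 0 < finrank (ZMod p) (orb A x) :=
      Nat.pos_of_ne_zero fun e => h0 (by
        have h1 : x ∈ orb A x := mem_orb.2 ⟨1, hA.one, Matrix.one_mulVec _⟩
        rwa [Submodule.finrank_eq_zero.1 e, Submodule.mem_bot] at h1)
    have hs : ∀ b ∈ A, ∀ w ∈ orb A x, b *ᵥ w ∈ orb A x := fun b hb w hw => by
      obtain ⟨a, ha, rfl⟩ := mem_orb.1 hw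
      exact mem_orb.2 ⟨b * a, hA.mul b hb a ha, (Matrix.mulVec_mulVec x b a).symm⟩
    obtain ⟨g, hg⟩ := REFXy.ad m hl hα hle
    obtain ⟨c1, c2, c3, c4, -⟩ := m.cut _ α _ hl hα hpos hlt
    have href : Ref ℓ A _ g _ := ⟨c1, c2, hg.par, hg.dg, fun b hb =>
      m.spl _ α _ _ _ _ b hl hα hle hle hpos hlt rfl hg hg (hA.dg b hb) (hs b hb)
        (hs _ (hA.star b hb)), rfl⟩
    obtain ⟨ℓ', g', B', k1, k2⟩ := ih _ (by omega) _ _ c1 (r2 _ _ _ href) rfl
    exact ⟨ℓ', g * g', B', r3 _ _ _ _ _ _ href k1, k2⟩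

end Pool.Agent.P.MP_f1a348_lc.UP
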