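import Pool.Agent.P.MP_f1a348_lc.UP.Iface
import Pool.Agent.P.MP_f1a348_lc.UP.TLCS

/-! Project UP: if no cheap branching rule applies then the box is resolved. -/

namespace Pool.Agent.P.MP_f1a348_lc.UP

open Matrix Module Pool.Agent.P.MP_f1a348_lc.PG
open scoped commutatorElement

namespace RESz

variable {p n : ℕ} [Fact p.Prime] {ℓ : Ix n → ℕ} {B : Sub p n}

/-- the block of `b` is a simple module -/
def Sb (ℓ : Ix n → ℕ) (B : Sub p n) (b : Ix n) : Prop :=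
  ∀ x ∈ Vb ℓ b, x ≠ 0 → ∀ y ∈ Vb ℓ b, ∃ c ∈ B, c *ᵥ x = y

theorem sb_one (h : Alg ℓ B) {b : Ix n} (e : nb ℓ b = 1) : Sb ℓ B b := fun x hx h0 y hy => by
  rw [← finrank_Vb (p := p)] at e
  obtain ⟨c, hc⟩ := (finrank_eq_one_iff_of_nonzero' (⟨x, hx⟩ : (Vb ℓ b : VS p n))
    fun e => h0 (congrArg Subtype.val e)).1 e ⟨y, hy⟩
  exact ⟨c • 1, Submodule.smul_mem _ c h.one, by
    rw [Matrix.smul_mulVec, Matrix.one_mulVec]; exact congrArg Subtype.val hc⟩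

theorem sb_rev (hl : Lab ℓ) (h : Alg ℓ B) {b : Ix n} (e : Sb ℓ B b) : Sb ℓ B b.rev := by
  intro x hx h0 v hv
  rw [← mem_orb, ← perp_perp (orb B x)]
  intro y hy
  have h1 : pr ℓ b *ᵥ y = 0 := by
    by_contra h1
    refine h0 (eq_zero_of_ip hl hx fun z hz => ?_)
    obtain ⟨c, hc, rfl⟩ := e _ (pr_mulVec_mem b y) h1 z hz
    rw [ip_mulVec_right, ip_mulVec_right, st_pr hl,
      mem_Vb_iff.1 ((h.dg _ (h.star c hc)).mulVec_mem hx)]
    exact mem_perp_orb.1 hy _ (h.star c hc)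
  rw [ip_comm, ← mem_Vb_iff.1 hv, ip_mulVec, st_pr hl, Fin.rev_rev, h1, ip_zero_right]

theorem mi_le (h : Alg ℓ B) (b : Ix n) (h1 : ∀ x : Mat p n, fr 1 x = x) :
    MI B 1 ℓ {b} ≤ ann B ⊥ (Vb ℓ b) := fun x hx => ⟨hx.1, fun u hu => by
  refine (Submodule.mem_bot _).2 (funext fun γ => ?_)
  change ∑ δ, x γ δ * u δ = 0
  refine Finset.sum_eq_zero fun δ _ => ?_
  by_cases e : ℓ δ = ℓ b
  · by_cases e' : x γ δ = 0
    · rw [e', zero_mul]
    · exact absurd (h1 x ▸ hx.2 b rfl γ δ ((h.dg x hx.1 γ δ e').trans e) e) e'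
  · rw [hu δ e, mul_zero]⟩

end RESz

open RESz in
theorem s_RES (p n : ℕ) [Fact p.Prime] (t : TM p n) (hPAYB : S_PAYB p n) (hPAYC : S_PAYC p n)
    (hCYC : S_CYC p n) : S_RES p n := by
  intro s E EG ⟨c, τ, hP, _⟩ hs ht hk hn
  have ok := hP.toOk0
  have hSc : ∀ j, Sc s.μ (nb s.ℓ (s.a j)) := fun j => ⟨j, ht j, hP.mu j⟩
  obtain ⟨lab, clo, -, -, -, hle, hG⟩ := t.coc s ok
  have sG := hG.2.2.2.2.2.2.2 hs
  have aX := (hle s.X ok.le).1
  obtain ⟨-, -, -, l4, l5, l6, -⟩ := t.lc.1 s.ℓ s.lam ok.lab clo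
  have am : ∀ j, s.a j ∈ s.lam := (t.lc.2 s.ℓ s.a ok.lab).2.1
  obtain ⟨q1, q2, -, q4⟩ := t.qb s ok
  have xs : ∀ j, Sb s.ll (s.le s.X) (s.a j) := fun j => by
    by_cases e : s.X ≤ s.ks j
    · exact sb_one aX (triv_nb sG (((q4 s.G _ le_rfl (am j)).2 sG).1 (hk j e)))
    obtain ⟨v, hv, hm⟩ | h := hCYC s j ok hs e
    · obtain ⟨-, -, -, h4, h5⟩ := q1 j v hv
      refine absurd (hPAYB s j ok hs hSc _ _ _ inf_le_left ?_ h4 hm h5) (hn j v hv)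
      rintro _ ⟨b, hb, rfl⟩
      exact (aX.dg b hb).mulVec_mem hv
    · exact h
  have cg : ∀ β γ, γ ∈ s.lam → s.ℓ β = s.ℓ γ → s.ll β = s.ll γ := fun β γ h e =>
    ((l5 γ h).2.2.2 β).2 e
  have sX : Str s.ll (s.le s.X) := ⟨lab, aX, fun β => by
    by_cases e : β ∈ s.lam
    · obtain ⟨j, e | e⟩ := e
      · rw [Vb_congr (cg β _ (am j) e)]
        exact xs j
      · rw [Vb_congr (cg β _ (clo.rev _ (am j)) e)]
        exact sb_rev lab aX (xs j)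
    · exact sb_one aX (l6 β e)⟩
  have nt : ∀ β, ¬ Triv s.ll (s.le s.X) β → ∃ j, ¬ s.X ≤ s.ks j ∧
      (s.ℓ β = s.ℓ (s.a j) ∨ s.ℓ β = s.ℓ (s.a j).rev) := fun β hβ => by
    by_cases e : β ∈ s.lam
    · obtain ⟨j, e⟩ := e
      refine ⟨j, fun h => hβ ?_, e⟩
      have h1 := ((q4 s.X _ ok.le (am j)).2 sX).1 h
      rcases e with e | e
      · exact (Triv_congr (cg β _ (am j) e)).2 h1
      · exact (Triv_congr (cg β _ (clo.rev _ (am j)) e)).2 ((triv_rev sX).2 h1)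
    · refine absurd (LCSz.triv_of lab aX.dg ?_) hβ
      rintro _ ⟨x, -, rfl⟩
      have h1 := l4 (fr s.f x)
      exact (h1.2.2.2.2.2.1 β e).trans (congrArg (· • pr s.ll β) h1.2.2.1.symm)
  have gi : Giant s.ll (s.le s.X) := fun β hβ => by
    obtain ⟨j, h1, h2⟩ := nt β hβ
    obtain ⟨-, e2, -, -, e5, e6, -⟩ := t.env
    obtain ⟨h3, -, h4⟩ := e5 _ _ lab aX
    have h5 := ((t.blk _ 1 _ h3 (e6 _ _ sX)).1 β).2.2.1
    have h6 := t.gsl s j β ok hs h1 h2 ⊥ (Vb s.ll β)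
      (fun x _ u hu => by rw [(Submodule.mem_bot _).1 hu, Matrix.mulVec_zero]; exact zero_mem _)
      (fun x hx u hu => (aX.dg x hx).mulVec_mem hu)
      (bot_lt_iff_ne_bot.2 fun e => (nb_pos s.ll β).ne' (by rw [← finrank_Vb (p := p), e, finrank_bot]))
      le_rfl
    have h7 := Submodule.finrank_mono (mi_le aX β fun x => (e2 1 x x).2.2.2.1)
    rw [← h5, h4]
    exact Nat.mul_lt_mul_of_pos_right (by omega) (eb_pos aX β)
  refine ⟨sX, gi, fun β hβ => ?_, fun sd hg e hC => ⟨sX, gi, fun g hg' => dc sX fun C hC' => ?_⟩⟩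
  · obtain ⟨j, -, h | h⟩ := nt β hβ
    · rw [nb_congr (cg β _ (am j) h)]
      exact (l5 _ (am j)).1 ▸ hSc j
    · rw [nb_congr (cg β _ (clo.rev _ (am j)) h), lab.nb_rev]
      exact (l5 _ (am j)).1 ▸ hSc j
  · rw [← e, ← hg.spL_CL] at hC'
    induction hC' using Submodule.span_induction with
    | mem C hC' =>
      obtain ⟨α, β, h1⟩ := mem_CL.1 hC'
      have h2 := e ▸ hg.mem_cb h1
      obtain ⟨Q, hQ⟩ := (q2 C h2.1).1
      have h3 : s.G ≤ Q := by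
        by_contra h3
        exact hC C hC' Q hQ (hPAYC s α β C Q ok hs hSc sX hk h2 hQ h3)
      exact ((hQ g).1 (h3 hg')).2
    | zero => simp
    | add x y _ _ hx hy => rw [mul_add, add_mul, hx, hy]
    | smul c x _ hx => rw [mul_smul_comm, smul_mul_assoc, hx]

end Pool.Agent.P.MP_f1a348_lc.UP
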