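import Pool.Agent.P.MP_f1a348_lc.UP.Iface

/-! Project UP, tasks RESET and SZ: resetting the scales, sizes of the sub-boxes. -/

namespace Pool.Agent.P.MP_f1a348_lc.UP

open Matrix Module Pool.Agent.P.MP_f1a348_lc.PG
open scoped commutatorElement

theorem s_RESET (p n : ℕ) [Fact p.Prime] (b : TB p n) : S_RESET p n := by
  intro s EG c τ h hS
  obtain ⟨hC, ha, -⟩ := b.lc.2 s.ℓ s.a h.lab
  obtain ⟨-, -, -, l4, l5, -⟩ := b.lc.1 s.ℓ s.lam h.lab hC
  obtain ⟨k1, -, -, k4, -⟩ := b.lcs s.ℓ s.lam _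
    ((b.rad _ s.f s.ℓ (b.env.1 s.G).1 h.lab h.tri).2.2 hS).1 hC
  have e : (gB (Env s.G) s.f s.ℓ).map (lc s.ℓ s.lam) = s.le s.G := by
    rw [gB, ← Submodule.map_comp]
    congr 1
    exact LinearMap.ext fun x => (l4 _).2.2.2.1
  rw [e] at k1 k4
  have h1 : ∀ α, ¬ Triv s.ll (s.le s.G) α →
      ∃ i, s.ll α = s.ll (s.a i) ∨ s.ll α = s.ll (s.a i).rev := fun α t => by
    obtain ⟨i, hi⟩ : α ∈ s.lam := by_contra fun hα => t (k4 α hα)
    exact ⟨i, hi.imp ((l5 _ (ha i)).2.2.2 α).2 ((l5 _ (hC.rev _ (ha i))).2.2.2 α).2⟩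
  have h2 : ∀ (μ : Fin 3 → ℕ) (j : Fin 3), μ j = s.μ j →
      200 * PhiS (Function.update μ j (s.reset.μ j)) s.ll (s.le s.G) + 1200 * s.reset.μ j ≤
        200 * PhiS μ s.ll (s.le s.G) + 1200 * s.μ j := fun μ j hj => by
    have h3 := (b.phb μ _ _ k1).2.1 s.a j (s.reset.μ j) h1
    by_cases h4 : 2 * nb s.ℓ (s.a j) ≤ s.μ j
    · have h5 : s.reset.μ j = nb s.ℓ (s.a j) := if_pos h4
      change PhiS _ s.ll _ ≤ PhiS _ s.ll _ + _ at h3
      omega
    · rw [show s.reset.μ j = μ j from (if_neg h4).trans hj.symm, Function.update_eq_self, hj]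
  refine ⟨⟨⟨h.lab, h.tri, h.low, h.low', h.le, h.nm, h.stable, h.full⟩, h.val, fun j => ?_, h.ptr,
    h.none, h.tau, ?_, h.cap⟩, hS, fun j => ?_, fun o ho => ⟨ho.isH, ho.isS, ⟨ho.nw.le, ho.nw.nm,
      ho.nw.stable, ho.nw.full, ho.nw.off, ho.nw.kids, ho.nw.solv, ho.nw.near⟩, ho.tb⟩⟩
  · change nb s.ℓ (s.a j) ≤ if _ then _ else _
    split_ifs
    exacts [le_rfl, h.mu j]
  · have h3 := h.pot
    have a0 := h2 s.μ 0 rfl
    have a1 := h2 (Function.update s.μ 0 (s.reset.μ 0)) 1 rfl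
    have a2 := h2 (Function.update (Function.update s.μ 0 (s.reset.μ 0)) 1 (s.reset.μ 1)) 2 rfl
    rw [show Function.update (Function.update (Function.update s.μ 0 (s.reset.μ 0)) 1
      (s.reset.μ 1)) 2 (s.reset.μ 2) = s.reset.μ from funext fun j => by fin_cases j <;> rfl] at a2
    change 200 * PhA s.reset.μ s.ll (s.le s.G) + _ ≤ _
    rw [St.ph, (b.phi _).2.1 s.ll _ k1, Fin.sum_univ_three] at h3
    rw [(b.phi _).2.1 s.ll _ k1, Fin.sum_univ_three]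
    omega
  · have := nb_pos s.ℓ (s.a j)
    change (if _ then _ else _) < 2 * nb s.ℓ (s.a j)
    split_ifs <;> omega

theorem s_SZ (p n : ℕ) [Fact p.Prime] (_b : TB p n) : S_SZ p n := by
  intro s f ℓ h
  have h0 : ∀ α β, ℓ α = ℓ β → s.ℓ α = s.ℓ β := fun α β e =>
    le_antisymm (h.fine _ _ e.le) (h.fine _ _ e.ge)
  have h1 : ∀ a, (∑ c : Ix n, if s.ℓ c = s.ℓ a ∧ ℓ c = c.val then nb ℓ c else 0) = nb s.ℓ a := by
    intro a
    rw [← Finset.sum_filter, nb.eq_1 s.ℓ, Finset.card_eq_sum_card_fiberwise (f := h.lab'.fst)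
      (t := Finset.univ.filter fun c => s.ℓ c = s.ℓ a ∧ ℓ c = c.val) fun β hβ => by
        simpa using ⟨(h0 _ _ (h.lab'.lab_fst β)).trans (by simpa using hβ), h.lab'.lab_fst β⟩]
    refine Finset.sum_congr rfl fun c hc => ?_
    obtain ⟨c1, c2⟩ := (Finset.mem_filter.1 hc).2
    rw [nb]
    congr 1
    ext β
    simp only [Finset.mem_filter, Finset.mem_univ, true_and]
    exact ⟨fun e => ⟨(h0 _ _ e).trans c1, Fin.ext (e.trans c2)⟩,
      fun e => (congrArg Fin.val e.2).trans c2.symm⟩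
  have h2 : ∀ a c, s.ℓ c = s.ℓ a → (Finset.univ.filter fun β => ℓ β = ℓ c) ⊆
      Finset.univ.filter fun β => s.ℓ β = s.ℓ a := fun a c e β hβ => by
    simpa using (h0 _ _ (by simpa using hβ)).trans e
  refine ⟨?_, Finset.prod_pos fun j _ => nb_pos _ _, ?_,
    fun c => ⟨fun j => h.lab'.fst (c j), fun j => ⟨h.lab'.lab_fst _, h.lab'.lab_fst _⟩⟩,
    fun ⟨j, hj⟩ c hc => Finset.prod_lt_prod (fun i _ => nb_pos _ _)
      (fun i _ => Finset.card_le_card (h2 _ _ (hc i))) ⟨j, Finset.mem_univ _, ?_⟩⟩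
  · rw [St.sz, ← Finset.prod_congr rfl fun j _ => h1 (s.a j), Fintype.prod_sum]
    refine Finset.sum_congr rfl fun c _ => ?_
    rw [Finset.prod_ite_zero]
    simp only [Finset.mem_univ, true_imp_iff]
  · rw [St.sz, Fin.prod_univ_three]
    exact Nat.mul_le_mul (Nat.mul_le_mul (nb_le _ _) (nb_le _ _)) (nb_le _ _)
  · by_cases e : ℓ (s.a j) = ℓ (c j)
    · exact nb_congr e ▸ hj
    · exact Finset.card_lt_card ((Finset.ssubset_iff_of_subset (h2 _ _ (hc j))).2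
        ⟨s.a j, by simp, by simpa using e⟩)

end Pool.Agent.P.MP_f1a348_lc.UP
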