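import Pool.Agent.P.MP_f1a348_lc.UP.Iface

/-!
Project UP: the first call.
-/

namespace Pool.Agent.P.MP_f1a348_lc.UP

open Matrix Module Pool.Agent.P.MP_f1a348_lc.PG
open scoped commutatorElement

namespace ROOTz

variable {p n : ℕ} [Fact p.Prime]

theorem wt_le {ℓ : Ix n → ℕ} (h : Lab ℓ) (a : Fin 3 → Ix n) {w : Frm p n}
    (hw : w ∈ Wt ℓ (key ℓ a)) : w ∈ Lowr ℓ a :=
  fun i _ ⟨j, hj⟩ => hw i fun e => hj.ne ((key_eq_iff h).1 e j)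

theorem pha_le (t : TM p n) (μ : Fin 3 → ℕ) {ℓ : Ix n → ℕ} {A : Sub p n} (h : Lab ℓ)
    (hA : Alg ℓ A) : PhA μ ℓ A ≤ 6 * (2 * n + 1) := by
  refine csSup_le' ?_
  rintro _ ⟨ℓ', g, B', h1, h2, rfl⟩
  exact (t.phb μ ℓ' B' ⟨h1.lab, (t.pm.ref ℓ A h hA).2.1 _ _ _ h1, h2⟩).1

end ROOTz

open ROOTz in
theorem s_ROOT (p n : ℕ) [Fact p.Prime] (t : TM p n) : S_ROOT p n := by
  intro X F T T' hc hT hT'
  obtain ⟨e1, e2, -⟩ := t.env.1 ⊤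
  obtain ⟨e3, -, -, e4⟩ := t.env.2.2.2.1 _ e1
  have hd : ∀ g : GG p n, Dg (l0 n) g.1 := fun g => e1.dg _ (e2 g trivial)
  have e5 : UG (Env (⊤ : SG p n)) = ⊤ := eq_top_iff.2 fun g hg => (e3 g).2 (e2 g hg)
  have e6 := (t.wc _ e1).2
  rw [e5] at e6
  have ok : (root X F T T').Ok0 :=
    ⟨lab_l0, e4, fun g _ => wt_le lab_l0 _
      (pull1_mem_Wt lab_l0 (hd 1) (sub_mem (pull1_mem_Wt lab_l0 (hd g) hT) hT)),
      wt_le lab_l0 _ (pull1_mem_Wt lab_l0 (hd 1) (sub_mem hT' hT)), le_top, hc.inv.nm, hc.stable,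
      t.coref ⊤ X _ e1 e6 ((t.core ⊤ ⊤ le_rfl).2.2 X F hc)⟩
  obtain ⟨c1, -, -, -, -, c2, -⟩ := t.coc _ ok
  have k : ∀ g : GG p n, (root X F T T').kp' g = 0 ↔ pull1 g.1 T' = T := fun g => by
    change cmp (l0 n) (key (l0 n) _) (pull1 1 (pull1 g.1 T' - T)) = 0 ↔ _
    rw [pull1_one, ← sub_eq_zero (b := T)]
    exact (mem_Wt_iff.1 (sub_mem (pull1_mem_Wt lab_l0 (hd g) hT') hT)).congr_left
  refine ⟨⟨fun _ => nu n, fun _ => 12 * (2 * n + 1) + 1, ⟨ok, ⟨(t.kid _).1 _ _ _ _ _ hc.inv.val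
    (Nat.le_add_left _ _) le_rfl, hc.inv.solv⟩, fun _ => nb_le _ _, fun _ _ e => absurd e nofun,
    fun _ _ => le_rfl, fun _ e => absurd e (lt_irrefl _), ?_, le_rfl⟩, ?_⟩, fun φ h => ?_⟩
  · have := pha_le t (root X F T T').μ c1 (c2 _ le_rfl).1
    change 200 * PhA _ _ _ + 1200 * ∑ _ : Fin 3, (2 * n + 1) ≤ 4800 * (2 * n + 1)
    rw [Fin.sum_const, smul_eq_mul]
    omega
  · rw [Fin.sum_const, smul_eq_mul, EE]
  · cases φ with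
    | none => exact iff_of_false nofun fun ⟨ψ, h1, h2⟩ => h.2 rfl ⟨ψ, h1⟩ trivial ((k _).2 h2)
    | some g => exact iff_of_true rfl ⟨g.1, g.2, (k g).1 (h.1 g rfl).2⟩

end Pool.Agent.P.MP_f1a348_lc.UP
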