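import Pool.Agent.P.MP_f1a348_lc.UP.Iface

/-! An algebra with large simple blocks is spanned by its unitary elements. -/

namespace Pool.Agent.P.MP_f1a348_lc.UP

open Matrix Module Pool.Agent.P.MP_f1a348_lc.PG
open scoped commutatorElement

namespace SPANz

variable {p n : ℕ} [Fact p.Prime] {ℓ : Ix n → ℕ} {B : Sub p n}

/-- the span of the unitary elements -/
abbrev SU (B : Sub p n) : Sub p n := Submodule.span (ZMod p) {z | U1 B z}

theorem mul_mem (h : Str ℓ B) {x y : Mat p n} (hx : x ∈ SU B) (hy : y ∈ SU B) : x * y ∈ SU B := by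
  induction hx, hy using Submodule.span_induction₂ with
  | mem_mem x y hx hy => exact Submodule.subset_span (U1.mul h.lab h.alg hx hy)
  | zero_left => simp
  | zero_right => simp
  | add_left _ _ _ _ _ _ a b => rw [add_mul]; exact add_mem a b
  | add_right _ _ _ _ _ _ a b => rw [mul_add]; exact add_mem a b
  | smul_left c _ _ _ _ a => rw [smul_mul_assoc]; exact Submodule.smul_mem _ c a
  | smul_right c _ _ _ _ a => rw [mul_smul_comm]; exact Submodule.smul_mem _ c a

theorem st_mem (h : Str ℓ B) {x : Mat p n} (hx : x ∈ SU B) : st x ∈ SU B := by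
  induction hx using Submodule.span_induction with
  | mem x hx => exact Submodule.subset_span (U1.star h.lab h.alg hx)
  | zero => simp
  | add _ _ _ _ a b => exact add_mem a b
  | smul c _ _ a => exact Submodule.smul_mem _ c a

theorem exp_mem (h : Str ℓ B) {N : Mat p n} (h1 : N ∈ B) (h2 : st N = -N) (h3 : N * N * N = 0) :
    1 + (2 : ZMod p) • N + (2 : ZMod p) • (N * N) ∈ SU B := by
  have t := (h.alg.dg N h1).tri h.lab
  have h4 : N (c0 n) (c0 n) = 0 := by
    have := congrFun (congrFun h3 (c0 n)) (c0 n)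
    rw [(t.mul t).mul_c0, t.mul_c0] at this
    simpa using this
  refine Submodule.subset_span ⟨add_mem (add_mem h.alg.one (B.smul_mem _ h1))
    (B.smul_mem _ (h.alg.mul _ h1 _ h1)), ?_, by simp [t.mul_c0, h4]⟩
  rw [Un, st_add, st_add, st_one, st_smul, st_smul, st_mul, h2, neg_mul_neg]
  simp only [add_mul, mul_add, one_mul, mul_one, smul_mul_assoc, mul_smul_comm, neg_mul,
    ← mul_assoc, h3, zero_mul]
  module

theorem nil_mem (hp : 5 ≤ p) (h : Str ℓ B) {N : Mat p n} (h1 : N ∈ B) (h2 : st N = -N)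
    (h3 : N * N * N = 0) : N ∈ SU B := by
  have := sub_mem (exp_mem h h1 h2 h3)
    (exp_mem h (neg_mem h1) (by rw [st_neg, h2]) (by simp [h3]))
  refine mem_of_two_smul hp (mem_of_two_smul hp ?_)
  convert this using 1
  rw [neg_mul_neg]
  module

theorem off_mem (hp : 5 ≤ p) (h : Str ℓ B) {π ε ρ b : Mat p n} (h1 : π ∈ B) (h2 : st π * π = 0)
    (hε : ε ∈ SU B) (hρ : ρ ∈ B) (hs : st ρ = ρ) (e1 : ε * π = π) (e2 : ε * ρ = 0) (e3 : ρ * π = 0)
    (hb : b ∈ B) : π * b * ρ ∈ SU B := by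
  have hx := h.alg.mul _ (h.alg.mul _ h1 _ hb) _ hρ
  have a1 : π * b * ρ * (π * b * ρ) = 0 := by
    rw [mul_assoc _ ρ, ← mul_assoc ρ, ← mul_assoc ρ, e3, zero_mul, zero_mul, mul_zero]
  have a2 : st (π * b * ρ) * (π * b * ρ) = 0 := by
    rw [st_mul, st_mul, mul_assoc, mul_assoc, ← mul_assoc (st π), ← mul_assoc (st π), h2]
    simp
  have a3 : ε * (π * b * ρ - st (π * b * ρ)) = π * b * ρ := by
    rw [mul_sub, st_mul, hs, ← mul_assoc, ← mul_assoc, ← mul_assoc, e1, e2]
    simp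
  generalize π * b * ρ = x at *
  have a4 : st x * st x = 0 := by rw [← st_mul, a1, st_zero]
  rw [← a3]
  refine mul_mem h hε (nil_mem hp h (sub_mem hx (h.alg.star _ hx))
    (by rw [st_sub, st_st, neg_sub]) ?_)
  simp only [sub_mul, mul_sub, a1, a2, a4, mul_assoc, zero_mul, mul_zero, sub_self]

theorem corner (h : Str ℓ B) {ε ρ e : Mat p n} (hρ : ρ * ρ = ρ)
    (h1 : ∀ b ∈ B, ε * b * ρ ∈ SU B) (h2 : ∀ b ∈ B, ρ * b * ε ∈ SU B)
    (he : e ∈ Submodule.span (ZMod p) {z | ∃ b ∈ B, ∃ b' ∈ B, z = b * ρ * b'}) {c : Mat p n}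
    (hc : c ∈ B) : ε * (c * e) * ε ∈ SU B := by
  induction he using Submodule.span_induction with
  | mem x hx =>
    obtain ⟨b, hb, b', hb', rfl⟩ := hx
    have := mul_mem h (h1 _ (h.alg.mul c hc b hb)) (h2 _ hb')
    simp only [mul_assoc] at this ⊢
    rwa [← mul_assoc ρ, hρ] at this
  | zero => simp
  | add _ _ _ _ a b => rw [mul_add, mul_add, add_mul]; exact add_mem a b
  | smul c _ _ a =>
    rw [mul_smul_comm, mul_smul_comm, smul_mul_assoc]; exact Submodule.smul_mem _ c a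

theorem ec_mem (h : Str ℓ B) (a : Ix n) : ec ℓ B a ∈ B :=
  diagonal_mem h fun _ _ e => if_congr (not_iff_not.1
    ⟨fun t => cb_trans h t e, fun t => cb_trans h t (cb_symm h e)⟩) rfl rfl

theorem cls_mem (m : PM p n) (hREG : S_REG p n) (h : Str ℓ B) (hB : Big ℓ B 30) {a : Ix n}
    (t : ¬ Triv ℓ B a) {c : Mat p n} (hc : c ∈ B) : c * ec ℓ B a ∈ SU B := by
  have hd := hB a t
  obtain ⟨y, y1, y2, y3, y4⟩ := m.cw ℓ B 0 ⊥ a h small_bot (by omega)
  obtain ⟨π, x, p1, p2, p3, p4, p5, -, p6, p7, -, -, p8⟩ := m.sepi ℓ B ⊥ a y h stab_bot t y1 y2 y3 y4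
  have q1 := p1.mem
  have q2 := h.alg.star _ q1
  have e1 := add_mem q1 q2
  have e2 := p2.idem
  have e3 : st (π + st π) = π + st π := by rw [st_add, st_st, add_comm]
  have e4 : (π + st π) * eo ℓ B = π + st π := by
    rw [add_mul, p3, com_eo h.alg _ q2 |>.symm, ← st_eo h, ← st_mul, p3]
  have e5 : (π + st π) * π = π := by rw [add_mul, p2.1, p2.2.2, add_zero]
  have e6 : (π + st π) * st π = st π := by rw [add_mul, p2.star.1, p2.2.1, zero_add]
  have e7 : (π + st π) * pr ℓ a ≠ 0 := fun e => y4 (by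
    have := congrArg (· *ᵥ y) e
    simp only [← mulVec_mulVec, mem_Vb_iff.1 y1, add_mulVec, p4, p5, add_zero, zero_mulVec] at this
    exact this ▸ zero_mem _)
  have e8 : (1 - (π + st π)) * pr ℓ a ≠ 0 := fun e => by
    obtain ⟨v, v1, -, v2⟩ := out h small_bot ((small_orb h y1).sup h.alg (small_orb h p7))
      (show 0 + (1 + 1) < db ℓ B a by omega)
    have := congrArg (· *ᵥ v) e
    simp only [← mulVec_mulVec, mem_Vb_iff.1 v1, sub_mulVec, add_mulVec, one_mulVec, zero_mulVec,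
      sub_eq_zero] at this
    exact v2 (this ▸ Submodule.add_mem_sup (p6 ⟨v, rfl⟩) (p8 ⟨v, rfl⟩))
  have e9 : π + st π ∈ SU B := mem_of_two_smul m.five (by
    simpa using (SU B).sub_mem (Submodule.subset_span (u1_one h.alg))
      (Submodule.subset_span (u1_of_lo h (refl_lo m.five h e1 e2 e3 e4).1)))
  have r1 := sub_mem h.alg.one e1
  have r2 : st (1 - (π + st π)) = 1 - (π + st π) := by rw [st_sub, st_one, e3]
  have r3 : (π + st π) * (1 - (π + st π)) = 0 := by rw [mul_sub, mul_one, e2, sub_self]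
  have k1 : ∀ b ∈ B, (π + st π) * b * (1 - (π + st π)) ∈ SU B := fun b hb => by
    rw [add_mul, add_mul]
    exact add_mem (off_mem m.five h q1 p2.2.2 e9 r1 r2 e5 r3 (by rw [sub_mul, e5]; simp) hb)
      (off_mem m.five h q2 p2.star.2.2 e9 r1 r2 e6 r3 (by rw [sub_mul, e6]; simp) hb)
  have k2 : ∀ b ∈ B, (1 - (π + st π)) * b * (π + st π) ∈ SU B := fun b hb => by
    have := st_mem h (k1 _ (h.alg.star b hb))
    rwa [st_mul, st_mul, r2, e3, st_st, ← mul_assoc] at this
  have hz := h.alg.mul c hc _ (ec_mem h a)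
  have := add_mem (add_mem (k1 _ hz) (k2 _ hz)) (add_mem
    (corner h (by rw [sub_mul, one_mul, r3, sub_zero]) k1 k2 ((hREG ℓ B h).2 _ r1 a e8) hc)
    (corner h e2 k2 k1 ((hREG ℓ B h).2 _ e1 a e7) hc))
  convert this using 1
  noncomm_ring

end SPANz

open SPANz in
theorem s_SPAN (p n : ℕ) [Fact p.Prime] (m : PM p n) (hREG : S_REG p n) : S_SPAN p n := by
  classical
  intro ℓ B h hB
  have key : ∀ s : Finset (Ix n), ∃ d : Ix n → ZMod p, diagonal d ∈ B ∧
      (∀ c ∈ B, c * diagonal d ∈ SU B) ∧ (∀ β, Triv ℓ B β → d β = 0) ∧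
        ∀ β ∈ s, ¬ Triv ℓ B β → d β = 1 := fun s => by
    induction s using Finset.induction_on with
    | empty => exact ⟨0, by simp, by simp, by simp, by simp⟩
    | insert a s _ ih =>
      obtain ⟨d, h1, h2, h3, h4⟩ := ih
      by_cases t : Triv ℓ B a
      · exact ⟨d, h1, h2, h3, fun β hβ t' => h4 β
          ((Finset.mem_insert.1 hβ).resolve_left fun e => t' (e ▸ t)) t'⟩
      have e : diagonal (fun β => d β + (1 - d β) * if Cb ℓ B a β = ⊥ then 0 else 1) =
          diagonal d + (1 - diagonal d) * ec ℓ B a := by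
        rw [ec, ← diagonal_one, diagonal_sub, diagonal_mul_diagonal, diagonal_add]
      have h5 := sub_mem h.alg.one h1
      refine ⟨_, e ▸ add_mem h1 (h.alg.mul _ h5 _ (ec_mem h a)), fun c hc => ?_, fun β t' => ?_,
        fun β hβ t' => ?_⟩
      · rw [e, mul_add, ← mul_assoc]
        exact add_mem (h2 c hc) (cls_mem m hREG h hB t (h.alg.mul _ hc _ h5))
      · simp [h3 β t', cb_eq_bot' h t t']
      · rcases Finset.mem_insert.1 hβ with rfl | hβ
        · simp [cb_refl h.alg β]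
        · simp [h4 β hβ t']
  obtain ⟨d, -, h2, h3, h4⟩ := key Finset.univ
  intro c hc
  have e : c = c * diagonal d + c (c0 n) (c0 n) • (1 - 1 * diagonal d) := by
    ext α β
    by_cases t : Triv ℓ B β
    · have := congrFun (triv_act h t (single_mem_Vb rfl 1) hc) α
      by_cases e : α = β <;> simpa [h3 β t, e] using this
    · by_cases e : α = β <;> simp [h4 β (Finset.mem_univ _) t, e]
  rw [e]
  exact add_mem (h2 c hc) (Submodule.smul_mem _ _
    (sub_mem (Submodule.subset_span (u1_one h.alg)) (h2 1 h.alg.one)))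

end Pool.Agent.P.MP_f1a348_lc.UP
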