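import Pool.Agent.P.MP_f1a348_lc.UP.Iface

/-! The loop over the sub-boxes: the start and the preconditions of the calls. -/

namespace Pool.Agent.P.MP_f1a348_lc.UP

open Matrix Module Pool.Agent.P.MP_f1a348_lc.PG
open scoped commutatorElement

namespace SPL1z

variable {p n : ℕ} [Fact p.Prime]

theorem low (b : TB p n) (s : St p n) {f : GG p n} {ℓ : Ix n → ℕ} (hF : Fine s.f s.ℓ f ℓ)
    {a : Fin 3 → Ix n} (ha : ∀ j, s.ℓ (a j) = s.ℓ (s.a j)) {v : Frm p n}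
    (h1 : pull1 s.f.1 v ∈ Lowr s.ℓ s.a) (h2 : s.Bel ℓ (key ℓ a) (pull1 f.1 v)) :
    pull1 f.1 v ∈ Lowr ℓ a := by
  have h3 := ((b.low s.ℓ s.a _ _ hF.lab (hF.dg.tri hF.lab)).1 h1).1
  rw [← pull1_mul, ← val_mul, mul_inv_cancel_left] at h3
  intro i hi ⟨j, hj⟩
  by_cases h : ∀ k, s.ℓ (i k) = s.ℓ (s.a k)
  · exact h2 i h (lt_of_le_of_ne (key_le hi) fun e => hj.ne ((key_eq_iff hF.lab').1 e j))
  · obtain ⟨k, hk⟩ := not_forall.1 h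
    have h4 : ∀ k, s.ℓ (i k) ≤ s.ℓ (s.a k) := fun k => ha k ▸ hF.fine _ _ (hi k)
    exact h3 i h4 ⟨k, lt_of_le_of_ne (h4 k) hk⟩

end SPL1z

theorem s_SPL1 (p n : ℕ) [Fact p.Prime] (b : TB p n) (hLOCP : S_LOCP p n) : S_SPL1 p n := by
  intro s EG c τ f ℓ h hF hT
  refine ⟨⟨fun g => ⟨fun hg => ⟨hg, fun _ _ e => absurd e (Nat.not_lt_zero _)⟩, And.left⟩,
    fun g hg => ⟨Option.some.inj hg ▸ s.G.one_mem, fun _ _ e => absurd e (Nat.not_lt_zero _)⟩,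
    fun e => absurd e (Option.some_ne_none _),
    ⟨le_inf h.le le_rfl, h.nm, h.stable, h.full, fun Z hZ _ => hZ.trans inf_le_left, Kids.nil _ _,
      ⟨0, inf_le_left.trans inf_le_right⟩, by simp [topI]⟩,
    fun _ Z hZ _ => hZ.trans inf_le_right⟩, fun t o a ho ha ht => ?_⟩
  subst ht
  have hH : o.H ≤ s.G := fun g hg => ((ho.isH g).1 hg).1
  have hE : Env o.H ≤ Env s.G := (b.env.1 o.H).2.2.1 _ hH
  obtain ⟨-, -, -, f1, -, -, f2, f3, -⟩ := b.sec.2.2.2.2.1 _ _ _ _ hF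
  have eL : ∀ j, sL s.f s.ℓ (s.a j) ≤ sL f ℓ (a j) := fun j => by
    have := (f1 (a j)).2.2.1
    rwa [sL, ha j] at this
  have eH : ∀ j, sH f ℓ (a j) ≤ sH s.f s.ℓ (s.a j) := fun j => by
    have := (f1 (a j)).2.2.2
    rwa [sH, sH, nb_congr (ha j), ha j] at this
  have hK : ∀ j, s.ks j ≤ KS f ℓ (a j) := fun j =>
    b.sec.2.1 _ _ _ _ (eL j) (b.sec.1 f ℓ (a j) hF.lab').1 (eH j)
  refine ⟨⟨hF.lab', fun x hx => hT x (hE hx),
    fun g hg => SPL1z.low b s hF ha (h.low g (hH hg)) ((ho.isH g).1 hg).2, ?_,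
    ho.nw.le.trans inf_le_left, ho.nw.nm, ho.nw.stable, ho.nw.full⟩,
    (b.kid (GG p n)).2.2.2.2.2.2 _ _ _ _ _ _ _ _ h.val hH (Nat.add_le_add_right h.cap _)
      ho.nw.kids ho.nw.solv,
    fun j => (f3 _).trans ((nb_congr (ha j)).trans_le (h.mu j)), fun j π e => ?_, h.none,
    fun j e => hH.trans ((h.tau j e).trans (hK j)), le_trans ?_ h.pot, h.cap⟩
  · change pull1 f.1 ((o.φ.elim s.T fun g => pull1 g.1 s.T') - s.T) ∈ Lowr ℓ a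
    rcases e : o.φ with _ | g
    · simp
    · obtain ⟨h1, h2⟩ := ho.some g e
      exact SPL1z.low b s hF ha ((b.coc s h.toOk0).2.2.2.2.2.2.1 g h1).2.2.2.2.1 h2
  · have hπ := h.ptr j π e
    obtain ⟨N, h1, h2⟩ := hπ.val
    exact ⟨hπ.stb, hπ.lo.trans (eL j), (eH j).trans hπ.hi,
      (ho.nw.le.trans inf_le_right).trans hπ.triv, fun g hg => hπ.cov g (hH hg), N, h1,
      (b.sol (GG p n)).2.2.2.2.2.2.1 _ _ _ _ le_rfl (hK j) h2⟩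
  · refine Nat.add_le_add_right (Nat.mul_le_mul_left _ (hLOCP (Env s.G) s.f f s.ℓ ℓ s.lam (Lam ℓ a)
      s.μ (b.env.1 _).1 hF hT (b.lc.2 _ _ hF.lab).1 (b.lc.2 _ _ hF.lab').1 ?_ _ (b.env.1 _).1 hE)) _
    rintro β ⟨j, e | e⟩
    · exact ⟨j, Or.inl ((f2 _ _ e).trans (ha j))⟩
    · exact ⟨j, Or.inr ((f2 _ _ e).trans (hF.lab.rev_eq.2 (ha j)))⟩

end Pool.Agent.P.MP_f1a348_lc.UP
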