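import Pool.Agent.P.MP_f1a348_lc.UP.Iface

namespace Pool.Agent.P.MP_f1a348_lc.UP

open Matrix Module Pool.Agent.P.MP_f1a348_lc.PG
open scoped commutatorElement

namespace SPL2z

variable {p n : ℕ} [Fact p.Prime] {s : St p n} {f : GG p n} {ℓ : Ix n → ℕ} {t : ℕ}

omit [Fact p.Prime] in
theorem coarse (h : Fine s.f s.ℓ f ℓ) {α β : Ix n} (e : ℓ α = ℓ β) : s.ℓ α = s.ℓ β :=
  le_antisymm (h.fine _ _ e.le) (h.fine _ _ e.ge)

theorem bel_pull (h : Fine s.f s.ℓ f ℓ) {u : Mat p n} (hu : Tri ℓ u) {w : Frm p n}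
    (hl : w ∈ Lowr s.ℓ s.a) (hw : s.Bel ℓ t w) : s.Bel ℓ t (pull1 u w) := fun i hi hk => by
  refine Finset.sum_eq_zero fun k _ => ?_
  by_cases e : ∀ j, u (k j) (i j) ≠ 0
  · have h1 : ∀ j, ℓ (k j) ≤ ℓ (i j) := fun j => (hu _ _ (e j)).1
    have h2 : ∀ j, s.ℓ (k j) ≤ s.ℓ (s.a j) := fun j => hi j ▸ h.fine _ _ (h1 j)
    by_cases e2 : ∀ j, s.ℓ (k j) = s.ℓ (s.a j)
    · rw [hw k e2 ((key_le h1).trans_lt hk), zero_mul]
    · obtain ⟨j, hj⟩ := not_forall.1 e2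
      rw [hl k h2 ⟨j, lt_of_le_of_ne (h2 j) hj⟩, zero_mul]
  · obtain ⟨j, hj⟩ := not_forall.1 e
    rw [Finset.prod_eq_zero (Finset.mem_univ j) (not_not.1 hj), mul_zero]

theorem bel_add {v w : Frm p n} (hv : s.Bel ℓ t v) (hw : s.Bel ℓ t w) : s.Bel ℓ t (v + w) :=
  fun i hi hk => by rw [Pi.add_apply, hv i hi hk, hw i hi hk, add_zero]

theorem bel_cancel {v w : Frm p n} (hv : s.Bel ℓ t v) (hw : s.Bel ℓ t (v + w)) : s.Bel ℓ t w :=
  fun i hi hk => by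
    have := hw i hi hk
    rwa [Pi.add_apply, hv i hi hk, zero_add] at this

theorem bel_succ (h : Fine s.f s.ℓ f ℓ) {b : Fin 3 → Ix n} (hb : ∀ j, s.ℓ (b j) = s.ℓ (s.a j))
    (hk : key ℓ b = t) {w : Frm p n} :
    s.Bel ℓ (t + 1) w ↔ s.Bel ℓ t w ∧ cmp ℓ (key ℓ b) w = 0 := by
  refine ⟨fun H => ⟨fun i hi e => H i hi (by omega), funext fun i => ?_⟩, fun H i hi e => ?_⟩
  · rw [cmp_apply]
    split_ifs with e
    · exact H i (fun j => (coarse h ((key_eq_iff h.lab').1 e j)).trans (hb j)) (by omega)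
    · rfl
  · rcases Nat.lt_succ_iff_lt_or_eq.1 e with e | e
    · exact H.1 i hi e
    · have := congrFun H.2 i
      rwa [cmp_apply, if_pos (e.trans hk.symm)] at this

theorem bel_skip (hb : ∀ b : Fin 3 → Ix n, (∀ j, s.ℓ (b j) = s.ℓ (s.a j)) → key ℓ b ≠ t)
    {w : Frm p n} : s.Bel ℓ (t + 1) w ↔ s.Bel ℓ t w :=
  ⟨fun H i hi e => H i hi (by omega), fun H i hi e => H i hi (by have := hb i hi; omega)⟩

omit [Fact p.Prime] in
theorem pull_frame (f' f : GG p n) (w : Frm p n) :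
    pull1 f.1 w = pull1 (f'⁻¹ * f).1 (pull1 f'.1 w) := by
  rw [← pull1_mul, ← val_mul, mul_inv_cancel_left]

theorem bel_top (h : Fine s.f s.ℓ f ℓ) (ht : top n ≤ t) (T'' : Frm p n) :
    s.Bel ℓ t (pull1 f.1 (T'' - s.T)) ↔ s.dl T'' = 0 := by
  have e : cmp s.ℓ s.t (pull1 f.1 (T'' - s.T)) = pull1 (s.f⁻¹ * f).1 (s.dl T'') := by
    rw [pull_frame s.f f, cmp_pull1_dg h.lab h.dg]; rfl
  have e2 : s.dl T'' = 0 ↔ cmp s.ℓ s.t (pull1 f.1 (T'' - s.T)) = 0 := by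
    rw [e]
    refine ⟨fun H => by rw [H, map_zero], fun H => ?_⟩
    rw [← (s.f⁻¹ * f).2.2.1.pull1_st (s.dl T''), H, map_zero]
  rw [e2]
  refine ⟨fun H => funext fun i => ?_, fun H i hi _ => ?_⟩
  · rw [cmp_apply]
    split_ifs with e3
    · exact H i ((key_eq_iff h.lab).1 e3) ((key_lt_top h.lab' i).trans_le ht)
    · rfl
  · have := congrFun H i
    rwa [cmp_apply, if_pos (show key s.ℓ i = s.t from (key_eq_iff h.lab).2 hi)] at this

theorem coc (b : TB p n) (f g h : GG p n) (T T'' : Frm p n) :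
    pull1 f.1 (pull1 (g * h).1 T'' - T) =
      pull1 (fr f h.1) (pull1 f.1 (pull1 g.1 T'' - T)) + pull1 f.1 (pull1 h.1 T - T) := by
  rw [← pull1_mul f.1, (b.env.2.1 f h.1 h.1).2.2.2.2.2.2, pull1_mul, ← map_add, val_mul, pull1_mul,
    map_sub (pull1 h.1)]
  congr 1; abel

theorem low (b : TB p n) (h0 : s.Ok0) (h : Fine s.f s.ℓ f ℓ) {g : GG p n} (hg : g ∈ s.G) :
    pull1 f.1 (pull1 g.1 s.T' - s.T) ∈ Lowr s.ℓ s.a := by
  rw [pull_frame s.f f]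
  exact ((b.low _ _ _ _ h.lab (h.dg.tri h.lab)).1
    ((b.coc s h0).2.2.2.2.2.2.1 g hg).2.2.2.2.1).1

theorem ks_le (b : TB p n) (h : Fine s.f s.ℓ f ℓ) {α β : Ix n} (e : s.ℓ β = s.ℓ α) :
    KS s.f s.ℓ α ≤ KS f ℓ β := by
  have e1 : KS s.f s.ℓ α = KS s.f s.ℓ β := by simp only [KS, sL, sH, nb, e]
  rw [e1]
  have h1 := (b.sec.2.2.2.2.1 _ _ _ _ h).2.2.2.1 β
  exact b.sec.2.1 _ _ _ _ h1.2.2.1 (b.sec.1 f ℓ β h.lab').1 h1.2.2.2

theorem kb_le (b : TB p n) (h : Fine s.f s.ℓ f ℓ) {a : Fin 3 → Ix n}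
    (ha : ∀ j, s.ℓ (a j) = s.ℓ (s.a j)) : KB s.f s.ℓ s.lam ≤ KB f ℓ (Lam ℓ a) := fun g hg => by
  refine mem_KB.2 fun β hβ => ks_le b h rfl (mem_KB.1 hg β ?_)
  obtain ⟨j, e | e⟩ := hβ
  · exact ⟨j, Or.inl ((coarse h e).trans (ha j))⟩
  · exact ⟨j, Or.inr ((coarse h e).trans
      (le_antisymm (h.lab.sym _ _ (ha j).ge) (h.lab.sym _ _ (ha j).le)))⟩

end SPL2z

open SPL2z in
theorem s_SPL2 (p n : ℕ) [Fact p.Prime] (b : TB p n) : S_SPL2 p n := by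
  intro s EG f ℓ t o h0 h htri ho
  have tri : ∀ g ∈ s.G, Tri ℓ (fr f g.1) := ((b.env.1 s.G).2.2.2.2.2.1 f ℓ).1 htri
  refine ⟨fun a r ha hk hr => ?_, fun hb => ?_, fun ht => ?_⟩
  · have hH : ∀ g, g ∈ r.H ↔ g ∈ o.H ∧
        cmp ℓ (key ℓ a) (pull1 f.1 (pull1 g.1 s.T - s.T)) = 0 := hr.isH
    have hle : r.H ≤ o.H := fun g hg => ((hH g).1 hg).1
    have hN : o.H ⊓ s.N1 ≤ (s.sub f ℓ a o).N1 := inf_le_inf_left _ (inf_le_right.trans (kb_le b h ha))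
    have hX : r.X ≤ r.H ⊓ o.X := hr.nw.le
    obtain ⟨k1, k2, k3, -⟩ := b.kid (GG p n)
    obtain ⟨-, -, -, -, -, -, s1, s2, -⟩ := b.sol (GG p n)
    refine ⟨fun g => ?_, fun x hx => ?_, fun hx g hg hB => ?_,
      ⟨hX.trans (inf_le_inf_left _ (ho.nw.le.trans inf_le_right)), hr.nw.nm, hr.nw.stable,
        hr.nw.full, fun Z hZ hP => ?_, ?_, ?_, ?_⟩, fun hT Z hZ hS => ?_⟩
    · change g ∈ r.H ↔ _
      rw [hH, ho.isH, bel_succ h ha hk, and_assoc]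
    · obtain ⟨g, hg, hx⟩ := Option.bind_eq_some_iff.1 hx
      obtain ⟨u, hu, rfl⟩ := Option.map_eq_some_iff.1 hx
      obtain ⟨hu1, hu2⟩ := hr.isS.1 u hu
      obtain ⟨hu3, hu4⟩ := (ho.isH u).1 hu1
      obtain ⟨hg1, hg2⟩ := ho.some g hg
      refine ⟨mul_mem hg1 hu3, (bel_succ h ha hk).2 ⟨?_, ?_⟩⟩
      · rw [coc b]
        exact bel_add (bel_pull h (tri u hu3) (low b h0 h hg1) hg2) hu4
      · simp only [St.kp', St.dl, St.sub, St.t, hg, Option.elim_some] at hu2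
        rwa [val_mul, pull1_mul]
    · obtain ⟨hB1, hB2⟩ := (bel_succ h ha hk).1 hB
      cases hg0 : o.φ with
      | none => exact ho.none hg0 g hg hB1
      | some g0 =>
        have hr0 : r.φ = none := by
          simpa only [Out.next, hg0, Option.bind_some, Option.map_eq_none_iff] using hx
        obtain ⟨hg1, hg2⟩ := ho.some g0 hg0
        have hu : g0⁻¹ * g ∈ s.G := mul_mem (inv_mem hg1) hg
        rw [← mul_inv_cancel_left g0 g] at hB1 hB2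
        rw [coc b] at hB1
        refine hr.isS.2 hr0 (g0⁻¹ * g) ((ho.isH _).2 ⟨hu,
          bel_cancel (bel_pull h (tri _ hu) (low b h0 h hg1) hg2) hB1⟩) ?_
        simp only [St.kp', St.dl, St.sub, St.t, hg0, Option.elim_some]
        rwa [val_mul, pull1_mul] at hB2
    · have h1 := ho.nw.off Z hZ hP
      exact hr.nw.off Z (le_inf h1 ((le_inf (h1.trans (ho.nw.le.trans inf_le_left))
        (hZ.trans inf_le_right)).trans hN)) hP
    · exact k2 _ _ _ _ (k1 _ _ _ _ _ ho.nw.kids le_rfl hle) hr.nw.kids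
    · change SolvMod (r.H ⊓ s.X ⊓ topI (o.F ++ r.F)) r.X
      rw [k3]
      refine s2 _ o.X _ (s1 _ _ _ _ ?_ le_rfl ho.nw.solv) (s1 _ _ _ _ ?_ le_rfl hr.nw.solv)
      · exact inf_le_inf (inf_le_inf_right _ hle) inf_le_left
      · exact fun g hg => ⟨⟨hg.1.1.1, hg.2⟩, hg.1.2.2⟩
    · change r.H ⊓ s.N1 ≤ topI (o.F ++ r.F)
      rw [k3]
      exact le_inf ((inf_le_inf_right _ hle).trans ho.nw.near)
        ((le_inf inf_le_left ((inf_le_inf_right _ hle).trans hN)).trans hr.nw.near)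
    · have h1 := ho.tb hT Z (hZ.trans (inf_le_inf_right _ hle)) hS
      obtain ⟨j, hj⟩ := hT
      exact hr.tb ⟨j, (ho.nw.le.trans inf_le_right).trans (hj.trans (ks_le b h (ha j)))⟩ Z
        (le_inf (hZ.trans inf_le_left) h1) hS
  · exact ⟨fun g => by rw [bel_skip hb, ho.isH], fun g hg => by rw [bel_skip hb]; exact ho.some g hg,
      fun hx g hg => by rw [bel_skip hb]; exact ho.none hx g hg, ho.nw, ho.tb⟩
  · refine ⟨fun g => ?_, ⟨fun g hg => ?_, fun hx g hg e => ?_⟩, ho.nw, ho.tb⟩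
    · rw [ho.isH, bel_top h ht]; rfl
    · exact ⟨(ho.some g hg).1, (bel_top h ht _).1 (ho.some g hg).2⟩
    · exact ho.none hx g hg ((bel_top h ht _).2 e)

end Pool.Agent.P.MP_f1a348_lc.UP
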