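import Pool.Agent.P.MP_f1a348_lc.UP.EBase
import Pool.Agent.P.MP_f1a348_lc.PG.TSTA

/-! Stability of the second canonical subspace for an abstract relation. -/

namespace Pool.Agent.P.MP_f1a348_lc.UP

open Matrix Module Pool.Agent.P.MP_f1a348_lc.PG

namespace STAKy

open STAx

variable {p n : ℕ} {ℓ : Ix n → ℕ} {B : Sub p n} [Fact p.Prime]

theorem act_cn {s : Side p n} (h : Good ℓ s) {z : Mat p n} (hz : U1 s.B z) (w : Frm p n) :
    act (st z) (cn (CoL ℓ s) (1, w)) = cn (CoL ℓ s) (1, pull1 z w) := by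
  funext k
  show st z *ᵥ cn (CoL ℓ s) (1, w) k = _
  cases k with
  | zero =>
    rw [cn_zero, cn_zero, one_smul]
    exact (hz.lev h.str.lab h.str.alg).star.par.mulVec_e0
  | succ k =>
    rw [cn_succ, cn_succ]
    exact (con_pull1 hz.1 hz.2.1 (co_le_com (h.spL_CoL ▸ getD_mem_spL (CoL ℓ s) (k / 3))) _ w).symm

theorem odd {s : Side p n} (h : Good ℓ s) {t : ℕ} {K : Rel p n} (H : KC ℓ s.B t K)
    (hB : s.B ≤ Ht s.B (E2 ℓ s K) (E2 ℓ s K)) {z : Mat p n} {w0 : Frm p n} (hz : U1 s.B z)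
    (h0 : K (z0 ℓ s.B) w0) : w0 - pull1 z w0 ∈ SpK K ⊔ W0 ℓ s.B t := by
  have h2 : ((1 : ZMod p), w0) ∈ ShK ℓ s.B K := Submodule.subset_span ⟨w0, h0, rfl⟩
  obtain ⟨y, hy, e⟩ := (mem_Ht.1 (hB hz.1)).2.2 _ (Submodule.mem_map_of_mem h2)
  rw [act_cn h hz] at e
  have e1 : y.1 = 1 := by
    have := congrFun (congrFun e 0) (c0 n)
    simpa [cn_zero, e0] using this
  have h3 := (H.mem_sh h0).1 hy
  rw [e1, one_smul] at h3
  have hw := (H.mem _ _ h0).2
  have h4 : y.2 - pull1 z w0 ∈ W0 ℓ s.B t := by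
    refine mem_W0.2 ⟨sub_mem ?_ (pull1_mem_Wt h.str.lab (h.str.alg.dg z hz.1) hw),
      fun m C hC => con_span (L := CoL ℓ s) (fun i => ?_) (h.spL_CoL ▸ hC)⟩
    · simpa using add_mem (H.sp_le h3) hw
    · have := congrFun e (3 * i + m.val + 1)
      rw [cn_slot, cn_slot] at this
      rw [map_sub, this, sub_self]
  have := sub_mem (Submodule.mem_sup_right (S := SpK K) h4)
    (Submodule.mem_sup_left (T := W0 ℓ s.B t) h3)
  convert this using 1
  abel

open Classical in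
theorem even (h : Str ℓ B) {a : Fin 3 → Ix n}
    (hs : (∏ j, if Triv ℓ B (a j) then (1 : ZMod p) else -1) ≠ -1) {z : Mat p n} (hz : U1 B z)
    {w : Frm p n} (hw : w ∈ Wt ℓ (key ℓ a)) : pull1 z w - w ∈ W0 ℓ B (key ℓ a) := by
  refine mem_W0.2 ⟨sub_mem (pull1_mem_Wt h.lab (h.alg.dg z hz.1) hw) hw, fun m C hC => ?_⟩
  rw [map_sub, con_pull1 hz.1 hz.2.1 (co_le_com hC), sub_eq_zero]
  have e : con m C w = st (pr ℓ (a m)) *ᵥ
      con m (pr ℓ (a (m + 2)) * C * st (pr ℓ (a (m + 1)))) w := by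
    rw [← con_pull (fun j => pr ℓ (a j)), ← cmp_key h.lab, mem_Wt_iff.1 hw]
  by_cases t2 : Triv ℓ B (a (m + 2))
  · rw [← co_left h hC, ← mul_assoc, pr_mul_eo_triv t2, zero_mul, zero_mul, con_zero_left,
      mulVec_zero, co_left h hC] at e
    rw [e, mulVec_zero]
  by_cases t1 : Triv ℓ B (a (m + 1))
  · have e1 : C * st (pr ℓ (a (m + 1))) = 0 := by
      rw [← hC.2, mul_assoc, ← st_eo h, ← st_mul, pr_mul_eo_triv t1, st_zero, mul_zero]
    rw [mul_assoc, e1, mul_zero, con_zero_left, mulVec_zero] at e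
    rw [e, mulVec_zero]
  have t0 : Triv ℓ B (a m) := by
    by_contra t0
    apply hs
    rw [prod_three m, if_neg t0, if_neg t1, if_neg t2]
    ring
  refine U1.triv h (hz.star h.lab h.alg) ((triv_rev h).2 t0) ?_
  rw [e, st_pr h.lab]
  exact pr_mulVec_mem _ _

end STAKy

theorem s_STAK (p n : ℕ) [Fact p.Prime] (m : PM p n) (hWP : S_WP p n) : S_STAK p n := by
  classical
  intro ℓ s t K h H hB z w hw
  by_cases ht : ∀ a, key ℓ a ≠ t
  · rw [Wt_eq_bot ht (H.mem _ _ hw).2]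
    exact zero_mem _
  push Not at ht
  obtain ⟨a, rfl⟩ := ht
  by_cases hs : (∏ j, if Triv ℓ s.B (a j) then (1 : ZMod p) else -1) = -1
  · obtain ⟨w0, h0⟩ := H.onto _ (u1_z0 m.five h.str)
    have h1 := H.odd_arg h.str.alg
      (fun w hw => by rw [pull1_z0 h.str.lab hw, hs, neg_one_smul]) hw h0
    refine mem_of_two_smul m.five ?_
    simpa using add_mem (Submodule.mem_sup_left h1) (STAKy.odd h H hB (H.mem _ _ hw).1 h0)
  · exact H.hom_arg h.str.lab h.str.alg (hWP ℓ _ h.str) (Q := Wt ℓ (key ℓ a)) le_sup_left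
      (fun _ _ hw => (H.mem _ _ hw).2)
      (fun z hz w hw => Submodule.mem_sup_right (STAKy.even h.str hs hz hw)) hw

end Pool.Agent.P.MP_f1a348_lc.UP
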