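import Pool.Agent.P.MP_f1a348_lc.UP.EBase
import Pool.Agent.P.MP_f1a348_lc.PG.TSTC

/-! The traces can be removed from the classes of a relation. -/

namespace Pool.Agent.P.MP_f1a348_lc.UP

open Matrix Module Pool.Agent.P.MP_f1a348_lc.PG

namespace STCKy

variable {p n : ℕ} [Fact p.Prime] {ℓ : Ix n → ℕ} {s : Side p n} {B : Sub p n}

theorem tn_act (h : Good ℓ s) {z : Mat p n} (hz : U1 s.B z) (τ : Tup p n) :
    tn (CoL ℓ s) (act (st z) τ) = ((tn (CoL ℓ s) τ).1, pull1 z (tn (CoL ℓ s) τ).2) := by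
  have h2 := (hz.lev h.str.lab h.str.alg).par
  refine Prod.ext ?_ ?_
  · change (st z *ᵥ τ 0) (c0 n) = τ 0 (c0 n)
    rw [(h2.star h.str.lab).1.mulVec_c0, (h2.star h.str.lab).2.2, one_mul]
  · change ∑ x ∈ Finset.range _, _ = pull1 z (∑ x ∈ Finset.range _, _)
    rw [map_sum]
    refine Finset.sum_congr rfl fun x hx => (pull1_trf hz.1 h2.2.1 ?_ _ _).symm
    rw [List.getD_eq_getElem _ _ (by have := Finset.mem_range.1 hx; omega)]
    exact co_le_com (h.spL_CoL ▸ mem_spL (List.getElem_mem _))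

theorem fix (h : Str ℓ B) {a : Fin 3 → Ix n}
    (ha : ∀ m, ¬ Triv ℓ B (a (m + 1)) → ¬ Triv ℓ B (a (m + 2)) → Triv ℓ B (a m)) {z : Mat p n}
    (hz : U1 B z) {w : Frm p n} (hw : w ∈ Tr ℓ B) :
    pull1 z (cmp ℓ (key ℓ a) w) = cmp ℓ (key ℓ a) w := by
  induction hw using Submodule.span_induction with
  | zero => simp only [map_zero]
  | add u v _ _ a b => simp only [map_add, a, b]
  | smul c u _ a => simp only [map_smul, a]
  | mem w hw =>
    obtain ⟨m, C, hC, v, rfl⟩ := hw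
    rw [cmp_key h.lab, pull_trf, st_pr h.lab, st_pr h.lab]
    by_cases c1 : Triv ℓ B (a (m + 1))
    · rw [← hC.2, mul_assoc, mul_assoc, (dg_pr _).comm_eo, pr_mul_eo_triv c1, mul_zero, mul_zero,
        trf_zero, map_zero]
    by_cases c2 : Triv ℓ B (a (m + 2))
    · rw [← co_left h hC, ← mul_assoc, pr_mul_eo_triv ((triv_rev h).2 c2), zero_mul, zero_mul,
        trf_zero, map_zero]
    rw [pull1_trf hz.1 hz.2.1 (com_mul (com_mul (com_pr h.alg _) hC.1) (com_pr h.alg _)),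
      (hz.star h.lab h.alg).triv h ((triv_rev h).2 (ha m c1 c2)) (pr_mulVec_mem _ _)]

end STCKy

theorem s_STCK (p n : ℕ) [Fact p.Prime] (m : PM p n) (hWP : S_WP p n) : S_STCK p n := by
  classical
  intro ℓ s t K h H hD hk z w hw
  have hz := (H.mem _ _ hw).1
  by_cases ht : ∀ a, key ℓ a ≠ t
  · rw [Wt_eq_bot ht (H.mem _ _ hw).2]
    exact zero_mem _
  obtain ⟨a, rfl⟩ : ∃ a, key ℓ a = t := by simpa using ht
  by_cases c : ∀ m, ¬ Triv ℓ s.B (a (m + 1)) → ¬ Triv ℓ s.B (a (m + 2)) → Triv ℓ s.B (a m)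
  swap
  · push Not at c
    obtain ⟨j, c1, c2, c0'⟩ := c
    have ho : ∀ w ∈ Wt ℓ (key ℓ a), pull1 (z0 ℓ s.B) w = -w := fun w hw => by
      rw [pull1_z0 h.str.lab hw, prod_three j, if_neg c0', if_neg c1, if_neg c2]
      simp
    obtain ⟨g1, h1⟩ := H.onto _ (u1_z0 m.five h.str)
    obtain ⟨u, hu, v, hv, e⟩ := Submodule.mem_sup.1 (hk _ g1 h1)
    have h0 := H.adjust h1 (neg_mem hu)
    rw [← e, add_neg_cancel_comm] at h0
    obtain ⟨τ, t1, t2, t3⟩ := STCx.ex_tau h hv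
    obtain ⟨η, η1, η2⟩ : ∃ η : Tup p n, η 0 = e0 ∧ ∀ k, k ≠ 0 → η k = 0 :=
      ⟨fun k => if k = 0 then e0 else 0, if_pos rfl, fun k hk => if_neg hk⟩
    have t4 : tn (CoL ℓ s) (τ + η) = (1, v) := by
      refine Prod.ext ?_ ?_
      · change (τ + η) 0 (c0 n) = 1
        simp [t2, η1, e0]
      · rw [← t3]
        change ∑ x ∈ Finset.range _, _ = ∑ x ∈ Finset.range _, _
        exact Finset.sum_congr rfl fun x _ => by simp [η2]
    have t5 : τ + η ∈ E3 ℓ s K := by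
      refine ⟨add_mem t1 ⟨fun α hα => by simp [η1, e0, hα], fun k hk => η2 k (by omega)⟩, ?_⟩
      change tn _ _ ∈ ShK ℓ s.B K
      rw [t4, H.mem_sh h0]
      simp
    have t6 : tn _ _ ∈ ShK ℓ s.B K := ((hD hz.1).2.2 _ t5).2
    rw [STCKy.tn_act h hz, t4, H.mem_sh h0, one_smul] at t6
    have := sub_mem (H.odd_arg h.str.alg ho hw h0) t6
    rw [sub_sub, sub_add_sub_cancel, sub_self, sub_zero] at this
    exact mem_of_two_smul m.five this
  · refine H.hom_arg h.str.lab h.str.alg (hWP ℓ s.B h.str) le_rfl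
      (Q := SpK K ⊔ Tr ℓ s.B ⊓ Wt ℓ (key ℓ a)) (fun z g hg => ?_) (fun z hz w hw => ?_) hw
    · obtain ⟨u, hu, v, hv, e⟩ := Submodule.mem_sup.1 (hk z g hg)
      refine Submodule.mem_sup.2 ⟨u, hu, v, ⟨hv, ?_⟩, e⟩
      rw [eq_sub_of_add_eq' e]
      exact sub_mem (H.mem _ _ hg).2 (H.sp_le hu)
    · obtain ⟨u, hu, v, hv, rfl⟩ := Submodule.mem_sup.1 hw
      have := STCKy.fix h.str c hz hv.1
      rw [mem_Wt_iff.1 hv.2] at this
      rw [map_add, this, add_sub_add_right_eq_sub]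
      exact sub_mem (H.pull_sp hz hu) hu

end Pool.Agent.P.MP_f1a348_lc.UP
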