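import Pool.Agent.P.MP_f1a348_lc.UP.Iface

/-! Un-pinning through the core, and joining the results of the branches. -/

namespace Pool.Agent.P.MP_f1a348_lc.UP
open Matrix Module Pool.Agent.P.MP_f1a348_lc.PG
open scoped commutatorElement

theorem s_UNC (p n : ℕ) [Fact p.Prime] (t : TM p n) : S_UNC p n := by
  intro s EG H Y F φ h0 hs hH hφ hc hf
  obtain ⟨a1, a2, a3, a4, -⟩ := (t.op (GG p n)).1 (s.X ⊓ s.N1)
  obtain ⟨-, -, -, -, -, -, -, -, -, c1, -, -, c2, -⟩ := t.coc s h0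
  obtain ⟨-, -, -, -, -, -, -, -, -, -, -, s1, s2, s3, -⟩ := t.sol (GG p n)
  have hst := (t.locst s h0 hs).1
  have hG : H ≤ s.G := fun g hg => ((hH g).1 hg).1
  have b1 : Op p (s.X ⊓ s.N1) ≤ H := fun g hg =>
    (hH g).2 ⟨h0.le (a1 hg).1, c2 _ (a1.trans inf_le_right) a2 g hg⟩
  have b2 : Op p (s.X ⊓ s.N1) ≤ H ⊓ s.X := le_inf b1 (a1.trans inf_le_left)
  refine ⟨hH, hφ, ⟨hc.inv.le, hc.inv.nm, hc.stable, hf,
    fun Z h1 h2 => (a4 Z h1 h2).trans (hc.inv.max _ b2 hst),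
    (t.kid (GG p n)).1 _ _ _ _ _ hc.inv.val (Nat.le_add_left _ _) le_rfl, hc.inv.solv, ?_⟩,
    fun _ => hc.inv.max⟩
  exact hc.inv.near _ _ inf_le_left (s1 _ _ _ (s3 H) (s2 _ _ _ hG c1)).1
    (le_inf b2 (le_inf b1 (a1.trans inf_le_right))) hst fun x hx => a3 x ⟨hx.1.2, hx.2.2⟩

theorem s_UNT (p n : ℕ) [Fact p.Prime] (t : TM p n) : S_UNT p n := by
  intro s E EG b c EG' o H Y F φ h0 hs hT hb ho hH hφ hc
  have a0 : ∀ g ∈ Y, s.kp g = 0 := fun g hg => ((hH g).1 (hc.inv.le hg).1).2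
  have a1 : Y ≤ b.X := hb.tb hT Y (hc.inv.le.trans inf_le_right) a0 hc.stable
  have a2 : (s.kid b s.T).TBox := by
    obtain ⟨j, hj⟩ := hT
    exact ⟨j, (hb.nw.le.trans inf_le_right).trans hj⟩
  have a3 : Y ≤ o.X := ho.tb a2 Y
    (le_inf (fun g hg => (ho.isH g).2 ⟨(hb.nw.le (a1 hg)).1, a0 g hg⟩) a1) hc.stable
  have a4 : o.X ≤ Y := hc.inv.max _ (fun g hg => by
    have e := (ho.isH g).1 (ho.nw.le hg).1
    exact ⟨(hH g).2 ⟨hb.le e.1, e.2⟩, (hb.nw.le (ho.nw.le hg).2).2⟩) ho.nw.stable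
  exact s_UNC p n t s EG H Y F φ h0 hs hH hφ hc (le_antisymm a4 a3 ▸ ho.nw.full)

namespace UNCz

variable {p n : ℕ} [Fact p.Prime] (s : St p n) (b : Brc p n)

theorem kp1 (t g : GG p n) : (s.kid b (pull1 t.1 s.T)).kp' g = s.kp (t * g) := by
  rw [St.kp, val_mul, pull1_mul]; rfl

theorem kp2 (t g : GG p n) : (s.kid b (pull1 t.1 s.T')).kp' g = s.kp' (t * g) := by
  rw [St.kp', St.kp', val_mul, pull1_mul]; rfl

theorem pre {E EG : ℕ} (h : (s.kid b s.T).PrE E EG) {T : Frm p n}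
    (hT : pull1 s.f.1 (T - s.T) ∈ Lowr s.ℓ s.a) : (s.kid b T).PrE E EG := by
  obtain ⟨c, τ, h, e⟩ := h
  exact ⟨c, τ, ⟨⟨h.lab, h.tri, h.low, hT, h.le, h.nm, h.stable, h.full⟩, h.val, h.mu, h.ptr,
    h.none, h.tau, h.pot, h.cap⟩, e⟩

end UNCz

theorem s_JOIN (p n : ℕ) [Fact p.Prime] (t : TM p n) : S_JOIN p n := by
  intro s E EG b c EG' h0 hb
  obtain ⟨-, -, -, -, -, -, c1, -, -, -, -, ⟨H, hH⟩, -⟩ := t.coc s h0
  refine ⟨fun x hx => ⟨UNCz.pre s b hb.pre.2 (h0.low x hx),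
    UNCz.pre s b hb.pre.2 (c1 x hx).2.2.2.2.1⟩, fun HQ φ S hQ hφ hS => ?_,
    fun x hx g hg => ⟨?_, fun e => by cases e⟩, fun h => ⟨fun g e => (by cases e), ?_⟩⟩
  · have a1 : ∀ x ∈ b.R, ∀ g, φ x = some g → g ∈ b.Q ∧ x * g ∈ H := fun x hx g e => by
      obtain ⟨e1, e2⟩ := (hφ x hx).1 g e
      rw [UNCz.kp1] at e2
      exact ⟨e1, (hH _).2 ⟨mul_mem (hb.mem x hx) (hb.le e1), e2⟩⟩
    suffices e : HQ ⊔ Subgroup.closure S = H from e ▸ hH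
    refine le_antisymm (sup_le (fun g hg => ?_) ((Subgroup.closure_le _).2 fun y hy => ?_))
      fun h hh => ?_
    · have e := (hQ g).1 hg
      exact (hH g).2 ⟨hb.le e.1, e.2⟩
    · obtain ⟨x, hx, g, e, rfl⟩ := (hS y).1 hy
      exact (a1 x hx g e).2
    · obtain ⟨e1, e2⟩ := (hH h).1 hh
      obtain ⟨x, hx, e3⟩ := hb.cov h e1 e2
      rcases e : φ x with _ | g
      · refine absurd ?_ ((hφ x hx).2 e _ e3)
        rwa [UNCz.kp1, mul_inv_cancel_left]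
      · obtain ⟨e4, e5⟩ := a1 x hx g e
        have e6 : (x * g)⁻¹ * h ∈ HQ := (hQ _).2 ⟨by
          rw [_root_.mul_inv_rev, mul_assoc]
          exact mul_mem (inv_mem e4) e3, ((hH _).1 (mul_mem (inv_mem e5) hh)).2⟩
        rw [← mul_inv_cancel_left (x * g) h]
        exact mul_mem (Subgroup.mem_sup_right (Subgroup.subset_closure
          ((hS _).2 ⟨x, hx, g, e, rfl⟩))) (Subgroup.mem_sup_left e6)
  · rintro _ ⟨⟩
    obtain ⟨e1, e2⟩ := hg.1 g rfl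
    rw [UNCz.kp2] at e2
    exact ⟨mul_mem hx (hb.le e1), e2⟩
  · intro _ g hg e
    obtain ⟨x, hx, e3⟩ := hb.cov' g hg e
    refine (h x hx).2 rfl _ e3 ?_
    rwa [UNCz.kp2, mul_inv_cancel_left]

end Pool.Agent.P.MP_f1a348_lc.UP
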