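import Pool.Agent.P.MP_f1a348_lc.UP.Iface

/-! Project UP: un-pinning when the stable group acts on all slots. -/

namespace Pool.Agent.P.MP_f1a348_lc.UP

open Matrix Module Pool.Agent.P.MP_f1a348_lc.PG
open scoped commutatorElement

namespace UNGz

variable {p n : ℕ} [Fact p.Prime]

theorem lo_mul (t : TM p n) {s : St p n} (ok : s.Ok0) {a b : GG p n} (ha : a ∈ s.G)
    (hb : b ∈ s.G) : s.lo (a * b).1 = s.lo a.1 * s.lo b.1 :=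
  ((t.coc s ok).2.2.2.2.1 _ ((t.env.1 s.G).2.1 a ha)).2.2 _ ((t.env.1 s.G).2.1 b hb)

theorem lo_inv (t : TM p n) {s : St p n} (ok : s.Ok0) {a : GG p n} (ha : a ∈ s.G) :
    s.lo (a⁻¹).1 = st (s.lo a.1) :=
  ((t.coc s ok).2.2.2.2.1 _ ((t.env.1 s.G).2.1 a ha)).1

theorem lift (t : TM p n) {s : St p n} (ok : s.Ok0) (sim : s.Sim) {a : GG p n} (ha : a ∈ s.G)
    (h : s.lo a.1 ∈ s.le s.X) : ∃ x ∈ s.X, x⁻¹ * a ∈ s.N1 := by
  have c7 := (t.coc s ok).2.2.2.2.2.2.1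
  obtain ⟨x, hx, e⟩ := t.locu s ok sim _ ⟨h, (c7 a ha).1.2⟩
  have hG := ok.le hx
  refine ⟨x, hx, (c7 _ (mul_mem (inv_mem hG) ha)).2.1.2 ?_⟩
  rw [lo_mul t ok (inv_mem hG) ha, lo_inv t ok hG, e]
  exact (c7 a ha).1.2.1

end UNGz

open UNGz in
theorem s_UNG (p n : ℕ) [Fact p.Prime] (t : TM p n) (hREL : S_REL p n) (hAUTC : S_AUTC p n)
    (hLIFTJ : S_LIFTJ p n) : S_UNG p n := by
  intro s E EG b c EG' o H XJ KK Y F φ ok sim ntb br po hH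
  obtain ⟨s1, -, s3, -, s5, -, s7, s8, s9, -, s11, s12, s13, s14, s15⟩ := t.sol (GG p n)
  obtain ⟨k1, k2, k3, k4, k5, -⟩ := t.kid (GG p n)
  obtain ⟨-, -, -, -, -, c6, c7, -, -, c10, -⟩ := t.coc s ok
  have HG : H ≤ s.G := fun g hg => ((hH g).1 hg).1
  have oH : o.H = H ⊓ b.Q := by
    ext g
    rw [po.isH g, Subgroup.mem_inf, hH g]
    exact ⟨fun h => ⟨⟨br.le h.1, h.2⟩, h.1⟩, fun h => ⟨h.2, h.1.2⟩⟩
  have oX : o.X ≤ H ⊓ s.X := fun g hg =>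
    ⟨(oH.le (po.nw.le hg).1).1, (br.nw.le (po.nw.le hg).2).2⟩
  have nX : Nm H s.X := s13 _ _ _ HG ok.nm
  have JX : Ncl H o.X ≤ s.X := (s11 H o.X).2.2 _ (fun g hg => (oX hg).2) nX
  obtain ⟨aJ, -, -, mJ, -, nJ⟩ := c6 _ (JX.trans ok.le)
  refine ⟨⟨JX, fun pre g hg k hk => ?_⟩, fun hφ pre preK core => ?_⟩
  · obtain ⟨h1, h2⟩ := (pre k).1 hk
    refine (pre _).2 ⟨nX g hg k h1, ?_⟩
    change s.lo _ ∈ _
    rw [lo_mul t ok (mul_mem (HG hg) (ok.le h1)) (inv_mem (HG hg)),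
      lo_mul t ok (HG hg) (ok.le h1), lo_inv t ok (HG hg)]
    exact nJ g (HG hg) ((s11 H o.X).2.1 g hg) _ h2
  have n1 := br.n1 ntb
  have kN : ∀ g ∈ s.N1, g ∈ (s.kid b s.T).N1 := fun g hg => ⟨n1 hg, hg.2⟩
  have off : ∀ Z, Z ≤ s.X ⊓ s.N1 → PP p Z → Z ≤ o.X := fun Z hZ hp =>
    po.nw.off Z (fun g hg => ⟨br.nw.off Z hZ hp hg, kN g (hZ hg).2⟩) hp
  have oJ : o.X ≤ H ⊓ XJ := fun g hg =>
    ⟨(oX hg).1, (pre g).2 ⟨(oX hg).2, mJ g ((s11 H o.X).1 hg)⟩⟩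
  have oY : o.X ≤ Y := core.inv.max _ oJ po.nw.stable
  have nN : Nm H (H ⊓ s.N1) := (s12 H _ _ (s14 H) (s13 _ _ _ HG c10)).1
  have nr1 : H ⊓ s.N1 ≤ topI b.F := fun g hg => br.nw.near ⟨n1 hg.2, hg.2⟩
  have nr2 : H ⊓ s.N1 ≤ topI o.F := fun g hg =>
    po.nw.near ⟨oH.ge ⟨hg.1, n1 hg.2⟩, kN g hg.2⟩
  have gg := br.gg ntb
  have pos := br.pos
  refine ⟨hH, hφ, ⟨fun g hg => ⟨(core.inv.le hg).1, ((pre g).1 (core.inv.le hg).2).1⟩,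
    core.inv.nm, core.stable, ?_, fun Z hZ hp => (off Z hZ hp).trans oY, ?_, ?_, ?_⟩,
    fun h => absurd h ntb⟩
  · exact t.coref _ _ _ (t.pref s _ _ ok sim aJ pre).1
      (hLIFTJ s H o.X XJ ok sim hH oX po.nw.stable po.nw.full off pre)
      ((t.core H _ inf_le_left).2.2 Y F core)
  · obtain ⟨a1, a2⟩ := hAUTC s H KK ok sim ntb HG preK
    have kK : Kids p (4 * (2 * n + 1) + 1) H [(0, KK, KK)] :=
      Kids.cons _ _ 0 H KK KK [] [] a1 a2 le_rfl (Kids.nil _ _)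
        (s5 _ _ (inf_le_left.trans inf_le_right)) (Kids.nil _ _)
    refine Kids.cons _ (c - 1) (EG' + cT n) H _ _ _ _ (s12 H _ _ nN core.inv.nm).2
      ((s15 b.R H b.Q fun g hg => br.cov g (HG hg) ((hH g).1 hg).2).trans ?_) (by omega)
      (k2 _ _ _ _ (k2 _ _ _ _ (k1 _ _ _ _ _ br.nw.kids (by omega) inf_le_right)
        (oH ▸ po.nw.kids)) (k1 _ _ _ _ _ kK (by unfold cT; omega) inf_le_left)) ?_
      (k1 _ _ _ _ _ core.inv.val (by omega) le_rfl)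
    · refine Nat.le_of_mul_le_mul_left ?_ (Fact.out : p.Prime).pos
      rw [← pow_succ', Nat.sub_add_cancel pos]
      exact br.len
    · have e : topI [((0 : ℕ), KK, KK)] = KK ⊓ topI [] := k5 KK KK [] []
      rw [k3, k3, e]
      set D := H ⊓ b.Q ⊓ (topI b.F ⊓ topI o.F ⊓ (KK ⊓ topI []))
      have rel := hREL s H D ok hH (inf_le_left.trans inf_le_left) fun a ha =>
        lift t ok sim (HG ha.1.1) ((preK a).1 ha.2.2.1).2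
      set A := H ⊓ b.Q ⊓ s.X ⊓ topI b.F ⊓ topI o.F
      have hA : SolvMod A Y := by
        refine s8 _ b.X _ (s7 _ _ _ _ (fun g hg => ?_) le_rfl br.nw.solv)
          (s7 _ _ _ _ (fun g hg => ?_) oY po.nw.solv)
        · exact ⟨⟨hg.1.1.1.2, hg.1.1.2⟩, hg.1.2⟩
        · exact ⟨⟨oH.ge hg.1.1.1.1, hg.2⟩, hg.1.2⟩
      have AH : A ≤ H := fun g hg => hg.1.1.1.1
      obtain ⟨k, hk⟩ := s9 (der 1 D) A Y (H ⊓ s.N1) (fun y hy => by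
        obtain ⟨x, hx, hu⟩ := rel y hy
        have hD := s1 1 D hy
        have key : ∀ M : SG p n, y ∈ M → x⁻¹ * y ∈ M → x ∈ M := fun M h1 h2 => by
          simpa using mul_mem h1 (inv_mem h2)
        exact ⟨x, ⟨⟨⟨⟨hx.1, key _ hD.1.2 (n1 hu.2)⟩, hx.2⟩, key _ hD.2.1.1 (nr1 hu)⟩,
          key _ hD.2.1.2 (nr2 hu)⟩, hu⟩) (s13 _ _ _ AH nN) hA
      exact ⟨1 + k, by rw [s3]; exact hk⟩
  · obtain ⟨Q, hQ⟩ := ((t.qb s ok).2.2.1 s.G _ le_rfl aJ).1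
    have hle : H ⊓ s.N1 ⊔ Y ≤ Q := sup_le
      (fun g hg => (hQ g).2 ⟨HG hg.1, by
        change s.lo _ ∈ _
        rw [(c7 g (HG hg.1)).2.1.1 hg.2]
        exact aJ.one⟩)
      fun g hg => (hQ g).2 ⟨HG (core.inv.le hg).1, ((pre g).1 (core.inv.le hg).2).2⟩
    refine s7 _ _ _ _ (fun g hg => ?_) le_rfl core.inv.solv
    have h2 := (k5 _ _ _ _).le hg.2
    exact ⟨⟨hg.1.1, (pre g).2 ⟨hg.1.2, ((hQ g).1 (hle h2.1)).2⟩⟩, h2.2⟩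
  · obtain ⟨o1, o2, o3, -⟩ := (t.op (GG p n)).1 (s.X ⊓ s.N1)
    refine le_trans ?_ (k5 _ _ _ _).ge
    refine le_inf le_sup_left (core.inv.near _ _ inf_le_left nN (fun g hg => ?_)
      (t.locst s ok sim).1 fun x hx => o3 x ⟨((pre x).1 hx.1.2).1, hx.2.2⟩)
    have := oJ (off _ o1 o2 hg)
    exact ⟨this, this.1, (o1 hg).2⟩

end Pool.Agent.P.MP_f1a348_lc.UP
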