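import Pool.Agent.P.MP_f1a348_lc.UP.EBase

namespace Pool.Agent.P.MP_f1a348_lc.UP

open Matrix Module Pool.Agent.P.MP_f1a348_lc.PG
open Polynomial

namespace Wy

theorem idem {A : Type} [Monoid A] [Finite A] (n : A) :
    ∃ N, n ^ (N + 1) * n ^ (N + 1) = n ^ (N + 1) := by
  obtain ⟨i, j, hij, e⟩ : ∃ i j, i < j ∧ n ^ i = n ^ j := by
    obtain ⟨i, j, h, e⟩ := Finite.exists_ne_map_eq_of_infinite fun i : ℕ => n ^ i
    exact h.lt_or_gt.elim (fun h => ⟨i, j, h, e⟩) fun h => ⟨j, i, h, e.symm⟩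
  obtain ⟨d, rfl⟩ := Nat.exists_eq_add_of_lt hij
  have h : ∀ k, n ^ (i + k * (d + 1)) = n ^ i := fun k => by
    induction k with
    | zero => simp
    | succ k ih => rw [add_mul, one_mul, ← add_assoc, pow_add, ih, ← pow_add, ← add_assoc, ← e]
  refine ⟨i * (d + 1) + d, ?_⟩
  rw [← pow_add, show i * (d + 1) + d + 1 + (i * (d + 1) + d + 1) =
    i + (i + 1) * (d + 1) + (i * d + d + 1) by ring, pow_add, h, ← pow_add]
  congr 1
  ring

end Wy

theorem s_W (p : ℕ) [Fact p.Prime] (hp : 5 ≤ p) (hW2 : PX.S_W2 p) : PX.S_W p := by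
  intro A _ _ s h0 h1 h2 b
  have pp : p.Prime := Fact.out
  have s1 : s 1 = 1 := by
    have := h2 (s 1) 1
    rwa [mul_one, h1, mul_one, eq_comm] at this
  obtain ⟨n, hn⟩ : ∃ n, s b * b = n + 1 := ⟨_, (sub_add_cancel _ 1).symm⟩
  have sn : s n = n := by
    have := h2 (s b) b
    rwa [h1, hn, map_add, s1, add_left_inj] at this
  obtain ⟨N, hN⟩ := Wy.idem n
  obtain ⟨m, hm⟩ : Odd (p ^ N.succ) := (pp.odd_of_ne_two (by omega)).pow
  set φ := aeval (R := ℤ) n with hφ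
  have sφ : ∀ f, s (φ f) = φ f := fun f => by
    induction f using Polynomial.induction_on with
    | C a => rw [hφ, aeval_C, eq_intCast, ← zsmul_one, map_zsmul, s1]
    | add f g a b => rw [map_add, map_add, a, b]
    | monomial k a ih =>
      have e : φ X = n := aeval_X n
      rw [pow_succ, ← mul_assoc, map_mul, h2, ih, e, sn, ← e, ← map_mul, ← map_mul, mul_comm X]
  obtain ⟨E, hE⟩ : ∃ E : ℤ[X], E = 1 - X ^ (N + 1) := ⟨_, rfl⟩
  have f1 : φ (X ^ (N + 1) * E) = 0 := by simp [hE, hφ, mul_sub, hN]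
  have f2 : φ ((1 + X * E) ^ (2 * m + 1)) = 1 := by
    obtain ⟨c, hc⟩ := Nat.exists_eq_add_of_le (Nat.lt_pow_self (n := N + 1) pp.one_lt).le
    rw [← hm, add_pow_prime_pow_eq pp, one_pow, map_add, map_add, map_one, map_mul, map_mul, map_mul,
      map_natCast, h0, zero_mul, zero_mul, zero_mul, add_zero, hc,
      show (X * E) ^ (N + 1 + c) = X ^ (N + 1) * E * (X ^ c * E ^ (N + c)) by ring, map_mul, f1,
      zero_mul, add_zero]
  obtain ⟨R, hR⟩ : ∃ R : ℤ[X], R = (1 + X * E) ^ m := ⟨_, rfl⟩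
  have ee : φ E * φ E = φ E := by
    rw [← map_mul, show E * E = E - X ^ (N + 1) * E by rw [hE]; ring, map_sub, f1, sub_zero]
  obtain ⟨w, w1, w2⟩ := hW2 A s h0 h1 h2 (φ E) (b * φ (R * E)) ee (sφ E)
    (by rw [map_mul, mul_assoc, mul_assoc, ee]) (by
      rw [h2, sφ, mul_assoc, ← mul_assoc (s b), hn, show n + 1 = φ (X + 1) by simp [hφ],
        ← map_mul, ← map_mul, show R * E * ((X + 1) * (R * E)) =
          (1 + X * E) ^ (2 * m + 1) * E - X ^ (N + 1) * E * R ^ 2 by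
            rw [eq_sub_of_add_eq' (eq_sub_iff_add_eq.1 hE), hR]; ring,
        map_sub, map_mul, f2, map_mul, f1, zero_mul, sub_zero, one_mul])
  obtain ⟨Q, hQ⟩ : X ∣ R - 1 := by
    have := sub_one_dvd_pow_sub_one (1 + X * E) m
    rw [add_sub_cancel_left, ← hR] at this
    exact (dvd_mul_right _ _).trans this
  refine ⟨w, (w - b) * n ^ N + b * φ (Q * E), w1, ?_⟩
  have e1 : φ E = 1 - n ^ N * n := by simp [hE, hφ, pow_succ]
  have e2 : φ (R * E) = φ E + φ (Q * E) * n := by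
    rw [show R * E = E + Q * E * X by rw [eq_add_of_sub_eq hQ]; ring, map_add, map_mul, hφ, aeval_X]
  rw [e2, e1] at w2
  rw [hn, add_sub_cancel_right]
  linear_combination (norm := noncomm_ring) w2

end Pool.Agent.P.MP_f1a348_lc.UP
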