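import Pool.Agent.P.MP_f1a348_lc.UP.EBase

/-! Finite rings with involution and without proper projections. -/

namespace Pool.Agent.P.MP_f1a348_lc.UP

open Matrix Module Pool.Agent.P.MP_f1a348_lc.PG

set_option linter.unusedSectionVars false

namespace W1y

variable {A : Type} [Ring A] [Finite A] {u v w x y a b e t : A}

theorem unit_of (h : ∀ v, w * v = 0 → v = 0) : IsUnit w := by
  rw [IsUnit.isUnit_iff_mulLeft_bijective, ← Finite.injective_iff_bijective]
  intro a b e
  exact sub_eq_zero.1 (h _ (by rw [mul_sub, sub_eq_zero]; exact e))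

theorem comm (h : a * b = 1) : b * a = 1 := by
  have hb : IsUnit b := unit_of fun v e => by rw [← one_mul v, ← h, mul_assoc, e, mul_zero]
  apply hb.mul_right_cancel
  rw [mul_assoc, h, mul_one, one_mul]

theorem idem (x : A) : ∃ n, x ^ (n + 1) * x ^ (n + 1) = x ^ (n + 1) := by
  obtain ⟨i, j, hij, e⟩ : ∃ i j, i < j ∧ x ^ i = x ^ j := by
    obtain ⟨i, j, h1, h2⟩ := Finite.exists_ne_map_eq_of_infinite fun n : ℕ => x ^ n
    rcases lt_or_gt_of_ne h1 with h | h
    exacts [⟨i, j, h, h2⟩, ⟨j, i, h, h2.symm⟩]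
  obtain ⟨d, rfl⟩ := Nat.exists_eq_add_of_lt hij
  have h : ∀ k, x ^ (i + k * (d + 1)) = x ^ i := by
    intro k
    induction k with
    | zero => simp
    | succ k ih =>
      rw [show i + (k + 1) * (d + 1) = (i + d + 1) + k * (d + 1) by ring, pow_add, ← e, ← pow_add,
        ih]
  refine ⟨i * d + i + d, ?_⟩
  rw [← pow_add, show i * d + i + d + 1 + (i * d + i + d + 1) =
    (i + (i + 1) * (d + 1)) + (i * d + d + 1) by ring, pow_add, h, ← pow_add]
  congr 1
  ring

/-- the corner has no proper idempotent -/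
def Loc (u : A) : Prop := u * u = u ∧ ∀ e, e * e = e → u * e = e → e * u = e → e = 0 ∨ e = u

/-- left invertible in the corner -/
def LI (u x : A) : Prop := ∃ y, y * x = u

theorem LI.neg (h : LI u (-x)) : LI u x := by
  obtain ⟨y, h⟩ := h
  exact ⟨-y, by rwa [neg_mul, ← mul_neg]⟩

theorem loc1 (hL : Loc u) (h1 : u * x = x) (h2 : x * u = x) : IsNilpotent x ∨ LI u x := by
  obtain ⟨n, h⟩ := idem x
  rcases hL.2 _ h (by rw [pow_succ', ← mul_assoc, h1]) (by rw [pow_succ, mul_assoc, h2]) with h | h
  · exact Or.inl ⟨_, h⟩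
  · exact Or.inr ⟨x ^ n, by rw [← pow_succ, h]⟩

theorem loc2 (hL : Loc u) (h2 : x * u = x) (h : LI u (x + y)) : LI u x ∨ LI u y := by
  obtain ⟨z, h⟩ := h
  have hu := hL.1
  rcases loc1 (x := u * z * x) hL (by rw [← mul_assoc, ← mul_assoc, hu])
    (by rw [mul_assoc, h2]) with h3 | ⟨c, h3⟩
  · obtain ⟨c, hc⟩ := h3.isUnit_one_sub.exists_left_inv
    refine Or.inr ⟨c * (u * z), ?_⟩
    linear_combination (norm := noncomm_ring) c * u * h + hc * u + c * hu + c * u * z * h2
  · exact Or.inl ⟨c * (u * z), by rw [mul_assoc, h3]⟩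

theorem two (hu : u * u = u) (h1 : u * x = x) (h2 : x * u = x) (h : LI u x) :
    ∃ z, u * z = z ∧ z * u = z ∧ z * x = u ∧ x * z = u := by
  obtain ⟨y, h⟩ := h
  have e1 : u * (u * y * u) = u * y * u := by rw [← mul_assoc, ← mul_assoc, hu]
  have e2 : u * y * u * u = u * y * u := by rw [mul_assoc, hu]
  have e3 : u * y * u * x = u := by rw [mul_assoc, h1, mul_assoc, h, hu]
  refine ⟨_, e1, e2, e3, ?_⟩
  generalize u * y * u = z at e1 e2 e3
  have e4 : (z + (1 - u)) * (x + (1 - u)) = 1 := by
    linear_combination (norm := noncomm_ring) e3 - e2 - h1 + hu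
  linear_combination (norm := noncomm_ring) comm e4 + h2 + e1 - hu

theorem swap (hL : Loc u) (h1 : u * a = a) (h2 : v * b = b) (h3 : b * u = b) (h4 : b * a = v)
    (hv : v * v = v) (h0 : v ≠ 0) : a * b = u := by
  refine (hL.2 _ ?_ (by rw [← mul_assoc, h1]) (by rw [mul_assoc, h3])).resolve_left fun h => h0 ?_
  · rw [mul_assoc, ← mul_assoc b, h4, h2]
  · rw [← hv, ← h4, mul_assoc, ← mul_assoc a, h, zero_mul, mul_zero]

theorem blk (h1 : a * w * e = e) (h2 : LI (1 - e) ((w - w * a * w) * (1 - e))) : IsUnit w := by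
  obtain ⟨y, h2⟩ := h2
  refine unit_of fun v h => ?_
  have e1 : e * v = -(a * w * ((1 - e) * v)) := by
    linear_combination (norm := noncomm_ring) a * h - h1 * v
  have e2 : (w - w * a * w) * (1 - e) * v = 0 := by
    linear_combination (norm := noncomm_ring) h - w * e1
  have e3 : (1 - e) * v = 0 := by rw [← h2, mul_assoc, e2, mul_zero]
  rw [e3, mul_zero, neg_zero] at e1
  linear_combination (norm := noncomm_ring) e1 + e3

theorem amo (hL : Loc u) (h2 : x * u = x) (m n c : ℤ) (h : ∀ z : A, (c * (m - n)) • z = z) :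
    LI u (m • u - x) ∨ LI u (n • u - x) := by
  refine (loc2 (y := -(n • u - x)) hL (by rw [sub_mul, smul_mul_assoc, hL.1, h2])
    ⟨c • u, ?_⟩).imp_right LI.neg
  rw [show m • u - x + -(n • u - x) = (m - n) • u by rw [sub_smul]; abel, smul_mul_smul_comm, hL.1,
    h]

variable {H : ℤ}

theorem half (hH : ∀ z : A, (H * 2) • z = z) (h : w * w = 1) :
    H • (1 + w) * H • (1 + w) = H • (1 + w) := by
  rw [smul_mul_smul_comm, show (1 + w) * (1 + w) = (2 : ℤ) • (1 + w) by
    rw [two_smul]; linear_combination (norm := noncomm_ring) h, mul_smul, ← mul_smul H 2, hH]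

theorem half' (hH : ∀ z : A, (H * 2) • z = z) (z : A) : H • z + H • z = z := by
  rw [← add_smul, ← mul_two, hH]

variable [StarRing A]

/-- no proper projections -/
def NP (A : Type) [Ring A] [StarRing A] : Prop := ∀ e : A, e * e = e → star e = e → e = 0 ∨ e = 1

theorem exists_pi {p : ℕ} [hp : Fact p.Prime] [CharP A p] (h2 : Odd p) (hP : NP A)
    (hH : ∀ z : A, (H * 2) • z = z) (he : e * e = e) (h0 : e ≠ 0) (h1 : e ≠ 1) :
    ∃ f : A, f * f = f ∧ star f = 1 - f := by
  have hq : star e * star e = star e := by rw [← star_mul, he]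
  have hx : star (1 - e - star e) = 1 - e - star e := by
    rw [star_sub, star_sub, star_one, star_star, sub_right_comm]
  have hy : star (e - star e) = -(e - star e) := by rw [star_sub, star_star, neg_sub]
  have a1 : (1 - e - star e) * e = star e * (1 - e - star e) := by
    linear_combination (norm := noncomm_ring) hq - he
  have a2 : e * (1 - e - star e) = (1 - e - star e) * star e := by
    linear_combination (norm := noncomm_ring) hq - he
  have a3 : e * star e = -(e * (1 - e - star e)) := by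
    linear_combination (norm := noncomm_ring) -he
  have a4 : (e - star e) * (e - star e) = 1 - (1 - e - star e) ^ 2 := by
    linear_combination (norm := noncomm_ring) he + he + hq + hq
  generalize 1 - e - star e = x at hx a1 a2 a3 a4
  generalize e - star e = y at hy a4
  obtain ⟨n, hn⟩ := idem x
  rcases hP _ hn (by rw [star_pow, hx]) with h | h
  · have h3 : (y * y) ^ p ^ (n + 1) = 1 := by
      rw [a4, sub_pow_char_pow_of_commute _ _ (Commute.one_left _), one_pow, ← pow_mul,
        pow_eq_zero_of_le _ h, sub_zero]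
      have := Nat.lt_pow_self (n := n + 1) hp.out.one_lt
      omega
    obtain ⟨m, hm⟩ : Odd (p ^ (n + 1)) := h2.pow
    rw [hm, ← pow_two, ← pow_mul, two_mul, pow_add] at h3
    refine ⟨_, half hH h3, ?_⟩
    rw [star_zsmul, star_add, star_one, star_pow, hy, Odd.neg_pow ⟨m, rfl⟩, eq_sub_iff_add_eq,
      ← smul_add, show 1 + -y ^ (2 * m + 1) + (1 + y ^ (2 * m + 1)) = 1 + 1 by abel, smul_add,
      half' hH]
  · have c1 : x ^ n * x = 1 := by rw [← pow_succ, h]
    have c2 : x * x ^ n = 1 := by rw [← pow_succ', h]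
    have c3 : star (x ^ n) = x ^ n := by rw [star_pow, hx]
    generalize x ^ n = z at c1 c2 c3
    have b1 : z * e = star e * z := by
      linear_combination (norm := noncomm_ring) z * a2 * z - z * e * c2 + c1 * star e * z
    have b2 : z * star e = e * z := by
      linear_combination (norm := noncomm_ring) c1 * e * z - z * a1 * z - z * star e * c2
    rcases hP (-(e * z)) (by
      linear_combination (norm := noncomm_ring) e * b1 * z + a3 * z * z - e * c2 * z)
      (by rw [star_neg, star_mul, c3, b2]) with h4 | h4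
    · exact absurd (by linear_combination (norm := noncomm_ring) -(h4 * x) - e * c1) h0
    · exact absurd (by linear_combination (norm := noncomm_ring) h4 - e * h4 - he * z) h1

theorem locpi (hP : NP A) (he : e * e = e) (hs : star e = 1 - e) : Loc e := by
  refine ⟨he, fun f h1 h2 h3 => ?_⟩
  have s1 : star f * star f = star f := by rw [← star_mul, h1]
  have s2 : star f * (1 - e) = star f := by rw [← hs, ← star_mul, h2]
  have s3 : (1 - e) * star f = star f := by rw [← hs, ← star_mul, h3]
  have s4 : e * star f = 0 := by linear_combination (norm := noncomm_ring) -s3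
  have s5 : star f * e = 0 := by linear_combination (norm := noncomm_ring) -s2
  refine (hP (f + star f) ?_ (by rw [star_add, star_star, add_comm])).imp (fun h => ?_) fun h => ?_
  · linear_combination (norm := noncomm_ring)
      h1 + s1 - h3 * star f + f * s4 - star f * h2 + s5 * f
  · linear_combination (norm := noncomm_ring) e * h - h2 - s4
  · linear_combination (norm := noncomm_ring) e * h - h2 - s4

theorem caseA (hs : star e = 1 - e) (L1 : Loc e) (L2 : Loc (1 - e)) (h0 : 1 - e ≠ 0)
    (hA : ¬LI e ((1 - e) * t * e)) {m n : ℤ} (hm : ∀ z : A, (m * n) • z = z)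
    (h1 : LI e (m • e - e * t * e)) (h2 : LI (1 - e) (n • (1 - e) - (1 - e) * t * (1 - e))) :
    ∃ l : A, star l * l = 1 ∧ IsUnit (l - t) := by
  have he := L1.1
  have hq := L2.1
  have hs' : star (1 - e) = e := by rw [← hs, star_star]
  have hsum : e + (1 - e) = 1 := by abel
  have z1 : e * (1 - e) = 0 := by rw [mul_sub, he, mul_one, sub_self]
  have z2 : (1 - e) * e = 0 := by rw [sub_mul, he, one_mul, sub_self]
  refine ⟨m • e + n • (1 - e), ?_, ?_⟩
  · rw [star_add, star_zsmul, star_zsmul, hs, hs']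
    simp only [add_mul, mul_add, smul_mul_smul_comm, he, hq, z1, z2, smul_zero, hm, mul_comm n m,
      zero_add, add_zero, hsum]
  set w := m • e + n • (1 - e) - t with hw
  have w1 : m • e - e * t * e = e * w * e := by
    simp only [hw, mul_sub e _ t, sub_mul _ (e * t), add_mul, mul_add, smul_mul_assoc,
      mul_smul_comm, he, z1, smul_zero, add_zero]
  have w2 : n • (1 - e) - (1 - e) * t * (1 - e) = (1 - e) * w * (1 - e) := by
    simp only [hw, mul_sub (1 - e) _ t, sub_mul _ ((1 - e) * t), add_mul, mul_add, smul_mul_assoc,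
      mul_smul_comm, hq, z2, smul_zero, zero_add]
  have w3 : (1 - e) * w * e = -((1 - e) * t * e) := by
    simp only [hw, mul_sub (1 - e) _ t, sub_mul _ ((1 - e) * t), add_mul, mul_add, smul_mul_assoc,
      mul_smul_comm, hq, z2, smul_zero, zero_add, zero_sub]
  rw [w1] at h1
  rw [w2] at h2
  clear_value w
  obtain ⟨a, a1, a2, a3, -⟩ := two he (by rw [← mul_assoc, ← mul_assoc, he])
    (by rw [mul_assoc, he]) h1
  refine blk (a := a) (e := e) (by rw [← a2, mul_assoc a, mul_assoc a, a3]) ?_
  generalize 1 - e = q at *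
  rw [show q * w * q = q * w * a * w * q + q * ((w - w * a * w) * q) by noncomm_ring] at h2
  rcases loc2 L2 (by rw [mul_assoc, hq]) h2 with h3 | ⟨y, h3⟩
  · obtain ⟨z, -, -, -, h4⟩ := two hq (by simp only [← mul_assoc, hq]) (by rw [mul_assoc, hq]) h3
    refine absurd (LI.neg ⟨a * w * q * z, ?_⟩) hA
    rw [← w3]
    refine swap L1 (by simp only [← mul_assoc, a1]) (by simp only [← mul_assoc, hq])
      (by rw [mul_assoc, he]) ?_ hq h0
    linear_combination (norm := noncomm_ring) h4 + q * w * a1 * w * q * z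
  · exact ⟨y * q, by rw [mul_assoc, h3]⟩

theorem caseB (hP : NP A) (hH : ∀ z : A, (H * 2) • z = z) (hs : star e = 1 - e) (L1 : Loc e)
    (L2 : Loc (1 - e)) (h0 : e ≠ 0) (hB : LI e ((1 - e) * t * e)) :
    ∃ l : A, star l * l = 1 ∧ IsUnit (l - t) := by
  have he := L1.1
  have hq := L2.1
  have hs' : star (1 - e) = e := by rw [← hs, star_star]
  have hsum : e + (1 - e) = 1 := by abel
  have z1 : e * (1 - e) = 0 := by rw [mul_sub, he, mul_one, sub_self]
  have z2 : (1 - e) * e = 0 := by rw [sub_mul, he, one_mul, sub_self]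
  have hb := fun w a => blk (w := w) (a := a) (e := e)
  generalize 1 - e = q at *
  have r1 : q * (q * t * e) = q * t * e := by simp only [← mul_assoc, hq]
  have r2 : q * t * e * e = q * t * e := by rw [mul_assoc, he]
  generalize hr : q * t * e = r at *
  obtain ⟨g, g1, g2, g3⟩ : ∃ g, e * g = g ∧ g * q = g ∧ g * r = e := by
    obtain ⟨y, h⟩ := hB
    exact ⟨e * y * q, by simp only [← mul_assoc, he], by rw [mul_assoc, hq],
      by rw [mul_assoc, r1, mul_assoc, h, he]⟩
  have g4 : r * g = q := swap L2 r1 g1 g2 g3 he h0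
  have s1 : e * star g = star g := by rw [← hs', ← star_mul, g2]
  have s2 : star g * q = star g := by rw [← hs, ← star_mul, g1]
  obtain ⟨h, c, h1, h2, h3, c1, c2, c3, hc⟩ : ∃ h c : A, e * h = h ∧ h * q = h ∧ star h = h ∧
      e * c = c ∧ c * q = c ∧ star c = -c ∧ h + c = g := by
    refine ⟨H • (g + star g), H • (g - star g), by rw [mul_smul_comm, mul_add, g1, s1],
      by rw [smul_mul_assoc, add_mul, g2, s2], by rw [star_zsmul, star_add, star_star, add_comm],
      by rw [mul_smul_comm, mul_sub, g1, s1], by rw [smul_mul_assoc, sub_mul, g2, s2],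
      by rw [star_zsmul, star_sub, star_star, ← smul_neg, neg_sub], ?_⟩
    rw [← smul_add, add_add_sub_cancel, smul_add, half' hH]
  rcases loc2 (x := h * r) (y := c * r) L1 (by rw [mul_assoc, r2])
    ⟨1, by rw [one_mul, ← add_mul, hc, g3]⟩ with h4 | h4
  · obtain ⟨z, -, k2, -, k4⟩ := two he (by rw [← mul_assoc, h1]) (by rw [mul_assoc, r2]) h4
    have k1 : q * (r * z) = r * z := by rw [← mul_assoc, r1]
    have k3 : r * z * e = r * z := by rw [mul_assoc, k2]
    rw [mul_assoc] at k4
    generalize r * z = k at k1 k3 k4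
    have k5 : k * h = q := swap L2 k1 h1 h2 k4 he h0
    have k6 : star k * h = q := by rw [← h3, ← star_mul, k4, hs]
    have k7 : star k * e = star k := by rw [← hs', ← star_mul, k1]
    have k8 : star k = k := by rw [← k7, ← k4, ← mul_assoc, k6, k1]
    have k9 : (h + k) * (h + k) = 1 := by
      linear_combination (norm := noncomm_ring) k4 + k5 + hsum - h2 * h - h * q * h1 +
        h * z2 * h - k3 * k - k * e * k1 + k * z1 * k
    have k0 : e * (h + k) * e = 0 := by
      linear_combination (norm := noncomm_ring) -(e * h2 * e) + e * h * z2 - e * k1 * e +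
        z1 * k * e
    have k10 := half' hH (1 + (h + k))
    rcases hP _ (half hH k9) (by rw [star_zsmul, star_add, star_add, star_one, h3, k8]) with
      h5 | h5 <;> rw [h5] at k10
    · exact absurd (by linear_combination (norm := noncomm_ring) -(e * k10 * e) - k0 - he) h0
    · exact absurd (by linear_combination (norm := noncomm_ring) e * k10 * e + k0 - he) h0
  have key : ∀ c : A, e * c = c → c * q = c → star c = -c →
      LI e (e * ((1 + c - t - (1 + c - t) * -g * (1 + c - t)) * q) * r) →
      ∃ l : A, star l * l = 1 ∧ IsUnit (l - t) := by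
    rintro c c1 c2 c3 ⟨y, hy⟩
    refine ⟨1 + c, ?_, hb _ (-g) ?_ ⟨r * y * e, ?_⟩⟩
    · rw [star_add, star_one, c3]
      linear_combination (norm := noncomm_ring) c2 * c + c * q * c1 - c * z2 * c
    · linear_combination (norm := noncomm_ring) g3 + g * hr + g2 * (1 + c - t) * e - g * z2 +
        g * q * c1 * e - g * z2 * c * e
    · generalize 1 + c - t - (1 + c - t) * -g * (1 + c - t) = d at hy
      linear_combination (norm := noncomm_ring) r * hy * g + r * g1 + g4 -
        r * y * e * d * q * g4 - r * y * e * d * hq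
  have cg : c * g = 0 := by rw [← c2, ← g1, mul_assoc, ← mul_assoc q, z2, zero_mul, mul_zero]
  have gc : g * c = 0 := by rw [← g2, ← c1, mul_assoc, ← mul_assoc q, z2, zero_mul, mul_zero]
  rw [show c * r = e * ((1 + c - t - (1 + c - t) * -g * (1 + c - t)) * q) * r +
      -(e * ((1 + 0 - t - (1 + 0 - t) * -g * (1 + 0 - t)) * q) * r) by
    linear_combination (norm := noncomm_ring) -(c1 * q * r) - c2 * r -
      e * cg * (1 + c - t) * q * r - e * (1 - t) * gc * q * r] at h4
  rcases loc2 L1 (by rw [mul_assoc, r2]) h4 with h5 | h5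
  · exact key c c1 c2 c3 h5
  · exact key 0 (mul_zero _) (zero_mul _) (by rw [star_zero, neg_zero]) h5.neg

theorem main {p : ℕ} [hp : Fact p.Prime] (h5 : 5 ≤ p) (hA : (p : A) = 0) (hP : NP A) (t : A) :
    ∃ l : A, star l * l = 1 ∧ IsUnit (l - t) := by
  have un : ∀ m : ℕ, 0 < m → m < 5 → ∃ c : ℤ, ∀ z : A, (c * m) • z = z := fun m h1 h2 => by
    obtain ⟨a, b, h⟩ := Nat.isCoprime_iff_coprime.2
      (Nat.coprime_of_lt_prime h1.ne' (h2.trans_le h5) hp.out)
    refine ⟨b, fun z => ?_⟩
    rw [show b * m = 1 - a * p by linear_combination h, sub_smul, one_smul, mul_smul, natCast_zsmul,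
      nsmul_eq_mul, hA, zero_mul, smul_zero, sub_zero]
  obtain ⟨H, hH⟩ := un 2 (by norm_num) (by norm_num)
  obtain ⟨T, hT⟩ := un 3 (by norm_num) (by norm_num)
  rw [Nat.cast_ofNat] at hH hT
  have hH' : ∀ z : A, (H * (1 - -1)) • z = z := by rwa [show (1 - -1 : ℤ) = 2 by norm_num]
  have hT' : ∀ z : A, (T * (2 - -1)) • z = z := by rwa [show (2 - -1 : ℤ) = 3 by norm_num]
  by_cases hL : Loc (1 : A)
  · rcases amo (x := t) hL (mul_one t) 1 (-1) H hH' with ⟨y, h⟩ | ⟨y, h⟩
    · exact ⟨1, by simp, ⟨⟨_, y, by simpa using comm h, by simpa using h⟩, rfl⟩⟩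
    · exact ⟨-1, by simp, ⟨⟨_, y, by simpa using comm h, by simpa using h⟩, rfl⟩⟩
  obtain ⟨f, h1, h2, h3⟩ : ∃ f : A, f * f = f ∧ f ≠ 0 ∧ f ≠ 1 := by
    by_contra! h
    exact hL ⟨mul_one 1, fun e h1 _ _ => or_iff_not_imp_left.2 (h e h1)⟩
  have : Nontrivial A := ⟨_, _, h2⟩
  have : CharP A p := (CharP.charP_iff_prime_eq_zero hp.out).2 hA
  obtain ⟨e, he, hs⟩ := exists_pi (hp.out.odd_of_ne_two (by omega)) hP hH h1 h2 h3
  have L1 := locpi hP he hs
  have L2 : Loc (1 - e) := locpi hP (by linear_combination (norm := noncomm_ring) he)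
    (by rw [star_sub, star_one, hs])
  have n1 : e ≠ 0 := fun h => by
    rw [h, star_zero, sub_zero] at hs
    exact zero_ne_one hs
  have n2 : 1 - e ≠ 0 := fun h => n1 (star_eq_zero.1 (hs.trans h))
  by_cases hB : LI e ((1 - e) * t * e)
  · exact caseB hP hH hs L1 L2 n1 hB
  have x1 : e * t * e * e = e * t * e := by rw [mul_assoc, he]
  have x2 : (1 - e) * t * (1 - e) * (1 - e) = (1 - e) * t * (1 - e) := by rw [mul_assoc, L2.1]
  have p1 := amo L1 x1 1 (-1) H hH'
  have p2 := amo L1 x1 2 1 1 (by simp)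
  have p3 := amo L1 x1 2 (-1) T hT'
  have q1 := amo L2 x2 1 (-1) H hH'
  have q2 := amo L2 x2 1 H 2 fun z => by
    rw [show 2 * (1 - H) = 2 - H * 2 by ring, sub_smul, hH, two_smul, add_sub_cancel_right]
  have q3 := amo L2 x2 H (-1) (T * 2) fun z => by
    rw [show T * 2 * (H - -1) = T * (H * 2 + 2) by ring, mul_smul, add_smul, hH,
      show z + (2 : ℤ) • z = (3 : ℤ) • z by abel, ← mul_smul, hT]
  have f1 := caseA hs L1 L2 n2 hB (m := 1) (n := 1) (by simp)
  have f2 := caseA hs L1 L2 n2 hB (m := -1) (n := -1) (by simp)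
  have f3 := caseA hs L1 L2 n2 hB (m := 2) (n := H) (by rwa [mul_comm])
  tauto

end W1y

theorem s_W1 (p : ℕ) [Fact p.Prime] (hp : 5 ≤ p) : PX.S_W1 p := by
  intro A _ _ s hA h1 h2 h3 t
  let : StarRing A := { star := s, star_involutive := h1, star_mul := h2, star_add := s.map_add }
  exact W1y.main hp hA h3 t

end Pool.Agent.P.MP_f1a348_lc.UP
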