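import Pool.Agent.P.MP_f1a348_lc.UP.EBase

/-!
Project UP: cancellation of projections in finite rings with involution.
-/

namespace Pool.Agent.P.MP_f1a348_lc.UP

open Matrix Module Pool.Agent.P.MP_f1a348_lc.PG

namespace W2y

variable {A : Type} [Ring A] [StarRing A]

omit [StarRing A] in
theorem asc {x y z : A} (h : x * y = z) (c : A) : x * (y * c) = z * c := by rw [← mul_assoc, h]

theorem sw {x y z : A} (h : x * y = z) : star y * star x = star z := by rw [← star_mul, h]

theorem flip [Finite A] {u w : A} (hu : u * u = u) (su : star u = u) (h1 : u * w = w)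
    (h2 : star w * w = u) : w * star w = u := by
  have h3 : star w * u = star w := by simpa [su] using sw h1
  let φ : {x // u * x = x} → {x // u * x = x} := fun x => ⟨w * x.1, asc h1 _⟩
  have hφ : Function.Injective φ := fun x y h => Subtype.ext (by
    have h4 : star w * (w * x.1) = star w * (w * y.1) := congrArg (fun z => star w * z.1) h
    rwa [asc h2, asc h2, x.2, y.2] at h4)
  obtain ⟨y, hy⟩ := Finite.surjective_of_injective hφ ⟨u, hu⟩
  have h5 : w * y.1 = u := congrArg Subtype.val hy
  have h6 : star w = y.1 := h3.symm.trans ((congrArg _ h5.symm).trans ((asc h2 _).trans y.2))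
  rw [h6, h5]

omit [StarRing A] in
theorem card_lt [Finite A] {e f x : A} (h : e * f = f) (h1 : e * x = x) (h2 : f * x ≠ x) :
    Nat.card {y // f * y = y} < Nat.card {y // e * y = y} := by
  refine Set.Finite.card_lt_card (s := {y | f * y = y}) (t := {y | e * y = y}) (Set.toFinite _)
    ⟨fun y hy => ?_, fun hs => h2 (hs h1)⟩
  change f * y = y at hy
  change e * y = y
  rw [← hy, asc h]

/-- the conclusion -/
def Con (u e a : A) : Prop := ∃ w, u * w = w ∧ w * u = w ∧ star w * w = u ∧ w * e = a

theorem prim [Finite A] {u e a l k : A} (hu : u * u = u) (su : star u = u) (he : e * e = e)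
    (se : star e = e) (ue : u * e = e) (ua : u * a = a) (ae : a * e = a) (aa : star a * a = e)
    (el : e * l = l) (le : l * e = l) (ll : star l * l = e) (ek : e * k = k) (ke : k * e = k)
    (k1 : k * (l - e * a) = e) (k2 : (l - e * a) * k = e) : Con u e a := by
  have l2 := flip he se el ll
  have eu : e * u = e := by simpa [su, se] using sw ue
  have el' : star l * e = star l := by simpa [se] using sw el
  have le' : e * star l = star l := by simpa [se] using sw le
  obtain ⟨b, hb⟩ : ∃ x, x = a * star l := ⟨_, rfl⟩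
  obtain ⟨c, hc⟩ : ∃ x, x = l * k := ⟨_, rfl⟩
  have be : b * e = b := by rw [hb, mul_assoc, el']
  have ub : u * b = b := by rw [hb, asc ua]
  have bb : star b * b = e := by
    rw [hb, star_mul, star_star, mul_assoc, asc aa, le', l2]
  have e1 : e - e * b = (l - e * a) * star l := by rw [sub_mul, l2, hb, mul_assoc]
  have c1 : c * (e - e * b) = e := by rw [e1, hc, mul_assoc, asc k1, le', l2]
  have c2 : (e - e * b) * c = e := by rw [e1, hc, mul_assoc, asc ll, ek, k2]
  have ec : e * c = c := by rw [hc, asc el]
  have ce : c * e = c := by rw [hc, mul_assoc, ke]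
  have eb' : e * star b = star b := by simpa [se] using sw be
  have c1' : (e - star b * e) * star c = e := by simpa [se] using sw c1
  have c2' : star c * (e - star b * e) = e := by simpa [se] using sw c2
  have ec' : e * star c = star c := by simpa [se] using sw ce
  obtain ⟨d, hd⟩ : ∃ x, x = b - e := ⟨_, rfl⟩
  have sd : star d = star b - e := by rw [hd, star_sub, se]
  have de : d * e = d := by rw [hd, sub_mul, be, he]
  have ud : u * d = d := by rw [hd, mul_sub, ub, ue]
  have du : star d * u = star d := by simpa [su] using sw ud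
  have dd : star d * d = (e - e * b) + (e - star b * e) := by
    rw [sd, hd, sub_mul, mul_sub, mul_sub, bb, he]; abel
  have cdc : c * (star d * (d * star c)) = star c + c := by
    rw [asc dd, add_mul, mul_add, asc c1, c1', ec', ce]
  obtain ⟨w, hw⟩ : ∃ x, x = u - d * star c * star d := ⟨_, rfl⟩
  have we : w * e = b := by
    have : star d * e = -(e - star b * e) := by rw [sd, sub_mul, he, neg_sub]
    rw [hw, sub_mul, ue, mul_assoc, mul_assoc, this, mul_neg, c2', mul_neg, de, hd]; abel
  have uw : u * w = w := by rw [hw, mul_sub, hu, mul_assoc, asc ud]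
  have wu : w * u = w := by rw [hw, sub_mul, hu, mul_assoc, du]
  have ww : star w * w = u := by
    have h1 : star w = u - d * c * star d := by
      rw [hw, star_sub, su, star_mul, star_mul, star_star, star_star, mul_assoc]
    have h2 : d * c * star d * (d * star c * star d) = d * (star c + c) * star d := by
      rw [← cdc]; simp only [mul_assoc]
    have h3 : d * c * star d * u = d * c * star d := by rw [mul_assoc, du]
    rw [h1, sub_mul, uw, hw, mul_sub, h2, h3, mul_add, add_mul]; abel
  have ul : u * l = l := by rw [← el, asc ue]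
  have lu : l * u = l := by rw [← le, mul_assoc, eu]
  have lu' : star l * u = star l := by simpa [su] using sw ul
  have uv : u * (l + (u - e)) = l + (u - e) := by rw [mul_add, mul_sub, ul, hu, ue]
  refine ⟨w * (l + (u - e)), asc uw _, ?_, ?_, ?_⟩
  · rw [mul_assoc, add_mul, sub_mul, lu, hu, eu]
  · rw [star_mul, mul_assoc, asc ww, uv, star_add, star_sub, su, se, add_mul, sub_mul, uv, mul_add,
      mul_add, mul_sub, mul_sub, ll, lu', el', el, eu, he]; abel
  · rw [mul_assoc, add_mul, sub_mul, le, ue, he, sub_self, add_zero, ← el, asc we, hb, mul_assoc,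
      ll, ae]

theorem split [Finite A] {u e a f : A} (hu : u * u = u) (su : star u = u) (he : e * e = e)
    (se : star e = e) (ue : u * e = e) (ua : u * a = a) (ae : a * e = a) (aa : star a * a = e)
    (hf : f * f = f) (sf : star f = f) (ef : e * f = f)
    (ih : ∀ g, g = f ∨ g = e - f → ∀ u a, u * u = u → star u = u → g * g = g → star g = g →
      u * g = g → u * a = a → a * g = a → star a * a = g → Con u g a) : Con u e a := by
  have fe : f * e = f := by simpa [sf, se] using sw ef
  have uf : u * f = f := by rw [← ef, asc ue]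
  have fu : f * u = f := by simpa [sf, su] using sw uf
  obtain ⟨w, uw, wu, ww, wf⟩ := ih f (.inl rfl) u (a * f) hu su hf sf uf (asc ua _)
    (by rw [mul_assoc, hf]) (by rw [star_mul, sf, mul_assoc, asc aa, ef, hf])
  have w2 := flip hu su uw ww
  have uw' : u * star w = star w := by simpa [su] using sw wu
  obtain ⟨c, hc⟩ : ∃ x, x = star w * a := ⟨_, rfl⟩
  have fc : f * c = f := by
    have : f * star w = f * star a := by simpa [sf] using sw wf
    rw [hc, asc this, mul_assoc, aa, fe]
  have cf : c * f = f := by rw [hc, mul_assoc, ← wf, asc ww, uf]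
  have cc : star c * c = e := by rw [hc, star_mul, star_star, mul_assoc, asc w2, ua, aa]
  have uc : u * c = c := by rw [hc, asc uw']
  obtain ⟨g, hg⟩ : ∃ x, x = e - f := ⟨_, rfl⟩
  have fg : f * g = 0 := by rw [hg, mul_sub, fe, hf, sub_self]
  have eg : e * g = g := by rw [hg, mul_sub, he, ef]
  have gg : g * g = g := by rw [hg, sub_mul, ← hg, eg, fg, sub_zero]
  have sg : star g = g := by rw [hg, star_sub, se, sf]
  have ug : u * g = g := by rw [← eg, asc ue]
  have fv : f * (u - f) = 0 := by rw [mul_sub, fu, hf, sub_self]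
  have vf : (u - f) * f = 0 := by rw [sub_mul, uf, hf, sub_self]
  have uv : u * (u - f) = u - f := by rw [mul_sub, hu, uf]
  have vu : (u - f) * u = u - f := by rw [sub_mul, hu, fu]
  obtain ⟨x, vx, xv, xx, xg⟩ := ih g (.inr hg) (u - f) (c * g)
    (by rw [sub_mul, uv, fv, sub_zero]) (by rw [star_sub, su, sf]) gg sg
    (by rw [sub_mul, ug, fg, sub_zero]) (by rw [sub_mul, asc uc, asc fc, fg, sub_zero])
    (by rw [mul_assoc, gg]) (by rw [star_mul, sg, mul_assoc, asc cc, eg, gg])
  have fx : f * x = 0 := by rw [← vx, asc fv, zero_mul]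
  have xf : x * f = 0 := by rw [← xv, mul_assoc, vf, mul_zero]
  have xf' : star x * f = 0 := by simpa [sf] using sw fx
  have ux : u * x = x := by rw [← vx, asc uv]
  have xu : x * u = x := by rw [← xv, mul_assoc, vu]
  refine ⟨w * (f + x), asc uw _, by rw [mul_assoc, add_mul, fu, xu], ?_, ?_⟩
  · rw [star_mul, mul_assoc, asc ww, mul_add, uf, ux, star_add, sf, add_mul, mul_add, mul_add, hf,
      fx, xf', xx]; abel
  · have h1 : e = f + g := by rw [hg]; abel
    have h2 : (f + x) * e = c * e := by
      rw [add_mul, fe, h1, mul_add, mul_add, xf, xg, cf, zero_add]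
    rw [mul_assoc, h2, hc, mul_assoc, asc w2, ae, ua]

theorem corner [Finite A] {p : ℕ} [Fact p.Prime] (hW : PX.S_W1 p) (hp : (p : A) = 0) {e : A}
    (he : e * e = e) (se : star e = e) (hpr : ∀ f, f * f = f → star f = f → e * f = f → f = 0 ∨ f = e)
    {t : A} (et : e * t = t) (te : t * e = t) : ∃ l k : A, e * l = l ∧ l * e = l ∧
      star l * l = e ∧ e * k = k ∧ k * e = k ∧ k * (l - t) = e ∧ (l - t) * k = e := by
  have hi : IsIdempotentElem e := he
  have hm : ∀ x : hi.Corner, e * x.1 = x.1 ∧ x.1 * e = x.1 := fun x =>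
    (Subsemigroup.mem_corner_iff hi).1 x.2
  have : Finite hi.Corner := Finite.of_injective (fun x : hi.Corner => x.1) Subtype.val_injective
  let s : hi.Corner →+ hi.Corner := AddMonoidHom.mk' (fun x => ⟨star x.1,
    (Subsemigroup.mem_corner_iff hi).2 ⟨by simpa [se] using sw (hm x).2,
      by simpa [se] using sw (hm x).1⟩⟩) fun x y => Subtype.ext (star_add x.1 y.1)
  let v : hi.Corner →+ A := AddMonoidHom.mk' (fun x => x.1) fun _ _ => rfl
  obtain ⟨l, h1, k, h2⟩ := hW hi.Corner s (Subtype.ext (by
      have : v (p : hi.Corner) = p • e := by rw [← nsmul_one, map_nsmul]; rfl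
      refine this.trans ?_
      rw [nsmul_eq_mul, hp, zero_mul]; rfl))
    (fun a => Subtype.ext (star_star a.1)) (fun a b => Subtype.ext (star_mul a.1 b.1))
    (fun f h1 h2 => (hpr f.1 (congrArg Subtype.val h1) (congrArg Subtype.val h2) (hm f).1).imp
      Subtype.ext Subtype.ext) ⟨t, (Subsemigroup.mem_corner_iff hi).2 ⟨et, te⟩⟩
  have h3 : (k : hi.Corner).1 = l.1 - t := by rw [h2]; exact map_sub v _ _
  refine ⟨l.1, (↑k⁻¹ : hi.Corner).1, (hm _).1, (hm _).2, congrArg Subtype.val h1, (hm _).1,
    (hm _).2, ?_, ?_⟩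
  · rw [← h3]; exact congrArg Subtype.val k.inv_mul
  · rw [← h3]; exact congrArg Subtype.val k.mul_inv

theorem main [Finite A] {p : ℕ} [Fact p.Prime] (hW : PX.S_W1 p) (hp : (p : A) = 0) (n : ℕ) :
    ∀ e : A, Nat.card {y // e * y = y} = n → ∀ u a, u * u = u → star u = u → e * e = e →
      star e = e → u * e = e → u * a = a → a * e = a → star a * a = e → Con u e a := by
  induction n using Nat.strong_induction_on with
  | _ n ih =>
    intro e hn u a hu su he se ue ua ae aa
    by_cases h : ∀ f, f * f = f → star f = f → e * f = f → f = 0 ∨ f = e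
    · obtain ⟨l, k, h1, h2, h3, h4, h5, h6, h7⟩ := corner hW hp he se h (asc he a)
        (by rw [mul_assoc, ae])
      exact prim hu su he se ue ua ae aa h1 h2 h3 h4 h5 h6 h7
    · push Not at h
      obtain ⟨f, hf, sf, ef, f0, f1⟩ := h
      have fe : f * e = f := by simpa [sf, se] using sw ef
      refine split hu su he se ue ua ae aa hf sf ef fun g hg => ih _ ?_ g rfl
      rw [← hn]
      rcases hg with rfl | rfl
      · exact card_lt ef he (by rwa [fe])
      · exact card_lt (x := f) (by rw [mul_sub, he, ef]) ef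
          (by rw [sub_mul, ef, hf, sub_self]; exact f0.symm)

end W2y

theorem s_W2 (p : ℕ) [Fact p.Prime] (hp : 5 ≤ p) (hW1 : PX.S_W1 p) : PX.S_W2 p := by
  have _ := hp
  intro A _ _ s h0 h1 h2 e a he se ae aa
  let _ : StarRing A :=
    { star := s, star_involutive := h1, star_mul := h2, star_add := map_add s }
  obtain ⟨w, -, -, h3, h4⟩ := W2y.main hW1 h0 _ e rfl 1 a (one_mul _) (star_one A) he se
    (one_mul _) (one_mul _) ae aa
  exact ⟨w, h3, h4⟩

end Pool.Agent.P.MP_f1a348_lc.UP
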