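import Pool.Agent.P.MP_f1a348_lc.UP.Iface

/-!
Project UP, task WC: unitary approximations.
-/

namespace Pool.Agent.P.MP_f1a348_lc.UP

open Matrix Module Pool.Agent.P.MP_f1a348_lc.PG
open scoped commutatorElement

set_option linter.unusedVariables false in
theorem s_WC (p n : ℕ) [Fact p.Prime] (m : PM p n) (hW : PX.S_W p) (hENV : S_ENV p n) :
    S_WC p n := by
  intro A h
  have key : ∀ b ∈ A, b (c0 n) (c0 n) = 1 →
      ∃ g : GG p n, g.1 ∈ A ∧ ∃ y ∈ A, g.1 - b = y * (st b * b - 1) := fun b hb hc => by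
    let R : Subalgebra (ZMod p) (Mat p n) := A.toSubalgebra h.one fun x y hx hy => h.mul x hx y hy
    let s : R →+ R :=
      { toFun := fun x => ⟨st x.1, h.star x.1 x.2⟩
        map_zero' := Subtype.ext st_zero
        map_add' := fun x y => Subtype.ext (st_add x.1 y.1) }
    obtain ⟨w, y, hw, hy⟩ := hW R s
      (by rw [← map_natCast (algebraMap (ZMod p) R), ZMod.natCast_self, map_zero])
      (fun a => Subtype.ext (st_st a.1)) (fun a c => Subtype.ext (st_mul a.1 c.1)) ⟨b, hb⟩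
    have h1 : w.1 - b = y.1 * (st b * b - 1) := congrArg Subtype.val hy
    refine ⟨⟨w.1, (h.dg _ w.2).tri lab_l0, congrArg Subtype.val hw, ?_⟩, w.2, y.1, y.2, h1⟩
    have h2 := congrFun (congrFun h1 (c0 n)) (c0 n)
    rw [((h.dg _ y.2).tri lab_l0).mul_c0, Matrix.sub_apply, Matrix.sub_apply,
      ((h.dg _ (h.star b hb)).tri lab_l0).mul_c0, st_apply, rev_c0, hc, Matrix.one_apply_eq] at h2
    linear_combination h2
  obtain ⟨h1, h2, -⟩ := hENV.2.2.2.1 A h
  refine ⟨key, fun g hg => (h1 g).1 hg, fun x hx hc hr => ?_⟩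
  obtain ⟨g, hg, y, hy, e⟩ := key x hx hc
  exact ⟨g, (h1 g).2 hg, e ▸ (h2 _ hr y hy).1⟩

end Pool.Agent.P.MP_f1a348_lc.UP
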