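import Pool.Agent.P.MP_f1a348_lc.UP.EBase

namespace Pool.Agent.P.MP_f1a348_lc.UP

open Matrix Module Pool.Agent.P.MP_f1a348_lc.PG

theorem s_WM (p n : ℕ) [Fact p.Prime] (m : PM p n) (hW : PX.S_W p) : S_WM p n := by
  intro ℓ A h b hb
  let R : Subalgebra (ZMod p) (Mat p n) := A.toSubalgebra h.one (fun x y hx hy => h.mul x hx y hy)
  have hR : ∀ x : Mat p n, x ∈ R ↔ x ∈ A := fun x => Iff.rfl
  let s : R →+ R :=
    { toFun := fun x => ⟨st x.1, (hR _).2 (h.star x.1 ((hR _).1 x.2))⟩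
      map_zero' := Subtype.ext st_zero
      map_add' := fun x y => Subtype.ext (st_add x.1 y.1) }
  have hs : ∀ x : R, (s x).1 = st x.1 := fun x => rfl
  have hp : ((p : ℕ) : R) = 0 := by
    apply Subtype.ext
    have h1 : (((p : ℕ) : R) : Mat p n) = ((p : ℕ) : Mat p n) := map_natCast R.val p
    rw [h1]
    have h2 : ((p : ℕ) : Mat p n) = algebraMap (ZMod p) (Mat p n) ((p : ℕ) : ZMod p) :=
      (map_natCast (algebraMap (ZMod p) (Mat p n)) p).symm
    rw [h2, ZMod.natCast_self, map_zero]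
    rfl
  obtain ⟨w, y, hw, hy⟩ := hW R s hp (fun a => Subtype.ext (st_st a.1))
    (fun a c => Subtype.ext (st_mul a.1 c.1)) ⟨b, (hR _).2 hb⟩
  refine ⟨w.1, (hR _).1 w.2, ?_, ?_⟩
  · exact congrArg Subtype.val hw
  · intro u hu
    have h1 : w.1 - b = y.1 * (st b * b - 1) := congrArg Subtype.val hy
    have h2 : (w.1 - b) *ᵥ u = 0 := by
      rw [h1, ← mulVec_mulVec, sub_mulVec, ← mulVec_mulVec, hu, one_mulVec, sub_self, mulVec_zero]
    rw [sub_mulVec] at h2
    exact sub_eq_zero.1 h2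

end Pool.Agent.P.MP_f1a348_lc.UP
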