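import Pool.Agent.P.MP_f1a348_lc.UP.TACQ
import Pool.Agent.P.MP_f1a348_lc.UP.TACW
import Pool.Agent.P.MP_f1a348_lc.UP.TAUT
import Pool.Agent.P.MP_f1a348_lc.UP.TAUTC
import Pool.Agent.P.MP_f1a348_lc.UP.TAUTQ
import Pool.Agent.P.MP_f1a348_lc.UP.TBLK
import Pool.Agent.P.MP_f1a348_lc.UP.TCFX
import Pool.Agent.P.MP_f1a348_lc.UP.TCLF
import Pool.Agent.P.MP_f1a348_lc.UP.TCLIFF
import Pool.Agent.P.MP_f1a348_lc.UP.TCOC
import Pool.Agent.P.MP_f1a348_lc.UP.TCORE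
import Pool.Agent.P.MP_f1a348_lc.UP.TCOREF
import Pool.Agent.P.MP_f1a348_lc.UP.TCRX
import Pool.Agent.P.MP_f1a348_lc.UP.TCYB
import Pool.Agent.P.MP_f1a348_lc.UP.TENG
import Pool.Agent.P.MP_f1a348_lc.UP.TENV
import Pool.Agent.P.MP_f1a348_lc.UP.TFLD
import Pool.Agent.P.MP_f1a348_lc.UP.TGABC
import Pool.Agent.P.MP_f1a348_lc.UP.TGAL
import Pool.Agent.P.MP_f1a348_lc.UP.TGENCF
import Pool.Agent.P.MP_f1a348_lc.UP.TGQ
import Pool.Agent.P.MP_f1a348_lc.UP.TGQ0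
import Pool.Agent.P.MP_f1a348_lc.UP.TGRA
import Pool.Agent.P.MP_f1a348_lc.UP.TGSL
import Pool.Agent.P.MP_f1a348_lc.UP.THCK
import Pool.Agent.P.MP_f1a348_lc.UP.THI5
import Pool.Agent.P.MP_f1a348_lc.UP.THOMB
import Pool.Agent.P.MP_f1a348_lc.UP.TISO
import Pool.Agent.P.MP_f1a348_lc.UP.TJH
import Pool.Agent.P.MP_f1a348_lc.UP.TKID
import Pool.Agent.P.MP_f1a348_lc.UP.TKIDS
import Pool.Agent.P.MP_f1a348_lc.UP.TLC
import Pool.Agent.P.MP_f1a348_lc.UP.TLCS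
import Pool.Agent.P.MP_f1a348_lc.UP.TLEAF
import Pool.Agent.P.MP_f1a348_lc.UP.TLEAF1
import Pool.Agent.P.MP_f1a348_lc.UP.TLIFK
import Pool.Agent.P.MP_f1a348_lc.UP.TLIFTJ
import Pool.Agent.P.MP_f1a348_lc.UP.TLOCF
import Pool.Agent.P.MP_f1a348_lc.UP.TLOCST
import Pool.Agent.P.MP_f1a348_lc.UP.TLOCU
import Pool.Agent.P.MP_f1a348_lc.UP.TLOOPB
import Pool.Agent.P.MP_f1a348_lc.UP.TLOOPS
import Pool.Agent.P.MP_f1a348_lc.UP.TLT0
import Pool.Agent.P.MP_f1a348_lc.UP.TMAIN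
import Pool.Agent.P.MP_f1a348_lc.UP.TN0
import Pool.Agent.P.MP_f1a348_lc.UP.TNA23
import Pool.Agent.P.MP_f1a348_lc.UP.TNA5
import Pool.Agent.P.MP_f1a348_lc.UP.TNATK
import Pool.Agent.P.MP_f1a348_lc.UP.TNPG
import Pool.Agent.P.MP_f1a348_lc.UP.TONE
import Pool.Agent.P.MP_f1a348_lc.UP.TOP
import Pool.Agent.P.MP_f1a348_lc.UP.TOPP
import Pool.Agent.P.MP_f1a348_lc.UP.TPAYB
import Pool.Agent.P.MP_f1a348_lc.UP.TPAYC
import Pool.Agent.P.MP_f1a348_lc.UP.TPERM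
import Pool.Agent.P.MP_f1a348_lc.UP.TPHB
import Pool.Agent.P.MP_f1a348_lc.UP.TPHI
import Pool.Agent.P.MP_f1a348_lc.UP.TPHM
import Pool.Agent.P.MP_f1a348_lc.UP.TPQ
import Pool.Agent.P.MP_f1a348_lc.UP.TPQ1
import Pool.Agent.P.MP_f1a348_lc.UP.TPQ3
import Pool.Agent.P.MP_f1a348_lc.UP.TPQ4
import Pool.Agent.P.MP_f1a348_lc.UP.TPQ5
import Pool.Agent.P.MP_f1a348_lc.UP.TPQ8
import Pool.Agent.P.MP_f1a348_lc.UP.TPREF
import Pool.Agent.P.MP_f1a348_lc.UP.TQB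
import Pool.Agent.P.MP_f1a348_lc.UP.TQBFS
import Pool.Agent.P.MP_f1a348_lc.UP.TQCAP
import Pool.Agent.P.MP_f1a348_lc.UP.TQCF
import Pool.Agent.P.MP_f1a348_lc.UP.TQCORE
import Pool.Agent.P.MP_f1a348_lc.UP.TQDEC
import Pool.Agent.P.MP_f1a348_lc.UP.TQE23
import Pool.Agent.P.MP_f1a348_lc.UP.TQE5
import Pool.Agent.P.MP_f1a348_lc.UP.TQENG
import Pool.Agent.P.MP_f1a348_lc.UP.TQFIN
import Pool.Agent.P.MP_f1a348_lc.UP.TQFIND
import Pool.Agent.P.MP_f1a348_lc.UP.TQFIX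
import Pool.Agent.P.MP_f1a348_lc.UP.TQGEN
import Pool.Agent.P.MP_f1a348_lc.UP.TQINIT
import Pool.Agent.P.MP_f1a348_lc.UP.TQLEAF
import Pool.Agent.P.MP_f1a348_lc.UP.TQMI
import Pool.Agent.P.MP_f1a348_lc.UP.TQNCL
import Pool.Agent.P.MP_f1a348_lc.UP.TQPOT
import Pool.Agent.P.MP_f1a348_lc.UP.TQRA
import Pool.Agent.P.MP_f1a348_lc.UP.TQRD
import Pool.Agent.P.MP_f1a348_lc.UP.TQRE
import Pool.Agent.P.MP_f1a348_lc.UP.TQRED
import Pool.Agent.P.MP_f1a348_lc.UP.TQREPS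
import Pool.Agent.P.MP_f1a348_lc.UP.TQST
import Pool.Agent.P.MP_f1a348_lc.UP.TQSUBS
import Pool.Agent.P.MP_f1a348_lc.UP.TQTREE
import Pool.Agent.P.MP_f1a348_lc.UP.TQTRN
import Pool.Agent.P.MP_f1a348_lc.UP.TQTRY
import Pool.Agent.P.MP_f1a348_lc.UP.TQUO
import Pool.Agent.P.MP_f1a348_lc.UP.TQXQ
import Pool.Agent.P.MP_f1a348_lc.UP.TR4
import Pool.Agent.P.MP_f1a348_lc.UP.TRA
import Pool.Agent.P.MP_f1a348_lc.UP.TRAD
import Pool.Agent.P.MP_f1a348_lc.UP.TRB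
import Pool.Agent.P.MP_f1a348_lc.UP.TRD
import Pool.Agent.P.MP_f1a348_lc.UP.TRE
import Pool.Agent.P.MP_f1a348_lc.UP.TREFX
import Pool.Agent.P.MP_f1a348_lc.UP.TREG
import Pool.Agent.P.MP_f1a348_lc.UP.TRES
import Pool.Agent.P.MP_f1a348_lc.UP.TRESET
import Pool.Agent.P.MP_f1a348_lc.UP.TROOT
import Pool.Agent.P.MP_f1a348_lc.UP.TSCH
import Pool.Agent.P.MP_f1a348_lc.UP.TSEC
import Pool.Agent.P.MP_f1a348_lc.UP.TSEM0
import Pool.Agent.P.MP_f1a348_lc.UP.TSEMI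
import Pool.Agent.P.MP_f1a348_lc.UP.TSO1
import Pool.Agent.P.MP_f1a348_lc.UP.TSOL
import Pool.Agent.P.MP_f1a348_lc.UP.TSOLV
import Pool.Agent.P.MP_f1a348_lc.UP.TSPAN
import Pool.Agent.P.MP_f1a348_lc.UP.TSPL1
import Pool.Agent.P.MP_f1a348_lc.UP.TSPL2
import Pool.Agent.P.MP_f1a348_lc.UP.TSSM
import Pool.Agent.P.MP_f1a348_lc.UP.TSTAK
import Pool.Agent.P.MP_f1a348_lc.UP.TSTCF
import Pool.Agent.P.MP_f1a348_lc.UP.TSTCK
import Pool.Agent.P.MP_f1a348_lc.UP.TSTEPK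
import Pool.Agent.P.MP_f1a348_lc.UP.TTREE
import Pool.Agent.P.MP_f1a348_lc.UP.TTSL
import Pool.Agent.P.MP_f1a348_lc.UP.TUNC
import Pool.Agent.P.MP_f1a348_lc.UP.TUNG
import Pool.Agent.P.MP_f1a348_lc.UP.TUNI
import Pool.Agent.P.MP_f1a348_lc.UP.TW
import Pool.Agent.P.MP_f1a348_lc.UP.TW1
import Pool.Agent.P.MP_f1a348_lc.UP.TW2
import Pool.Agent.P.MP_f1a348_lc.UP.TWC
import Pool.Agent.P.MP_f1a348_lc.UP.TWM
import Pool.Agent.P.MP_f1a348_lc.UP.TWP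
import Pool.Agent.P.MP_f1a348_lc.UP.PMAll

/-!
Project UP: all statements hold.
-/

namespace Pool.Agent.P.MP_f1a348_lc.UP

set_option linter.unusedVariables false
set_option linter.unusedSectionVars false

variable (p n : ℕ) [Fact p.Prime] (hp : 5 ≤ p)
include n hp

theorem a_SOL : S_SOL := s_SOL
theorem a_KL : S_KL := s_KL
theorem a_OP : S_OP p := s_OP p (a_SOL p n hp)
theorem a_KID : S_KID p := s_KID p (a_SOL p n hp)
theorem a_ENV : S_ENV p n := s_ENV p n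
theorem a_SEC : S_SEC p n := s_SEC p n
theorem a_RB : S_RB p n := s_RB p n (a_ENV p n hp) (a_SEC p n hp)
theorem a_LC : S_LC p n := s_LC p n (a_ENV p n hp) (a_SEC p n hp)
theorem a_LCS : S_LCS p n := s_LCS p n (a_LC p n hp)
theorem a_RAD : S_RAD p n := s_RAD p n (a_ENV p n hp)
theorem a_REFX : S_REFX p n := s_REFX p n (pm_all p hp n)
theorem a_CFX : S_CFX p n := s_CFX p n (pm_all p hp n) (a_ENV p n hp) (a_SEC p n hp) (a_RAD p n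
  hp) (a_REFX p n hp)
theorem a_BLK : S_BLK p n := s_BLK p n (pm_all p hp n) (a_ENV p n hp) (a_SEC p n hp) (a_RAD p n
  hp)
theorem a_JH : S_JH p n := s_JH p n (a_SEC p n hp) (a_BLK p n hp)
theorem a_UNI : S_UNI p n := s_UNI p n (a_ENV p n hp) (a_SEC p n hp)
theorem a_STCF : S_STCF p n := s_STCF p n (a_ENV p n hp) (a_RAD p n hp) (a_BLK p n hp) (a_JH p n
  hp) (a_UNI p n hp)
theorem a_LOW : S_LOW p n := s_LOW p n (a_LC p n hp)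
theorem a_COC : S_COC p n := s_COC p n (a_ENV p n hp) (a_SEC p n hp) (a_RAD p n hp) (a_LC p n hp)
  (a_LCS p n hp) (a_LOW p n hp)
theorem a_QB : S_QB p n := s_QB p n (a_SOL p n hp) (a_ENV p n hp) (a_SEC p n hp) (a_LC p n hp)
  (a_COC p n hp)
theorem a_WP : S_WP p n := s_WP p n (pm_all p hp n)
theorem a_QUO : S_QUO p n := s_QUO p n (pm_all p hp n)
theorem a_PHI : S_PHI p n := s_PHI p n (pm_all p hp n) (a_REFX p n hp) (a_QUO p n hp)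
theorem a_ACQ : S_ACQ := s_ACQ
theorem a_CRX : S_CRX p n := s_CRX p n (pm_all p hp n)
theorem a_PHB : S_PHB p n := s_PHB p n (pm_all p hp n)
theorem a_GQ0 : S_GQ0 p n := s_GQ0 p n (pm_all p hp n) (a_ACQ p n hp) (a_CRX p n hp) (a_PHB p n
  hp)
theorem a_GQ : S_GQ p n := s_GQ p n (pm_all p hp n) (a_GQ0 p n hp) (a_REFX p n hp) (a_PHI p n hp)
theorem a_PHM : S_PHM p n := s_PHM p n (pm_all p hp n) (a_GQ p n hp) (a_REFX p n hp) (a_PHI p n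
  hp)
theorem a_GABC : S_GABC p n := s_GABC p n (pm_all p hp n) (a_GQ p n hp)
theorem a_TB : TB p n := ⟨pm_all p hp n, a_SOL p n hp, a_KL p n hp, a_OP p n hp, a_KID p n hp,
  a_ENV p n hp, a_SEC p n hp, a_RB p n hp, a_LC p n hp, a_LCS p n hp, a_RAD p n hp, a_CFX p n hp,
  a_BLK p n hp, a_JH p n hp, a_UNI p n hp, a_STCF p n hp, a_LOW p n hp, a_COC p n hp, a_QB p n hp,
  a_WP p n hp, a_PHI p n hp, a_PHM p n hp, a_PHB p n hp, a_GABC p n hp⟩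
theorem a_SSM : S_SSM p n := s_SSM p n (a_ENV p n hp)
theorem a_W1 : PX.S_W1 p := s_W1 p hp
theorem a_W2 : PX.S_W2 p := s_W2 p hp (a_W1 p n hp)
theorem a_W : PX.S_W p := s_W p hp (a_W2 p n hp)
theorem a_WC : S_WC p n := s_WC p n (pm_all p hp n) (a_W p n hp) (a_ENV p n hp)
theorem a_REG : S_REG p n := s_REG p n
theorem a_SPAN : S_SPAN p n := s_SPAN p n (pm_all p hp n) (a_REG p n hp)
theorem a_GENCF : S_GENCF p n := s_GENCF p n (a_TB p n hp) (a_SPAN p n hp)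
theorem a_COREF : S_COREF p n := s_COREF p n (a_TB p n hp) (a_GENCF p n hp)
theorem a_AUT : S_AUT := s_AUT
theorem a_AUTQ : S_AUTQ p n := s_AUTQ p n (a_AUT p n hp)
theorem a_PERM : S_PERM p n := s_PERM p n (a_TB p n hp) (a_AUTQ p n hp)
theorem a_TREE : S_TREE p n := s_TREE p n (a_TB p n hp) (a_PERM p n hp)
theorem a_NPG : S_NPG p := s_NPG p
theorem a_CORE : S_CORE p n := s_CORE p n (a_TB p n hp) (a_PERM p n hp) (a_TREE p n hp) (a_NPG p n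
  hp)
theorem a_LOCF : S_LOCF p n := s_LOCF p n (a_TB p n hp)
theorem a_LOCP : S_LOCP p n := s_LOCP p n (a_TB p n hp)
theorem a_CLF : S_CLF p n := s_CLF p n
theorem a_CLIFF : S_CLIFF p n := s_CLIFF p n (a_TB p n hp) (a_CLF p n hp) (a_SSM p n hp) (a_LOCF p
  n hp)
theorem a_LOCU : S_LOCU p n := s_LOCU p n (a_TB p n hp) (a_CLIFF p n hp)
theorem a_LOCST : S_LOCST p n := s_LOCST p n (a_TB p n hp) (a_CLIFF p n hp) (a_GENCF p n hp)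
theorem a_PREF : S_PREF p n := s_PREF p n (a_TB p n hp) (a_WC p n hp) (a_CLIFF p n hp)
theorem a_LEAF1 : S_LEAF1 p n := s_LEAF1 p n (a_TB p n hp)
theorem a_GSL : S_GSL p n := s_GSL p n (a_TB p n hp) (a_CLIFF p n hp) (a_SSM p n hp)
theorem a_TM : TM p n := ⟨a_TB p n hp, a_SSM p n hp, a_WC p n hp, a_GENCF p n hp, a_COREF p n hp,
  a_CORE p n hp, a_LOCF p n hp, a_LOCP p n hp, a_CLIFF p n hp, a_LOCU p n hp, a_LOCST p n hp,
  a_PREF p n hp, a_LEAF1 p n hp, a_GSL p n hp⟩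
theorem a_QRED : S_QRED p n := s_QRED p n
theorem a_QBFS : S_QBFS p n := s_QBFS p n (a_QRED p n hp)
theorem a_QSUBS : S_QSUBS p n := s_QSUBS p n (a_QRED p n hp) (a_QBFS p n hp)
theorem a_QCOS : S_QCOS p n := s_QCOS p n (a_QRED p n hp) (a_QBFS p n hp)
theorem a_QFIX : S_QFIX p n := s_QFIX p n (a_QRED p n hp) (a_QSUBS p n hp) (a_QCOS p n hp)
theorem a_QCAP : S_QCAP p n := s_QCAP p n (a_KL p n hp) (a_QSUBS p n hp) (a_QFIX p n hp)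
theorem a_QNCL : S_QNCL p n := s_QNCL p n (a_SOL p n hp) (a_OP p n hp) (a_ENV p n hp) (a_QRED p n
  hp)
theorem a_QENVP : S_QENVP p n := s_QENVP p n (a_ENV p n hp)
theorem a_QCF : S_QCF p n := s_QCF p n (a_TB p n hp)
theorem a_QMI : S_QMI p n := s_QMI p n (a_TB p n hp) (a_QFIX p n hp)
theorem a_QTREE : S_QTREE p n := s_QTREE p n (a_TB p n hp) (a_PERM p n hp) (a_QBFS p n hp)
  (a_QSUBS p n hp) (a_QMI p n hp)
theorem a_QCORE : S_QCORE p n := s_QCORE p n (a_TM p n hp) (a_QRED p n hp) (a_QNCL p n hp)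
  (a_QENVP p n hp) (a_QCF p n hp) (a_QMI p n hp) (a_QTREE p n hp)
theorem a_RP : S_RP p n := s_RP p n (a_TM p n hp)
theorem a_QPOT : S_QPOT p n := s_QPOT p n (pm_all p hp n) (a_PHI p n hp)
theorem a_WM : S_WM p n := s_WM p n (pm_all p hp n) (a_W p n hp)
theorem a_QFIND : S_QFIND p n := s_QFIND p n (pm_all p hp n) (a_WM p n hp)
theorem a_QGEN : S_QGEN p n := s_QGEN p n (pm_all p hp n) (a_QFIND p n hp)
theorem a_QST : S_QST p n := s_QST p n (a_TM p n hp) (a_RP p n hp) (a_QPOT p n hp) (a_QGEN p n hp)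
  (a_QENVP p n hp) (a_QFIX p n hp)
theorem a_TP : TP p n := ⟨a_QRED p n hp, a_QBFS p n hp, a_QSUBS p n hp, a_QCOS p n hp, a_QFIX p n
  hp, a_QCAP p n hp, a_QNCL p n hp, a_QENVP p n hp, a_QCF p n hp, a_QCORE p n hp, a_QST p n hp⟩
theorem a_ROOT : S_ROOT p n := s_ROOT p n (a_TM p n hp)
theorem a_SZ : S_SZ p n := s_SZ p n (a_TB p n hp)
theorem a_QDEC : S_QDEC p n := s_QDEC p n (a_QRED p n hp)
theorem a_UNT : S_UNT p n := s_UNT p n (a_TM p n hp)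
theorem a_REL : S_REL p n := s_REL p n (a_TB p n hp)
theorem a_HOMB : S_HOMB p n := s_HOMB p n
theorem a_AUTC : S_AUTC p n := s_AUTC p n (a_TM p n hp) (a_AUTQ p n hp) (a_HOMB p n hp)
theorem a_STAK : S_STAK p n := s_STAK p n (pm_all p hp n) (a_WP p n hp)
theorem a_STCK : S_STCK p n := s_STCK p n (pm_all p hp n) (a_WP p n hp)
theorem a_STEPK : S_STEPK p n := s_STEPK p n (pm_all p hp n) (a_STAK p n hp) (a_STCK p n hp) (a_WP
  p n hp)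
theorem a_HCK : S_HCK p n := s_HCK p n (pm_all p hp n)
theorem a_NA23 : S_NA23 p n := s_NA23 p n (pm_all p hp n)
theorem a_LIFK : S_LIFK p n := s_LIFK p n (pm_all p hp n) (a_STEPK p n hp) (a_HCK p n hp) (a_NA23
  p n hp)
theorem a_SEM0 : S_SEM0 p n := s_SEM0 p n (pm_all p hp n)
theorem a_LT0 : S_LT0 p n := s_LT0 p n (pm_all p hp n) (a_SEM0 p n hp)
theorem a_LIFTJ : S_LIFTJ p n := s_LIFTJ p n (a_TB p n hp) (a_GENCF p n hp) (a_LOCST p n hp)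
  (a_PREF p n hp) (a_LIFK p n hp) (a_LT0 p n hp)
theorem a_UNG : S_UNG p n := s_UNG p n (a_TM p n hp) (a_REL p n hp) (a_AUTC p n hp) (a_LIFTJ p n
  hp)
theorem a_QOUT : S_QOUT p n := s_QOUT p n (a_TM p n hp) (a_TP p n hp)
theorem a_QFIN : S_QFIN p n := s_QFIN p n (a_TM p n hp) (a_TP p n hp) (a_UNT p n hp) (a_UNG p n
  hp) (a_AUTC p n hp) (a_QOUT p n hp)
theorem a_RESET : S_RESET p n := s_RESET p n (a_TB p n hp)
theorem a_SPL1 : S_SPL1 p n := s_SPL1 p n (a_TB p n hp) (a_LOCP p n hp)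
theorem a_SPL2 : S_SPL2 p n := s_SPL2 p n (a_TB p n hp)
theorem a_ONE : S_ONE p n := s_ONE p n (a_TB p n hp) (a_SPL1 p n hp) (a_SPL2 p n hp)
theorem a_UNC : S_UNC p n := s_UNC p n (a_TM p n hp)
theorem a_LEAF : S_LEAF p n := s_LEAF p n (a_TM p n hp) (a_UNC p n hp)
theorem a_QLEAF : S_QLEAF p n := s_QLEAF p n (a_TM p n hp) (a_TP p n hp)
theorem a_RD : S_RD p n := s_RD p n (a_TM p n hp)
theorem a_PAYB : S_PAYB p n := s_PAYB p n (a_TB p n hp)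
theorem a_FLD : PX.S_FLD p := s_FLD p
theorem a_FRB : S_FRB p := s_FRB p
theorem a_GAL : PX.S_GAL p := s_GAL p (a_FLD p n hp) (a_FRB p n hp)
theorem a_ACW : S_ACW p := s_ACW p
theorem a_CYB : S_CYB p := s_CYB p
theorem a_SCH : S_SCH p := s_SCH p
theorem a_N0 : S_N0 p := s_N0 p (a_ACW p n hp) (a_CYB p n hp) (a_SCH p n hp)
theorem a_SOLV : PX.S_SOLV p := s_SOLV p (a_FLD p n hp) (a_FRB p n hp) (a_SCH p n hp)
theorem a_SO1 : S_SO1 p := s_SO1 p hp (a_GAL p n hp) (a_SOLV p n hp) (a_SCH p n hp)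
theorem a_KIDS : S_KIDS p := s_KIDS p hp (a_SOL p n hp) (a_FLD p n hp) (a_GAL p n hp) (a_N0 p n
  hp) (a_SCH p n hp) (a_SO1 p n hp)
theorem a_TSL : S_TSL p n := s_TSL p n (a_TM p n hp) (a_RD p n hp) (a_PAYB p n hp) (a_KIDS p n hp)
theorem a_PAYC : S_PAYC p n := s_PAYC p n (a_TB p n hp) (a_FLD p n hp) (a_FRB p n hp)
theorem a_CYC : S_CYC p n := s_CYC p n (a_TB p n hp) (a_CLIFF p n hp) (a_GSL p n hp) (a_HOMB p n
  hp) (a_ACW p n hp) (a_CYB p n hp)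
theorem a_RES : S_RES p n := s_RES p n (a_TM p n hp) (a_PAYB p n hp) (a_PAYC p n hp) (a_CYC p n
  hp)
theorem a_RA : S_RA p n := s_RA p n (a_TM p n hp)
theorem a_QRA : S_QRA p n := s_QRA p n (a_TM p n hp) (a_TP p n hp) (a_RA p n hp)
theorem a_QTRY : S_QTRY p n := s_QTRY p n (a_TM p n hp) (a_TP p n hp) (a_RP p n hp)
theorem a_QRB : S_QRB p n := s_QRB p n (a_TM p n hp) (a_TP p n hp) (a_QTRY p n hp)
theorem a_QRC : S_QRC p n := s_QRC p n (a_TM p n hp) (a_TP p n hp) (a_QTRY p n hp)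
theorem a_QTRN : S_QTRN p n := s_QTRN p n (a_TB p n hp) (a_QFIX p n hp)
theorem a_QRD : S_QRD p n := s_QRD p n (a_TM p n hp) (a_TP p n hp) (a_RD p n hp) (a_QTRN p n hp)
theorem a_KR : S_KR p n := s_KR p n (a_TB p n hp) (a_LOCU p n hp)
theorem a_RE : S_RE p n := s_RE p n (a_TM p n hp) (a_KR p n hp)
theorem a_QE23 : S_QE23 p n := s_QE23 p n (pm_all p hp n)
theorem a_QE5 : S_QE5 p n := s_QE5 p n (pm_all p hp n)
theorem a_QXQ : S_QXQ p n := s_QXQ p n (pm_all p hp n) (a_QE23 p n hp) (a_QE5 p n hp)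
theorem a_NA5 : S_NA5 p n := s_NA5 p n (pm_all p hp n)
theorem a_HI5 : S_HI5 p n := s_HI5 p n (pm_all p hp n)
theorem a_NATK : S_NATK p n := s_NATK p n (pm_all p hp n) (a_NA23 p n hp) (a_NA5 p n hp) (a_HI5 p
  n hp)
theorem a_QREPS : S_QREPS p n := s_QREPS p n (pm_all p hp n) (a_QXQ p n hp) (a_QFIND p n hp)
  (a_NATK p n hp)
theorem a_PQ1 : S_PQ1 p n := s_PQ1 p n (pm_all p hp n) (a_GQ p n hp) (a_GABC p n hp)
theorem a_GRA : S_GRA p n := s_GRA p n (pm_all p hp n)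
theorem a_R4 : S_R4 p n := s_R4 p n (pm_all p hp n)
theorem a_PQ4 : S_PQ4 p n := s_PQ4 p n (pm_all p hp n) (a_GRA p n hp) (a_R4 p n hp)
theorem a_PQ5 : S_PQ5 p n := s_PQ5 p n (pm_all p hp n)
theorem a_OPP : PX.S_OPP p := s_OPP p hp
theorem a_PQ8 : S_PQ8 p n := s_PQ8 p n (pm_all p hp n) (a_GRA p n hp) (a_R4 p n hp) (a_OPP p n hp)
theorem a_PQ3 : S_PQ3 p n := s_PQ3 p n (pm_all p hp n) (a_GQ p n hp) (a_PQ4 p n hp) (a_PQ5 p n hp)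
  (a_PQ8 p n hp)
theorem a_PQ : S_PQ p n := s_PQ p n (pm_all p hp n) (a_PQ1 p n hp) (a_PQ3 p n hp) (a_GABC p n hp)
theorem a_ENG : S_ENG p n := s_ENG p n (pm_all p hp n) (a_STEPK p n hp) (a_HCK p n hp) (a_PQ p n
  hp) (a_GABC p n hp)
theorem a_SEMI : S_SEMI p n := s_SEMI p n (pm_all p hp n) (a_NATK p n hp) (a_SEM0 p n hp)
theorem a_QENG : S_QENG p n := s_QENG p n (pm_all p hp n) (a_QPOT p n hp) (a_QE23 p n hp) (a_QXQ p
  n hp) (a_QREPS p n hp) (a_ENG p n hp) (a_SEMI p n hp)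
theorem a_QRE : S_QRE p n := s_QRE p n (a_TM p n hp) (a_TP p n hp) (a_KR p n hp) (a_RE p n hp)
  (a_LOCU p n hp) (a_QENG p n hp) (a_QLEAF p n hp)
theorem a_QBR : S_QBR p n := s_QBR p n (a_TSL p n hp) (a_RES p n hp) (a_QRA p n hp) (a_QRB p n hp)
  (a_QRC p n hp) (a_QRD p n hp) (a_QRE p n hp)
theorem a_QINIT : S_QINIT p n := s_QINIT p n (a_TM p n hp) (a_TP p n hp) (a_RESET p n hp) (a_ONE p
  n hp) (a_LEAF p n hp) (a_QDEC p n hp) (a_QLEAF p n hp) (a_QBR p n hp) (a_QOUT p n hp)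
theorem a_LOOPS : S_LOOPS p n := s_LOOPS p n (a_TM p n hp) (a_SPL1 p n hp) (a_SPL2 p n hp) (a_SZ p
  n hp) (a_QDEC p n hp) (a_QFIN p n hp)
theorem a_JOIN : S_JOIN p n := s_JOIN p n (a_TM p n hp)
theorem a_LOOPB : S_LOOPB p n := s_LOOPB p n (a_TM p n hp) (a_JOIN p n hp) (a_QDEC p n hp) (a_QFIN
  p n hp)
theorem a_MAIN : S_MAIN p n := s_MAIN p n (a_TM p n hp) (a_QDEC p n hp) (a_QFIN p n hp) (a_QINIT p
  n hp) (a_LOOPS p n hp) (a_LOOPB p n hp)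
theorem a_MACH : S_MACH := s_MACH
theorem a_ISO : S_ISO p n := s_ISO p n (a_TM p n hp) (a_TP p n hp) (a_ROOT p n hp) (a_SZ p n hp)
  (a_QGEN p n hp) (a_QDEC p n hp) (a_MAIN p n hp) (a_MACH p n hp)

end Pool.Agent.P.MP_f1a348_lc.UP
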