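import Pool.Agent.P.MP_f1a348_lc.PG.PLin
import Pool.Agent.P.MP_f1a348_lc.UP.EBase

/-!
Project UP: contexts with a budget `p ^ O(n)`.
-/

namespace Pool.Agent.P.MP_f1a348_lc.UP

open Matrix Module Pool.Agent.P.MP_f1a348_lc.PG

set_option linter.unusedSectionVars false

/-- the budget -/
def bud2 (n : ℕ) : ℕ := 30000 * (2 * n + 1)

structure Ok (p n : ℕ) (c : Cx) : Prop where
  hp : pp c = p
  hM : mM c = 2 * n + 1
  pad : p ^ bud2 n ≤ c.2.2.length

/-- the side `s` is well formed for the labels `l` -/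
abbrev Gd (p n : ℕ) (l : V) (s : Sd) : Prop := Good (lab n l) (sdD p n s)

variable {p n : ℕ} {c : Cx}

protected theorem Ok.pow_le (h : Ok p n c) {k : ℕ} (hk : k ≤ bud2 n) : p ^ k ≤ c.2.2.length :=
  (Nat.pow_le_pow_right (by rw [← h.hp]; exact Nat.succ_pos _) hk).trans h.pad

protected theorem Ok.pow_le' (h : Ok p n c) {k : ℕ} (hk : k ≤ 2 * (2 * n + 1)) :
    p ^ k ≤ c.2.2.length :=
  h.pow_le (hk.trans (Nat.mul_le_mul_right _ (by norm_num)))

protected theorem Ok.len1 (h : Ok p n c) : (u1 c).length = 2 * n + 1 := h.hM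

protected theorem Ok.len2 (h : Ok p n c) : (u2 c).length = (2 * n + 1) * (2 * n + 1) := by
  rw [u2, length_mulU, h.len1]

protected theorem Ok.len3 (h : Ok p n c) : (u3 c).length = top n := by
  rw [u3, length_mulU, h.len2, h.len1, top]

protected theorem Ok.lenh (h : Ok p n c) : (uh c).length = 2 * (2 * n + 1) := by
  rw [uh, List.length_append, h.len1]; omega

protected theorem Ok.cz (h : Ok p n c) : cz c = n := by rw [PG.cz, h.hM]; omega

protected theorem Ok.lenTT (h : Ok p n c) : (uTT c).length = tt n := by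
  rw [uTT, length_mulU, List.length_cons (a := ()) (as := unL _), length_unL, h.hM,
    Nat.size_eq_bits_len]; rfl

protected theorem Ok.rv (h : Ok p n c) (α : Ix n) : rv c α.val = α.rev.val := by
  rw [PG.rv, h.hM, Fin.val_rev]; omega

protected theorem Ok.co (h : Ok p n c) (m : ℕ) (k : Fin 3 → Ix n) : co c m (enc3 k) = (k (sl m)).val := by
  have h3 : m % 3 = 0 ∨ m % 3 = 1 ∨ m % 3 = 2 := by omega
  rw [PG.co, h.hM, enc3, div_enc, div_enc, mod_enc, mod_enc]
  rcases h3 with e | e | e <;> simp [sl, e]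

protected theorem Ok.dg3 (h : Ok p n c) (k : Fin 3 → Ix n) :
    dg3 c (k 0).val (k 1).val (k 2).val = enc3 k := by rw [PG.dg3, h.hM, enc3]

protected theorem Ok.mV_apply (h : Ok p n c) (x : V) (α β : Ix n) :
    mV p n x α β = ((ent c x α.val β.val : ℕ) : ZMod p) := by rw [ent, h.hM]; rfl

protected theorem Ok.d1 (h : Ok p n c) : Dec (vec p n) (u1 c).length := h.len1 ▸ dec_vec

protected theorem Ok.d2 (h : Ok p n c) : Dec (mat p n) (u2 c).length := h.len2 ▸ dec_mat

protected theorem Ok.d3 (h : Ok p n c) : Dec (frm p n) (u3 c).length := h.len3 ▸ dec_frm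

protected theorem Ok.dh (h : Ok p n c) : Dec (hh p n) (uh c).length := h.lenh ▸ dec_hh

protected theorem Ok.dt (h : Ok p n c) (uk : U) : Dec (tup p n uk.length) (mulU uk (u1 c)).length := by
  rw [length_mulU, h.len1]; exact dec_tup _

protected theorem Ok.csg (h : Ok p n c) (s : Sd) (a b : Ix n) :
    (csg c s a.val b.val).map (mV p n) = (sdD p n s).Cs a b := by rw [PG.csg, h.hM]; rfl

end Pool.Agent.P.MP_f1a348_lc.UP
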