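import Pool.Agent.P.MP_f1a348_lc.PG.QTab
import Pool.Agent.P.MP_f1a348_lc.PG.QCoord
import Pool.Agent.P.MP_f1a348_lc.PG.PT
import Pool.Agent.P.MP_f1a348_lc.UP.PMAll
import Pool.Agent.P.MP_f1a348_lc.UP.OPDefs
import Pool.Agent.Lib.Helper47.Pad

/-!
Project UP: from an isomorphism test for forms to a machine for groups.
-/

namespace Pool.Agent.P.MP_f1a348_lc.UP

open Matrix Module Pool.Agent.P.MP_f1a348_lc.PG Pool.Agent.Lib.Helper47
open scoped commutatorElement

/-- the forms that are supported like commutator tensors -/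
abbrev Wt0 (p n : ℕ) : Submodule (ZMod p) (Frm p n) :=
  Wt (l0 n) (key (l0 n) ![Fin.last _, Fin.last _, 0])

/-- `iso` decides isomorphism of forms when the budget is at least `p ^ (K n)` -/
def IsoSpec (K : ℕ) (iso : Cx → V → V → Bool) : Prop :=
  ∀ (p n : ℕ) [Fact p.Prime], 5 ≤ p → 0 < n → ∀ (c : Cx) (T T' : V), pp c = p →
    mM c = 2 * n + 1 → p ^ (K * n) ≤ c.2.2.length → fV p n T ∈ Wt0 p n → fV p n T' ∈ Wt0 p n →
    (iso c T T' = true ↔ ∃ ψ, Par (l0 n) ψ ∧ pull1 ψ (fV p n T') = fV p n T)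

def mainU (iso : Cx → V → V → Bool) (pad : U) (G G' : Tb) : Bool :=
  G.1.length == 1 || iso (cxOf pad G) (tensP (cxOf pad G) G) (tensP (cxOf pad G) G')

def powU (u : U) : ℕ → U
  | 0 => [()]
  | k + 1 => mulU (powU u k) u

def ordN (x : List Bool) : ℕ :=
  (List.range x.length).countP (fun m => Nat.ble (2 * ((m + 1) * (m + 1) * (m + 1))) x.length)

open Classical in
noncomputable def tbits {G : Type} [Group G] {N : ℕ} (e : Fin N ≃ G) : List Bool :=
  List.ofFn fun x : Fin (N * N * N) => decide (e x.divNat.divNat * e x.divNat.modNat = e x.modNat)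

namespace Finy

set_option linter.unusedSectionVars false

variable {p : ℕ} [Fact p.Prime]

theorem tens_mem {G : Type} [Group G] {n : ℕ} (hn : 0 < n) (κ : G ≃ (Fin n → ZMod p)) :
    tens κ ∈ Wt0 p n := fun i hi => dif_neg fun h => hi (by
  have e0 : ¬ (2 * n < n) := by omega
  have e1 : ¬ (2 * n = n) := by omega
  simp only [key, l0, Matrix.cons_val_zero, Matrix.cons_val_one, Matrix.cons_val, Fin.val_last,
    Fin.val_zero, e0, e1, hn, if_true, if_false, h.2.2, h.1.ne', h.2.1.ne', h.1.le.not_gt,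
    h.2.1.le.not_gt])

theorem tensP {A : Type} [Group A] {N n : ℕ} {e : Fin N ≃ A} {G : Tb} (h : Tbl e G)
    (hb : S_BAER p) (hA : Cl2 p A) {c : Cx} (h1 : pp c = p) (h2 : mM c = 2 * n + 1)
    (hn : (coords G (List.range p)).1.length = n) :
    ∃ κ : A ≃ (Fin n → ZMod p), Coord κ ∧ fV p n (PG.tensP c G) = tens κ := by
  obtain ⟨X, _, _, β, hβ1, hβ2⟩ := exists_module hb hA
  have hp0 : 0 < p := (Fact.out : p.Prime).pos
  have β1 : β 1 = 0 := by simpa using hβ2 1 0
  obtain ⟨κ0, k1, k2⟩ := coords_spec (p := p) (e.trans β) h.els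
    (by rw [h.tone, ← β1]; simp)
    (fun a b k hk => by
      rw [h.tpow a hk.le, h.tbs hp0, Equiv.trans_apply, Equiv.trans_apply, ← hβ2, ← hβ1]
      simp) hn
  refine ⟨β.trans κ0.toEquiv, fun x y => ?_, ?_⟩
  · simp [hβ1]
  have ok : PG.Ok p n (c.1, c.2.1, List.replicate (p ^ bud n) ()) := ⟨h1, h2, by simp⟩
  have hco : ∀ (m : ℕ) (k : Fin 3 → Ix n), co c m (enc3 k) = (k (sl m)).val := ok.co
  have hcz : cz c = n := ok.cz
  have hd : Dec (frm p n) (u3 c).length := ok.d3
  funext k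
  rw [PG.tensP, tensQ, fV, dv_tab h1 hd, frm_apply, hco, hco, hco, hcz, digs_eq, h1, tens]
  change ((bif Nat.blt n (k 0).val && Nat.blt n (k 1).val && Nat.blt (k 2).val n then _
    else 0 : ℕ) : ZMod p) = _
  split_ifs with hk
  · have e0 : sl 0 = 0 := rfl
    have e1 : sl 1 = 1 := rfl
    have e2 : sl 2 = 2 := rfl
    have b0 := (k 0).2
    have b1 := (k 1).2
    rw [Nat.blt_eq.mpr hk.1, Nat.blt_eq.mpr hk.2.1, Nat.blt_eq.mpr hk.2.2, Bool.and_self, Bool.and_self,
      cond_true, e0, e1, e2, k1 _ (by omega), k1 _ (by omega), h.tcom]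
    obtain ⟨v, hv, hv'⟩ := k2 (e.symm ⁅e ((e.trans β).symm (κ0.symm (un1 ((k 0).val - n - 1)))),
      e ((e.trans β).symm (κ0.symm (un1 ((k 1).val - n - 1))))⁆)
    rw [hv, Option.getD_some]
    refine (hv' ⟨n - 1 - (k 2).val, by omega⟩).trans ?_
    simp
  · have : (Nat.blt n (k 0).val && Nat.blt n (k 1).val && Nat.blt (k 2).val n) = false := by
      rw [← Bool.not_eq_true, Bool.and_eq_true, Bool.and_eq_true, Nat.blt_eq, Nat.blt_eq,
        Nat.blt_eq, and_assoc]
      exact hk
    rw [this, cond_false, Nat.cast_zero]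

theorem spec {K : ℕ} {iso : Cx → V → V → Bool} (hi : IsoSpec K iso) (h5 : 5 ≤ p) {A A' : Type}
    [Group A] [Group A'] {N : ℕ} {e : Fin N ≃ A} {e' : Fin N ≃ A'} {G G' : Tb} (h : Tbl e G)
    (h' : Tbl e' G') (hA : Cl2 p A) (hA' : Cl2 p A') {pad : U} (hp : N ^ K ≤ pad.length) :
    mainU iso pad G G' = true ↔ Nonempty (A ≃* A') := by
  obtain ⟨k, hk⟩ := card_eq e hA
  have m := pm_all p h5
  have hp2 : 2 ≤ p := (Fact.out : p.Prime).two_le
  have hl : G.1.length = N := by rw [h.els, List.length_range]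
  by_cases hN : N = 1
  · subst hN
    have : Unique A := e.symm.unique
    have : Unique A' := e'.symm.unique
    exact ⟨fun _ => ⟨MulEquiv.ofUnique⟩, fun _ => by simp [mainU, hl]⟩
  have hk0 : 0 < k := Nat.pos_of_ne_zero fun h0 => hN (by rw [hk, h0, pow_zero])
  have hu : (upOf G.1).length + 1 = p := by rw [h.els, hk]; exact length_upOf hk0
  have hr : ran (() :: upOf G.1) = List.range p := by rw [ran_eq, List.length_cons, hu]
  have card : ∀ {B : Type} {n : ℕ}, (Fin N ≃ B) → (B ≃ (Fin n → ZMod p)) → p ^ n = N :=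
    fun {B n} f κ => by simpa using (Fintype.card_congr (f.trans κ)).symm
  set n := (coords G (List.range p)).1.length with hn
  have h1 : pp (cxOf pad G) = p := hu
  have h2 : mM (cxOf pad G) = 2 * n + 1 := by
    simp only [mM, cxOf, hr, List.length_append, List.length_cons, length_unL]
    omega
  obtain ⟨κ, c1, c2⟩ := tensP h (m 0).baer hA h1 h2 rfl
  obtain ⟨κ1, -, -⟩ := tensP h' (m 0).baer hA' (c := (upOf G.1,
    List.replicate (2 * (coords G' (List.range p)).1.length + 1) (), pad)) hu (by simp [mM]) rfl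
  have hn' : (coords G' (List.range p)).1.length = n :=
    Nat.pow_right_injective hp2 ((card e' κ1).trans (card e κ).symm)
  obtain ⟨κ', c1', c2'⟩ := tensP h' (m 0).baer hA' h1 h2 hn'
  have hn0 : 0 < n := Nat.pos_of_ne_zero fun h0 => hN (by rw [← card e κ, h0, pow_zero])
  rw [mainU, hl, beq_false_of_ne hN, Bool.false_or, hi p n h5 hn0 _ _ _ h1 h2
    (by rw [pow_mul', card e κ]; exact hp) (c2 ▸ tens_mem hn0 κ) (c2' ▸ tens_mem hn0 κ'), c2, c2']
  exact ((m n).tens A A' κ κ' hA hA' c1 c1').symm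

theorem length_powU (u : U) (k : ℕ) : (powU u k).length = u.length ^ k := by
  induction k with
  | zero => simp [powU]
  | succ k ih => rw [powU, length_mulU, ih, pow_succ]

theorem pt_powU {α : Type} [Enc α] {u : α → U} (h : PT u) (k : ℕ) : PT fun a => powU (u a) k := by
  induction k with
  | zero => exact PT.const [()]
  | succ k ih => exact pt_mulU ih h

theorem pt_ordN : PT ordN := by
  have := PT.rangeLength (PT.id (α := List Bool))
  unfold ordN; fun_prop

theorem pt_range : PT (fun x => List.range (ordN x)) :=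
  PT.range_of_le pt_ordN PT.id (fun x => List.countP_le_length.trans (by simp))

theorem countP_range_lt (n s : ℕ) (hs : s ≤ n) (q : ℕ → Bool) (hq : ∀ i, q i = true ↔ i < s) :
    (List.range n).countP q = s := by
  obtain ⟨m, rfl⟩ := Nat.exists_eq_add_of_le hs
  rw [List.range_add, List.countP_append, List.countP_eq_length.2, List.countP_eq_zero.2]
  · simp
  · intro a ha
    obtain ⟨b, -, rfl⟩ := List.mem_map.1 ha
    rw [hq]; omega
  · intro a ha
    rw [hq]; exact List.mem_range.1 ha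

variable {G H : Type} [Group G] [Group H] {N : ℕ}

theorem length_tbits (e : Fin N ≃ G) : (tbits e).length = N * N * N := List.length_ofFn

theorem idx_lt (a b c : Fin N) : (a * N + b) * N + c < N * N * N := by
  have h1 : a * N + b < N * N := by nlinarith [a.2, b.2]
  nlinarith [c.2]

theorem tbits_getD (e : Fin N ≃ G) (a b c : Fin N) :
    (tbits e).getD ((a * N + b) * N + c) false = true ↔ e a * e b = e c := by
  have d : ∀ (x : ℕ) (y : Fin N), (x * N + y) / N = x ∧ (x * N + y) % N = y := fun x y =>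
    ⟨by rw [Nat.add_comm, Nat.add_mul_div_right _ _ y.pos, Nat.div_eq_of_lt y.2, Nat.zero_add],
      by rw [Nat.add_comm, Nat.add_mul_mod_self_right, Nat.mod_eq_of_lt y.2]⟩
  rw [List.getD_eq_getElem _ _ (by rw [length_tbits]; exact idx_lt a b c)]
  simp only [tbits, List.getElem_ofFn, decide_eq_true_eq, Fin.divNat, Fin.modNat, d, Fin.eta]

theorem length_in (e : Fin N ≃ G) (e' : Fin N ≃ H) :
    (tbits e ++ tbits e').length = 2 * (N * N * N) := by
  rw [List.length_append, length_tbits, length_tbits]; ring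

theorem ordN_eq (e : Fin N ≃ G) (e' : Fin N ≃ H) : ordN (tbits e ++ tbits e') = N := by
  have hN : 0 < N := Fin.pos (e.symm 1)
  rw [ordN, length_in]
  refine countP_range_lt _ _ (by nlinarith [Nat.mul_pos hN hN]) _ (fun i => ?_)
  rw [Nat.ble_eq]
  constructor
  · intro h
    by_contra hc
    have h1 : N < i + 1 := by omega
    have := Nat.mul_lt_mul'' (Nat.mul_lt_mul'' h1 h1) h1
    omega
  · intro h
    have := Nat.mul_le_mul (Nat.mul_le_mul (Nat.succ_le_of_lt h) (Nat.succ_le_of_lt h))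
      (Nat.succ_le_of_lt h)
    simp only [Nat.succ_eq_add_one] at this
    omega

theorem tbl1 (e : Fin N ≃ G) (e' : Fin N ≃ H) : Tbl e (List.range N, tbits e ++ tbits e', 0) :=
  ⟨rfl, fun a b c => by
    dsimp only
    rw [zero_add, List.getD_append _ _ _ _ (by rw [length_tbits]; exact idx_lt a b c), tbits_getD]⟩

theorem tbl2 (e : Fin N ≃ G) (e' : Fin N ≃ H) :
    Tbl e' (List.range N, tbits e ++ tbits e', N * N * N) :=
  ⟨rfl, fun a b c => by
    dsimp only
    rw [List.getD_append_right _ _ _ _ (by rw [length_tbits]; omega), length_tbits,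
      Nat.add_sub_cancel_left, tbits_getD]⟩

end Finy

open Classical Finy in
theorem final {K : ℕ} {iso : Cx → V → V → Bool} (hi : IsoSpec K iso)
    (hPT : PT (fun x : Cx × V × V => iso x.1 x.2.1 x.2.2)) :
    ∃ M : BTM, M.Fin ∧ ∃ C : ℕ, ∀ p : ℕ, p.Prime → 5 ≤ p →
      ∀ (G H : Type) [Group G] [Group H], Cl2 p G → Cl2 p H →
      ∀ (N : ℕ) (e : Fin N ≃ G) (e' : Fin N ≃ H),
        Out M (tbits e ++ tbits e') [decide (Nonempty (G ≃* H))] (C * N ^ C) := by
  have h1 := pt_ordN
  have h2 := pt_range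
  have h3 := pt_powU (pt_unL h2) K
  have h4 : PT (fun x : U × Tb × Tb => mainU iso x.1 x.2.1 x.2.2) := by
    have : PT (fun x : U × Tb × Tb => iso (cxOf x.1 x.2.1) (PG.tensP (cxOf x.1 x.2.1) x.2.1)
        (PG.tensP (cxOf x.1 x.2.1) x.2.2)) :=
      hPT.comp (show PT fun x : U × Tb × Tb => (cxOf x.1 x.2.1, PG.tensP (cxOf x.1 x.2.1) x.2.1,
        PG.tensP (cxOf x.1 x.2.1) x.2.2) by fun_prop)
    unfold mainU; fun_prop
  have h5 : PT (fun x : List Bool => ((powU (unL (List.range (ordN x))) K,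
      (List.range (ordN x), x, 0), (List.range (ordN x), x, ordN x * ordN x * ordN x)) :
        U × Tb × Tb)) := by fun_prop
  obtain ⟨M, q, hM, hq⟩ := PT.btm (PT.cons (h4.comp h5) (PT.const []))
  obtain ⟨c, d, hc⟩ := eval_le_pow q
  refine ⟨M, hM, c * 3 ^ d + 3 * d, fun p hp h5 G H _ _ hG hH N e e' => ?_⟩
  have : Fact p.Prime := ⟨hp⟩
  have hN : 0 < N := Fin.pos (e.symm 1)
  have hO := hq (tbits e ++ tbits e')
  have hb : mainU iso (powU (unL (List.range N)) K) (List.range N, tbits e ++ tbits e', 0)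
      (List.range N, tbits e ++ tbits e', N * N * N) = decide (Nonempty (G ≃* H)) := by
    rw [Bool.eq_iff_iff, decide_eq_true_iff]
    exact spec hi h5 (tbl1 e e') (tbl2 e e') hG hH (by simp [length_powU])
  simp only [ordN_eq, hb, length_in] at hO
  refine hO.mono ((hc _).trans ?_)
  have h6 : 2 * (N * N * N) + 1 ≤ 3 * N ^ 3 := by
    have := pow_pos hN 3
    rw [show N * N * N = N ^ 3 by ring]; omega
  calc c * (2 * (N * N * N) + 1) ^ d ≤ c * (3 * N ^ 3) ^ d :=
        Nat.mul_le_mul_left _ (Nat.pow_le_pow_left h6 d)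
    _ = c * 3 ^ d * N ^ (3 * d) := by rw [mul_pow, ← pow_mul, mul_assoc]
    _ ≤ _ := Nat.mul_le_mul (Nat.le_add_right _ _) (Nat.pow_le_pow_right hN (Nat.le_add_left _ _))

end Pool.Agent.P.MP_f1a348_lc.UP
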