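import Pool.Agent.P.MP_f1a348_lc.UP.PIf
import Pool.Agent.P.MP_f1a348_lc.UP.PTime
import Pool.Agent.P.MP_f1a348_lc.UP.Fin

/-!
Project UP: the program meets the specification that the final assembly asks for.
-/

namespace Pool.Agent.P.MP_f1a348_lc.UP

open Pool.Agent.P.MP_f1a348_lc.PG

theorem isoSpec (h : ∀ (p n : ℕ) [Fact p.Prime], 5 ≤ p → S_ISO p n) : IsoSpec 90000 isoQ :=
  fun p n _ hp hn c T T' h1 h2 h3 hT hT' => by
    rw [isoQ_eq (by omega)]
    refine h p n hp c T T' ⟨h1, h2, le_trans ?_ h3⟩ hn hT hT'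
    exact Nat.pow_le_pow_right (by omega) (by unfold bud2; omega)

end Pool.Agent.P.MP_f1a348_lc.UP
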