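import Pool.Agent.P.MP_f1a348_lc.NC.Prog

/-!
Project UP: the program of the engine.
-/

namespace Pool.Agent.P.MP_f1a348_lc.UP

open Pool.Agent.P.MP_f1a348_lc.PG

/-! ### the potential -/

def sdB (c : Cx) (l : V) (B : List V) : Sd := sdL c [] (l, [], B)
def z0B (c : Cx) (l : V) (B : List V) : V := z0P c (sdB c l B)
def scP (μ : V) (k : ℕ) : ℕ :=
  (bif Nat.blt (μ.getD 0 0) (2 * k) then 1 else 0) + (bif Nat.blt (μ.getD 1 0) (2 * k) then 1 else 0) +
    (bif Nat.blt (μ.getD 2 0) (2 * k) then 1 else 0)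
def phiSP (c : Cx) (μ l : V) (s : Sd) : ℕ :=
  sm (u1 c) fun a => bif l.getD a 0 == a && !trivP c s a && (ran (u1 c)).all
    (fun b => Nat.ble (l.getD a 0) (l.getD b 0) || (csg c s a b).isEmpty) then
    nbP c l a * (3 + scP μ (nbP c l a)) - (csg c s a a).length else 0
/-- labels, change of basis and diagonal part of a refinement with simple blocks -/
def rf1 (c : Cx) (l : V) (A : List V) : Lt := (refine c ((l, oneP c, A), [])).1
def potQ (c : Cx) (μ : V) (x : Lt) : ℕ := phiSP c μ x.1 (sdB c x.1 x.2.2)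
def potP (c : Cx) (μ l : V) (A : List V) : ℕ := potQ c μ (rf1 c l A)

/-! ### unitary elements -/

def chiA (c : Cx) (X : List V) : Option V :=
  aff c (u2 c) (X.map fun h => ent c h (cz c) (cz c) :: h)
def pinP (c : Cx) (X : List V) (j : ℕ) (v : V) : List V :=
  htP c [(), ()] X (d0P c (unit c (u1 c) j)) (d0P c v)
def fstep (c : Cx) (l : V) (X : List V) (j : ℕ) : List V :=
  ((blkP c l j).find? fun v => (chiA c (pinP c X j v)).isSome).elim [] (pinP c X j)
/-- a unitary element of the span of `X` -/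
def findU (c : Cx) (l : V) (X : List V) : Option V :=
  chiA c ((ran (u1 c)).foldl (fstep c l) (basis c (u2 c) X))
def gstep (c : Cx) (l : V) (s : List V × List V) (j : ℕ) : List V × List V :=
  (pinP c s.1 j (unit c (u1 c) j), s.2 ++ (blkP c l j).filterMap fun v => findU c l (pinP c s.1 j v))
/-- generators of the unitary group of the span of `A` -/
def genP (c : Cx) (l : V) (A : List V) : List V :=
  ((ran (u1 c)).foldl (gstep c l) (basis c (u2 c) A, [])).2

/-! ### canonical subspaces -/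

def shK (w0 : V) (SL : List V) : List V := (1 :: w0) :: SL.map fun w => 0 :: w
def e2P (c : Cx) (s : Sd) (w0 : V) (SL : List V) : List V := (shK w0 SL).map (cnP c s)
def e3P (c : Cx) (s : Sd) (w0 : V) (SL : List V) : List V :=
  preim c (() :: u3 c) (uT c s) (ambP c s) (tnP c s) (shK w0 SL)
def annK (c : Cx) (l : V) (s : Sd) (t : ℕ) (SL : List V) : List V :=
  preAll c (u3 c) (uN c s) (units c (uN c s)) SL (fun w cs => lamP c l s t cs w) (trL c s)
def thK (c : Cx) (l : V) (s : Sd) (t : ℕ) (PL : List (V × V)) (cs : V) : Option V :=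
  aff c (u3 c) (preAll c (u3 c) (() :: u3 c) ([1] :: (wtP c l t).map fun w => 0 :: w)
    (PL.map fun q => nv c (u2 c) q.1 ++ q.2) (fun z y => axpy c (u3 c) (ng c (y.getD 0 0))
      (lamP c l s t cs (z.drop (u2 c).length)) (dif c y.tail y.tail z)) (trL c s))
def hsP (c : Cx) (l : V) (s : Sd) (a θ : V) (r : ℕ) : List V :=
  basis c (mulU (uh c) (uh c)) ((lowP c l s a θ r).map fun q => NC.mk c (uh c) (hatP c s a θ q))
def e5P (c : Cx) (l : V) (s : Sd) (a θ : V) (r : ℕ) : List V :=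
  preim c (uh c) (u1 c) (units c (u1 c)) (nv c (u1 c)) (NC.rmP c (uh c) (hsP c l s a θ r))
def e6P (c : Cx) (l : V) (s : Sd) (a θ : V) (r : ℕ) : List V :=
  (preim c (uh c) (uh c) (domP c l (a.getD 1 0)) (nv c (uh c))
    (NC.umP c (uh c) (hsP c l s a θ r))).map (nv c (u1 c))
def e7P (c : Cx) (l : V) (s : Sd) (a θ : V) (r : ℕ) : List V :=
  basis c (u1 c) (lowP c l s a θ r)

/-! ### recipes -/

/-- kind, blocks, permutation, coefficients, two pins, rank -/
abbrev Rz : Type := ℕ × V × ℕ × V × V × V × ℕ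

def edP (c : Cx) (l : V) (s : Sd) (w0 : V) (SL : List V) (ρ : Rz) (θ q : V) : List V :=
  bif ρ.1 == 2 then e2P c s w0 SL else bif ρ.1 == 3 then e3P c s w0 SL else
  bif ρ.1 == 4 then d4P c l s ρ.2.1 (permP c ρ.2.2.1 θ) q else
  bif ρ.1 == 5 then e5P c l s ρ.2.1 (permP c ρ.2.2.1 θ) ρ.2.2.2.2.2.2 else
  bif ρ.1 == 6 then e6P c l s ρ.2.1 (permP c ρ.2.2.1 θ) ρ.2.2.2.2.2.2 else
    e7P c l s ρ.2.1 (permP c ρ.2.2.1 θ) ρ.2.2.2.2.2.2
def xqP (c : Cx) (l : V) (s : Sd) (w0 w0' : V) (SL : List V) (ρ : Rz) (θ θ' q q' : V) : List V :=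
  htP c (uK c s) (htP c (uK c s) s.2.1 (edP c l s w0 SL ρ θ ρ.2.2.2.2.1) (edP c l s w0' SL ρ θ' q))
    (edP c l s w0 SL ρ θ ρ.2.2.2.2.2.1) (edP c l s w0' SL ρ θ' q')
def aqP (c : Cx) (l : V) (s : Sd) (w0 : V) (SL : List V) (ρ : Rz) (θ : V) : List V :=
  xqP c l s w0 w0 SL ρ θ θ ρ.2.2.2.2.1 ρ.2.2.2.2.2.1
def cstP (c : Cx) (l : V) (s : Sd) (ρ : Rz) : ℕ :=
  bif ρ.1 == 4 then 2 * (nbP c l (ρ.2.1.getD 0 0) +
    (csoP c s (rv c (ρ.2.1.getD 2 0)) (ρ.2.1.getD 1 0)).length) else 0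
def recsK (c : Cx) (l : V) (s : Sd) (t : ℕ) (SL : List V) : List Rz :=
  [2, 3, 4, 5, 6, 7].flatMap fun kind =>
    ((ran (u3 c)).map fun i => [co c 0 i, co c 1 i, co c 2 i]).flatMap fun a =>
      [0, 1, 2, 3, 4, 5].flatMap fun k => ([] :: annK c l s t SL).flatMap fun cs =>
        (blkP c l (a.getD 0 0)).flatMap fun u => (blkP c l (a.getD 0 0)).flatMap fun v =>
          (ran (uh c)).map fun r => (kind, a, k, cs, u, v, r)
def thR (c : Cx) (l : V) (s : Sd) (t : ℕ) (PL : List (V × V)) (ρ : Rz) : V :=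
  (thK c l s t PL ρ.2.2.2.1).getD []
def goodK (c : Cx) (μ l : V) (s : Sd) (t : ℕ) (PL : List (V × V)) (w0 : V) (SL : List V)
    (ρ : Rz) : Bool :=
  tP c l ρ.2.1 ρ.2.2.1 == t &&
  (ρ.1 != 4 || trivP c s (ρ.2.1.getD 0 0) ||
    (!trivP c s (ρ.2.1.getD 1 0) && !trivP c s (ρ.2.1.getD 2 0))) &&
  (Nat.blt ρ.1 4 || (thK c l s t PL ρ.2.2.2.1).isSome) &&
  Nat.ble (cstP c l s ρ + 1)
    (200 * (phiSP c μ l s - potP c μ l (aqP c l s w0 SL ρ (thR c l s t PL ρ))))
def candK (c : Cx) (l : V) (s : Sd) (ρ : Rz) : List (V × V) :=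
  bif ρ.1 == 4 then (qsP c l s ρ.2.1).flatMap fun q => (qsP c l s ρ.2.1).map fun q' => (q, q')
  else [([], [])]
def repsK (c : Cx) (l : V) (s : Sd) (t : ℕ) (w0 : V) (SL : List V) (ρ : Rz) (θ δ : V) : List V :=
  (candK c l s ρ).filterMap fun q => findU c l (xqP c l s w0
    (axpy c (u3 c) 1 w0 (dif c δ δ (z0P c s))) SL ρ θ
    (axpy c (u3 c) 1 θ (lamP c l s t ρ.2.2.2.1 δ)) q.1 q.2)
def engQ (c : Cx) (μ l : V) (s : Sd) (t : ℕ) (PL : List (V × V)) (w0 : V) (SL : List V) (δ : V) :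
    Option (List V × List V × List V) :=
  ((recsK c l s t SL).find? (goodK c μ l s t PL w0 SL)).map fun ρ =>
    (aqP c l s w0 SL ρ (thR c l s t PL ρ), repsK c l s t w0 SL ρ (thR c l s t PL ρ) [],
      repsK c l s t w0 SL ρ (thR c l s t PL ρ) δ)
/-- the engine: a smaller algebra and two lists of representatives -/
def engP (c : Cx) (l : V) (B : List V) (a μ : V) (PL : List (V × V)) (w0 : V) (SL : List V)
    (δ : V) : Option (List V × List V × List V) :=
  engQ c μ l (sdB c l B) (tP c l a 0) PL w0 SL δ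

end Pool.Agent.P.MP_f1a348_lc.UP
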