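import Pool.Agent.P.MP_f1a348_lc.UP.LT1

/-!
Project UP: a form that is invariant modulo traces under a group with large central involutions
is a trace.
-/

namespace Pool.Agent.P.MP_f1a348_lc.UP.LT

open Matrix Module Pool.Agent.P.MP_f1a348_lc.PG Pool.Agent.P.MP_f1a348_lc.KT

set_option linter.unusedSectionVars false

variable {p n : ℕ} [Fact p.Prime] {ℓ : Ix n → ℕ} {B : Sub p n} {a : Fin 3 → Ix n}

/-- matrices as bilinear forms -/
noncomputable def evP : Mat p n →ₗ[ZMod p] Vec p n →ₗ[ZMod p] Vec p n →ₗ[ZMod p] ZMod p :=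
  mv.compr₂ ipL

@[simp] theorem evP_apply (C : Mat p n) (x y : Vec p n) : evP C x y = ip (C *ᵥ x) y := by
  simp [evP]

/-- the invariant pairings of two slots -/
def EE (ℓ : Ix n → ℕ) (B : Sub p n) (a : Fin 3 → Ix n) (j : Fin 3) : Sub p n :=
  Cb ℓ B (a (j + 2)).rev (a (j + 1))

theorem EE0 : EE ℓ B a 0 = Cb ℓ B (a 2).rev (a 1) := rfl
theorem EE1 : EE ℓ B a 1 = Cb ℓ B (a 0).rev (a 2) := rfl
theorem EE2 : EE ℓ B a 2 = Cb ℓ B (a 1).rev (a 0) := rfl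

theorem trc_of_tr (h : Str ℓ B) {w : Frm p n} (hw : w ∈ Tr ℓ B) :
    Trc evP (EE ℓ B a) (fun j => Vb ℓ (a j)) (ev w) := by
  induction hw using Submodule.span_induction with
  | mem x hx =>
    obtain ⟨m, C, hC, v, rfl⟩ := hx
    refine ⟨Pi.single m ((ipL v).smulRight (pr ℓ (a (m + 2)).rev * C * pr ℓ (a (m + 1)))),
      fun j x => ?_, fun x hx => ?_⟩
    · by_cases e : j = m
      · subst e
        rw [Pi.single_eq_same]
        exact Submodule.smul_mem _ _ (cb_of_com h.alg hC.1 _ _)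
      · rw [Pi.single_eq_of_ne e]; exact zero_mem _
    · rw [Finset.sum_eq_single m (fun j _ e => by rw [Pi.single_eq_of_ne e]; simp) (by simp),
        Pi.single_eq_same, ev_trf, LinearMap.smulRight_apply, map_smul, LinearMap.smul_apply,
        LinearMap.smul_apply, evP_apply, cb_comp _ (hx _), ip_pr h.lab (hx _), ipL_apply,
        ip_comm v, smul_eq_mul, mul_comm]
  | zero => exact ⟨0, fun j x => zero_mem _, fun x _ => by simp⟩
  | add x y _ _ hx hy =>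
    obtain ⟨κ, a1, a2⟩ := hx
    obtain ⟨κ', b1, b2⟩ := hy
    refine ⟨κ + κ', fun j x => add_mem (a1 j x) (b1 j x), fun z hz => ?_⟩
    rw [ev_add, a2 z hz, b2 z hz, ← Finset.sum_add_distrib]
    simp only [Pi.add_apply, LinearMap.add_apply, map_add]
  | smul c x _ hx =>
    obtain ⟨κ, a1, a2⟩ := hx
    refine ⟨c • κ, fun j x => Submodule.smul_mem _ c (a1 j x), fun z hz => ?_⟩
    rw [ev_smul, a2 z hz, Finset.mul_sum]
    simp only [Pi.smul_apply, LinearMap.smul_apply, map_smul, smul_eq_mul]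

theorem tr_of_trc (h : Str ℓ B) (hn : ∀ j, ¬ Triv ℓ B (a j)) {θ : Frm p n}
    (hθ : θ ∈ Wt ℓ (key ℓ a)) (H : Trc evP (EE ℓ B a) (fun j => Vb ℓ (a j)) (ev θ)) :
    θ ∈ Tr ℓ B := by
  obtain ⟨κ, a1, a2⟩ := H
  have hc := cmp_mem_Tr h (key ℓ a) (Submodule.sum_mem _ (t := Finset.univ) fun j _ =>
    Submodule.sum_mem _ (t := Finset.univ) fun (α : Ix n) _ =>
      trf_mem_Tr j (co_of_cb (a1 j (Pi.single α 1)) (hn _)) (Pi.single α.rev 1))
  refine (Wt_ext h.lab hθ (cmp_mem _ _) fun x hx => ?_) ▸ hc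
  rw [ev_cmp h.lab _ hx, a2 x hx, ev_sum]
  refine Finset.sum_congr rfl fun j _ => ?_
  conv_lhs => rw [pi_eq_sum_univ' (x j)]
  simp only [ev_sum, ev_trf, ip_single_right, Fin.rev_rev, map_sum, map_smul, LinearMap.sum_apply,
    LinearMap.smul_apply, evP_apply, smul_eq_mul, mul_comm]

/-- a form as a trilinear map, the second place first -/
noncomputable def cur (θ : Frm p n) :
    Vec p n →ₗ[ZMod p] Vec p n →ₗ[ZMod p] Vec p n →ₗ[ZMod p] ZMod p :=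
  LinearMap.mk₂ (ZMod p) (fun w x => ipL (au θ x w))
    (fun u v x => LinearMap.ext fun y => by
      simpa [ip_au] using ((evM θ).curryLeft x).cons_add ![y] u v)
    (fun c u x => LinearMap.ext fun y => by
      simpa [ip_au] using ((evM θ).curryLeft x).cons_smul ![y] c u)
    (fun u x z => LinearMap.ext fun y => by simpa [ip_au] using (evM θ).cons_add ![u, y] x z)
    (fun c u x => LinearMap.ext fun y => by simpa [ip_au] using (evM θ).cons_smul ![u, y] c x)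

theorem cur_apply (θ : Frm p n) (w x y : Vec p n) : cur θ w x y = ev θ ![x, w, y] := ip_au _ _ _ _

theorem evP_inv {C : Mat p n} (hC : C ∈ Com B) {g : GG p n} (hg : g.1 ∈ B) (x y : Vec p n) :
    evP C (g.1 *ᵥ x) (g.1 *ᵥ y) = evP C x y := by
  rw [evP_apply, evP_apply, com_mulVec hC hg, g.2.2.1.ip]

variable {Z : SG p n} {τ : GG p n} {k : ℕ}

theorem Tz.em (h : Tz Z τ k) {W : VS p n} (hW : Inv (Env Z) W) : Inv (Env Z) (Em (mv τ.1) W) :=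
  inv_env fun z hz u hu => mem_Em.2 ⟨hW _ (env_mem hz) u (mem_Em.1 hu).1, by
    rw [mv_apply, h.comm hz, ← mv_apply τ.1, (mem_Em.1 hu).2, Matrix.mulVec_neg]⟩

theorem em_neg {W : VS p n} : ∀ u ∈ Em (mv τ.1) W, τ.1 *ᵥ u = -u := fun u hu => by
  simpa using (mem_Em.1 hu).2

theorem ep_fix {W : VS p n} : ∀ u ∈ Ep (mv τ.1) W, τ.1 *ᵥ u = u := fun u hu => by
  simpa using (mem_Ep.1 hu).2

theorem inv_Vb (h : Str ℓ B) (hZ : Env Z ≤ B) (b : Ix n) : Inv (Env Z) (Vb ℓ b) :=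
  fun x hx _ hu => (h.alg.dg x (hZ hx)).mulVec_mem hu

theorem Tz.proj (h : Tz Z τ k) {W : VS p n} (hW : Inv (Env Z) W) {u : Vec p n} (hu : u ∈ W) :
    u - τ.1 *ᵥ u ∈ Em (mv τ.1) W :=
  mem_Em.2 ⟨W.sub_mem hu (hW _ (env_mem h.mem) u hu), by
    rw [mv_apply, Matrix.mulVec_sub, h.sq, neg_sub]⟩

theorem opp (hp : 5 ≤ p) {C : Mat p n} (hC : C ∈ Com B) (hτ : τ.1 ∈ B) {x y : Vec p n}
    (e : (τ.1 *ᵥ x = x ∧ τ.1 *ᵥ y = -y) ∨ (τ.1 *ᵥ x = -x ∧ τ.1 *ᵥ y = y)) : evP C x y = 0 := by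
  have := evP_inv hC hτ x y
  refine half (two_ne_zero' hp) ?_
  rcases e with e | e <;> rw [e.1, e.2] at this <;>
    simpa only [map_neg, LinearMap.neg_apply] using this.symm

theorem kern1 (hp : 5 ≤ p) (h : Str ℓ B) (hT : Tz Z τ k) (hZ : Env Z ≤ B) {θ : Frm p n}
    (hi : ∀ z ∈ Z, pull1 z.1 θ - θ ∈ Tr ℓ B) :
    ∃ K ≤ Ep (mv τ.1) (Vb ℓ (a 1)), 200 * finrank (ZMod p) (Ep (mv τ.1) (Vb ℓ (a 1))) ≤
      200 * finrank (ZMod p) K + finrank (ZMod p) (Em (mv τ.1) (Vb ℓ (a 0))) ∧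
      ∀ x ∈ Em (mv τ.1) (Vb ℓ (a 0)), ∀ w ∈ K, ∀ y ∈ Em (mv τ.1) (Vb ℓ (a 2)),
        ev θ ![x, w, y] = 0 := by
  have hτ := hZ (env_mem hT.mem)
  have iv := inv_form evP (ev θ) (fun j => Vb ℓ (a j))
    ![Em (mv τ.1) (Vb ℓ (a 0)), Ep (mv τ.1) (Vb ℓ (a 1)), Em (mv τ.1) (Vb ℓ (a 2))] (EE ℓ B a)
    (Z : Set (GG p n)) (fun g x => g.1 *ᵥ x) (fun a b x => (Matrix.mulVec_mulVec _ _ _).symm)
    hT.stable.1 (fun j => by fin_cases j <;> exact inf_le_left) (fun z hz j x hx => by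
      fin_cases j
      · exact hT.em (inv_Vb h hZ _) _ (env_mem hz) x hx
      · rw [hT.fix hp hz (ep_fix x hx)]; exact hx
      · exact hT.em (inv_Vb h hZ _) _ (env_mem hz) x hx) 1
    (fun z hz x hx => hT.fix hp hz (ep_fix x hx))
    (fun z hz C hC x y => evP_inv hC.1 (hZ (env_mem hz)) x y) (fun j hj C hC x hx y hy => by
      fin_cases j
      · exact opp hp hC.1 hτ (Or.inl ⟨ep_fix x hx, em_neg y hy⟩)
      · exact absurd rfl hj
      · exact opp hp hC.1 hτ (Or.inr ⟨em_neg x hx, ep_fix y hy⟩)) fun z hz => by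
      simpa only [← ev_pull1, ← ev_sub] using trc_of_tr h (hi z hz)
  have hS : ∀ y, ((1 - τ.1) * pr ℓ (a 2)) *ᵥ y =
      pr ℓ (a 2) *ᵥ y - τ.1 *ᵥ (pr ℓ (a 2) *ᵥ y) := fun y => by
    rw [← Matrix.mulVec_mulVec, Matrix.sub_mulVec, Matrix.one_mulVec]
  obtain ⟨K, a1, a2, a3⟩ := hT.kern hp (hT.em (inv_Vb h hZ (a 0))) em_neg
    ((1 - τ.1) * pr ℓ (a 2)) (fun z hz => by
      rw [mul_assoc, com_pr h.alg _ _ (hZ (env_mem hz)), ← mul_assoc, ← mul_assoc, mul_sub, sub_mul,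
        sub_mul, ← val_mul, ← val_mul, hT.cen z hz, mul_one, one_mul, sub_mul])
    (cur θ) (Ep (mv τ.1) (Vb ℓ (a 1))) fun z hz w hw x hx y => by
      rw [cur_apply, cur_apply, ← iv z hz ![x, w, ((1 - τ.1) * pr ℓ (a 2)) *ᵥ y] fun j => by
        fin_cases j
        exacts [hx, hw, hS y ▸ hT.proj (inv_Vb h hZ _) (pr_mulVec_mem _ _)]]
      congr 1
      funext j
      fin_cases j
      exacts [rfl, (hT.fix hp hz (ep_fix w hw)).symm, rfl]
  refine ⟨K, a1, a2, fun x hx w hw y hy => ?_⟩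
  have := a3 w hw x hx y
  rw [hS, mem_Vb_iff.1 (mem_Em.1 hy).1, em_neg y hy, sub_neg_eq_add, map_add, cur_apply] at this
  exact half (two_ne_zero' hp) (add_eq_zero_iff_eq_neg.1 this)

/-- group elements as linear automorphisms -/
noncomputable def eqv (g : GG p n) : Vec p n ≃ₗ[ZMod p] Vec p n :=
  LinearEquiv.ofLinearMap (mv g.1) (mv (st g.1))
    (LinearMap.ext fun x => by simpa using g.2.2.1.mul_st ▸ Matrix.one_mulVec x)
    (LinearMap.ext fun x => by simpa using g.2.2.1.st_mul ▸ Matrix.one_mulVec x)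

theorem eqv_apply (g : GG p n) (x : Vec p n) : eqv g x = g.1 *ᵥ x := mv_apply _ _

theorem lt3 (hp : 5 ≤ p) (h : Str ℓ B) {Y : SG p n} (hY : Env Y = B) {θ : Frm p n}
    (hθ : θ ∈ Wt ℓ (key ℓ a)) (hi : ∀ y ∈ Y, pull1 y.1 θ - θ ∈ Tr ℓ B)
    (hn : ∀ j, ¬ Triv ℓ B (a j)) (hm : ∀ j, nb ℓ (a 0) ≤ nb ℓ (a j)) (hT : Tz Z τ k) (hZ : Z ≤ Y)
    {x : Vec p n} (hx : x ∈ Vb ℓ (a 0)) (x0 : τ.1 *ᵥ x ≠ x) : θ ∈ Tr ℓ B := by
  have zb : Env Z ≤ B := hY ▸ env_mono hZ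
  have hτ := zb (env_mem hT.mem)
  have iv := inv_Vb h zb
  have tc : ∀ y ∈ Y, Trc evP (EE ℓ B a) (fun j => Vb ℓ (a j))
      fun x => evM θ (fun j => y.1 *ᵥ x j) - evM θ x := fun y hy => by
    simpa only [evM_apply, ← ev_pull1, ← ev_sub] using trc_of_tr h (hi y hy)
  let Γ : Set (Fin 3 → Vec p n ≃ₗ[ZMod p] Vec p n) := (fun y _ => eqv y) '' Y
  have hΓ : ∀ g ∈ Γ, Pres evP (EE ℓ B a) (fun j => Vb ℓ (a j)) (evM θ) g := by
    rintro _ ⟨y, hy, rfl⟩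
    refine ⟨fun j x hx => ?_, fun j => ⟨LinearEquiv.refl _ _, fun C x _ z _ => ?_⟩, ?_⟩
    · rw [eqv_apply]; exact inv_Vb h hY.le _ _ (env_mem hy) x hx
    · rw [eqv_apply, eqv_apply, evP_inv C.2.1 (hY.le (env_mem hy))]; rfl
    · simpa only [eqv_apply] using tc y hy
  have hirr : ∀ j W, W ≤ Vb ℓ (a j) → (∀ g ∈ Γ, ∀ x ∈ W, g j x ∈ W) →
      W = ⊥ ∨ W = Vb ℓ (a j) := fun j W h1 h2 => or_iff_not_imp_left.2 fun h0 => by
    obtain ⟨u, hu, u0⟩ := Submodule.exists_mem_ne_zero_of_ne_bot h0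
    refine le_antisymm h1 fun v hv => ?_
    obtain ⟨b, hb, rfl⟩ := h.sim _ u (h1 hu) u0 v hv
    exact inv_env (fun y hy w hw => eqv_apply y w ▸ h2 _ ⟨y, hy, rfl⟩ w hw) b (hY.ge hb) u hu
  have A0 : Em (mv τ.1) (Vb ℓ (a 0)) ≠ ⊥ := fun e =>
    x0 (sub_eq_zero.1 ((Submodule.mem_bot _).1 (e ▸ hT.proj (iv _) hx))).symm
  have sd := sign_dm (two_ne_zero' hp) evP (evM θ) (fun j => Vb ℓ (a j)) (EE ℓ B a) (mv τ.1)
    (fun x => by simpa only [mv_apply] using hT.sq x)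
    (fun j x hx => by rw [mv_apply]; exact iv _ _ (env_mem hT.mem) x hx)
    (fun j C hC x y => by simpa only [mv_apply] using evP_inv hC.1 hτ x y)
    (by simpa only [mv_apply] using tc τ (hZ hT.mem))
  have rv : ∀ b c, finrank (ZMod p) (Cb ℓ B b.rev c) = finrank (ZMod p) (Cb ℓ B c.rev b) :=
    fun b c => by rw [← finrank_cb_rev h, Fin.rev_rev]
  refine tr_of_trc h hn hθ ?_
  rw [show ev θ = evM θ from funext fun x => (evM_apply θ x).symm]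
  by_cases hc : Em (mv τ.1) (Vb ℓ (a 1)) = ⊥ ∧ Em (mv τ.1) (Vb ℓ (a 2)) = ⊥
  · have ep : ∀ b, Em (mv τ.1) (Vb ℓ b) = ⊥ → Vb ℓ b ≤ Ep (mv τ.1) (Vb ℓ b) := fun b e u hu =>
      mem_Ep.2 ⟨hu, (mv_apply _ _).trans
        (sub_eq_zero.1 ((Submodule.mem_bot _).1 (e ▸ hT.proj (iv _) hu))).symm⟩
    obtain ⟨u, hu, u0⟩ := Submodule.exists_mem_ne_zero_of_ne_bot A0
    have cz : ∀ b, Em (mv τ.1) (Vb ℓ b) = ⊥ → Cb ℓ B b.rev (a 0) = ⊥ := fun b e =>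
      eq_bot_iff.2 fun C hC => cb_inj h hC hu.1 u0 (eq_zero_of_ip h.lab (cb_mulVec_mem hC u)
        fun y hy => (evP_apply C u y).symm.trans
          (opp hp hC.1 hτ (Or.inr ⟨em_neg u hu, ep_fix y (ep b e hy)⟩)))
    obtain ⟨U1, U2, a1, a2, -, -, -, -, a3⟩ := sd _ _ le_rfl le_rfl
      (fun x _ y _ z hz => (evM θ).map_coord_zero 2 ((Submodule.mem_bot _).1 (hc.2 ▸ hz)))
      (fun x _ y hy z _ => (evM θ).map_coord_zero 1 ((Submodule.mem_bot _).1 (hc.1 ▸ hy)))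
    have d0 := direct evP (evM θ) (fun j => Vb ℓ (a j)) (EE ℓ B a) Γ hΓ (hirr 0)
      (EE1.trans (Submodule.finrank_eq_zero.1
        ((rv _ _).trans (Submodule.finrank_eq_zero.2 (cz _ hc.2))))) (EE2.trans (cz _ hc.1))
    refine d0 fun e => u0 ?_
    exact e.le ⟨hu.1, Dm_anti _ _ _ ((ep _ hc.1).trans a1) ((ep _ hc.2).trans a2) (a3 hu)⟩
  obtain ⟨K1, b1, b2, b3⟩ := kern1 (a := a) hp h hT zb fun z hz => hi z (hZ hz)
  have sw : Function.Bijective (![0, 2, 1] : Fin 3 → Fin 3) := by decide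
  obtain ⟨K2, c1, c2, c3⟩ := kern1 (a := ![a 0, a 2, a 1]) (θ := perm ![0, 2, 1] θ) hp h hT zb
    fun z hz => by
      rw [pull1_perm sw, ← map_sub]
      exact perm_mem_Tr h sw (hi z (hZ hz))
  obtain ⟨U1, U2, -, -, a1, a2, a3, a4, a5⟩ := sd K1 K2 b1 c1
    (fun x hx y hy z hz => (evM_apply _ _).trans (b3 x hx y hy z hz))
    (fun x hx y hy z hz => by
      rw [evM_apply, ← c3 x hx z hz y hy, ev_perm sw]
      congr 1
      funext j
      fin_cases j <;> rfl)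
  have cb := hT.cb hp h zb (hT.em (iv (a 0))) em_neg A0 inf_le_left
  have e1 := cb (a 2).rev
  rw [rv] at e1
  have e2 := cb (a 1).rev
  have al : finrank (ZMod p) (Em (mv τ.1) (Vb ℓ (a 0))) ≤ finrank (ZMod p) (Vb ℓ (a 0) : VS p n) :=
    Submodule.finrank_mono inf_le_left
  have m1 := hm 1
  have m2 := hm 2
  rw [← finrank_Vb (p := p), ← finrank_Vb (p := p)] at m1 m2
  have e0 : 200 * finrank (ZMod p) (Cb ℓ B (a 2).rev (a 1)) ≤
      finrank (ZMod p) (Em (mv τ.1) (Vb ℓ (a 0))) := by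
    obtain ⟨N0, n1, -, -, n2⟩ := hT.sub hp (hT.em (iv (a 0))) em_neg A0
    have key : ∀ b c, Em (mv τ.1) (Vb ℓ b) ≠ ⊥ → 200 * finrank (ZMod p) (Cb ℓ B c b) ≤
        finrank (ZMod p) (Em (mv τ.1) (Vb ℓ (a 0))) := fun b c e => by
      obtain ⟨N, d1, d2, d3, d4⟩ := hT.sub hp (hT.em (iv b)) em_neg e
      exact (hT.cb hp h zb d2 (fun u hu => em_neg u (d1 hu)) d3 (d1.trans inf_le_left) c).trans
        ((d4.trans n2.symm).trans_le (Submodule.finrank_mono n1))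
    rcases not_and_or.1 hc with e | e
    · exact key _ _ e
    · rw [rv]; exact key _ _ e
  have num : ∀ A e m u k q : ℕ, 200 * q ≤ 200 * k + A → m + k ≤ u + q + e → 200 * e ≤ A →
      32 * (m + e) ≤ 32 * u + A := fun _ _ _ _ _ _ _ _ _ => by omega
  have mul : ∀ g ∈ Γ, ∀ g' ∈ Γ, g * g' ∈ Γ := by
    rintro _ ⟨y, hy, rfl⟩ _ ⟨z, hz, rfl⟩
    exact ⟨y * z, Y.mul_mem hy hz, funext fun _ => LinearEquiv.ext fun x => by
      simp [eqv_apply]⟩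
  have big : ∀ j, 40 * finrank (ZMod p) (EE ℓ B a j) ≤ finrank (ZMod p) (Vb ℓ (a j) : VS p n) := by
    intro j
    obtain rfl | rfl | rfl : j = 0 ∨ j = 1 ∨ j = 2 := by revert j; decide
    · rw [EE0]; omega
    · rw [EE1]; omega
    · rw [EE2]; omega
  have f0 := compress2 evP (evM θ) (fun j => Vb ℓ (a j)) (EE ℓ B a) Γ ⟨_, 1, Y.one_mem, rfl⟩ mul hΓ
    hirr big (Em (mv τ.1) (Vb ℓ (a 0))) U1 U2 inf_le_left a1 a2 a5
    (Nat.pos_of_ne_zero fun e => A0 (Submodule.finrank_eq_zero.1 e)) m1 m2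
    (num _ _ _ _ _ _ b2 a3 e1) (num _ _ _ _ _ _ c2 a4 e2)
  exact f0

theorem lt (hp : 5 ≤ p) (h : Str ℓ B) {Y : SG p n} (hY : Env Y = B) {θ : Frm p n}
    (hθ : θ ∈ Wt ℓ (key ℓ a)) (hi : ∀ y ∈ Y, pull1 y.1 θ - θ ∈ Tr ℓ B)
    (hn : ∀ j, ¬ Triv ℓ B (a j))
    (hz : ∀ j, ∃ Z ≤ Y, ∃ τ k, Tz Z τ k ∧ ∃ x ∈ Vb ℓ (a j), τ.1 *ᵥ x ≠ x) : θ ∈ Tr ℓ B := by
  obtain ⟨m, -, hm⟩ := Finset.exists_min_image Finset.univ (fun j => nb ℓ (a j)) ⟨0, by simp⟩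
  obtain ⟨Z, hZ, τ, k, hT, x, hx, x0⟩ := hz m
  have b1 : Function.Bijective fun j : Fin 3 => j - m := (Equiv.subRight m).bijective
  have b2 : Function.Bijective fun j : Fin 3 => j + m := (Equiv.addRight m).bijective
  have := perm_mem_Tr h b2 (lt3 (a := fun j => a (j + m)) (θ := perm (fun j => j - m) θ) hp h hY
    (perm_mem_Wt h.lab b1 (by simpa using hθ)) (fun y hy => by
      rw [pull1_perm b1, ← map_sub]
      exact perm_mem_Tr h b1 (hi y hy)) (fun j => hn _)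
    (fun j => by simpa using hm (j + m) (by simp)) hT hZ (by simpa using hx) x0)
  rwa [perm_perm, show ((fun j : Fin 3 => j + m) ∘ fun j => j - m) = id from
    funext fun j => sub_add_cancel j m] at this

end Pool.Agent.P.MP_f1a348_lc.UP.LT
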