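import Pool.Agent.P.MP_f1a348_lc.UP.Iface
import Pool.Agent.P.MP_f1a348_lc.UP.LT2

/-!
Project UP: full stable groups contain stable groups with a central involution.
-/

namespace Pool.Agent.P.MP_f1a348_lc.UP.LT

open Matrix Module Pool.Agent.P.MP_f1a348_lc.PG Pool.Agent.P.MP_f1a348_lc.KT

set_option linter.unusedSectionVars false

theorem dihedral {Γ : Type} [Group Γ] {τ x : Γ} (h : τ * τ = 1) {i : ℕ}
    (e : (x * τ * x⁻¹ * τ) ^ (2 * i + 1) = 1) :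
    ((x * τ * x⁻¹ * τ) ^ (i + 1))⁻¹ * x * τ = τ * (((x * τ * x⁻¹ * τ) ^ (i + 1))⁻¹ * x) := by
  have h1 : τ⁻¹ = τ := inv_eq_of_mul_eq_one_right h
  set y := x * τ * x⁻¹ * τ with hy
  have h2 : τ * y * τ⁻¹ = y⁻¹ := by
    rw [hy, _root_.mul_inv_rev, _root_.mul_inv_rev, _root_.mul_inv_rev, inv_inv, h1]
    simp only [mul_assoc, h, mul_one]
  have h3 : τ * y ^ (i + 1) * τ⁻¹ = (y ^ (i + 1))⁻¹ := by rw [← conj_pow, h2, inv_pow]
  have h4 : y ^ (i + 1) * y ^ (i + 1) = y := by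
    rw [← pow_add, show i + 1 + (i + 1) = 2 * i + 1 + 1 by ring, pow_succ, e, one_mul]
  generalize y ^ (i + 1) = r at h3 h4
  have h5 : x * τ = r * r * τ * x := by
    rw [h4, hy]
    simp only [mul_assoc]
    rw [← mul_assoc τ τ, h, one_mul, inv_mul_cancel, mul_one]
  rw [h1] at h3
  have h6 : τ * r * τ * r = 1 := by rw [h3, inv_mul_cancel]
  rw [mul_assoc, h5, ← h3]
  calc τ * r * τ * (r * r * τ * x) = τ * r * τ * r * (r * τ * x) := by simp only [mul_assoc]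
    _ = τ * τ * (r * τ * x) := by rw [h6, h]
    _ = _ := by simp only [mul_assoc]

variable {p n : ℕ} [Fact p.Prime]

/-- the block diagonal part in the frame `f` -/
noncomputable abbrev pg (f : GG p n) (ℓ : Ix n → ℕ) : Mat p n →ₗ[ZMod p] Mat p n := gr ℓ ∘ₗ fr f

variable (t : TB p n) {R : Sub p n} {f : GG p n} {ℓ : Ix n → ℕ}
include t

theorem pg_mul (h : TriR R f ℓ) {x y : Mat p n} (hx : x ∈ R) (hy : y ∈ R) :
    pg f ℓ (x * y) = pg f ℓ x * pg f ℓ y := by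
  simp only [LinearMap.comp_apply]
  rw [(t.env.2.1 f x y).1, gr_mul (h x hx) (h y hy)]

theorem pg_one : pg f ℓ 1 = 1 := by
  rw [LinearMap.comp_apply, (t.env.2.1 f 1 1).2.2.1, gr_one]

theorem pg_st (hl : Lab ℓ) (x : Mat p n) : pg f ℓ (st x) = st (pg f ℓ x) := by
  simp only [LinearMap.comp_apply]
  rw [(t.env.2.1 f x x).2.1, gr_st hl]

theorem pg_c0 (hR : SA R) {x : Mat p n} (hx : x ∈ R) :
    pg f ℓ x (c0 n) (c0 n) = x (c0 n) (c0 n) := by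
  rw [LinearMap.comp_apply, gr_apply, if_pos rfl, ((t.env.2.1 f x x).2.2.2.2.2.1 (hR.dg x hx)).2]

theorem pg_par (hl : Lab ℓ) {g : GG p n} (h : Tri ℓ (fr f g.1)) : Par ℓ (pg f ℓ g.1) := by
  have e := t.env.2.2.1 f g
  exact Par.gr hl ⟨h, e ▸ (f⁻¹ * g * f).2.2⟩

theorem onto (hR : SA R) (hc : CF R f ℓ) {N : SG p n} (h : FullA N R) {z : Mat p n}
    (hz : U1 (gB R f ℓ) z) : ∃ g ∈ N, pg f ℓ g.1 = z := by
  obtain ⟨⟨x, hx, rfl⟩, h2, h3⟩ := hz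
  have r := t.rad R f ℓ hR hc.lab hc.tri
  obtain ⟨g, hg, e⟩ := h.2 x hx ((pg_c0 t hR hx).symm.trans h3) (r.2.1 _
    (R.sub_mem (hR.mul _ (hR.star x hx) x hx) hR.one) (by
      change pg f ℓ _ = 0
      rw [map_sub, pg_mul t hc.tri (hR.star x hx) hx, pg_st t hc.lab, h2.st_mul, pg_one t, sub_self]))
  exact ⟨g, hg, sub_eq_zero.1 ((map_sub _ _ _).symm.trans ((r.2.2 hc).2 _ e))⟩

theorem fullA (hR : SA R) (hc : CF R f ℓ) {N : SG p n} (h : ∀ g ∈ N, g.1 ∈ R)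
    (ho : ∀ z, U1 (gB R f ℓ) z → ∃ g ∈ N, pg f ℓ g.1 = z) : FullA N R := by
  refine ⟨h, fun x hx h1 h2 => ?_⟩
  have r := t.rad R f ℓ hR hc.lab hc.tri
  have e : pg f ℓ _ = 0 := (r.2.2 hc).2 _ h2
  rw [map_sub, pg_mul t hc.tri (hR.star x hx) hx, pg_st t hc.lab, pg_one t, sub_eq_zero] at e
  obtain ⟨g, hg, e1⟩ := ho (pg f ℓ x) ⟨⟨x, hx, rfl⟩, e, (pg_c0 t hR hx).trans h1⟩
  exact ⟨g, hg, r.2.1 _ (R.sub_mem (h g hg) hx) ((map_sub (pg f ℓ) _ _).trans (sub_eq_zero.2 e1))⟩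

theorem unip (hR : SA R) (hl : Lab ℓ) (hc : TriR R f ℓ) {g : GG p n} (hg : g.1 ∈ R)
    (e : pg f ℓ g.1 = 1) : ∃ i, g ^ (2 * i + 1) = 1 := by
  obtain ⟨k, hk⟩ := ((t.rad R f ℓ hR hl hc).2.1 _ (R.sub_mem hg hR.one) (by
    change pg f ℓ _ = 0
    rw [map_sub, e, pg_one t, sub_self])).2 1 hR.one
  have h5 := t.pm.five
  obtain ⟨i, hi⟩ := ((Fact.out : p.Prime).odd_of_ne_two (by omega)).pow (n := k)
  refine ⟨i, Subtype.ext ?_⟩
  have pw : ∀ m : ℕ, (g ^ m).1 = g.1 ^ m := fun m => by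
    induction m with
    | zero => rfl
    | succ m ih => rw [pow_succ, pow_succ, val_mul, ih]
  have := sub_pow_char_pow_of_commute p k (Commute.one_right g.1)
  rw [mul_one] at hk
  rw [pow_eq_zero_of_le (Nat.lt_pow_self (by omega)).le hk, one_pow] at this
  rw [← hi, pw]
  exact sub_eq_zero.1 this.symm

theorem pg_pow {X : SG p n} (h : TriR (Env X) f ℓ) {g : GG p n} (hg : g ∈ X) (m : ℕ) :
    pg f ℓ (g ^ m).1 = pg f ℓ g.1 ^ m := by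
  induction m with
  | zero => exact pg_one t
  | succ m ih => rw [pow_succ, pow_succ, val_mul, pg_mul t h (env_mem (X.pow_mem hg m)) (env_mem hg), ih]

omit t in
theorem mem_MI {x : Mat p n} {α : Ix n} : x ∈ MI R f ℓ {α} ↔
    x ∈ R ∧ ∀ β γ, ℓ β = ℓ α → ℓ γ = ℓ α → pg f ℓ x β γ = 0 :=
  and_congr_right fun _ => ⟨fun h β γ a b => by
    rw [LinearMap.comp_apply, gr_apply, h α rfl β γ a b, ite_self], fun h δ hδ β γ a b => by
    obtain rfl : δ = α := hδ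
    have := h β γ a b
    rwa [LinearMap.comp_apply, gr_apply, if_pos (a.trans b.symm)] at this⟩

theorem tz (hG : S_GENCF p n) {X : SG p n} (hc : CF (Env X) f ℓ) (hg : Giant ℓ (gB (Env X) f ℓ))
    (ho : ∀ z, U1 (gB (Env X) f ℓ) z → ∃ g ∈ X, pg f ℓ g.1 = z) {β : Ix n}
    (hβ : ¬ Triv ℓ (gB (Env X) f ℓ) β) :
    ∃ Z ≤ X, ∃ τ, Tz Z τ (nb ℓ β) ∧ τ.1 - 1 ∉ MI (Env X) f ℓ {β} := by
  classical
  have hp := t.pm.five
  have hR := (t.env.1 X).1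
  have hB := ((t.rad _ f ℓ hR hc.lab hc.tri).2.2 hc).1
  generalize eB : gB (Env X) f ℓ = B at hg ho hβ hB
  set S := {α | ¬ Triv ℓ B α ∧ nb ℓ α = nb ℓ β} with hS
  have cl : Clo ℓ S := ⟨fun a b e h => ⟨mt (Triv_congr e).2 h.1, (nb_congr e).symm.trans h.2⟩,
    fun a h => ⟨mt (triv_rev hB).1 h.1, (hc.lab.nb_rev a).trans h.2⟩⟩
  have cc : ∀ α ∈ S, ∀ γ, Cb ℓ B α γ ≠ ⊥ → γ ∈ S := fun a h b e =>
    ⟨mt (triv_iff hB e).2 h.1, (nb_eq hB e).symm.trans h.2⟩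
  let d : Ix n → ZMod p := fun α => if α ∈ S then -1 else 1
  have d1 : ∀ α, d α * d α = 1 := fun α => by simp only [d]; split_ifs <;> simp
  have d2 : Matrix.diagonal d * Matrix.diagonal d = (1 : Mat p n) := by
    simp only [Matrix.diagonal_mul_diagonal, d1, Matrix.diagonal_one]
  have d3 : U1 B (Matrix.diagonal d) := ⟨diagonal_mem hB fun a b e => by
    simp only [d, (⟨fun h => cc a h b e, fun h => cc b h a (cb_symm hB e)⟩ : a ∈ S ↔ b ∈ S)], by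
    rw [Un, st_diagonal, ← d2]
    simp only [d, (fun a => ⟨fun h => by simpa using cl.rev _ h, cl.rev a⟩ :
      ∀ a : Ix n, a.rev ∈ S ↔ a ∈ S)], by
    simp only [Matrix.diagonal_apply_eq, d]
    exact if_neg fun h => h.1 (triv_c0 hB.alg)⟩
  have d4 : ∀ b ∈ B, Matrix.diagonal d * b = b * Matrix.diagonal d := fun b hb =>
    (hB.alg.dg b hb).comm_diagonal fun a b e => by
      simp only [d, (⟨cl.blk a b e, cl.blk b a e.symm⟩ : a ∈ S ↔ b ∈ S)]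
  have mu : ∀ x ∈ X, ∀ y ∈ X, pg f ℓ (x * y).1 = pg f ℓ x.1 * pg f ℓ y.1 := fun x hx y hy =>
    pg_mul t hc.tri (env_mem hx) (env_mem hy)
  obtain ⟨u, hu, eu⟩ := ho _ d3
  obtain ⟨i, hi⟩ := unip t hR hc.lab hc.tri (env_mem (X.mul_mem hu hu)) (by rw [mu u hu u hu, eu, d2])
  have hτ := X.pow_mem hu (2 * i + 1)
  have e1 : u ^ (2 * i + 1) * u ^ (2 * i + 1) = 1 := by rw [← (Commute.refl u).mul_pow, hi]
  have e2 : pg f ℓ (u ^ (2 * i + 1)).1 = Matrix.diagonal d := by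
    rw [pg_pow t hc.tri hu, eu, pow_succ, pow_mul, pow_two, d2, one_pow, one_mul]
  generalize u ^ (2 * i + 1) = τ at hτ e1 e2
  have fa : FullA (X ⊓ Subgroup.centralizer {τ}) (Env X) :=
    fullA t hR hc (fun g h => env_mem h.1) fun z hz => by
      obtain ⟨x, hx, rfl⟩ := ho z (eB ▸ hz)
      have hy := X.mul_mem (X.mul_mem (X.mul_mem hx hτ) (X.inv_mem hx)) hτ
      have ey : pg f ℓ (x * τ * x⁻¹ * τ).1 = 1 := by
        rw [mu _ (X.mul_mem (X.mul_mem hx hτ) (X.inv_mem hx)) _ hτ,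
          mu _ (X.mul_mem hx hτ) _ (X.inv_mem hx), mu _ hx _ hτ, e2, ← d4 (pg f ℓ x.1) (eB ▸ hz.1),
          mul_assoc, mul_assoc, ← mul_assoc (pg f ℓ x.1), ← mu _ hx _ (X.inv_mem hx), mul_inv_cancel, val_one,
          pg_one t, one_mul, d2]
      obtain ⟨j, hj⟩ := unip t hR hc.lab hc.tri (env_mem hy) ey
      have hr := X.pow_mem hy (j + 1)
      refine ⟨_, ⟨X.mul_mem (X.inv_mem hr) hx,
        Subgroup.mem_centralizer_singleton_iff.2 (dihedral e1 hj)⟩, ?_⟩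
      have := mu _ hr _ (X.mul_mem (X.inv_mem hr) hx)
      rwa [mul_inv_cancel_left, pg_pow t hc.tri hy, ey, one_pow, one_mul, eq_comm] at this
  obtain ⟨g1, -, g2, -⟩ := hG _ _ f ℓ S hR fa hc cl (eB ▸ cc) (eB ▸ fun α _ h => hg α h) _ rfl
  obtain ⟨o1, -, -, o2, -⟩ := (t.op (GG p n)).1 (X ⊓ Subgroup.centralizer {τ} ⊓ KB f ℓ Sᶜ)
  have ks := fun α (g : GG p n) => ((t.blk _ f ℓ hR hc).1 α).2.2.2.2.2 g
  have en : ∀ (c : ZMod p) α, d α = c → ∀ a b, ℓ a = ℓ α → pg f ℓ (τ.1 - c • 1) a b = 0 := by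
    intro c α e a b h
    have : d a = c := by rw [← e]; simp only [d, (⟨cl.blk _ _ h, cl.blk _ _ h.symm⟩ : a ∈ S ↔ α ∈ S)]
    rw [map_sub, map_smul, e2, pg_one t]
    by_cases e : a = b <;> simp [e, ← this]
  have tm : τ ∈ Op p (X ⊓ Subgroup.centralizer {τ} ⊓ KB f ℓ Sᶜ) := by
    refine o2 (Subgroup.zpowers τ) (Subgroup.zpowers_le_of_mem ⟨⟨hτ,
      Subgroup.mem_centralizer_singleton_iff.2 rfl⟩, mem_KB.2 fun α hα => (ks α τ (env_mem hτ)).2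
        (mem_MI.2 ⟨sub_mem (env_mem hτ) hR.one, fun a b h _ => by
          simpa using en 1 α (if_neg hα) a b h⟩)⟩) (fun ψ hψ a ha => ?_) (Subgroup.mem_zpowers τ)
    have a1 := hψ 1 (one_mem _) 1 (one_mem _)
    have a2 := hψ a ha a ha
    obtain ⟨m, rfl⟩ := ha
    simp only [← (Commute.refl τ).mul_zpow, e1, _root_.one_zpow, mul_one] at a1 a2
    rw [left_eq_add.1 a1] at a2
    exact half (two_ne_zero' hp) (add_eq_zero_iff_eq_neg.1 a2.symm)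
  refine ⟨_, o1.trans (inf_le_left.trans inf_le_left), τ, ⟨tm, e1, fun z hz =>
    Subgroup.mem_centralizer_singleton_iff.1 (o1 hz).1.2, g1, fun L U hs => ?_⟩, fun h => ?_⟩
  · generalize Op p (X ⊓ Subgroup.centralizer {τ} ⊓ KB f ℓ Sᶜ) = Z at *
    have hZ := (t.env.1 Z).1
    obtain ⟨α, a1, a2⟩ := t.jh _ f _ L U hZ g2 hs
    obtain ⟨-, -, -, -, c1, -, -, c2, -⟩ := t.lc.1 ℓ S hc.lab cl
    have an : ∀ x ∈ Env Z, (∀ a b, ℓ a = ℓ α → ℓ b = ℓ α → pg f ℓ x a b = 0) →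
        ∀ u ∈ U, x *ᵥ u ∈ L := fun x hx h => (a1.ge ⟨hx, fun δ hδ a b ha hb => by
      obtain rfl : δ = α := hδ
      have ha' := le_antisymm (c2 _ _ ha.le) (c2 _ _ ha.ge)
      have hb' := le_antisymm (c2 _ _ hb.le) (c2 _ _ hb.ge)
      have := h a b ha' hb'
      rwa [LinearMap.comp_apply, gr_apply, if_pos (ha'.trans hb'.symm)] at this⟩).2
    by_cases hα : α ∈ S
    · refine Or.inr ⟨a2.trans (by rw [(c1 α hα).1, hα.2]), fun u hu => ?_⟩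
      simpa [Matrix.add_mulVec] using an _ (sub_mem (env_mem tm) (Submodule.smul_mem _ (-1) hZ.one))
        (fun a b h _ => en (-1) α (if_pos hα) a b h) u hu
    · refine Or.inl fun z hz => ⟨hs.invL _ (env_mem hz), fun u hu => ?_⟩
      simpa [Matrix.sub_mulVec] using an _ (sub_mem (env_mem hz) hZ.one)
        (mem_MI.1 ((ks α z (env_mem (o1 hz).1.1)).1 (mem_KB.1 (o1 hz).2 α hα))).2 u hu
  · have a1 := (mem_MI.1 h).2 β β rfl rfl
    have a2 := en (-1) β (if_pos ⟨hβ, rfl⟩) β β rfl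
    rw [map_sub, pg_one t] at a1
    rw [map_sub, map_smul, pg_one t] at a2
    simp only [Matrix.sub_apply, Matrix.smul_apply, Matrix.one_apply_eq, smul_eq_mul] at a1 a2
    exact two_ne_zero' hp (by linear_combination a2 - a1)

/-- `Y` is the block diagonal part of `X` -/
structure Gim (f : GG p n) (ℓ : Ix n → ℕ) (X Y : SG p n) : Prop where
  src : ∀ g ∈ Y, ∃ x ∈ X, g.1 = pg f ℓ x.1
  dst : ∀ x ∈ X, ∃ g ∈ Y, g.1 = pg f ℓ x.1

theorem exists_gim {X : SG p n} (hl : Lab ℓ) (h : TriR (Env X) f ℓ) : ∃ Y, Gim f ℓ X Y :=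
  ⟨sg (fun g => ∃ x ∈ X, g.1 = pg f ℓ x.1) ⟨1, X.one_mem, (pg_one t).symm⟩ (by
    rintro a b ⟨x, hx, e1⟩ ⟨y, hy, e2⟩
    exact ⟨x * y, X.mul_mem hx hy, by
      rw [val_mul, val_mul, pg_mul t h (env_mem hx) (env_mem hy), e1, e2]⟩),
    fun _ hg => hg, fun x hx => ⟨⟨_, (pg_par t hl (h _ (env_mem hx))).l0⟩, ⟨x, hx, rfl⟩, rfl⟩⟩

omit t in
theorem Gim.env {X Y : SG p n} (h : Gim f ℓ X Y) : Env Y = gB (Env X) f ℓ := by
  refine le_antisymm (env_le fun g hg => ?_) (Submodule.map_le_iff_le_comap.2 (env_le fun x hx => ?_))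
  · obtain ⟨x, hx, e⟩ := h.src g hg
    exact ⟨x.1, env_mem hx, e.symm⟩
  · obtain ⟨g, hg, e⟩ := h.dst x hx
    exact Submodule.mem_comap.2 (e ▸ env_mem hg)

theorem Gim.pp {X Y : SG p n} (h : Gim f ℓ X Y) (hX : TriR (Env X) f ℓ) (hP : PP p X) :
    PP p Y := fun ψ hψ g hg => by
  have := h.dst
  choose! F h1 h2 using this
  obtain ⟨x, hx, e⟩ := h.src g hg
  rw [show g = F x from Subtype.ext (e.trans (h2 x hx).symm)]
  refine hP (fun x => ψ (F x)) (fun a ha b hb => ?_) x hx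
  rw [← hψ _ (h1 a ha) _ (h1 b hb)]
  refine congrArg ψ (Subtype.ext ?_)
  rw [val_mul, h2 _ (X.mul_mem ha hb), h2 a ha, h2 b hb, val_mul,
    pg_mul t hX (env_mem ha) (env_mem hb)]

theorem tz2 (hG : S_GENCF p n) {X Y : SG p n} (hs : Stable X) (hf : Full X) (hl : Lab ℓ)
    (hX : TriR (Env X) f ℓ) (h : Gim f ℓ X Y) {b : Ix n} (hb : ¬ Y ≤ Ker ⊥ (Vb ℓ b)) :
    ∃ Z ≤ Y, ∃ τ k, Tz Z τ k ∧ ∃ x ∈ Vb ℓ b, τ.1 *ᵥ x ≠ x := by
  have hR := (t.env.1 X).1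
  have hA := (t.rad _ f ℓ hR hl hX).1
  obtain ⟨a1, a2, a3⟩ := t.env.2.2.2.2.1 ℓ _ hl hA
  obtain ⟨g, ℓ', b1, b2⟩ := (t.cfx _ 1 ℓ hl a2).2.2 a1
  have b3 := (t.cfx _ 1 ℓ hl a2).2.1 g ℓ' b1 b2.tri
  rw [a3, inv_one, one_mul] at b3
  obtain ⟨-, c1, c2⟩ := (t.cfx _ f ℓ hl hX).1 ℓ' g _ b3
  have c3 : CF (Env X) (f * g) ℓ' := ⟨b2.lab, c1, c2 ▸ b2.sim⟩
  have c4 := ((t.stcf.1 X _ _ c3).1 hs).2
  have c5 : ∀ z, U1 (gB (gB (Env X) f ℓ) g ℓ') z → ∃ y ∈ Y, pg g ℓ' y.1 = z := fun z hz => by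
    obtain ⟨x, hx, rfl⟩ := onto t hR c3 hf (c2 ▸ hz)
    obtain ⟨y, hy, e⟩ := h.dst x hx
    refine ⟨y, hy, ?_⟩
    have d1 := hX _ (env_mem hx)
    have d2 : gr ℓ (fr g (fr f x.1)) = fr g (gr ℓ (fr f x.1)) := by
      change gr ℓ (st g.1 * _ * st (st g.1)) = st g.1 * _ * st (st g.1)
      rw [st_st, gr_mul ((b3.par.1.st hl).mul d1) b3.par.1, gr_mul (b3.par.1.st hl) d1,
        b3.dg.gr_eq, (b3.dg.st hl).gr_eq]
    rw [e]
    simp only [LinearMap.comp_apply]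
    rw [(t.env.2.1 f x.1 x.1).2.2.2.2.1 g, ← d2]
    ext α β
    simp only [gr_apply]
    split_ifs with e1 e2
    exacts [rfl, absurd (le_antisymm (b1.fine _ _ e1.le) (b1.fine _ _ e1.ge)) e2, rfl]
  rw [c2] at c4
  have iv : Inv (Env Y) (Vb ℓ b) := fun x hx _ hu => (hA.dg x (h.env ▸ hx)).mulVec_mem hu
  rw [← h.env] at a1 b2 c4 c5
  obtain ⟨L, U, d1, d2, d3⟩ : ∃ L U, SS (Env Y) L U ∧ U ≤ Vb ℓ b ∧ ¬ Y ≤ Ker L U := by
    by_contra hc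
    refine hb (uni (h.pp t hX hs.1) (fun x _ u hu => ?_) iv bot_le fun L U a _ c => ?_)
    · rw [(Submodule.mem_bot _).1 hu, Matrix.mulVec_zero]; exact zero_mem _
    · by_contra e
      exact hc ⟨L, U, a, c, e⟩
  obtain ⟨β, e1, -⟩ := t.jh _ g ℓ' L U a1 b2 d1
  obtain ⟨Z, z1, τ, z2, z3⟩ := tz t hG b2 c4 c5 (β := β) fun hT => d3 fun y hy =>
    ⟨d1.invL _ (env_mem hy), fun u hu => by
      simpa [Matrix.sub_mulVec] using (e1.ge ((((t.blk _ g ℓ' a1 b2).1 β).2.2.2.2.2 y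
        (env_mem hy)).1 ((t.stcf.2.1 Y _ g ℓ' β a1 b2 le_rfl).1 hT hy))).2 u hu⟩
  refine ⟨Z, z1, τ, _, z2, ?_⟩
  by_contra hc
  push Not at hc
  exact z3 (e1.le ⟨sub_mem (env_mem (z1 z2.mem)) a1.one, fun u hu => by
    rw [Matrix.sub_mulVec, hc u (d2 hu), Matrix.one_mulVec, sub_self]; exact zero_mem _⟩)

end Pool.Agent.P.MP_f1a348_lc.UP.LT
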