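import Pool.Agent.P.MP_f1a348_lc.UP.OPMat2

/-!
Project UP: the routines for trilinear forms are correct.
-/

namespace Pool.Agent.P.MP_f1a348_lc.UP

open Matrix Module Pool.Agent.P.MP_f1a348_lc.PG

set_option linter.unusedSectionVars false

variable {p n : ℕ} [Fact p.Prime] {c : Cx}

omit [Fact p.Prime] in
theorem co0_y (h : Ok p n c) (k : Fin 3 → Ix n) : co c 0 (enc3 k) = (k 0).val := h.co 0 k

omit [Fact p.Prime] in
theorem co1_y (h : Ok p n c) (k : Fin 3 → Ix n) : co c 1 (enc3 k) = (k 1).val := h.co 1 k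

omit [Fact p.Prime] in
theorem co2_y (h : Ok p n c) (k : Fin 3 → Ix n) : co c 2 (enc3 k) = (k 2).val := h.co 2 k

omit [Fact p.Prime] in
theorem coa1_y (h : Ok p n c) (m : ℕ) (k : Fin 3 → Ix n) :
    co c (m + 1) (enc3 k) = (k (sl m + 1)).val := by
  rw [h.co, ← sl_add m 1]; rfl

omit [Fact p.Prime] in
theorem coa2_y (h : Ok p n c) (m : ℕ) (k : Fin 3 → Ix n) :
    co c (m + 2) (enc3 k) = (k (sl m + 2)).val := by
  rw [h.co, ← sl_add m 2]; rfl

omit [Fact p.Prime] in
theorem copm_y (h : Ok p n c) (k : ℕ) (j : Fin 3) (i : Fin 3 → Ix n) :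
    co c (pmN k j.val) (enc3 i) = (i (pm k j)).val := by
  rw [pmN_eq, h.co, sl_val]

theorem cast_bif_y {a b : ℕ} {P : Prop} [Decidable P] (e : a = b ↔ P) (x : ℕ) :
    ((bif a == b then x else 0 : ℕ) : ZMod p) = if P then (x : ZMod p) else 0 := by
  by_cases hP : P
  · rw [if_pos hP, beq_iff_eq.2 (e.2 hP), cond_true]
  · rw [if_neg hP, beq_false_of_ne (fun e' => hP (e.1 e')), cond_false, Nat.cast_zero]

protected theorem Ok.pull3 (h : Ok p n c) (a b d w : V) :
    fV p n (pull3 c a b d w) = pull ![mV p n a, mV p n b, mV p n d] (fV p n w) := by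
  funext i
  rw [fV, PG.pull3, dv_tab h.hp h.d3, frm_apply, cast_sm, h.len3, sum_range_top]
  refine Finset.sum_congr rfl fun k _ => ?_
  rw [Fin.prod_univ_three]
  simp only [co0_y h, co1_y h, co2_y h, Nat.cast_mul, ← h.mV_apply, ← fV_apply]
  rfl

protected theorem Ok.pull1P (h : Ok p n c) (g w : V) :
    fV p n (pull1P c g w) = pull1 (mV p n g) (fV p n w) := by
  rw [PG.pull1P, h.pull3, pull1]
  congr 2
  funext j
  fin_cases j <;> rfl

protected theorem Ok.permP (h : Ok p n c) (k : ℕ) (w : V) :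
    fV p n (permP c k w) = perm (pm k) (fV p n w) := by
  funext i
  rw [fV, PG.permP, dv_tab h.hp h.d3, frm_apply]
  have e0 : co c (pmN k 0) (enc3 i) = _ := copm_y h k 0 i
  have e1 : co c (pmN k 1) (enc3 i) = _ := copm_y h k 1 i
  have e2 : co c (pmN k 2) (enc3 i) = _ := copm_y h k 2 i
  rw [e0, e1, e2, h.dg3 fun j => i (pm k j)]
  rfl

protected theorem Ok.keyP (h : Ok p n c) (l : V) (k : Fin 3 → Ix n) :
    keyP c l (enc3 k) = key (lab n l) k := by
  rw [PG.keyP, co0_y h, co1_y h, co2_y h, dg3, h.hM]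
  rfl

protected theorem Ok.tP (h : Ok p n c) (l : V) (a : Fin 3 → Ix n) (k : ℕ) :
    tP c l (tr3 a) k = key (lab n l) fun j => a (pm k j) := by
  have e0 : (tr3 a).getD (pmN k 0) 0 = _ := tr3_getD a (pm k 0)
  have e1 : (tr3 a).getD (pmN k 1) 0 = _ := tr3_getD a (pm k 1)
  have e2 : (tr3 a).getD (pmN k 2) 0 = _ := tr3_getD a (pm k 2)
  rw [PG.tP, e0, e1, e2, dg3, h.hM]
  rfl

protected theorem Ok.cmpP (h : Ok p n c) (l : V) (t : ℕ) (w : V) :
    fV p n (cmpP c l t w) = cmp (lab n l) t (fV p n w) := by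
  funext i
  rw [fV, PG.cmpP, dv_tab h.hp h.d3, frm_apply, h.keyP, cast_bif_y Iff.rfl]
  rfl

protected theorem Ok.dif (h : Ok p n c) (T T' g : V) :
    fV p n (dif c T T' g) = pull1 (mV p n g) (fV p n T') - fV p n T := by
  rw [fV, PG.dif, dv_vsub h.hp h.d3, ← h.pull1P]

protected theorem Ok.trfP (h : Ok p n c) (m : ℕ) (C v : V) :
    fV p n (trfP c m C v) = trf (sl m) (mV p n C) (vV p n v) := by
  funext i
  rw [fV, PG.trfP, dv_tab h.hp h.d3, frm_apply, coa2_y h, coa1_y h, h.co, h.rv, h.rv, Nat.cast_mul,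
    ← h.mV_apply, ← vV_apply]
  rfl

protected theorem Ok.conP (h : Ok p n c) (m : ℕ) (C w : V) :
    vV p n (conP c m C w) = con (sl m) (mV p n C) (fV p n w) := by
  funext α
  rw [vV, PG.conP, dv_tab h.hp h.d1, vec_apply, cast_sm, h.len3, sum_range_top]
  refine Finset.sum_congr rfl fun i _ => ?_
  rw [coa2_y h, coa1_y h, h.co, h.rv, h.rv, cast_bif_y Fin.ext_iff.symm, Nat.cast_mul,
    ← h.mV_apply, ← fV_apply]

protected theorem Ok.auP (h : Ok p n c) (θ u y : V) :
    vV p n (auP c θ u y) = au (fV p n θ) (vV p n u) (vV p n y) := by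
  funext α
  rw [vV, PG.auP, dv_tab h.hp h.d1, vec_apply, cast_sm, h.len3, sum_range_top]
  refine Finset.sum_congr rfl fun i _ => ?_
  rw [co0_y h, co1_y h, co2_y h, h.rv, cast_bif_y Fin.ext_iff.symm, Nat.cast_mul, Nat.cast_mul,
    ← vV_apply, ← vV_apply, ← fV_apply]

protected theorem Ok.kapP (h : Ok p n c) (l T : V) (t : ℕ) (g : V) :
    fV p n (kapP c l T t g) = kap (lab n l) (fV p n T) t (mV p n g) := by
  rw [PG.kapP, h.cmpP, h.dif, kap]

protected theorem Ok.okP (h : Ok p n c) (l T : V) (t : ℕ) (g : V) :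
    okP c l T t g = true ↔ pull1 (mV p n g) (fV p n T) - fV p n T ∈ Van (lab n l) t := by
  rw [← h.dif, PG.okP, List.all_eq_true]
  simp only [mem_ran, h.len3, Bool.or_eq_true, Bool.not_eq_true', nz_false h.hp, Nat.ble_eq]
  constructor
  · intro H k hk
    have := H _ (enc3_lt k)
    rw [h.keyP] at this
    exact this.resolve_left (by omega)
  · intro H i hi
    obtain ⟨k, rfl⟩ := exists_enc3 hi
    rw [h.keyP]
    by_cases e : t ≤ key (lab n l) k
    · exact Or.inl e
    · exact Or.inr (H k (by omega))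

end Pool.Agent.P.MP_f1a348_lc.UP
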