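import Pool.Agent.P.MP_f1a348_lc.UP.OPDefs

/-!
Project UP: the matrix routines are correct.
-/

namespace Pool.Agent.P.MP_f1a348_lc.UP

open Matrix Module Pool.Agent.P.MP_f1a348_lc.PG

set_option linter.unusedSectionVars false

variable {p n : ℕ} [Fact p.Prime] {c : Cx}

theorem range_fin_y (m : ℕ) : List.range m = (List.finRange m).map Fin.val := by
  refine List.ext_getElem (by simp) fun i h1 h2 => ?_
  simp

theorem range_mul_y {β : Type} (f : ℕ → ℕ → List β) {b : ℕ} (hb : 0 < b) (a : ℕ) :
    ((List.range (a * b)).flatMap fun i => f (i / b) (i % b)) =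
      (List.range a).flatMap fun x => (List.range b).flatMap fun y => f x y := by
  induction a with
  | zero => simp
  | succ a ih =>
    rw [Nat.succ_mul, List.range_add, List.flatMap_append, ih, List.range_succ,
      List.flatMap_append, List.flatMap_singleton, List.flatMap_map]
    refine congrArg _ (List.flatMap_congr fun y hy => ?_)
    have hy' := List.mem_range.1 hy
    rw [Nat.add_comm, Nat.add_mul_div_right _ _ hb, Nat.div_eq_of_lt hy', Nat.zero_add,
      Nat.add_mul_mod_self_right, Nat.mod_eq_of_lt hy']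

protected theorem Ok.ran1 (h : Ok p n c) : ran (u1 c) = (List.finRange (2 * n + 1)).map Fin.val := by
  rw [ran_eq, h.len1, range_fin_y]

protected theorem Ok.flat2 (h : Ok p n c) {β : Type} (f : ℕ → ℕ → List β) :
    ((ran (u2 c)).flatMap fun i => f (i / mM c) (i % mM c)) =
      (List.finRange (2 * n + 1)).flatMap fun a =>
        (List.finRange (2 * n + 1)).flatMap fun b => f a.val b.val := by
  rw [ran_eq, h.len2, h.hM, range_mul_y f (by omega), range_fin_y, List.flatMap_map]
  simp only [List.flatMap_map]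

protected theorem Ok.mtab (h : Ok p n c) (f : ℕ → ℕ → ℕ) :
    mV p n (mtab c f) = Matrix.of fun α β : Ix n => (f α.val β.val : ZMod p) := by
  ext α β
  rw [mV, PG.mtab, dv_tab h.hp h.d2, mat_apply, h.hM, div_enc, mod_enc, Matrix.of_apply]

protected theorem Ok.mmul (h : Ok p n c) (a b : V) : mV p n (mmul c a b) = mV p n a * mV p n b := by
  ext α β
  rw [PG.mmul, h.mtab, Matrix.of_apply, cast_sm, h.len1, sum_range_ix, Matrix.mul_apply]
  exact Finset.sum_congr rfl fun k _ => by rw [h.mV_apply, h.mV_apply, Nat.cast_mul]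

protected theorem Ok.mstar (h : Ok p n c) (a : V) : mV p n (mstar c a) = st (mV p n a) := by
  ext α β
  rw [PG.mstar, h.mtab, Matrix.of_apply, st, Matrix.of_apply, h.mV_apply, h.rv, h.rv]

protected theorem Ok.mvec (h : Ok p n c) (a x : V) : vV p n (mvec c a x) = mV p n a *ᵥ vV p n x := by
  funext α
  rw [vV, PG.mvec, dv_tab h.hp h.d1, vec_apply, cast_sm, h.len1, sum_range_ix, Matrix.mulVec,
    dotProduct]
  exact Finset.sum_congr rfl fun k _ => by rw [h.mV_apply, vV_apply, Nat.cast_mul]

protected theorem Ok.ipP (h : Ok p n c) (x y : V) :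
    ((ipP c x y : ℕ) : ZMod p) = ip (vV p n x) (vV p n y) := by
  rw [PG.ipP, cast_sm, h.len1, sum_range_ix, ip]
  exact Finset.sum_congr rfl fun k _ => by rw [vV_apply, vV_apply, h.rv, Nat.cast_mul]

protected theorem Ok.grP (h : Ok p n c) (l a : V) : mV p n (grP c l a) = gr (lab n l) (mV p n a) := by
  ext α β
  rw [PG.grP, h.mtab, Matrix.of_apply]
  show _ = if lab n l α = lab n l β then mV p n a α β else 0
  by_cases e : lab n l α = lab n l β
  · rw [if_pos e, (same_iff l α β).2 e, cond_true, h.mV_apply]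
  · rw [if_neg e, Bool.eq_false_iff.2 (mt (same_iff l α β).1 e), cond_false, Nat.cast_zero]

protected theorem Ok.diagP (h : Ok p n c) (f : ℕ → Bool) :
    mV p n (diagP c f) = Matrix.diagonal fun α : Ix n => if f α.val = true then 1 else 0 := by
  ext α β
  rw [PG.diagP, h.mtab, Matrix.of_apply, Matrix.diagonal_apply]
  by_cases e : α = β
  · subst e
    cases f α.val <;> simp
  · have e' : (α.val == β.val) = false := beq_false_of_ne fun e' => e (Fin.ext e')
    rw [if_neg e, e']; simp

protected theorem Ok.oneP (h : Ok p n c) : mV p n (oneP c) = 1 := by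
  rw [PG.oneP, h.diagP]; simp

protected theorem Ok.prP (h : Ok p n c) (l : V) (α : Ix n) : mV p n (prP c l α.val) = pr (lab n l) α := by
  rw [PG.prP, h.diagP, pr]
  simp only [same_iff]

protected theorem Ok.meq (h : Ok p n c) (a b : V) : meq c a b = true ↔ mV p n a = mV p n b := by
  rw [PG.meq, isz_iff h.hp h.d2, dv_vsub h.hp h.d2, sub_eq_zero]

theorem pw_aux_y (h : Ok p n c) (g : V) (k j : ℕ) :
    mV p n ((List.range j).foldl (fun x i => bif Nat.blt i k then PG.mmul c x g else x) (oneP c)) =
      mV p n g ^ min j k := by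
  induction j with
  | zero => simp [h.oneP]
  | succ j ih =>
    rw [List.range_succ, List.foldl_append, List.foldl_cons, List.foldl_nil]
    by_cases e : j < k
    · rw [Nat.blt_eq.mpr e, cond_true, h.mmul, ih, min_eq_left e.le, min_eq_left e, pow_succ]
    · rw [Bool.eq_false_iff.2 (mt Nat.blt_eq.mp e), cond_false, ih, min_eq_right (by omega),
        min_eq_right (by omega)]

protected theorem Ok.pw (h : Ok p n c) (g : V) {k : ℕ} (hk : k ≤ p) : mV p n (pw c g k) = mV p n g ^ k := by
  rw [PG.pw, digs_eq, pw_aux_y h, h.hp, min_eq_right hk]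

protected theorem Ok.unit1 (h : Ok p n c) (α : Ix n) : vV p n (unit c (u1 c) α.val) = Pi.single α 1 := by
  funext β
  rw [vV, dv_unit h.hp h.d1, vec_apply]
  by_cases e : β = α
  · subst e; simp
  · rw [Pi.single_eq_of_ne e, Pi.single_eq_of_ne fun e' => e (Fin.ext e')]

protected theorem Ok.inB (h : Ok p n c) (l : V) (α : Ix n) (x : V) :
    inB c l α.val x = true ↔ vV p n x ∈ Vb (lab n l) α := by
  rw [PG.inB, h.ran1, List.all_map, List.all_eq_true]
  show _ ↔ ∀ β, lab n l β ≠ lab n l α → vV p n x β = 0
  refine ⟨fun H β hβ => ?_, fun H β _ => ?_⟩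
  · have := H β (List.mem_finRange β)
    simp only [Function.comp, Bool.or_eq_true, same_iff, Bool.not_eq_true', nz_false h.hp] at this
    exact this.resolve_left hβ
  · simp only [Function.comp, Bool.or_eq_true, same_iff, Bool.not_eq_true', nz_false h.hp]
    exact (em _).imp id (H β)

protected theorem Ok.nbP (h : Ok p n c) (l : V) (α : Ix n) : nbP c l α.val = nb (lab n l) α := by
  rw [PG.nbP, h.ran1, List.countP_map, nb, Fin.univ_def, List.countP_eq_length_filter]
  simp only [Finset.filter, Finset.card, Multiset.filter_coe, Multiset.coe_card]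
  refine congrArg _ (List.filter_congr fun β _ => ?_)
  rw [Bool.eq_iff_iff]
  simp only [Function.comp, same_iff, decide_eq_true_eq]

protected theorem Ok.cmbP (h : Ok p n c) (L : List V) (k : V) :
    mV p n (cmbP c L k) = cmb (L.map (mV p n)) (vV p n k) := by
  ext α β
  rw [mV, PG.cmbP, dv_tab h.hp h.d2, mat_apply, cast_sm, h.len1, sum_range_ix, cmb,
    Matrix.sum_apply]
  refine Finset.sum_congr rfl fun γ _ => ?_
  have e : (L.map (mV p n)).getD γ.val 0 = mV p n (L.getD γ.val []) := by
    rw [← dv_nil (δ := mat p n)]; exact List.getD_map ..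
  rw [Matrix.smul_apply, e, vV_apply, Nat.cast_mul, smul_eq_mul]
  rfl

protected theorem Ok.actP (h : Ok p n c) (uk : U) (b τ : V) :
    dv (tup p n uk.length) (actP c uk b τ) = act (mV p n b) (dv (tup p n uk.length) τ) := by
  funext k α
  rw [PG.actP, dv_tab h.hp (h.dt uk), tup_apply]
  show _ = (mV p n b *ᵥ dv (tup p n uk.length) τ k) α
  rw [Matrix.mulVec, dotProduct]
  split_ifs with e
  · rw [cast_sm, h.len1, sum_range_ix]
    refine Finset.sum_congr rfl fun γ _ => ?_
    rw [h.mV_apply, dv, tup_apply, if_pos e, Nat.cast_mul, h.hM, div_enc, mod_enc]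
    rfl
  · refine (Finset.sum_eq_zero fun γ _ => ?_).symm
    rw [dv, tup_apply, if_neg e, mul_zero]

end Pool.Agent.P.MP_f1a348_lc.UP
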