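import Pool.Agent.P.MP_f1a348_lc.UP.OPMat

/-!
Project UP: blocks, inverses and transporters are computed correctly.
-/

namespace Pool.Agent.P.MP_f1a348_lc.UP

open Matrix Module Pool.Agent.P.MP_f1a348_lc.PG

set_option linter.unusedSectionVars false

variable {p n : ℕ} [Fact p.Prime] {c : Cx}

/-- `y ↦ g * y.2 - y.1 • 1` -/
noncomputable def invF_y (g : Mat p n) : (ZMod p × Mat p n) →ₗ[ZMod p] Mat p n where
  toFun y := g * y.2 - y.1 • (1 : Mat p n)
  map_add' y z := by
    simp only [Prod.fst_add, Prod.snd_add, mul_add, add_smul]; abel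
  map_smul' a y := by
    simp only [Prod.smul_fst, Prod.smul_snd, RingHom.id_apply, smul_sub, mul_smul_comm,
      smul_eq_mul, mul_smul]

theorem invF_apply_y (g : Mat p n) (y : ZMod p × Mat p n) :
    invF_y g y = g * y.2 - y.1 • (1 : Mat p n) := rfl

protected theorem Ok.invP (h : Ok p n c) {g : V} {g' : Mat p n} (hg : mV p n g * g' = 1) :
    mV p n (invP c g) = g' := by
  have key := fun y => mem_preim (L := units c (() :: u2 c))
    (f := fun y => axpy c (u2 c) (ng c (y.getD 0 0)) (oneP c) (mmul c g y.tail))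
    h.hp h.d2 h.d2.pl' (invF_y (mV p n g)) (fun x _ => by
      have h1 : dv (mat p n) (oneP c) = 1 := h.oneP
      have h2 : dv (mat p n) (mmul c g x.tail) = _ := h.mmul g x.tail
      rw [dv_axpy h.hp h.d2, cast_ng h.hp, dv_pl, h1, h2, invF_apply_y, neg_smul,
        neg_add_eq_sub]) [] y
  have h1 := (key ((1 : ZMod p), g')).2 ⟨by
    rw [sp_units_top h.hp h.d2.pl' (pl_surj mat_surj)]; trivial, by
    rw [invF_apply_y, hg, one_smul, sub_self]; exact zero_mem _⟩
  have h2 := ((key _).1 (aff_getD h.hp h.d2 h1)).2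
  rw [sp_nil, Submodule.mem_bot, invF_apply_y, one_smul, sub_eq_zero] at h2
  have h3 : mV p n g * mV p n (invP c g) = 1 := h2
  rw [← one_mul (mV p n (invP c g)), ← mul_eq_one_comm.1 hg, mul_assoc, h3, mul_one]

theorem length_blkP (c : Cx) (l : V) (a : ℕ) : (blkP c l a).length ≤ pp c ^ nbP c l a := by
  rw [blkP, List.length_map, nbP, List.countP_eq_length_filter]
  exact (length_allV _ _).trans (by rw [length_unL])

protected theorem Ok.blkP_norm (h : Ok p n c) {l : V} {a : ℕ} {x : V} (hx : x ∈ blkP c l a) :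
    x.length = 2 * n + 1 := by
  obtain ⟨y, -, rfl⟩ := List.mem_map.1 hx
  rw [length_tab, h.len1]

omit [Fact p.Prime] in
theorem add_nb_le_y {ℓ : Ix n → ℕ} (h : Lab ℓ) (a : Ix n) : ℓ a + nb ℓ a ≤ 2 * n + 1 := by
  have h3 : (Finset.univ.filter fun γ => ℓ γ = ℓ a).image Fin.val ⊆
      Finset.Ico (ℓ a) (2 * n + 1) := by
    intro x hx
    obtain ⟨γ, hγ, rfl⟩ := Finset.mem_image.1 hx
    simp only [Finset.mem_filter, Finset.mem_univ, true_and] at hγ
    exact Finset.mem_Ico.2 ⟨hγ ▸ h.le γ, γ.2⟩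
  have h4 := Finset.card_le_card h3
  rw [Finset.card_image_of_injective _ Fin.val_injective, Nat.card_Ico] at h4
  have := h.le a
  have := a.2
  unfold nb
  omega

theorem blk_apply_y (h : Ok p n c) (l : V) (α : Ix n) (x : V) (β : Ix n) :
    dv (vec p n) (tab c (u1 c) fun j =>
      bif same l j α.val then x.getD (j - l.getD α.val 0) 0 else 0) β =
      if lab n l β = lab n l α then tv p x (β.val - lab n l α) else 0 := by
  rw [dv_tab h.hp h.d1, vec_apply]
  split_ifs with e
  · rw [(same_iff l β α).2 e]; rfl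
  · rw [Bool.eq_false_iff.2 fun e' => e ((same_iff l β α).1 e')]
    exact Nat.cast_zero

protected theorem Ok.blkP (h : Ok p n c) {l : V} (hl : Lab (lab n l)) (α : Ix n) :
    Enum (vec p n) (blkP c l α.val) (Vb (lab n l) α : VS p n) := by
  have hu : (unL ((ran (u1 c)).filter fun j => same l j α.val)).length = nb (lab n l) α := by
    rw [length_unL, ← List.countP_eq_length_filter, ← h.nbP, nbP]
  have hb := add_nb_le_y hl α
  refine ⟨fun y => ⟨fun hy => ?_, ?_⟩, ?_⟩
  · obtain ⟨x, hx, e⟩ := allV_complete h.hp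
      (u := unL ((ran (u1 c)).filter fun j => same l j α.val))
      (h.pow_le' (by rw [hu]; omega))
      (fun i => if hi : lab n l α + i < 2 * n + 1 then y ⟨_, hi⟩ else 0)
    refine ⟨_, List.mem_map_of_mem hx, funext fun β => ?_⟩
    rw [blk_apply_y h]
    split_ifs with e'
    · obtain ⟨h1, h2⟩ := (hl.block α β).1 e'
      have h3 : lab n l α + (β.val - lab n l α) = β.val := by omega
      rw [e _ (by rw [hu]; omega), dif_pos (by rw [h3]; exact β.2)]
      exact congrArg y (Fin.ext h3)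
    · exact (hy β e').symm
  · rintro ⟨_, hx, rfl⟩ β hβ
    obtain ⟨x, -, rfl⟩ := List.mem_map.1 hx
    rw [blk_apply_y h, if_neg hβ]
  · rw [PG.blkP, List.map_map]
    refine (allV_nodup _ _).map_on fun x hx y hy e => allV_inj h.hp hx hy fun i hi => ?_
    rw [hu] at hi
    have h1 : lab n l ⟨lab n l α + i, by omega⟩ = lab n l α :=
      (hl.block α _).2 ⟨Nat.le_add_right _ _, Nat.add_lt_add_left hi _⟩
    have h2 := congrFun e ⟨lab n l α + i, by omega⟩
    simp only [Function.comp_apply] at h2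
    rw [blk_apply_y h, blk_apply_y h, if_pos h1, if_pos h1] at h2
    simpa only [Nat.add_sub_cancel_left] using h2

/-- `h ↦ act h τ` -/
noncomputable def actL_y (τ : Tup p n) : Mat p n →ₗ[ZMod p] Tup p n where
  toFun b := act b τ
  map_add' a b := by funext k; exact Matrix.add_mulVec a b (τ k)
  map_smul' a b := by funext k; exact Matrix.smul_mulVec a b (τ k)

theorem all_sp_y {K : ℕ} (b : Mat p n) (D : List V) (W : Submodule (ZMod p) (Tup p n)) :
    (∀ t ∈ D, act b (dv (tup p n K) t) ∈ W) ↔ ∀ τ ∈ sp (tup p n K) D, act b τ ∈ W :=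
  (sp_le (W := W.comap (act b))).symm

protected theorem Ok.htP (h : Ok p n c) (uk : U) (H D D' : List V) :
    sp (mat p n) (htP c uk H D D') =
      Ht (sp (mat p n) H) (sp (tup p n uk.length) D) (sp (tup p n uk.length) D') := by
  ext y
  rw [PG.htP, mem_preAll h.hp (h.dt uk) h.d2 _
      (fun t => actL_y (dv (tup p n uk.length) t) ∘ₗ stL) (fun t _ x => by
        rw [h.actP, h.mstar]; rfl),
    mem_preAll h.hp (h.dt uk) h.d2 _ (fun t => actL_y (dv (tup p n uk.length) t))
      (fun t _ x => by rw [h.actP]; rfl), mem_Ht, and_assoc, ← all_sp_y, ← all_sp_y]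
  rfl

theorem elm_y (h : Ok p n c) (α β : Ix n) : mV p n (elmP c α.val β.val) = elm α β := by
  rw [elmP, h.mtab, h.rv, h.rv]
  ext i j
  simp only [Matrix.of_apply, elm, Matrix.sub_apply, Matrix.add_apply, Matrix.one_apply,
    Matrix.single_apply, Bool.cond_eq_ite, Bool.and_eq_true, beq_iff_eq, Fin.val_inj, Nat.cast_add,
    Nat.cast_ite, Nat.cast_one, Nat.cast_zero, cast_ng h.hp, sub_eq_add_neg,
    @eq_comm _ α, @eq_comm _ β, @eq_comm _ α.rev, @eq_comm _ β.rev]
  congr 1
  split_ifs <;> simp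

protected theorem Ok.pc0P (h : Ok p n c) (l : V) : (pc0P c l).map (mV p n) = pc0 (lab n l) := by
  rw [PG.pc0P, h.ran1, List.flatMap_map, List.map_flatMap, pc0]
  refine List.flatMap_congr fun β _ => ?_
  rw [List.filterMap_map, List.map_filterMap]
  refine List.filterMap_congr fun α _ => ?_
  simp only [Function.comp_apply, Bool.cond_eq_ite, Bool.and_eq_true, Nat.blt_eq, h.cz]
  have e : (n < α.val ∧ l.getD α.val 0 < l.getD β.val 0) ↔
      (c0 n < α ∧ lab n l α < lab n l β) := Iff.rfl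
  simp only [e]
  split_ifs
  · rw [Option.map_some, elm_y h]
  · rfl

omit [Fact p.Prime] in
theorem lab_map_y (h : Ok p n c) (f : ℕ → ℕ) (β : Ix n) :
    lab n ((ran (u1 c)).map f) β = f β.val := by
  have := β.2
  simp [lab, ran_eq, h.len1, this]

protected theorem Ok.l0P (h : Ok p n c) : lab n (l0P c) = l0 n := by
  funext β
  rw [PG.l0P, lab_map_y h, h.cz]
  simp only [Bool.cond_eq_ite, Nat.blt_eq, beq_iff_eq, l0]

protected theorem Ok.cutP (h : Ok p n c) {l : V} (hl : Lab (lab n l)) (α : Ix n) (m : ℕ) :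
    lab n (cutP c l α.val m) = cutL (lab n l) α m := by
  funext β
  rw [PG.cutP, lab_map_y h, h.hM]
  simp only [Bool.cond_eq_ite, Nat.ble_eq]
  refine Nat.mod_eq_of_lt ?_
  have h1 : l.getD β.val 0 ≤ β.val := hl.le β
  have h2 := β.2
  split_ifs <;> omega

protected theorem Ok.orbP (h : Ok p n c) (B : List V) (x : V) :
    Bas (vec p n) (2 * n + 1) (orbP c B x) (orb (sp (mat p n) B) (vV p n x)) := by
  have h1 := basis_bas h.hp h.d1 (B.map fun b => mvec c b x)
  rw [sp_map (δ := mat p n) (evx (vV p n x)) (fun b _ => h.mvec b x), h.len1] at h1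
  exact h1

protected theorem Ok.conjP (h : Ok p n c) (l g' g : V) (H : List V) :
    sp (mat p n) (conjP c l g' g H) =
      (sp (mat p n) H).map (gr (lab n l) ∘ₗ lr (st (mV p n g')) (mV p n g)) := by
  rw [PG.conjP, (basis_bas h.hp h.d2 _).sp]
  refine sp_map _ fun x _ => (h.grP _ _).trans ?_
  rw [h.mmul, h.mmul, h.mstar]
  rfl

protected theorem Ok.b0P (h : Ok p n c) (g : Mat p n) : g ∈ sp (mat p n) (b0P c) ↔ Dg (l0 n) g := by
  rw [PG.b0P, (basis_bas h.hp h.d2 _).sp,
    sp_map (δ := mat p n) (gr (l0 n)) (fun x _ => by rw [← h.l0P]; exact h.grP _ x),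
    sp_units_top h.hp h.d2 mat_surj]
  exact ⟨fun ⟨b, _, e⟩ => e ▸ dg_gr b, fun hg => ⟨g, trivial, hg.gr_eq⟩⟩

end Pool.Agent.P.MP_f1a348_lc.UP
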