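import Pool.Agent.P.MP_f1a348_lc.UP.OPFrm2

/-!
Project UP: the definitions used in the specifications of the program.
-/

namespace Pool.Agent.P.MP_f1a348_lc.UP

open Matrix Module Pool.Agent.P.MP_f1a348_lc.PG

set_option linter.unusedSectionVars false

variable {p n : ℕ} [Fact p.Prime] {c : Cx}

/-- one refinement step, with change of basis `g` -/
structure Stp (p n : ℕ) (T0 T0' : V) (z z' : Lt × List Rt) (g : Mat p n) : Prop where
  ref : Ref (lab n z.1.1) (alL p n z.1) (lab n z'.1.1) g (alL p n z'.1)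
  mul : mV p n z'.1.2.1 = mV p n z.1.2.1 * g
  len : z'.2.length = z.2.length
  inv : (∃ y ∈ z.2, Inv p n T0 T0' z.1 y) → ∃ y ∈ z'.2, Inv p n T0 T0' z'.1 y

theorem sdL_B (c : Cx) (T0 : V) (x : Lt) : (sdD p n (sdL c T0 x)).B = alL p n x := rfl

protected theorem Ok.sdL_T (h : Ok p n c) (T0 : V) (x : Lt) :
    (sdD p n (sdL c T0 x)).T = pull1 (mV p n x.2.1) (fV p n T0) := h.pull1P _ _

end Pool.Agent.P.MP_f1a348_lc.UP
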