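import Pool.Agent.P.MP_f1a348_lc.UP.OQDefs

/-!
Project UP: adapted changes of basis.
-/

namespace Pool.Agent.P.MP_f1a348_lc.UP

open Matrix Module Pool.Agent.P.MP_f1a348_lc.PG

set_option linter.unusedSectionVars false

variable {p n : ℕ} [Fact p.Prime] {c : Cx} {l : V}

namespace QMkgy

/-- one step of the extension -/
def stp (c : Cx) (l : V) (a : ℕ) (L : List V) (j : ℕ) : List V :=
  bif same l j a && !mem c (u1 c) L (unit c (u1 c) j) then L ++ [unit c (u1 c) j] else L

theorem stp_spec (h : Ok p n c) (α β : Ix n) (L : List V)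
    (h1 : L.length = finrank (ZMod p) (sp (vec p n) L)) (h2 : sp (vec p n) L ≤ Vb (lab n l) α) :
    L <+: stp c l α.val L β.val ∧
    (stp c l α.val L β.val).length = finrank (ZMod p) (sp (vec p n) (stp c l α.val L β.val)) ∧
    sp (vec p n) (stp c l α.val L β.val) ≤ Vb (lab n l) α ∧
    (lab n l β = lab n l α → Pi.single β 1 ∈ sp (vec p n) (stp c l α.val L β.val)) := by
  have hu : dv (vec p n) (unit c (u1 c) β.val) = Pi.single β 1 := h.unit1 β
  have hm := mem_iff h.hp h.d1 L (unit c (u1 c) β.val)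
  rw [hu] at hm
  unfold stp
  by_cases e1 : lab n l β = lab n l α
  · rw [(same_iff l β α).2 e1, Bool.true_and]
    by_cases e2 : mem c (u1 c) L (unit c (u1 c) β.val) = true
    · rw [e2]
      exact ⟨List.prefix_rfl, h1, h2, fun _ => hm.1 e2⟩
    · have e3 : sp (vec p n) (L ++ [unit c (u1 c) β.val]) =
          sp (vec p n) L ⊔ Submodule.span (ZMod p) {Pi.single β 1} := by
        rw [sp_append, sp_cons, sp_nil, sup_bot_eq, hu]
      rw [Bool.not_eq_true] at e2
      rw [e2]
      show L <+: L ++ _ ∧ (L ++ _).length = finrank (ZMod p) (sp (vec p n) (L ++ _)) ∧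
        sp (vec p n) (L ++ _) ≤ _ ∧ (_ → _ ∈ sp (vec p n) (L ++ _))
      rw [e3]
      refine ⟨List.prefix_append _ _, ?_, sup_le h2 ?_, fun _ =>
        Submodule.mem_sup_right (Submodule.mem_span_singleton_self _)⟩
      · rw [rank_sup_x fun e => by rw [← hm, e2] at e; exact Bool.noConfusion e,
          List.length_append, h1, List.length_singleton]
      · rw [Submodule.span_singleton_le_iff_mem]
        exact single_mem_Vb e1 1
  · have e2 : same l β.val α.val = false := by
      rw [← Bool.not_eq_true, same_iff]; exact e1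
    rw [e2, Bool.false_and]
    exact ⟨List.prefix_rfl, h1, h2, fun e => absurd e e1⟩

theorem sp_mono {L E : List V} (h : L <+: E) : sp (vec p n) L ≤ sp (vec p n) E :=
  sp_le.2 fun _ hx => mem_sp (h.subset hx)

theorem fold_spec (h : Ok p n c) (α : Ix n) (I : List (Ix n)) (L : List V)
    (h1 : L.length = finrank (ZMod p) (sp (vec p n) L)) (h2 : sp (vec p n) L ≤ Vb (lab n l) α) :
    L <+: (I.map Fin.val).foldl (stp c l α.val) L ∧
    ((I.map Fin.val).foldl (stp c l α.val) L).length =
      finrank (ZMod p) (sp (vec p n) ((I.map Fin.val).foldl (stp c l α.val) L)) ∧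
    sp (vec p n) ((I.map Fin.val).foldl (stp c l α.val) L) ≤ Vb (lab n l) α ∧
    ∀ β ∈ I, lab n l β = lab n l α →
      Pi.single β 1 ∈ sp (vec p n) ((I.map Fin.val).foldl (stp c l α.val) L) := by
  induction I generalizing L with
  | nil => exact ⟨List.prefix_rfl, h1, h2, fun _ hβ => absurd hβ List.not_mem_nil⟩
  | cons β I ih =>
    obtain ⟨a1, a2, a3, a4⟩ := stp_spec h α β L h1 h2
    obtain ⟨b1, b2, b3, b4⟩ := ih _ a2 a3
    rw [List.map_cons, List.foldl_cons]
    refine ⟨a1.trans b1, b2, b3, fun γ hγ e => ?_⟩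
    rcases List.mem_cons.1 hγ with rfl | hγ
    · exact sp_mono b1 (a4 e)
    · exact b4 γ hγ e

theorem top_of_single {S : VS p n} (h : ∀ β, Pi.single β 1 ∈ S) (x : Vec p n) : x ∈ S := by
  rw [pi_eq_sum_univ' x]
  exact Submodule.sum_mem _ fun β _ => Submodule.smul_mem _ _ (h β)

theorem ext_spec (h : Ok p n c) (α : Ix n) (L : List V)
    (h1 : L.length = finrank (ZMod p) (sp (vec p n) L)) (h2 : sp (vec p n) L ≤ Vb (lab n l) α) :
    L <+: extP c l α.val L ∧ (extP c l α.val L).length = nb (lab n l) α ∧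
      sp (vec p n) (extP c l α.val L) = Vb (lab n l) α := by
  have e : extP c l α.val L =
      ((List.finRange (2 * n + 1)).map Fin.val).foldl (stp c l α.val) L := by
    rw [extP, h.ran1]; rfl
  obtain ⟨b1, b2, b3, b4⟩ := fold_spec h α (List.finRange (2 * n + 1)) L h1 h2
  rw [← e] at b1 b2 b3 b4
  have b5 : sp (vec p n) (extP c l α.val L) = Vb (lab n l) α := by
    refine le_antisymm b3 fun x hx => ?_
    rw [pi_eq_sum_univ' x]
    refine Submodule.sum_mem _ fun β _ => ?_
    by_cases e1 : lab n l β = lab n l α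
    · exact Submodule.smul_mem _ _ (b4 β (List.mem_finRange β) e1)
    · rw [hx β e1, zero_smul]; exact zero_mem _
  exact ⟨b1, by rw [b2, b5, finrank_Vb], b5⟩

theorem g1_apply (h : Ok p n c) (α : Ix n) (E : List V) (γ β : Ix n) :
    mV p n (g1P c l α.val E) γ β = if lab n l β = lab n l α then
      vV p n (E.getD (β.val - lab n l α) []) γ else (1 : Mat p n) γ β := by
  rw [g1P, h.mtab, Matrix.of_apply]
  by_cases e1 : lab n l β = lab n l α
  · rw [(same_iff l β α).2 e1, if_pos e1]; rfl
  · have e2 : same l β.val α.val = false := by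
      rw [← Bool.not_eq_true, same_iff]; exact e1
    rw [e2, if_neg e1, Matrix.one_apply]
    by_cases e3 : γ = β
    · simp [e3]
    · simp [e3, beq_false_of_ne (Fin.val_ne_of_ne e3)]

theorem getD_mem (E : List V) (i : ℕ) : vV p n (E.getD i []) ∈ sp (vec p n) E := by
  by_cases e : i < E.length
  · rw [List.getD_eq_getElem _ _ e]; exact mem_sp (List.getElem_mem e)
  · rw [List.getD_eq_default _ _ (not_lt.1 e), vV, dv_nil]; exact zero_mem _

end QMkgy

protected theorem Ok.mkg (h : Ok p n c) (m : PM p n) (hl : Lab (lab n l)) {α : Ix n}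
    (hα : c0 n < α) {L : List V} {W : VS p n} (hW : Bas (vec p n) (2 * n + 1) L W)
    (hle : W ≤ Vb (lab n l) α) : Ad (lab n l) α W (mV p n (mkg c l α.val L)) := by
  obtain ⟨b1, b2, b3⟩ := QMkgy.ext_spec (l := l) h α L (by rw [hW.sp, hW.len]) (hW.sp ▸ hle)
  rw [PG.mkg]
  generalize extP c l α.val L = E at b1 b2 b3
  have hG := QMkgy.g1_apply (l := l) h α E
  have hcol : ∀ β, (fun γ => mV p n (g1P c l α.val E) γ β) ∈
      LinearMap.range (mV p n (g1P c l α.val E)).mulVecLin := fun β =>
    ⟨Pi.single β 1, by funext γ; simp⟩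
  have hs : Function.Surjective (mV p n (g1P c l α.val E)).mulVec := by
    intro x
    refine QMkgy.top_of_single (S := LinearMap.range (mV p n (g1P c l α.val E)).mulVecLin)
      (fun β => ?_) x
    by_cases e1 : lab n l β = lab n l α
    · have h1 : Vb (lab n l) α ≤ LinearMap.range (mV p n (g1P c l α.val E)).mulVecLin := by
        rw [← b3, sp_le]
        intro y hy
        obtain ⟨i, hi, rfl⟩ := List.getElem_of_mem hy
        have h2 := add_nb_le_y hl α
        have h3 : lab n l ⟨lab n l α + i, by omega⟩ = lab n l α :=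
          (hl.block α _).2 ⟨Nat.le_add_right _ _, by show lab n l α + i < _; omega⟩
        have h4 := hcol ⟨lab n l α + i, by omega⟩
        simp only [hG, if_pos h3, Nat.add_sub_cancel_left, List.getD_eq_getElem _ _ hi] at h4
        exact h4
      exact h1 (single_mem_Vb e1 1)
    · have h4 := hcol β
      simp only [hG, if_neg e1] at h4
      have h5 : (fun γ => (1 : Mat p n) γ β) = Pi.single β 1 := by
        funext γ; rw [Matrix.one_apply, Pi.single_apply]
      rwa [h5] at h4
  obtain ⟨G', hG'⟩ := Matrix.mulVec_surjective_iff_exists_right_inverse.1 hs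
  rw [h.mmul, h.mstar, h.invP hG']
  refine m.mkg _ α W _ G' hl hα hG' (fun γ β e => by rw [hG, if_neg e]) (fun γ β e e' => ?_)
    fun β e hβ => ?_
  · rw [hG, if_pos e]
    exact (b3 ▸ QMkgy.getD_mem E _ : _ ∈ Vb (lab n l) α) γ e'
  · simp only [hG, if_pos e]
    obtain ⟨T, rfl⟩ := b1
    have h1 := ((hl.block α β).1 e).1
    rw [List.getD_append _ _ _ _ (by rw [hW.len]; omega), ← hW.sp]
    exact QMkgy.getD_mem L _

end Pool.Agent.P.MP_f1a348_lc.UP
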