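import Pool.Agent.P.MP_f1a348_lc.UP.OQDefs

/-!
Project UP: the data attached to a side are computed correctly.
-/

namespace Pool.Agent.P.MP_f1a348_lc.UP

open Matrix Module Pool.Agent.P.MP_f1a348_lc.PG

set_option linter.unusedSectionVars false

variable {p n : ℕ} [Fact p.Prime] {c : Cx} {l : V} {s : Sd}

namespace QSidey

theorem com_iff (B : List V) (C : Mat p n) :
    C ∈ Com (sp (mat p n) B) ↔ ∀ x ∈ B, C * mV p n x - mV p n x * C = 0 := by
  refine ⟨fun e x hx => sub_eq_zero.2 (e _ (mem_sp hx)), fun e b hb => ?_⟩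
  have : sp (mat p n) B ≤ LinearMap.ker
      (LinearMap.mulLeft (ZMod p) C - LinearMap.mulRight (ZMod p) C) := sp_le.2 fun x hx => e x hx
  exact sub_eq_zero.1 (this hb)

theorem all1 (h : Ok p n c) (f : ℕ → Bool) :
    (ran (u1 c)).all f = true ↔ ∀ a : Ix n, f a.val = true := by
  rw [List.all_eq_true]
  simp only [mem_ran, h.len1]
  exact ⟨fun e a => e _ a.2, fun e i hi => e ⟨i, hi⟩⟩

theorem len (h : Ok p n c) (hs : Gd p n l s) (a b : Ix n) :
    (csg c s a.val b.val).length = finrank (ZMod p) (Cb (lab n l) (sdD p n s).B a b) := by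
  rw [← hs.len, ← h.csg, List.length_map]

theorem emp (h : Ok p n c) (hs : Gd p n l s) (a b : Ix n) :
    (csg c s a.val b.val).isEmpty = true ↔ Cb (lab n l) (sdD p n s).B a b = ⊥ := by
  rw [List.isEmpty_iff_length_eq_zero, len h hs, Submodule.finrank_eq_zero]

end QSidey

protected theorem Ok.cbP (h : Ok p n c) (l : V) (B : List V) (a b : Ix n) :
    Bas (mat p n) (u2 c).length (cbP c l B a.val b.val) (Cb (lab n l) (sp (mat p n) B) a b) := by
  have h1 := preAll_bas h.hp h.d2 h.d2 (preim c (u2 c) (u2 c) (units c (u2 c))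
    (fun C => vsub c (u2 c) (mmul c (mmul c (prP c l a.val) C) (prP c l b.val)) C) []) (ts := B)
    (f := fun x C => vsub c (u2 c) (mmul c C x) (mmul c x C))
    (fun x => LinearMap.mulRight (ZMod p) (mV p n x) - LinearMap.mulLeft (ZMod p) (mV p n x))
    (fun t _ x => by
      rw [dv_vsub h.hp h.d2]
      exact congrArg₂ _ (h.mmul _ _) (h.mmul _ _)) []
  refine (congrArg (Bas (mat p n) (u2 c).length (PG.cbP c l B a.val b.val)) ?_).mp h1
  ext C
  rw [Submodule.mem_inf, mem_preim h.hp h.d2 h.d2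
    (lr (pr (lab n l) a) (pr (lab n l) b) - LinearMap.id) (fun x _ => by
      rw [dv_vsub h.hp h.d2]
      refine congrArg₂ _ ?_ rfl
      show mV p n _ = _
      rw [h.mmul, h.mmul, h.prP, h.prP, lr_apply]), sp_units_top h.hp h.d2 mat_surj, mem_Cb,
    QSidey.com_iff]
  simp only [sp_nil, Submodule.mem_bot, Submodule.mem_top, true_and, Submodule.mem_iInf,
    Submodule.mem_comap, LinearMap.sub_apply, lr_apply, LinearMap.id_apply,
    LinearMap.mulRight_apply, LinearMap.mulLeft_apply]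
  rw [sub_eq_zero, and_comm]

protected theorem Ok.good (h : Ok p n c) (T0 : V) {x : Lt} (hx : Str (lab n x.1) (alL p n x)) :
    Gd p n x.1 (sdL c T0 x) := by
  have e : ∀ a b : Ix n, (sdD p n (sdL c T0 x)).Cs a b =
      (PG.cbP c x.1 x.2.2 a.val b.val).map (mV p n) := fun a b => by
    show ((csP c x.1 x.2.2).getD (a.val * (2 * n + 1) + b.val) []).map (mV p n) = _
    have hl := enc2_lt a b
    rw [csP, ran_eq, h.len2, List.getD_eq_getElem _ _ (by simpa using hl), List.getElem_map,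
      List.getElem_range, h.hM, div_enc, mod_enc]
  refine ⟨hx, fun a b => ?_, fun a b => ?_⟩
  · rw [e]; exact (h.cbP x.1 x.2.2 a b).sp
  · rw [e, List.length_map]; exact (h.cbP x.1 x.2.2 a b).len

protected theorem Ok.trivP (h : Ok p n c) (hs : Gd p n l s) (a : Ix n) :
    trivP c s a.val = true ↔ Triv (lab n l) (sdD p n s).B a := by
  rw [PG.trivP, h.cz, Bool.not_eq_true', ← Bool.not_eq_true, Triv]
  exact not_congr (QSidey.emp h hs a (c0 n))

protected theorem Ok.eoP (h : Ok p n c) (hs : Gd p n l s) :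
    mV p n (eoP c s) = eo (lab n l) (sdD p n s).B := by
  rw [PG.eoP, h.diagP, eo]
  refine congrArg _ (funext fun α => ?_)
  by_cases t : Triv (lab n l) (sdD p n s).B α
  · rw [if_pos t, (h.trivP hs α).2 t]; rfl
  · rw [if_neg t, if_pos]
    rw [Bool.not_eq_true', ← Bool.not_eq_true, h.trivP hs]
    exact t

protected theorem Ok.z0P (h : Ok p n c) (hs : Gd p n l s) :
    mV p n (z0P c s) = z0 (lab n l) (sdD p n s).B := by
  rw [PG.z0P, mV, dv_axpy h.hp h.d2, cast_ng h.hp, z0, ← h.eoP hs, ← h.oneP, neg_smul,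
    neg_add_eq_sub, Nat.cast_ofNat]

protected theorem Ok.csoP (h : Ok p n c) (hs : Gd p n l s) (a b : Ix n) :
    (csoP c s a.val b.val).map (mV p n) = Cso (lab n l) (sdD p n s) a b := by
  rw [PG.csoP, Cso]
  by_cases t : Triv (lab n l) (sdD p n s).B b
  · rw [if_pos t, (h.trivP hs b).2 t]; rfl
  · rw [if_neg t, Bool.eq_false_iff.2 (mt (h.trivP hs b).1 t), cond_false, h.csg]

protected theorem Ok.clP (h : Ok p n c) (s : Sd) : (clP c s).map (mV p n) = CL (sdD p n s) := by
  rw [PG.clP, h.flat2 (csg c s), CL]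
  simp only [List.map_flatMap, h.csg]

protected theorem Ok.colP (h : Ok p n c) (hs : Gd p n l s) :
    (colP c s).map (mV p n) = CoL (lab n l) (sdD p n s) := by
  rw [PG.colP, h.flat2 (PG.csoP c s), CoL]
  simp only [List.map_flatMap, h.csoP hs]

protected theorem Ok.dbP (h : Ok p n c) (hs : Gd p n l s) (a : Ix n) :
    dbP c l s a.val = db (lab n l) (sdD p n s).B a := by
  rw [PG.dbP, h.nbP, QSidey.len h hs, db, eb]

protected theorem Ok.phiP (h : Ok p n c) (hs : Gd p n l s) :
    phiP c l s = Phi (lab n l) (sdD p n s).B := by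
  rw [PG.phiP, sm_eq, h.len1, sum_range_ix, Phi]
  refine Finset.sum_congr rfl fun α _ => ?_
  have e : (!trivP c s α.val && (ran (u1 c)).all (fun b => Nat.ble (l.getD α.val 0) (l.getD b 0) ||
      (csg c s α.val b).isEmpty)) = true ↔
      ¬ Triv (lab n l) (sdD p n s).B α ∧ First (lab n l) (sdD p n s).B α := by
    rw [Bool.and_eq_true, Bool.not_eq_true', ← Bool.not_eq_true, h.trivP hs, QSidey.all1 h, First]
    refine and_congr_right fun _ => forall_congr' fun β => ?_
    rw [Bool.or_eq_true, Nat.ble_eq, QSidey.emp h hs, imp_iff_not_or, not_lt]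
    rfl
  rw [Bool.cond_eq_ite, h.dbP hs, Nat.size_eq_bits_len]
  by_cases t : ¬ Triv (lab n l) (sdD p n s).B α ∧ First (lab n l) (sdD p n s).B α
  · rw [if_pos t, if_pos (e.2 t)]
  · rw [if_neg t, if_neg (mt e.1 t)]

protected theorem Ok.bigP (h : Ok p n c) (hs : Gd p n l s) :
    bigP c l s = true ↔ Big (lab n l) (sdD p n s).B 30 := by
  rw [PG.bigP, QSidey.all1 h, Big]
  refine forall_congr' fun a => ?_
  rw [Bool.or_eq_true, Nat.ble_eq, h.trivP hs, h.dbP hs, or_iff_not_imp_left]

protected theorem Ok.isotP (h : Ok p n c) (hs : Gd p n l s) (x : V) :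
    isotP c s x = true ↔ Isot (sdD p n s).B (vV p n x) := by
  rw [PG.isotP, List.all_eq_true, Isot, ← hs.spL_CL, ← h.clP]
  simp only [mod_eq_zero_iff h.hp, h.ipP, h.mvec]
  refine ⟨fun e C hC => ?_, fun e C hC => e _ (mem_spL (List.mem_map_of_mem hC))⟩
  induction hC using Submodule.span_induction with
  | mem C hC =>
    obtain ⟨y, hy, rfl⟩ := List.mem_map.1 hC
    exact e y hy
  | zero => rw [Matrix.zero_mulVec, ip_zero_left]
  | add C D _ _ h1 h2 => rw [Matrix.add_mulVec, ip_add_left, h1, h2, add_zero]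
  | smul a C _ h1 => rw [Matrix.smul_mulVec, ip_smul_left, h1, mul_zero]

protected theorem Ok.trL (h : Ok p n c) (hs : Gd p n l s) :
    sp (frm p n) (trL c s) = Tr (lab n l) (sdD p n s).B := by
  refine le_antisymm (sp_le.2 fun x hx => ?_) (Submodule.span_le.2 ?_)
  · simp only [PG.trL, List.mem_flatMap, List.mem_cons, List.not_mem_nil, or_false] at hx
    obtain ⟨C, hC, v, -, e⟩ := hx
    have hC' : mV p n C ∈ Co (lab n l) (sdD p n s).B := by
      rw [← hs.spL_CoL, ← h.colP hs]
      exact mem_spL (List.mem_map_of_mem hC)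
    have k : ∀ m, fV p n (trfP c m C v) ∈ Tr (lab n l) (sdD p n s).B := fun m => by
      rw [h.trfP]; exact trf_mem_Tr _ hC' _
    rcases e with rfl | rfl | rfl <;> exact k _
  · rintro _ ⟨m, C, hC, v, rfl⟩
    rw [← hs.spL_CoL, ← h.colP hs] at hC
    show _ ∈ sp (frm p n) (PG.trL c s)
    induction hC using Submodule.span_induction with
    | mem C hC =>
      obtain ⟨y, hy, rfl⟩ := List.mem_map.1 hC
      have : sp (vec p n) (units c (u1 c)) ≤
          (sp (frm p n) (PG.trL c s)).comap (trf m (mV p n y)) := sp_le.2 fun u hu => by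
        show trf m (mV p n y) (vV p n u) ∈ sp (frm p n) (PG.trL c s)
        rw [← sl_val m, ← h.trfP]
        refine mem_sp (List.mem_flatMap.2 ⟨y, hy, List.mem_flatMap.2 ⟨u, hu, ?_⟩⟩)
        fin_cases m <;> simp
      rw [sp_units_top h.hp h.d1 vec_surj] at this
      exact this trivial
    | zero => rw [trf_zero]; exact zero_mem _
    | add C D _ _ h1 h2 => rw [trf_add]; exact add_mem h1 h2
    | smul a C _ h1 => rw [trf_smul]; exact Submodule.smul_mem _ _ h1

protected theorem Ok.hatP (h : Ok p n c) (hs : Gd p n l s) (a : Fin 3 → Ix n) (θ q y : V) :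
    hV p n (hatP c s (tr3 a) θ q y) =
      hat (lab n l) (sdD p n s) a (fV p n θ) (hV p n q) (hV p n y) := by
  have e0 : (tr3 a).getD 0 0 = (a 0).val := rfl
  have e1 : (tr3 a).getD 1 0 = (a 1).val := rfl
  have e2 : (tr3 a).getD 2 0 = (a 2).val := rfl
  rw [PG.hatP, hV_append (by rw [length_axpy, h.len1]), e0, e1, e2, h.rv, h.rv, hV_eq q, hV_eq y]
  refine Prod.ext ?_ (funext fun i => ?_)
  · rw [hat_fst]
    show vV p n _ = _
    rw [vV, dv_axpy h.hp h.d1, dv_axpy h.hp h.d1, Nat.cast_one, one_smul, one_smul]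
    refine congrArg₂ _ (congrArg₂ _ (h.auP _ _ _) ?_) ?_
    · show vV p n _ = _
      rw [h.mvec, h.cmbP, h.csoP hs, h.hM]
    · show vV p n _ = _
      rw [h.mvec, h.cmbP, h.csoP hs, h.hM]
  · rw [hat_snd, ← h.csoP hs, getD_mV_y, ← h.mvec, ← h.ipP]
    show vV p n _ i = _
    rw [vV, dv_tab h.hp h.d1, vec_apply]

protected theorem Ok.rngP (h : Ok p n c) (hs : Gd p n l s) (a : Fin 3 → Ix n) (θ q : V) :
    sp (hh p n) (rngP c s (tr3 a) θ q) =
      LinearMap.range (hat (lab n l) (sdD p n s) a (fV p n θ) (hV p n q)) := by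
  rw [PG.rngP, sp_map (δ := hh p n) _ (fun y _ => h.hatP hs a θ q y),
    sp_units_top h.hp h.dh hh_surj, Submodule.map_top]

end Pool.Agent.P.MP_f1a348_lc.UP
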