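import Pool.Agent.P.MP_f1a348_lc.UP.OQMkg

/-!
Project UP: splitting a block.
-/

namespace Pool.Agent.P.MP_f1a348_lc.UP

open Matrix Module Pool.Agent.P.MP_f1a348_lc.PG

set_option linter.unusedSectionVars false

variable {p n : ℕ} [Fact p.Prime] {c : Cx}

namespace QSplity

theorem orb_lm (f : Mat p n) (B : Sub p n) (v : Vec p n) :
    orb (B.map (lm f)) v = (orb B v).map f.mulVecLin := by
  rw [orb, orb, ← Submodule.map_comp, ← Submodule.map_comp]
  congr 1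
  exact LinearMap.ext fun b => (Matrix.mulVec_mulVec v f b).symm

theorem fin_map {f : Mat p n} (hf : Un f) (W : VS p n) :
    finrank (ZMod p) (W.map f.mulVecLin) = finrank (ZMod p) W :=
  (Submodule.equivMapOfInjective f.mulVecLin
    (Function.LeftInverse.injective (g := fun x => st f *ᵥ x) hf.st_mulVec) W).finrank_eq.symm

theorem orb_stab {ℓ : Ix n → ℕ} {B : Sub p n} (hB : Alg ℓ B) {v : Vec p n} {b : Mat p n}
    (hb : b ∈ B) : ∀ w ∈ orb B v, b *ᵥ w ∈ orb B v := fun w hw => by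
  obtain ⟨a, ha, rfl⟩ := mem_orb.1 hw
  exact mem_orb.2 ⟨b * a, hB.mul b hb a ha, (Matrix.mulVec_mulVec v b a).symm⟩

theorem lr_eq (g : Mat p n) : lr (st g) g = cj (st g) :=
  LinearMap.ext fun C => by rw [lr_apply, cj_apply, st_st]

end QSplity

open QSplity in
protected theorem Ok.split (h : Ok p n c) (m : PM p n) (T0 T0' : V) {z : Lt × List Rt}
    (hl : Lab (lab n z.1.1)) (hB : Alg (lab n z.1.1) (alL p n z.1)) :
    (Sim (lab n z.1.1) (alL p n z.1) ∧ split c z = z) ∨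
    ∃ g, Stp p n T0 T0' z (split c z) g ∧ nblk (lab n z.1.1) < nblk (lab n (split c z).1.1) ∧
      nblk (lab n (split c z).1.1) ≤ 2 * n + 1 := by
  cases e : findP c z.1 with
  | none =>
    refine Or.inl ⟨(m.ref _ _ hl hB).2.2.2 fun α hα x hx h0 => ?_, by rw [PG.split, e]; rfl⟩
    obtain ⟨v, hv, rfl⟩ := ((h.blkP hl α).mem x).1 hx
    by_contra hn
    refine List.find?_eq_none.1 e (α.val, v) (List.mem_flatMap.2
      ⟨α.val, mem_ran.2 (α.2.trans_eq h.len1.symm), List.mem_map_of_mem hv⟩) ?_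
    simp only [Bool.and_eq_true, Nat.blt_eq, Bool.not_eq_true', h.cz, h.nbP, (h.orbP _ _).len]
    exact ⟨⟨hα, Bool.eq_false_iff.2 fun e => h0 ((isz_iff h.hp h.d1 v).1 e)⟩, not_le.1 hn⟩
  | some q =>
    have h2 := List.find?_some e
    obtain ⟨a, ha, hq⟩ := List.mem_flatMap.1 (List.mem_of_find?_eq_some e)
    obtain ⟨v, hv, rfl⟩ := List.mem_map.1 hq
    obtain ⟨α, rfl⟩ : ∃ α : Ix n, a = α.val := ⟨⟨a, h.len1 ▸ mem_ran.1 ha⟩, rfl⟩
    have hs : PG.split c z = (spLft c z.1 (α.val, v), z.2.map (spRgt c z.1 (α.val, v))) := by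
      rw [PG.split, e]; rfl
    have hW : Bas (vec p n) (2 * n + 1) (orbP c z.1.2.2 v) (orb (alL p n z.1) (vV p n v)) :=
      h.orbP _ _
    simp only [Bool.and_eq_true, Nat.blt_eq, Bool.not_eq_true', h.cz, h.nbP, hW.len] at h2
    obtain ⟨⟨hα, h0⟩, hlt⟩ := h2
    replace hα : c0 n < α := hα
    replace h0 : vV p n v ≠ 0 := fun e => Bool.eq_false_iff.1 h0 ((isz_iff h.hp h.d1 v).2 e)
    have hvB : vV p n v ∈ Vb (lab n z.1.1) α := ((h.blkP hl α).mem _).2 ⟨v, hv, rfl⟩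
    have hle : orb (alL p n z.1) (vV p n v) ≤ Vb (lab n z.1.1) α := fun w hw => by
      obtain ⟨b, hb, rfl⟩ := mem_orb.1 hw
      exact (hB.dg b hb).mulVec_mem hvB
    have hpos : 0 < finrank (ZMod p) (orb (alL p n z.1) (vV p n v)) :=
      Nat.pos_of_ne_zero fun e => h0 (by
        have h1 : vV p n v ∈ orb (alL p n z.1) (vV p n v) :=
          mem_orb.2 ⟨1, hB.one, Matrix.one_mulVec _⟩
        rwa [Submodule.finrank_eq_zero.1 e, Submodule.mem_bot] at h1)
    have hA := h.mkg m hl hα hW hle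
    have hc : lab n (cutP c z.1.1 α.val (orbP c z.1.2.2 v).length) =
        cutL (lab n z.1.1) α (finrank (ZMod p) (orb (alL p n z.1) (vV p n v))) := by
      rw [h.cutP hl, hW.len]
    have hc' : lab n (spLft c z.1 (α.val, v)).1 = _ := hc
    obtain ⟨c1, c2, c3, c4, -⟩ := m.cut _ α _ hl hα hpos hlt
    have href : Ref (lab n z.1.1) (alL p n z.1) (lab n (spLft c z.1 (α.val, v)).1)
        (mV p n (mkg c z.1.1 α.val (orbP c z.1.2.2 v))) (alL p n (spLft c z.1 (α.val, v))) := by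
      refine ⟨hc' ▸ c1, hc' ▸ c2, hA.par, hA.dg, fun b hb => ?_, ?_⟩
      · rw [hc']
        exact m.spl _ α _ _ _ _ b hl hα hle hle hpos hlt rfl hA hA (hB.dg b hb) (orb_stab hB hb)
          (orb_stab hB (hB.star b hb))
      · rw [← lr_eq]
        exact h.conjP _ _ _ _
    rw [hs]
    refine Or.inr ⟨_, ⟨href, h.mmul _ _, List.length_map _, ?_⟩, hc' ▸ c3, hc' ▸ c4⟩
    rintro ⟨y, hy, y1, φ, hφ, y2, y3⟩
    have hf := (hφ.gr hl).2.1
    have hW' : Bas (vec p n) (2 * n + 1) (orbP c y.2 v)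
        ((orb (alL p n z.1) (vV p n v)).map (gr (lab n z.1.1) φ).mulVecLin) := by
      rw [← orb_lm, ← y3]
      exact h.orbP _ _
    have hle' : (orb (alL p n z.1) (vV p n v)).map (gr (lab n z.1.1) φ).mulVecLin ≤
        Vb (lab n z.1.1) α := by
      rintro _ ⟨w, hw, rfl⟩
      exact (dg_gr φ).mulVec_mem (hle hw)
    have hA' := h.mkg m hl hα hW' hle'
    have ht := m.spl _ α _ _ _ _ (gr (lab n z.1.1) φ) hl hα hle hle' hpos hlt (fin_map hf _) hA hA'
      (dg_gr φ) (fun w hw => ⟨w, hw, rfl⟩) (by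
        rintro _ ⟨w, hw, rfl⟩
        rwa [Matrix.mulVecLin_apply, hf.st_mulVec])
    obtain ⟨i1, i2⟩ := m.inv _ _ _ _ _ _ φ hl href hφ hA'.par hA'.dg (hc' ▸ ht)
    have e1 : mV p n (spRgt c z.1 (α.val, v) y).1 = _ := h.mmul _ _
    have e2 : mV p n (spLft c z.1 (α.val, v)).2.1 = _ := h.mmul _ _
    refine ⟨_, List.mem_map_of_mem hy, e1 ▸ y1.mul hA'.par.l0, _, i1, ?_, ?_⟩
    · rw [e1, e2, pull1_mul, pull1_mul, pull1_mul, pull1_mul, hA'.par.2.1.pull1_st, y2]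
    · rw [← i2, ← y3]
      exact h.conjP _ _ _ _

end Pool.Agent.P.MP_f1a348_lc.UP
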