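import Pool.Agent.P.MP_f1a348_lc.UP.EIf

/-!
Project UP: the lists of representatives.
-/

namespace Pool.Agent.P.MP_f1a348_lc.UP

open Matrix Module Pool.Agent.P.MP_f1a348_lc.PG

theorem s_QREPS (p n : ℕ) [Fact p.Prime] (m : PM p n) (hQXQ : S_QXQ p n) (hQFIND : S_QFIND p n)
    (hNATK : S_NATK p n) : S_QREPS p n := by
  intro c l s t K SL a ρ w0 θ δ h hn hs hK hSL hw0 ha hρ hu hv hθ hδ
  have e1 : fV p n (axpy c (u3 c) 1 w0 (dif c δ δ (z0P c s))) =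
      fV p n w0 + (pull1 (z0 (lab n l) (sdD p n s).B) (fV p n δ) - fV p n δ) := by
    rw [fV, dv_axpy h.hp h.d3, Nat.cast_one, one_smul, ← h.z0P hs, ← h.dif]
  have e2 : fV p n (axpy c (u3 c) 1 θ (lamP c l s t ρ.2.2.2.1 δ)) =
      fV p n θ + lam (lab n l) (CL (sdD p n s)) t (tv p ρ.2.2.2.1) (fV p n δ) := by
    rw [fV, dv_axpy h.hp h.d3, Nat.cast_one, one_smul, ← h.clP, ← h.lamP]
  have hX := fun q q' => hQXQ c l s t K _ SL a ρ w0 _ θ _ q q' h hn hs hK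
    (hK.sft hs.str.lab hs.str.alg hδ) hSL (hSL.trans (spK_sft K _).symm) hw0
    (by rw [e1, sft]; convert hw0 using 1; abel) ha hρ.k hρ.t hu hv
    (fun h4 => ⟨(hθ h4).1, by rw [e2]; exact add_mem (hθ h4).1 (cmp_mem _ _)⟩) hρ.lo
  have hF := fun q q' => hQFIND c l _ h hs.str.lab fun x hx =>
    hs.str.alg.dg x (xq_le _ _ _ _ _ _ _ _ (hX q q' ▸ hx))
  refine ⟨(List.length_filterMap_le _ _).trans ?_, fun y hy => ?_, fun z w hz e => ?_⟩
  · rw [candK, cst]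
    by_cases h4 : ρ.1 = 4
    · have := length_qsP c l s (tr3 a)
      rw [h.hp, show (tr3 a).getD 0 0 = (a 0).val from rfl, show (tr3 a).getD 1 0 = (a 1).val from rfl,
        show (tr3 a).getD 2 0 = (a 2).val from rfl, h.nbP, h.rv, QPopy.len_cso h hs] at this
      rw [if_pos (show (rzD p a ρ).kind = 4 from h4), h4, ha, two_mul, pow_add]
      simpa [List.length_flatMap, rzD] using Nat.mul_le_mul this this
    · rw [if_neg (show ¬ (rzD p a ρ).kind = 4 from h4), beq_false_of_ne h4]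
      simp
  · obtain ⟨q, -, hq⟩ := List.mem_filterMap.1 hy
    exact ((hF q.1 q.2).1 y hq).mono (hX q.1 q.2 ▸ xq_le _ _ _ _ _ _ _ _)
  · obtain ⟨q, hq, q', hq', h0, hz'⟩ := hNATK _ _ t K _ _ _ w z hs hK hρ hθ hδ hz e
    obtain ⟨x, hx, rfl, rfl⟩ : ∃ x ∈ candK c l s ρ, hV p n x.1 = q ∧ hV p n x.2 = q' := by
      by_cases h4 : ρ.1 = 4
      · obtain ⟨x, hx, ex⟩ := ((h.qsP hs a).mem q).1 hq
        obtain ⟨x', hx', ex'⟩ := ((h.qsP hs a).mem q').1 hq'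
        refine ⟨(x, x'), ?_, ex, ex'⟩
        rw [candK, h4, ha]
        exact List.mem_flatMap.2 ⟨x, hx, List.mem_map_of_mem hx'⟩
      · refine ⟨([], []), ?_, dv_nil.trans (h0 h4).1.symm, dv_nil.trans (h0 h4).2.symm⟩
        rw [candK, beq_false_of_ne h4]
        exact List.mem_singleton_self _
    have hc := xq_cos hs.str.alg K (sft K (fV p n δ)) (rzD p a ρ) (fV p n θ)
      (fV p n (axpy c (u3 c) 1 θ (lamP c l s t ρ.2.2.2.1 δ))) (hV p n x.1) (hV p n x.2)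
    rw [← hX] at hc
    rw [show (rzD p a ρ).c = tv p ρ.2.2.2.1 from rfl, ← e2, ← hX] at hz'
    obtain ⟨y, hy⟩ := Option.isSome_iff_exists.1 ((hF x.1 x.2).2 _ (aq_alg hs.str.alg _ _ _) hc
      ⟨z, hz', (hK.mem _ _ hz).1.2⟩)
    exact ⟨y, List.mem_filterMap.2 ⟨x, hx, hy⟩, hc.quo _ ((hF x.1 x.2).1 y hy).1 _ hz'⟩

end Pool.Agent.P.MP_f1a348_lc.UP
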