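import Pool.Agent.P.MP_f1a348_lc.UP.EBase

/-! Project UP: perfect groups of stabilisers lie in the smaller algebra. -/

namespace Pool.Agent.P.MP_f1a348_lc.UP

open Matrix Module Pool.Agent.P.MP_f1a348_lc.PG

theorem s_SEMI (p n : ℕ) [Fact p.Prime] (m : PM p n) (hNATK : S_NATK p n) (hSEM0 : S_SEM0 p n) :
    S_SEMI p n := by
  have _ := m.five
  intro ℓ s t K ρ θ Y hs hK hρ hθ ht hY hP hy y hyY
  by_cases h4 : ρ.kind = 4
  · obtain ⟨a1, a2⟩ := hθ h4.ge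
    have t0 : Triv ℓ s.B (ρ.a 0) := (hρ.pin h4).resolve_right fun h => ht.elim fun j hj => h j hj
    have hW : perm (pm ρ.k) θ ∈ Wt ℓ (key ℓ ρ.a) :=
      perm_mem_Wt hs.str.lab (pm_bij ρ.k) (a := ρ.a) (by rw [← hρ.t] at a1; exact a1)
    have hT : ∀ y ∈ Y, U1 s.B y ∧ pull1 y (perm (pm ρ.k) θ) - perm (pm ρ.k) θ ∈ Tr ℓ s.B :=
      fun y h => ⟨(hK.mem _ _ (hy y h)).1, by
        have := perm_mem_Tr hs.str (pm_bij ρ.k) (a2 y 0 (hy y h))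
        rwa [map_zero, sub_zero, map_sub, ← pull1_perm (pm_bij ρ.k)] at this⟩
    have hu := hSEM0 ℓ s ρ.a _ ρ.u Y hs hW t0 hρ.u hY hP hT y hyY
    have hv := hSEM0 ℓ s ρ.a _ ρ.v Y hs hW t0 hρ.v hY hP hT y hyY
    have e : ∀ q, Ed ℓ s K ρ θ q = D4 ℓ s ρ.a (perm (pm ρ.k) θ) q := fun q => by
      rw [Ed, if_neg (by omega), if_neg (by omega), if_pos h4]
    rw [Aq, Xq, e, e]
    exact mem_Ht.2 ⟨hu, hv.2⟩
  · obtain ⟨q, _, q', _, _, h⟩ := hNATK ℓ s t K ρ θ 0 0 y hs hK hρ hθ (zero_mem _) (hy y hyY)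
      (by simp)
    have e : ∀ q q', Ed ℓ s K ρ θ q = Ed ℓ s K ρ θ q' := fun q q' => by
      simp only [Ed, if_neg h4]
    rw [sft_zero, map_zero, add_zero, Xq, e q (ρ.u, 0), e q' (ρ.v, 0)] at h
    exact h

end Pool.Agent.P.MP_f1a348_lc.UP
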