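import Pool.Agent.P.MP_f1a348_lc.UP.EBase

/-! Project UP: the step from one level to the next, for relations. -/

namespace Pool.Agent.P.MP_f1a348_lc.UP

open Matrix Module Pool.Agent.P.MP_f1a348_lc.PG

theorem s_STEPK (p n : ℕ) [Fact p.Prime] (m : PM p n) (hSTAK : S_STAK p n) (hSTCK : S_STCK p n)
    (hWP : S_WP p n) : S_STEPK p n := by
  intro ℓ s a K hs hb hK h2 h3 hT z w hw
  have h := hs.str
  have hl := h.lab
  by_cases hj : ∃ j, ¬ Triv ℓ s.B (a j)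
  · refine hSTCK ℓ s _ K hs hK h3 (fun y u hu => ?_) z w hw
    obtain ⟨v, hv, w', hw', e⟩ := Submodule.mem_sup.1 (hSTAK ℓ s _ K hs hK h2 y u hu)
    have h4 := hK.adjust hu (neg_mem hv)
    rw [← e, add_neg_cancel_comm] at h4
    rw [← e]
    refine add_mem (Submodule.mem_sup_left hv) (m.mid ℓ s.B a _ _ h hb hK.sp_le
      (fun z hz v hv => hK.pull_sp (u1_of_lo h hz) hv) hw' fun μ hμ hS => ?_)
    obtain ⟨c, e⟩ := (m.lamaa ℓ s a hs).2 μ hμ
    have e' : ∀ w ∈ Wt ℓ (key ℓ a), lam ℓ (CL s) (key ℓ a) c w = μ w := fun w hw => by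
      rw [← e, LinearMap.comp_apply, mem_Wt_iff.1 hw]
    exact e' _ (hK.mem _ _ h4).2 ▸ hT hj c (fun w hw => e' w (hK.sp_le hw) ▸ hS w hw) _ _ h4
  · refine hK.hom_arg hl h.alg (hWP ℓ s.B h) le_rfl (fun _ _ u => (hK.mem _ _ u).2)
      (fun y hy w hw => ?_) hw
    rw [Wt_ext hl (pull1_mem_Wt hl (h.alg.dg y hy.1) hw) hw fun x hx => by
      rw [ev_pull1]
      exact congrArg _ (funext fun j => hy.triv h (not_not.1 fun h => hj ⟨j, h⟩) (hx j)),
      sub_self]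
    exact zero_mem _

end Pool.Agent.P.MP_f1a348_lc.UP
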