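import Pool.Agent.P.MP_f1a348_lc.UP.EBase

/-! The unitary group of a semisimple algebra has no quotient of order `p`. -/

namespace Pool.Agent.P.MP_f1a348_lc.UP

open Matrix Module Pool.Agent.P.MP_f1a348_lc.PG

namespace WPy

variable {p n : ℕ} [Fact p.Prime] {ℓ : Ix n → ℕ} {B : Sub p n} {f : Mat p n → ZMod p}

theorem compl (h : Str ℓ B) {W : VS p n} (hW : Stab B W) : ∃ W', IsCompl W W' ∧ Stab B W' := by
  obtain ⟨W1, ⟨h1, h2⟩, hmax⟩ := set_has_maximal_iff_noetherian.2
    (inferInstance : IsNoetherian (ZMod p) (Vec p n))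
    {W1 : VS p n | Stab B W1 ∧ Disjoint W W1} ⟨⊥, stab_bot, disjoint_bot_right⟩
  refine ⟨W1, ⟨h2, codisjoint_iff.2 (eq_top_iff.2 fun x _ => mem_of_blocks h.lab fun a => ?_)⟩, h1⟩
  have hx := pr_mulVec_mem (ℓ := ℓ) a x
  generalize pr ℓ a *ᵥ x = x at hx
  by_contra e
  refine hmax _ ⟨h1.sup (stab_orb x), Submodule.disjoint_def.2 fun w hw hw' => ?_⟩
    (lt_of_le_of_ne le_sup_left fun e2 =>
      e (Submodule.mem_sup_right (e2 ▸ Submodule.mem_sup_right (self_mem_orb x))))
  obtain ⟨w1, a1, v, a2, rfl⟩ := Submodule.mem_sup.1 hw'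
  by_cases e0 : v = 0
  · rw [e0, add_zero] at hw ⊢
    exact Submodule.disjoint_def.1 h2 _ hw a1
  · exact absurd (mem_of_orb h (hW.sup h1) hx a2 e0 (by
      simpa using sub_mem (Submodule.mem_sup_left hw) (Submodule.mem_sup_right (S := W) a1))) e

theorem half (hp : 5 ≤ p) : ∃ c : ZMod p, c + c = 1 :=
  ⟨2⁻¹, by rw [← two_mul, mul_inv_cancel₀ (two_ne_zero' hp)]⟩

theorem kill {x e g : Mat p n} (h : ∀ v, e *ᵥ v ∈ im x) (hg : g * x = 0) : g * e = 0 :=
  mat_ext fun v => by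
    obtain ⟨w, hw⟩ := mem_im.1 (h v)
    rw [← mulVec_mulVec, ← hw, mulVec_mulVec, hg, zero_mulVec, zero_mulVec]

theorem iso_of (hp : 5 ≤ p) (h : Str ℓ B) {x : Mat p n} (hx : x ∈ B) (h0 : st x * x = 0) :
    ∃ a ∈ B, Iso a ∧ a * x = x ∧ ∀ v, a *ᵥ v ∈ im x := by
  obtain ⟨W', h1, h2⟩ := compl h (stab_im hx)
  obtain ⟨e, he, e1, -, e2, e3⟩ := proj_mem h h1 (stab_im hx) h2
  obtain ⟨c, hc⟩ := half hp
  have e4 : st e * x = 0 := by rw [← st_eq_zero, st_mul, st_st, kill e3 h0]
  have e5 := kill e3 e4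
  have e6 : st e * st e = st e := by rw [← st_mul, e2]
  have e7 : st (e - c • (e * st e)) = st e - c • (e * st e) := by
    rw [st_sub, st_smul, st_mul, st_st]
  have e8 : ∀ z, e * (e * z) = e * z := fun z => by rw [← mul_assoc, e2]
  have e9 : ∀ z, st e * (e * z) = 0 := fun z => by rw [← mul_assoc, e5, zero_mul]
  refine ⟨e - c • (e * st e), sub_mem he (B.smul_mem _ (h.alg.mul _ he _ (h.alg.star _ he))),
    ⟨?_, ?_, ?_⟩, ?_, fun v => ?_⟩
  · simp only [mul_sub, sub_mul, smul_mul_assoc, mul_smul_comm, mul_assoc, e2, e5, e8, e9,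
      mul_zero, smul_zero, sub_zero]
  · simp only [e7, mul_sub, sub_mul, smul_mul_assoc, mul_smul_comm, mul_assoc, e6, e8, e9,
      mul_zero, smul_zero, sub_zero]
    rw [sub_sub, ← add_smul, hc, one_smul, sub_self]
  · simp only [e7, mul_sub, sub_mul, smul_mul_assoc, mul_smul_comm, mul_assoc, e5, e9,
      mul_zero, smul_zero, sub_zero]
  · rw [sub_mul, smul_mul_assoc, mul_assoc, e4, mul_zero, smul_zero, sub_zero]
    exact mat_ext fun v => by rw [← mulVec_mulVec, e1 _ (mem_im.2 ⟨v, rfl⟩)]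
  · rw [sub_mulVec, smul_mulVec, ← mulVec_mulVec]
    exact sub_mem (e3 _) (Submodule.smul_mem _ _ (e3 _))

theorem chi (h : Str ℓ B) {a : Mat p n} (ha : a ∈ B) (hi : Iso a) :
    a (c0 n) (c0 n) = 0 ∧ st a (c0 n) (c0 n) = 0 := by
  have := ((h.alg.dg a ha).tri h.lab).mul_c0 (h := st a)
  rw [hi.2.1, st_apply, rev_c0, eq_comm, Matrix.zero_apply, mul_self_eq_zero] at this
  exact ⟨this, by rw [st_apply, rev_c0, this]⟩

section
variable (h : Str ℓ B) (hf : ∀ a, U1 B a → ∀ b, U1 B b → f (a * b) = f a + f b)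
include h hf

theorem f_one : f 1 = 0 := by simpa using hf 1 (u1_one h.alg) 1 (u1_one h.alg)

theorem f_pow {u : Mat p n} (hu : U1 B u) (k : ℕ) : U1 B (u ^ k) ∧ f (u ^ k) = k * f u := by
  induction k with
  | zero => simpa using ⟨u1_one h.alg, f_one h hf⟩
  | succ k ih =>
    rw [pow_succ, hf _ ih.1 _ hu, ih.2]
    exact ⟨ih.1.mul h.lab h.alg hu, by push_cast; ring⟩

theorem f_conj {t u : Mat p n} (ht : U1 B t) (hu : U1 B u) : f (t * u * st t) = f u := by
  have h1 := ht.star h.lab h.alg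
  have h2 := hf _ ht _ h1
  rw [ht.2.1.mul_st, f_one h hf] at h2
  rw [hf _ (ht.mul h.lab h.alg hu) _ h1, hf _ ht _ hu]
  linear_combination -h2

theorem rad (hp : 5 ≤ p) {a N : Mat p n} (ha : a ∈ B) (hi : Iso a) (hr : U1 B (1 + N))
    (h1 : N * a = 0) (h2 : st a * N = 0) (h3 : (1 - a - st a) * N * (1 - a - st a) = 0) :
    f (1 + N) = 0 := by
  obtain ⟨c, hc⟩ := half hp
  obtain ⟨c1, c2⟩ := chi h ha hi
  have hb := h.alg.star a ha
  have bb := hi.star.1
  obtain ⟨aa, ab, ba⟩ := hi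
  have e : st (1 + a - c • st a) = 1 + st a - c • a := by
    rw [st_sub, st_add, st_smul, st_st, st_one]
  generalize st a = b at *
  have hc' : ∀ x : Mat p n, c • x + c • x = x := fun x => by rw [← add_smul, hc, one_smul]
  have ht : U1 B (1 + a - c • b) := by
    refine ⟨sub_mem (add_mem h.alg.one ha) (B.smul_mem _ hb), ?_, by simp [c1, c2]⟩
    rw [Un, e]
    simp only [mul_sub, sub_mul, mul_add, add_mul, smul_mul_assoc, mul_smul_comm, aa, ab, ba, bb,
      mul_one, one_mul, smul_zero, add_zero, sub_zero, smul_add]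
    linear_combination (norm := abel) -hc' a - hc' b
  have ts := ht.2.1.mul_st
  have hj := fun u => f_conj h hf (u := u) ht
  rw [e] at ts hj
  have ta : (1 + a - c • b) * a = a + a := by simp [sub_mul, add_mul, aa, ba]
  have bs : b * (1 + b - c • a) = b + b := by simp [mul_sub, mul_add, bb, ba]
  have tN : (1 + a - c • b) * N = N + a * N := by simp [sub_mul, add_mul, h2]
  have Ns : N * (1 + b - c • a) = N + N * b := by simp [mul_sub, mul_add, h1]
  have hs : U1 B (1 + b - c • a) := e ▸ ht.star h.lab h.alg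
  generalize 1 + a - c • b = t at *
  generalize 1 + b - c • a = s at *
  have r0 : a * N + N * b = N + a * N * b := by
    simp only [mul_sub, sub_mul, mul_one, one_mul, mul_assoc, h1, h2, mul_zero, zero_mul] at h3 ⊢
    linear_combination (norm := abel) -h3
  have r1 : a * (N * N) = N * N := by
    simpa [add_mul, mul_assoc, h2] using congrArg (· * N) r0
  have r2 : N * N * b = N * N := by
    simpa [mul_add, ← mul_assoc, h1] using congrArg (N * ·) r0
  obtain ⟨w, hw⟩ : ∃ w, w = a * N * b + a * N * b - N * N := ⟨_, rfl⟩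
  have w1 : a * w = w := by rw [hw, mul_sub, r1, mul_add, ← mul_assoc, ← mul_assoc, aa]
  have w2 : w * b = w := by rw [hw, sub_mul, r2, add_mul, mul_assoc _ b, bb]
  have w3 : N * w = 0 := by rw [← w1, ← mul_assoc, h1, zero_mul]
  have w4 : w * w = 0 := by
    have : w * b * (a * w) = 0 := by rw [mul_assoc, ← mul_assoc b, ba, zero_mul, mul_zero]
    rwa [w1, w2] at this
  have k1 : t * (1 + N) * s = (1 + N) * (1 + N) * (1 + w) := by
    rw [mul_add t, mul_one, add_mul, ts, tN, add_mul, mul_assoc a, Ns]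
    simp only [mul_add, add_mul, mul_one, one_mul, mul_assoc N N w, w3, mul_zero, ← mul_assoc a]
    linear_combination (norm := abel) r0 - hw
  have k2 : t * (1 + w) * s = (1 + w) ^ 4 := by
    have q1 : t * w = w + w := by simpa only [mul_assoc, add_mul, w1] using congrArg (· * w) ta
    have q2 : w * s = w + w := by simpa only [← mul_assoc, mul_add, w2] using congrArg (w * ·) bs
    rw [show 4 = 2 * 2 from rfl, pow_mul, pow_two, pow_two]
    simp only [mul_add, add_mul, mul_one, one_mul, ts, q1, q2, w4, add_zero]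
    abel
  have hq := hr.mul h.lab h.alg hr
  have hz : U1 B (1 + w) := by
    have := (hq.star h.lab h.alg).mul h.lab h.alg ((ht.mul h.lab h.alg hr).mul h.lab h.alg hs)
    rwa [k1, ← mul_assoc, hq.2.1.st_mul, one_mul] at this
  have k3 := hj _ hz
  have k4 := hj _ hr
  rw [k2, (f_pow h hf hz 4).2] at k3
  rw [k1, hf _ hq _ hz, hf _ hr _ hr] at k4
  have k5 : ((3 : ℕ) : ZMod p) ≠ 0 := fun e =>
    absurd (Nat.le_of_dvd (by norm_num) ((ZMod.natCast_eq_zero_iff 3 p).1 e)) (by omega)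
  have k6 : f (1 + w) = 0 :=
    (mul_eq_zero.1 (by push_cast at k3 ⊢; linear_combination k3)).resolve_left k5
  linear_combination k4 - k6

theorem main (hp : 5 ≤ p) (W : VS p n) : ∀ u, U1 B u → im (u - 1) ≤ W → f u = 0 := by
  induction W using WellFoundedLT.induction with
  | ind W ih =>
  intro u hu0 hW0
  obtain ⟨M, hM, e⟩ :=
    (IsUnit.isOfFinOrder (IsUnit.of_mul_eq_one _ hu0.2.1.mul_st)).exists_pow_eq_one
  obtain ⟨k, m, hm, rfl⟩ := Nat.exists_eq_pow_mul_and_not_dvd hM.ne' p (Fact.out : p.Prime).ne_one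
  obtain ⟨hu, e1⟩ := f_pow h hf hu0 m
  suffices f (u ^ m) = 0 from (mul_eq_zero.1 (e1 ▸ this)).resolve_left
    fun e => hm ((ZMod.natCast_eq_zero_iff m p).1 e)
  have hW : ∀ v, (u ^ m - 1) *ᵥ v ∈ W := fun v => by
    rw [← mul_geom_sum, ← mulVec_mulVec]
    exact hW0 (mem_im.2 ⟨_, rfl⟩)
  have hn : ∃ j, (u ^ m - 1) ^ (j + 1) = 0 := ⟨p ^ k, by
    rw [pow_succ, sub_pow_char_pow_of_commute _ _ (Commute.one_right _), ← pow_mul, mul_comm m, e,
      one_pow, sub_self, zero_mul]⟩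
  obtain ⟨N, hN⟩ : ∃ N, u ^ m = 1 + N := ⟨u ^ m - 1, by simp⟩
  rw [hN] at hu hW hn ⊢
  rw [add_sub_cancel_left] at hW hn
  classical
  have j1 := Nat.find_spec hn
  rcases j0 : Nat.find hn with _ | j
  · rw [j0, zero_add, pow_one] at j1
    rw [j1, add_zero, f_one h hf]
  have j2 := Nat.find_min hn (m := j) (by omega)
  rw [j0, pow_succ'] at j1
  have nB : N ∈ B := by simpa using sub_mem hu.1 h.alg.one
  have un : N + st N + st N * N = 0 := by
    have := hu.2.1.st_mul
    rw [st_add, st_one, add_mul, one_mul, mul_add, mul_one] at this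
    linear_combination (norm := abel) this
  have j3 : st N * N ^ (j + 1) = 0 := by
    simpa [add_mul, mul_assoc, j1] using congrArg (· * N ^ (j + 1)) un
  have xB : ∀ i, N ^ i ∈ B := fun i => by
    induction i with
    | zero => simpa using h.alg.one
    | succ i ih => exact pow_succ N i ▸ h.alg.mul _ ih _ nB
  obtain ⟨a, ha, hi, a1, a2⟩ := iso_of hp h (xB (j + 1))
    (by rw [st_pow, pow_succ, mul_assoc, j3, mul_zero])
  have a3 := kill a2 j1
  have a4 := kill a2 j3
  have a5 : st a * N = 0 := by rw [← st_eq_zero, st_mul, st_st, a4]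
  have xW : ∀ v, N ^ (j + 1) *ᵥ v ∈ W := fun v => by
    rw [pow_succ', ← mulVec_mulVec]
    exact hW _
  obtain ⟨c, hc⟩ : ∃ c, c = 1 - a - st a := ⟨_, rfl⟩
  have cB : c ∈ B := hc ▸ sub_mem (sub_mem h.alg.one ha) (h.alg.star a ha)
  have c1 : st c = c := by rw [hc, st_sub, st_sub, st_st, st_one, sub_right_comm]
  have c2 : c * a = 0 := by simp [hc, sub_mul, hi.1, hi.2.2]
  have c3 : st a * c = 0 := by rw [← st_eq_zero, st_mul, st_st, c1, c2]
  have c4 : a * c = 0 := by simp [hc, mul_sub, hi.1, hi.2.1]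
  have c5 : c * c = c := by
    nth_rw 1 [hc]
    rw [sub_mul, sub_mul, c3, c4, one_mul, sub_zero, sub_zero]
  have c6 : c * N = N - a * N := by simp [hc, sub_mul, a5]
  have c7 : st N * (c * N) = st N * N := by
    rw [c6, mul_sub, ← mul_assoc, a4, zero_mul, sub_zero]
  have c8 : ∀ z, c * (c * z) = c * z := fun z => by rw [← mul_assoc, c5]
  have c9 : c * (N * c) + c * (st N * c) + c * (st N * (c * (N * c))) = 0 := by
    rw [← mul_assoc c N c, ← mul_assoc (st N), c7]
    simpa only [mul_add, add_mul, mul_assoc, zero_mul, mul_zero] using congrArg (c * · * c) un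
  have s1 : st (1 + c * N * c) = 1 + c * (st N * c) := by rw [st_add, st_one, st_mul, st_mul, c1]
  have h1 : U1 B (1 + c * N * c) := by
    refine ⟨add_mem h.alg.one (h.alg.mul _ (h.alg.mul _ cB _ nB) _ cB), ?_, ?_⟩
    · rw [Un, s1]
      simp only [mul_add, add_mul, mul_one, one_mul, mul_assoc, c8]
      linear_combination (norm := abel) c9
    · have t1 := fun x hx => (h.alg.dg x hx).tri h.lab
      have t2 : N (c0 n) (c0 n) = 0 := by simpa using hu.2.2
      simp [(t1 _ (h.alg.mul _ cB _ nB)).mul_c0, (t1 _ cB).mul_c0, t2]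
  have h2 := (h1.star h.lab h.alg).mul h.lab h.alg hu
  have h3 := hf _ h1 _ h2
  rw [← mul_assoc, h1.2.1.mul_st, one_mul] at h3
  have s2 : st (1 + c * N * c) * (1 + N) = 1 + (N + c * (st N * c) + c * (st N * (c * N))) := by
    rw [s1]
    noncomm_ring
  rw [s2] at h2 h3
  rw [h3, rad h hf hp ha hi h2 (by simp [add_mul, mul_assoc, a3, c2])
    (by simp [mul_add, ← mul_assoc, a5, c3])
    (by simpa only [← hc, mul_add, add_mul, mul_assoc, c8, c5] using c9), add_zero]
  refine ih (W ⊓ LinearMap.ker a.mulVecLin) (inf_lt_left.2 fun e => j2 (mat_ext fun v => ?_)) _ h1 ?_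
  · have : a *ᵥ _ = 0 := e (xW v)
    rwa [mulVec_mulVec, a1, ← zero_mulVec v] at this
  · rintro _ ⟨v, rfl⟩
    rw [add_sub_cancel_left, mulVecLin_apply]
    refine ⟨?_, ?_⟩
    · rw [c6, ← mulVec_mulVec, sub_mulVec, ← mulVec_mulVec]
      obtain ⟨w, hw⟩ := mem_im.1 (a2 (N *ᵥ c *ᵥ v))
      exact sub_mem (hW _) (hw ▸ xW w)
    · show a *ᵥ _ = 0
      rw [mulVec_mulVec, ← mul_assoc, ← mul_assoc, c4, zero_mul, zero_mul, zero_mulVec]

end

end WPy

theorem s_WP (p n : ℕ) [Fact p.Prime] (m : PM p n) : S_WP p n :=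
  fun _ _ h _ hf a ha => WPy.main h hf m.five ⊤ a ha le_top

end Pool.Agent.P.MP_f1a348_lc.UP
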